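import Mathlib

namespace Pool.Agent.MP_83fd13_an

open MeasureTheory Filter
open scoped Topology ComplexConjugate

theorem integral_norm_pow_disc (k : ℕ) :
    ∫ w in Metric.ball (0 : ℂ) 1, ‖w‖ ^ (2 * k) = Real.pi / (k + 1) := by
  have h1 : ∫ w in Metric.ball (0 : ℂ) 1, ‖w‖ ^ (2 * k)
      = ∫ w : ℂ, (Set.Iio (1 : ℝ)).indicator (fun r => r ^ (2 * k)) ‖w‖ := by
    rw [← integral_indicator Metric.isOpen_ball.measurableSet]
    congr 1
    ext w
    by_cases hw : ‖w‖ < 1
    · rw [Set.indicator_of_mem (by simpa using hw), Set.indicator_of_mem (by simpa using hw)]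
    · rw [Set.indicator_of_notMem (by simpa using hw), Set.indicator_of_notMem (by simpa using hw)]
  rw [h1, integral_fun_norm_addHaar]
  have h2 : ∫ y in Set.Ioi (0 : ℝ), y ^ (Module.finrank ℝ ℂ - 1) •
      (Set.Iio (1 : ℝ)).indicator (fun r => r ^ (2 * k)) y = 1 / (2 * k + 2) := by
    have h3 : ∀ y : ℝ, y ^ (Module.finrank ℝ ℂ - 1) •
      (Set.Iio (1 : ℝ)).indicator (fun r => r ^ (2 * k)) y
      = (Set.Iio (1 : ℝ)).indicator (fun r => r ^ (2 * k + 1)) y := by
      intro y
      simp only [Complex.finrank_real_complex, Nat.add_one_sub_one, smul_eq_mul]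
      by_cases hy : y < 1
      · rw [Set.indicator_of_mem (by simpa using hy), Set.indicator_of_mem (by simpa using hy)]
        ring
      · rw [Set.indicator_of_notMem (by simpa using hy),
          Set.indicator_of_notMem (by simpa using hy), mul_zero]
    simp_rw [h3]
    rw [setIntegral_indicator measurableSet_Iio]
    have h4 : Set.Ioi (0 : ℝ) ∩ Set.Iio 1 = Set.Ioo 0 1 := by ext; simp
    rw [h4, ← integral_Ioc_eq_integral_Ioo, ← intervalIntegral.integral_of_le zero_le_one,
      integral_pow]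
    push_cast
    norm_num
    ring
  rw [h2]
  have h5 : (volume : Measure ℂ).real (Metric.ball (0 : ℂ) 1) = Real.pi := by
    rw [Measure.real, Complex.volume_ball]
    simp
  rw [h5]
  simp only [Complex.finrank_real_complex, smul_eq_mul, nsmul_eq_mul]
  push_cast
  field_simp

theorem integral_monomial (j k : ℕ) :
    ∫ w in Metric.ball (0 : ℂ) 1, w ^ j * (conj w) ^ k
      = if j = k then ((Real.pi / (k + 1) : ℝ) : ℂ) else 0 := by
  by_cases hjk : j = k
  · subst hjk
    rw [if_pos rfl, ← integral_norm_pow_disc j, ← integral_complex_ofReal]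
    congr 1
    ext w
    rw [← mul_pow, Complex.mul_conj, Complex.normSq_eq_norm_sq]
    push_cast
    rw [← pow_mul]
  · rw [if_neg hjk]
    -- rotate
    set θ : ℝ := Real.pi / ((j : ℝ) - k) with hθ
    have hjk' : (j : ℝ) - k ≠ 0 := by
      rw [sub_ne_zero]; exact_mod_cast hjk
    set e : ℂ := Complex.exp (θ * Complex.I) with he
    have hne : ‖e‖ = 1 := Complex.norm_exp_ofReal_mul_I θ
    have hrot : e ^ j * (conj e) ^ k = -1 := by
      have h1 : conj e = Complex.exp (-(θ * Complex.I)) := by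
        rw [he, ← Complex.exp_conj]; simp
      rw [h1, he, ← Complex.exp_nat_mul, ← Complex.exp_nat_mul, ← Complex.exp_add]
      have h2 : (j : ℂ) * (θ * Complex.I) + k * -(θ * Complex.I)
          = (Real.pi : ℂ) * Complex.I := by
        have h3 : ((j : ℝ) - k) * θ = Real.pi := by rw [hθ]; field_simp
        have h4 : ((j : ℂ) - k) * θ = (Real.pi : ℂ) := by exact_mod_cast h3
        linear_combination Complex.I * h4
      rw [h2, Complex.exp_pi_mul_I]
    set R : ℂ ≃ₗᵢ[ℝ] ℂ := rotation (Circle.exp θ) with hR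
    have hRa : ∀ w, R w = e * w := by
      intro w
      rw [hR, rotation_apply, Circle.coe_exp, he]
    have hpre : R ⁻¹' (Metric.ball (0 : ℂ) 1) = Metric.ball (0 : ℂ) 1 := by
      ext w
      simp
    have h5 := R.measurePreserving.setIntegral_preimage_emb
      (R.toHomeomorph.measurableEmbedding) (fun w => w ^ j * (conj w) ^ k)
      (Metric.ball (0 : ℂ) 1)
    rw [hpre] at h5
    have h6 : ∫ w in Metric.ball (0 : ℂ) 1, (R w) ^ j * (conj (R w)) ^ k
        = - ∫ w in Metric.ball (0 : ℂ) 1, w ^ j * (conj w) ^ k := by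
      rw [← integral_neg]
      congr 1
      ext w
      rw [hRa, map_mul, mul_pow, mul_pow]
      linear_combination (w ^ j * (conj w) ^ k) * hrot
    have h7 := h6.symm.trans h5
    linear_combination (-1/2 : ℂ) * h7

theorem norm_lt_one_of_mem {w : ℂ} (hw : w ∈ Metric.ball (0 : ℂ) 1) : ‖w‖ < 1 := by
  simpa using hw

instance : IsFiniteMeasure (volume.restrict (Metric.ball (0 : ℂ) 1)) :=
  ⟨by rw [Measure.restrict_apply_univ]; exact measure_ball_lt_top⟩

theorem hasSum_disc_aux {g : ℂ → ℂ}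
    (hgm : AEStronglyMeasurable g (volume.restrict (Metric.ball (0 : ℂ) 1)))
    {C : ℝ} (hgb : ∀ w ∈ Metric.ball (0 : ℂ) 1, ‖g w‖ ≤ C)
    {x : ℕ → ℂ} (hx : Summable fun n => ‖x n‖) {f : ℂ → ℂ}
    (hf : ∀ w ∈ Metric.ball (0 : ℂ) 1, HasSum (fun n => x n * w ^ n) (f w)) :
    HasSum (fun n => x n * ∫ w in Metric.ball (0 : ℂ) 1, w ^ n * g w)
      (∫ w in Metric.ball (0 : ℂ) 1, f w * g w) := by
  have hball : MeasurableSet (Metric.ball (0 : ℂ) 1) := Metric.isOpen_ball.measurableSet
  have h1 : HasSum (fun n => ∫ w in Metric.ball (0 : ℂ) 1, (x n * w ^ n) * g w)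
      (∫ w in Metric.ball (0 : ℂ) 1, f w * g w) := by
    apply hasSum_integral_of_dominated_convergence (fun n _ => ‖x n‖ * C)
    · intro n
      exact (Continuous.aestronglyMeasurable (by fun_prop)).mul hgm
    · intro n
      refine (ae_restrict_iff' hball).2 (Eventually.of_forall fun w hw => ?_)
      have hw1 := (norm_lt_one_of_mem hw).le
      rw [norm_mul, norm_mul, norm_pow]
      have h2 : ‖w‖ ^ n ≤ 1 := pow_le_one₀ (norm_nonneg _) hw1
      have h3 := hgb w hw
      have h4 : 0 ≤ C := (norm_nonneg _).trans h3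
      calc ‖x n‖ * ‖w‖ ^ n * ‖g w‖ ≤ ‖x n‖ * 1 * C := by gcongr
        _ = ‖x n‖ * C := by ring
    · exact Eventually.of_forall fun w => hx.mul_right C
    · exact integrable_const _
    · refine (ae_restrict_iff' hball).2 (Eventually.of_forall fun w hw => ?_)
      exact (hf w hw).mul_right (g w)
  convert h1 using 1
  funext n
  rw [← integral_const_mul]
  congr 1
  ext w
  ring

theorem hasSum_disc {x y : ℕ → ℂ} (hx : Summable fun n => ‖x n‖) (hy : Summable fun n => ‖y n‖)
    {f g : ℂ → ℂ}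
    (hf : ∀ w ∈ Metric.ball (0 : ℂ) 1, HasSum (fun n => x n * w ^ n) (f w))
    (hg : ∀ w ∈ Metric.ball (0 : ℂ) 1, HasSum (fun n => y n * w ^ n) (g w))
    (hgc : ContinuousOn g (Metric.ball (0 : ℂ) 1)) :
    HasSum (fun n => x n * (conj (y n) * ((Real.pi / (n + 1) : ℝ) : ℂ)))
      (∫ w in Metric.ball (0 : ℂ) 1, f w * conj (g w)) := by
  have hball : MeasurableSet (Metric.ball (0 : ℂ) 1) := Metric.isOpen_ball.measurableSet
  have hcont : Continuous (fun w : ℂ => conj w) := Complex.continuous_conj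
  have bound : ∀ (z : ℕ → ℂ), (Summable fun n => ‖z n‖) → ∀ (h : ℂ → ℂ),
      (∀ w ∈ Metric.ball (0 : ℂ) 1, HasSum (fun n => z n * w ^ n) (h w)) →
      ∀ w ∈ Metric.ball (0 : ℂ) 1, ‖h w‖ ≤ ∑' n, ‖z n‖ := by
    intro z hz h hh w hw
    rw [← (hh w hw).tsum_eq]
    have hw1 := (norm_lt_one_of_mem hw).le
    have h2 : ∀ n, ‖z n * w ^ n‖ ≤ ‖z n‖ := by
      intro n
      rw [norm_mul, norm_pow]
      exact mul_le_of_le_one_right (norm_nonneg _) (pow_le_one₀ (norm_nonneg _) hw1)
    exact tsum_of_norm_bounded hz.hasSum h2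
  have h1 := hasSum_disc_aux (g := fun w => conj (g w))
    ((Complex.continuous_conj.comp_continuousOn hgc).aestronglyMeasurable hball)
    (C := ∑' n, ‖y n‖) (fun w hw => by rw [RCLike.norm_conj]; exact bound y hy g hg w hw) hx hf
  convert h1 using 1
  funext n
  congr 1
  -- inner integral
  have h2 := hasSum_disc_aux (g := fun w => conj (w ^ n))
    (Continuous.aestronglyMeasurable (by fun_prop))
    (C := 1) (fun w hw => by
      rw [RCLike.norm_conj, norm_pow]
      exact pow_le_one₀ (norm_nonneg _) (norm_lt_one_of_mem hw).le) hy hg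
  have h3 : HasSum (fun k => y k * ∫ w in Metric.ball (0 : ℂ) 1, w ^ k * conj (w ^ n))
      (y n * ((Real.pi / (n + 1) : ℝ) : ℂ)) := by
    have h4 : ∀ k, y k * ∫ w in Metric.ball (0 : ℂ) 1, w ^ k * conj (w ^ n)
        = if k = n then y n * ((Real.pi / (n + 1) : ℝ) : ℂ) else 0 := by
      intro k
      simp_rw [map_pow]
      rw [integral_monomial]
      split_ifs with hkn
      · rw [hkn]
      · rw [mul_zero]
    simp_rw [h4]
    exact hasSum_ite_eq n _
  have h5 := h2.unique h3
  have h6 : ∫ w in Metric.ball (0 : ℂ) 1, w ^ n * conj (g w)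
      = conj (∫ w in Metric.ball (0 : ℂ) 1, g w * conj (w ^ n)) := by
    rw [← integral_conj]
    congr 1
    ext w
    simp
    ring
  rw [h6, h5]
  simp

end Pool.Agent.MP_83fd13_an
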