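import Mathlib

namespace Pool.Agent.MP_83fd13_an

open Filter Finset
open scoped Topology

/-- Evaluation of a power series as a convergent sum. -/
noncomputable def ev (p : PowerSeries ℂ) (w : ℂ) : ℂ := ∑' k, PowerSeries.coeff k p * w ^ k

/-- Absolute convergence on the closed disc of radius `r`. -/
def Conv (r : ℝ) (p : PowerSeries ℂ) : Prop := Summable fun k => ‖PowerSeries.coeff k p‖ * r ^ k

theorem Conv.mono {r s : ℝ} (hr : 0 ≤ r) (hrs : r ≤ s) {p : PowerSeries ℂ} (h : Conv s p) :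
    Conv r p := by
  refine Summable.of_nonneg_of_le (fun k => by positivity) (fun k => ?_) h
  gcongr

theorem Conv.summable_norm {r : ℝ} {p : PowerSeries ℂ} (h : Conv r p) {w : ℂ} (hw : ‖w‖ ≤ r) :
    Summable fun k => ‖PowerSeries.coeff k p * w ^ k‖ := by
  refine Summable.of_nonneg_of_le (fun k => by positivity) (fun k => ?_) h
  rw [norm_mul, norm_pow]
  gcongr

theorem Conv.hasSum {r : ℝ} {p : PowerSeries ℂ} (h : Conv r p) {w : ℂ} (hw : ‖w‖ ≤ r) :
    HasSum (fun k => PowerSeries.coeff k p * w ^ k) (ev p w) :=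
  (h.summable_norm hw).of_norm.hasSum

theorem Conv.mul {r : ℝ} (hr : 0 ≤ r) {p q : PowerSeries ℂ} (hp : Conv r p) (hq : Conv r q) :
    Conv r (p * q) := by
  have hnr : ‖(r : ℂ)‖ ≤ r := by rw [Complex.norm_real, Real.norm_eq_abs, abs_of_nonneg hr]
  have h := summable_norm_sum_mul_antidiagonal_of_summable_norm (hp.summable_norm hnr)
    (hq.summable_norm hnr)
  refine h.congr fun n => ?_
  rw [PowerSeries.coeff_mul]
  have : ∑ kl ∈ antidiagonal n, PowerSeries.coeff kl.1 p * (r : ℂ) ^ kl.1 *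
      (PowerSeries.coeff kl.2 q * (r : ℂ) ^ kl.2)
      = (∑ kl ∈ antidiagonal n, PowerSeries.coeff kl.1 p * PowerSeries.coeff kl.2 q)
        * (r : ℂ) ^ n := by
    rw [Finset.sum_mul]
    apply Finset.sum_congr rfl
    intro kl hkl
    rw [← mem_antidiagonal.1 hkl, pow_add]; ring
  rw [this, norm_mul, norm_pow, Complex.norm_real, Real.norm_eq_abs, abs_of_nonneg hr]

theorem ev_mul {r : ℝ} {p q : PowerSeries ℂ} (hp : Conv r p) (hq : Conv r q) {w : ℂ}
    (hw : ‖w‖ ≤ r) : ev (p * q) w = ev p w * ev q w := by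
  rw [ev, ev, ev, tsum_mul_tsum_eq_tsum_sum_antidiagonal_of_summable_norm
    (hp.summable_norm hw) (hq.summable_norm hw)]
  apply tsum_congr
  intro n
  rw [PowerSeries.coeff_mul, Finset.sum_mul]
  apply Finset.sum_congr rfl
  intro kl hkl
  rw [← mem_antidiagonal.1 hkl, pow_add]; ring

theorem conv_one (r : ℝ) : Conv r 1 := by
  apply summable_of_ne_finset_zero (s := {0})
  intro k hk
  rw [PowerSeries.coeff_one, if_neg (by simpa using hk)]; simp

theorem ev_one (w : ℂ) : ev 1 w = 1 := by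
  rw [ev, tsum_eq_single 0]
  · simp
  · intro k hk; rw [PowerSeries.coeff_one, if_neg hk]; simp

theorem Conv.pow {r : ℝ} (hr : 0 ≤ r) {p : PowerSeries ℂ} (hp : Conv r p) (m : ℕ) :
    Conv r (p ^ m) := by
  induction m with
  | zero => rw [pow_zero]; exact conv_one r
  | succ m ih => rw [pow_succ]; exact ih.mul hr hp

theorem ev_pow {r : ℝ} (hr : 0 ≤ r) {p : PowerSeries ℂ} (hp : Conv r p) {w : ℂ} (hw : ‖w‖ ≤ r)
    (m : ℕ) : ev (p ^ m) w = ev p w ^ m := by
  induction m with
  | zero => rw [pow_zero, pow_zero, ev_one]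
  | succ m ih => rw [pow_succ, pow_succ, ev_mul (hp.pow hr m) hp hw, ih]

theorem conv_X_pow (r : ℝ) (n : ℕ) : Conv r (PowerSeries.X ^ n) := by
  apply summable_of_ne_finset_zero (s := {n})
  intro k hk
  rw [PowerSeries.coeff_X_pow, if_neg (by simpa using hk)]; simp

theorem ev_X_pow (n : ℕ) (w : ℂ) : ev (PowerSeries.X ^ n) w = w ^ n := by
  rw [ev, tsum_eq_single n]
  · rw [PowerSeries.coeff_X_pow, if_pos rfl, one_mul]
  · intro k hk; rw [PowerSeries.coeff_X_pow, if_neg hk]; simp

theorem Conv.smul {r : ℝ} {p : PowerSeries ℂ} (hp : Conv r p) (c : ℂ) : Conv r (c • p) := by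
  have : (fun k => ‖PowerSeries.coeff k (c • p)‖ * r ^ k)
      = fun k => ‖c‖ * (‖PowerSeries.coeff k p‖ * r ^ k) := by
    funext k
    rw [map_smul, smul_eq_mul, norm_mul]; ring
  rw [Conv, this]
  exact Summable.mul_left _ hp

theorem ev_smul (c : ℂ) (p : PowerSeries ℂ) (w : ℂ) : ev (c • p) w = c * ev p w := by
  rw [ev, ev, ← tsum_mul_left]
  apply tsum_congr
  intro k
  rw [map_smul, smul_eq_mul]; ring

/-- Formal antiderivative. -/
noncomputable def intg (p : PowerSeries ℂ) : PowerSeries ℂ :=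
  PowerSeries.mk fun k => if k = 0 then 0 else PowerSeries.coeff (k - 1) p / k

theorem coeff_intg_zero (p : PowerSeries ℂ) : PowerSeries.coeff 0 (intg p) = 0 := by
  rw [intg, PowerSeries.coeff_mk, if_pos rfl]

theorem coeff_intg_succ (p : PowerSeries ℂ) (k : ℕ) :
    PowerSeries.coeff (k + 1) (intg p) = PowerSeries.coeff k p / ((k : ℂ) + 1) := by
  rw [intg, PowerSeries.coeff_mk, if_neg (Nat.succ_ne_zero k)]
  simp

theorem norm_coeff_intg_succ_le (p : PowerSeries ℂ) (k : ℕ) :
    ‖PowerSeries.coeff (k + 1) (intg p)‖ ≤ ‖PowerSeries.coeff k p‖ := by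
  rw [coeff_intg_succ, norm_div]
  have : ‖((k : ℂ) + 1)‖ = (k : ℝ) + 1 := by
    have : ((k : ℂ) + 1) = (((k : ℝ) + 1 : ℝ) : ℂ) := by push_cast; rfl
    rw [this, Complex.norm_real, Real.norm_eq_abs, abs_of_nonneg (by positivity)]
  rw [this]
  apply div_le_self (norm_nonneg _)
  have : (0 : ℝ) ≤ k := Nat.cast_nonneg k
  linarith

theorem Conv.intg {r : ℝ} (hr : 0 ≤ r) {p : PowerSeries ℂ} (hp : Conv r p) :
    Conv r (intg p) := by
  rw [Conv, ← summable_nat_add_iff 1]
  refine Summable.of_nonneg_of_le (fun k => by positivity) (fun k => ?_) (hp.mul_right r)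
  rw [pow_succ]
  have := norm_coeff_intg_succ_le p k
  calc ‖PowerSeries.coeff (k + 1) (MP_83fd13_an.intg p)‖ * (r ^ k * r)
      ≤ ‖PowerSeries.coeff k p‖ * (r ^ k * r) := by gcongr
    _ = _ := by ring

theorem hasDerivAt_ev_intg {r : ℝ} (hr : 0 < r) {p : PowerSeries ℂ} (hp : Conv r p) {w : ℂ}
    (hw : ‖w‖ < r) : HasDerivAt (ev (intg p)) (ev p w) w := by
  have hball : IsOpen (Metric.ball (0 : ℂ) r) := Metric.isOpen_ball
  have hpre : IsPreconnected (Metric.ball (0 : ℂ) r) := (convex_ball _ _).isPreconnected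
  have hw' : w ∈ Metric.ball (0 : ℂ) r := by simpa using hw
  have h := hasDerivAt_tsum_of_isPreconnected (u := fun k => ‖PowerSeries.coeff k p‖ * r ^ k)
    (g := fun k z => PowerSeries.coeff (k + 1) (intg p) * z ^ (k + 1))
    (g' := fun k z => PowerSeries.coeff k p * z ^ k)
    hp hball hpre (y₀ := 0) ?_ ?_ ?_ ?_ hw'
  · have h2 : ev (intg p) = fun z => ∑' k, PowerSeries.coeff (k + 1) (intg p) * z ^ (k + 1) := by
      funext z
      rw [ev]
      by_cases hs : Summable fun k => PowerSeries.coeff k (intg p) * z ^ k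
      · rw [hs.tsum_eq_zero_add, coeff_intg_zero]; simp
      · have hs' : ¬ Summable fun k => PowerSeries.coeff (k + 1) (intg p) * z ^ (k + 1) := by
          intro h3
          exact hs ((summable_nat_add_iff 1).1 h3)
        rw [tsum_eq_zero_of_not_summable hs, tsum_eq_zero_of_not_summable hs']
    rw [h2]
    exact h
  · intro k y _
    have h3 : HasDerivAt (fun z : ℂ => z ^ (k + 1)) (((k : ℂ) + 1) * y ^ k) y := by
      simpa using hasDerivAt_pow (k + 1) y
    have h4 := h3.const_mul (PowerSeries.coeff (k + 1) (intg p))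
    refine h4.congr_deriv ?_
    rw [coeff_intg_succ]
    have : ((k : ℂ) + 1) ≠ 0 := Nat.cast_add_one_ne_zero k
    field_simp
  · intro k y hy
    have hy' : ‖y‖ ≤ r := by
      have : ‖y‖ < r := by simpa using hy
      exact this.le
    rw [norm_mul, norm_pow]
    gcongr
  · simpa using hr
  · simp

theorem differentiableOn_ev {r : ℝ} {p : PowerSeries ℂ} (hp : Conv r p) :
    DifferentiableOn ℂ (ev p) (Metric.ball 0 r) := by
  have h : ev p = fun w => ∑' k, PowerSeries.coeff k p * w ^ k := rfl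
  rw [h]
  apply Complex.differentiableOn_tsum_of_summable_norm (u := fun k => ‖PowerSeries.coeff k p‖ * r ^ k) hp
  · intro k
    fun_prop
  · exact Metric.isOpen_ball
  · intro k w hw
    have hw' : ‖w‖ ≤ r := by
      have : ‖w‖ < r := by simpa using hw
      exact this.le
    rw [norm_mul, norm_pow]
    gcongr

theorem hasDerivAt_ev {r : ℝ} (hr : 0 < r) {p : PowerSeries ℂ}
    (hp : Conv r (PowerSeries.derivative ℂ p)) {w : ℂ}
    (hw : ‖w‖ < r) : HasDerivAt (ev p) (ev (PowerSeries.derivative ℂ p) w) w := by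
  have h1 := hasDerivAt_ev_intg hr hp hw
  have h2 : ∀ z ∈ Metric.ball (0 : ℂ) r, ev p z
      = PowerSeries.coeff 0 p + ev (intg (PowerSeries.derivative ℂ p)) z := by
    intro z hz
    have hz' : ‖z‖ ≤ r := by
      have : ‖z‖ < r := by simpa using hz
      exact this.le
    have hc : ∀ k, PowerSeries.coeff (k + 1) (intg (PowerSeries.derivative ℂ p))
        = PowerSeries.coeff (k + 1) p := by
      intro k
      rw [coeff_intg_succ, PowerSeries.coeff_derivative]
      have : ((k : ℂ) + 1) ≠ 0 := Nat.cast_add_one_ne_zero k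
      field_simp
    have hs := ((hp.intg hr.le).hasSum hz').summable
    have hs1 : Summable fun k => PowerSeries.coeff (k + 1) p * z ^ (k + 1) := by
      have := (summable_nat_add_iff 1).2 hs
      simpa only [hc] using this
    have hs2 : Summable fun k => PowerSeries.coeff k p * z ^ k := (summable_nat_add_iff 1).1 hs1
    rw [ev, ev, hs2.tsum_eq_zero_add, hs.tsum_eq_zero_add, coeff_intg_zero]
    simp only [hc]
    simp
  have h3 : ev p =ᶠ[𝓝 w] fun z => PowerSeries.coeff 0 p
      + ev (intg (PowerSeries.derivative ℂ p)) z := by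
    filter_upwards [Metric.isOpen_ball.mem_nhds (show w ∈ Metric.ball (0 : ℂ) r by simpa using hw)]
      with z hz using h2 z hz
  exact (h1.const_add _).congr_of_eventuallyEq h3

end Pool.Agent.MP_83fd13_an
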