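import Mathlib

/-!
Weak formulation of the overdetermined Neumann eigenvalue problem (S) on an open set of the plane
`ℂ = ℝ²`.
-/

namespace Pool.Agent.MP_83fd13_an

open MeasureTheory

/-- `u` (with weak gradient `G`, both square integrable on `Ω`) is a nontrivial weak solution of
`-Δ u = lam u` in `Ω`, `∂u/∂n = 0` and `u = c` on `∂Ω`, with `lam > 0`. The field `dirichlet` says
that `G` is the weak gradient of `u` and that the trace of `u` is `c`; the field `neumann` is the
weak form of the equation together with the Neumann condition. -/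
structure SchifferSolution (Ω : Set ℂ) (lam c : ℝ) (u : ℂ → ℝ) (G : ℂ → ℂ) : Prop where
  lam_pos : 0 < lam
  memLp_u : MemLp u 2 (volume.restrict Ω)
  memLp_grad : MemLp G 2 (volume.restrict Ω)
  dirichlet : ∀ f : ℂ → ℝ, ContDiff ℝ 1 f → HasCompactSupport f → ∀ v : ℂ,
    ∫ z in Ω, (u z - c) * fderiv ℝ f z v = - ∫ z in Ω, inner ℝ (G z) v * f z
  neumann : ∀ f : ℂ → ℝ, ContDiff ℝ 1 f → HasCompactSupport f →
    ∫ z in Ω, fderiv ℝ f z (G z) = lam * ∫ z in Ω, u z * f z
  nontrivial : ¬ (u =ᵐ[volume.restrict Ω] 0)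

end Pool.Agent.MP_83fd13_an
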