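import Mathlib
import Pool.Agent.MP_83fd13_an.Defs

namespace Pool.Agent.MP_83fd13_an

open MeasureTheory Filter
open scoped Topology ComplexConjugate

variable {Ω : Set ℂ} {lam c : ℝ} {u : ℂ → ℝ} {G : ℂ → ℂ}

theorem finMeas (hb : Bornology.IsBounded Ω) : IsFiniteMeasure (volume.restrict Ω) :=
  ⟨by rw [Measure.restrict_apply_univ]; exact hb.measure_lt_top⟩

theorem SchifferSolution.integrable_u (h : SchifferSolution Ω lam c u G)
    (hb : Bornology.IsBounded Ω) : Integrable u (volume.restrict Ω) := by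
  have := finMeas hb
  exact h.memLp_u.integrable one_le_two

theorem SchifferSolution.integrable_G (h : SchifferSolution Ω lam c u G)
    (hb : Bornology.IsBounded Ω) : Integrable G (volume.restrict Ω) := by
  have := finMeas hb
  exact h.memLp_grad.integrable one_le_two

theorem integrable_mul_test {μ : Measure ℂ} {f g : ℂ → ℂ} (hf : Integrable f μ)
    (hg : Continuous g) (hgs : HasCompactSupport g) : Integrable (fun z => f z * g z) μ := by
  obtain ⟨C, hC⟩ := hg.bounded_above_of_compact_support hgs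
  exact hf.mul_bdd hg.aestronglyMeasurable (Eventually.of_forall hC)

theorem ofRealI {μ : Measure ℂ} {f : ℂ → ℝ} (hf : Integrable f μ) :
    Integrable (fun z => ((f z : ℝ) : ℂ)) μ := hf.ofReal

theorem reI {μ : Measure ℂ} {f : ℂ → ℂ} (hf : Integrable f μ) :
    Integrable (fun z => (((f z).re : ℝ) : ℂ)) μ := hf.re.ofReal

theorem imI {μ : Measure ℂ} {f : ℂ → ℂ} (hf : Integrable f μ) :
    Integrable (fun z => (((f z).im : ℝ) : ℂ)) μ := hf.im.ofReal

theorem integrable_mul_testR {μ : Measure ℂ} {f g : ℂ → ℝ} (hf : Integrable f μ)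
    (hg : Continuous g) (hgs : HasCompactSupport g) : Integrable (fun z => f z * g z) μ := by
  obtain ⟨C, hC⟩ := hg.bounded_above_of_compact_support hgs
  exact hf.mul_bdd hg.aestronglyMeasurable (Eventually.of_forall hC)

theorem fderiv_re {F : ℂ → ℂ} (hF : ContDiff ℝ 1 F) (z v : ℂ) :
    fderiv ℝ (fun z => (F z).re) z v = (fderiv ℝ F z v).re := by
  have h1 : HasFDerivAt (fun z => (F z).re) (Complex.reCLM.comp (fderiv ℝ F z)) z :=
    Complex.reCLM.hasFDerivAt.comp z (hF.differentiable one_ne_zero z).hasFDerivAt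
  rw [h1.fderiv]; rfl

theorem fderiv_im {F : ℂ → ℂ} (hF : ContDiff ℝ 1 F) (z v : ℂ) :
    fderiv ℝ (fun z => (F z).im) z v = (fderiv ℝ F z v).im := by
  have h1 : HasFDerivAt (fun z => (F z).im) (Complex.imCLM.comp (fderiv ℝ F z)) z :=
    Complex.imCLM.hasFDerivAt.comp z (hF.differentiable one_ne_zero z).hasFDerivAt
  rw [h1.fderiv]; rfl

theorem hasCompactSupport_re {F : ℂ → ℂ} (hF : HasCompactSupport F) :
    HasCompactSupport (fun z => (F z).re) := hF.comp_left (g := Complex.re) rfl

theorem hasCompactSupport_im {F : ℂ → ℂ} (hF : HasCompactSupport F) :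
    HasCompactSupport (fun z => (F z).im) := hF.comp_left (g := Complex.im) rfl

theorem continuous_fderiv_apply' {F : ℂ → ℂ} (hF : ContDiff ℝ 1 F) (v : ℂ) :
    Continuous (fun z => fderiv ℝ F z v) :=
  (hF.continuous_fderiv one_ne_zero).clm_apply continuous_const

theorem compactSupport_fderiv_apply {F : ℂ → ℂ} (hF : HasCompactSupport F) (v : ℂ) :
    HasCompactSupport (fun z => fderiv ℝ F z v) := hF.fderiv_apply (𝕜 := ℝ) v

theorem SchifferSolution.dirichletC (h : SchifferSolution Ω lam c u G)
    (hb : Bornology.IsBounded Ω) {F : ℂ → ℂ} (hF : ContDiff ℝ 1 F) (hFs : HasCompactSupport F)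
    (v : ℂ) :
    ∫ z in Ω, ((u z - c : ℝ) : ℂ) * fderiv ℝ F z v
      = - ∫ z in Ω, ((inner ℝ (G z) v : ℝ) : ℂ) * F z := by
  have := finMeas hb
  have hu : Integrable (fun z => ((u z - c : ℝ) : ℂ)) (volume.restrict Ω) :=
    ((h.integrable_u hb).sub (integrable_const c)).ofReal
  have hG : Integrable (fun z => ((inner ℝ (G z) v : ℝ) : ℂ)) (volume.restrict Ω) :=
    ((h.integrable_G hb).inner_const (𝕜 := ℝ) v).ofReal
  have i1 := integrable_mul_test hu (continuous_fderiv_apply' hF v)
    (compactSupport_fderiv_apply hFs v)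
  have i2 := integrable_mul_test hG hF.continuous hFs
  apply Complex.ext
  · have e1 := integral_re i1
    have e2 := integral_re i2
    simp only [RCLike.re_to_complex] at e1 e2
    rw [Complex.neg_re, ← e1, ← e2]
    have := h.dirichlet (fun z => (F z).re) (Complex.reCLM.contDiff.comp hF)
      (hasCompactSupport_re hFs) v
    simp only [fderiv_re hF] at this
    simpa only [Complex.re_ofReal_mul] using this
  · have e1 := integral_im i1
    have e2 := integral_im i2
    simp only [RCLike.im_to_complex] at e1 e2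
    rw [Complex.neg_im, ← e1, ← e2]
    have := h.dirichlet (fun z => (F z).im) (Complex.imCLM.contDiff.comp hF)
      (hasCompactSupport_im hFs) v
    simp only [fderiv_im hF] at this
    simpa only [Complex.im_ofReal_mul] using this

theorem fderiv_apply_eq (F : ℂ → ℂ) (z w : ℂ) :
    fderiv ℝ F z w = (w.re : ℂ) * fderiv ℝ F z 1 + (w.im : ℂ) * fderiv ℝ F z Complex.I := by
  have hw : w = w.re • (1 : ℂ) + w.im • Complex.I := by
    simp [Complex.re_add_im]
  conv_lhs => rw [hw]
  rw [map_add, map_smul, map_smul]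
  simp

theorem SchifferSolution.neumannC (h : SchifferSolution Ω lam c u G)
    (hb : Bornology.IsBounded Ω) {F : ℂ → ℂ} (hF : ContDiff ℝ 1 F) (hFs : HasCompactSupport F) :
    ∫ z in Ω, fderiv ℝ F z (G z) = lam * ∫ z in Ω, (u z : ℂ) * F z := by
  have := finMeas hb
  have hG := h.integrable_G hb
  have i1 : Integrable (fun z => fderiv ℝ F z (G z)) (volume.restrict Ω) := by
    simp_rw [fderiv_apply_eq F _ (G _)]
    exact (integrable_mul_test (reI hG) (continuous_fderiv_apply' hF 1)
      (compactSupport_fderiv_apply hFs 1)).add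
      (integrable_mul_test (imI hG) (continuous_fderiv_apply' hF _)
      (compactSupport_fderiv_apply hFs _))
  have i2 := integrable_mul_test (ofRealI (h.integrable_u hb)) hF.continuous hFs
  apply Complex.ext
  · have e1 := integral_re i1
    have e2 := integral_re i2
    simp only [RCLike.re_to_complex] at e1 e2
    rw [Complex.re_ofReal_mul, ← e1, ← e2]
    have := h.neumann (fun z => (F z).re) (Complex.reCLM.contDiff.comp hF)
      (hasCompactSupport_re hFs)
    simp only [fderiv_re hF] at this
    simpa only [Complex.re_ofReal_mul] using this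
  · have e1 := integral_im i1
    have e2 := integral_im i2
    simp only [RCLike.im_to_complex] at e1 e2
    rw [Complex.im_ofReal_mul, ← e1, ← e2]
    have := h.neumann (fun z => (F z).im) (Complex.imCLM.contDiff.comp hF)
      (hasCompactSupport_im hFs)
    simp only [fderiv_im hF] at this
    simpa only [Complex.im_ofReal_mul] using this

/-- Wirtinger derivatives -/
noncomputable def dz (F : ℂ → ℂ) (z : ℂ) : ℂ :=
  (fderiv ℝ F z 1 - Complex.I * fderiv ℝ F z Complex.I) / 2

noncomputable def dzb (F : ℂ → ℂ) (z : ℂ) : ℂ :=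
  (fderiv ℝ F z 1 + Complex.I * fderiv ℝ F z Complex.I) / 2

theorem SchifferSolution.wirt1 (h : SchifferSolution Ω lam c u G)
    (hb : Bornology.IsBounded Ω) {F : ℂ → ℂ} (hF : ContDiff ℝ 1 F) (hFs : HasCompactSupport F) :
    ∫ z in Ω, ((u z - c : ℝ) : ℂ) * dz F z = - (1/2) * ∫ z in Ω, conj (G z) * F z := by
  have := finMeas hb
  have hu : Integrable (fun z => ((u z - c : ℝ) : ℂ)) (volume.restrict Ω) :=
    ((h.integrable_u hb).sub (integrable_const c)).ofReal
  have hG := h.integrable_G hb
  have a1 := h.dirichletC hb hF hFs 1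
  have a2 := h.dirichletC hb hF hFs Complex.I
  have i1 := integrable_mul_test hu (continuous_fderiv_apply' hF 1)
    (compactSupport_fderiv_apply hFs 1)
  have i2 := integrable_mul_test hu (continuous_fderiv_apply' hF Complex.I)
    (compactSupport_fderiv_apply hFs Complex.I)
  have j1 := integrable_mul_test (reI hG) hF.continuous hFs
  have j2 := integrable_mul_test (imI hG) hF.continuous hFs
  have e1 : ∀ z, ((inner ℝ (G z) 1 : ℝ) : ℂ) = ((G z).re : ℂ) := by
    intro z; simp [Complex.inner]
  have e2 : ∀ z, ((inner ℝ (G z) Complex.I : ℝ) : ℂ) = ((G z).im : ℂ) := by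
    intro z; simp [Complex.inner]
  simp only [e1] at a1
  simp only [e2] at a2
  have l1 : ∫ z in Ω, ((u z - c : ℝ) : ℂ) * dz F z
      = (1/2) * (∫ z in Ω, ((u z - c : ℝ) : ℂ) * fderiv ℝ F z 1)
        - (Complex.I / 2) * ∫ z in Ω, ((u z - c : ℝ) : ℂ) * fderiv ℝ F z Complex.I := by
    rw [← integral_const_mul, ← integral_const_mul, ← integral_sub (i1.const_mul _)
      (i2.const_mul _)]
    congr 1; ext z; simp only [dz]; ring
  have l2 : ∫ z in Ω, conj (G z) * F z
      = (∫ z in Ω, ((G z).re : ℂ) * F z) - Complex.I * ∫ z in Ω, ((G z).im : ℂ) * F z := by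
    rw [← integral_const_mul, ← integral_sub j1 (j2.const_mul _)]
    congr 1; ext z
    have : conj (G z) = ((G z).re : ℂ) - Complex.I * ((G z).im : ℂ) := by
      apply Complex.ext <;> simp
    rw [this]; ring
  rw [l1, l2, a1, a2]; ring

theorem SchifferSolution.wirt2 (h : SchifferSolution Ω lam c u G)
    (hb : Bornology.IsBounded Ω) {F : ℂ → ℂ} (hF : ContDiff ℝ 1 F) (hFs : HasCompactSupport F) :
    ∫ z in Ω, ((u z - c : ℝ) : ℂ) * dzb F z = - (1/2) * ∫ z in Ω, (G z) * F z := by
  have := finMeas hb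
  have hu : Integrable (fun z => ((u z - c : ℝ) : ℂ)) (volume.restrict Ω) :=
    ((h.integrable_u hb).sub (integrable_const c)).ofReal
  have hG := h.integrable_G hb
  have a1 := h.dirichletC hb hF hFs 1
  have a2 := h.dirichletC hb hF hFs Complex.I
  have i1 := integrable_mul_test hu (continuous_fderiv_apply' hF 1)
    (compactSupport_fderiv_apply hFs 1)
  have i2 := integrable_mul_test hu (continuous_fderiv_apply' hF Complex.I)
    (compactSupport_fderiv_apply hFs Complex.I)
  have j1 := integrable_mul_test (reI hG) hF.continuous hFs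
  have j2 := integrable_mul_test (imI hG) hF.continuous hFs
  have e1 : ∀ z, ((inner ℝ (G z) 1 : ℝ) : ℂ) = ((G z).re : ℂ) := by
    intro z; simp [Complex.inner]
  have e2 : ∀ z, ((inner ℝ (G z) Complex.I : ℝ) : ℂ) = ((G z).im : ℂ) := by
    intro z; simp [Complex.inner]
  simp only [e1] at a1
  simp only [e2] at a2
  have l1 : ∫ z in Ω, ((u z - c : ℝ) : ℂ) * dzb F z
      = (1/2) * (∫ z in Ω, ((u z - c : ℝ) : ℂ) * fderiv ℝ F z 1)
        + (Complex.I / 2) * ∫ z in Ω, ((u z - c : ℝ) : ℂ) * fderiv ℝ F z Complex.I := by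
    rw [← integral_const_mul, ← integral_const_mul, ← integral_add (i1.const_mul _)
      (i2.const_mul _)]
    congr 1; ext z; simp only [dzb]; ring
  have l2 : ∫ z in Ω, (G z) * F z
      = (∫ z in Ω, ((G z).re : ℂ) * F z) + Complex.I * ∫ z in Ω, ((G z).im : ℂ) * F z := by
    rw [← integral_const_mul, ← integral_add j1 (j2.const_mul _)]
    congr 1; ext z
    conv_lhs => rw [← Complex.re_add_im (G z)]
    ring
  rw [l1, l2, a1, a2]; ring

theorem SchifferSolution.wirt3 (h : SchifferSolution Ω lam c u G)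
    (hb : Bornology.IsBounded Ω) {F : ℂ → ℂ} (hF : ContDiff ℝ 1 F) (hFs : HasCompactSupport F) :
    ∫ z in Ω, (G z * dz F z + conj (G z) * dzb F z) = lam * ∫ z in Ω, (u z : ℂ) * F z := by
  rw [← h.neumannC hb hF hFs]
  congr 1; ext z
  rw [fderiv_apply_eq F z (G z)]
  have h1 : conj (G z) = ((G z).re : ℂ) - Complex.I * ((G z).im : ℂ) := by
    apply Complex.ext <;> simp
  have h2 : G z = ((G z).re : ℂ) + Complex.I * ((G z).im : ℂ) := by
    apply Complex.ext <;> simp
  rw [h1, dz, dzb]
  conv_lhs => enter [1, 1]; rw [h2]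
  linear_combination (-((G z).im : ℂ) * fderiv ℝ F z Complex.I) * Complex.I_sq

end Pool.Agent.MP_83fd13_an
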