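import Mathlib
import Pool.Agent.MP_83fd13_an.Weak

namespace Pool.Agent.MP_83fd13_an

open MeasureTheory Filter
open scoped Topology ComplexConjugate Manifold ContDiff

theorem exists_test {Ω N : Set ℂ} (hK : IsCompact (closure Ω)) (hN : IsOpen N)
    (hsub : closure Ω ⊆ N) {P : ℂ → ℂ} (hP : ContDiffOn ℝ 1 P N) :
    ∃ F : ℂ → ℂ, ContDiff ℝ 1 F ∧ HasCompactSupport F ∧ ∀ z ∈ Ω, F =ᶠ[𝓝 z] P := by
  obtain ⟨K', hK'c, h1, h2⟩ := exists_compact_between hK hN hsub
  obtain ⟨η, hη1, hη0, -⟩ := exists_contMDiffMap_one_nhds_of_subset_interior (n := 1) 𝓘(ℝ, ℂ)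
    isClosed_closure h1
  have hη : ContDiff ℝ 1 (fun z => η z) := η.contMDiff.contDiff
  have hηC : ContDiff ℝ 1 (fun z => ((η z : ℝ) : ℂ)) := Complex.ofRealCLM.contDiff.comp hη
  refine ⟨fun z => (η z : ℂ) * P z, ?_, ?_, ?_⟩
  · rw [contDiff_iff_contDiffAt]
    intro z
    by_cases hz : z ∈ N
    · exact hηC.contDiffAt.mul (hP.contDiffAt (hN.mem_nhds hz))
    · have hz' : z ∈ K'ᶜ := fun h => hz (h2 h)
      have : (fun z => (η z : ℂ) * P z) =ᶠ[𝓝 z] fun _ => 0 := by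
        filter_upwards [hK'c.isClosed.isOpen_compl.mem_nhds hz'] with w hw
        simp [hη0 w hw]
      exact contDiffAt_const.congr_of_eventuallyEq this
  · refine HasCompactSupport.intro hK'c fun z hz => ?_
    simp [hη0 z hz]
  · intro z hz
    have := hη1.self_of_nhdsSet
    have h3 : ∀ᶠ w in 𝓝 z, η w = 1 := by
      rw [eventually_nhdsSet_iff_forall] at hη1
      exact hη1 z (subset_closure hz)
    filter_upwards [h3] with w hw
    simp [hw]

theorem hasFDerivAt_conjpow_mul (k : ℕ) {H : ℂ → ℂ} {H' z : ℂ} (hH : HasDerivAt H H' z) :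
    fderiv ℝ (fun z => (conj z) ^ k * H z) z 1
      = (conj z) ^ k * H' + k * (conj z) ^ (k - 1) * H z ∧
    fderiv ℝ (fun z => (conj z) ^ k * H z) z Complex.I
      = (conj z) ^ k * H' * Complex.I - k * (conj z) ^ (k - 1) * H z * Complex.I := by
  have h1 : HasFDerivAt (fun z : ℂ => conj z) (Complex.conjCLE : ℂ →L[ℝ] ℂ) z :=
    Complex.conjCLE.hasFDerivAt
  have h2 := h1.pow k
  have h3 := hH.complexToReal_fderiv
  have h4 := (h2.mul h3).fderiv
  have h5 : (fun z => (conj z) ^ k * H z) = (fun z : ℂ => (conj z) ^ k) * H := rfl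
  constructor
  · rw [h5, h4]
    simp
    ring
  · rw [h5, h4]
    simp
    ring

theorem dz_conjpow_mul (k : ℕ) {H : ℂ → ℂ} {H' z : ℂ} (hH : HasDerivAt H H' z) :
    dz (fun z => (conj z) ^ k * H z) z = (conj z) ^ k * H' := by
  obtain ⟨h1, h2⟩ := hasFDerivAt_conjpow_mul k hH
  rw [dz, h1, h2]
  linear_combination (-(conj z) ^ k * H' / 2 + k * (conj z) ^ (k - 1) * H z / 2) * Complex.I_sq

theorem dzb_conjpow_mul (k : ℕ) {H : ℂ → ℂ} {H' z : ℂ} (hH : HasDerivAt H H' z) :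
    dzb (fun z => (conj z) ^ k * H z) z = k * (conj z) ^ (k - 1) * H z := by
  obtain ⟨h1, h2⟩ := hasFDerivAt_conjpow_mul k hH
  rw [dzb, h1, h2]
  linear_combination ((conj z) ^ k * H' / 2 - k * (conj z) ^ (k - 1) * H z / 2) * Complex.I_sq

theorem dz_congr {F P : ℂ → ℂ} {z : ℂ} (h : F =ᶠ[𝓝 z] P) : dz F z = dz P z := by
  rw [dz, dz, h.fderiv_eq]

theorem dzb_congr {F P : ℂ → ℂ} {z : ℂ} (h : F =ᶠ[𝓝 z] P) : dzb F z = dzb P z := by
  rw [dzb, dzb, h.fderiv_eq]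

theorem contDiffOn_conjpow_mul (k : ℕ) {N : Set ℂ} (hN : IsOpen N) {H : ℂ → ℂ}
    (hH : DifferentiableOn ℂ H N) : ContDiffOn ℝ 1 (fun z => (conj z) ^ k * H z) N := by
  have h1 : ContDiffOn ℂ 1 H N := (hH.analyticOnNhd hN).contDiffOn hN.uniqueDiffOn
  have h2 : ContDiffOn ℝ 1 H N := h1.restrict_scalars ℝ
  have h3 : ContDiff ℝ 1 (fun z : ℂ => conj z) := Complex.conjCLE.contDiff
  exact ((h3.pow k).contDiffOn).mul h2

variable {Ω N : Set ℂ} {lam c : ℝ} {u : ℂ → ℝ} {G : ℂ → ℂ}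

theorem SchifferSolution.weak_identity (h : SchifferSolution Ω lam c u G)
    (hb : Bornology.IsBounded Ω) (hΩ : MeasurableSet Ω) (hN : IsOpen N) (hsub : closure Ω ⊆ N)
    {H : ℂ → ℂ} (hH : DifferentiableOn ℂ H N) (m : ℕ) :
    -4 * m * ∫ z in Ω, ((u z - c : ℝ) : ℂ) * ((conj z) ^ (m - 1) * deriv H z)
      = lam * ∫ z in Ω, (u z : ℂ) * ((conj z) ^ m * H z) := by
  have hK : IsCompact (closure Ω) := hb.isCompact_closure
  have hdH : DifferentiableOn ℂ (deriv H) N := hH.deriv hN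
  have hder : ∀ z ∈ Ω, HasDerivAt H (deriv H z) z := fun z hz =>
    (hH.differentiableAt (hN.mem_nhds (hsub (subset_closure hz)))).hasDerivAt
  have hder2 : ∀ z ∈ Ω, HasDerivAt (deriv H) (deriv (deriv H) z) z := fun z hz =>
    (hdH.differentiableAt (hN.mem_nhds (hsub (subset_closure hz)))).hasDerivAt
  obtain ⟨F1, hF1, hF1s, hF1e⟩ := exists_test hK hN hsub (contDiffOn_conjpow_mul m hN hdH)
  obtain ⟨F2, hF2, hF2s, hF2e⟩ := exists_test hK hN hsub (contDiffOn_conjpow_mul (m - 1) hN hH)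
  obtain ⟨F3, hF3, hF3s, hF3e⟩ := exists_test hK hN hsub (contDiffOn_conjpow_mul m hN hH)
  have w1 := h.wirt2 hb hF1 hF1s
  have w2 := h.wirt1 hb hF2 hF2s
  have w3 := h.wirt3 hb hF3 hF3s
  have c1 : ∫ z in Ω, ((u z - c : ℝ) : ℂ) * dzb F1 z
      = m * ∫ z in Ω, ((u z - c : ℝ) : ℂ) * ((conj z) ^ (m - 1) * deriv H z) := by
    rw [← integral_const_mul]
    apply setIntegral_congr_fun hΩ
    intro z hz
    simp only
    rw [dzb_congr (hF1e z hz), dzb_conjpow_mul m (hder2 z hz)]; ring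
  have c2 : ∫ z in Ω, ((u z - c : ℝ) : ℂ) * dz F2 z
      = ∫ z in Ω, ((u z - c : ℝ) : ℂ) * ((conj z) ^ (m - 1) * deriv H z) := by
    apply setIntegral_congr_fun hΩ
    intro z hz
    simp only
    rw [dz_congr (hF2e z hz), dz_conjpow_mul (m - 1) (hder z hz)]
  have c3 : ∫ z in Ω, (u z : ℂ) * F3 z = ∫ z in Ω, (u z : ℂ) * ((conj z) ^ m * H z) := by
    apply setIntegral_congr_fun hΩ
    intro z hz
    simp only
    rw [(hF3e z hz).self_of_nhds]
  have hG := h.integrable_G hb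
  have hGc : Integrable (fun z => conj (G z)) (volume.restrict Ω) :=
    (Complex.conjCLE : ℂ →L[ℝ] ℂ).integrable_comp hG
  have i1 : Integrable (fun z => G z * F1 z) (volume.restrict Ω) :=
    integrable_mul_test hG hF1.continuous hF1s
  have i2 : Integrable (fun z => conj (G z) * F2 z) (volume.restrict Ω) :=
    integrable_mul_test hGc hF2.continuous hF2s
  have c4 : ∫ z in Ω, (G z * dz F3 z + conj (G z) * dzb F3 z)
      = (∫ z in Ω, G z * F1 z) + m * ∫ z in Ω, conj (G z) * F2 z := by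
    rw [← integral_const_mul, ← integral_add i1 (i2.const_mul _)]
    apply setIntegral_congr_fun hΩ
    intro z hz
    simp only
    rw [dz_congr (hF3e z hz), dz_conjpow_mul m (hder z hz), dzb_congr (hF3e z hz),
      dzb_conjpow_mul m (hder z hz), (hF1e z hz).self_of_nhds, (hF2e z hz).self_of_nhds]
    ring
  rw [c1] at w1
  rw [c2] at w2
  rw [c3, c4] at w3
  rw [← w3]
  linear_combination (2 : ℂ) * (-w1) - 2 * (m : ℂ) * w2

end Pool.Agent.MP_83fd13_an
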