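import Mathlib
import Pool.Agent.MP_83fd13_an.Weak2

namespace Pool.Agent.MP_83fd13_an

open MeasureTheory Filter
open scoped Topology ComplexConjugate

variable {Ω N : Set ℂ} {lam c : ℝ} {u : ℂ → ℝ} {G : ℂ → ℂ}

/-- An integrable function on a finite measure space over the plane all of whose exponential
moments vanish is zero almost everywhere. -/
theorem ae_zero_of_charFun {μ : Measure ℂ} [IsFiniteMeasure μ] {f : ℂ → ℝ} (hf : Integrable f μ)
    (h : ∀ t : ℂ, ∫ z, (f z : ℂ) * Complex.exp ((inner ℝ z t : ℝ) * Complex.I) ∂μ = 0) :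
    f =ᵐ[μ] 0 := by
  have hf' : Integrable (fun z => - f z) μ := hf.neg
  have m1 : IsFiniteMeasure (μ.withDensity fun x => ENNReal.ofReal (f x)) :=
    isFiniteMeasure_withDensity_ofReal hf.2
  have m2 : IsFiniteMeasure (μ.withDensity fun x => ENNReal.ofReal (- f x)) :=
    isFiniteMeasure_withDensity_ofReal hf'.2
  have hm1 : AEMeasurable (fun x => ENNReal.ofReal (f x)) μ := hf.1.aemeasurable.ennreal_ofReal
  have hm2 : AEMeasurable (fun x => ENNReal.ofReal (- f x)) μ := hf'.1.aemeasurable.ennreal_ofReal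
  have hexp : ∀ t : ℂ, Continuous (fun z : ℂ => Complex.exp ((inner ℝ z t : ℝ) * Complex.I)) := by
    intro t
    fun_prop
  have hbd : ∀ t z : ℂ, ‖Complex.exp ((inner ℝ z t : ℝ) * Complex.I)‖ ≤ 1 := by
    intro t z
    rw [Complex.norm_exp_ofReal_mul_I]
  have key : (μ.withDensity fun x => ENNReal.ofReal (f x))
      = μ.withDensity fun x => ENNReal.ofReal (- f x) := by
    apply Measure.ext_of_charFun
    ext t
    rw [charFun_apply, charFun_apply, integral_withDensity_eq_integral_toReal_smul₀ hm1
      (Eventually.of_forall fun _ => ENNReal.ofReal_lt_top),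
      integral_withDensity_eq_integral_toReal_smul₀ hm2
      (Eventually.of_forall fun _ => ENNReal.ofReal_lt_top), ← sub_eq_zero]
    have i1 : Integrable (fun z => (ENNReal.ofReal (f z)).toReal •
        Complex.exp ((inner ℝ z t : ℝ) * Complex.I)) μ := by
      have : Integrable (fun z => (((ENNReal.ofReal (f z)).toReal : ℝ) : ℂ)) μ := by
        apply Integrable.ofReal
        have := hf.pos_part
        exact this.congr (Eventually.of_forall fun z => ENNReal.toReal_ofReal'.symm)
      simp_rw [Complex.real_smul]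
      exact this.mul_bdd (hexp t).aestronglyMeasurable (Eventually.of_forall (hbd t))
    have i2 : Integrable (fun z => (ENNReal.ofReal (- f z)).toReal •
        Complex.exp ((inner ℝ z t : ℝ) * Complex.I)) μ := by
      have : Integrable (fun z => (((ENNReal.ofReal (- f z)).toReal : ℝ) : ℂ)) μ := by
        apply Integrable.ofReal
        have := hf'.pos_part
        exact this.congr (Eventually.of_forall fun z => ENNReal.toReal_ofReal'.symm)
      simp_rw [Complex.real_smul]
      exact this.mul_bdd (hexp t).aestronglyMeasurable (Eventually.of_forall (hbd t))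
    rw [← integral_sub i1 i2, ← h t]
    congr 1
    ext z
    rw [← sub_smul, Complex.real_smul]
    congr 2
    rw [ENNReal.toReal_ofReal', ENNReal.toReal_ofReal']
    rcases le_total 0 (f z) with h0 | h0
    · rw [max_eq_left h0, max_eq_right (by linarith)]; simp
    · rw [max_eq_right h0, max_eq_left (by linarith)]; simp
  rw [withDensity_eq_iff hm1 hm2 ?_] at key
  · filter_upwards [key] with z hz
    rcases le_total 0 (f z) with h0 | h0
    · have h2 : ENNReal.ofReal (- f z) = 0 := ENNReal.ofReal_of_nonpos (by linarith)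
      rw [h2] at hz
      have := ENNReal.ofReal_eq_zero.1 hz
      exact le_antisymm this h0
    · have h2 : ENNReal.ofReal (f z) = 0 := ENNReal.ofReal_of_nonpos h0
      rw [h2] at hz
      have h3 := ENNReal.ofReal_eq_zero.1 hz.symm
      have h4 : 0 ≤ f z := by linarith
      exact le_antisymm h0 h4
  · have := hf.lintegral_lt_top
    exact this.ne

theorem bddOn_of_continuous (hb : Bornology.IsBounded Ω) {g : ℂ → ℂ}
    (hsub : closure Ω ⊆ N) (hg : ContinuousOn g N) : ∃ C, ∀ z ∈ Ω, ‖g z‖ ≤ C := by
  obtain ⟨C, hC⟩ := hb.isCompact_closure.exists_bound_of_continuousOn (hg.mono hsub)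
  exact ⟨C, fun z hz => hC z (subset_closure hz)⟩

theorem integrable_mul_on (hb : Bornology.IsBounded Ω) (hΩ : MeasurableSet Ω)
    (hsub : closure Ω ⊆ N) {f g : ℂ → ℂ} (hf : Integrable f (volume.restrict Ω))
    (hg : ContinuousOn g N) : Integrable (fun z => f z * g z) (volume.restrict Ω) := by
  obtain ⟨C, hC⟩ := bddOn_of_continuous hb hsub hg
  refine hf.mul_bdd (c := C) ?_ ?_
  · exact (hg.mono (subset_closure.trans hsub)).aestronglyMeasurable hΩ
  · exact (ae_restrict_iff' hΩ).2 (Eventually.of_forall hC)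

theorem exp_moment {μ : Measure ℂ} {u : ℂ → ℝ} (hu : Integrable u μ) {R : ℝ}
    (hR : ∀ᵐ z ∂μ, ‖z‖ ≤ R) (hR0 : 0 ≤ R)
    (step : ∀ m : ℕ, ∀ H : ℂ → ℂ, Differentiable ℂ H →
      ∫ z, (u z : ℂ) * ((conj z) ^ m * H z) ∂μ = 0) (α β : ℂ) :
    ∫ z, (u z : ℂ) * (Complex.exp (α * z) * Complex.exp (β * conj z)) ∂μ = 0 := by
  set B : ℝ := Real.exp (‖α‖ * R) with hB
  set F : ℕ → ℂ → ℂ := fun m z => (u z : ℂ) * ((conj z) ^ m *
      (β ^ m / (m.factorial : ℂ) * Complex.exp (α * z))) with hF
  set f : ℂ → ℂ := fun z => (u z : ℂ) * (Complex.exp (α * z) * Complex.exp (β * conj z)) with hf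
  have hs : ∀ z : ℂ, HasSum (fun m : ℕ => F m z) (f z) := by
    intro z
    have h1 : HasSum (fun m : ℕ => (β * conj z) ^ m / (m.factorial : ℂ))
        (Complex.exp (β * conj z)) := by
      rw [Complex.exp_eq_exp_ℂ]
      exact NormedSpace.expSeries_div_hasSum_exp (β * conj z)
    have h2 := (h1.mul_left ((u z : ℂ) * Complex.exp (α * z)))
    have h3 : (fun m : ℕ => F m z) = fun m : ℕ => (u z : ℂ) * Complex.exp (α * z) *
        ((β * conj z) ^ m / (m.factorial : ℂ)) := by
      funext m
      simp only [hF]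
      rw [mul_pow]; ring
    rw [h3]
    have h4 : f z = (u z : ℂ) * Complex.exp (α * z) * Complex.exp (β * conj z) := by
      simp only [hf]; ring
    rw [h4]
    exact h2
  have hbound : ∀ m : ℕ, ∀ᵐ z ∂μ, ‖F m z‖
      ≤ |u z| * (B * ((‖β‖ * R) ^ m / m.factorial)) := by
    intro m
    filter_upwards [hR] with z hz'
    simp only [hF]
    rw [norm_mul, norm_mul, norm_mul, norm_div, norm_pow, norm_pow, Complex.norm_real,
      Real.norm_eq_abs, RCLike.norm_conj, Complex.norm_natCast]
    have b1 : ‖Complex.exp (α * z)‖ ≤ B := by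
      rw [Complex.norm_exp, hB]
      apply Real.exp_le_exp.2
      calc (α * z).re ≤ ‖α * z‖ := Complex.re_le_norm _
        _ = ‖α‖ * ‖z‖ := norm_mul _ _
        _ ≤ _ := by gcongr
    have b2 : ‖z‖ ^ m * (‖β‖ ^ m / m.factorial * ‖Complex.exp (α * z)‖)
        ≤ B * ((‖β‖ * R) ^ m / m.factorial) := by
      calc ‖z‖ ^ m * (‖β‖ ^ m / m.factorial * ‖Complex.exp (α * z)‖)
          ≤ R ^ m * (‖β‖ ^ m / m.factorial * B) := by gcongr
        _ = _ := by rw [mul_pow]; ring
    exact mul_le_mul_of_nonneg_left b2 (abs_nonneg _)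
  have hmeas : ∀ m : ℕ, AEStronglyMeasurable (F m) μ := by
    intro m
    refine (ofRealI hu).1.mul ?_
    apply Continuous.aestronglyMeasurable
    have : Continuous (fun z : ℂ => conj z) := Complex.continuous_conj
    fun_prop
  have hsm : ∀ᵐ z ∂μ, Summable fun m : ℕ => |u z| * (B * ((‖β‖ * R) ^ m / m.factorial)) := by
    refine Eventually.of_forall fun z => ?_
    apply Summable.mul_left
    apply Summable.mul_left
    exact Real.summable_pow_div_factorial _
  have hint : Integrable (fun z => ∑' m : ℕ, |u z| * (B * ((‖β‖ * R) ^ m / m.factorial))) μ := by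
    have : (fun z => ∑' m : ℕ, |u z| * (B * ((‖β‖ * R) ^ m / m.factorial)))
        = fun z => |u z| * ∑' m : ℕ, (B * ((‖β‖ * R) ^ m / m.factorial)) := by
      ext z; rw [tsum_mul_left]
    rw [this]
    exact hu.abs.mul_const _
  have hsum : HasSum (fun m => ∫ z, F m z ∂μ) (∫ z, f z ∂μ) :=
    hasSum_integral_of_dominated_convergence
      (fun m z => |u z| * (B * ((‖β‖ * R) ^ m / m.factorial))) hmeas hbound hsm hint
      (Eventually.of_forall hs)
  have hz : ∀ m : ℕ, ∫ z, F m z ∂μ = 0 := fun m =>
      step m (fun z => β ^ m / (m.factorial : ℂ) * Complex.exp (α * z)) (by fun_prop)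
  simp_rw [hz] at hsum
  exact hsum.unique hasSum_zero

/-- If `c = 0` the solution is trivial. -/
theorem SchifferSolution.c_ne_zero (h : SchifferSolution Ω lam c u G)
    (hb : Bornology.IsBounded Ω) (hΩ : MeasurableSet Ω) : c ≠ 0 := by
  intro hc
  have hfin := finMeas hb
  have hlam := h.lam_pos
  have step : ∀ m : ℕ, ∀ H : ℂ → ℂ, Differentiable ℂ H →
      ∫ z in Ω, (u z : ℂ) * ((conj z) ^ m * H z) = 0 := by
    intro m
    induction m with
    | zero =>
      intro H hH
      have := h.weak_identity hb hΩ isOpen_univ (Set.subset_univ _) hH.differentiableOn 0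
      simp only [Nat.cast_zero, mul_zero, zero_mul] at this
      have h3 := this.symm
      rw [mul_eq_zero] at h3
      rcases h3 with h3 | h3
      · exact absurd (Complex.ofReal_eq_zero.1 h3) hlam.ne'
      · exact h3
    | succ m ih =>
      intro H hH
      have := h.weak_identity hb hΩ isOpen_univ (Set.subset_univ _) hH.differentiableOn (m + 1)
      simp only [hc, sub_zero, Nat.add_sub_cancel] at this
      rw [ih (deriv H) (hH.deriv), mul_zero] at this
      have h3 := this.symm
      rw [mul_eq_zero] at h3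
      rcases h3 with h3 | h3
      · exact absurd (Complex.ofReal_eq_zero.1 h3) hlam.ne'
      · exact h3
  apply h.nontrivial
  have hu := h.integrable_u hb
  apply ae_zero_of_charFun hu
  intro t
  obtain ⟨R, hR⟩ : ∃ R : ℝ, ∀ z ∈ Ω, ‖z‖ ≤ R := hb.exists_norm_le
  have key := exp_moment hu (R := max R 0)
    ((ae_restrict_iff' hΩ).2 (Eventually.of_forall fun z hz => (hR z hz).trans (le_max_left _ _)))
    (le_max_right _ _) step (Complex.I * conj t / 2) (Complex.I * t / 2)
  rw [← key]
  congr 1
  ext z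
  congr 1
  rw [← Complex.exp_add]
  congr 1
  have : ((inner ℝ z t : ℝ) : ℂ) = (conj z * t + z * conj t) / 2 := by
    rw [Complex.inner, Complex.re_eq_add_conj]
    simp
    ring
  rw [this]; ring

end Pool.Agent.MP_83fd13_an
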