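import Mathlib
import Pool.Agent.MP_83fd13_an.Weak3

namespace Pool.Agent.MP_83fd13_an

open MeasureTheory Filter
open scoped Topology ComplexConjugate

variable {Ω N : Set ℂ} {lam c : ℝ} {u : ℂ → ℝ} {G : ℂ → ℂ}

noncomputable def cc (lam : ℝ) (m : ℕ) : ℝ := (-lam / 4) ^ m / ((m.factorial : ℝ) ^ 2)

theorem cc_zero (lam : ℝ) : cc lam 0 = 1 := by simp [cc]

theorem cc_succ (lam : ℝ) (m : ℕ) :
    4 * ((m : ℝ) + 1) ^ 2 * cc lam (m + 1) = -lam * cc lam m := by
  have h1 : ((m.factorial : ℝ)) ≠ 0 := by positivity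
  have h2 : ((m : ℝ) + 1) ≠ 0 := by positivity
  rw [cc, cc, Nat.factorial_succ]
  push_cast
  field_simp
  ring

theorem integrableOn_cont (hb : Bornology.IsBounded Ω) (hsub : closure Ω ⊆ N) {g : ℂ → ℂ}
    (hg : ContinuousOn g N) : Integrable g (volume.restrict Ω) :=
  ((hg.mono hsub).integrableOn_compact hb.isCompact_closure).mono_set subset_closure

theorem continuousOn_conjpow_mul (k : ℕ) {H : ℂ → ℂ} (hH : ContinuousOn H N) :
    ContinuousOn (fun z => (conj z) ^ k * H z) N := by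
  have h3 : Continuous (fun z : ℂ => conj z) := Complex.continuous_conj
  exact ((h3.pow k).continuousOn).mul hH

theorem SchifferSolution.telescope (h : SchifferSolution Ω lam c u G)
    (hb : Bornology.IsBounded Ω) (hΩ : MeasurableSet Ω) (hN : IsOpen N) (hsub : closure Ω ⊆ N)
    {H : ℕ → ℂ → ℂ} (hH : ∀ m, DifferentiableOn ℂ (H m) N)
    (hder : ∀ m : ℕ, ∀ z ∈ N, deriv (H (m + 1)) z = ((m : ℂ) + 1) * H m z) (M : ℕ) :
    (cc lam M : ℂ) * ∫ z in Ω, ((u z - c : ℝ) : ℂ) * ((conj z) ^ M * H M z)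
      = - (c : ℂ) * ∑ m ∈ Finset.range (M + 1), (cc lam m : ℂ) * ∫ z in Ω, (conj z) ^ m * H m z := by
  have hfin := finMeas hb
  have hlam := h.lam_pos
  have hlamC : (lam : ℂ) ≠ 0 := by exact_mod_cast hlam.ne'
  have hu : Integrable (fun z => ((u z - c : ℝ) : ℂ)) (volume.restrict Ω) :=
    ofRealI ((h.integrable_u hb).sub (integrable_const c))
  have hc : ∀ m, ContinuousOn (fun z => (conj z) ^ m * H m z) N := fun m =>
    continuousOn_conjpow_mul m (hH m).continuousOn
  have split : ∀ m, ∫ z in Ω, (u z : ℂ) * ((conj z) ^ m * H m z)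
      = (∫ z in Ω, ((u z - c : ℝ) : ℂ) * ((conj z) ^ m * H m z))
        + c * ∫ z in Ω, (conj z) ^ m * H m z := by
    intro m
    rw [← integral_const_mul, ← integral_add (integrable_mul_on hb hΩ hsub hu (hc m))
      ((integrableOn_cont hb hsub (hc m)).const_mul _)]
    congr 1; ext z; push_cast; ring
  induction M with
  | zero =>
    have h0 := h.weak_identity hb hΩ hN hsub (hH 0) 0
    simp only [Nat.cast_zero, mul_zero, zero_mul] at h0
    rw [split 0, eq_comm, mul_eq_zero, or_iff_right hlamC] at h0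
    simp only [zero_add, Finset.range_one, Finset.sum_singleton, cc_zero, Complex.ofReal_one,
      one_mul]
    linear_combination h0
  | succ M ih =>
    have h0 := h.weak_identity hb hΩ hN hsub (hH (M + 1)) (M + 1)
    rw [split (M + 1)] at h0
    have h1 : ∫ z in Ω, ((u z - c : ℝ) : ℂ) * ((conj z) ^ (M + 1 - 1) * deriv (H (M + 1)) z)
        = ((M : ℂ) + 1) * ∫ z in Ω, ((u z - c : ℝ) : ℂ) * ((conj z) ^ M * H M z) := by
      rw [← integral_const_mul]
      apply setIntegral_congr_fun hΩ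
      intro z hz
      simp only [Nat.add_sub_cancel]
      rw [hder M z (hsub (subset_closure hz))]; ring
    rw [h1] at h0
    rw [Finset.sum_range_succ, mul_add, ← ih]
    have h2 : 4 * ((M : ℂ) + 1) ^ 2 * (cc lam (M + 1) : ℂ) = -lam * cc lam M := by
      have := cc_succ lam M
      exact_mod_cast this
    simp only [Nat.cast_add, Nat.cast_one] at h0
    apply mul_left_cancel₀ hlamC
    linear_combination (-(cc lam (M + 1) : ℂ)) * h0 - (∫ z in Ω, ((u z - c : ℝ) : ℂ) * ((conj z) ^ M * H M z)) * h2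

theorem SchifferSolution.tendsto_moments (h : SchifferSolution Ω lam c u G)
    (hb : Bornology.IsBounded Ω) (hΩ : MeasurableSet Ω) (hN : IsOpen N) (hsub : closure Ω ⊆ N)
    {H : ℕ → ℂ → ℂ} (hH : ∀ m, DifferentiableOn ℂ (H m) N)
    (hder : ∀ m : ℕ, ∀ z ∈ N, deriv (H (m + 1)) z = ((m : ℂ) + 1) * H m z)
    (B : ℕ → ℝ) (hB : ∀ m, ∀ z ∈ Ω, |cc lam m| * ‖(conj z) ^ m * H m z‖ ≤ B m)
    (hB0 : Tendsto B atTop (𝓝 0)) :
    Tendsto (fun M => ∑ m ∈ Finset.range (M + 1), (cc lam m : ℂ) *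
      ∫ z in Ω, (conj z) ^ m * H m z) atTop (𝓝 0) := by
  have hfin := finMeas hb
  have hc0 : (c : ℂ) ≠ 0 := by exact_mod_cast h.c_ne_zero hb hΩ
  have hu : Integrable (fun z => (u z - c : ℝ)) (volume.restrict Ω) :=
    ((h.integrable_u hb).sub (integrable_const c))
  have key : ∀ M, ‖∑ m ∈ Finset.range (M + 1), (cc lam m : ℂ) *
      ∫ z in Ω, (conj z) ^ m * H m z‖ ≤ B M * ((∫ z in Ω, |u z - c|) / |c|) := by
    intro M
    have h1 := h.telescope hb hΩ hN hsub hH hder M
    have h2 : ∑ m ∈ Finset.range (M + 1), (cc lam m : ℂ) * ∫ z in Ω, (conj z) ^ m * H m z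
        = - (((cc lam M : ℂ) * ∫ z in Ω, ((u z - c : ℝ) : ℂ) * ((conj z) ^ M * H M z)) / c) := by
      rw [h1]; field_simp
    rw [h2, norm_neg, norm_div, Complex.norm_real, Real.norm_eq_abs]
    rw [mul_div_assoc']
    apply div_le_div_of_nonneg_right _ (abs_nonneg _)
    rw [← integral_const_mul, ← integral_const_mul]
    apply norm_integral_le_of_norm_le (hu.abs.const_mul _)
    refine (ae_restrict_iff' hΩ).2 (Eventually.of_forall fun z hz => ?_)
    rw [norm_mul, norm_mul, Complex.norm_real, Complex.norm_real, Real.norm_eq_abs,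
      Real.norm_eq_abs]
    calc |cc lam M| * (|u z - c| * ‖(conj z) ^ M * H M z‖)
        = |u z - c| * (|cc lam M| * ‖(conj z) ^ M * H M z‖) := by ring
      _ ≤ |u z - c| * B M := mul_le_mul_of_nonneg_left (hB M z hz) (abs_nonneg _)
      _ = B M * |u z - c| := by ring
  apply squeeze_zero_norm key
  simpa using hB0.mul_const ((∫ z in Ω, |u z - c|) / |c|)

end Pool.Agent.MP_83fd13_an
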