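import Mathlib
import Pool.Agent.MP_83fd13_an.Weak4
import Pool.Agent.MP_83fd13_an.Disc
import Pool.Agent.MP_83fd13_an.Series

namespace Pool.Agent.MP_83fd13_an

open MeasureTheory Filter Finset
open scoped Topology ComplexConjugate

/-- The norm `∑ |p_k|`. -/
noncomputable def nrm (p : PowerSeries ℂ) : ℝ := ∑' k, ‖PowerSeries.coeff k p‖

theorem Conv.one_summable {p : PowerSeries ℂ} (h : Conv 1 p) :
    Summable fun k => ‖PowerSeries.coeff k p‖ := by
  simpa [Conv] using h

theorem nrm_nonneg (p : PowerSeries ℂ) : 0 ≤ nrm p := tsum_nonneg fun _ => norm_nonneg _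

theorem norm_ev_le {p : PowerSeries ℂ} (h : Conv 1 p) {w : ℂ} (hw : ‖w‖ ≤ 1) :
    ‖ev p w‖ ≤ nrm p := by
  apply tsum_of_norm_bounded h.one_summable.hasSum
  intro k
  rw [norm_mul, norm_pow]
  exact mul_le_of_le_one_right (norm_nonneg _) (pow_le_one₀ (norm_nonneg _) hw)

theorem nrm_mul_le {p q : PowerSeries ℂ} (hp : Conv 1 p) (hq : Conv 1 q) :
    nrm (p * q) ≤ nrm p * nrm q := by
  have h1 := hp.one_summable
  have h2 := hq.one_summable
  have h3 : Summable fun k => ‖‖PowerSeries.coeff k p‖‖ := by simpa using h1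
  have h4 : Summable fun k => ‖‖PowerSeries.coeff k q‖‖ := by simpa using h2
  rw [nrm, nrm, nrm, tsum_mul_tsum_eq_tsum_sum_antidiagonal_of_summable_norm h3 h4]
  apply Summable.tsum_le_tsum _ (hp.mul zero_le_one hq).one_summable
  · exact (summable_norm_sum_mul_antidiagonal_of_summable_norm h3 h4).of_norm
  · intro n
    rw [PowerSeries.coeff_mul]
    refine (norm_sum_le _ _).trans (Finset.sum_le_sum fun kl _ => ?_)
    rw [norm_mul]

theorem nrm_intg_le {p : PowerSeries ℂ} (hp : Conv 1 p) : nrm (intg p) ≤ nrm p := by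
  have h1 := hp.one_summable
  have h2 := (hp.intg zero_le_one).one_summable
  rw [nrm, h2.tsum_eq_zero_add, coeff_intg_zero, norm_zero, zero_add, nrm]
  exact Summable.tsum_le_tsum (norm_coeff_intg_succ_le p) ((summable_nat_add_iff 1).2 h2) h1

theorem nrm_smul (c : ℂ) (p : PowerSeries ℂ) : nrm (c • p) = ‖c‖ * nrm p := by
  rw [nrm, nrm, ← tsum_mul_left]
  apply tsum_congr
  intro k
  rw [map_smul, smul_eq_mul, norm_mul]

theorem nrm_X_pow (n : ℕ) : nrm (PowerSeries.X ^ n) = 1 := by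
  rw [nrm, tsum_eq_single n]
  · rw [PowerSeries.coeff_X_pow, if_pos rfl, norm_one]
  · intro k hk; rw [PowerSeries.coeff_X_pow, if_neg hk, norm_zero]

/-- The series of `A_m φ'`. -/
noncomputable def UU (D : PowerSeries ℂ) (n : ℕ) : ℕ → PowerSeries ℂ
  | 0 => PowerSeries.X ^ n
  | m + 1 => (((m : ℂ) + 1) • intg (UU D n m)) * D

theorem conv_UU {r : ℝ} (hr : 0 ≤ r) {D : PowerSeries ℂ} (hD : Conv r D) (n m : ℕ) :
    Conv r (UU D n m) := by
  induction m with
  | zero => exact conv_X_pow r n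
  | succ m ih => exact ((ih.intg hr).smul _).mul hr hD

theorem norm_nat_add_one (m : ℕ) : ‖((m : ℂ) + 1)‖ = (m : ℝ) + 1 := by
  have : ((m : ℂ) + 1) = (((m : ℝ) + 1 : ℝ) : ℂ) := by push_cast; rfl
  rw [this, Complex.norm_real, Real.norm_eq_abs, abs_of_nonneg (by positivity)]

theorem nrm_UU_le {D : PowerSeries ℂ} (hD : Conv 1 D) (n m : ℕ) :
    nrm (UU D n m) ≤ m.factorial * nrm D ^ m := by
  induction m with
  | zero => simp [UU, nrm_X_pow]
  | succ m ih =>
    rw [UU]
    have hU := conv_UU zero_le_one hD n m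
    refine (nrm_mul_le ((hU.intg zero_le_one).smul _) hD).trans ?_
    rw [nrm_smul, norm_nat_add_one]
    have h1 := nrm_intg_le hU
    have h2 : nrm (intg (UU D n m)) ≤ m.factorial * nrm D ^ m := h1.trans ih
    calc ((m : ℝ) + 1) * nrm (intg (UU D n m)) * nrm D
        ≤ ((m : ℝ) + 1) * (m.factorial * nrm D ^ m) * nrm D := by
          have := nrm_nonneg D
          gcongr
      _ = _ := by rw [Nat.factorial_succ]; push_cast; ring

theorem det_smul_one (c : ℂ) : (c • (1 : ℂ →L[ℝ] ℂ)).det = Complex.normSq c := by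
  rw [← Algebra.norm_complex_apply, Algebra.norm_apply, ContinuousLinearMap.det]
  congr 1

theorem coeff_pow_deriv (P : PowerSeries ℂ) (m k : ℕ) :
    ((m : ℂ) + 1) * PowerSeries.coeff k (P ^ m * PowerSeries.derivative ℂ P)
      = ((k : ℂ) + 1) * PowerSeries.coeff (k + 1) (P ^ (m + 1)) := by
  have h1 := PowerSeries.derivative_pow (R := ℂ) P (m + 1)
  have h2 := congrArg (PowerSeries.coeff k) h1
  rw [PowerSeries.coeff_derivative] at h2
  have h3 : ((m + 1 : ℕ) : PowerSeries ℂ) * P ^ (m + 1 - 1) * PowerSeries.derivative ℂ P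
      = ((m : ℂ) + 1) • (P ^ m * PowerSeries.derivative ℂ P) := by
    rw [Nat.add_sub_cancel, mul_assoc]
    rw [PowerSeries.smul_eq_C_mul]
    congr 1
    simp
  rw [h3, map_smul, smul_eq_mul] at h2
  rw [← h2]; ring

end Pool.Agent.MP_83fd13_an
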