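import Mathlib
import Pool.Agent.MP_83fd13_an.Ident

namespace Pool.Agent.MP_83fd13_an

open Filter Finset
open scoped Topology

/-- Nonnegative coefficients. -/
def NN (p : PowerSeries ℝ) : Prop := ∀ k, 0 ≤ PowerSeries.coeff k p

theorem NN.mul {p q : PowerSeries ℝ} (hp : NN p) (hq : NN q) : NN (p * q) := by
  intro k
  rw [PowerSeries.coeff_mul]
  exact Finset.sum_nonneg fun kl _ => mul_nonneg (hp _) (hq _)

theorem NN.one : NN 1 := by
  intro k
  rw [PowerSeries.coeff_one]
  split_ifs <;> norm_num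

theorem NN.pow {p : PowerSeries ℝ} (hp : NN p) (m : ℕ) : NN (p ^ m) := by
  induction m with
  | zero => rw [pow_zero]; exact NN.one
  | succ m ih => rw [pow_succ]; exact ih.mul hp

/-- Majorisation of a complex series by a real one. -/
def Maj (p : PowerSeries ℂ) (q : PowerSeries ℝ) : Prop :=
  ∀ k, ‖PowerSeries.coeff k p‖ ≤ PowerSeries.coeff k q

theorem Maj.nn {p : PowerSeries ℂ} {q : PowerSeries ℝ} (h : Maj p q) : NN q := fun k =>
  (norm_nonneg _).trans (h k)

theorem Maj.mul {p p' : PowerSeries ℂ} {q q' : PowerSeries ℝ} (h : Maj p q) (h' : Maj p' q') :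
    Maj (p * p') (q * q') := by
  intro k
  rw [PowerSeries.coeff_mul, PowerSeries.coeff_mul]
  refine (norm_sum_le _ _).trans (Finset.sum_le_sum fun kl _ => ?_)
  rw [norm_mul]
  exact mul_le_mul (h _) (h' _) (norm_nonneg _) (h.nn _)

theorem Maj.one : Maj 1 1 := by
  intro k
  rw [PowerSeries.coeff_one, PowerSeries.coeff_one]
  split_ifs <;> simp

theorem Maj.pow {p : PowerSeries ℂ} {q : PowerSeries ℝ} (h : Maj p q) (m : ℕ) :
    Maj (p ^ m) (q ^ m) := by
  induction m with
  | zero => rw [pow_zero, pow_zero]; exact Maj.one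
  | succ m ih => rw [pow_succ, pow_succ]; exact ih.mul h

/-- the series of norms -/
noncomputable def nn (p : PowerSeries ℂ) : PowerSeries ℝ :=
  PowerSeries.mk fun k => ‖PowerSeries.coeff k p‖

theorem coeff_nn (p : PowerSeries ℂ) (k : ℕ) :
    PowerSeries.coeff k (nn p) = ‖PowerSeries.coeff k p‖ := by rw [nn, PowerSeries.coeff_mk]

theorem maj_nn (p : PowerSeries ℂ) : Maj p (nn p) := fun k => (coeff_nn p k).ge

/-- the key coefficient bound for `UU` -/
theorem UU_coeff_le (D : PowerSeries ℂ) (n m : ℕ) (k : ℕ) :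
    ‖PowerSeries.coeff k (UU D n m)‖ ≤ ((m.factorial : ℝ) * n.factorial / (n + m).factorial) *
      PowerSeries.coeff k (PowerSeries.X ^ (n + m) * nn D ^ m) := by
  induction m generalizing k with
  | zero =>
    rw [UU, PowerSeries.coeff_X_pow, pow_zero, mul_one, add_zero, PowerSeries.coeff_X_pow]
    have h1 : ((n.factorial : ℝ)) ≠ 0 := by positivity
    split_ifs
    · simp [h1]
    · simp
  | succ m ih =>
    rw [UU]
    set κ : ℝ := ((m.factorial : ℝ) * n.factorial / (n + m).factorial) with hκ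
    have hκ0 : 0 ≤ κ := by positivity
    have hNN : NN (PowerSeries.X ^ (n + m) * nn D ^ m) := by
      apply NN.mul
      · intro j; rw [PowerSeries.coeff_X_pow]; split_ifs <;> norm_num
      · exact (maj_nn D).nn.pow m
    -- bound for the antiderivative
    have h1 : Maj (((m : ℂ) + 1) • intg (UU D n m))
        (PowerSeries.mk fun j => (((m + 1).factorial : ℝ) * n.factorial / (n + (m + 1)).factorial) *
          PowerSeries.coeff j (PowerSeries.X ^ (n + (m + 1)) * nn D ^ m)) := by
      intro j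
      rw [PowerSeries.coeff_mk, map_smul, smul_eq_mul, norm_mul, norm_nat_add_one]
      cases j with
      | zero =>
        rw [coeff_intg_zero, norm_zero, mul_zero]
        apply mul_nonneg (by positivity)
        apply NN.mul _ ((maj_nn D).nn.pow m)
        intro j; rw [PowerSeries.coeff_X_pow]; split_ifs <;> norm_num
      | succ j =>
        rw [coeff_intg_succ, norm_div, norm_nat_add_one]
        have e1 : (PowerSeries.X : PowerSeries ℝ) ^ (n + (m + 1)) * nn D ^ m
            = PowerSeries.X * (PowerSeries.X ^ (n + m) * nn D ^ m) := by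
          rw [← add_assoc, pow_succ]; ring
        rw [e1, PowerSeries.coeff_succ_X_mul]
        have hj := ih j
        have hm0 : (0 : ℝ) < (m : ℝ) + 1 := by positivity
        have hj0 : (0 : ℝ) < (j : ℝ) + 1 := by positivity
        by_cases hjn : j < n + m
        · have h0 : PowerSeries.coeff j (PowerSeries.X ^ (n + m) * nn D ^ m) = 0 := by
            rw [PowerSeries.coeff_X_pow_mul', if_neg (by omega)]
          rw [h0, mul_zero] at hj ⊢
          have : ‖PowerSeries.coeff j (UU D n m)‖ = 0 := le_antisymm hj (norm_nonneg _)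
          rw [this]; simp
        · push Not at hjn
          have hjn' : ((n : ℝ) + m + 1) ≤ (j : ℝ) + 1 := by
            have : ((n + m : ℕ) : ℝ) ≤ (j : ℝ) := by exact_mod_cast hjn
            push_cast at this
            linarith
          have hnm : (0 : ℝ) < (n : ℝ) + m + 1 := by positivity
          have hc0 : 0 ≤ PowerSeries.coeff j (PowerSeries.X ^ (n + m) * nn D ^ m) := hNN j
          have e2 : ((n + (m + 1)).factorial : ℝ) = ((n : ℝ) + m + 1) * (n + m).factorial := by
            rw [← add_assoc, Nat.factorial_succ]; push_cast; ring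
          rw [e2, Nat.factorial_succ]
          push_cast
          calc ((m : ℝ) + 1) * (‖PowerSeries.coeff j (UU D n m)‖ / ((j : ℝ) + 1))
              ≤ ((m : ℝ) + 1) * ((κ * PowerSeries.coeff j (PowerSeries.X ^ (n + m) * nn D ^ m))
                  / ((n : ℝ) + m + 1)) := by
                apply mul_le_mul_of_nonneg_left _ hm0.le
                exact div_le_div₀ (mul_nonneg hκ0 hc0) hj hnm hjn'
            _ = _ := by
                rw [hκ]
                field_simp
    have h2 := h1.mul (maj_nn D) k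
    refine h2.trans (le_of_eq ?_)
    have e3 : (PowerSeries.mk fun j => (((m + 1).factorial : ℝ) * n.factorial / (n + (m + 1)).factorial) *
          PowerSeries.coeff j (PowerSeries.X ^ (n + (m + 1)) * nn D ^ m))
        = (((m + 1).factorial : ℝ) * n.factorial / (n + (m + 1)).factorial) •
          (PowerSeries.X ^ (n + (m + 1)) * nn D ^ m) := by
      ext j
      rw [PowerSeries.coeff_mk, map_smul, smul_eq_mul]
    rw [e3, smul_mul_assoc, map_smul, smul_eq_mul, mul_assoc (PowerSeries.X ^ (n + (m + 1))),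
      ← pow_succ]

/-- partial sums of coefficients -/
noncomputable def SN (N : ℕ) (p : PowerSeries ℝ) : ℝ := ∑ k ∈ range (N + 1), PowerSeries.coeff k p

theorem SN_nonneg {p : PowerSeries ℝ} (hp : NN p) (N : ℕ) : 0 ≤ SN N p :=
  Finset.sum_nonneg fun k _ => hp k

theorem coeff_le_SN {p : PowerSeries ℝ} (hp : NN p) (N : ℕ) : PowerSeries.coeff N p ≤ SN N p :=
  Finset.single_le_sum (f := fun k => PowerSeries.coeff k p) (fun k _ => hp k)
    (Finset.mem_range.2 (Nat.lt_succ_self N))

theorem SN_mono {p : PowerSeries ℝ} (hp : NN p) {M N : ℕ} (h : M ≤ N) : SN M p ≤ SN N p :=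
  Finset.sum_le_sum_of_subset_of_nonneg (Finset.range_mono (by omega)) fun k _ _ => hp k

theorem SN_mul_le {p q : PowerSeries ℝ} (hp : NN p) (hq : NN q) (N : ℕ) :
    SN N (p * q) ≤ SN N p * SN N q := by
  have h1 : SN N (p * q) = ∑ x ∈ (range (N + 1)).sigma (fun n => antidiagonal n),
      PowerSeries.coeff x.2.1 p * PowerSeries.coeff x.2.2 q := by
    rw [SN, Finset.sum_sigma]
    apply Finset.sum_congr rfl
    intro n _
    rw [PowerSeries.coeff_mul]
  have h2 : SN N p * SN N q = ∑ x ∈ range (N + 1) ×ˢ range (N + 1),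
      PowerSeries.coeff x.1 p * PowerSeries.coeff x.2 q := by
    rw [SN, SN, Finset.sum_mul_sum, Finset.sum_product]
  rw [h1, h2]
  have h3 : ∑ x ∈ (range (N + 1)).sigma (fun n => antidiagonal n),
      PowerSeries.coeff x.2.1 p * PowerSeries.coeff x.2.2 q
      = ∑ y ∈ ((range (N + 1)).sigma (fun n => antidiagonal n)).image (fun x => x.2),
        PowerSeries.coeff y.1 p * PowerSeries.coeff y.2 q := by
    rw [Finset.sum_image]
    rintro ⟨n1, x1⟩ h1 ⟨n2, x2⟩ h2 h
    simp only [Finset.coe_sigma, Set.mem_sigma_iff, Finset.mem_coe,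
      Finset.HasAntidiagonal.mem_antidiagonal] at h1 h2 h
    subst h
    have : n1 = n2 := by rw [← h1.2, ← h2.2]
    subst this
    rfl
  rw [h3]
  apply Finset.sum_le_sum_of_subset_of_nonneg
  · intro y hy
    rw [Finset.mem_image] at hy
    obtain ⟨⟨n, x⟩, hx, rfl⟩ := hy
    simp only [Finset.mem_sigma, Finset.mem_range, Finset.HasAntidiagonal.mem_antidiagonal] at hx
    simp only [Finset.mem_product, Finset.mem_range]
    omega
  · intro y _ _
    exact mul_nonneg (hp _) (hq _)

theorem SN_one_le (N : ℕ) : SN N 1 ≤ 1 := by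
  rw [SN, Finset.sum_eq_single 0]
  · simp
  · intro k _ hk; rw [PowerSeries.coeff_one, if_neg hk]
  · intro h; exact absurd (Finset.mem_range.2 (Nat.succ_pos N)) h

theorem SN_pow_le {p : PowerSeries ℝ} (hp : NN p) (N m : ℕ) : SN N (p ^ m) ≤ SN N p ^ m := by
  induction m with
  | zero => rw [pow_zero, pow_zero]; exact SN_one_le N
  | succ m ih =>
    rw [pow_succ, pow_succ]
    refine (SN_mul_le (hp.pow m) hp N).trans ?_
    exact mul_le_mul_of_nonneg_right ih (SN_nonneg hp N)

/-- Multiplying coefficients by a submultiplicative weight. -/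
theorem weight_pow_le {p q : PowerSeries ℝ} (hp : NN p) {W : ℕ → ℝ} (hW : ∀ i, 0 ≤ W i)
    (hW0 : W 0 ≤ 1) (hWm : ∀ i j, W (i + j) ≤ W i * W j)
    (hq : ∀ k, PowerSeries.coeff k p * W k ≤ PowerSeries.coeff k q) (m N : ℕ) :
    PowerSeries.coeff N (p ^ m) * W N ≤ PowerSeries.coeff N (q ^ m) := by
  have hqn : NN q := fun k => (mul_nonneg (hp k) (hW k)).trans (hq k)
  induction m generalizing N with
  | zero =>
    rw [pow_zero, pow_zero, PowerSeries.coeff_one]
    split_ifs with h
    · rw [h, one_mul]; exact hW0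
    · simp
  | succ m ih =>
    rw [pow_succ, pow_succ, PowerSeries.coeff_mul, PowerSeries.coeff_mul, Finset.sum_mul]
    apply Finset.sum_le_sum
    intro kl hkl
    rw [← mem_antidiagonal.1 hkl]
    calc PowerSeries.coeff kl.1 (p ^ m) * PowerSeries.coeff kl.2 p * W (kl.1 + kl.2)
        ≤ PowerSeries.coeff kl.1 (p ^ m) * PowerSeries.coeff kl.2 p * (W kl.1 * W kl.2) :=
          mul_le_mul_of_nonneg_left (hWm _ _) (mul_nonneg (hp.pow m _) (hp _))
      _ = (PowerSeries.coeff kl.1 (p ^ m) * W kl.1) * (PowerSeries.coeff kl.2 p * W kl.2) := by ring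
      _ ≤ PowerSeries.coeff kl.1 (q ^ m) * PowerSeries.coeff kl.2 q :=
          mul_le_mul (ih _) (hq _) (mul_nonneg (hp _) (hW _)) (hqn.pow m _)

/-- The main coefficient bound: a small tail `s` is felt linearly. -/
theorem coeff_pow_le {A PP : PowerSeries ℝ} (hA : NN A) (hPP : NN PP) {s : ℝ} (hs : 0 ≤ s)
    (h : ∀ k, PowerSeries.coeff k A ≤ PowerSeries.coeff k PP + s) (m N : ℕ) :
    PowerSeries.coeff N (A ^ (m + 1)) ≤ PowerSeries.coeff N (PP ^ (m + 1))
      + ((m : ℝ) + 1) * s * (SN N PP + s * ((N : ℝ) + 1)) ^ m := by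
  have hSA : ∀ N, SN N A ≤ SN N PP + s * ((N : ℝ) + 1) := by
    intro N
    have : SN N PP + s * ((N : ℝ) + 1) = ∑ k ∈ range (N + 1), (PowerSeries.coeff k PP + s) := by
      rw [SN, Finset.sum_add_distrib, Finset.sum_const, Finset.card_range, nsmul_eq_mul]
      push_cast; ring
    rw [this]
    exact Finset.sum_le_sum fun k _ => h k
  have hmono : ∀ {M N : ℕ}, M ≤ N → SN M PP + s * ((M : ℝ) + 1) ≤ SN N PP + s * ((N : ℝ) + 1) := by
    intro M N hMN
    have h1 := SN_mono hPP hMN
    have h2 : (M : ℝ) ≤ N := by exact_mod_cast hMN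
    nlinarith
  have hpos : ∀ N : ℕ, 0 ≤ SN N PP + s * ((N : ℝ) + 1) := by
    intro N
    have := SN_nonneg hPP N
    positivity
  induction m generalizing N with
  | zero =>
    simp only [zero_add, pow_one, Nat.cast_zero, one_mul, pow_zero, mul_one]
    exact h N
  | succ m ih =>
    rw [pow_succ' A (m + 1), PowerSeries.coeff_mul]
    have h1 : ∀ kl ∈ antidiagonal N, PowerSeries.coeff kl.1 A * PowerSeries.coeff kl.2 (A ^ (m + 1))
        ≤ (PowerSeries.coeff kl.1 PP * PowerSeries.coeff kl.2 (PP ^ (m + 1))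
          + s * PowerSeries.coeff kl.2 (PP ^ (m + 1)))
          + PowerSeries.coeff kl.1 A * (((m : ℝ) + 1) * s * (SN N PP + s * ((N : ℝ) + 1)) ^ m) := by
      intro kl hkl
      have hle : kl.2 ≤ N := by
        have := mem_antidiagonal.1 hkl; omega
      have e1 : PowerSeries.coeff kl.2 (A ^ (m + 1)) ≤ PowerSeries.coeff kl.2 (PP ^ (m + 1))
          + ((m : ℝ) + 1) * s * (SN N PP + s * ((N : ℝ) + 1)) ^ m := by
        refine (ih kl.2).trans ?_
        have := pow_le_pow_left₀ (hpos kl.2) (hmono hle) m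
        gcongr
      calc PowerSeries.coeff kl.1 A * PowerSeries.coeff kl.2 (A ^ (m + 1))
          ≤ PowerSeries.coeff kl.1 A * (PowerSeries.coeff kl.2 (PP ^ (m + 1))
          + ((m : ℝ) + 1) * s * (SN N PP + s * ((N : ℝ) + 1)) ^ m) :=
            mul_le_mul_of_nonneg_left e1 (hA _)
        _ = PowerSeries.coeff kl.1 A * PowerSeries.coeff kl.2 (PP ^ (m + 1))
          + PowerSeries.coeff kl.1 A * (((m : ℝ) + 1) * s * (SN N PP + s * ((N : ℝ) + 1)) ^ m) := by
            ring
        _ ≤ _ := by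
          have := mul_le_mul_of_nonneg_right (h kl.1) (hPP.pow (m + 1) kl.2)
          linarith
    refine (Finset.sum_le_sum h1).trans ?_
    rw [Finset.sum_add_distrib, Finset.sum_add_distrib, ← Finset.sum_mul, ← Finset.mul_sum]
    have e2 : ∑ kl ∈ antidiagonal N, PowerSeries.coeff kl.1 A = SN N A := by
      rw [Finset.Nat.sum_antidiagonal_eq_sum_range_succ_mk, SN]
    have e3 : ∑ kl ∈ antidiagonal N, PowerSeries.coeff kl.2 (PP ^ (m + 1)) = SN N (PP ^ (m + 1)) := by
      rw [← Finset.Nat.sum_antidiagonal_swap, Finset.Nat.sum_antidiagonal_eq_sum_range_succ_mk, SN]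
      rfl
    have e4 : ∑ kl ∈ antidiagonal N, PowerSeries.coeff kl.1 PP * PowerSeries.coeff kl.2 (PP ^ (m + 1))
        = PowerSeries.coeff N (PP ^ (m + 1 + 1)) := by
      rw [pow_succ' PP (m + 1), PowerSeries.coeff_mul]
    rw [e2, e3, e4]
    have e5 : SN N (PP ^ (m + 1)) ≤ (SN N PP + s * ((N : ℝ) + 1)) ^ (m + 1) := by
      refine (SN_pow_le hPP N (m + 1)).trans ?_
      apply pow_le_pow_left₀ (SN_nonneg hPP N)
      have : 0 ≤ s * ((N : ℝ) + 1) := by positivity
      linarith
    have e6 : SN N A * (((m : ℝ) + 1) * s * (SN N PP + s * ((N : ℝ) + 1)) ^ m)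
        ≤ (SN N PP + s * ((N : ℝ) + 1)) * (((m : ℝ) + 1) * s * (SN N PP + s * ((N : ℝ) + 1)) ^ m) := by
      apply mul_le_mul_of_nonneg_right (hSA N)
      have := pow_nonneg (hpos N) m
      positivity
    have e7 := mul_le_mul_of_nonneg_left e5 hs
    push_cast
    rw [pow_succ (SN N PP + s * ((N : ℝ) + 1))] at e7 ⊢
    nlinarith [e6, e7]

end Pool.Agent.MP_83fd13_an
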