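import Mathlib
import Pool.Agent.MP_83fd13_an.Weak4
import Pool.Agent.MP_83fd13_an.Major

namespace Pool.Agent.MP_83fd13_an

open Filter Finset
open scoped Topology

theorem sum_coeff_X_pow_mul_le (N0 K : ℕ) {Q : PowerSeries ℝ} (hQ : NN Q) {f : ℕ → ℝ}
    (hf : ∀ k, 0 ≤ f k) :
    ∑ k ∈ range K, PowerSeries.coeff k (PowerSeries.X ^ N0 * Q) * f k
      ≤ ∑ l ∈ range K, PowerSeries.coeff l Q * f (N0 + l) := by
  have hn : NN (PowerSeries.X ^ N0 * Q) := by
    apply NN.mul _ hQ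
    intro j; rw [PowerSeries.coeff_X_pow]; split_ifs <;> norm_num
  have h1 : ∑ k ∈ range K, PowerSeries.coeff k (PowerSeries.X ^ N0 * Q) * f k
      ≤ ∑ k ∈ range (N0 + K), PowerSeries.coeff k (PowerSeries.X ^ N0 * Q) * f k :=
    Finset.sum_le_sum_of_subset_of_nonneg (Finset.range_mono (by omega))
      fun k _ _ => mul_nonneg (hn k) (hf k)
  refine h1.trans (le_of_eq ?_)
  rw [Finset.sum_range_add]
  have h2 : ∑ k ∈ range N0, PowerSeries.coeff k (PowerSeries.X ^ N0 * Q) * f k = 0 := by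
    apply Finset.sum_eq_zero
    intro k hk
    have := Finset.mem_range.1 hk
    rw [PowerSeries.coeff_X_pow_mul', if_neg (by omega), zero_mul]
  rw [h2, zero_add]
  apply Finset.sum_congr rfl
  intro l _
  rw [PowerSeries.coeff_X_pow_mul', if_pos (by omega), Nat.add_sub_cancel_left]

/-- the finite initial block -/
noncomputable def blk (Dd : ℝ) (n1 : ℕ) : PowerSeries ℝ :=
  PowerSeries.mk fun k => if k < n1 then Dd else 0

theorem blk_nn {Dd : ℝ} (h : 0 ≤ Dd) (n1 : ℕ) : NN (blk Dd n1) := by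
  intro k
  rw [blk, PowerSeries.coeff_mk]
  split_ifs
  · exact h
  · exact le_rfl

theorem SN_blk_weight_le {Dd : ℝ} (h : 0 ≤ Dd) (n1 N : ℕ) {θ : ℝ} (hθ : 1 ≤ θ) :
    SN N (PowerSeries.mk fun k => PowerSeries.coeff k (blk Dd n1) * θ ^ k) ≤ Dd * n1 * θ ^ n1 := by
  rw [SN]
  have h1 : ∀ k ∈ range (N + 1), PowerSeries.coeff k
      (PowerSeries.mk fun k => PowerSeries.coeff k (blk Dd n1) * θ ^ k)
      ≤ if k < n1 then Dd * θ ^ n1 else 0 := by
    intro k _
    rw [PowerSeries.coeff_mk, blk, PowerSeries.coeff_mk]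
    split_ifs with hk
    · have := pow_le_pow_right₀ hθ hk.le
      gcongr
    · simp
  refine (Finset.sum_le_sum h1).trans ?_
  rw [← Finset.sum_filter, Finset.sum_const, nsmul_eq_mul]
  have h2 : #(filter (fun k => k < n1) (range (N + 1))) ≤ n1 := by
    calc #(filter (fun k => k < n1) (range (N + 1))) ≤ #(range n1) := by
          apply Finset.card_le_card
          intro k hk
          simp only [Finset.mem_filter, Finset.mem_range] at hk ⊢
          exact hk.2
      _ = n1 := Finset.card_range n1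
  have h3 : ((#(filter (fun k => k < n1) (range (N + 1))) : ℕ) : ℝ) ≤ n1 := by exact_mod_cast h2
  have h4 : 0 ≤ Dd * θ ^ n1 := by positivity
  calc _ ≤ (n1 : ℝ) * (Dd * θ ^ n1) := mul_le_mul_of_nonneg_right h3 h4
    _ = _ := by ring

theorem SN_blk_le {Dd : ℝ} (h : 0 ≤ Dd) (n1 N : ℕ) : SN N (blk Dd n1) ≤ Dd * n1 := by
  have := SN_blk_weight_le h n1 N (θ := 1) le_rfl
  simpa [SN] using this

theorem coeff_blk_pow_le {Dd : ℝ} (h : 0 ≤ Dd) (n1 m N : ℕ) {θ : ℝ} (hθ : 1 ≤ θ) :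
    PowerSeries.coeff N (blk Dd n1 ^ m) * θ ^ N ≤ (Dd * n1 * θ ^ n1) ^ m := by
  have hθ0 : 0 ≤ θ := by linarith
  have hnn : NN (PowerSeries.mk fun k => PowerSeries.coeff k (blk Dd n1) * θ ^ k) := by
    intro k
    rw [PowerSeries.coeff_mk]
    exact mul_nonneg (blk_nn h n1 k) (by positivity)
  have h1 := weight_pow_le (blk_nn h n1) (W := fun k => θ ^ k) (fun i => by positivity)
    (by simp) (fun i j => (pow_add θ i j).le)
    (q := PowerSeries.mk fun k => PowerSeries.coeff k (blk Dd n1) * θ ^ k)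
    (fun k => by rw [PowerSeries.coeff_mk]) m N
  refine h1.trans ((coeff_le_SN (hnn.pow m) N).trans ((SN_pow_le hnn N m).trans ?_))
  exact pow_le_pow_left₀ (SN_nonneg hnn N) (SN_blk_weight_le h n1 N hθ) m

theorem exp_bound {ρ : ℝ} (hρ : 1 < ρ) (m j : ℕ) :
    ((j : ℝ)) ^ m / m.factorial ≤ (Real.log ρ)⁻¹ ^ m * ρ ^ j := by
  have hc : 0 < Real.log ρ := Real.log_pos hρ
  have h1 := Real.pow_div_factorial_le_exp (Real.log ρ * j) (by positivity) m
  have h2 : Real.exp (Real.log ρ * j) = ρ ^ j := by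
    rw [Real.exp_mul, Real.exp_log (by linarith), Real.rpow_natCast]
  rw [h2, mul_pow] at h1
  have h3 : (0 : ℝ) < Real.log ρ ^ m := by positivity
  rw [inv_pow]
  calc (j : ℝ) ^ m / m.factorial = (Real.log ρ ^ m)⁻¹ * (Real.log ρ ^ m * (j : ℝ) ^ m / m.factorial) := by
        field_simp
    _ ≤ _ := by gcongr

end Pool.Agent.MP_83fd13_an
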