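import Mathlib
import Pool.Agent.MP_83fd13_an.Key

namespace Pool.Agent.MP_83fd13_an

open Filter Finset
open scoped Topology ComplexConjugate

/-- Data of a weight: `W 0 = 1`, submultiplicative, and growing at least like `ρ ^ j`. -/
structure Weight (ρ : ℝ) (W : ℕ → ℝ) : Prop where
  nonneg : ∀ i, 0 ≤ W i
  zero : W 0 ≤ 1
  mul : ∀ i j, W (i + j) ≤ W i * W j
  grow : ∀ i j, W i * ρ ^ j ≤ W (i + j)

theorem absCm (lam : ℝ) (hlam : 0 < lam) (m : ℕ) :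
    |cc lam m| / ((m : ℝ) + 1) = (lam / 4) ^ m / ((m.factorial : ℝ) ^ 2 * ((m : ℝ) + 1)) := by
  rw [cc, abs_div, abs_pow, abs_div, abs_neg, abs_of_pos hlam]
  have h1 : |(4 : ℝ)| = 4 := by norm_num
  have h2 : |((m.factorial : ℝ) ^ 2)| = (m.factorial : ℝ) ^ 2 := abs_of_nonneg (by positivity)
  rw [h1, h2]
  have h3 : ((m.factorial : ℝ)) ≠ 0 := by positivity
  have h4 : ((m : ℝ) + 1) ≠ 0 := by positivity
  field_simp

theorem single_bound {ρ : ℝ} (hρ : 1 < ρ) {W : ℕ → ℝ} (hW : Weight ρ W) {Pm : PowerSeries ℝ}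
    (hPm : NN Pm) {Dd s : ℝ} (hDd : 0 ≤ Dd) (hs : 0 ≤ s) {n1 : ℕ}
    (hx : ∀ k, PowerSeries.coeff k Pm * W k ≤ PowerSeries.coeff k (blk Dd n1) + s)
    (n m l : ℕ) {mu : ℝ} (hmu : 0 ≤ mu) :
    mu ^ m / (((m + 1).factorial : ℝ) * ((n : ℝ) + 1) ^ m) *
      (W (n + 1) * PowerSeries.coeff (n + m + l + 1) (Pm ^ (m + 1)))
      ≤ mu ^ m * (Dd * n1 * 2 ^ n1) ^ (m + 1) / (m + 1).factorial * (1 / 2) ^ (n + 1)
        + s * ρ ^ 2 * (mu * (Dd * n1 / ((n : ℝ) + 1) + s) * (Real.log ρ)⁻¹) ^ m := by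
  have hρ0 : 0 < ρ := by linarith
  set N := n + m + l + 1 with hN
  set A : PowerSeries ℝ := PowerSeries.mk fun k => PowerSeries.coeff k Pm * W k with hA
  have hAnn : NN A := by
    intro k
    rw [hA, PowerSeries.coeff_mk]
    exact mul_nonneg (hPm k) (hW.nonneg k)
  have h1 := weight_pow_le hPm hW.nonneg hW.zero hW.mul (q := A)
    (fun k => by rw [hA, PowerSeries.coeff_mk]) (m + 1) N
  have h2 := coeff_pow_le hAnn (blk_nn hDd n1) hs
    (fun k => by rw [hA, PowerSeries.coeff_mk]; exact hx k) m N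
  have h3 : PowerSeries.coeff N (blk Dd n1 ^ (m + 1)) ≤ (Dd * n1 * 2 ^ n1) ^ (m + 1) * (1 / 2) ^ N := by
    have := coeff_blk_pow_le hDd n1 (m + 1) N (θ := 2) (by norm_num)
    have h4 : (0 : ℝ) < 2 ^ N := by positivity
    calc PowerSeries.coeff N (blk Dd n1 ^ (m + 1))
        = (PowerSeries.coeff N (blk Dd n1 ^ (m + 1)) * 2 ^ N) * (1 / 2) ^ N := by
          rw [mul_assoc, ← mul_pow]; norm_num
      _ ≤ _ := by gcongr
  have hn0 : (0 : ℝ) < (n : ℝ) + 1 := by positivity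
  set q : ℝ := Dd * n1 / ((n : ℝ) + 1) + s with hq
  have hq0 : 0 ≤ q := by positivity
  have h5 : SN N (blk Dd n1) + s * ((N : ℝ) + 1) ≤ ((n : ℝ) + 1) * (q * ((m + l + 2 : ℕ) : ℝ)) := by
    have e1 := SN_blk_le hDd n1 N
    have e2 : ((N : ℝ) + 1) ≤ ((n : ℝ) + 1) * ((m + l + 2 : ℕ) : ℝ) := by
      rw [hN]; push_cast
      have hn : (0 : ℝ) ≤ n := Nat.cast_nonneg n
      have hm : (0 : ℝ) ≤ m := Nat.cast_nonneg m
      have hl : (0 : ℝ) ≤ l := Nat.cast_nonneg l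
      nlinarith [mul_nonneg hn hm, mul_nonneg hn hl]
    have e3 : Dd * n1 ≤ Dd * n1 * ((m + l + 2 : ℕ) : ℝ) := by
      have : (1 : ℝ) ≤ ((m + l + 2 : ℕ) : ℝ) := by
        exact_mod_cast (by omega : 1 ≤ m + l + 2)
      have h0 : 0 ≤ Dd * (n1 : ℝ) := by positivity
      nlinarith
    have e4 : ((n : ℝ) + 1) * (q * ((m + l + 2 : ℕ) : ℝ))
        = Dd * n1 * ((m + l + 2 : ℕ) : ℝ) + s * (((n : ℝ) + 1) * ((m + l + 2 : ℕ) : ℝ)) := by
      rw [hq]; field_simp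
    rw [e4]
    have := mul_le_mul_of_nonneg_left e2 hs
    linarith
  have hb0 : 0 ≤ SN N (blk Dd n1) + s * ((N : ℝ) + 1) := by
    have := SN_nonneg (blk_nn hDd n1) N
    positivity
  have h6 : (SN N (blk Dd n1) + s * ((N : ℝ) + 1)) ^ m
      ≤ ((n : ℝ) + 1) ^ m * (q ^ m * ((m + l + 2 : ℕ) : ℝ) ^ m) := by
    refine (pow_le_pow_left₀ hb0 h5 m).trans (le_of_eq ?_)
    rw [mul_pow, mul_pow]
  -- W (n+1) * ρ^(m+l) ≤ W N
  have h7 : W (n + 1) * ρ ^ (m + l) ≤ W N := by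
    have := hW.grow (n + 1) (m + l)
    have e : n + 1 + (m + l) = N := by omega
    rwa [e] at this
  have hcN : 0 ≤ PowerSeries.coeff N (Pm ^ (m + 1)) := hPm.pow _ _
  have h8 : W (n + 1) * PowerSeries.coeff N (Pm ^ (m + 1))
      ≤ (ρ ^ (m + l))⁻¹ * ((Dd * n1 * 2 ^ n1) ^ (m + 1) * (1 / 2) ^ N
        + ((m : ℝ) + 1) * s * (((n : ℝ) + 1) ^ m * (q ^ m * ((m + l + 2 : ℕ) : ℝ) ^ m))) := by
    have hρp : 0 < ρ ^ (m + l) := by positivity
    rw [inv_mul_eq_div, le_div_iff₀ hρp]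
    calc W (n + 1) * PowerSeries.coeff N (Pm ^ (m + 1)) * ρ ^ (m + l)
        = PowerSeries.coeff N (Pm ^ (m + 1)) * (W (n + 1) * ρ ^ (m + l)) := by ring
      _ ≤ PowerSeries.coeff N (Pm ^ (m + 1)) * W N := mul_le_mul_of_nonneg_left h7 hcN
      _ ≤ PowerSeries.coeff N (A ^ (m + 1)) := h1
      _ ≤ _ := h2
      _ ≤ _ := by
        have hm1 : 0 ≤ ((m : ℝ) + 1) * s := by positivity
        exact add_le_add h3 (mul_le_mul_of_nonneg_left h6 hm1)
  have hpre : 0 ≤ mu ^ m / (((m + 1).factorial : ℝ) * ((n : ℝ) + 1) ^ m) := by positivity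
  refine (mul_le_mul_of_nonneg_left h8 hpre).trans ?_
  rw [mul_add, mul_add]
  apply add_le_add
  · -- first part
    have hE : 0 ≤ Dd * n1 * 2 ^ n1 := by positivity
    have e1 : (1 / 2 : ℝ) ^ N ≤ (1 / 2) ^ (n + 1) :=
      pow_le_pow_of_le_one (by norm_num) (by norm_num) (by omega)
    have e2 : (ρ ^ (m + l))⁻¹ ≤ 1 := inv_le_one_of_one_le₀ (one_le_pow₀ hρ.le)
    have e3 : mu ^ m / (((m + 1).factorial : ℝ) * ((n : ℝ) + 1) ^ m) ≤ mu ^ m / (m + 1).factorial := by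
      apply div_le_div_of_nonneg_left (by positivity) (by positivity)
      have : (1 : ℝ) ≤ ((n : ℝ) + 1) ^ m := one_le_pow₀ (by linarith [(Nat.cast_nonneg n : (0 : ℝ) ≤ n)])
      nlinarith [show (0 : ℝ) < ((m + 1).factorial : ℝ) by positivity]
    calc mu ^ m / (((m + 1).factorial : ℝ) * ((n : ℝ) + 1) ^ m) *
          ((ρ ^ (m + l))⁻¹ * ((Dd * n1 * 2 ^ n1) ^ (m + 1) * (1 / 2) ^ N))
        ≤ mu ^ m / (m + 1).factorial * (1 * ((Dd * n1 * 2 ^ n1) ^ (m + 1) * (1 / 2) ^ (n + 1))) := by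
          gcongr
      _ = _ := by ring
  · -- second part
    have e1 := exp_bound hρ m (m + l + 2)
    have e2 : mu ^ m / (((m + 1).factorial : ℝ) * ((n : ℝ) + 1) ^ m) *
          ((ρ ^ (m + l))⁻¹ * (((m : ℝ) + 1) * s * (((n : ℝ) + 1) ^ m *
            (q ^ m * ((m + l + 2 : ℕ) : ℝ) ^ m))))
        = s * (mu * q) ^ m * (ρ ^ (m + l))⁻¹ * (((m + l + 2 : ℕ) : ℝ) ^ m / m.factorial) := by
      rw [Nat.factorial_succ, mul_pow]
      push_cast
      have h3 : ((m.factorial : ℝ)) ≠ 0 := by positivity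
      have h4 : ((m : ℝ) + 1) ≠ 0 := by positivity
      have h5 : ((n : ℝ) + 1) ^ m ≠ 0 := by positivity
      have h6 : ρ ^ (m + l) ≠ 0 := by positivity
      field_simp
    rw [e2]
    calc s * (mu * q) ^ m * (ρ ^ (m + l))⁻¹ * (((m + l + 2 : ℕ) : ℝ) ^ m / m.factorial)
        ≤ s * (mu * q) ^ m * (ρ ^ (m + l))⁻¹ * ((Real.log ρ)⁻¹ ^ m * ρ ^ (m + l + 2)) := by
          gcongr
      _ = s * ρ ^ 2 * (mu * q * (Real.log ρ)⁻¹) ^ m := by
          rw [pow_add ρ (m + l) 2, mul_pow (mu * q)]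
          have h6 : ρ ^ (m + l) ≠ 0 := by positivity
          field_simp

theorem term_bound {ρ : ℝ} (hρ : 1 < ρ) {W : ℕ → ℝ} (hW : Weight ρ W) {P D : PowerSeries ℂ}
    {L : ℝ} (hL : ∀ N, SN N (nn D) ≤ L)
    {Dd s : ℝ} (hDd : 0 ≤ Dd) (hs : 0 ≤ s) {n1 : ℕ}
    (hx : ∀ k, ‖PowerSeries.coeff k P‖ * W k ≤ PowerSeries.coeff k (blk Dd n1) + s)
    {lam : ℝ} (hlam : 0 < lam) (n m K : ℕ) :
    |cc lam m| / ((m : ℝ) + 1) * (W (n + 1) * ∑ k ∈ range K,
      ‖PowerSeries.coeff k (UU D n m)‖ * ‖PowerSeries.coeff (k + 1) (P ^ (m + 1))‖)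
      ≤ L ^ m * (((lam / 4) ^ m * (Dd * n1 * 2 ^ n1) ^ (m + 1) / (m + 1).factorial *
        (1 / 2) ^ (n + 1))
        + s * ρ ^ 2 * (lam / 4 * (Dd * n1 / ((n : ℝ) + 1) + s) * (Real.log ρ)⁻¹) ^ m) := by
  have hPm : NN (nn P) := (maj_nn P).nn
  have hDm : NN (nn D) := (maj_nn D).nn
  set κ : ℝ := ((m.factorial : ℝ) * n.factorial / (n + m).factorial) with hκ
  have hκ0 : 0 ≤ κ := by positivity
  have hW0 := hW.nonneg (n + 1)
  have hmu : 0 ≤ lam / 4 := by positivity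
  -- step 1, 2
  have h1 : ∑ k ∈ range K, ‖PowerSeries.coeff k (UU D n m)‖ * ‖PowerSeries.coeff (k + 1) (P ^ (m + 1))‖
      ≤ κ * ∑ l ∈ range K, PowerSeries.coeff l (nn D ^ m) *
        PowerSeries.coeff (n + m + l + 1) (nn P ^ (m + 1)) := by
    have e1 : ∀ k ∈ range K, ‖PowerSeries.coeff k (UU D n m)‖ *
        ‖PowerSeries.coeff (k + 1) (P ^ (m + 1))‖
        ≤ κ * (PowerSeries.coeff k (PowerSeries.X ^ (n + m) * nn D ^ m) *
          PowerSeries.coeff (k + 1) (nn P ^ (m + 1))) := by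
      intro k _
      rw [← mul_assoc]
      have a1 := UU_coeff_le D n m k
      have a2 := (maj_nn P).pow (m + 1) (k + 1)
      exact mul_le_mul a1 a2 (norm_nonneg _) ((norm_nonneg _).trans a1)
    refine (Finset.sum_le_sum e1).trans ?_
    rw [← Finset.mul_sum]
    apply mul_le_mul_of_nonneg_left _ hκ0
    exact sum_coeff_X_pow_mul_le (n + m) K (hDm.pow m)
      (f := fun k => PowerSeries.coeff (k + 1) (nn P ^ (m + 1))) fun k => hPm.pow _ _
  -- constants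
  have h2 : |cc lam m| / ((m : ℝ) + 1) * κ
      ≤ (lam / 4) ^ m / (((m + 1).factorial : ℝ) * ((n : ℝ) + 1) ^ m) := by
    rw [absCm lam hlam, hκ]
    have e1 : ((n.factorial : ℝ)) * ((n : ℝ) + 1) ^ m ≤ (n + m).factorial := by
      exact_mod_cast Nat.factorial_mul_pow_le_factorial (m := n) (n := m)
    rw [Nat.factorial_succ]
    push_cast
    have h3 : (0 : ℝ) < (m.factorial : ℝ) := by positivity
    have h4 : (0 : ℝ) < ((m : ℝ) + 1) := by positivity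
    have h5 : (0 : ℝ) < ((n : ℝ) + 1) ^ m := by positivity
    have h6 : (0 : ℝ) < ((n + m).factorial : ℝ) := by positivity
    have h7 : (0 : ℝ) ≤ (lam / 4) ^ m := by positivity
    rw [div_mul_div_comm, div_le_div_iff₀ (by positivity) (by positivity)]
    calc (lam / 4) ^ m * ((m.factorial : ℝ) * n.factorial) *
          (((m : ℝ) + 1) * m.factorial * ((n : ℝ) + 1) ^ m)
        = ((lam / 4) ^ m * ((m.factorial : ℝ) ^ 2 * ((m : ℝ) + 1))) *
          ((n.factorial : ℝ) * ((n : ℝ) + 1) ^ m) := by ring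
      _ ≤ ((lam / 4) ^ m * ((m.factorial : ℝ) ^ 2 * ((m : ℝ) + 1))) * (n + m).factorial := by
          gcongr
      _ = _ := by ring
  set bd : ℝ := (((lam / 4) ^ m * (Dd * n1 * 2 ^ n1) ^ (m + 1) / (m + 1).factorial *
        (1 / 2) ^ (n + 1))
        + s * ρ ^ 2 * (lam / 4 * (Dd * n1 / ((n : ℝ) + 1) + s) * (Real.log ρ)⁻¹) ^ m) with hbd
  have hc0 : 0 ≤ |cc lam m| / ((m : ℝ) + 1) := by positivity
  have h3 : ∀ l ∈ range K, (lam / 4) ^ m / (((m + 1).factorial : ℝ) * ((n : ℝ) + 1) ^ m) *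
      (W (n + 1) * (PowerSeries.coeff l (nn D ^ m) *
        PowerSeries.coeff (n + m + l + 1) (nn P ^ (m + 1))))
      ≤ PowerSeries.coeff l (nn D ^ m) * bd := by
    intro l _
    have e1 := single_bound hρ hW hPm hDd hs
      (fun k => by rw [coeff_nn]; exact hx k) n m l hmu
    have e2 := mul_le_mul_of_nonneg_left e1 (hDm.pow m l)
    calc _ = PowerSeries.coeff l (nn D ^ m) *
          ((lam / 4) ^ m / (((m + 1).factorial : ℝ) * ((n : ℝ) + 1) ^ m) *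
      (W (n + 1) * PowerSeries.coeff (n + m + l + 1) (nn P ^ (m + 1)))) := by ring
      _ ≤ _ := e2
  have hsum0 : 0 ≤ ∑ l ∈ range K, PowerSeries.coeff l (nn D ^ m) *
        PowerSeries.coeff (n + m + l + 1) (nn P ^ (m + 1)) :=
    Finset.sum_nonneg fun l _ => mul_nonneg (hDm.pow _ _) (hPm.pow _ _)
  have hbd0 : 0 ≤ bd := by
    have hlog : 0 < Real.log ρ := Real.log_pos hρ
    have : 0 ≤ Dd * n1 / ((n : ℝ) + 1) + s := by positivity
    rw [hbd]; positivity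
  calc |cc lam m| / ((m : ℝ) + 1) * (W (n + 1) * ∑ k ∈ range K,
      ‖PowerSeries.coeff k (UU D n m)‖ * ‖PowerSeries.coeff (k + 1) (P ^ (m + 1))‖)
      ≤ |cc lam m| / ((m : ℝ) + 1) * (W (n + 1) * (κ * ∑ l ∈ range K,
        PowerSeries.coeff l (nn D ^ m) *
        PowerSeries.coeff (n + m + l + 1) (nn P ^ (m + 1)))) := by gcongr
    _ = (|cc lam m| / ((m : ℝ) + 1) * κ) * (W (n + 1) * ∑ l ∈ range K,
        PowerSeries.coeff l (nn D ^ m) *
        PowerSeries.coeff (n + m + l + 1) (nn P ^ (m + 1))) := by ring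
    _ ≤ (lam / 4) ^ m / (((m + 1).factorial : ℝ) * ((n : ℝ) + 1) ^ m) * (W (n + 1) *
        ∑ l ∈ range K, PowerSeries.coeff l (nn D ^ m) *
        PowerSeries.coeff (n + m + l + 1) (nn P ^ (m + 1))) := by
        apply mul_le_mul_of_nonneg_right h2
        positivity
    _ = ∑ l ∈ range K, (lam / 4) ^ m / (((m + 1).factorial : ℝ) * ((n : ℝ) + 1) ^ m) *
      (W (n + 1) * (PowerSeries.coeff l (nn D ^ m) *
        PowerSeries.coeff (n + m + l + 1) (nn P ^ (m + 1)))) := by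
        rw [Finset.mul_sum, Finset.mul_sum]
    _ ≤ ∑ l ∈ range K, PowerSeries.coeff l (nn D ^ m) * bd := Finset.sum_le_sum h3
    _ = (∑ l ∈ range K, PowerSeries.coeff l (nn D ^ m)) * bd := by rw [Finset.sum_mul]
    _ ≤ L ^ m * bd := by
        apply mul_le_mul_of_nonneg_right _ hbd0
        calc ∑ l ∈ range K, PowerSeries.coeff l (nn D ^ m) ≤ SN K (nn D ^ m) :=
              Finset.sum_le_sum_of_subset_of_nonneg (Finset.range_mono (by omega))
                fun l _ _ => hDm.pow _ _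
          _ ≤ SN K (nn D) ^ m := SN_pow_le hDm K m
          _ ≤ L ^ m := pow_le_pow_left₀ (SN_nonneg hDm K) (hL K) m

end Pool.Agent.MP_83fd13_an
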