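import Mathlib
import Pool.Agent.MP_83fd13_an.Key2

namespace Pool.Agent.MP_83fd13_an

open Filter Finset
open scoped Topology

theorem weight_exp {ρ : ℝ} (hρ : 1 < ρ) {δ : ℝ} (hδ : 0 ≤ δ) (X : ℕ) :
    Weight ρ (fun k => ρ ^ k * Real.exp (δ * ((min k X : ℕ) : ℝ))) := by
  have hρ0 : 0 < ρ := by linarith
  refine ⟨fun i => by positivity, by simp, fun i j => ?_, fun i j => ?_⟩
  · have h1 : ((min (i + j) X : ℕ) : ℝ) ≤ ((min i X : ℕ) : ℝ) + ((min j X : ℕ) : ℝ) := by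
      exact_mod_cast (by omega : min (i + j) X ≤ min i X + min j X)
    have h2 : Real.exp (δ * ((min (i + j) X : ℕ) : ℝ))
        ≤ Real.exp (δ * ((min i X : ℕ) : ℝ)) * Real.exp (δ * ((min j X : ℕ) : ℝ)) := by
      rw [← Real.exp_add, ← mul_add]
      exact Real.exp_le_exp.2 (mul_le_mul_of_nonneg_left h1 hδ)
    calc ρ ^ (i + j) * Real.exp (δ * ((min (i + j) X : ℕ) : ℝ))
        ≤ ρ ^ (i + j) * (Real.exp (δ * ((min i X : ℕ) : ℝ)) * Real.exp (δ * ((min j X : ℕ) : ℝ))) := by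
          gcongr
      _ = _ := by rw [pow_add]; ring
  · have h1 : ((min i X : ℕ) : ℝ) ≤ ((min (i + j) X : ℕ) : ℝ) := by
      exact_mod_cast (by omega : min i X ≤ min (i + j) X)
    have h2 : Real.exp (δ * ((min i X : ℕ) : ℝ)) ≤ Real.exp (δ * ((min (i + j) X : ℕ) : ℝ)) :=
      Real.exp_le_exp.2 (mul_le_mul_of_nonneg_left h1 hδ)
    calc ρ ^ i * Real.exp (δ * ((min i X : ℕ) : ℝ)) * ρ ^ j
        = ρ ^ (i + j) * Real.exp (δ * ((min i X : ℕ) : ℝ)) := by rw [pow_add]; ring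
      _ ≤ _ := by gcongr

/-- The bootstrap: an a priori inequality of the type of `key_ineq` upgrades `α k * ρ ^ k → 0`
to exponential decay. -/
theorem bootstrap {α : ℕ → ℝ} (hα : ∀ k, 0 ≤ α k) {ρ : ℝ} (hρ : 1 < ρ) {L mu : ℝ} (hL : 0 ≤ L)
    (hmu : 0 ≤ mu)
    (key : ∀ W : ℕ → ℝ, Weight ρ W → ∀ Dd s : ℝ, 0 ≤ Dd → 0 ≤ s → ∀ n1 : ℕ,
      (∀ k, α k * W k ≤ PowerSeries.coeff k (blk Dd n1) + s) → ∀ n : ℕ, ∀ Q : ℝ, Q < 1 →
      L * (mu * (Dd * n1 / ((n : ℝ) + 1) + s) * (Real.log ρ)⁻¹) ≤ Q →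
      α (n + 1) * W (n + 1) ≤ (Dd * n1 * 2 ^ n1) * Real.exp (L * mu * (Dd * n1 * 2 ^ n1)) *
        (1 / 2) ^ (n + 1) + s * ρ ^ 2 * (Q / (1 - Q)))
    (hlim : Tendsto (fun k => α k * ρ ^ k) atTop (𝓝 0)) :
    ∃ δ : ℝ, 0 < δ ∧ ∃ C : ℝ, ∀ k, α k * ρ ^ k * Real.exp (δ * k) ≤ C := by
  have hρ0 : 0 < ρ := by linarith
  have hlog : 0 < Real.log ρ := Real.log_pos hρ
  have hρ2 : 1 < ρ ^ 2 := one_lt_pow₀ hρ two_ne_zero
  set κ : ℝ := L * mu * (Real.log ρ)⁻¹ with hκ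
  have hκ0 : 0 ≤ κ := by positivity
  set ε : ℝ := 1 / (32 * ρ ^ 2 * (κ + 1)) with hε
  have hε0 : 0 < ε := by positivity
  have hκε : κ * (2 * ε) ≤ 1 / (16 * ρ ^ 2) := by
    have h1 : κ * (2 * ε) = (κ / (κ + 1)) * (1 / (16 * ρ ^ 2)) := by
      rw [hε]; field_simp; ring
    rw [h1]
    have h2 : κ / (κ + 1) ≤ 1 := (div_le_one (by linarith)).2 (by linarith)
    exact mul_le_of_le_one_left (by positivity) h2
  -- bound B
  obtain ⟨B, hB⟩ : ∃ B : ℝ, ∀ k, α k * ρ ^ k ≤ B := by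
    obtain ⟨B, hB⟩ := hlim.bddAbove_range
    exact ⟨B, fun k => hB ⟨k, rfl⟩⟩
  have hB0 : 0 ≤ B := (mul_nonneg (hα 0) (by positivity)).trans (hB 0)
  obtain ⟨n1, hn1⟩ : ∃ n1 : ℕ, ∀ k, n1 ≤ k → α k * ρ ^ k ≤ ε := by
    have := hlim.eventually_le_const hε0
    exact eventually_atTop.1 this
  set Dd : ℝ := 2 * B with hDd
  have hDd0 : 0 ≤ Dd := by positivity
  set E : ℝ := Dd * n1 * 2 ^ n1 with hE
  have hE0 : 0 ≤ E := by positivity
  set F : ℝ := E * Real.exp (L * mu * E) with hF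
  have hF0 : 0 ≤ F := by positivity
  obtain ⟨n2, hn2a, hn2b, hn12⟩ : ∃ n2 : ℕ, (∀ n, n2 ≤ n → κ * (Dd * n1 / ((n : ℝ) + 1))
      ≤ 1 / (16 * ρ ^ 2)) ∧ (∀ n, n2 ≤ n → F * (1 / 2) ^ (n + 1) ≤ ε / 2) ∧ n1 ≤ n2 := by
    have h1 : Tendsto (fun n : ℕ => κ * (Dd * n1 / ((n : ℝ) + 1))) atTop (𝓝 0) := by
      have h2 : Tendsto (fun n : ℕ => Dd * n1 / ((n : ℝ) + 1)) atTop (𝓝 0) :=
        tendsto_const_nhds.div_atTop (tendsto_natCast_atTop_atTop.atTop_add tendsto_const_nhds)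
      simpa using h2.const_mul κ
    have h3 : Tendsto (fun n : ℕ => F * (1 / 2 : ℝ) ^ (n + 1)) atTop (𝓝 0) := by
      have h4 : Tendsto (fun n : ℕ => (1 / 2 : ℝ) ^ (n + 1)) atTop (𝓝 0) :=
        (tendsto_pow_atTop_nhds_zero_of_lt_one (by norm_num) (by norm_num)).comp
          (tendsto_add_atTop_nat 1)
      simpa using h4.const_mul F
    obtain ⟨a1, ha1⟩ := eventually_atTop.1 (h1.eventually_le_const
      (show (0 : ℝ) < 1 / (16 * ρ ^ 2) by positivity))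
    obtain ⟨a2, ha2⟩ := eventually_atTop.1 (h3.eventually_le_const (half_pos hε0))
    exact ⟨max a1 (max a2 n1), fun n hn => ha1 n (by omega), fun n hn => ha2 n (by omega),
      by omega⟩
  set δ0 : ℝ := Real.log (3 / 2) / ((n2 : ℝ) + 1) with hδ0
  have hl32 : 0 < Real.log (3 / 2) := Real.log_pos (by norm_num)
  have hδ00 : 0 < δ0 := by positivity
  have hexp32 : ∀ δ : ℝ, 0 ≤ δ → δ ≤ δ0 → ∀ k X : ℕ, k ≤ n2 →
      Real.exp (δ * ((min k X : ℕ) : ℝ)) ≤ 3 / 2 := by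
    intro δ hδ hδ' k X hk
    have h1 : ((min k X : ℕ) : ℝ) ≤ (n2 : ℝ) + 1 := by
      have : ((min k X : ℕ) : ℝ) ≤ (n2 : ℝ) := by exact_mod_cast (by omega : min k X ≤ n2)
      linarith
    have h2 : δ * ((min k X : ℕ) : ℝ) ≤ Real.log (3 / 2) := by
      calc δ * ((min k X : ℕ) : ℝ) ≤ δ0 * ((n2 : ℝ) + 1) := by gcongr
        _ = Real.log (3 / 2) := by rw [hδ0]; field_simp
    calc Real.exp (δ * ((min k X : ℕ) : ℝ)) ≤ Real.exp (Real.log (3 / 2)) := Real.exp_le_exp.2 h2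
      _ = 3 / 2 := Real.exp_log (by norm_num)
  -- improvement step
  have improve : ∀ δ : ℝ, 0 ≤ δ → δ ≤ δ0 → ∀ X : ℕ,
      (∀ k, n1 ≤ k → α k * (ρ ^ k * Real.exp (δ * ((min k X : ℕ) : ℝ))) ≤ 2 * ε) →
      (∀ k, n1 ≤ k → α k * (ρ ^ k * Real.exp (δ * ((min k X : ℕ) : ℝ))) ≤ 3 / 2 * ε) := by
    intro δ hδ hδ' X hyp k hk
    have hW := weight_exp hρ hδ X
    by_cases hk2 : k ≤ n2
    · have h1 := hn1 k hk
      have h2 := hexp32 δ hδ hδ' k X hk2
      have h3 : 0 ≤ α k * ρ ^ k := mul_nonneg (hα k) (by positivity)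
      calc α k * (ρ ^ k * Real.exp (δ * ((min k X : ℕ) : ℝ)))
          = (α k * ρ ^ k) * Real.exp (δ * ((min k X : ℕ) : ℝ)) := by ring
        _ ≤ ε * (3 / 2) := mul_le_mul h1 h2 (Real.exp_pos _).le hε0.le
        _ = 3 / 2 * ε := by ring
    · push Not at hk2
      obtain ⟨n, rfl⟩ : ∃ n, k = n + 1 := ⟨k - 1, by omega⟩
      have hn : n2 ≤ n := by omega
      have hx : ∀ k, α k * (ρ ^ k * Real.exp (δ * ((min k X : ℕ) : ℝ)))
          ≤ PowerSeries.coeff k (blk Dd n1) + 2 * ε := by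
        intro j
        rw [blk, PowerSeries.coeff_mk]
        split_ifs with hj
        · have h2 := hexp32 δ hδ hδ' j X (by omega)
          have h3 : 0 ≤ α j * ρ ^ j := mul_nonneg (hα j) (by positivity)
          calc α j * (ρ ^ j * Real.exp (δ * ((min j X : ℕ) : ℝ)))
              = (α j * ρ ^ j) * Real.exp (δ * ((min j X : ℕ) : ℝ)) := by ring
            _ ≤ B * (3 / 2) := mul_le_mul (hB j) h2 (Real.exp_pos _).le hB0
            _ ≤ Dd + 2 * ε := by rw [hDd]; linarith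
        · rw [zero_add]
          exact hyp j (by omega)
      have hQle : L * (mu * (Dd * n1 / ((n : ℝ) + 1) + 2 * ε) * (Real.log ρ)⁻¹)
          ≤ 1 / (8 * ρ ^ 2) := by
        have e1 : L * (mu * (Dd * n1 / ((n : ℝ) + 1) + 2 * ε) * (Real.log ρ)⁻¹)
            = κ * (Dd * n1 / ((n : ℝ) + 1)) + κ * (2 * ε) := by rw [hκ]; ring
        rw [e1]
        have e2 := hn2a n hn
        have e3 : 1 / (8 * ρ ^ 2) = 1 / (16 * ρ ^ 2) + 1 / (16 * ρ ^ 2) := by
          field_simp; norm_num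
        rw [e3]
        linarith
      have hQ1 : 1 / (8 * ρ ^ 2) < 1 := by
        rw [div_lt_one (by positivity)]; linarith
      have h1 := key _ hW Dd (2 * ε) hDd0 (by positivity) n1 hx n (1 / (8 * ρ ^ 2)) hQ1 hQle
      have h2 := hn2b n hn
      have h3 : 2 * ε * ρ ^ 2 * (1 / (8 * ρ ^ 2) / (1 - 1 / (8 * ρ ^ 2))) ≤ ε := by
        have e1 : 1 / (8 * ρ ^ 2) / (1 - 1 / (8 * ρ ^ 2)) = 1 / (8 * ρ ^ 2 - 1) := by
          have : 8 * ρ ^ 2 - 1 ≠ 0 := by nlinarith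
          have h5 : (1 : ℝ) - 1 / (8 * ρ ^ 2) ≠ 0 := by linarith
          field_simp
        rw [e1, mul_one_div, div_le_iff₀ (by nlinarith)]
        nlinarith
      calc _ ≤ _ := h1
        _ ≤ ε / 2 + ε := add_le_add h2 h3
        _ = 3 / 2 * ε := by ring
  -- conclusion
  have main : ∀ X : ℕ, ∀ k, n1 ≤ k →
      α k * (ρ ^ k * Real.exp (δ0 * ((min k X : ℕ) : ℝ))) ≤ 3 / 2 * ε := by
    intro X
    obtain ⟨J, hJ⟩ := exists_nat_gt (δ0 * X / Real.log (4 / 3))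
    have hl43 : 0 < Real.log (4 / 3) := Real.log_pos (by norm_num)
    have hJ0 : (0 : ℝ) < J := lt_of_le_of_lt (by positivity) hJ
    set η : ℝ := δ0 / J with hη
    have hη0 : 0 ≤ η := by positivity
    have hηX : Real.exp (η * X) ≤ 4 / 3 := by
      have : η * X ≤ Real.log (4 / 3) := by
        rw [div_lt_iff₀ hl43] at hJ
        rw [hη, div_mul_eq_mul_div, div_le_iff₀ hJ0]
        linarith
      calc Real.exp (η * X) ≤ Real.exp (Real.log (4 / 3)) := Real.exp_le_exp.2 this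
        _ = 4 / 3 := Real.exp_log (by norm_num)
    have step : ∀ j : ℕ, j ≤ J → ∀ k, n1 ≤ k →
        α k * (ρ ^ k * Real.exp (j * η * ((min k X : ℕ) : ℝ))) ≤ 3 / 2 * ε := by
      intro j
      induction j with
      | zero =>
        intro _ k hk
        simp only [Nat.cast_zero, zero_mul, Real.exp_zero, mul_one]
        have := hn1 k hk
        linarith
      | succ j ih =>
        intro hj k hk
        have hle : ((j + 1 : ℕ) : ℝ) * η ≤ δ0 := by
          have h1 : ((j + 1 : ℕ) : ℝ) ≤ J := by exact_mod_cast hj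
          calc ((j + 1 : ℕ) : ℝ) * η ≤ J * η := by gcongr
            _ = δ0 := by rw [hη]; field_simp
        refine improve _ (by positivity) hle X ?_ k hk
        intro k hk
        have h1 := ih (by omega) k hk
        have h2 : Real.exp (((j + 1 : ℕ) : ℝ) * η * ((min k X : ℕ) : ℝ))
            ≤ Real.exp (j * η * ((min k X : ℕ) : ℝ)) * (4 / 3) := by
          have e1 : ((j + 1 : ℕ) : ℝ) * η * ((min k X : ℕ) : ℝ)
              = j * η * ((min k X : ℕ) : ℝ) + η * ((min k X : ℕ) : ℝ) := by push_cast; ring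
          rw [e1, Real.exp_add]
          apply mul_le_mul_of_nonneg_left _ (Real.exp_pos _).le
          refine le_trans (Real.exp_le_exp.2 ?_) hηX
          apply mul_le_mul_of_nonneg_left _ hη0
          exact_mod_cast Nat.min_le_right k X
        have h3 : 0 ≤ α k * ρ ^ k := mul_nonneg (hα k) (by positivity)
        calc α k * (ρ ^ k * Real.exp (((j + 1 : ℕ) : ℝ) * η * ((min k X : ℕ) : ℝ)))
            = (α k * ρ ^ k) * Real.exp (((j + 1 : ℕ) : ℝ) * η * ((min k X : ℕ) : ℝ)) := by ring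
          _ ≤ (α k * ρ ^ k) * (Real.exp (j * η * ((min k X : ℕ) : ℝ)) * (4 / 3)) := by gcongr
          _ = (α k * (ρ ^ k * Real.exp (j * η * ((min k X : ℕ) : ℝ)))) * (4 / 3) := by ring
          _ ≤ (3 / 2 * ε) * (4 / 3) := by gcongr
          _ = 2 * ε := by ring
    have h1 := step J le_rfl
    have h2 : (J : ℝ) * η = δ0 := by rw [hη]; field_simp
    rw [h2] at h1
    exact h1
  refine ⟨δ0, hδ00, max (B * Real.exp (δ0 * n1)) (3 / 2 * ε), fun k => ?_⟩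
  by_cases hk : n1 ≤ k
  · refine le_trans ?_ (le_max_right _ _)
    have := main k k hk
    rw [min_self] at this
    calc _ = α k * (ρ ^ k * Real.exp (δ0 * k)) := by ring
      _ ≤ _ := this
  · push Not at hk
    refine le_trans ?_ (le_max_left _ _)
    have h3 : 0 ≤ α k * ρ ^ k := mul_nonneg (hα k) (by positivity)
    apply mul_le_mul (hB k) _ (Real.exp_pos _).le hB0
    apply Real.exp_le_exp.2
    apply mul_le_mul_of_nonneg_left _ hδ00.le
    exact_mod_cast hk.le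

end Pool.Agent.MP_83fd13_an
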