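import Mathlib

namespace Pool.Agent.MP_83fd13_an

open Filter Set
open scoped Topology

/-- A convex function on a half line growing faster than every linear function has arbitrarily
large points around which it is nearly linear on the scale `L / slope`. -/
theorem good_radius {m : ℝ → ℝ} {x0 : ℝ} (hm : ConvexOn ℝ (Ioi x0) m)
    (hsup : ∀ k : ℕ, ∃ C : ℝ, ∀ x, x0 < x → k * x - C ≤ m x)
    {L : ℝ} (hL : 0 < L) {ε : ℝ} (hε : 0 < ε) (A : ℝ) :
    ∃ x a : ℝ, A < x ∧ A < a ∧ 0 < a ∧ x0 < x - L / a ∧
      (∀ h : ℝ, |h| ≤ L / a → m (x + h) ≤ m x + a * h + ε) ∧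
      10 * Real.log a + 2 * x + A ≤ m x := by
  have hcont : ContinuousOn m (Ioi x0) := hm.continuousOn isOpen_Ioi
  set b : ℝ := max (x0 + 1) (A + 1) with hb
  have hbx0 : x0 < b := lt_of_lt_of_le (by linarith) (le_max_left _ _)
  have hbA : A < b := lt_of_lt_of_le (by linarith) (le_max_right _ _)
  obtain ⟨k0, hk0⟩ : ∃ k0 : ℕ, m b < k0 * L := by
    obtain ⟨n, hn⟩ := exists_nat_gt (m b / L)
    exact ⟨n, by rwa [div_lt_iff₀ hL] at hn⟩
  obtain ⟨C1, hC1⟩ := hsup 1
  -- the level points
  have hex : ∀ k : ℕ, ∃ x, b < x ∧ m x = (k0 + k : ℕ) * L := by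
    intro k
    set y : ℝ := max b ((k0 + k : ℕ) * L + C1) with hy
    have hby : b ≤ y := le_max_left _ _
    have hmy : (k0 + k : ℕ) * L ≤ m y := by
      have h1 := hC1 y (hbx0.trans_le hby)
      have h2 : (k0 + k : ℕ) * L + C1 ≤ y := le_max_right _ _
      simp only [Nat.cast_one, one_mul] at h1
      linarith
    have hmb : m b < (k0 + k : ℕ) * L := by
      refine hk0.trans_le ?_
      gcongr
      exact_mod_cast Nat.le_add_right k0 k
    have hc : ContinuousOn m (Icc b y) := hcont.mono fun z hz => hbx0.trans_le hz.1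
    have := intermediate_value_Icc hby hc ⟨hmb.le, hmy⟩
    obtain ⟨x, hx, hmx⟩ := this
    refine ⟨x, lt_of_le_of_ne hx.1 ?_, hmx⟩
    rintro rfl
    rw [hmx] at hmb
    exact lt_irrefl _ hmb
  choose X hXb hXm using hex
  have hX0 : ∀ k, X k ∈ Ioi x0 := fun k => hbx0.trans (hXb k)
  have hXlt : ∀ k, X k < X (k + 1) := by
    intro k
    by_contra hcon
    push Not at hcon
    have h1 : m (X (k + 1)) ≤ max (m b) (m (X k)) :=
      hm.le_max_of_mem_Icc (mem_Ioi.2 hbx0) (hX0 k) ⟨(hXb _).le, hcon⟩
    have h2 : m b ≤ m (X k) := by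
      rw [hXm]
      refine hk0.le.trans ?_
      gcongr
      exact_mod_cast Nat.le_add_right k0 k
    rw [max_eq_right h2, hXm, hXm] at h1
    have e : ((k0 + (k + 1) : ℕ) : ℝ) * L = (k0 + k : ℕ) * L + L := by push_cast; ring
    linarith
  set l : ℕ → ℝ := fun k => X (k + 1) - X k with hl
  have hlpos : ∀ k, 0 < l k := fun k => sub_pos.2 (hXlt k)
  have hlanti1 : ∀ k, l (k + 1) ≤ l k := by
    intro k
    have h1 := hm.slope_mono_adjacent (hX0 k) (hX0 (k + 2)) (hXlt k) (hXlt (k + 1))
    have e1 : m (X (k + 1)) - m (X k) = L := by rw [hXm, hXm]; push_cast; ring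
    have e2 : m (X (k + 1 + 1)) - m (X (k + 1)) = L := by rw [hXm, hXm]; push_cast; ring
    rw [e1, e2] at h1
    exact (div_le_div_iff_of_pos_left hL (hlpos k) (hlpos (k + 1))).1 h1
  have hlanti : Antitone l := antitone_nat_of_succ_le hlanti1
  have hsum : ∀ K n, X (K + n) = X K + ∑ j ∈ Finset.range n, l (K + j) := by
    intro K n
    induction n with
    | zero => simp
    | succ n ih =>
      have e : X (K + (n + 1)) = X (K + n) + l (K + n) := by simp only [hl]; ring_nf
      rw [Finset.sum_range_succ, e, ih]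
      ring
  -- delta
  obtain ⟨δ, hδ0, hδ1, hδε⟩ : ∃ δ : ℝ, 0 < δ ∧ δ ≤ 1 / 2 ∧ 2 * δ * L ≤ ε := by
    refine ⟨min (1 / 2) (ε / (2 * L)), by positivity, min_le_left _ _, ?_⟩
    have : min (1 / 2) (ε / (2 * L)) ≤ ε / (2 * L) := min_le_right _ _
    calc 2 * min (1 / 2) (ε / (2 * L)) * L ≤ 2 * (ε / (2 * L)) * L := by gcongr
      _ = ε := by field_simp
  -- good indices
  have hgood : ∀ K, ∃ k, K ≤ k ∧ (1 - δ) * l k ≤ l (k + 2) ∧ Real.exp (-(k * L / 40)) ≤ l k := by
    intro K
    by_contra hcon
    push Not at hcon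
    set γ : ℝ := max (Real.sqrt (1 - δ)) (Real.exp (-(L / 40))) with hγ
    have hγ0 : 0 < γ := lt_of_lt_of_le (Real.exp_pos _) (le_max_right _ _)
    have hγ1 : γ < 1 := by
      apply max_lt
      · rw [Real.sqrt_lt' one_pos]; linarith
      · rw [Real.exp_lt_one_iff]; linarith
    have hγsq : 1 - δ ≤ γ ^ 2 := by
      have : Real.sqrt (1 - δ) ^ 2 = 1 - δ := Real.sq_sqrt (by linarith)
      rw [← this]
      exact pow_le_pow_left₀ (Real.sqrt_nonneg _) (le_max_left _ _) 2
    have hγe : Real.exp (-(L / 40)) ≤ γ := le_max_right _ _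
    set C : ℝ := max (l K / γ) (1 / γ ^ 2) with hC
    have hC0 : 0 < C := lt_of_lt_of_le (by have := hlpos K; positivity) (le_max_left _ _)
    have hbound : ∀ j, l (K + j) ≤ C * γ ^ j := by
      have hCl : l K ≤ C * γ := by
        have : l K / γ ≤ C := le_max_left _ _
        rwa [div_le_iff₀ hγ0] at this
      have hC2 : 1 ≤ C * γ ^ 2 := by
        have : 1 / γ ^ 2 ≤ C := le_max_right _ _
        rwa [div_le_iff₀ (by positivity)] at this
      intro j
      induction j using Nat.twoStepInduction with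
      | zero =>
        simp only [add_zero, pow_zero, mul_one]
        exact hCl.trans (mul_le_of_le_one_right hC0.le hγ1.le)
      | one =>
        rw [pow_one]
        exact (hlanti1 K).trans hCl
      | more j ih1 _ =>
        by_cases hcase : (1 - δ) * l (K + j) ≤ l (K + j + 2)
        · have h1 := hcon (K + j) (by omega) hcase
          have h2 : l (K + (j + 2)) ≤ l (K + j) := hlanti (by omega)
          have h3 : Real.exp (-(((K + j : ℕ) : ℝ) * L / 40)) ≤ γ ^ j := by
            have h4 : Real.exp (-(((K + j : ℕ) : ℝ) * L / 40)) ≤ Real.exp (-(L / 40)) ^ j := by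
              rw [← Real.exp_nat_mul, Real.exp_le_exp]
              have e : ((K + j : ℕ) : ℝ) * L / 40 = j * (L / 40) + K * L / 40 := by
                push_cast; ring
              have e2 : 0 ≤ (K : ℝ) * L / 40 := by positivity
              rw [e]; linarith
            exact h4.trans (pow_le_pow_left₀ (Real.exp_pos _).le hγe j)
          calc l (K + (j + 2)) ≤ γ ^ j := by linarith
            _ = 1 * γ ^ j := by ring
            _ ≤ (C * γ ^ 2) * γ ^ j := by gcongr
            _ = C * γ ^ (j + 2) := by ring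
        · push Not at hcase
          have h1 : l (K + (j + 2)) < (1 - δ) * l (K + j) := hcase
          have h2 := hlpos (K + j)
          calc l (K + (j + 2)) ≤ (1 - δ) * l (K + j) := h1.le
            _ ≤ γ ^ 2 * (C * γ ^ j) := by gcongr
            _ = C * γ ^ (j + 2) := by ring
    set B : ℝ := X K + C / (1 - γ) with hB
    have hXB : ∀ n, X (K + n) ≤ B := by
      intro n
      rw [hsum K n, hB]
      have h1 : ∑ j ∈ Finset.range n, l (K + j) ≤ ∑ j ∈ Finset.range n, C * γ ^ j :=
        Finset.sum_le_sum fun j _ => hbound j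
      have h2 : ∑ j ∈ Finset.range n, C * γ ^ j ≤ C / (1 - γ) := by
        rw [← Finset.mul_sum, div_eq_mul_inv]
        apply mul_le_mul_of_nonneg_left _ hC0.le
        rw [← tsum_geometric_of_lt_one hγ0.le hγ1]
        exact (summable_geometric_of_lt_one hγ0.le hγ1).sum_le_tsum _ (fun i _ => by positivity)
      linarith
    have hBx : B ∈ Ioi x0 := lt_of_lt_of_le (hX0 K) (by simpa using hXB 0)
    obtain ⟨n, hn⟩ := exists_nat_gt (max (m b) (m B) / L)
    have h1 : m (X (K + n)) ≤ max (m b) (m B) :=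
      hm.le_max_of_mem_Icc (mem_Ioi.2 hbx0) hBx ⟨(hXb _).le, hXB n⟩
    rw [hXm, div_lt_iff₀ hL] at *
    have h2 : (n : ℝ) * L ≤ ((k0 + (K + n) : ℕ) : ℝ) * L := by
      gcongr
      omega
    linarith
  -- smallness of the gaps
  obtain ⟨K', hK'⟩ : ∃ K' : ℕ, 2 * (|A| + 1) < K' := exists_nat_gt _
  have hK'0 : (0:ℝ) < K' := lt_trans (by positivity) hK'
  obtain ⟨C', hC'⟩ := hsup K'
  obtain ⟨C8, hC8⟩ := hsup 8
  have hsmall : ∀ᶠ k : ℕ in atTop, l k ≤ 2 * L / K' := by
    obtain ⟨n1, hn1⟩ := exists_nat_gt ((k0 * L + C' - K' * X 0) / L)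
    filter_upwards [eventually_ge_atTop (max n1 1)] with k hk
    have hk1 : (1:ℝ) ≤ k := by exact_mod_cast (le_max_right _ _).trans hk
    have hkn : (n1:ℝ) ≤ k := by exact_mod_cast (le_max_left _ _).trans hk
    have h1 := hC' (X k) (hX0 k)
    rw [hXm] at h1
    have h2 : (k:ℝ) * l k ≤ X k - X 0 := by
      have h3 := hsum 0 k
      simp only [zero_add] at h3
      rw [h3, add_sub_cancel_left]
      calc (k:ℝ) * l k = ∑ j ∈ Finset.range k, l k := by simp
        _ ≤ ∑ j ∈ Finset.range k, l j := Finset.sum_le_sum fun j hj =>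
          hlanti (Finset.mem_range.1 hj).le
    rw [div_lt_iff₀ hL] at hn1
    have h4 : (K':ℝ) * (k * l k) ≤ 2 * L * k := by
      calc (K':ℝ) * (k * l k) ≤ K' * (X k - X 0) := by gcongr
        _ ≤ (k0 + k : ℕ) * L + C' - K' * X 0 := by linarith
        _ = L * k + (k0 * L + C' - K' * X 0) := by push_cast; ring
        _ ≤ L * k + n1 * L := by linarith
        _ ≤ L * k + k * L := by gcongr
        _ = 2 * L * k := by ring
    rw [le_div_iff₀ hK'0]
    have hk0' : (0:ℝ) < k := by linarith
    refine le_of_mul_le_mul_right ?_ hk0'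
    calc l k * K' * k = K' * (k * l k) := by ring
      _ ≤ 2 * L * k := h4
  have hlast : ∀ᶠ k : ℕ in atTop, 10 * Real.log L + k * L / 4 + (((k0 + (k + 1) : ℕ)) * L + C8) / 4
      + A ≤ ((k0 + (k + 1) : ℕ) : ℝ) * L := by
    obtain ⟨n1, hn1⟩ := exists_nat_gt ((2 * (10 * Real.log L + C8 / 4 + |A|)) / L)
    filter_upwards [eventually_ge_atTop n1] with k hk
    have hkn : (n1:ℝ) ≤ k := by exact_mod_cast hk
    rw [div_lt_iff₀ hL] at hn1
    have h0 : 0 ≤ (k0 : ℝ) * L := by positivity
    have h1 : (n1 : ℝ) * L ≤ k * L := by gcongr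
    have h2 : 0 ≤ (k : ℝ) * L := by positivity
    have e : ((k0 + (k + 1) : ℕ) : ℝ) * L = k0 * L + k * L + L := by push_cast; ring
    rw [e]
    have := le_abs_self A
    linarith
  obtain ⟨K, hK⟩ := (hsmall.and hlast).exists_forall_of_atTop
  obtain ⟨k, hKk, hk2, hkexp⟩ := hgood K
  obtain ⟨hks, hkl⟩ := hK k hKk
  have hlk := hlpos k
  set a : ℝ := L / l k with ha
  have ha0 : 0 < a := div_pos hL hlk
  have hLa : L / a = l k := by rw [ha]; field_simp
  refine ⟨X (k + 1), a, hbA.trans (hXb _), ?_, ha0, ?_, ?_, ?_⟩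
  · -- a > A
    have h1 : l k * K' ≤ 2 * L := by rwa [le_div_iff₀ hK'0] at hks
    rw [ha, lt_div_iff₀ hlk]
    have h3 := le_abs_self A
    have h4 : l k * (2 * (|A| + 1)) ≤ l k * K' := by gcongr
    have h5 : A * l k ≤ |A| * l k := by gcongr
    nlinarith
  · rw [hLa]
    have : X (k + 1) - l k = X k := by simp only [hl]; ring
    rw [this]
    exact hX0 k
  · intro h hh
    rw [hLa] at hh
    have hh' := abs_le.1 hh
    rcases le_or_gt h 0 with h0 | h0
    · -- left
      have hmem : X (k + 1) + h ∈ Icc (X k) (X (k + 1)) := by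
        constructor
        · have : X (k + 1) - l k = X k := by simp only [hl]; ring
          linarith [hh'.1]
        · linarith
      rcases eq_or_lt_of_le hmem.2 with e | hlt
      · have : h = 0 := by linarith
        rw [this]; simp; exact hε.le
      have w1 : 0 ≤ -h / l k := div_nonneg (by linarith) hlk.le
      have w2 : 0 ≤ 1 + h / l k := by
        have : 1 + h / l k = (l k + h) / l k := by field_simp
        rw [this]; exact div_nonneg (by linarith [hh'.1]) hlk.le
      have hconv := hm.2 (hX0 k) (hX0 (k + 1)) w1 w2 (by ring)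
      have e1 : (-h / l k) • X k + (1 + h / l k) • X (k + 1) = X (k + 1) + h := by
        simp only [smul_eq_mul]
        have : X (k + 1) = X k + l k := by simp only [hl]; ring
        rw [this]; field_simp; ring
      rw [e1] at hconv
      have e2 : (-h / l k) • m (X k) + (1 + h / l k) • m (X (k + 1)) = m (X (k + 1)) + a * h := by
        simp only [smul_eq_mul]
        rw [hXm, hXm, ha]; push_cast; field_simp; ring
      rw [e2] at hconv
      linarith
    · -- right
      set W : ℝ := X (k + 3) - X (k + 1) with hW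
      have hWl : W = l (k + 1) + l (k + 2) := by simp only [hl, hW]; ring
      have h22 : l (k + 2) ≤ l (k + 1) := hlanti1 (k + 1)
      have hWpos : 0 < W := by rw [hWl]; linarith [hlpos (k + 1), hlpos (k + 2)]
      have hW2 : 2 * ((1 - δ) * l k) ≤ W := by rw [hWl]; linarith
      have hhW : h ≤ W := by
        have : l k ≤ 2 * ((1 - δ) * l k) := by nlinarith
        linarith [hh'.2]
      have w1 : 0 ≤ 1 - h / W := by rw [sub_nonneg, div_le_one hWpos]; exact hhW
      have w2 : 0 ≤ h / W := by positivity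
      have hconv := hm.2 (hX0 (k + 1)) (hX0 (k + 3)) w1 w2 (by ring)
      have e1 : (1 - h / W) • X (k + 1) + (h / W) • X (k + 3) = X (k + 1) + h := by
        simp only [smul_eq_mul]
        have : X (k + 3) = X (k + 1) + W := by simp only [hW]; ring
        rw [this]; field_simp; ring
      rw [e1] at hconv
      have e2 : (1 - h / W) • m (X (k + 1)) + (h / W) • m (X (k + 3))
          = m (X (k + 1)) + h * (2 * L / W) := by
        simp only [smul_eq_mul]
        rw [hXm, hXm]; push_cast; field_simp; ring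
      rw [e2] at hconv
      have h3 : 2 * L / W ≤ a / (1 - δ) := by
        have hd : 0 < 1 - δ := by linarith
        rw [div_le_div_iff₀ hWpos hd, ha]
        rw [div_mul_eq_mul_div, le_div_iff₀ hlk]
        calc 2 * L * (1 - δ) * l k = L * (2 * ((1 - δ) * l k)) := by ring
          _ ≤ L * W := by gcongr
      have h4 : a / (1 - δ) ≤ a + a * (2 * δ) := by
        have hd : 0 < 1 - δ := by linarith
        rw [div_le_iff₀ hd]
        nlinarith [mul_pos ha0 hδ0, mul_nonneg ha0.le (mul_nonneg hδ0.le (by linarith : 0 ≤ 1 - 2 * δ))]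
      have h5 : a * h ≤ L := by
        rw [ha, div_mul_eq_mul_div, div_le_iff₀ hlk]
        exact mul_le_mul_of_nonneg_left hh'.2 hL.le
      calc m (X (k + 1) + h) ≤ m (X (k + 1)) + h * (2 * L / W) := hconv
        _ ≤ m (X (k + 1)) + h * (a + a * (2 * δ)) := by
          have := h3.trans h4
          gcongr
        _ = m (X (k + 1)) + a * h + 2 * δ * (a * h) := by ring
        _ ≤ m (X (k + 1)) + a * h + 2 * δ * L := by gcongr
        _ ≤ m (X (k + 1)) + a * h + ε := by linarith
  · -- growth
    have h1 : Real.log a ≤ Real.log L + k * L / 40 := by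
      rw [ha, Real.log_div hL.ne' hlk.ne']
      have : -(k * L / 40) ≤ Real.log (l k) := by
        rw [Real.le_log_iff_exp_le hlk]; exact hkexp
      linarith
    have h2 := hC8 (X (k + 1)) (hX0 _)
    rw [hXm] at h2
    rw [hXm]
    push_cast at h2 hkl ⊢
    linarith

end Pool.Agent.MP_83fd13_an
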