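import Mathlib

namespace Pool.Agent.MP_83fd13_an

open Filter Set Complex MeasureTheory
open scoped Topology

theorem exp_neg_le_fortieth : Real.exp (-(15 / 4)) ≤ 1 / 40 := by
  have h1 : (40 : ℝ) ≤ Real.exp (15 / 4) := by
    have h2 : (2.7 : ℝ) ≤ Real.exp 1 := by
      have := Real.exp_one_gt_d9; linarith
    have h3 : (2.7 : ℝ) ^ 15 ≤ Real.exp (15 / 4) ^ 4 := by
      rw [← Real.exp_nat_mul]
      have : ((4 : ℕ) : ℝ) * (15 / 4) = ((15 : ℕ) : ℝ) * 1 := by norm_num
      rw [this, Real.exp_nat_mul]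
      exact pow_le_pow_left₀ (by norm_num) h2 15
    by_contra hcon
    push Not at hcon
    have h4 : Real.exp (15 / 4) ^ 4 < 40 ^ 4 := pow_lt_pow_left₀ hcon (Real.exp_pos _).le (by norm_num)
    norm_num at h3 h4
    linarith
  rw [Real.exp_neg, inv_eq_one_div]
  exact one_div_le_one_div_of_le (by norm_num) h1

/-- Laplace's method: a quantitative non-vanishing criterion. -/
theorem laplace_ne_zero {r w : ℝ → ℂ} (hr : Continuous r) (hw : Continuous w) {s T D : ℝ}
    (hs : 0 < s) (hT : 5 * s ≤ T) (hTpi : T ≤ Real.pi)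
    (near : ∀ θ, |θ| ≤ T → (r θ).re ≤ -(3 / 20) * (θ / s) ^ 2)
    (core : ∀ θ, |θ| ≤ 5 * s → ‖r θ + (((θ / s) ^ 2 / 2 : ℝ) : ℂ)‖ ≤ 3 / 100 * (θ / s) ^ 2)
    (w1 : ∀ θ, |θ| ≤ 5 * s → ‖w θ - 1‖ ≤ 1 / 50)
    (w2 : ∀ θ, |θ| ≤ Real.pi → ‖w θ‖ ≤ 2)
    (far : ∀ θ, T ≤ |θ| → |θ| ≤ Real.pi → (r θ).re ≤ -D)
    (hD : Real.exp (-D) ≤ s / 20) :
    ∫ θ in (-Real.pi)..Real.pi, exp (r θ) * w θ ≠ 0 := by
  set f : ℝ → ℝ := fun θ => (exp (r θ) * w θ).re with hf
  have hfc : Continuous f := by
    have : Continuous fun θ => exp (r θ) * w θ := (continuous_exp.comp hr).mul hw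
    exact continuous_re.comp this
  have hFc : Continuous fun θ => exp (r θ) * w θ := (continuous_exp.comp hr).mul hw
  -- core lower bound
  have hcore : ∀ θ, |θ| ≤ 5 * s → (69 / 100) * Real.exp (-(53 / 100) * (θ / s) ^ 2) ≤ f θ := by
    intro θ hθ
    set q : ℝ := (θ / s) ^ 2 with hq
    have hq0 : 0 ≤ q := sq_nonneg _
    have hq25 : q ≤ 25 := by
      have : |θ / s| ≤ 5 := by
        rw [abs_div, abs_of_pos hs, div_le_iff₀ hs]; exact hθ
      rw [hq, ← sq_abs]
      nlinarith [abs_nonneg (θ / s)]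
    have hc := core θ hθ
    rw [← hq] at hc
    have hre : |(r θ).re + q / 2| ≤ 3 / 100 * q := by
      refine le_trans ?_ hc
      have := abs_re_le_norm (r θ + ((q / 2 : ℝ) : ℂ))
      simpa using this
    have him : |(r θ).im| ≤ 3 / 100 * q := by
      refine le_trans ?_ hc
      have := abs_im_le_norm (r θ + ((q / 2 : ℝ) : ℂ))
      simpa using this
    have hcos : 71 / 100 ≤ Real.cos (r θ).im := by
      have h1 := Real.one_sub_sq_div_two_le_cos (x := (r θ).im)
      have h2 : (r θ).im ^ 2 ≤ (3 / 4) ^ 2 := by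
        rw [← sq_abs]
        have : |(r θ).im| ≤ 3 / 4 := by linarith
        exact pow_le_pow_left₀ (abs_nonneg _) this 2
      norm_num at h2
      linarith
    have hexp : ‖exp (r θ)‖ = Real.exp (r θ).re := norm_exp _
    have e1 : f θ = (exp (r θ)).re + (exp (r θ) * (w θ - 1)).re := by
      simp only [hf]
      rw [← add_re]; congr 1; ring
    have h3 : |(exp (r θ) * (w θ - 1)).re| ≤ Real.exp (r θ).re * (1 / 50) := by
      refine (abs_re_le_norm _).trans ?_
      rw [norm_mul, hexp]
      exact mul_le_mul_of_nonneg_left (w1 θ hθ) (Real.exp_pos _).le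
    have h4 : (exp (r θ)).re = Real.exp (r θ).re * Real.cos (r θ).im := exp_re _
    have h5 : Real.exp (-(53 / 100) * q) ≤ Real.exp (r θ).re := by
      rw [Real.exp_le_exp]
      have := (abs_le.1 hre).1
      linarith
    have h6 := (abs_le.1 h3).1
    rw [e1, h4]
    have h7 : Real.exp (r θ).re * (71 / 100) ≤ Real.exp (r θ).re * Real.cos (r θ).im :=
      mul_le_mul_of_nonneg_left hcos (Real.exp_pos _).le
    nlinarith
  have hcore0 : ∀ θ, |θ| ≤ 5 * s → 0 ≤ f θ := fun θ hθ =>
    le_trans (by positivity) (hcore θ hθ)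
  have hcore1 : ∀ θ, |θ| ≤ s → 2 / 5 ≤ f θ := by
    intro θ hθ
    have h1 := hcore θ (by linarith)
    refine le_trans ?_ h1
    have hq1 : (θ / s) ^ 2 ≤ 1 := by
      have : |θ / s| ≤ 1 := by
        rw [abs_div, abs_of_pos hs, div_le_iff₀ hs]; simpa using hθ
      rw [← sq_abs]
      exact pow_le_one₀ (abs_nonneg _) this
    have h2 : (40 / 69 : ℝ) ≤ Real.exp (-(53 / 100)) := by
      rw [Real.exp_neg, le_inv_comm₀ (by norm_num) (Real.exp_pos _)]
      have h3 := Real.exp_bound' (x := 53 / 100) (by norm_num) (by norm_num) (n := 4) (by norm_num)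
      refine h3.trans ?_
      simp [Finset.sum_range_succ, Nat.factorial]
      norm_num
    have h3 : Real.exp (-(53 / 100)) ≤ Real.exp (-(53 / 100) * (θ / s) ^ 2) := by
      rw [Real.exp_le_exp]; nlinarith
    linarith
  -- outer bound
  have hout : ∀ θ, 5 * s ≤ |θ| → |θ| ≤ Real.pi →
      -(2 * Real.exp (-(3 / 4) * (|θ| / s))) - 2 * Real.exp (-D) ≤ f θ := by
    intro θ h1 h2
    have h3 : |f θ| ≤ 2 * Real.exp (r θ).re := by
      refine (abs_re_le_norm _).trans ?_
      rw [norm_mul, norm_exp, mul_comm]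
      exact mul_le_mul_of_nonneg_right (w2 θ h2) (Real.exp_pos _).le
    have h4 := (abs_le.1 h3).1
    rcases le_or_gt |θ| T with hT1 | hT1
    · have h5 := near θ hT1
      have h6 : (r θ).re ≤ -(3 / 4) * (|θ| / s) := by
        refine h5.trans ?_
        have h7 : 5 ≤ |θ| / s := by rw [le_div_iff₀ hs]; exact h1
        have h8 : (θ / s) ^ 2 = (|θ| / s) ^ 2 := by
          rw [div_pow, div_pow, sq_abs]
        rw [h8]
        nlinarith
      have h7 := Real.exp_le_exp.2 h6
      have := Real.exp_pos (-D)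
      linarith
    · have h5 := far θ hT1.le h2
      have h7 := Real.exp_le_exp.2 h5
      have := Real.exp_pos (-(3 / 4) * (|θ| / s))
      linarith
  have h5pi : 5 * s ≤ Real.pi := hT.trans hTpi
  have hint : ∀ a b : ℝ, IntervalIntegrable f volume a b := fun a b => hfc.intervalIntegrable a b
  -- the tail integral
  have hprim : ∫ θ in (5 * s)..Real.pi, 2 * Real.exp (-(3 / 4) * (θ / s))
      ≤ s / 15 := by
    have hder : ∀ θ ∈ uIcc (5 * s) Real.pi, HasDerivAt
        (fun θ => -(8 * s / 3) * Real.exp (-(3 / 4) * (θ / s)))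
        (2 * Real.exp (-(3 / 4) * (θ / s))) θ := by
      intro θ _
      have h1 : HasDerivAt (fun θ : ℝ => -(3 / 4) * (θ / s)) (-(3 / 4) * (1 / s)) θ :=
        ((hasDerivAt_id θ).div_const s).const_mul _
      have h2 := (h1.exp).const_mul (-(8 * s / 3))
      refine h2.congr_deriv ?_
      have hs' := hs.ne'
      field_simp
      norm_num
    rw [intervalIntegral.integral_eq_sub_of_hasDerivAt hder
      ((by fun_prop : Continuous fun θ : ℝ => 2 * Real.exp (-(3 / 4) * (θ / s))).intervalIntegrable _ _)]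
    have e1 : -(3 / 4) * (5 * s / s) = -(15 / 4) := by field_simp; norm_num
    rw [e1]
    have h2 := exp_neg_le_fortieth
    have h3 := Real.exp_pos (-(3 / 4) * (Real.pi / s))
    have h4 : 0 ≤ (8 * s / 3) * Real.exp (-(3 / 4) * (Real.pi / s)) := by positivity
    have h5 : (8 * s / 3) * Real.exp (-(15 / 4)) ≤ (8 * s / 3) * (1 / 40) :=
      mul_le_mul_of_nonneg_left h2 (by positivity)
    linarith
  have hright : -(s / 15) - 2 * Real.pi * Real.exp (-D) ≤ ∫ θ in (5 * s)..Real.pi, f θ := by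
    have h1 : ∫ θ in (5 * s)..Real.pi, (-(2 * Real.exp (-(3 / 4) * (θ / s))) - 2 * Real.exp (-D))
        ≤ ∫ θ in (5 * s)..Real.pi, f θ := by
      apply intervalIntegral.integral_mono_on h5pi
        ((by fun_prop : Continuous fun θ : ℝ =>
          (-(2 * Real.exp (-(3 / 4) * (θ / s))) - 2 * Real.exp (-D))).intervalIntegrable _ _)
        (hint _ _)
      intro θ hθ
      have h0 : |θ| = θ := abs_of_nonneg (by linarith [hθ.1])
      have := hout θ (by rw [h0]; exact hθ.1) (by rw [h0]; exact hθ.2)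
      rwa [h0] at this
    refine le_trans ?_ h1
    rw [intervalIntegral.integral_sub ((by fun_prop : Continuous fun θ : ℝ =>
          (-(2 * Real.exp (-(3 / 4) * (θ / s))))).intervalIntegrable _ _)
          (continuous_const.intervalIntegrable _ _), intervalIntegral.integral_neg,
          intervalIntegral.integral_const, smul_eq_mul]
    have h2 : (Real.pi - 5 * s) * (2 * Real.exp (-D)) ≤ Real.pi * (2 * Real.exp (-D)) := by
      have := Real.exp_pos (-D)
      nlinarith
    linarith
  have hleft : -(s / 15) - 2 * Real.pi * Real.exp (-D) ≤ ∫ θ in (-Real.pi)..(-(5 * s)), f θ := by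
    have h0 : ∫ θ in (-Real.pi)..(-(5 * s)), f θ = ∫ θ in (5 * s)..Real.pi, f (-θ) := by
      rw [intervalIntegral.integral_comp_neg]
    rw [h0]
    have h1 : ∫ θ in (5 * s)..Real.pi, (-(2 * Real.exp (-(3 / 4) * (θ / s))) - 2 * Real.exp (-D))
        ≤ ∫ θ in (5 * s)..Real.pi, f (-θ) := by
      apply intervalIntegral.integral_mono_on h5pi
        ((by fun_prop : Continuous fun θ : ℝ =>
          (-(2 * Real.exp (-(3 / 4) * (θ / s))) - 2 * Real.exp (-D))).intervalIntegrable _ _)
        ((hfc.comp continuous_neg).intervalIntegrable _ _)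
      intro θ hθ
      have h0 : |(-θ)| = θ := by rw [abs_neg]; exact abs_of_nonneg (by linarith [hθ.1])
      have := hout (-θ) (by rw [h0]; exact hθ.1) (by rw [h0]; exact hθ.2)
      rwa [h0] at this
    refine le_trans ?_ h1
    rw [intervalIntegral.integral_sub ((by fun_prop : Continuous fun θ : ℝ =>
          (-(2 * Real.exp (-(3 / 4) * (θ / s))))).intervalIntegrable _ _)
          (continuous_const.intervalIntegrable _ _), intervalIntegral.integral_neg,
          intervalIntegral.integral_const, smul_eq_mul]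
    have h2 : (Real.pi - 5 * s) * (2 * Real.exp (-D)) ≤ Real.pi * (2 * Real.exp (-D)) := by
      have := Real.exp_pos (-D)
      nlinarith
    linarith
  have hmid1 : 0 ≤ ∫ θ in (-(5 * s))..(-s), f θ := by
    apply intervalIntegral.integral_nonneg (by linarith)
    intro θ hθ
    exact hcore0 θ (abs_le.2 ⟨by linarith [hθ.1], by linarith [hθ.2]⟩)
  have hmid2 : 0 ≤ ∫ θ in s..(5 * s), f θ := by
    apply intervalIntegral.integral_nonneg (by linarith)
    intro θ hθ
    exact hcore0 θ (abs_le.2 ⟨by linarith [hθ.1], by linarith [hθ.2]⟩)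
  have hcen : 4 / 5 * s ≤ ∫ θ in (-s)..s, f θ := by
    have h1 : ∫ θ in (-s)..s, (2 / 5 : ℝ) ≤ ∫ θ in (-s)..s, f θ := by
      apply intervalIntegral.integral_mono_on (by linarith)
        (continuous_const.intervalIntegrable _ _) (hint _ _)
      intro θ hθ
      exact hcore1 θ (abs_le.2 ⟨hθ.1, hθ.2⟩)
    rw [intervalIntegral.integral_const, smul_eq_mul] at h1
    linarith
  have htot : ∫ θ in (-Real.pi)..Real.pi, f θ
      = (∫ θ in (-Real.pi)..(-(5 * s)), f θ) + (∫ θ in (-(5 * s))..(-s), f θ)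
        + (∫ θ in (-s)..s, f θ) + (∫ θ in s..(5 * s), f θ) + ∫ θ in (5 * s)..Real.pi, f θ := by
    rw [intervalIntegral.integral_add_adjacent_intervals (hint _ _) (hint _ _),
      intervalIntegral.integral_add_adjacent_intervals (hint _ _) (hint _ _),
      intervalIntegral.integral_add_adjacent_intervals (hint _ _) (hint _ _),
      intervalIntegral.integral_add_adjacent_intervals (hint _ _) (hint _ _)]
  have hpos : 0 < ∫ θ in (-Real.pi)..Real.pi, f θ := by
    rw [htot]
    have h1 : Real.pi * Real.exp (-D) ≤ 3.15 * (s / 20) := by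
      have := Real.pi_lt_d2
      have h2 := Real.exp_pos (-D)
      calc Real.pi * Real.exp (-D) ≤ 3.15 * Real.exp (-D) := by gcongr
        _ ≤ 3.15 * (s / 20) := by gcongr
    nlinarith
  intro hzero
  have h1 : (∫ θ in (-Real.pi)..Real.pi, exp (r θ) * w θ).re = ∫ θ in (-Real.pi)..Real.pi, f θ := by
    have := (Complex.reCLM.intervalIntegral_comp_comm (μ := volume) (a := -Real.pi) (b := Real.pi)
      (hFc.intervalIntegrable _ _))
    simp only [reCLM_apply] at this
    exact this.symm
  rw [hzero] at h1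
  simp only [zero_re] at h1
  linarith

end Pool.Agent.MP_83fd13_an
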