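import Mathlib

namespace Pool.Agent.MP_83fd13_an

open Filter Set Complex
open scoped Topology

theorem exists_max_periodic {f : ℝ → ℝ} (hf : Continuous f)
    (hper : ∀ y, f (y + 2 * Real.pi) = f y) : ∃ y₀, ∀ y, f y ≤ f y₀ := by
  have hp : Function.Periodic f (2 * Real.pi) := hper
  obtain ⟨y₀, _, h⟩ := (isCompact_Icc (a := (0:ℝ)) (b := 2 * Real.pi)).exists_isMaxOn
    ⟨0, by constructor <;> positivity⟩ hf.continuousOn
  refine ⟨y₀, fun y => ?_⟩
  obtain ⟨z, hz, hyz⟩ := hp.exists_mem_Ico₀ Real.two_pi_pos y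
  rw [hyz]
  exact h ⟨hz.1, hz.2.le⟩

/-- Right half plane `x0 < re`. -/
def HP (x0 : ℝ) : Set ℂ := {ζ | x0 < ζ.re}

theorem isOpen_HP (x0 : ℝ) : IsOpen (HP x0) := isOpen_lt continuous_const continuous_re

theorem mem_HP {x0 x : ℝ} (hx : x0 < x) (y : ℝ) : (x : ℂ) + y * I ∈ HP x0 := by
  simp [HP, hx]

/-- Supremum of `‖g‖` on a vertical line. -/
noncomputable def MM (g : ℂ → ℂ) (x : ℝ) : ℝ := sSup (range fun y : ℝ => ‖g (x + y * I)‖)

variable {g : ℂ → ℂ} {x0 : ℝ}

theorem continuous_line (hg : DifferentiableOn ℂ g (HP x0)) {x : ℝ} (hx : x0 < x) :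
    Continuous fun y : ℝ => g (x + y * I) := by
  apply hg.continuousOn.comp_continuous (by fun_prop)
  intro y
  exact mem_HP hx y

theorem per_line (hper : ∀ ζ, g (ζ + 2 * Real.pi * I) = g ζ) (x y : ℝ) :
    g (x + (y + 2 * Real.pi : ℝ) * I) = g (x + y * I) := by
  rw [← hper ((x : ℂ) + y * I)]
  congr 1
  push_cast
  ring

theorem exists_MM (hg : DifferentiableOn ℂ g (HP x0))
    (hper : ∀ ζ, g (ζ + 2 * Real.pi * I) = g ζ) {x : ℝ} (hx : x0 < x) :
    ∃ y₀ : ℝ, ‖g (x + y₀ * I)‖ = MM g x ∧ ∀ y : ℝ, ‖g (x + y * I)‖ ≤ MM g x := by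
  obtain ⟨y₀, h⟩ := exists_max_periodic (f := fun y : ℝ => ‖g (x + y * I)‖)
    (continuous_line hg hx).norm (fun y => by rw [per_line hper])
  have hb : BddAbove (range fun y : ℝ => ‖g (x + y * I)‖) := ⟨_, by rintro _ ⟨y, rfl⟩; exact h y⟩
  have h1 : ∀ y : ℝ, ‖g (x + y * I)‖ ≤ MM g x := fun y => le_csSup hb ⟨y, rfl⟩
  refine ⟨y₀, le_antisymm (h1 y₀) ?_, h1⟩
  exact csSup_le (range_nonempty _) (by rintro _ ⟨y, rfl⟩; exact h y)

theorem norm_le_MM (hg : DifferentiableOn ℂ g (HP x0))
    (hper : ∀ ζ, g (ζ + 2 * Real.pi * I) = g ζ) {ζ : ℂ} (hζ : x0 < ζ.re) :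
    ‖g ζ‖ ≤ MM g ζ.re := by
  obtain ⟨y₀, _, h⟩ := exists_MM hg hper hζ
  have := h ζ.im
  rwa [re_add_im] at this

theorem MM_three (hg : DifferentiableOn ℂ g (HP x0))
    (hper : ∀ ζ, g (ζ + 2 * Real.pi * I) = g ζ) {l u x : ℝ} (hl : x0 < l) (hlu : l < u)
    (hx : x ∈ Icc l u) :
    MM g x ≤ MM g l ^ (1 - (x - l) / (u - l)) * MM g u ^ ((x - l) / (u - l)) := by
  obtain ⟨y₀, h1, _⟩ := exists_MM hg hper (hl.trans_le hx.1)
  rw [← h1]
  have hsub : HadamardThreeLines.verticalClosedStrip l u ⊆ HP x0 := by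
    intro ζ hζ
    exact hl.trans_le hζ.1
  have hz : ((x : ℂ) + y₀ * I) ∈ HadamardThreeLines.verticalClosedStrip l u := by
    show ((x : ℂ) + y₀ * I).re ∈ Icc l u
    simpa using hx
  have hd : DiffContOnCl ℂ g (HadamardThreeLines.verticalStrip l u) := by
    apply DifferentiableOn.diffContOnCl
    apply hg.mono
    refine (closure_minimal ?_ ?_).trans hsub
    · intro ζ hζ
      exact Ioo_subset_Icc_self hζ
    · exact isClosed_Icc.preimage continuous_re
  have hB : BddAbove ((norm ∘ g) '' HadamardThreeLines.verticalClosedStrip l u) := by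
    have hK : IsCompact ((Icc l u) ×ℂ (Icc 0 (2 * Real.pi))) :=
      isCompact_Icc.reProdIm isCompact_Icc
    have hKs : ((Icc l u) ×ℂ (Icc 0 (2 * Real.pi))) ⊆ HP x0 := by
      intro ζ hζ
      exact hl.trans_le hζ.1.1
    obtain ⟨C, hC⟩ := (hK.image_of_continuousOn ((hg.continuousOn.mono hKs).norm)).bddAbove
    refine ⟨C, ?_⟩
    rintro _ ⟨ζ, hζ, rfl⟩
    have hp : Function.Periodic (fun y : ℝ => g (ζ.re + y * I)) (2 * Real.pi) := fun y => by
      simp only
      rw [per_line hper]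
    obtain ⟨y, hy, hyz⟩ := hp.exists_mem_Ico₀ Real.two_pi_pos ζ.im
    have e : g ζ = g (ζ.re + y * I) := by
      have := hyz
      simp only [re_add_im] at this
      exact this
    simp only [Function.comp]
    rw [e]
    apply hC
    refine ⟨(ζ.re : ℂ) + y * I, ?_, rfl⟩
    refine ⟨?_, ?_⟩
    · show ((ζ.re : ℂ) + y * I).re ∈ Icc l u
      have e : ((ζ.re : ℂ) + y * I).re = ζ.re := by simp
      rw [e]; exact hζ
    · show ((ζ.re : ℂ) + y * I).im ∈ Icc 0 (2 * Real.pi)
      simp only [add_im, ofReal_im, mul_im, ofReal_re, I_im, mul_one, I_re, mul_zero, add_zero,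
        zero_add]
      exact ⟨hy.1, hy.2.le⟩
  have h2 := HadamardThreeLines.norm_le_interp_of_mem_verticalClosedStrip' (f := g)
    (a := MM g l) (b := MM g u) hlu hz hd hB
    (by
      intro z hz
      have : z.re = l := hz
      rw [← this]
      exact norm_le_MM hg hper (by rw [this]; exact hl))
    (by
      intro z hz
      have : z.re = u := hz
      rw [← this]
      exact norm_le_MM hg hper (by rw [this]; exact hl.trans hlu))
  have h3 : ((x : ℂ) + y₀ * I).re = x := by simp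
  rw [h3] at h2
  exact h2

theorem log_MM_convex (hg : DifferentiableOn ℂ g (HP x0))
    (hper : ∀ ζ, g (ζ + 2 * Real.pi * I) = g ζ) (hpos : ∀ x, x0 < x → 0 < MM g x) :
    ConvexOn ℝ (Ioi x0) (fun x => Real.log (MM g x)) := by
  rw [convexOn_iff_forall_pos]
  refine ⟨convex_Ioi x0, ?_⟩
  -- reduce to the ordered case
  have key : ∀ l u : ℝ, x0 < l → l < u → ∀ a b : ℝ, 0 < a → 0 < b → a + b = 1 →
      Real.log (MM g (a • l + b • u)) ≤ a • Real.log (MM g l) + b • Real.log (MM g u) := by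
    intro l u hl hlu a b ha hb hab
    have hd : 0 < u - l := by linarith
    have hx : a • l + b • u ∈ Icc l u := by
      simp only [smul_eq_mul]
      have ea : a = 1 - b := by linarith
      subst ea
      constructor
      · nlinarith [mul_pos hb hd]
      · nlinarith [mul_pos ha hd]
    have h := MM_three hg hper hl hlu hx
    have e1 : (a • l + b • u - l) / (u - l) = b := by
      simp only [smul_eq_mul]
      rw [div_eq_iff hd.ne']
      have : a = 1 - b := by linarith
      rw [this]; ring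
    rw [e1] at h
    have e2 : 1 - b = a := by linarith
    rw [e2] at h
    have hl' := hpos l hl
    have hu' := hpos u (hl.trans hlu)
    have h2 := Real.log_le_log (hpos _ (hl.trans_le hx.1)) h
    rw [Real.log_mul (by positivity) (by positivity), Real.log_rpow hl', Real.log_rpow hu'] at h2
    simpa using h2
  intro x hx y hy a b ha hb hab
  rcases lt_trichotomy x y with h | h | h
  · exact key x y hx h a b ha hb hab
  · subst h
    rw [← add_smul, ← add_smul, hab, one_smul, one_smul]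
  · have := key y x hy h b a hb ha (by linarith)
    rw [add_comm (b • y), add_comm (b • _)] at this
    exact this

end Pool.Agent.MP_83fd13_an
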