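import Mathlib

namespace Pool.Agent.MP_83fd13_an

open Filter Set Complex Metric
open scoped Topology

/-- Local structure near a point of nearly maximal modulus. -/
theorem local_h {g : ℂ → ℂ} {ζ₁ : ℂ} {l a e : ℝ} (hl : 0 < l) (he : 0 < e)
    (hg : DifferentiableOn ℂ g (ball ζ₁ l)) (h0 : g ζ₁ ≠ 0)
    (hb : ∀ σ : ℂ, ‖σ‖ < l → ‖g (ζ₁ + σ)‖ ≤ (1 + e) * ‖g ζ₁‖ * Real.exp (a * σ.re)) :
    ∃ h : ℂ → ℂ, ∃ h1 : ℂ, HasDerivAt g (g ζ₁ * (a + h1)) ζ₁ ∧
      (∀ σ : ℂ, ‖σ‖ < l → g (ζ₁ + σ) = g ζ₁ * exp (a * σ) * (1 + h σ)) ∧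
      ‖h1‖ ≤ 4 * e / l ∧ (∀ σ : ℂ, ‖σ‖ < l / 2 → ‖h σ‖ ≤ 4 * e / l * ‖σ‖) ∧
      (∀ σ : ℂ, ‖σ‖ < l / 2 → ‖h σ - h1 * σ‖ ≤ 16 * e / l ^ 2 * ‖σ‖ ^ 2) := by
  set h : ℂ → ℂ := fun σ => g (ζ₁ + σ) * exp (-(a * σ)) / g ζ₁ - 1 with hh
  have hmem : ∀ σ : ℂ, σ ∈ ball (0 : ℂ) l ↔ ‖σ‖ < l := fun σ => by simp
  have hshift : DifferentiableOn ℂ (fun σ => g (ζ₁ + σ)) (ball 0 l) := by
    apply hg.comp (by fun_prop)
    intro σ hσ
    rw [mem_ball, dist_eq_norm, add_sub_cancel_left]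
    exact (hmem σ).1 hσ
  have hd : DifferentiableOn ℂ h (ball 0 l) := by
    apply DifferentiableOn.sub_const
    apply DifferentiableOn.div_const
    exact hshift.mul (by fun_prop)
  have h00 : h 0 = 0 := by
    simp only [hh, add_zero, mul_zero, neg_zero, exp_zero, mul_one]
    rw [div_self h0, sub_self]
  have hre : MapsTo h (ball 0 l) {z | z.re ≤ e} := by
    intro σ hσ
    have h1 := hb σ ((hmem σ).1 hσ)
    have h2 : ‖g (ζ₁ + σ) * exp (-(a * σ)) / g ζ₁‖ ≤ 1 + e := by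
      rw [norm_div, norm_mul, norm_exp, div_le_iff₀ (norm_pos_iff.2 h0)]
      have e1 : (-(↑a * σ)).re = -(a * σ.re) := by simp
      rw [e1]
      calc ‖g (ζ₁ + σ)‖ * Real.exp (-(a * σ.re))
          ≤ ((1 + e) * ‖g ζ₁‖ * Real.exp (a * σ.re)) * Real.exp (-(a * σ.re)) := by
            gcongr
        _ = (1 + e) * ‖g ζ₁‖ * (Real.exp (a * σ.re) * Real.exp (-(a * σ.re))) := by ring
        _ = (1 + e) * ‖g ζ₁‖ := by rw [← Real.exp_add, add_neg_cancel, Real.exp_zero, mul_one]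
    show (h σ).re ≤ e
    simp only [hh, sub_re, one_re]
    have := (re_le_norm _).trans h2
    linarith
  have hl2 : ball (0 : ℂ) (l / 2) ⊆ ball 0 l := ball_subset_ball (by linarith)
  have hbd : ∀ σ : ℂ, ‖σ‖ < l / 2 → ‖h σ‖ ≤ 4 * e / l * ‖σ‖ := by
    intro σ hσ
    have h1 := borelCaratheodory_zero he hd hre hl ((hmem σ).2 (by linarith)) h00
    refine h1.trans ?_
    rw [div_le_iff₀ (by linarith)]
    have h2 : l / 2 ≤ l - ‖σ‖ := by linarith
    calc 2 * e * ‖σ‖ = 4 * e / l * ‖σ‖ * (l / 2) := by field_simp; ring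
      _ ≤ 4 * e / l * ‖σ‖ * (l - ‖σ‖) := by gcongr
  have hmaps : MapsTo h (ball 0 (l / 2)) (closedBall (h 0) (2 * e)) := by
    intro σ hσ
    rw [h00, mem_closedBall_zero_iff]
    have h1 : ‖σ‖ < l / 2 := by simpa using hσ
    refine (hbd σ h1).trans ?_
    calc 4 * e / l * ‖σ‖ ≤ 4 * e / l * (l / 2) := by gcongr
      _ = 2 * e := by field_simp; ring
  have hd2 : DifferentiableOn ℂ h (ball 0 (l / 2)) := hd.mono hl2
  set h1 : ℂ := deriv h 0 with hh1
  have hh1n : ‖h1‖ ≤ 4 * e / l := by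
    have := norm_deriv_le_div_of_mapsTo_ball hd2 hmaps (by positivity)
    refine this.trans (le_of_eq ?_)
    field_simp
    ring
  have hder0 : HasDerivAt h h1 0 :=
    (hd.differentiableAt (ball_mem_nhds _ hl)).hasDerivAt
  have hfor : ∀ σ : ℂ, g (ζ₁ + σ) = g ζ₁ * exp (a * σ) * (1 + h σ) := by
    intro σ
    simp only [hh]
    rw [exp_neg]
    have := exp_ne_zero (a * σ)
    field_simp
    ring
  refine ⟨h, h1, ?_, fun σ _ => hfor σ, hh1n, hbd, ?_⟩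
  · have e1 : HasDerivAt (fun σ : ℂ => g ζ₁ * exp (a * σ) * (1 + h σ)) (g ζ₁ * (a + h1)) 0 := by
      have e2 : HasDerivAt (fun σ : ℂ => g ζ₁ * exp (a * σ)) (g ζ₁ * a) 0 := by
        have e3 : HasDerivAt (fun σ : ℂ => (a : ℂ) * σ) (a : ℂ) 0 := by
          simpa using (hasDerivAt_id (0 : ℂ)).const_mul (a : ℂ)
        have := (e3.cexp).const_mul (g ζ₁)
        simpa using this
      have := e2.mul (hder0.const_add 1)
      refine this.congr_deriv ?_
      rw [h00]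
      simp
      ring
    have e4 : HasDerivAt (fun σ : ℂ => g (ζ₁ + σ)) (g ζ₁ * (a + h1)) 0 :=
      e1.congr_of_eventuallyEq (Eventually.of_forall hfor)
    have e5 : HasDerivAt (fun σ : ℂ => g (ζ₁ + σ)) (g ζ₁ * (a + h1)) (ζ₁ - ζ₁) := by
      rw [sub_self]; exact e4
    have e6 := e5.comp_sub_const ζ₁ ζ₁
    refine e6.congr_of_eventuallyEq (Eventually.of_forall fun z => ?_)
    simp
  · intro σ hσ
    have hm : MapsTo (fun σ => h σ - h1 * σ) (ball 0 (l / 2))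
        (closedBall ((fun σ => h σ - h1 * σ) 0) (4 * e)) := by
      intro τ hτ
      have hτ' : ‖τ‖ < l / 2 := by simpa using hτ
      simp only [h00, mul_zero, sub_self, mem_closedBall_zero_iff]
      have e1 := hbd τ hτ'
      have e2 : 4 * e / l * ‖τ‖ ≤ 4 * e / l * (l / 2) := by gcongr
      have e3 : 4 * e / l * (l / 2) = 2 * e := by field_simp; ring
      have e4 : ‖h1 * τ‖ ≤ 4 * e / l * (l / 2) := by
        rw [norm_mul]; gcongr
      calc ‖h τ - h1 * τ‖ ≤ ‖h τ‖ + ‖h1 * τ‖ := norm_sub_le _ _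
        _ ≤ 4 * e := by linarith
    have hlo : ((fun σ => h σ - h1 * σ) · - (fun σ => h σ - h1 * σ) 0)
        =o[𝓝 0] (fun w : ℂ ↦ ‖w - 0‖ ^ 1) := by
      have e1 := hasDerivAt_iff_isLittleO.1 hder0
      simp only [h00, mul_zero, sub_zero, pow_one] at e1 ⊢
      rw [Asymptotics.isLittleO_norm_right]
      refine e1.congr_left fun x => ?_
      simp only [smul_eq_mul]
      ring
    have hz : σ ∈ ball (0 : ℂ) (l / 2) := by simpa using hσ
    have := dist_le_mul_div_pow_of_mapsTo_ball_of_isLittleO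
      (hd2.sub (by fun_prop : DifferentiableOn ℂ (fun σ => h1 * σ) (ball 0 (l / 2)))) hm hlo hz
    simp only [Pi.sub_apply, h00, mul_zero, sub_zero, dist_zero_right] at this
    refine this.trans (le_of_eq ?_)
    have hl' := hl.ne'
    rw [show (1 + 1 : ℕ) = 2 from rfl, div_pow, div_pow]
    field_simp
    ring

end Pool.Agent.MP_83fd13_an
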