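import Mathlib

namespace Pool.Agent.MP_83fd13_an

open Filter Set Complex Metric
open scoped Topology

/-! Elementary bounds for `exp (I y)`. -/

theorem expI_sub_one (y : ℝ) : ‖exp (y * I) - 1‖ ≤ |y| := by
  have := Real.norm_exp_I_mul_ofReal_sub_one_le (x := y)
  rw [mul_comm] at this
  simpa using this

theorem hasDerivAt_expI (y : ℝ) : HasDerivAt (fun y : ℝ => exp (y * I)) (I * exp (y * I)) y := by
  have h1 : HasDerivAt (fun y : ℝ => (y : ℂ) * I) (1 * I) y := by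
    exact (ofRealCLM.hasDerivAt (x := y)).mul_const I
  have h2 := h1.cexp
  refine h2.congr_deriv ?_
  ring

theorem expI_two (y : ℝ) : ‖exp (y * I) - 1 - y * I‖ ≤ y ^ 2 := by
  have hder : ∀ x ∈ Icc (-|y|) |y|, HasDerivWithinAt (fun x : ℝ => exp (x * I) - 1 - x * I)
      (I * exp (x * I) - I) (Icc (-|y|) |y|) x := by
    intro x _
    have h1 : HasDerivAt (fun x : ℝ => (x : ℂ) * I) (1 * I) x := by
      exact (ofRealCLM.hasDerivAt (x := x)).mul_const I
    have := ((hasDerivAt_expI x).sub_const 1).sub h1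
    rw [one_mul] at this
    exact this.hasDerivWithinAt
  have hb : ∀ x ∈ Icc (-|y|) |y|, ‖I * exp (x * I) - I‖ ≤ |y| := by
    intro x hx
    have : I * exp (x * I) - I = I * (exp (x * I) - 1) := by ring
    rw [this, norm_mul, norm_I, one_mul]
    exact (expI_sub_one x).trans (abs_le.2 hx)
  have h0 : (0 : ℝ) ∈ Icc (-|y|) |y| := ⟨by simp, abs_nonneg _⟩
  have hy : y ∈ Icc (-|y|) |y| := ⟨neg_abs_le y, le_abs_self y⟩
  have := (convex_Icc (-|y|) |y|).norm_image_sub_le_of_norm_hasDerivWithin_le hder hb h0 hy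
  simp only [ofReal_zero, zero_mul, exp_zero, sub_self, sub_zero] at this
  rw [Real.norm_eq_abs] at this
  calc ‖exp (y * I) - 1 - y * I‖ ≤ |y| * |y| := this
    _ = y ^ 2 := by rw [← sq, sq_abs]

theorem expI_three (y : ℝ) : ‖exp (y * I) - 1 - y * I + ((y ^ 2 / 2 : ℝ) : ℂ)‖ ≤ |y| ^ 3 := by
  have hder : ∀ x ∈ Icc (-|y|) |y|, HasDerivWithinAt
      (fun x : ℝ => exp (x * I) - 1 - x * I + ((x ^ 2 / 2 : ℝ) : ℂ))
      (I * exp (x * I) - I + x) (Icc (-|y|) |y|) x := by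
    intro x _
    have h1 : HasDerivAt (fun x : ℝ => (x : ℂ) * I) (1 * I) x := by
      exact (ofRealCLM.hasDerivAt (x := x)).mul_const I
    have h2 : HasDerivAt (fun x : ℝ => ((x ^ 2 / 2 : ℝ) : ℂ)) (x : ℂ) x := by
      have h3 : HasDerivAt (fun x : ℝ => x ^ 2 / 2) x x := by
        have := (hasDerivAt_pow 2 x).div_const 2
        refine this.congr_deriv ?_
        simp
      exact h3.ofReal_comp
    have := (((hasDerivAt_expI x).sub_const 1).sub h1).add h2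
    rw [one_mul] at this
    exact this.hasDerivWithinAt
  have hb : ∀ x ∈ Icc (-|y|) |y|, ‖I * exp (x * I) - I + x‖ ≤ |y| ^ 2 := by
    intro x hx
    have : I * exp (x * I) - I + x = I * (exp (x * I) - 1 - x * I) := by
      linear_combination (x : ℂ) * I_sq
    rw [this, norm_mul, norm_I, one_mul]
    refine (expI_two x).trans ?_
    rw [← sq_abs x]
    exact pow_le_pow_left₀ (abs_nonneg _) (abs_le.2 hx) 2
  have h0 : (0 : ℝ) ∈ Icc (-|y|) |y| := ⟨by simp, abs_nonneg _⟩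
  have hy : y ∈ Icc (-|y|) |y| := ⟨neg_abs_le y, le_abs_self y⟩
  have := (convex_Icc (-|y|) |y|).norm_image_sub_le_of_norm_hasDerivWithin_le hder hb h0 hy
  simp only [ofReal_zero, zero_mul, exp_zero, sub_self, sub_zero] at this
  rw [Real.norm_eq_abs] at this
  norm_num at this
  calc ‖exp (y * I) - 1 - y * I + ((y ^ 2 / 2 : ℝ) : ℂ)‖ ≤ |y| ^ 2 * |y| := by
        push_cast
        rw [sq_abs]
        simpa using this
    _ = |y| ^ 3 := by ring

/-! The smooth factor. -/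

/-- Quantitative data for a germ `p` with `p' 0 ≠ 0` on a small disc. -/
structure Smooth (p : ℂ → ℂ) (α K δ r₂ : ℝ) : Prop where
  α_pos : 0 < α
  K_nonneg : 0 ≤ K
  δ_pos : 0 < δ
  δ_le : δ ≤ 1 / 2
  r₂_pos : 0 < r₂
  Kr : K * r₂ ≤ δ * α
  diff : ∀ s : ℂ, ‖s‖ ≤ r₂ → HasDerivAt p (deriv p s) s
  diff2 : ∀ s : ℂ, ‖s‖ ≤ r₂ → HasDerivAt (deriv p) (deriv (deriv p) s) s
  bd2 : ∀ s : ℂ, ‖s‖ ≤ r₂ → ‖deriv (deriv p) s‖ ≤ K
  near0 : ∀ s : ℂ, ‖s‖ ≤ r₂ → |‖deriv p s‖ - α| ≤ δ * α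
  lip : ∀ s s' : ℂ, ‖s‖ ≤ r₂ → ‖s'‖ ≤ r₂ → ‖deriv p s' - deriv p s‖ ≤ K * ‖s' - s‖
  taylor : ∀ s s' : ℂ, ‖s‖ ≤ r₂ → ‖s'‖ ≤ r₂ →
    ‖p s' - p s - deriv p s * (s' - s)‖ ≤ K * ‖s' - s‖ ^ 2

theorem exists_smooth {p : ℂ → ℂ} {r : ℝ} (hr : 0 < r) (hp : DifferentiableOn ℂ p (ball 0 r))
    (hp0 : deriv p 0 ≠ 0) {δ : ℝ} (hδ : 0 < δ) (hδ1 : δ ≤ 1 / 2) :
    ∃ K r₂ : ℝ, r₂ < r ∧ Smooth p ‖deriv p 0‖ K δ r₂ := by
  have hp' : DifferentiableOn ℂ (deriv p) (ball 0 r) := hp.deriv isOpen_ball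
  have hp'' : DifferentiableOn ℂ (deriv (deriv p)) (ball 0 r) := hp'.deriv isOpen_ball
  have hsub : closedBall (0 : ℂ) (r / 2) ⊆ ball 0 r := closedBall_subset_ball (by linarith)
  obtain ⟨K, hK⟩ := (isCompact_closedBall (0 : ℂ) (r / 2)).exists_bound_of_continuousOn
    (hp''.continuousOn.mono hsub)
  have hK0 : 0 ≤ K := (norm_nonneg _).trans (hK 0 (by simp; positivity))
  have hα : 0 < ‖deriv p 0‖ := norm_pos_iff.2 hp0
  set α := ‖deriv p 0‖ with hαdef
  set r₂ : ℝ := min (r / 2) (δ * α / (K + 1)) with hr₂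
  have hr₂0 : 0 < r₂ := lt_min (by positivity) (by positivity)
  have hr₂r : r₂ ≤ r / 2 := min_le_left _ _
  have hmem : ∀ s : ℂ, ‖s‖ ≤ r₂ → s ∈ closedBall (0 : ℂ) (r / 2) := fun s hs => by
    rw [mem_closedBall_zero_iff]; linarith
  have hd1 : ∀ s ∈ ball (0 : ℂ) r, DifferentiableAt ℂ p s := fun s hs =>
    hp.differentiableAt (isOpen_ball.mem_nhds hs)
  have hd2 : ∀ s ∈ ball (0 : ℂ) r, DifferentiableAt ℂ (deriv p) s := fun s hs =>
    hp'.differentiableAt (isOpen_ball.mem_nhds hs)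
  have hKr : K * r₂ ≤ δ * α := by
    have h1 : r₂ ≤ δ * α / (K + 1) := min_le_right _ _
    calc K * r₂ ≤ (K + 1) * (δ * α / (K + 1)) := by gcongr; linarith
      _ = δ * α := by field_simp
  have hlip : ∀ s s' : ℂ, ‖s‖ ≤ r₂ → ‖s'‖ ≤ r₂ → ‖deriv p s' - deriv p s‖ ≤ K * ‖s' - s‖ := by
    intro s s' hs hs'
    exact (convex_closedBall (0 : ℂ) (r / 2)).norm_image_sub_le_of_norm_deriv_le
      (fun x hx => hd2 x (hsub hx)) (fun x hx => hK x hx) (hmem s hs) (hmem s' hs')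
  refine ⟨K, r₂, by linarith, hα, hK0, hδ, hδ1, hr₂0, hKr, ?_, ?_, ?_, ?_, hlip, ?_⟩
  · intro s hs
    exact (hd1 s (hsub (hmem s hs))).hasDerivAt
  · intro s hs
    exact (hd2 s (hsub (hmem s hs))).hasDerivAt
  · intro s hs
    exact hK s (hmem s hs)
  · intro s hs
    have h1 := hlip 0 s (by simpa using hr₂0.le) hs
    rw [sub_zero] at h1
    calc |‖deriv p s‖ - α| ≤ ‖deriv p s - deriv p 0‖ := abs_norm_sub_norm_le _ _
      _ ≤ K * ‖s‖ := h1
      _ ≤ K * r₂ := by gcongr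
      _ ≤ δ * α := hKr
  · intro s s' hs hs'
    have hseg : ∀ z ∈ segment ℝ s s', ‖z‖ ≤ r₂ := by
      intro z hz
      have := (convex_closedBall (0 : ℂ) r₂).segment_subset
        (mem_closedBall_zero_iff.2 hs) (mem_closedBall_zero_iff.2 hs') hz
      exact mem_closedBall_zero_iff.1 this
    have h1 := (convex_segment (𝕜 := ℝ) s s').norm_image_sub_le_of_norm_hasDerivWithin_le
      (f := fun z => p z - deriv p s * z) (f' := fun z => deriv p z - deriv p s)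
      (C := K * ‖s' - s‖)
      (fun z hz => by
        have e1 := (hd1 z (hsub (hmem z (hseg z hz)))).hasDerivAt
        have e2 : HasDerivAt (fun z => deriv p s * z) (deriv p s * 1) z :=
          (hasDerivAt_id z).const_mul _
        have e3 := e1.sub e2
        rw [mul_one] at e3
        exact e3.hasDerivWithinAt)
      (fun z hz => by
        refine (hlip s z hs (hseg z hz)).trans ?_
        gcongr
        exact norm_sub_le_of_mem_segment hz)
      (left_mem_segment ℝ s s') (right_mem_segment ℝ s s')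
    have e : p s' - p s - deriv p s * (s' - s) = p s' - deriv p s * s' - (p s - deriv p s * s) := by
      ring
    rw [e]
    refine h1.trans (le_of_eq ?_)
    ring

end Pool.Agent.MP_83fd13_an
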