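import Mathlib
import Pool.Agent.MP_83fd13_an.Ent5

namespace Pool.Agent.MP_83fd13_an

open Filter Set Complex Metric
open scoped Topology

/-- The derivative of `ζ ↦ p (exp (-ζ))`. -/
noncomputable def QQ (p : ℂ → ℂ) (ζ : ℂ) : ℂ := -(exp (-ζ) * deriv p (exp (-ζ)))

variable {p : ℂ → ℂ} {α K δ r₂ : ℝ}

theorem norm_exp_neg' (ζ : ℂ) : ‖exp (-ζ)‖ = Real.exp (-ζ.re) := by
  rw [norm_exp]; simp

theorem Smooth.QQ_lower (hS : Smooth p α K δ r₂) {ζ : ℂ} (hζ : Real.exp (-ζ.re) ≤ r₂) :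
    (1 - δ) * (α * Real.exp (-ζ.re)) ≤ ‖QQ p ζ‖ := by
  have h1 := (abs_le.1 (hS.near0 (exp (-ζ)) (by rw [norm_exp_neg']; exact hζ))).1
  rw [QQ, norm_neg, norm_mul, norm_exp_neg']
  have := Real.exp_pos (-ζ.re)
  nlinarith

theorem Smooth.QQ_upper (hS : Smooth p α K δ r₂) {ζ : ℂ} (hζ : Real.exp (-ζ.re) ≤ r₂) :
    ‖QQ p ζ‖ ≤ (1 + δ) * (α * Real.exp (-ζ.re)) := by
  have h1 := (abs_le.1 (hS.near0 (exp (-ζ)) (by rw [norm_exp_neg']; exact hζ))).2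
  rw [QQ, norm_neg, norm_mul, norm_exp_neg']
  have := Real.exp_pos (-ζ.re)
  nlinarith

theorem Smooth.QQ_pos (hS : Smooth p α K δ r₂) {ζ : ℂ} (hζ : Real.exp (-ζ.re) ≤ r₂) :
    0 < ‖QQ p ζ‖ := by
  refine lt_of_lt_of_le ?_ (hS.QQ_lower hζ)
  have := hS.α_pos
  have := hS.δ_le
  have := Real.exp_pos (-ζ.re)
  have : 0 < 1 - δ := by linarith
  positivity

theorem Smooth.QQ_ne (hS : Smooth p α K δ r₂) {ζ : ℂ} (hζ : Real.exp (-ζ.re) ≤ r₂) :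
    QQ p ζ ≠ 0 := norm_pos_iff.1 (hS.QQ_pos hζ)

/-- `K ‖s‖ ^ 2 ≤ 2 δ ‖QQ‖`. -/
theorem Smooth.K_sq (hS : Smooth p α K δ r₂) {ζ : ℂ} (hζ : Real.exp (-ζ.re) ≤ r₂) :
    K * Real.exp (-ζ.re) ^ 2 ≤ 2 * δ * ‖QQ p ζ‖ := by
  have h1 := hS.QQ_lower hζ
  have h2 := hS.Kr
  have h3 := hS.δ_le
  have h4 := hS.δ_pos
  have h5 := hS.α_pos
  have h6 := hS.K_nonneg
  have he := Real.exp_pos (-ζ.re)
  have h7 : K * Real.exp (-ζ.re) ≤ δ * α := (mul_le_mul_of_nonneg_left hζ h6).trans h2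
  calc K * Real.exp (-ζ.re) ^ 2 = (K * Real.exp (-ζ.re)) * Real.exp (-ζ.re) := by ring
    _ ≤ (δ * α) * Real.exp (-ζ.re) := by gcongr
    _ = 2 * δ * ((1 / 2) * (α * Real.exp (-ζ.re))) := by ring
    _ ≤ 2 * δ * ((1 - δ) * (α * Real.exp (-ζ.re))) := by gcongr; linarith
    _ ≤ 2 * δ * ‖QQ p ζ‖ := by gcongr

theorem re_add_I (ζ : ℂ) (θ : ℝ) : (ζ + θ * I).re = ζ.re := by simp

theorem Smooth.QQ_rot (hS : Smooth p α K δ r₂) {ζ : ℂ} (hζ : Real.exp (-ζ.re) ≤ r₂) (θ : ℝ) :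
    ∃ μ : ℂ, ‖μ‖ ≤ 2 * δ * |θ| ∧ QQ p (ζ + θ * I) = QQ p ζ * exp ((-θ : ℝ) * I) * (1 + μ) := by
  set s := exp (-ζ) with hs
  set s' := exp (-(ζ + θ * I)) with hs'
  have hsn : ‖s‖ = Real.exp (-ζ.re) := norm_exp_neg' ζ
  have hsn' : ‖s'‖ = Real.exp (-ζ.re) := by rw [hs', norm_exp_neg', re_add_I]
  have hss : s' = s * exp ((-θ : ℝ) * I) := by
    rw [hs, hs', ← exp_add]; congr 1; push_cast; ring
  have hs0 : ‖s‖ ≤ r₂ := by rw [hsn]; exact hζ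
  have hs0' : ‖s'‖ ≤ r₂ := by rw [hsn']; exact hζ
  have hQ := hS.QQ_ne hζ
  have hd : deriv p s ≠ 0 := by
    intro h; apply hQ; rw [QQ, ← hs, h]; simp
  have hdl : (1 / 2) * α ≤ ‖deriv p s‖ := by
    have h1 := (abs_le.1 (hS.near0 s hs0)).1
    have := hS.δ_le
    have := hS.α_pos
    nlinarith
  refine ⟨(deriv p s' - deriv p s) / deriv p s, ?_, ?_⟩
  · rw [norm_div, div_le_iff₀ (norm_pos_iff.2 hd)]
    have h1 := hS.lip s s' hs0 hs0'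
    have h2 : ‖s' - s‖ ≤ Real.exp (-ζ.re) * |θ| := by
      have e : s' - s = s * (exp ((-θ : ℝ) * I) - 1) := by rw [hss]; ring
      rw [e, norm_mul, hsn]
      have := expI_sub_one (-θ)
      rw [abs_neg] at this
      gcongr
    have hK := hS.K_nonneg
    have hd0 := hS.δ_pos
    calc ‖deriv p s' - deriv p s‖ ≤ K * ‖s' - s‖ := h1
      _ ≤ K * (Real.exp (-ζ.re) * |θ|) := by gcongr
      _ = (K * Real.exp (-ζ.re)) * |θ| := by ring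
      _ ≤ (K * r₂) * |θ| := by gcongr
      _ ≤ (δ * α) * |θ| := mul_le_mul_of_nonneg_right hS.Kr (abs_nonneg θ)
      _ = 2 * δ * |θ| * ((1 / 2) * α) := by ring
      _ ≤ 2 * δ * |θ| * ‖deriv p s‖ := by gcongr
  · rw [QQ, QQ, ← hs, ← hs', hss]
    field_simp
    ring_nf

theorem Smooth.smooth_part (hS : Smooth p α K δ r₂) {ζ : ℂ} (hζ : Real.exp (-ζ.re) ≤ r₂) (θ : ℝ) :
    ∃ E : ℂ, ‖E‖ ≤ 2 * δ * θ ^ 2 ∧
      p (exp (-(ζ + θ * I))) - p (exp (-ζ)) = -QQ p ζ * (exp ((-θ : ℝ) * I) - 1 + E) := by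
  set s := exp (-ζ) with hs
  set s' := exp (-(ζ + θ * I)) with hs'
  have hsn : ‖s‖ = Real.exp (-ζ.re) := norm_exp_neg' ζ
  have hsn' : ‖s'‖ = Real.exp (-ζ.re) := by rw [hs', norm_exp_neg', re_add_I]
  have hss : s' = s * exp ((-θ : ℝ) * I) := by
    rw [hs, hs', ← exp_add]; congr 1; push_cast; ring
  have hs0 : ‖s‖ ≤ r₂ := by rw [hsn]; exact hζ
  have hs0' : ‖s'‖ ≤ r₂ := by rw [hsn']; exact hζ
  have hQ := hS.QQ_ne hζ
  refine ⟨-(p s' - p s - deriv p s * (s' - s)) / QQ p ζ, ?_, ?_⟩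
  · rw [norm_div, norm_neg, div_le_iff₀ (norm_pos_iff.2 hQ)]
    have h1 := hS.taylor s s' hs0 hs0'
    have h2 : ‖s' - s‖ ≤ Real.exp (-ζ.re) * |θ| := by
      have e : s' - s = s * (exp ((-θ : ℝ) * I) - 1) := by rw [hss]; ring
      rw [e, norm_mul, hsn]
      have := expI_sub_one (-θ)
      rw [abs_neg] at this
      gcongr
    have hK := hS.K_nonneg
    calc ‖p s' - p s - deriv p s * (s' - s)‖ ≤ K * ‖s' - s‖ ^ 2 := h1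
      _ ≤ K * (Real.exp (-ζ.re) * |θ|) ^ 2 := by gcongr
      _ = (K * Real.exp (-ζ.re) ^ 2) * θ ^ 2 := by rw [mul_pow, sq_abs]; ring
      _ ≤ (2 * δ * ‖QQ p ζ‖) * θ ^ 2 := by
          have := hS.K_sq hζ
          gcongr
      _ = 2 * δ * θ ^ 2 * ‖QQ p ζ‖ := by ring
  · have e1 : -QQ p ζ * (exp ((-θ : ℝ) * I) - 1 + -(p s' - p s - deriv p s * (s' - s)) / QQ p ζ)
        = -QQ p ζ * (exp ((-θ : ℝ) * I) - 1) + (p s' - p s - deriv p s * (s' - s)) := by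
      field_simp
      ring
    rw [e1, QQ, ← hs, hss]
    ring

theorem Smooth.hasDerivAt_QQ (hS : Smooth p α K δ r₂) {ζ : ℂ} (hζ : Real.exp (-ζ.re) ≤ r₂) :
    ∃ ν : ℂ, ‖ν‖ ≤ 2 * δ * ‖QQ p ζ‖ ∧ HasDerivAt (QQ p) (-QQ p ζ + ν) ζ := by
  have hs0 : ‖exp (-ζ)‖ ≤ r₂ := by rw [norm_exp_neg']; exact hζ
  refine ⟨exp (-ζ) * exp (-ζ) * deriv (deriv p) (exp (-ζ)), ?_, ?_⟩
  · rw [norm_mul, norm_mul, norm_exp_neg']
    have h1 := hS.bd2 _ hs0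
    have h2 := hS.K_sq hζ
    calc Real.exp (-ζ.re) * Real.exp (-ζ.re) * ‖deriv (deriv p) (exp (-ζ))‖
        ≤ Real.exp (-ζ.re) * Real.exp (-ζ.re) * K := by gcongr
      _ = K * Real.exp (-ζ.re) ^ 2 := by ring
      _ ≤ _ := h2
  · have h1 : HasDerivAt (fun z : ℂ => exp (-z)) (exp (-ζ) * (-1)) ζ :=
      ((hasDerivAt_id ζ).neg).cexp
    have h2 := (hS.diff2 _ hs0).comp ζ h1
    have h3 := (h1.mul h2).neg
    refine h3.congr_deriv ?_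
    rw [QQ]
    simp only [Function.comp]
    ring

/-- Comparison of the two quotients coming from the large factor. -/
theorem large_part {a c₁ c₂ θ : ℝ} (ha : 0 < a) (hc₁0 : 0 ≤ c₁) (hc₁ : c₁ ≤ 1 / 100)
    (hc₂ : 0 ≤ c₂) {h h1 : ℂ} (b1 : ‖h1‖ ≤ c₁ * a) (b2 : ‖h‖ ≤ c₁ * a * |θ|)
    (b3 : ‖h - h1 * (θ * I)‖ ≤ c₂ * a ^ 2 * θ ^ 2) :
    ‖(exp ((a * θ : ℝ) * I) * (1 + h) - 1) / (a + h1) - (exp ((a * θ : ℝ) * I) - 1) / a‖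
      ≤ (3 * c₁ + 2 * c₂) * a * θ ^ 2 := by
  have haC : (a : ℂ) ≠ 0 := by exact_mod_cast ha.ne'
  have hlow : 99 / 100 * a ≤ ‖(a : ℂ) + h1‖ := by
    have h2 : ‖(a : ℂ)‖ - ‖h1‖ ≤ ‖(a : ℂ) + h1‖ := norm_sub_le_norm_add _ _
    rw [norm_real, Real.norm_eq_abs, abs_of_pos ha] at h2
    nlinarith
  have hne : (a : ℂ) + h1 ≠ 0 := by
    rw [← norm_pos_iff]; refine lt_of_lt_of_le ?_ hlow; positivity
  set z : ℂ := ((a * θ : ℝ) : ℂ) * I with hz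
  set c : ℂ := a / (a + h1) with hc
  have hcn : ‖c‖ ≤ 102 / 100 := by
    rw [hc, norm_div, norm_real, Real.norm_eq_abs, abs_of_pos ha,
      div_le_iff₀ (norm_pos_iff.2 hne)]
    nlinarith
  have hc1 : ‖c - 1‖ ≤ 102 / 100 * c₁ := by
    have e : c - 1 = -h1 / (a + h1) := by rw [hc]; field_simp; ring
    rw [e, norm_div, norm_neg, div_le_iff₀ (norm_pos_iff.2 hne)]
    refine b1.trans ?_
    nlinarith [mul_nonneg hc₁0 ha.le]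
  set ρ1 : ℂ := exp z - 1 - z with hρ1
  set ρ2 : ℂ := h - h1 * (θ * I) with hρ2
  have hρ1n : ‖ρ1‖ ≤ (a * θ) ^ 2 := expI_two (a * θ)
  have key : (exp z * (1 + h) - 1) / (a + h1) - (exp z - 1) / a
      = ((c - 1) * ρ1 + c * ρ2 + c * (exp z - 1) * h) / a := by
    have e1 : (1 : ℂ) / (a + h1) = c / a := by rw [hc]; field_simp
    have e2 : (exp z * (1 + h) - 1) / (a + h1) = (exp z * (1 + h) - 1) * (c / a) := by
      rw [← e1]; ring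
    have e3 : c * (a + h1) = a := by rw [hc]; field_simp
    rw [e2, eq_div_iff haC, sub_mul, div_mul_cancel₀ _ haC, mul_assoc, div_mul_cancel₀ _ haC]
    have ez : z = a * (θ * I) := by rw [hz]; push_cast; ring
    rw [hρ1, hρ2]
    linear_combination (θ * I) * e3 + (c - 1) * ez
  rw [key, norm_div, norm_real, Real.norm_eq_abs, abs_of_pos ha, div_le_iff₀ ha]
  have t1 : ‖(c - 1) * ρ1‖ ≤ 102 / 100 * c₁ * (a * θ) ^ 2 := by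
    rw [norm_mul]; gcongr
  have t2 : ‖c * ρ2‖ ≤ 102 / 100 * (c₂ * a ^ 2 * θ ^ 2) := by
    rw [norm_mul]; gcongr
  have t3 : ‖c * (exp z - 1) * h‖ ≤ 102 / 100 * (a * |θ|) * (c₁ * a * |θ|) := by
    rw [norm_mul, norm_mul]
    have e : ‖exp z - 1‖ ≤ a * |θ| := by
      have := expI_sub_one (a * θ)
      rwa [abs_mul, abs_of_pos ha] at this
    gcongr
  have e4 : 102 / 100 * (a * |θ|) * (c₁ * a * |θ|) = 102 / 100 * c₁ * (a * θ) ^ 2 := by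
    rw [mul_pow, ← sq_abs θ]; ring
  rw [e4] at t3
  have h5 : 0 ≤ c₁ * (a * θ) ^ 2 := by positivity
  have h6 : 0 ≤ c₂ * (a * θ) ^ 2 := by positivity
  calc ‖(c - 1) * ρ1 + c * ρ2 + c * (exp z - 1) * h‖
      ≤ ‖(c - 1) * ρ1‖ + ‖c * ρ2‖ + ‖c * (exp z - 1) * h‖ := norm_add₃_le
    _ ≤ 102 / 100 * c₁ * (a * θ) ^ 2 + 102 / 100 * (c₂ * a ^ 2 * θ ^ 2)
        + 102 / 100 * c₁ * (a * θ) ^ 2 := by linarith
    _ ≤ (3 * c₁ + 2 * c₂) * (a * θ) ^ 2 := by nlinarith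
    _ = (3 * c₁ + 2 * c₂) * a * θ ^ 2 * a := by ring

end Pool.Agent.MP_83fd13_an
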