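import Mathlib
import Pool.Agent.MP_83fd13_an.Ent2
import Pool.Agent.MP_83fd13_an.Ent4
import Pool.Agent.MP_83fd13_an.Ent6

namespace Pool.Agent.MP_83fd13_an

open Filter Set Complex Metric
open scoped Topology

variable {g : ℂ → ℂ} {x0 : ℝ} {x a : ℝ}

/-- The radius condition used below. -/
structure Good (g : ℂ → ℂ) (x0 x a : ℝ) : Prop where
  ha : 1000 ≤ a
  hx : x0 < x - 16 / a
  hw : ∀ h, |h| ≤ 16 / a → Real.log (MM g (x + h)) ≤ Real.log (MM g x) + a * h + 1 / 100000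

theorem Good.apos (hG : Good g x0 x a) : 0 < a := by linarith [hG.ha]

theorem Good.x0lt (hG : Good g x0 x a) : x0 < x := by
  have := hG.hx
  have h2 : 0 < 16 / a := by have := hG.apos; positivity
  linarith

theorem Good.window (hG : Good g x0 x a) (hg : DifferentiableOn ℂ g (HP x0))
    (hper : ∀ ζ, g (ζ + 2 * Real.pi * I) = g ζ) (hpos : ∀ x, x0 < x → 0 < MM g x)
    {ζ : ℂ} (hζ : ζ.re = x) {σ : ℂ} (hσ : ‖σ‖ < 16 / a) :
    ‖g (ζ + σ)‖ ≤ (1 + 2 / 100000) * MM g x * Real.exp (a * σ.re) := by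
  have h1 : |σ.re| ≤ 16 / a := (abs_re_le_norm σ).trans hσ.le
  have hre : (ζ + σ).re = x + σ.re := by rw [add_re, hζ]
  have hlt : x0 < (ζ + σ).re := by
    rw [hre]
    have := (abs_le.1 h1).1
    have := hG.hx
    linarith
  refine (norm_le_MM hg hper hlt).trans ?_
  rw [hre] at hlt ⊢
  have h2 := hG.hw σ.re h1
  have hM := hpos x hG.x0lt
  have hM' := hpos _ hlt
  have h3 : MM g (x + σ.re) ≤ Real.exp (Real.log (MM g x) + a * σ.re + 1 / 100000) := by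
    rw [← Real.log_le_iff_le_exp hM']; exact h2
  rw [Real.exp_add, Real.exp_add, Real.exp_log hM] at h3
  have h4 : Real.exp (1 / 100000) ≤ 1 + 2 / 100000 := by
    have := Real.abs_exp_sub_one_le (x := 1 / 100000) (by norm_num [abs_of_pos])
    rw [abs_of_pos (by norm_num : (0:ℝ) < 1 / 100000)] at this
    have := (abs_le.1 this).2
    linarith
  calc MM g (x + σ.re) ≤ MM g x * Real.exp (a * σ.re) * Real.exp (1 / 100000) := h3
    _ ≤ MM g x * Real.exp (a * σ.re) * (1 + 2 / 100000) := by gcongr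
    _ = _ := by ring

theorem Good.near_max (hG : Good g x0 x a) (hg : DifferentiableOn ℂ g (HP x0))
    (hper : ∀ ζ, g (ζ + 2 * Real.pi * I) = g ζ) (hpos : ∀ x, x0 < x → 0 < MM g x)
    {ζ₁ : ℂ} (hζ : ζ₁.re = x) {η : ℝ} (hη0 : 0 ≤ η) (hη1 : η ≤ 1 / 10)
    (hM : MM g x ≤ (1 + η) * ‖g ζ₁‖) :
    ∃ h : ℂ → ℂ, ∃ h1 : ℂ, HasDerivAt g (g ζ₁ * (a + h1)) ζ₁ ∧
      (∀ θ : ℝ, |θ| < 8 / a →
        g (ζ₁ + θ * I) = g ζ₁ * exp ((a * θ : ℝ) * I) * (1 + h (θ * I))) ∧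
      ‖h1‖ ≤ (η + 3 / 100000) / 4 * a ∧
      (∀ θ : ℝ, |θ| < 8 / a → ‖h (θ * I)‖ ≤ (η + 3 / 100000) / 4 * a * |θ|) ∧
      (∀ θ : ℝ, |θ| < 8 / a →
        ‖h (θ * I) - h1 * (θ * I)‖ ≤ (η + 3 / 100000) / 16 * a ^ 2 * θ ^ 2) := by
  have ha := hG.apos
  have hMp := hpos x hG.x0lt
  have hg0 : g ζ₁ ≠ 0 := by
    intro h
    rw [h, norm_zero, mul_zero] at hM
    linarith
  have hball : ball ζ₁ (16 / a) ⊆ HP x0 := by
    intro z hz
    rw [mem_ball, dist_eq_norm] at hz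
    have h1 := (abs_re_le_norm (z - ζ₁)).trans hz.le
    rw [sub_re, hζ] at h1
    have := (abs_le.1 h1).1
    have := hG.hx
    show x0 < z.re
    linarith
  have hb : ∀ σ : ℂ, ‖σ‖ < 16 / a →
      ‖g (ζ₁ + σ)‖ ≤ (1 + (η + 3 / 100000)) * ‖g ζ₁‖ * Real.exp (a * σ.re) := by
    intro σ hσ
    refine (hG.window hg hper hpos hζ hσ).trans ?_
    have h1 : (1 + 2 / 100000) * MM g x ≤ (1 + (η + 3 / 100000)) * ‖g ζ₁‖ := by
      calc (1 + 2 / 100000) * MM g x ≤ (1 + 2 / 100000) * ((1 + η) * ‖g ζ₁‖) := by gcongr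
        _ = ((1 + 2 / 100000) * (1 + η)) * ‖g ζ₁‖ := by ring
        _ ≤ (1 + (η + 3 / 100000)) * ‖g ζ₁‖ := by gcongr; nlinarith
    gcongr
  obtain ⟨h, h1, d1, d2, d3, d4, d5⟩ := local_h (l := 16 / a) (a := a) (e := η + 3 / 100000)
    (by positivity) (by positivity) (hg.mono hball) hg0 hb
  have hn : ∀ θ : ℝ, ‖(θ : ℂ) * I‖ = |θ| := fun θ => by
    rw [norm_mul, norm_I, mul_one, norm_real, Real.norm_eq_abs]
  have e0 : 16 / a / 2 = 8 / a := by ring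
  refine ⟨h, h1, d1, ?_, ?_, ?_, ?_⟩
  · intro θ hθ
    have := d2 (θ * I) (by
      rw [hn]
      have : 8 / a ≤ 16 / a := by gcongr; norm_num
      linarith)
    rw [this]
    congr 3
    push_cast
    ring
  · refine d3.trans (le_of_eq ?_)
    field_simp
    ring
  · intro θ hθ
    have := d4 (θ * I) (by rw [hn, e0]; exact hθ)
    rw [hn] at this
    refine this.trans (le_of_eq ?_)
    field_simp
    ring
  · intro θ hθ
    have := d5 (θ * I) (by rw [hn, e0]; exact hθ)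
    rw [hn, sq_abs] at this
    refine this.trans (le_of_eq ?_)
    field_simp

theorem exists_sqrt {B : ℂ} {κ : ℝ} (hre : 0 < B.re) (him : |B.im| ≤ κ * ‖B‖) :
    ∃ E : ℂ, E ^ 2 = B ∧ 0 < E.re ∧ |E.im| ≤ κ * ‖E‖ ∧ (1 - κ) * ‖E‖ ≤ E.re := by
  obtain ⟨E₀, hE₀⟩ := IsAlgClosed.exists_pow_nat_eq B (n := 2) (by norm_num)
  obtain ⟨E, hE, hEre⟩ : ∃ E : ℂ, E ^ 2 = B ∧ 0 ≤ E.re := by
    rcases le_total 0 E₀.re with h | h
    · exact ⟨E₀, hE₀, h⟩
    · exact ⟨-E₀, by rw [neg_sq, hE₀], by simpa using h⟩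
  have e1 : B.re = E.re ^ 2 - E.im ^ 2 := by rw [← hE, sq E, mul_re]; ring
  have e2 : B.im = 2 * E.re * E.im := by rw [← hE, sq E, mul_im]; ring
  have e3 : ‖B‖ = ‖E‖ ^ 2 := by rw [← hE, norm_pow]
  have e4 : ‖E‖ ^ 2 = E.re ^ 2 + E.im ^ 2 := by
    rw [← normSq_eq_norm_sq, normSq_apply]; ring
  have hEpos : 0 < E.re := by
    rcases hEre.lt_or_eq with h | h
    · exact h
    · exfalso; rw [← h] at e1; nlinarith [sq_nonneg E.im]
  have hEn : 0 < ‖E‖ := norm_pos_iff.2 (fun h => by rw [h] at hEpos; simp at hEpos)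
  have h5 : ‖E‖ ≤ 2 * E.re := by
    by_contra hcon
    push Not at hcon
    have : (2 * E.re) ^ 2 < ‖E‖ ^ 2 := pow_lt_pow_left₀ hcon (by positivity) (by norm_num)
    nlinarith [sq_nonneg E.im]
  have him' : |E.im| ≤ κ * ‖E‖ := by
    have h6 : |B.im| = 2 * E.re * |E.im| := by
      rw [e2, abs_mul, abs_of_pos (by positivity : 0 < 2 * E.re)]
    rw [h6, e3] at him
    have h7 : ‖E‖ * |E.im| ≤ 2 * E.re * |E.im| := by gcongr
    have h8 : ‖E‖ * |E.im| ≤ ‖E‖ * (κ * ‖E‖) := by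
      calc ‖E‖ * |E.im| ≤ κ * ‖E‖ ^ 2 := h7.trans him
        _ = ‖E‖ * (κ * ‖E‖) := by ring
    exact le_of_mul_le_mul_left h8 hEn
  refine ⟨E, hE, hEpos, him', ?_⟩
  have h9 : ‖E‖ ≤ |E.re| + |E.im| := norm_le_abs_re_add_abs_im E
  rw [abs_of_pos hEpos] at h9
  linarith

variable {p : ℂ → ℂ} {α K r₂ : ℝ}

theorem QQ_per (p : ℂ → ℂ) (ζ : ℂ) : QQ p (ζ + 2 * Real.pi * I) = QQ p ζ := by
  have : exp (-(ζ + 2 * Real.pi * I)) = exp (-ζ) := by
    rw [neg_add, exp_add, exp_neg (2 * Real.pi * I), exp_two_pi_mul_I]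
    simp
  rw [QQ, QQ, this]

/-- The choice of the base point `ζ₁`. -/
theorem choose_point (hG : Good g x0 x a) (hg : DifferentiableOn ℂ g (HP x0))
    (hper : ∀ ζ, g (ζ + 2 * Real.pi * I) = g ζ) (hpos : ∀ x, x0 < x → 0 < MM g x)
    (hS : Smooth p α K (1 / 100000) r₂) (hxr : Real.exp (-x) ≤ r₂) :
    ∃ y₁ : ℝ, (∀ y : ℝ, (g (x + y * I) * QQ p (x + y * I)).re
        ≤ (g (x + y₁ * I) * QQ p (x + y₁ * I)).re) ∧
      (1 - 1 / 10000) * ((1 + 1 / 100000) * (α * Real.exp (-x)) * MM g x)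
        ≤ (g (x + y₁ * I) * QQ p (x + y₁ * I)).re := by
  have ha := hG.ha
  have hap := hG.apos
  have hMp := hpos x hG.x0lt
  have hαp := hS.α_pos
  have hre : ∀ y : ℝ, ((x : ℂ) + y * I).re = x := fun y => by simp
  have hζr : ∀ y : ℝ, Real.exp (-((x : ℂ) + y * I).re) ≤ r₂ := fun y => by rw [hre]; exact hxr
  obtain ⟨y₀, hy₀, _⟩ := exists_MM hg hper hG.x0lt
  set ζ₀ : ℂ := x + y₀ * I with hζ₀
  obtain ⟨h, h1, -, e2, -, e4, -⟩ := hG.near_max hg hper hpos (ζ₁ := ζ₀) (hre y₀) (η := 0) le_rfl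
    (by norm_num) (by rw [← hy₀]; simp)
  -- maximum
  have hcont : Continuous fun y : ℝ => (g (x + y * I) * QQ p (x + y * I)).re := by
    apply continuous_re.comp
    apply (continuous_line hg hG.x0lt).mul
    rw [continuous_iff_continuousAt]
    intro y
    obtain ⟨ν, _, hν⟩ := hS.hasDerivAt_QQ (hζr y)
    exact ContinuousAt.comp (g := QQ p) (f := fun y : ℝ => (x : ℂ) + y * I) hν.continuousAt
      (by fun_prop)
  obtain ⟨y₁, hy₁⟩ := exists_max_periodic hcont (fun y => by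
    have e1 : (x : ℂ) + (y + 2 * Real.pi : ℝ) * I = (x + y * I) + 2 * Real.pi * I := by
      push_cast; ring
    rw [e1, hper, QQ_per])
  refine ⟨y₁, hy₁, ?_⟩
  -- lower bound
  set v₀ : ℂ := g ζ₀ * QQ p ζ₀ with hv₀
  set θ₀ : ℝ := -arg v₀ / (a - 1) with hθ₀
  have ha1 : 0 < a - 1 := by linarith
  have hθ₀b : |θ₀| ≤ 4 / a := by
    rw [hθ₀, abs_div, abs_neg, abs_of_pos ha1, div_le_div_iff₀ ha1 hap]
    have h2 := abs_arg_le_pi v₀
    have h3 := Real.pi_lt_d2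
    nlinarith
  have hθ₀b' : |θ₀| < 8 / a := by
    refine hθ₀b.trans_lt ?_
    gcongr
    norm_num
  obtain ⟨μ, hμ, hμe⟩ := hS.QQ_rot (hζr y₀) θ₀
  have hval : g (ζ₀ + θ₀ * I) * QQ p (ζ₀ + θ₀ * I) = (‖v₀‖ : ℂ) * ((1 + h (θ₀ * I)) * (1 + μ)) := by
    rw [e2 θ₀ hθ₀b', hμe]
    have e6 : exp ((a * θ₀ : ℝ) * I) * exp ((-θ₀ : ℝ) * I) = exp (-(arg v₀ * I)) := by
      rw [← exp_add]
      congr 1
      have : ((a : ℂ) - 1) ≠ 0 := by
        have : ((a - 1 : ℝ) : ℂ) ≠ 0 := by exact_mod_cast ha1.ne'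
        simpa using this
      rw [hθ₀]
      push_cast
      field_simp
      ring
    have e7 : v₀ * exp (-(arg v₀ * I)) = ‖v₀‖ := by
      calc v₀ * exp (-(arg v₀ * I)) = (‖v₀‖ * exp (arg v₀ * I)) * exp (-(arg v₀ * I)) := by
            rw [norm_mul_exp_arg_mul_I]
        _ = ‖v₀‖ := by rw [mul_assoc, ← exp_add, add_neg_cancel, exp_zero, mul_one]
    calc g ζ₀ * exp ((a * θ₀ : ℝ) * I) * (1 + h (θ₀ * I)) * (QQ p ζ₀ * exp ((-θ₀ : ℝ) * I) * (1 + μ))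
        = (v₀ * (exp ((a * θ₀ : ℝ) * I) * exp ((-θ₀ : ℝ) * I))) * ((1 + h (θ₀ * I)) * (1 + μ)) := by
          rw [hv₀]; ring
      _ = _ := by rw [e6, e7]
  have hval2 : (1 - 5 / 100000) * ‖v₀‖ ≤ (g (ζ₀ + θ₀ * I) * QQ p (ζ₀ + θ₀ * I)).re := by
    rw [hval, re_ofReal_mul, mul_comm]
    apply mul_le_mul_of_nonneg_left _ (norm_nonneg _)
    have b1 : ‖h (θ₀ * I)‖ ≤ 3 / 100000 := by
      refine (e4 θ₀ hθ₀b').trans ?_
      calc (0 + 3 / 100000) / 4 * a * |θ₀| ≤ (0 + 3 / 100000) / 4 * a * (4 / a) := by gcongr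
        _ = 3 / 100000 := by field_simp; ring
    have b2 : ‖μ‖ ≤ 1 / 100000 := by
      refine hμ.trans ?_
      have : |θ₀| ≤ 4 / 1000 := hθ₀b.trans (by gcongr)
      nlinarith
    have b3 : |((1 + h (θ₀ * I)) * (1 + μ) - 1).re| ≤ 5 / 100000 := by
      refine (abs_re_le_norm _).trans ?_
      have e8 : (1 + h (θ₀ * I)) * (1 + μ) - 1 = h (θ₀ * I) + μ + h (θ₀ * I) * μ := by ring
      rw [e8]
      have h8 : ‖h (θ₀ * I) * μ‖ ≤ 3 / 100000 * (1 / 100000) := by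
        rw [norm_mul]; gcongr
      have := norm_add₃_le (a := h (θ₀ * I)) (b := μ) (c := h (θ₀ * I) * μ)
      linarith
    have := (abs_le.1 b3).1
    rw [sub_re, one_re] at this
    linarith
  have hv₀n : (1 - 1 / 100000) * (α * Real.exp (-x)) * MM g x ≤ ‖v₀‖ := by
    rw [hv₀, norm_mul, hy₀, mul_comm]
    have := hS.QQ_lower (hζr y₀)
    rw [hre] at this
    gcongr
  have hmax := hy₁ (y₀ + θ₀)
  have e9 : (x : ℂ) + (y₀ + θ₀ : ℝ) * I = ζ₀ + θ₀ * I := by rw [hζ₀]; push_cast; ring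
  rw [e9] at hmax
  refine le_trans ?_ hmax
  refine le_trans ?_ hval2
  have hP : 0 ≤ (α * Real.exp (-x)) * MM g x := by positivity
  have h10 : (1 - 5 / 100000) * ((1 - 1 / 100000) * (α * Real.exp (-x)) * MM g x)
      ≤ (1 - 5 / 100000) * ‖v₀‖ := by
    apply mul_le_mul_of_nonneg_left hv₀n (by norm_num)
  refine le_trans ?_ h10
  nlinarith

end Pool.Agent.MP_83fd13_an
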