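import Mathlib
import Pool.Agent.MP_83fd13_an.Ent5

namespace Pool.Agent.MP_83fd13_an

open Filter Set Complex Metric
open scoped Topology

theorem one_sub_cos_ge {x : ℝ} (hx : |x| ≤ Real.pi) : x ^ 2 / 5 ≤ 1 - Real.cos x := by
  have h1 := Real.cos_le_one_sub_mul_cos_sq hx
  have h2 : (1 / 5 : ℝ) ≤ 2 / Real.pi ^ 2 := by
    rw [div_le_div_iff₀ (by norm_num) (by positivity)]
    have := Real.pi_lt_d2
    have := Real.pi_pos
    nlinarith
  nlinarith [sq_nonneg x]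

theorem one_sub_cos_ge' {x : ℝ} (hx : |x| ≤ 1) : 447 / 1000 * x ^ 2 ≤ 1 - Real.cos x := by
  have h1 := (abs_le.1 (Real.cos_bound hx)).2
  have h2 : |x| ^ 4 ≤ x ^ 2 := by
    rw [← sq_abs x]
    exact pow_le_pow_of_le_one (abs_nonneg _) hx (by norm_num)
  nlinarith

theorem expI_re (θ : ℝ) : (exp (θ * I)).re = Real.cos θ := exp_ofReal_mul_I_re θ
theorem expI_im (θ : ℝ) : (exp (θ * I)).im = Real.sin θ := exp_ofReal_mul_I_im θ

/-- The estimate away from the base point. -/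
theorem far_alg {E v₁ vθ μ e : ℂ} {a X V θ : ℝ} (ha : 1000 ≤ a) (hX : 0 < X) (hV : 0 < V)
    (hE : 0 < ‖E‖) (hre : (1 - 1 / (60 * a)) * ‖E‖ ≤ E.re) (him : |E.im| ≤ 1 / (60 * a) * ‖E‖)
    (hXV : X * V * (99 / 100 * a) ≤ ‖E‖ ^ 2)
    (hq : (1 - 1 / 10000) * V ≤ v₁.re) (hvq : vθ.re ≤ v₁.re) (hv₁ : ‖v₁‖ ≤ V) (hvθ : ‖vθ‖ ≤ V)
    (h3 : 3 / a ≤ |θ|) (hpi : |θ| ≤ Real.pi)
    (hμ : ‖μ‖ ≤ 2 / 100000 * |θ|) (he : ‖e‖ ≤ 2 / 100000 * θ ^ 2) :
    (E * (exp ((-θ : ℝ) * I) - 1 + e) + (X / E) * (vθ * exp (θ * I) * (1 + μ) - v₁)).re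
      ≤ -(‖E‖ / (2 * a ^ 2)) := by
  have hap : 0 < a := by linarith
  set κ : ℝ := 1 / (60 * a) with hκ
  have hκ0 : 0 < κ := by positivity
  have hκ1 : κ ≤ 1 / 60000 := by rw [hκ]; gcongr; linarith
  set N := ‖E‖ with hN
  have hθ0 : 0 < |θ| := lt_of_lt_of_le (by positivity) h3
  have hinv : 1 / a ≤ |θ| / 3 := by
    rw [div_le_div_iff₀ hap (by norm_num)]
    rw [div_le_iff₀ hap] at h3
    linarith
  have hκθ : κ ≤ |θ| / 180 := by
    have : κ = (1 / 60) * (1 / a) := by rw [hκ]; field_simp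
    rw [this]; linarith
  have hEre0 : 0 ≤ E.re := le_trans (by have : 0 ≤ 1 - κ := by linarith
                                        positivity) hre
  have hEreN : E.re ≤ N := re_le_norm E
  -- part 1
  have p1 : (E * (exp ((-θ : ℝ) * I) - 1)).re ≤ -((1 - κ) * N * (1 - Real.cos θ)) + κ * N * |θ| := by
    rw [mul_re, sub_re, sub_im, expI_re, expI_im, Real.cos_neg, Real.sin_neg, one_re, one_im,
      sub_zero]
    have h1 : 0 ≤ 1 - Real.cos θ := by linarith [Real.cos_le_one θ]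
    have h2 : E.im * Real.sin θ ≤ κ * N * |θ| := by
      calc E.im * Real.sin θ ≤ |E.im * Real.sin θ| := le_abs_self _
        _ = |E.im| * |Real.sin θ| := abs_mul _ _
        _ ≤ (κ * N) * |θ| := by
          have := Real.abs_sin_le_abs (x := θ)
          gcongr
    have h3 : (1 - κ) * N * (1 - Real.cos θ) ≤ E.re * (1 - Real.cos θ) := by gcongr
    linarith
  -- part 2
  have p2 : (E * e).re ≤ N * (2 / 100000 * θ ^ 2) := by
    refine (re_le_norm _).trans ?_
    rw [norm_mul]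
    gcongr
  -- part 3
  set z : ℂ := vθ * exp (θ * I) * (1 + μ) - v₁ with hz
  have hu : ‖exp (θ * I)‖ = 1 := norm_exp_ofReal_mul_I θ
  have hzz : z = (vθ * exp (θ * I) - v₁) + vθ * exp (θ * I) * μ := by rw [hz]; ring
  have hμ' : ‖vθ * exp (θ * I) * μ‖ ≤ V * (2 / 100000 * |θ|) := by
    rw [norm_mul, norm_mul, hu, mul_one]
    gcongr
  have hpi4 : |θ| ≤ 4 := hpi.trans Real.pi_le_four
  have hzre : z.re ≤ |θ| * V * (1 + 2 / 100000) := by
    have h1 : (vθ * exp (θ * I)).re ≤ v₁.re + |θ| * V := by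
      rw [mul_re, expI_re, expI_im]
      rcases le_or_gt |θ| 1 with h | h
      · have hc : 0 ≤ Real.cos θ := by
          have := Real.one_sub_sq_div_two_le_cos (x := θ)
          have h2 : θ ^ 2 ≤ 1 := by rw [← sq_abs]; exact pow_le_one₀ (abs_nonneg _) h
          linarith
        have hc1 := Real.cos_le_one θ
        have hq0 : 0 ≤ v₁.re := le_trans (by positivity) hq
        have h3 : vθ.re * Real.cos θ ≤ v₁.re := by
          calc vθ.re * Real.cos θ ≤ v₁.re * Real.cos θ := by gcongr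
            _ ≤ v₁.re * 1 := by gcongr
            _ = v₁.re := mul_one _
        have h4 : -(vθ.im * Real.sin θ) ≤ |θ| * V := by
          calc -(vθ.im * Real.sin θ) ≤ |vθ.im * Real.sin θ| := neg_le_abs _
            _ = |vθ.im| * |Real.sin θ| := abs_mul _ _
            _ ≤ V * |θ| := by
              have h5 := Real.abs_sin_le_abs (x := θ)
              have h6 := (abs_im_le_norm vθ).trans hvθ
              gcongr
            _ = |θ| * V := mul_comm _ _
        linarith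
      · have h3 : vθ.re * Real.cos θ - vθ.im * Real.sin θ ≤ V := by
          have h5 : vθ.re * Real.cos θ - vθ.im * Real.sin θ = (vθ * exp (θ * I)).re := by
            rw [mul_re, expI_re, expI_im]
          rw [h5]
          refine (re_le_norm _).trans ?_
          rw [norm_mul, hu, mul_one]
          exact hvθ
        have hq0 : 0 ≤ v₁.re := le_trans (by positivity) hq
        have h6 : V ≤ |θ| * V := le_mul_of_one_le_left hV.le h.le
        linarith
    have h2 : (vθ * exp (θ * I) * μ).re ≤ V * (2 / 100000 * |θ|) := (re_le_norm _).trans hμ'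
    rw [hzz, add_re, sub_re]
    linarith
  have hzim : |z.im| ≤ 3 * V := by
    refine (abs_im_le_norm z).trans ?_
    rw [hzz]
    have h1 : ‖vθ * exp (θ * I)‖ ≤ V := by rw [norm_mul, hu, mul_one]; exact hvθ
    calc ‖(vθ * exp (θ * I) - v₁) + vθ * exp (θ * I) * μ‖
        ≤ (‖vθ * exp (θ * I)‖ + ‖v₁‖) + ‖vθ * exp (θ * I) * μ‖ :=
          (norm_add_le _ _).trans (add_le_add (norm_sub_le _ _) le_rfl)
      _ ≤ (V + V) + V * (2 / 100000 * |θ|) := by gcongr
      _ ≤ 3 * V := by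
        have h7 : V * (2 / 100000 * |θ|) ≤ V * 1 := by gcongr; linarith
        linarith
  have p3 : ((X / E) * z).re ≤ N / a * |θ| * (103 / 100) := by
    have hE0 : E ≠ 0 := norm_pos_iff.1 hE
    have e1 : ((X / E) * z).re = X / N ^ 2 * (E.re * z.re + E.im * z.im) := by
      have h1 : (X : ℂ) / E = ((X / N ^ 2 : ℝ) : ℂ) * (starRingEnd ℂ E) := by
        rw [div_eq_iff hE0]
        have h2 : (starRingEnd ℂ E) * E = ((N ^ 2 : ℝ) : ℂ) := by
          rw [mul_comm, mul_conj, normSq_eq_norm_sq]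
        rw [mul_assoc, h2, ← ofReal_mul, div_mul_cancel₀]
        positivity
      rw [h1, mul_assoc, re_ofReal_mul, mul_re, conj_re, conj_im]
      ring
    rw [e1]
    have h2 : E.re * z.re ≤ N * (|θ| * V * (1 + 2 / 100000)) := by
      calc E.re * z.re ≤ E.re * (|θ| * V * (1 + 2 / 100000)) := by gcongr
        _ ≤ N * (|θ| * V * (1 + 2 / 100000)) := by gcongr
    have h3 : E.im * z.im ≤ κ * N * (3 * V) := by
      calc E.im * z.im ≤ |E.im * z.im| := le_abs_self _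
        _ = |E.im| * |z.im| := abs_mul _ _
        _ ≤ (κ * N) * (3 * V) := by gcongr
    have h4 : κ * N * (3 * V) ≤ N * (|θ| * V * (17 / 1000)) := by
      have : κ * 3 ≤ |θ| * (17 / 1000) := by linarith
      calc κ * N * (3 * V) = (κ * 3) * (N * V) := by ring
        _ ≤ (|θ| * (17 / 1000)) * (N * V) := by gcongr
        _ = _ := by ring
    have h5 : E.re * z.re + E.im * z.im ≤ N * (|θ| * V * (1018 / 1000)) := by
      have h6 : 0 ≤ N * (|θ| * V) := by positivity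
      linarith
    calc X / N ^ 2 * (E.re * z.re + E.im * z.im) ≤ X / N ^ 2 * (N * (|θ| * V * (1018 / 1000))) := by
          gcongr
      _ = (X * V) / N * (|θ| * (1018 / 1000)) := by field_simp
      _ ≤ (N / (99 / 100 * a)) * (|θ| * (1018 / 1000)) := by
          have : X * V / N ≤ N / (99 / 100 * a) := by
            rw [div_le_div_iff₀ hE (by positivity)]
            calc X * V * (99 / 100 * a) ≤ N ^ 2 := hXV
              _ = N * N := by ring
          gcongr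
      _ ≤ N / a * |θ| * (103 / 100) := by
          have e2 : N / (99 / 100 * a) * (|θ| * (1018 / 1000)) = N / a * |θ| * (1018 / 990) := by
            field_simp
            norm_num
          rw [e2]
          exact mul_le_mul_of_nonneg_left (by norm_num) (by positivity)
  have hsplit : (E * (exp ((-θ : ℝ) * I) - 1 + e) + (X / E) * z).re
      = (E * (exp ((-θ : ℝ) * I) - 1)).re + (E * e).re + ((X / E) * z).re := by
    rw [← add_re, ← add_re]; congr 1; ring
  rw [hsplit]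
  -- total
  have hκθ2 : κ * N * |θ| = N / a * |θ| * (1 / 60) := by rw [hκ]; field_simp
  have hNa : N / a * |θ| = N * (|θ| / a) := by ring
  have hsq : θ ^ 2 = |θ| ^ 2 := (sq_abs θ).symm
  have hfin : -((1 - κ) * (1 - Real.cos θ)) + 2 / 100000 * θ ^ 2 + (|θ| / a) * (105 / 100)
      ≤ -(1 / (2 * a ^ 2)) := by
    have h9 : 9 / a ^ 2 ≤ θ ^ 2 := by
      have := pow_le_pow_left₀ (by positivity) h3 2
      rw [sq_abs, div_pow] at this
      norm_num at this
      exact this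
    have hcos0 : 0 ≤ 1 - Real.cos θ := by linarith [Real.cos_le_one θ]
    have e9 : 1 / (2 * a ^ 2) = (9 / a ^ 2) / 18 := by field_simp; norm_num
    rcases le_or_gt |θ| 1 with h | h
    · have h1 := one_sub_cos_ge' h
      have h2 : |θ| / a ≤ θ ^ 2 / 3 := by
        calc |θ| / a = |θ| * (1 / a) := by ring
          _ ≤ |θ| * (|θ| / 3) := by gcongr
          _ = θ ^ 2 / 3 := by rw [hsq]; ring
      have h4 : 59999 / 60000 * (1 - Real.cos θ) ≤ (1 - κ) * (1 - Real.cos θ) := by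
        gcongr; linarith
      rw [e9]
      linarith
    · have h1 := one_sub_cos_ge hpi
      have h2 : |θ| / a ≤ θ ^ 2 / 1000 := by
        rw [div_le_div_iff₀ hap (by norm_num), hsq]
        calc |θ| * 1000 ≤ |θ| * (|θ| * a) := by
              gcongr
              nlinarith
          _ = |θ| ^ 2 * a := by ring
      have h4 : 59999 / 60000 * (1 - Real.cos θ) ≤ (1 - κ) * (1 - Real.cos θ) := by
        gcongr; linarith
      rw [e9]
      linarith [sq_nonneg θ]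
  have h10 : N * (-((1 - κ) * (1 - Real.cos θ)) + 2 / 100000 * θ ^ 2 + (|θ| / a) * (105 / 100))
      ≤ N * (-(1 / (2 * a ^ 2))) := by gcongr
  have e11 : N * (-(1 / (2 * a ^ 2))) = -(N / (2 * a ^ 2)) := by ring
  rw [e11] at h10
  have hpos2 : 0 ≤ N * (|θ| / a) := by positivity
  rw [hNa] at p3
  rw [hκθ2, hNa] at p1
  have e12 : N * (-((1 - κ) * (1 - Real.cos θ)) + 2 / 100000 * θ ^ 2 + (|θ| / a) * (105 / 100))
      = -((1 - κ) * N * (1 - Real.cos θ)) + N * (2 / 100000 * θ ^ 2)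
        + N * (|θ| / a) * (105 / 100) := by ring
  rw [e12] at h10
  linarith

theorem R_bound {e f : ℂ} {a θ : ℝ} (ha : 1000 ≤ a) (he : ‖e‖ ≤ 2 / 100000 * θ ^ 2)
    (hf : ‖f‖ ≤ 3 / 10000 * a * θ ^ 2) :
    ‖(exp ((-θ : ℝ) * I) - 1 + e) + ((exp ((a * θ : ℝ) * I) - 1) / a + f)‖ ≤ 2 * a * θ ^ 2 := by
  have hap : 0 < a := by linarith
  have haC : (a : ℂ) ≠ 0 := by exact_mod_cast hap.ne'
  have e1 : (exp ((-θ : ℝ) * I) - 1 + e) + ((exp ((a * θ : ℝ) * I) - 1) / a + f)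
      = (exp ((-θ : ℝ) * I) - 1 - (-θ : ℝ) * I)
        + (exp ((a * θ : ℝ) * I) - 1 - (a * θ : ℝ) * I) / a + e + f := by
    push_cast
    field_simp
    ring
  rw [e1]
  have t1 := expI_two (-θ)
  rw [neg_sq] at t1
  have t2 : ‖(exp ((a * θ : ℝ) * I) - 1 - (a * θ : ℝ) * I) / a‖ ≤ a * θ ^ 2 := by
    rw [norm_div, norm_real, Real.norm_eq_abs, abs_of_pos hap, div_le_iff₀ hap]
    refine (expI_two (a * θ)).trans (le_of_eq ?_)
    ring
  have h1 : θ ^ 2 ≤ 1 / 1000 * a * θ ^ 2 := by nlinarith [sq_nonneg θ]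
  refine (norm_add_le _ _).trans ?_
  have := norm_add₃_le (a := exp ((-θ : ℝ) * I) - 1 - (-θ : ℝ) * I)
    (b := (exp ((a * θ : ℝ) * I) - 1 - (a * θ : ℝ) * I) / a) (c := e)
  have h0 : 0 ≤ a * θ ^ 2 := by positivity
  linarith

theorem near_alg {E e f : ℂ} {a θ : ℝ} (ha : 1000 ≤ a)
    (hre : (1 - 1 / (60 * a)) * ‖E‖ ≤ E.re) (him : |E.im| ≤ 1 / (60 * a) * ‖E‖)
    (h3 : |θ| ≤ 3 / a) (he : ‖e‖ ≤ 2 / 100000 * θ ^ 2)
    (hf : ‖f‖ ≤ 3 / 10000 * a * θ ^ 2) :
    (E * ((exp ((-θ : ℝ) * I) - 1 + e) + ((exp ((a * θ : ℝ) * I) - 1) / a + f))).re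
      ≤ -(3 / 20) * (‖E‖ * a * θ ^ 2) := by
  have hap : 0 < a := by linarith
  set R : ℂ := (exp ((-θ : ℝ) * I) - 1 + e) + ((exp ((a * θ : ℝ) * I) - 1) / a + f) with hR
  have hRb : ‖R‖ ≤ 2 * a * θ ^ 2 := R_bound ha he hf
  set N := ‖E‖ with hN
  have hN0 : 0 ≤ N := norm_nonneg _
  set κ : ℝ := 1 / (60 * a) with hκ
  have hκ0 : 0 < κ := by positivity
  have hκ1 : κ ≤ 1 / 60000 := by rw [hκ]; gcongr; linarith
  have h0 : 0 ≤ a * θ ^ 2 := by positivity
  have hRre : R.re ≤ -(199 / 1000) * (a * θ ^ 2) := by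
    have e1 : R.re = (Real.cos θ - 1) + (Real.cos (a * θ) - 1) / a + e.re + f.re := by
      rw [hR]
      simp only [add_re, sub_re, one_re, expI_re, Real.cos_neg]
      have : ((exp ((a * θ : ℝ) * I) - 1) / (a : ℂ)).re = (Real.cos (a * θ) - 1) / a := by
        rw [div_ofReal_re, sub_re, expI_re, one_re]
      rw [this]; ring
    rw [e1]
    have h1 : |a * θ| ≤ Real.pi := by
      rw [abs_mul, abs_of_pos hap]
      have : a * |θ| ≤ 3 := by
        calc a * |θ| ≤ a * (3 / a) := by gcongr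
          _ = 3 := by field_simp
      linarith [Real.pi_gt_three]
    have h2 := one_sub_cos_ge h1
    have h3 : (Real.cos (a * θ) - 1) / a ≤ -(a * θ ^ 2 / 5) := by
      rw [div_le_iff₀ hap]
      linarith
    have h4 : Real.cos θ - 1 ≤ 0 := by linarith [Real.cos_le_one θ]
    have h5 := (re_le_norm e).trans he
    have h6 := (re_le_norm f).trans hf
    have h7 : θ ^ 2 ≤ 1 / 1000 * a * θ ^ 2 := by
      calc θ ^ 2 = 1 * θ ^ 2 := (one_mul _).symm
        _ ≤ (1 / 1000 * a) * θ ^ 2 := by gcongr; linarith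
    linarith
  have hRim : |R.im| ≤ 2 * a * θ ^ 2 := (abs_im_le_norm R).trans hRb
  rw [mul_re]
  have h1 : E.re * R.re ≤ ((1 - κ) * N) * (-(199 / 1000) * (a * θ ^ 2)) := by
    have hE0 : 0 ≤ E.re := le_trans (by have : 0 ≤ 1 - κ := by linarith
                                        positivity) hre
    calc E.re * R.re ≤ E.re * (-(199 / 1000) * (a * θ ^ 2)) := by gcongr
      _ ≤ ((1 - κ) * N) * (-(199 / 1000) * (a * θ ^ 2)) := by
        apply mul_le_mul_of_nonpos_right hre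
        linarith
  have h2 : -(E.im * R.im) ≤ (κ * N) * (2 * a * θ ^ 2) := by
    calc -(E.im * R.im) ≤ |E.im * R.im| := neg_le_abs _
      _ = |E.im| * |R.im| := abs_mul _ _
      _ ≤ (κ * N) * (2 * a * θ ^ 2) := by gcongr
  have h3 : 0 ≤ N * (a * θ ^ 2) := by positivity
  have h4 : κ * (N * (a * θ ^ 2)) ≤ 1 / 60000 * (N * (a * θ ^ 2)) := by gcongr
  linarith

theorem core_alg {E e f : ℂ} {a θ : ℝ} (ha : 1000 ≤ a)
    (hre : (1 - 1 / (60 * a)) * ‖E‖ ≤ E.re) (him : |E.im| ≤ 1 / (60 * a) * ‖E‖)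
    (h3 : a * |θ| ≤ 1 / 1000) (he : ‖e‖ ≤ 2 / 100000 * θ ^ 2)
    (hf : ‖f‖ ≤ 3 / 10000 * a * θ ^ 2) :
    ‖E * ((exp ((-θ : ℝ) * I) - 1 + e) + ((exp ((a * θ : ℝ) * I) - 1) / a + f))
      + ((‖E‖ * a * θ ^ 2 / 2 : ℝ) : ℂ)‖ ≤ 3 / 100 * (‖E‖ * a * θ ^ 2) := by
  have hap : 0 < a := by linarith
  have haC : (a : ℂ) ≠ 0 := by exact_mod_cast hap.ne'
  set N := ‖E‖ with hN
  have hN0 : 0 ≤ N := norm_nonneg _
  set κ : ℝ := 1 / (60 * a) with hκ
  have hκ0 : 0 < κ := by positivity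
  have hκ1 : κ ≤ 1 / 60000 := by rw [hκ]; gcongr; linarith
  have h0 : 0 ≤ a * θ ^ 2 := by positivity
  set A : ℂ := exp ((-θ : ℝ) * I) - 1 - (-θ : ℝ) * I with hA
  set B : ℂ := (exp ((a * θ : ℝ) * I) - 1 - (a * θ : ℝ) * I + (((a * θ) ^ 2 / 2 : ℝ) : ℂ)) / a
    with hB
  have e1 : E * ((exp ((-θ : ℝ) * I) - 1 + e) + ((exp ((a * θ : ℝ) * I) - 1) / a + f))
      + ((N * a * θ ^ 2 / 2 : ℝ) : ℂ)
      = E * (A + B + e + f) + ((N : ℂ) - E) * ((a * θ ^ 2 / 2 : ℝ) : ℂ) := by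
    rw [hA, hB]
    push_cast
    field_simp
    ring
  rw [e1]
  have t1 : ‖A‖ ≤ θ ^ 2 := by
    have := expI_two (-θ)
    rwa [neg_sq] at this
  have t2 : ‖B‖ ≤ 1 / 1000 * (a * θ ^ 2) := by
    rw [hB, norm_div, norm_real, Real.norm_eq_abs, abs_of_pos hap, div_le_iff₀ hap]
    refine (expI_three (a * θ)).trans ?_
    rw [abs_mul, abs_of_pos hap]
    have : (a * |θ|) ^ 3 = (a * |θ|) * (a ^ 2 * θ ^ 2) := by rw [← sq_abs θ]; ring
    rw [this]
    calc (a * |θ|) * (a ^ 2 * θ ^ 2) ≤ (1 / 1000) * (a ^ 2 * θ ^ 2) := by gcongr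
      _ = _ := by ring
  have h7 : θ ^ 2 ≤ 1 / 1000 * (a * θ ^ 2) := by nlinarith [sq_nonneg θ]
  have t3 : ‖A + B + e + f‖ ≤ 3 / 1000 * (a * θ ^ 2) := by
    refine (norm_add_le _ _).trans ?_
    have := norm_add₃_le (a := A) (b := B) (c := e)
    linarith
  have t4 : ‖(N : ℂ) - E‖ ≤ 2 * κ * N := by
    have hEreN : E.re ≤ N := re_le_norm E
    refine (norm_le_abs_re_add_abs_im _).trans ?_
    rw [sub_re, sub_im, ofReal_re, ofReal_im, zero_sub, abs_neg, abs_of_nonneg (by linarith)]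
    linarith
  refine (norm_add_le _ _).trans ?_
  rw [norm_mul, norm_mul, norm_real, Real.norm_eq_abs, abs_of_nonneg (by positivity : 0 ≤ a * θ ^ 2 / 2)]
  have h8 : ‖E‖ * ‖A + B + e + f‖ ≤ N * (3 / 1000 * (a * θ ^ 2)) := by gcongr
  have h9 : ‖(N : ℂ) - E‖ * (a * θ ^ 2 / 2) ≤ (2 * κ * N) * (a * θ ^ 2 / 2) := by gcongr
  have h10 : 0 ≤ N * (a * θ ^ 2) := by positivity
  have h11 : κ * (N * (a * θ ^ 2)) ≤ 1 / 60000 * (N * (a * θ ^ 2)) := by gcongr
  linarith

end Pool.Agent.MP_83fd13_an
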