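import Mathlib
import Pool.Agent.MP_83fd13_an.Ent1
import Pool.Agent.MP_83fd13_an.Ent3
import Pool.Agent.MP_83fd13_an.Ent7
import Pool.Agent.MP_83fd13_an.Ent8

namespace Pool.Agent.MP_83fd13_an

open Filter Set Complex Metric MeasureTheory
open scoped Topology

variable {g : ℂ → ℂ} {x0 : ℝ} {x a : ℝ} {p : ℂ → ℂ} {α K r₂ : ℝ}

/-- The data at the base point needed for Laplace's method. -/
theorem base_data (hG : Good g x0 x a) (hg : DifferentiableOn ℂ g (HP x0))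
    (hper : ∀ ζ, g (ζ + 2 * Real.pi * I) = g ζ) (hpos : ∀ x, x0 < x → 0 < MM g x)
    (hS : Smooth p α K (1 / 100000) r₂) (hxr : Real.exp (-x) ≤ r₂) {X : ℝ} (hX : 0 < X) :
    ∃ ζ₁ : ℂ, ζ₁.re = x ∧ ∃ V : ℝ, V = (1 + 1 / 100000) * (α * Real.exp (-x)) * MM g x ∧
      (∀ θ : ℝ, ‖g (ζ₁ + θ * I) * QQ p (ζ₁ + θ * I)‖ ≤ V) ∧
      (∀ θ : ℝ, (g (ζ₁ + θ * I) * QQ p (ζ₁ + θ * I)).re ≤ (g ζ₁ * QQ p ζ₁).re) ∧
      (1 - 1 / 10000) * V ≤ (g ζ₁ * QQ p ζ₁).re ∧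
      ∃ E : ℂ, 0 < ‖E‖ ∧ (1 - 1 / (60 * a)) * ‖E‖ ≤ E.re ∧ |E.im| ≤ 1 / (60 * a) * ‖E‖ ∧
        X * V * (99 / 100 * a) ≤ ‖E‖ ^ 2 ∧
        ∀ θ : ℝ, |θ| < 8 / a → ∃ f : ℂ, ‖f‖ ≤ 3 / 10000 * a * θ ^ 2 ∧
          (X * QQ p ζ₁ / E) * (g (ζ₁ + θ * I) - g ζ₁)
            = E * ((exp ((a * θ : ℝ) * I) - 1) / a + f) := by
  obtain ⟨y₁, hmax, hlow⟩ := choose_point hG hg hper hpos hS hxr
  have ha := hG.ha
  have hap := hG.apos
  have hMp := hpos x hG.x0lt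
  have hαp := hS.α_pos
  have hex := Real.exp_pos (-x)
  set ζ₁ : ℂ := x + y₁ * I with hζ₁
  have hre1 : ζ₁.re = x := by simp [hζ₁]
  have hxr1 : Real.exp (-ζ₁.re) ≤ r₂ := by rw [hre1]; exact hxr
  set P : ℝ := (1 + 1 / 100000) * (α * Real.exp (-x)) with hP
  have hP0 : 0 < P := by positivity
  set V : ℝ := P * MM g x with hV
  have hV0 : 0 < V := by positivity
  have hshift : ∀ θ : ℝ, ζ₁ + θ * I = x + (y₁ + θ : ℝ) * I := fun θ => by
    rw [hζ₁]; push_cast; ring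
  have hVb : ∀ θ : ℝ, ‖g (ζ₁ + θ * I) * QQ p (ζ₁ + θ * I)‖ ≤ V := by
    intro θ
    have hre : (ζ₁ + θ * I).re = x := by rw [re_add_I, hre1]
    have h1 := norm_le_MM hg hper (ζ := ζ₁ + θ * I) (by rw [hre]; exact hG.x0lt)
    have h2 := hS.QQ_upper (ζ := ζ₁ + θ * I) (by rw [hre]; exact hxr)
    rw [hre] at h1 h2
    rw [norm_mul, hV, mul_comm P]
    gcongr
  set v₁ : ℂ := g ζ₁ * QQ p ζ₁ with hv₁
  have hv₁V : ‖v₁‖ ≤ V := by
    have := hVb 0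
    have h0 : ζ₁ + ((0 : ℝ) : ℂ) * I = ζ₁ := by simp
    rw [h0] at this
    exact this
  have hmaxθ : ∀ θ : ℝ, (g (ζ₁ + θ * I) * QQ p (ζ₁ + θ * I)).re ≤ v₁.re := by
    intro θ
    rw [hshift]
    exact hmax (y₁ + θ)
  have hQ0 := hS.QQ_ne hxr1
  have hQp := hS.QQ_pos hxr1
  have hq : (1 - 1 / 10000) * V ≤ v₁.re := hlow
  -- modulus of g at the base point
  have hgM : MM g x ≤ (1 + 2 / 10000) * ‖g ζ₁‖ := by
    have h1 : (1 - 1 / 10000) * V ≤ ‖g ζ₁‖ * P := by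
      refine hq.trans ((re_le_norm v₁).trans ?_)
      rw [hv₁, norm_mul]
      have h2 := hS.QQ_upper hxr1
      rw [hre1] at h2
      gcongr
    have h2 : (1 - 1 / 10000) * MM g x ≤ ‖g ζ₁‖ := by
      have h3 : ((1 - 1 / 10000) * MM g x) * P ≤ ‖g ζ₁‖ * P := by
        refine le_trans (le_of_eq ?_) h1
        rw [hV]; ring
      exact le_of_mul_le_mul_right h3 hP0
    linarith [norm_nonneg (g ζ₁)]
  obtain ⟨h, h1, d1, d2, d3, d4, d5⟩ := hG.near_max hg hper hpos hre1 (η := 2 / 10000)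
    (by norm_num) (by norm_num) hgM
  obtain ⟨ν, hν, dQ⟩ := hS.hasDerivAt_QQ hxr1
  -- derivative condition
  have hder : HasDerivAt (fun y : ℝ => g (x + y * I) * QQ p (x + y * I))
      ((g ζ₁ * (a + h1) * QQ p ζ₁ + g ζ₁ * (-QQ p ζ₁ + ν)) * I) y₁ := by
    have e1 : HasDerivAt (fun y : ℝ => (x : ℂ) + y * I) I y₁ := by
      have := ((ofRealCLM.hasDerivAt (x := y₁)).mul_const I).const_add (x : ℂ)
      simpa using this
    have e2 : HasDerivAt (fun z : ℂ => g z * QQ p z)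
        (g ζ₁ * (a + h1) * QQ p ζ₁ + g ζ₁ * (-QQ p ζ₁ + ν)) ((x : ℂ) + y₁ * I) := d1.mul dQ
    exact e2.comp y₁ e1
  have hderre : HasDerivAt (fun y : ℝ => (g (x + y * I) * QQ p (x + y * I)).re)
      (((g ζ₁ * (a + h1) * QQ p ζ₁ + g ζ₁ * (-QQ p ζ₁ + ν)) * I).re) y₁ :=
    (reCLM.hasFDerivAt.comp_hasDerivAt y₁ hder)
  have hzero : ((g ζ₁ * (a + h1) * QQ p ζ₁ + g ζ₁ * (-QQ p ζ₁ + ν)) * I).re = 0 := by
    apply IsLocalMax.hasDerivAt_eq_zero _ hderre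
    exact Eventually.of_forall hmax
  have him0 : (v₁ * (a + h1)).im = v₁.im - (g ζ₁ * ν).im := by
    have e1 : (g ζ₁ * (a + h1) * QQ p ζ₁ + g ζ₁ * (-QQ p ζ₁ + ν))
        = v₁ * (a + h1) - v₁ + g ζ₁ * ν := by rw [hv₁]; ring
    rw [e1, mul_I_re, neg_eq_zero, add_im, sub_im] at hzero
    linarith
  have himv : |v₁.im| ≤ 15 / 1000 * V := by
    have e1 : ‖v₁‖ ^ 2 = v₁.re ^ 2 + v₁.im ^ 2 := by
      rw [← normSq_eq_norm_sq, normSq_apply]; ring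
    have e2 : ‖v₁‖ ^ 2 ≤ V ^ 2 := pow_le_pow_left₀ (norm_nonneg _) hv₁V 2
    have e3 : ((1 - 1 / 10000) * V) ^ 2 ≤ v₁.re ^ 2 := pow_le_pow_left₀ (by positivity) hq 2
    apply abs_le_of_sq_le_sq _ (by positivity)
    have e4 : ((1 - 1 / 10000) * V) ^ 2 = (1 - 1 / 10000) ^ 2 * V ^ 2 := by ring
    have e5 : (15 / 1000 * V) ^ 2 = (15 / 1000) ^ 2 * V ^ 2 := by ring
    rw [e4] at e3
    rw [e5]
    have := sq_nonneg V
    norm_num at e3 ⊢
    linarith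
  have hgν : |(g ζ₁ * ν).im| ≤ 2 / 100000 * V := by
    refine (abs_im_le_norm _).trans ?_
    rw [norm_mul]
    calc ‖g ζ₁‖ * ‖ν‖ ≤ ‖g ζ₁‖ * (2 * (1 / 100000) * ‖QQ p ζ₁‖) := by gcongr
      _ = 2 / 100000 * ‖v₁‖ := by rw [hv₁, norm_mul]; ring
      _ ≤ 2 / 100000 * V := by gcongr
  have hIm : |(v₁ * (a + h1)).im| ≤ 16 / 1000 * V := by
    rw [him0]
    refine (abs_sub _ _).trans ?_
    linarith
  have hh1 : ‖h1‖ ≤ 1 / 10000 * a := d3.trans (mul_le_mul_of_nonneg_right (by norm_num) hap.le)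
  have hah : 9999 / 10000 * a ≤ ‖(a : ℂ) + h1‖ := by
    have h2 : ‖(a : ℂ)‖ - ‖h1‖ ≤ ‖(a : ℂ) + h1‖ := norm_sub_le_norm_add _ _
    rw [norm_real, Real.norm_eq_abs, abs_of_pos hap] at h2
    linarith
  have hah0 : (a : ℂ) + h1 ≠ 0 := by
    rw [← norm_pos_iff]; exact lt_of_lt_of_le (by positivity) hah
  have hBn : 99 / 100 * (V * a) ≤ ‖v₁ * (a + h1)‖ := by
    rw [norm_mul]
    calc 99 / 100 * (V * a) ≤ ((1 - 1 / 10000) * V) * (9999 / 10000 * a) := by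
          have : 0 ≤ V * a := by positivity
          linarith
      _ ≤ ‖v₁‖ * ‖(a : ℂ) + h1‖ := by
          have := hq.trans (re_le_norm v₁)
          gcongr
  have hBre : 0 < (v₁ * (a + h1)).re := by
    have e1 : v₁ * (a + h1) = (a : ℂ) * v₁ + v₁ * h1 := by ring
    rw [e1, add_re, re_ofReal_mul]
    have e2 : |(v₁ * h1).re| ≤ V * (1 / 10000 * a) := by
      refine (abs_re_le_norm _).trans ?_
      rw [norm_mul]; gcongr
    have e3 := (abs_le.1 e2).1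
    have e4 : a * ((1 - 1 / 10000) * V) ≤ a * v₁.re := by gcongr
    have : 0 < V * a := by positivity
    linarith
  obtain ⟨E, hE2, hEre, hEim, hEre2⟩ := exists_sqrt (B := (X : ℂ) * (v₁ * (a + h1)))
    (κ := 1 / (60 * a)) (by rw [re_ofReal_mul]; positivity) (by
      rw [im_ofReal_mul, abs_mul, abs_of_pos hX, norm_mul, norm_real, Real.norm_eq_abs,
        abs_of_pos hX]
      have e1 : |(v₁ * (a + h1)).im| ≤ 1 / (60 * a) * ‖v₁ * (a + h1)‖ := by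
        refine hIm.trans ?_
        calc 16 / 1000 * V ≤ 1 / (60 * a) * (99 / 100 * (V * a)) := by
              have : 1 / (60 * a) * (99 / 100 * (V * a)) = 99 / 6000 * V := by
                field_simp; norm_num
              rw [this]; linarith
          _ ≤ 1 / (60 * a) * ‖v₁ * (a + h1)‖ := by gcongr
      calc X * |(v₁ * (a + h1)).im| ≤ X * (1 / (60 * a) * ‖v₁ * (a + h1)‖) := by gcongr
        _ = _ := by ring)
  have hE0 : E ≠ 0 := fun h => by rw [h] at hEre; simp at hEre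
  refine ⟨ζ₁, hre1, V, rfl, hVb, hmaxθ, hq, E, norm_pos_iff.2 hE0, hEre2, hEim, ?_, ?_⟩
  · have e1 : ‖E‖ ^ 2 = X * ‖v₁ * (a + h1)‖ := by
      rw [← norm_pow, hE2, norm_mul, norm_real, Real.norm_eq_abs, abs_of_pos hX]
    rw [e1]
    calc X * V * (99 / 100 * a) = X * (99 / 100 * (V * a)) := by ring
      _ ≤ X * ‖v₁ * (a + h1)‖ := by gcongr
  · intro θ hθ
    refine ⟨(exp ((a * θ : ℝ) * I) * (1 + h (θ * I)) - 1) / (a + h1)
      - (exp ((a * θ : ℝ) * I) - 1) / a, ?_, ?_⟩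
    · refine (large_part hap (c₁ := (2 / 10000 + 3 / 100000) / 4)
        (c₂ := (2 / 10000 + 3 / 100000) / 16) (by norm_num) (by norm_num) (by norm_num)
        d3 (d4 θ hθ) (d5 θ hθ)).trans ?_
      have : 0 ≤ a * θ ^ 2 := by positivity
      norm_num
      linarith
    · rw [d2 θ hθ, add_sub_cancel]
      have e1 : (X : ℂ) * (v₁ * (a + h1)) = E * E := by rw [← hE2, sq]
      rw [hv₁] at e1
      have e2 : (X : ℂ) * QQ p ζ₁ * g ζ₁ = E * E / (a + h1) := by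
        rw [eq_div_iff hah0]; linear_combination e1
      calc (X * QQ p ζ₁ / E) * (g ζ₁ * exp ((a * θ : ℝ) * I) * (1 + h (θ * I)) - g ζ₁)
          = ((X : ℂ) * QQ p ζ₁ * g ζ₁) / E * (exp ((a * θ : ℝ) * I) * (1 + h (θ * I)) - 1) := by
            ring
        _ = E * ((exp ((a * θ : ℝ) * I) * (1 + h (θ * I)) - 1) / (a + h1)) := by
            rw [e2]; field_simp

end Pool.Agent.MP_83fd13_an
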