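import Mathlib
import Pool.Agent.MP_83fd13_an.Ent9

namespace Pool.Agent.MP_83fd13_an

open Filter Set Complex Metric MeasureTheory
open scoped Topology

variable {g : ℂ → ℂ} {x0 : ℝ} {x a : ℝ} {p : ℂ → ℂ} {α K r₂ : ℝ}

theorem key_step (hG : Good g x0 x a) (hg : DifferentiableOn ℂ g (HP x0))
    (hper : ∀ ζ, g (ζ + 2 * Real.pi * I) = g ζ) (hpos : ∀ x, x0 < x → 0 < MM g x)
    (hS : Smooth p α K (1 / 100000) r₂) (hxr : Real.exp (-x) ≤ r₂) {X : ℝ} (hX : 0 < X)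
    (hbig : (10 ^ 6 * a ^ 4) ^ 2 ≤ 1 / 2 * (X * (α * Real.exp (-x)) * MM g x * a)) :
    ∃ t : ℂ, t ≠ 0 ∧ ∃ ζ₁ : ℂ, ζ₁.re = x ∧
      ∫ θ in (-Real.pi)..Real.pi, exp (-t * p (exp (-(ζ₁ + θ * I))) + X * g (ζ₁ + θ * I) / t) *
        QQ p (ζ₁ + θ * I) ≠ 0 := by
  obtain ⟨ζ₁, hre1, V, hVdef, hVb, hmax, hq, E, hEpos, hEre, hEim, hXV, hlarge⟩ :=
    base_data hG hg hper hpos hS hxr hX
  have ha := hG.ha
  have hap := hG.apos
  have hMp := hpos x hG.x0lt
  have hαp := hS.α_pos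
  have hex := Real.exp_pos (-x)
  have hE0 : E ≠ 0 := norm_pos_iff.1 hEpos
  have hxr1 : Real.exp (-ζ₁.re) ≤ r₂ := by rw [hre1]; exact hxr
  have hQ0 := hS.QQ_ne hxr1
  set N := ‖E‖ with hN
  have hNbig : 10 ^ 6 * a ^ 4 ≤ N := by
    by_contra hcon
    push Not at hcon
    have h1 : N ^ 2 < (10 ^ 6 * a ^ 4) ^ 2 := pow_lt_pow_left₀ hcon hEpos.le (by norm_num)
    have h2 : 1 / 2 * (X * (α * Real.exp (-x)) * MM g x * a) ≤ X * V * (99 / 100 * a) := by
      rw [hVdef]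
      have : 0 ≤ X * (α * Real.exp (-x)) * MM g x * a := by positivity
      nlinarith
    linarith
  have ha1 : 1 ≤ a := by linarith
  have hNa : a ≤ N := by
    have h1 : a ≤ a ^ 4 := by
      calc a = a ^ 1 := (pow_one a).symm
        _ ≤ a ^ 4 := pow_le_pow_right₀ ha1 (by norm_num)
    have h2 : a ^ 4 ≤ 10 ^ 6 * a ^ 4 := by
      have : 0 ≤ a ^ 4 := by positivity
      linarith
    linarith
  set s : ℝ := 1 / Real.sqrt (N * a) with hs
  have hsq0 : 0 < Real.sqrt (N * a) := Real.sqrt_pos.2 (by positivity)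
  have hs0 : 0 < s := by positivity
  have hs2 : ∀ θ : ℝ, (θ / s) ^ 2 = N * a * θ ^ 2 := by
    intro θ
    rw [hs, div_div_eq_mul_div, div_one, mul_pow, Real.sq_sqrt (by positivity)]
    ring
  have has : a * s ≤ 1 / 5000 := by
    rw [hs, mul_one_div, div_le_div_iff₀ hsq0 (by norm_num), one_mul]
    apply Real.le_sqrt_of_sq_le
    have h3 : 1 ≤ a ^ 3 := one_le_pow₀ ha1
    calc (a * 5000) ^ 2 = 25000000 * (a * a) := by ring
      _ ≤ (10 ^ 6 * a ^ 3) * (a * a) := by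
        have : (25000000 : ℝ) ≤ 10 ^ 6 * a ^ 3 := by
          have h4 : (1000 : ℝ) ^ 3 ≤ a ^ 3 := pow_le_pow_left₀ (by norm_num) ha 3
          norm_num at h4 ⊢
          linarith
        gcongr
      _ = (10 ^ 6 * a ^ 4) * a := by ring
      _ ≤ N * a := by gcongr
  have hcoreθ : ∀ θ : ℝ, |θ| ≤ 5 * s → a * |θ| ≤ 1 / 1000 := by
    intro θ hθ
    calc a * |θ| ≤ a * (5 * s) := by gcongr
      _ = 5 * (a * s) := by ring
      _ ≤ 1 / 1000 := by linarith
  have h38 : ∀ θ : ℝ, |θ| ≤ 3 / a → |θ| < 8 / a := by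
    intro θ hθ
    refine hθ.trans_lt ?_
    gcongr
    norm_num
  have hcore3 : ∀ θ : ℝ, |θ| ≤ 5 * s → |θ| ≤ 3 / a := by
    intro θ hθ
    rw [le_div_iff₀ hap]
    have := hcoreθ θ hθ
    linarith
  -- parameters
  set t : ℂ := E / QQ p ζ₁ with ht
  have ht0 : t ≠ 0 := div_ne_zero hE0 hQ0
  have hXt : (X : ℂ) / t = X * QQ p ζ₁ / E := by rw [ht]; field_simp
  set r : ℝ → ℂ := fun θ => -t * (p (exp (-(ζ₁ + θ * I))) - p (exp (-ζ₁)))
    + (X / t) * (g (ζ₁ + θ * I) - g ζ₁) with hr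
  set w : ℝ → ℂ := fun θ => QQ p (ζ₁ + θ * I) / QQ p ζ₁ with hw
  have hreθ : ∀ θ : ℝ, (ζ₁ + θ * I).re = x := fun θ => by rw [re_add_I, hre1]
  have hxrθ : ∀ θ : ℝ, Real.exp (-(ζ₁ + θ * I).re) ≤ r₂ := fun θ => by rw [hreθ]; exact hxr
  have hcp : Continuous fun θ : ℝ => p (exp (-(ζ₁ + θ * I))) := by
    rw [continuous_iff_continuousAt]
    intro θ
    have h1 := (hS.diff (exp (-(ζ₁ + θ * I))) (by rw [norm_exp_neg']; exact hxrθ θ)).continuousAt
    exact ContinuousAt.comp (g := p) (f := fun θ : ℝ => exp (-(ζ₁ + θ * I))) h1 (by fun_prop)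
  have hcg : Continuous fun θ : ℝ => g (ζ₁ + θ * I) := by
    apply hg.continuousOn.comp_continuous (by fun_prop)
    intro θ
    show x0 < (ζ₁ + θ * I).re
    rw [hreθ]
    exact hG.x0lt
  have hcQ : Continuous fun θ : ℝ => QQ p (ζ₁ + θ * I) := by
    rw [continuous_iff_continuousAt]
    intro θ
    obtain ⟨ν, _, hν⟩ := hS.hasDerivAt_QQ (hxrθ θ)
    exact ContinuousAt.comp (g := QQ p) (f := fun θ : ℝ => ζ₁ + θ * I) hν.continuousAt
      (by fun_prop)
  have hrc : Continuous r := by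
    simp only [hr]
    exact ((hcp.sub continuous_const).const_mul _).add ((hcg.sub continuous_const).const_mul _)
  have hwc : Continuous w := hcQ.div_const _
  have rep1 : ∀ θ : ℝ, ∃ e : ℂ, ‖e‖ ≤ 2 / 100000 * θ ^ 2 ∧
      -t * (p (exp (-(ζ₁ + θ * I))) - p (exp (-ζ₁))) = E * (exp ((-θ : ℝ) * I) - 1 + e) := by
    intro θ
    obtain ⟨e, he, hee⟩ := hS.smooth_part hxr1 θ
    refine ⟨e, he.trans (le_of_eq (by ring)), ?_⟩
    rw [hee, ht]
    field_simp
  have rep2 : ∀ θ : ℝ, |θ| < 8 / a → ∃ e f : ℂ, ‖e‖ ≤ 2 / 100000 * θ ^ 2 ∧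
      ‖f‖ ≤ 3 / 10000 * a * θ ^ 2 ∧
      r θ = E * ((exp ((-θ : ℝ) * I) - 1 + e) + ((exp ((a * θ : ℝ) * I) - 1) / a + f)) := by
    intro θ hθ
    obtain ⟨e, he, hee⟩ := rep1 θ
    obtain ⟨f, hf, hff⟩ := hlarge θ hθ
    refine ⟨e, f, he, hf, ?_⟩
    simp only [hr]
    rw [hee, hXt, hff]
    ring
  have hpi : ∀ θ : ℝ, |θ| ≤ Real.pi → |θ| ≤ 4 := fun θ h => h.trans Real.pi_le_four
  have hmain := laplace_ne_zero hrc hwc (s := s) (T := 3 / a) (D := N / (2 * a ^ 2)) hs0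
    (by rw [le_div_iff₀ hap]; linarith)
    (by
      rw [div_le_iff₀ hap]
      have := Real.pi_gt_three
      nlinarith)
    (by
      intro θ hθ
      obtain ⟨e, f, he, hf, hrep⟩ := rep2 θ (h38 θ hθ)
      rw [hrep, hs2]
      exact near_alg ha hEre hEim hθ he hf)
    (by
      intro θ hθ
      obtain ⟨e, f, he, hf, hrep⟩ := rep2 θ (h38 θ (hcore3 θ hθ))
      rw [hrep, hs2]
      exact core_alg ha hEre hEim (hcoreθ θ hθ) he hf)
    (by
      intro θ hθ
      obtain ⟨μ, hμ, hμe⟩ := hS.QQ_rot hxr1 θ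
      have h1 : w θ - 1 = (exp ((-θ : ℝ) * I) - 1) + exp ((-θ : ℝ) * I) * μ := by
        simp only [hw]
        rw [hμe]
        field_simp
        ring
      have h2 : |θ| ≤ 3 / 1000 := (hcore3 θ hθ).trans (by gcongr)
      rw [h1]
      refine (norm_add_le _ _).trans ?_
      rw [norm_mul, norm_exp_ofReal_mul_I, one_mul]
      have h3 := expI_sub_one (-θ)
      rw [abs_neg] at h3
      have h4 : ‖μ‖ ≤ 2 * (1 / 100000) * (3 / 1000) := hμ.trans (by gcongr)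
      norm_num at h4
      linarith)
    (by
      intro θ hθ
      obtain ⟨μ, hμ, hμe⟩ := hS.QQ_rot hxr1 θ
      have h1 : w θ = exp ((-θ : ℝ) * I) * (1 + μ) := by
        simp only [hw]
        rw [hμe]
        field_simp
      rw [h1, norm_mul, norm_exp_ofReal_mul_I, one_mul]
      refine (norm_add_le _ _).trans ?_
      rw [norm_one]
      have h4 : ‖μ‖ ≤ 2 * (1 / 100000) * 4 := hμ.trans (by gcongr; exact hpi θ hθ)
      norm_num at h4
      linarith)
    (by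
      intro θ hθ1 hθ2
      obtain ⟨e, he, hee⟩ := rep1 θ
      obtain ⟨μ, hμ, hμe⟩ := hS.QQ_rot (hxrθ θ) (-θ)
      have h0 : ζ₁ + θ * I + ((-θ : ℝ) : ℂ) * I = ζ₁ := by push_cast; ring
      rw [h0, neg_neg] at hμe
      rw [abs_neg] at hμ
      have h1 : r θ = E * (exp ((-θ : ℝ) * I) - 1 + e)
          + (X / E) * ((g (ζ₁ + θ * I) * QQ p (ζ₁ + θ * I)) * exp (θ * I) * (1 + μ)
            - g ζ₁ * QQ p ζ₁) := by
        simp only [hr]
        rw [hee, hXt]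
        congr 1
        have h2 : (g (ζ₁ + θ * I) * QQ p (ζ₁ + θ * I)) * exp (θ * I) * (1 + μ)
            = g (ζ₁ + θ * I) * QQ p ζ₁ := by
          rw [hμe]; ring
        rw [h2]
        ring
      rw [h1]
      have hV0 : 0 < V := by rw [hVdef]; positivity
      have hv1 : ‖g ζ₁ * QQ p ζ₁‖ ≤ V := by
        have := hVb 0
        have h0 : ζ₁ + ((0 : ℝ) : ℂ) * I = ζ₁ := by simp
        rw [h0] at this
        exact this
      exact far_alg ha hX hV0 hEpos hEre hEim hXV hq (hmax θ) hv1 (hVb θ) hθ1 hθ2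
        (hμ.trans (le_of_eq (by ring))) he)
    (by
      have hD : 0 ≤ N / (2 * a ^ 2) := by positivity
      have h1 := Real.quadratic_le_exp_of_nonneg hD
      have h2 : 20 * N ≤ Real.exp (N / (2 * a ^ 2)) := by
        have h3 : 20 * N ≤ (N / (2 * a ^ 2)) ^ 2 / 2 := by
          have e1 : (N / (2 * a ^ 2)) ^ 2 / 2 = N * (N / (8 * a ^ 4)) := by field_simp; norm_num
          rw [e1]
          have h4 : 20 ≤ N / (8 * a ^ 4) := by
            rw [le_div_iff₀ (by positivity)]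
            have : 0 ≤ a ^ 4 := by positivity
            linarith
          calc 20 * N = N * 20 := mul_comm _ _
            _ ≤ N * (N / (8 * a ^ 4)) := by gcongr
        linarith
      have h5 : Real.sqrt (N * a) ≤ N := by
        rw [Real.sqrt_le_left hEpos.le]
        nlinarith
      rw [Real.exp_neg, hs, div_div, ← one_div]
      apply one_div_le_one_div_of_le (by positivity)
      linarith)
  refine ⟨t, ht0, ζ₁, hre1, ?_⟩
  have hfac : ∀ θ : ℝ, exp (-t * p (exp (-(ζ₁ + θ * I))) + X * g (ζ₁ + θ * I) / t) *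
        QQ p (ζ₁ + θ * I) = (exp (-t * p (exp (-ζ₁)) + X * g ζ₁ / t) * QQ p ζ₁) *
        (exp (r θ) * w θ) := by
    intro θ
    have e1 : -t * p (exp (-(ζ₁ + θ * I))) + X * g (ζ₁ + θ * I) / t
        = (-t * p (exp (-ζ₁)) + X * g ζ₁ / t) + r θ := by
      simp only [hr]; ring
    rw [e1, exp_add]
    simp only [hw]
    field_simp
  simp_rw [hfac]
  rw [intervalIntegral.integral_const_mul]
  exact mul_ne_zero (mul_ne_zero (exp_ne_zero _) hQ0) hmain

end Pool.Agent.MP_83fd13_an
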