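import Mathlib
import Pool.Agent.MP_83fd13_an.Ent10

namespace Pool.Agent.MP_83fd13_an

open Filter Set Complex Metric MeasureTheory
open scoped Topology

/-- The contour integrals `∮ exp (-t p(s) + X g / t) dp(s)` cannot all vanish when `g` has an
essential singularity. -/
theorem key {g : ℂ → ℂ} {x0 : ℝ} (hg : DifferentiableOn ℂ g (HP x0))
    (hper : ∀ ζ, g (ζ + 2 * Real.pi * I) = g ζ)
    (hgrow : ∀ k : ℕ, ∃ c : ℝ, 0 < c ∧ ∀ x, x0 < x → c * Real.exp (k * x) ≤ MM g x)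
    {p : ℂ → ℂ} {r : ℝ} (hr : 0 < r) (hp : DifferentiableOn ℂ p (ball 0 r))
    (hp0 : deriv p 0 ≠ 0) {X : ℝ} (hX : 0 < X) :
    ∃ t : ℂ, t ≠ 0 ∧ ∃ ζ₁ : ℂ, x0 < ζ₁.re ∧ Real.exp (-ζ₁.re) < r ∧
      ∫ θ in (-Real.pi)..Real.pi, exp (-t * p (exp (-(ζ₁ + θ * I))) + X * g (ζ₁ + θ * I) / t) *
        QQ p (ζ₁ + θ * I) ≠ 0 := by
  obtain ⟨K, r₂, hr₂, hS⟩ := exists_smooth hr hp hp0 (δ := 1 / 100000) (by norm_num) (by norm_num)
  have hpos : ∀ x, x0 < x → 0 < MM g x := by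
    intro x hx
    obtain ⟨c, hc, h⟩ := hgrow 0
    exact lt_of_lt_of_le (by positivity) (h x hx)
  have hα := hS.α_pos
  set α := ‖deriv p 0‖ with hαdef
  have hr₂0 := hS.r₂_pos
  have hconv := log_MM_convex hg hper hpos
  set A : ℝ := 1000 + 1 / r₂ + 2 * 10 ^ 12 / (X * α) with hA
  have hA1 : 0 < 1 / r₂ := by positivity
  have hA2 : 0 < 2 * 10 ^ 12 / (X * α) := by positivity
  obtain ⟨x, a, hAx, hAa, ha0, hx0, hwin, hlog⟩ := good_radius hconv (by
    intro k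
    obtain ⟨c, hc, h⟩ := hgrow k
    refine ⟨-Real.log c, fun x hx => ?_⟩
    have h1 := Real.log_le_log (by positivity) (h x hx)
    rw [Real.log_mul hc.ne' (Real.exp_pos _).ne', Real.log_exp] at h1
    linarith) (L := 16) (by norm_num) (ε := 1 / 100000) (by norm_num) A
  have hG : Good g x0 x a := ⟨by linarith, hx0, hwin⟩
  have hxpos : 0 < x := by linarith
  have hxr : Real.exp (-x) ≤ r₂ := by
    rw [Real.exp_neg, inv_le_comm₀ (Real.exp_pos _) hr₂0, ← one_div]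
    have h1 := Real.add_one_le_exp x
    linarith
  have hMp := hpos x hG.x0lt
  have hbig : (10 ^ 6 * a ^ 4) ^ 2 ≤ 1 / 2 * (X * (α * Real.exp (-x)) * MM g x * a) := by
    have h1 : a ^ 10 * Real.exp x ^ 2 * Real.exp A ≤ MM g x := by
      rw [Real.le_log_iff_exp_le hMp] at hlog
      refine le_trans (le_of_eq ?_) hlog
      have e1 : Real.exp (10 * Real.log a) = a ^ 10 := by
        rw [show (10 : ℝ) * Real.log a = ((10 : ℕ) : ℝ) * Real.log a by norm_num,
          Real.exp_nat_mul, Real.exp_log ha0]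
      have e2 : Real.exp (2 * x) = Real.exp x ^ 2 := by
        rw [show (2 : ℝ) * x = ((2 : ℕ) : ℝ) * x by norm_num, Real.exp_nat_mul]
      rw [Real.exp_add (10 * Real.log a + 2 * x) A, Real.exp_add (10 * Real.log a) (2 * x),
        e1, e2]
    have h2 : 2 * 10 ^ 12 / (X * α) ≤ Real.exp A := by
      have := Real.add_one_le_exp A
      linarith
    have h3 : a ^ 7 ≤ a ^ 10 := pow_le_pow_right₀ (by linarith) (by norm_num)
    have h4 : Real.exp x ≤ Real.exp x ^ 2 := by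
      have : 1 ≤ Real.exp x := Real.one_le_exp hxpos.le
      nlinarith
    have hex := Real.exp_pos x
    have h5 : a ^ 7 * Real.exp x * (2 * 10 ^ 12 / (X * α)) ≤ MM g x := by
      refine le_trans ?_ h1
      gcongr
    have h6 : X * (α * Real.exp (-x)) * (a ^ 7 * Real.exp x * (2 * 10 ^ 12 / (X * α))) * a
        = 2 * (10 ^ 6 * a ^ 4) ^ 2 := by
      rw [Real.exp_neg]
      field_simp
    have h7 : X * (α * Real.exp (-x)) * (a ^ 7 * Real.exp x * (2 * 10 ^ 12 / (X * α))) * a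
        ≤ X * (α * Real.exp (-x)) * MM g x * a := by
      gcongr
    linarith
  obtain ⟨t, ht, ζ₁, hζ, hne⟩ := key_step hG hg hper hpos hS hxr hX hbig
  refine ⟨t, ht, ζ₁, by rw [hζ]; exact hG.x0lt, ?_, hne⟩
  rw [hζ]
  exact hxr.trans_lt hr₂

end Pool.Agent.MP_83fd13_an
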