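import Mathlib
import Pool.Agent.MP_83fd13_an.Weak4
import Pool.Agent.MP_83fd13_an.Disc
import Pool.Agent.MP_83fd13_an.Ident
import Pool.Agent.MP_83fd13_an.Ent6

namespace Pool.Agent.MP_83fd13_an

open MeasureTheory Filter
open scoped Topology ComplexConjugate

variable {Ω : Set ℂ} {lam c : ℝ} {u : ℂ → ℝ} {G : ℂ → ℂ}

/-- Exponential solutions of the Helmholtz equation have integral zero over `Ω`. -/
theorem SchifferSolution.plane_wave (h : SchifferSolution Ω lam c u G)
    (hb : Bornology.IsBounded Ω) (hΩ : MeasurableSet Ω) {t : ℂ} (ht : t ≠ 0) :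
    ∫ z in Ω, Complex.exp (-t * z) * conj (Complex.exp ((lam / 4 : ℝ) * z / conj t)) = 0 := by
  have hfin := finMeas hb
  have hlam := h.lam_pos
  obtain ⟨R, hR⟩ := hb.exists_norm_le
  set R' := max R 0 with hR'
  have hR'0 : 0 ≤ R' := le_max_right _ _
  have hRz : ∀ z ∈ Ω, ‖z‖ ≤ R' := fun z hz => (hR z hz).trans (le_max_left _ _)
  set H : ℕ → ℂ → ℂ := fun m z => (m.factorial : ℂ) * (-1 / t) ^ m * Complex.exp (-t * z) with hH
  have hexpd : ∀ z : ℂ, HasDerivAt (fun z => Complex.exp (-t * z)) (Complex.exp (-t * z) * (-t)) z := by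
    intro z
    have := ((hasDerivAt_id z).const_mul (-t)).cexp
    simpa using this
  have hdiff : ∀ m, DifferentiableOn ℂ (H m) Set.univ := by
    intro m z _
    exact ((hexpd z).const_mul _).differentiableAt.differentiableWithinAt
  have hder : ∀ m : ℕ, ∀ z ∈ Set.univ, deriv (H (m + 1)) z = ((m : ℂ) + 1) * H m z := by
    intro m z _
    rw [((hexpd z).const_mul _).deriv]
    simp only [hH]
    rw [Nat.factorial_succ, pow_succ]
    push_cast
    field_simp
  set y : ℝ := lam * R' / (4 * ‖t‖) with hy
  have htn : 0 < ‖t‖ := norm_pos_iff.2 ht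
  have hcc : ∀ m : ℕ, |cc lam m| = (lam / 4) ^ m / (m.factorial : ℝ) ^ 2 := by
    intro m
    rw [cc, abs_div, abs_pow, abs_div, abs_neg, abs_of_pos hlam,
      abs_of_pos (by norm_num : (0:ℝ) < 4)]
    congr 1
    exact abs_of_nonneg (by positivity)
  set B : ℕ → ℝ := fun m => y ^ m / m.factorial * Real.exp (‖t‖ * R') with hB
  have hbound : ∀ m, ∀ z ∈ Ω, |cc lam m| * ‖(conj z) ^ m * H m z‖ ≤ B m := by
    intro m z hz
    have h1 : ‖Complex.exp (-t * z)‖ ≤ Real.exp (‖t‖ * R') := by
      rw [Complex.norm_exp, Real.exp_le_exp]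
      refine (Complex.re_le_norm _).trans ?_
      rw [norm_mul, norm_neg]
      gcongr
      exact hRz z hz
    have h2 : ‖(conj z) ^ m * H m z‖
        ≤ R' ^ m * (m.factorial * (1 / ‖t‖) ^ m * Real.exp (‖t‖ * R')) := by
      simp only [hH]
      rw [norm_mul, norm_mul, norm_mul, norm_pow, norm_pow, RCLike.norm_conj, norm_div, norm_neg,
        norm_one, Complex.norm_natCast]
      gcongr
      exact hRz z hz
    rw [hcc]
    calc (lam / 4) ^ m / (m.factorial : ℝ) ^ 2 * ‖(conj z) ^ m * H m z‖
        ≤ (lam / 4) ^ m / (m.factorial : ℝ) ^ 2 *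
          (R' ^ m * (m.factorial * (1 / ‖t‖) ^ m * Real.exp (‖t‖ * R'))) := by gcongr
      _ = B m := by
        simp only [hB, hy]
        rw [div_pow, div_pow, div_pow, mul_pow, mul_pow, one_pow]
        field_simp
  have hB0 : Tendsto B atTop (𝓝 0) := by
    have := (FloorSemiring.tendsto_pow_div_factorial_atTop y).mul_const (Real.exp (‖t‖ * R'))
    rwa [zero_mul] at this
  have hlimit := h.tendsto_moments hb hΩ isOpen_univ (Set.subset_univ _) hdiff hder B hbound hB0
  -- the series of integrals
  have hsum : HasSum (fun m => ∫ z in Ω, (cc lam m : ℂ) * ((conj z) ^ m * H m z))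
      (∫ z in Ω, Complex.exp (-t * z) * conj (Complex.exp ((lam / 4 : ℝ) * z / conj t))) := by
    apply hasSum_integral_of_dominated_convergence (fun m _ => B m)
    · intro m
      apply Continuous.aestronglyMeasurable
      have : Continuous (fun z : ℂ => conj z) := Complex.continuous_conj
      simp only [hH]
      fun_prop
    · intro m
      refine (ae_restrict_iff' hΩ).2 (Eventually.of_forall fun z hz => ?_)
      rw [norm_mul, Complex.norm_real, Real.norm_eq_abs]
      exact hbound m z hz
    · refine Eventually.of_forall fun z => ?_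
      exact (Real.summable_pow_div_factorial y).mul_right _
    · exact integrable_const _
    · refine (ae_restrict_iff' hΩ).2 (Eventually.of_forall fun z _ => ?_)
      have h1 : conj (Complex.exp ((lam / 4 : ℝ) * z / conj t))
          = Complex.exp ((lam / 4 : ℝ) * conj z / t) := by
        rw [← Complex.exp_conj, map_div₀, map_mul, Complex.conj_ofReal, Complex.conj_conj]
      rw [h1]
      have h2 := (NormedSpace.expSeries_div_hasSum_exp (((lam / 4 : ℝ) : ℂ) * conj z / t)).mul_left
        (Complex.exp (-t * z))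
      rw [← Complex.exp_eq_exp_ℂ] at h2
      have hfun : (fun m : ℕ => (cc lam m : ℂ) * ((conj z) ^ m * H m z))
          = fun m : ℕ => Complex.exp (-t * z) *
            ((((lam / 4 : ℝ) : ℂ) * conj z / t) ^ m / (m.factorial : ℂ)) := by
        funext m
        have hm : (m.factorial : ℂ) ≠ 0 := by exact_mod_cast m.factorial_ne_zero
        simp only [hH, cc]
        push_cast
        have e1 : (-(lam : ℂ) / 4) ^ m * (-1 / t) ^ m = ((lam : ℂ) / 4 / t) ^ m := by
          rw [← mul_pow]; congr 1; field_simp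
        have e2 : ((lam : ℂ) / 4 * conj z / t) ^ m = ((lam : ℂ) / 4 / t) ^ m * (conj z) ^ m := by
          rw [← mul_pow]; congr 1; ring
        rw [e2, ← e1]
        field_simp
      rw [hfun]
      first | exact h2 | (rw [h1]; exact h2)
  have h3 := (hsum.tendsto_sum_nat).comp (tendsto_add_atTop_nat 1)
  have h4 : (fun M => ∑ m ∈ Finset.range (M + 1), (cc lam m : ℂ) *
      ∫ z in Ω, (conj z) ^ m * H m z)
      = (fun n => ∑ i ∈ Finset.range n, ∫ z in Ω, (cc lam i : ℂ) * ((conj z) ^ i * H i z)) ∘
        fun a => a + 1 := by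
    funext M
    simp only [Function.comp]
    apply Finset.sum_congr rfl
    intro m _
    rw [integral_const_mul]
  rw [h4] at hlimit
  exact tendsto_nhds_unique h3 hlimit

end Pool.Agent.MP_83fd13_an
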