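import Mathlib

namespace Pool.Agent.MP_83fd13_an

open Filter
open scoped Topology

/-- A function holomorphic near `w₀` and injective on a neighbourhood of `w₀` has nonzero
derivative at `w₀`. -/
theorem deriv_ne_zero_of_injOn {f : ℂ → ℂ} {w₀ : ℂ} {U : Set ℂ} (hU : U ∈ 𝓝 w₀)
    (hf : AnalyticAt ℂ f w₀) (hinj : Set.InjOn f U) : deriv f w₀ ≠ 0 := by
  intro hd
  have hF : AnalyticAt ℂ (fun z => f z - f w₀) w₀ := hf.sub analyticAt_const
  have hne : ¬ ∀ᶠ z in 𝓝 w₀, f z - f w₀ = 0 := by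
    intro h
    have h1 : ∀ᶠ z in 𝓝[≠] w₀, f z - f w₀ = 0 := h.filter_mono nhdsWithin_le_nhds
    have h2 : ∀ᶠ z in 𝓝[≠] w₀, z ∈ U := nhdsWithin_le_nhds hU
    have h3 : ∀ᶠ z in 𝓝[≠] w₀, z ≠ w₀ := eventually_mem_nhdsWithin
    obtain ⟨z, hz1, hz2, hz3⟩ := (h1.and (h2.and h3)).exists
    exact hz3 (hinj hz2 (mem_of_mem_nhds hU) (sub_eq_zero.1 hz1))
  obtain ⟨n, g, hg, hg0, hfg⟩ := (hF.exists_eventuallyEq_pow_smul_nonzero_iff).2 hne
  have hn2 : 2 ≤ n := by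
    by_contra hn
    push Not at hn
    interval_cases n
    · have := hfg.self_of_nhds
      simp at this
      exact hg0 this.symm
    · have h1 : HasDerivAt (fun z => (z - w₀) ^ 1 • g z) (g w₀) w₀ := by
        have h2 : HasDerivAt (fun z => (z - w₀)) 1 w₀ := (hasDerivAt_id w₀).sub_const w₀
        have h3 := h2.fun_mul hg.differentiableAt.hasDerivAt
        simpa using h3
      have h4 : HasDerivAt (fun z => f z - f w₀) (g w₀) w₀ := h1.congr_of_eventuallyEq hfg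
      have h5 : HasDerivAt (fun z => f z - f w₀) (deriv f w₀) w₀ :=
        hf.differentiableAt.hasDerivAt.sub_const _
      rw [h4.unique h5] at hg0
      exact hg0 hd
  have hn0 : (n : ℂ) ≠ 0 := by
    have : n ≠ 0 := by omega
    exact_mod_cast this
  -- local root
  obtain ⟨c, hc⟩ : ∃ c : ℂ, c ^ n = g w₀ := IsAlgClosed.exists_pow_nat_eq (g w₀) (by omega)
  have hc0 : c ≠ 0 := by
    rintro rfl
    rw [zero_pow (by omega)] at hc
    exact hg0 hc.symm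
  set k : ℂ → ℂ := fun z => Complex.exp (Complex.log (g z / g w₀) / n) with hk
  have hkA : AnalyticAt ℂ k w₀ := by
    have h1 : AnalyticAt ℂ (fun z => g z / g w₀) w₀ := hg.div_const
    have h2 : AnalyticAt ℂ (fun z => Complex.log (g z / g w₀)) w₀ := by
      apply h1.clog
      simp [hg0]
    exact (h2.div_const).cexp
  have hkn : ∀ᶠ z in 𝓝 w₀, k z ^ n * g w₀ = g z := by
    have h1 : ∀ᶠ z in 𝓝 w₀, g z ≠ 0 := hg.continuousAt.eventually_ne hg0
    filter_upwards [h1] with z hz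
    simp only [hk]
    rw [← Complex.exp_nat_mul, mul_div_cancel₀ _ hn0, Complex.exp_log (div_ne_zero hz hg0)]
    field_simp
  set ζ : ℂ → ℂ := fun z => (z - w₀) * (c * k z) with hζ
  have hk0 : k w₀ = 1 := by simp [hk, hg0]
  have hζd : HasStrictDerivAt ζ c w₀ := by
    have hA : AnalyticAt ℂ ζ w₀ := (analyticAt_id.sub analyticAt_const).mul
      (analyticAt_const.mul hkA)
    have h1 : HasDerivAt ζ c w₀ := by
      have h2 : HasDerivAt (fun z => (z - w₀)) 1 w₀ := (hasDerivAt_id w₀).sub_const w₀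
      have h3 := h2.fun_mul ((hkA.differentiableAt.hasDerivAt).const_mul c)
      simpa [hk0] using h3
    have := hA.hasStrictDerivAt
    rwa [h1.deriv] at this
  have hζ0 : ζ w₀ = 0 := by simp [hζ]
  have hfζ : ∀ᶠ z in 𝓝 w₀, f z = f w₀ + ζ z ^ n := by
    filter_upwards [hfg, hkn] with z h1 h2
    have h3 : f z = f w₀ + (z - w₀) ^ n • g z := by rw [← h1]; ring
    rw [h3, hζ, smul_eq_mul]
    simp only
    rw [mul_pow, mul_pow, hc, ← h2]; ring
  set V : Set ℂ := U ∩ {z | f z = f w₀ + ζ z ^ n} with hV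
  have hVn : V ∈ 𝓝 w₀ := inter_mem hU hfζ
  have him : ζ '' V ∈ 𝓝 (0 : ℂ) := by
    rw [← hζ0, ← hζd.map_nhds_eq hc0]
    exact image_mem_map hVn
  set ω : ℂ := Complex.exp (2 * Real.pi * Complex.I / n) with hω
  have hprim : IsPrimitiveRoot ω n := Complex.isPrimitiveRoot_exp n (by omega)
  have hω1 : ω ≠ 1 := hprim.ne_one (by omega)
  have hωn : ω ^ n = 1 := hprim.pow_eq_one
  have hmul : ∀ᶠ t in 𝓝 (0 : ℂ), ω * t ∈ ζ '' V := by
    have h1 : Tendsto (fun t : ℂ => ω * t) (𝓝 0) (𝓝 (ω * 0)) :=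
      (continuous_const.mul continuous_id).tendsto 0
    rw [mul_zero] at h1
    exact h1 him
  have hboth : ∀ᶠ t in 𝓝[≠] (0 : ℂ), t ∈ ζ '' V ∧ ω * t ∈ ζ '' V ∧ t ≠ 0 := by
    have h1 : ∀ᶠ t in 𝓝[≠] (0 : ℂ), t ∈ ζ '' V := nhdsWithin_le_nhds him
    have h2 : ∀ᶠ t in 𝓝[≠] (0 : ℂ), ω * t ∈ ζ '' V := hmul.filter_mono nhdsWithin_le_nhds
    have h3 : ∀ᶠ t in 𝓝[≠] (0 : ℂ), t ≠ 0 := eventually_mem_nhdsWithin
    exact h1.and (h2.and h3)
  obtain ⟨t, ⟨z1, hz1, ht1⟩, ⟨z2, hz2, ht2⟩, ht0⟩ := hboth.exists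
  have e1 : f z1 = f w₀ + t ^ n := by rw [hz1.2, ht1]
  have e2 : f z2 = f w₀ + t ^ n := by rw [hz2.2, ht2, mul_pow, hωn, one_mul]
  have e3 : z1 = z2 := hinj hz1.1 hz2.1 (e1.trans e2.symm)
  rw [e3, ht2] at ht1
  have : (ω - 1) * t = 0 := by linear_combination ht1
  rcases mul_eq_zero.1 this with h | h
  · exact hω1 (sub_eq_zero.1 h)
  · exact ht0 h

end Pool.Agent.MP_83fd13_an
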