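import Mathlib
import Pool.Agent.MP_83fd13_an.Ent12
import Pool.Agent.MP_83fd13_an.Inj

namespace Pool.Agent.MP_83fd13_an

open MeasureTheory Filter
open scoped Topology ComplexConjugate

/-- Taylor coefficients at the origin. -/
noncomputable def tc (f : ℂ → ℂ) (n : ℕ) : ℂ := ((n.factorial : ℂ))⁻¹ * iteratedDeriv n f 0

theorem hasSum_tc {f : ℂ → ℂ} (hf : Differentiable ℂ f) (w : ℂ) :
    HasSum (fun n => tc f n * w ^ n) (f w) := by
  have h := Complex.hasSum_taylorSeries_of_entire hf 0 w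
  have hfun : (fun n : ℕ => tc f n * w ^ n) =
      fun n : ℕ => ((n.factorial : ℂ))⁻¹ • (w - 0) ^ n • iteratedDeriv n f 0 := by
    funext n
    rw [tc, sub_zero, smul_eq_mul, smul_eq_mul]
    ring
  rw [hfun]
  exact h

theorem summable_tc {f : ℂ → ℂ} (hf : Differentiable ℂ f) {r : ℝ} (hr : 0 ≤ r) :
    Summable fun n => ‖tc f n‖ * r ^ n := by
  have h := (hasSum_tc hf (r : ℂ)).summable.norm
  have hfun : (fun n : ℕ => ‖tc f n‖ * r ^ n) = fun n : ℕ => ‖tc f n * (r : ℂ) ^ n‖ := by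
    funext n
    rw [norm_mul, norm_pow, Complex.norm_real, Real.norm_eq_abs, abs_of_nonneg hr]
  rw [hfun]
  exact h

theorem tc_deriv {f : ℂ → ℂ} (n : ℕ) : tc (deriv f) n = ((n : ℂ) + 1) * tc f (n + 1) := by
  rw [tc, tc, iteratedDeriv_succ', Nat.factorial_succ]
  have h1 : (n.factorial : ℂ) ≠ 0 := by exact_mod_cast n.factorial_ne_zero
  have h2 : ((n : ℂ) + 1) ≠ 0 := Nat.cast_add_one_ne_zero n
  push_cast
  field_simp

end Pool.Agent.MP_83fd13_an
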