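import Mathlib
import Pool.Agent.MP_83fd13_an.Ent13

namespace Pool.Agent.MP_83fd13_an

open MeasureTheory Filter
open scoped Topology ComplexConjugate

/-- The area integral as a sum over coefficients. -/
theorem area_eq_zero {A B : ℂ → ℂ} (hA : Differentiable ℂ A) (hB : Differentiable ℂ B)
    (h0 : ∫ w in Metric.ball (0 : ℂ) 1, A w * conj (deriv B w) = 0) :
    HasSum (fun n => tc A n * conj (tc B (n + 1))) 0 := by
  have hB' : Differentiable ℂ (deriv B) := by
    have h1 : AnalyticOnNhd ℂ B Set.univ := fun z _ => hB.analyticAt z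
    intro z
    exact (h1.deriv z (Set.mem_univ z)).differentiableAt
  have hx : Summable fun n => ‖tc A n‖ := by
    have h := summable_tc hA zero_le_one
    have hfun : (fun n : ℕ => ‖tc A n‖) = fun n : ℕ => ‖tc A n‖ * 1 ^ n := by
      funext n
      rw [one_pow, mul_one]
    rw [hfun]
    exact h
  have hy : Summable fun n => ‖tc (deriv B) n‖ := by
    have h := summable_tc hB' zero_le_one
    have hfun : (fun n : ℕ => ‖tc (deriv B) n‖) = fun n : ℕ => ‖tc (deriv B) n‖ * 1 ^ n := by
      funext n
      rw [one_pow, mul_one]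
    rw [hfun]
    exact h
  have h1 := hasSum_disc hx hy (fun w _ => hasSum_tc hA w) (fun w _ => hasSum_tc hB' w)
    hB'.continuous.continuousOn
  rw [h0] at h1
  have hpi : (Real.pi : ℂ) ≠ 0 := by exact_mod_cast Real.pi_ne_zero
  have h2 := h1.mul_left ((Real.pi : ℂ)⁻¹)
  rw [mul_zero] at h2
  have hfun : (fun n : ℕ => tc A n * conj (tc B (n + 1))) =
      fun n : ℕ => ((Real.pi : ℂ))⁻¹ * (tc A n * (conj (tc (deriv B) n) * ((Real.pi / (n + 1) : ℝ) : ℂ))) := by
    funext n
    rw [tc_deriv]
    have h3 : ((n : ℂ) + 1) ≠ 0 := Nat.cast_add_one_ne_zero n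
    rw [map_mul, map_add, map_natCast, map_one, Complex.ofReal_div, Complex.ofReal_add,
      Complex.ofReal_natCast, Complex.ofReal_one]
    field_simp
  rw [hfun]
  exact h2

end Pool.Agent.MP_83fd13_an
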