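import Mathlib
import Pool.Agent.MP_83fd13_an.Ent13

namespace Pool.Agent.MP_83fd13_an

open MeasureTheory Filter
open scoped Topology ComplexConjugate

theorem hasSum_left {A : ℂ → ℂ} (hA : Differentiable ℂ A) (ζ : ℂ) :
    HasSum (fun n : ℕ => tc A n * Complex.exp (-((n : ℂ) + 1) * ζ))
          (Complex.exp (-ζ) * A (Complex.exp (-ζ))) := by
  have h := (hasSum_tc hA (Complex.exp (-ζ))).mul_left (Complex.exp (-ζ))
  have hfun : (fun n : ℕ => tc A n * Complex.exp (-((n : ℂ) + 1) * ζ)) =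
      fun n : ℕ => Complex.exp (-ζ) * (tc A n * Complex.exp (-ζ) ^ n) := by
    funext n
    rw [← Complex.exp_nat_mul]
    have h1 : Complex.exp (-((n : ℂ) + 1) * ζ) = Complex.exp (-ζ) * Complex.exp (n * -ζ) := by
      rw [← Complex.exp_add]; congr 1; ring
    rw [h1]; ring
  rw [hfun]
  exact h

theorem hasSum_right {B : ℂ → ℂ} (hB : Differentiable ℂ B) (ζ : ℂ) :
    HasSum (fun n : ℕ => conj (tc B n) * Complex.exp ((n : ℂ) * ζ))
          (conj (B (conj (Complex.exp ζ)))) := by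
  have h := (Complex.hasSum_conj'.2 (hasSum_tc hB (conj (Complex.exp ζ))))
  have hfun : (fun n : ℕ => conj (tc B n) * Complex.exp ((n : ℂ) * ζ)) =
      fun n : ℕ => conj (tc B n * conj (Complex.exp ζ) ^ n) := by
    funext n
    rw [map_mul, map_pow, Complex.conj_conj, ← Complex.exp_nat_mul]
  rw [hfun]
  exact h

theorem integral_exp_int {c : ℂ} {m : ℤ} (hm : m ≠ 0) (hc : c = (m : ℂ) * Complex.I) :
    ∫ θ in (-Real.pi)..Real.pi, Complex.exp (c * (θ : ℂ)) = 0 := by
  have hne : c ≠ 0 := by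
    rw [hc]
    exact mul_ne_zero (by exact_mod_cast hm) Complex.I_ne_zero
  rw [integral_exp_mul_complex hne]
  have h : Complex.exp (c * ((Real.pi : ℝ) : ℂ)) = Complex.exp (c * ((-Real.pi : ℝ) : ℂ)) := by
    rw [Complex.exp_eq_exp_iff_exists_int]
    refine ⟨m, ?_⟩
    rw [hc, Complex.ofReal_neg]
    ring
  rw [h, sub_self, zero_div]

theorem term_integral (a b : ℂ) (n j : ℕ) (ζ₁ : ℂ) :
    ∫ θ in (-Real.pi)..Real.pi, (a * Complex.exp (-((n : ℂ) + 1) * (ζ₁ + (θ : ℂ) * Complex.I)))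
      * (b * Complex.exp ((j : ℂ) * (ζ₁ + (θ : ℂ) * Complex.I)))
      = if j = n + 1 then 2 * Real.pi * (a * b) else 0 := by
  have e1 : ∀ θ : ℝ, (a * Complex.exp (-((n : ℂ) + 1) * (ζ₁ + (θ : ℂ) * Complex.I)))
      * (b * Complex.exp ((j : ℂ) * (ζ₁ + (θ : ℂ) * Complex.I))) = (a * b *
        Complex.exp (((j : ℂ) - (n + 1)) * ζ₁)) *
        Complex.exp ((((j : ℂ) - (n + 1)) * Complex.I) * (θ : ℂ)) := by
    intro θ
    have h : Complex.exp (-((n : ℂ) + 1) * (ζ₁ + (θ : ℂ) * Complex.I)) *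
        Complex.exp ((j : ℂ) * (ζ₁ + (θ : ℂ) * Complex.I))
        = Complex.exp (((j : ℂ) - (n + 1)) * ζ₁) *
          Complex.exp ((((j : ℂ) - (n + 1)) * Complex.I) * (θ : ℂ)) := by
      rw [← Complex.exp_add, ← Complex.exp_add]; congr 1; ring
    linear_combination (a * b) * h
  have e2 : (fun θ : ℝ => (a * Complex.exp (-((n : ℂ) + 1) * (ζ₁ + (θ : ℂ) * Complex.I)))
      * (b * Complex.exp ((j : ℂ) * (ζ₁ + (θ : ℂ) * Complex.I)))) = fun θ : ℝ => (a * b *
        Complex.exp (((j : ℂ) - (n + 1)) * ζ₁)) *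
        Complex.exp ((((j : ℂ) - (n + 1)) * Complex.I) * (θ : ℂ)) := funext e1
  rw [e2, intervalIntegral.integral_const_mul]
  by_cases hj : j = n + 1
  · have h0 : (j : ℂ) - (n + 1) = 0 := by
      rw [hj]; push_cast; ring
    rw [if_pos hj, h0]
    have e3 : (fun θ : ℝ => Complex.exp ((0 * Complex.I) * (θ : ℂ))) = fun _ : ℝ => (1 : ℂ) := by
      funext θ
      rw [zero_mul, zero_mul, Complex.exp_zero]
    rw [e3, intervalIntegral.integral_const, zero_mul, Complex.exp_zero, Complex.real_smul]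
    push_cast
    ring
  · rw [if_neg hj, integral_exp_int (m := (j : ℤ) - (n + 1)), mul_zero]
    · intro h
      apply hj
      omega
    · push_cast
      ring

end Pool.Agent.MP_83fd13_an
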