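import Mathlib
import Pool.Agent.MP_83fd13_an.Ent15

namespace Pool.Agent.MP_83fd13_an

open MeasureTheory Filter
open scoped Topology ComplexConjugate

/-- the general term of the double series on the line -/
noncomputable def FF (A B : ℂ → ℂ) (ζ₁ : ℂ) (q : ℕ × ℕ) (θ : ℝ) : ℂ :=
  (tc A q.1 * Complex.exp (-((q.1 : ℂ) + 1) * (ζ₁ + (θ : ℂ) * Complex.I)))
    * (conj (tc B q.2) * Complex.exp ((q.2 : ℂ) * (ζ₁ + (θ : ℂ) * Complex.I)))

noncomputable def FB (A B : ℂ → ℂ) (ρ : ℝ) (q : ℕ × ℕ) : ℝ :=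
  (Real.exp (-ρ) * (‖tc A q.1‖ * Real.exp (-ρ) ^ q.1)) * (‖tc B q.2‖ * Real.exp ρ ^ q.2)

theorem norm_FF (A B : ℂ → ℂ) (ζ₁ : ℂ) (q : ℕ × ℕ) (θ : ℝ) :
    ‖FF A B ζ₁ q θ‖ = FB A B ζ₁.re q := by
  have hn1 : ∀ (n : ℕ), ‖Complex.exp (-((n : ℂ) + 1) * (ζ₁ + (θ : ℂ) * Complex.I))‖
      = Real.exp (-ζ₁.re) * Real.exp (-ζ₁.re) ^ n := by
    intro n
    rw [Complex.norm_exp, ← pow_succ', ← Real.exp_nat_mul]
    congr 1
    simp
    ring
  have hn2 : ∀ (n : ℕ), ‖Complex.exp ((n : ℂ) * (ζ₁ + (θ : ℂ) * Complex.I))‖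
      = Real.exp ζ₁.re ^ n := by
    intro n
    rw [Complex.norm_exp, ← Real.exp_nat_mul]
    congr 1
    simp
  unfold FF FB
  rw [norm_mul, norm_mul, norm_mul, hn1, hn2, RCLike.norm_conj]
  ring

theorem summable_FB {A B : ℂ → ℂ} (hA : Differentiable ℂ A) (hB : Differentiable ℂ B) (ρ : ℝ) :
    Summable (FB A B ρ) := by
  have hs1 : Summable fun n : ℕ => Real.exp (-ρ) * (‖tc A n‖ * Real.exp (-ρ) ^ n) :=
    (summable_tc hA (Real.exp_pos _).le).mul_left _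
  have hs2 : Summable fun n : ℕ => ‖tc B n‖ * Real.exp ρ ^ n := summable_tc hB (Real.exp_pos _).le
  have h1 : ∀ n : ℕ, 0 ≤ Real.exp (-ρ) * (‖tc A n‖ * Real.exp (-ρ) ^ n) := fun n => by positivity
  have h2 : ∀ n : ℕ, 0 ≤ ‖tc B n‖ * Real.exp ρ ^ n := fun n => by positivity
  have h3 := Summable.mul_of_nonneg hs1 hs2 h1 h2
  unfold FB
  exact h3

theorem hasSum_FF {A B : ℂ → ℂ} (hA : Differentiable ℂ A) (hB : Differentiable ℂ B) (ζ₁ : ℂ)
    (θ : ℝ) : HasSum (fun q => FF A B ζ₁ q θ)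
      ((Complex.exp (-(ζ₁ + (θ : ℂ) * Complex.I)) *
        A (Complex.exp (-(ζ₁ + (θ : ℂ) * Complex.I)))) *
        conj (B (conj (Complex.exp (ζ₁ + (θ : ℂ) * Complex.I))))) := by
  have hsn : Summable fun q : ℕ × ℕ => FF A B ζ₁ q θ := by
    apply Summable.of_norm
    have h : (fun q => ‖FF A B ζ₁ q θ‖) = FB A B ζ₁.re := by
      funext q
      exact norm_FF A B ζ₁ q θ
    rw [h]
    exact summable_FB hA hB _
  have hl := hasSum_left hA (ζ₁ + (θ : ℂ) * Complex.I)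
  have hr := hasSum_right hB (ζ₁ + (θ : ℂ) * Complex.I)
  unfold FF at hsn ⊢
  have h := HasSum.mul hl hr hsn
  exact h

theorem continuous_FF (A B : ℂ → ℂ) (ζ₁ : ℂ) (q : ℕ × ℕ) :
    Continuous fun θ : ℝ => FF A B ζ₁ q θ := by
  unfold FF
  fun_prop

theorem hasSum_int {A B : ℂ → ℂ} (hA : Differentiable ℂ A) (hB : Differentiable ℂ B) (ζ₁ : ℂ) :
    HasSum (fun q => ∫ θ in (-Real.pi)..Real.pi, FF A B ζ₁ q θ)
      (∫ θ in (-Real.pi)..Real.pi, (Complex.exp (-(ζ₁ + (θ : ℂ) * Complex.I)) *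
        A (Complex.exp (-(ζ₁ + (θ : ℂ) * Complex.I)))) *
        conj (B (conj (Complex.exp (ζ₁ + (θ : ℂ) * Complex.I))))) := by
  apply intervalIntegral.hasSum_integral_of_dominated_convergence (fun q _ => FB A B ζ₁.re q)
  · intro q
    exact (continuous_FF A B ζ₁ q).aestronglyMeasurable
  · intro q
    exact Eventually.of_forall fun θ _ => (norm_FF A B ζ₁ q θ).le
  · exact Eventually.of_forall fun θ _ => summable_FB hA hB _
  · exact intervalIntegrable_const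
  · exact Eventually.of_forall fun θ _ => hasSum_FF hA hB ζ₁ θ

/-- The line integral as a sum over coefficients. -/
theorem line_integral {A B : ℂ → ℂ} (hA : Differentiable ℂ A) (hB : Differentiable ℂ B)
    (h0 : HasSum (fun n => tc A n * conj (tc B (n + 1))) 0) (ζ₁ : ℂ) :
    ∫ θ in (-Real.pi)..Real.pi, (Complex.exp (-(ζ₁ + (θ : ℂ) * Complex.I)) *
      A (Complex.exp (-(ζ₁ + (θ : ℂ) * Complex.I)))) *
      conj (B (conj (Complex.exp (ζ₁ + (θ : ℂ) * Complex.I)))) = 0 := by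
  have hsum := hasSum_int hA hB ζ₁
  have hint : (fun q : ℕ × ℕ => ∫ θ in (-Real.pi)..Real.pi, FF A B ζ₁ q θ)
      = fun q : ℕ × ℕ => if q.2 = q.1 + 1 then 2 * (Real.pi : ℂ) * (tc A q.1 * conj (tc B q.2))
        else 0 := by
    funext q
    exact term_integral (tc A q.1) (conj (tc B q.2)) q.1 q.2 ζ₁
  rw [hint] at hsum
  -- restrict to the graph
  have hinj : Function.Injective (fun n : ℕ => (n, n + 1)) := fun a b hab =>
    (Prod.ext_iff.1 hab).1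
  have h3 := (hinj.hasSum_iff (f := fun q : ℕ × ℕ =>
    if q.2 = q.1 + 1 then 2 * (Real.pi : ℂ) * (tc A q.1 * conj (tc B q.2)) else 0) (by
      rintro ⟨n, j⟩ hq
      apply if_neg
      intro h
      exact hq ⟨n, by rw [show j = n + 1 from h]⟩)).2 hsum
  have h4 := h0.mul_left (2 * (Real.pi : ℂ))
  rw [mul_zero] at h4
  have h5 : ((fun q : ℕ × ℕ =>
    if q.2 = q.1 + 1 then 2 * (Real.pi : ℂ) * (tc A q.1 * conj (tc B q.2)) else 0) ∘
      fun n : ℕ => (n, n + 1)) = fun n => 2 * (Real.pi : ℂ) * (tc A n * conj (tc B (n + 1))) := by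
    funext n
    exact if_pos rfl
  rw [h5] at h3
  exact h3.unique h4

end Pool.Agent.MP_83fd13_an
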