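import Mathlib
import Pool.Agent.MP_83fd13_an.Ent16
import Pool.Agent.MP_83fd13_an.Ent2

namespace Pool.Agent.MP_83fd13_an

open MeasureTheory Filter
open scoped Topology ComplexConjugate

theorem poly_of_tc {φ : ℂ → ℂ} (hφ : Differentiable ℂ φ) {k : ℕ}
    (h : ∀ n, k ≤ n → tc φ n = 0) : ∃ p : Polynomial ℂ, φ = fun w => p.eval w := by
  refine ⟨∑ n ∈ Finset.range k, Polynomial.monomial n (tc φ n), ?_⟩
  funext w
  rw [Polynomial.eval_finsetSum]
  have h1 := hasSum_tc hφ w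
  have h2 : HasSum (fun n => tc φ n * w ^ n) (∑ n ∈ Finset.range k, tc φ n * w ^ n) := by
    apply hasSum_sum_of_ne_finset_zero
    intro n hn
    rw [h n (by simpa using hn), zero_mul]
  rw [h1.unique h2]
  apply Finset.sum_congr rfl
  intro n _
  rw [Polynomial.eval_monomial]

/-- The reflected function read on the right half plane. -/
noncomputable def gg (φ : ℂ → ℂ) (ζ : ℂ) : ℂ := conj (φ (conj (Complex.exp ζ)))

theorem differentiable_gg {φ : ℂ → ℂ} (hφ : Differentiable ℂ φ) : Differentiable ℂ (gg φ) := by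
  intro ζ
  have h1 : DifferentiableAt ℂ (conj ∘ φ ∘ conj) (Complex.exp ζ) :=
    differentiableAt_conj_conj_iff.2 (hφ _)
  exact h1.comp ζ Complex.differentiableAt_exp

theorem gg_per (φ : ℂ → ℂ) (ζ : ℂ) : gg φ (ζ + 2 * Real.pi * Complex.I) = gg φ ζ := by
  rw [gg, gg, Complex.exp_periodic ζ]

theorem norm_le_MM_gg {φ : ℂ → ℂ} (hφ : Differentiable ℂ φ) (x : ℝ) (w : ℂ)
    (hw : ‖w‖ = Real.exp x) : ‖φ w‖ ≤ MM (gg φ) x := by
  have hg : DifferentiableOn ℂ (gg φ) (HP (x - 1)) := (differentiable_gg hφ).differentiableOn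
  have hζ : x - 1 < ((x : ℂ) + (-w.arg : ℝ) * Complex.I).re := by simp
  have h := norm_le_MM hg (gg_per φ) hζ
  have h1 : ((x : ℂ) + (-w.arg : ℝ) * Complex.I).re = x := by simp
  rw [h1] at h
  have h2 : conj (Complex.exp ((x : ℂ) + (-w.arg : ℝ) * Complex.I)) = w := by
    have h3 := Complex.norm_mul_exp_arg_mul_I w
    rw [hw] at h3
    refine Eq.trans ?_ h3
    rw [← Complex.exp_conj, map_add, map_mul, Complex.conj_ofReal, Complex.conj_ofReal,
      Complex.conj_I, Complex.ofReal_exp, ← Complex.exp_add]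
    congr 1
    push_cast
    ring
  rw [gg, h2, RCLike.norm_conj] at h
  exact h

theorem growth {φ : ℂ → ℂ} (hφ : Differentiable ℂ φ)
    (hpoly : ∀ p : Polynomial ℂ, φ ≠ fun w => p.eval w) (k : ℕ) :
    ∃ c : ℝ, 0 < c ∧ ∀ x, 0 < x → c * Real.exp (k * x) ≤ MM (gg φ) x := by
  obtain ⟨n, hkn, hn⟩ : ∃ n, k ≤ n ∧ tc φ n ≠ 0 := by
    by_contra hcon
    push Not at hcon
    obtain ⟨p, hp⟩ := poly_of_tc hφ hcon
    exact hpoly p hp
  refine ⟨‖tc φ n‖, norm_pos_iff.2 hn, fun x hx => ?_⟩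
  have h1 := Complex.norm_iteratedDeriv_le_of_forall_mem_sphere_norm_le (c := 0) n (Real.exp_pos x)
    hφ.diffContOnCl (fun z hz => norm_le_MM_gg hφ x z (by simpa using hz))
  have hfac : (0 : ℝ) < n.factorial := by exact_mod_cast n.factorial_pos
  have h2 : ‖tc φ n‖ = (n.factorial : ℝ)⁻¹ * ‖iteratedDeriv n φ 0‖ := by
    rw [tc, norm_mul, norm_inv, Complex.norm_natCast]
  have h3 : ‖tc φ n‖ * Real.exp x ^ n ≤ MM (gg φ) x := by
    rw [h2]
    calc (n.factorial : ℝ)⁻¹ * ‖iteratedDeriv n φ 0‖ * Real.exp x ^ n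
        ≤ (n.factorial : ℝ)⁻¹ * (n.factorial * MM (gg φ) x / Real.exp x ^ n) * Real.exp x ^ n := by
          gcongr
      _ = MM (gg φ) x := by
          have := Real.exp_pos x
          field_simp
  refine le_trans ?_ h3
  rw [← Real.exp_nat_mul]
  gcongr

end Pool.Agent.MP_83fd13_an
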