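import Mathlib
import Pool.Agent.MP_83fd13_an.Ent12
import Pool.Agent.MP_83fd13_an.Ent14
import Pool.Agent.MP_83fd13_an.Ent17
import Pool.Agent.MP_83fd13_an.Ent11
import Pool.Agent.MP_83fd13_an.Inj

namespace Pool.Agent.MP_83fd13_an

open MeasureTheory Filter
open scoped Topology ComplexConjugate

theorem main_entire {φ : ℂ → ℂ} (hφ : Differentiable ℂ φ)
    (hpoly : ∀ p : Polynomial ℂ, φ ≠ fun w => p.eval w)
    (hinj : Set.InjOn φ (Metric.ball 0 1)) {lam c : ℝ} {u : ℂ → ℝ} {G : ℂ → ℂ}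
    (h : SchifferSolution (φ '' Metric.ball 0 1) lam c u G) : False := by
  have hlam := h.lam_pos
  have hopen : IsOpen (Metric.ball (0 : ℂ) 1) := Metric.isOpen_ball
  have hd0 : ∀ w ∈ Metric.ball (0 : ℂ) 1, deriv φ w ≠ 0 := fun w hw =>
    deriv_ne_zero_of_injOn (hopen.mem_nhds hw) (hφ.analyticAt w) hinj
  have hstrict : ∀ w : ℂ, HasStrictDerivAt φ (deriv φ w) w := fun w =>
    (hφ.analyticAt w).hasStrictDerivAt
  have hΩopen : IsOpen (φ '' Metric.ball 0 1) := by
    rw [isOpen_iff_mem_nhds]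
    rintro z ⟨w, hw, rfl⟩
    rw [← (hstrict w).map_nhds_eq (hd0 w hw)]
    exact Filter.image_mem_map (hopen.mem_nhds hw)
  have hbdd : Bornology.IsBounded (φ '' Metric.ball 0 1) :=
    ((isCompact_closedBall (0 : ℂ) 1).image hφ.continuous).isBounded.subset
      (Set.image_mono Metric.ball_subset_closedBall)
  have hderd : Differentiable ℂ (deriv φ) := by
    have h1 : AnalyticOnNhd ℂ φ Set.univ := fun z _ => hφ.analyticAt z
    intro z
    exact (h1.deriv z (Set.mem_univ z)).differentiableAt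
  obtain ⟨t, ht, ζ₁, _, _, hne⟩ := key (g := gg φ) (x0 := 0)
    (differentiable_gg hφ).differentiableOn (gg_per φ) (growth hφ hpoly) (p := φ) (r := 1)
    one_pos hφ.differentiableOn (hd0 0 (by simp)) (X := lam / 4) (by positivity)
  apply hne
  have ht' : conj t ≠ 0 := by
    rw [Ne, map_eq_zero]; exact ht
  set s : ℂ := ((lam / 4 : ℝ) : ℂ) / conj t with hs
  have hs0 : s ≠ 0 := by
    apply div_ne_zero _ ht'
    have : (lam / 4 : ℝ) ≠ 0 := by positivity
    exact_mod_cast this
  set A : ℂ → ℂ := fun w => Complex.exp (-t * φ w) * deriv φ w with hA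
  set B : ℂ → ℂ := fun w => Complex.exp (s * φ w) with hB
  have hAd : Differentiable ℂ A := ((hφ.const_mul (-t)).cexp).mul hderd
  have hBder : ∀ w, HasDerivAt B (Complex.exp (s * φ w) * (s * deriv φ w)) w := fun w =>
    ((hφ w).hasDerivAt.const_mul s).cexp
  have hBd : Differentiable ℂ B := fun w => (hBder w).differentiableAt
  have harea : ∫ w in Metric.ball (0 : ℂ) 1, A w * conj (deriv B w) = 0 := by
    have h1 := h.plane_wave hbdd hΩopen.measurableSet ht
    rw [integral_image_eq_integral_abs_det_fderiv_smul volume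
      Metric.isOpen_ball.measurableSet
      (fun w _ => ((hφ w).hasDerivAt).complexToReal_fderiv.hasFDerivWithinAt) hinj] at h1
    have h2 : ∫ w in Metric.ball (0 : ℂ) 1, A w * conj (deriv B w) =
        ∫ w in Metric.ball (0 : ℂ) 1, conj s * (|((deriv φ w) • (1 : ℂ →L[ℝ] ℂ)).det| •
          (Complex.exp (-t * φ w) * conj (Complex.exp (((lam / 4 : ℝ) : ℂ) * φ w / conj t)))) := by
      apply setIntegral_congr_fun Metric.isOpen_ball.measurableSet
      intro w _
      simp only
      rw [det_smul_one, abs_of_nonneg (Complex.normSq_nonneg _), Complex.real_smul,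
        ← Complex.mul_conj, (hBder w).deriv]
      have h3 : ((lam / 4 : ℝ) : ℂ) * φ w / conj t = s * φ w := by
        rw [hs]; ring
      rw [h3, map_mul, map_mul]
      simp only [hA]
      ring
    rw [h2, integral_const_mul]
    have h4 : ∫ w in Metric.ball (0 : ℂ) 1, (|((deriv φ w) • (1 : ℂ →L[ℝ] ℂ)).det| •
          (Complex.exp (-t * φ w) * conj (Complex.exp (((lam / 4 : ℝ) : ℂ) * φ w / conj t)))) = 0 := h1
    rw [h4, mul_zero]
  have hline := line_integral hAd hBd (area_eq_zero hAd hBd harea) ζ₁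
  have hfin : (fun θ : ℝ => Complex.exp (-t * φ (Complex.exp (-(ζ₁ + (θ : ℂ) * Complex.I))) +
      ((lam / 4 : ℝ) : ℂ) * gg φ (ζ₁ + (θ : ℂ) * Complex.I) / t) *
      QQ φ (ζ₁ + (θ : ℂ) * Complex.I)) = fun θ : ℝ => -((Complex.exp (-(ζ₁ + (θ : ℂ) * Complex.I)) *
      A (Complex.exp (-(ζ₁ + (θ : ℂ) * Complex.I)))) *
      conj (B (conj (Complex.exp (ζ₁ + (θ : ℂ) * Complex.I))))) := by
    funext θ
    simp only [hA, hB, QQ, gg]
    rw [Complex.exp_add, ← Complex.exp_conj (s * φ _), map_mul, hs, map_div₀, Complex.conj_ofReal,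
      Complex.conj_conj]
    have h5 : ((lam / 4 : ℝ) : ℂ) * conj (φ (conj (Complex.exp (ζ₁ + (θ : ℂ) * Complex.I)))) / t
        = ((lam / 4 : ℝ) : ℂ) / t * conj (φ (conj (Complex.exp (ζ₁ + (θ : ℂ) * Complex.I)))) := by
      ring
    rw [h5]
    ring
  rw [hfin, intervalIntegral.integral_neg, hline, neg_zero]

end Pool.Agent.MP_83fd13_an
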