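import Mathlib

namespace Pool.Agent.MP_83fd13_an

open MeasureTheory Filter AddCircle
open scoped Topology

theorem fact_two_pi : Fact (0 < 2 * Real.pi) := ⟨Real.two_pi_pos⟩

attribute [local instance] fact_two_pi

/-- The Banach algebra of continuous functions on a circle. -/
abbrev EE := C(AddCircle (2 * Real.pi), ℂ)

/-- the coordinate function of the circle of radius `T` -/
noncomputable def tau (T : ℝ) : EE := (T : ℂ) • fourier 1

/-- its inverse -/
noncomputable def taui (T : ℝ) : EE := ((T : ℂ))⁻¹ • fourier (-1)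

theorem fourier_mul (m n : ℤ) : (fourier m : EE) * fourier n = fourier (m + n) := by
  ext x
  rw [ContinuousMap.mul_apply, fourier_add]

theorem fourier_zero_eq : (fourier 0 : EE) = 1 := by
  ext x
  rw [fourier_zero]
  rfl

theorem fourier_pow (m : ℤ) (n : ℕ) : (fourier m : EE) ^ n = fourier (m * n) := by
  induction n with
  | zero => simp [fourier_zero_eq]
  | succ n ih =>
    rw [pow_succ, ih, fourier_mul]
    congr 1
    push_cast
    ring

theorem tau_mul_taui {T : ℝ} (hT : T ≠ 0) : tau T * taui T = 1 := by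
  rw [tau, taui, smul_mul_smul_comm, fourier_mul, add_neg_cancel, fourier_zero_eq,
    mul_inv_cancel₀ (by exact_mod_cast hT), one_smul]

theorem taui_apply {T : ℝ} (hT : T ≠ 0) (x : AddCircle (2 * Real.pi)) :
    taui T x = (tau T x)⁻¹ := by
  have h := congrArg (fun f : EE => f x) (tau_mul_taui hT)
  simp only [ContinuousMap.mul_apply, ContinuousMap.one_apply] at h
  exact eq_inv_of_mul_eq_one_right h

theorem tau_apply_ne {T : ℝ} (hT : T ≠ 0) (x : AddCircle (2 * Real.pi)) : tau T x ≠ 0 := by
  intro h0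
  have h := congrArg (fun f : EE => f x) (tau_mul_taui hT)
  simp only [ContinuousMap.mul_apply, ContinuousMap.one_apply, h0, zero_mul] at h
  exact zero_ne_one h

theorem exists_tau_eq (t : ℂ) :
    ∃ x : AddCircle (2 * Real.pi), tau ‖t‖ x = t := by
  refine ⟨((t.arg : ℝ) : AddCircle (2 * Real.pi)), ?_⟩
  rw [tau, ContinuousMap.smul_apply, fourier_coe_apply]
  have h := Complex.norm_mul_exp_arg_mul_I t
  rw [smul_eq_mul]
  refine Eq.trans ?_ h
  congr 2
  have hpi : (Real.pi : ℂ) ≠ 0 := by exact_mod_cast Real.pi_ne_zero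
  push_cast
  field_simp

/-- The `k`-th Fourier coefficient as a continuous functional. -/
noncomputable def cf (k : ℤ) : EE →L[ℂ] ℂ :=
  LinearMap.mkContinuous
    { toFun := fun f => fourierCoeff f k
      map_add' := fun f g => by
        have := fourierCoeff.add (T := 2 * Real.pi) (f := f) (g := g)
          (f.continuous.integrable_of_hasCompactSupport (HasCompactSupport.of_compactSpace _))
          (g.continuous.integrable_of_hasCompactSupport (HasCompactSupport.of_compactSpace _))
        exact congrFun this k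
      map_smul' := fun c f => fourierCoeff.const_smul (T := 2 * Real.pi) f c k } 1 (fun f => by
    rw [one_mul]
    show ‖fourierCoeff f k‖ ≤ ‖f‖
    rw [fourierCoeff]
    refine (norm_integral_le_of_norm_le_const (C := ‖f‖) (Eventually.of_forall fun x => ?_)).trans ?_
    · rw [norm_smul]
      have h1 : ‖(fourier (-k) : EE) x‖ ≤ 1 :=
        ((fourier (-k) : EE).norm_coe_le_norm x).trans (fourier_norm _).le
      have h2 : ‖f x‖ ≤ ‖f‖ := f.norm_coe_le_norm x
      calc ‖(fourier (-k) : EE) x‖ * ‖f x‖ ≤ 1 * ‖f‖ := by gcongr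
        _ = ‖f‖ := one_mul _
    · simp)

theorem cf_apply (k : ℤ) (f : EE) : cf k f = fourierCoeff f k := rfl

theorem cf_fourier_mul (k m : ℤ) (f : EE) : cf k (fourier m * f) = cf (k - m) f := by
  rw [cf_apply, cf_apply, fourierCoeff, fourierCoeff]
  congr 1
  funext x
  rw [ContinuousMap.mul_apply, smul_eq_mul, smul_eq_mul, ← mul_assoc, ← fourier_add]
  congr 3
  ring

theorem cf_tau_mul (k : ℤ) (T : ℝ) (f : EE) : cf k (tau T * f) = T * cf (k - 1) f := by
  rw [tau, smul_mul_assoc, map_smul, cf_fourier_mul, smul_eq_mul]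

theorem cf_taui_mul (k : ℤ) (T : ℝ) (f : EE) : cf k (taui T * f) = (T : ℂ)⁻¹ * cf (k + 1) f := by
  rw [taui, smul_mul_assoc, map_smul, cf_fourier_mul, smul_eq_mul, sub_neg_eq_add]

theorem cf_taui_pow_mul (k : ℤ) (T : ℝ) (m : ℕ) (f : EE) :
    cf k (taui T ^ m * f) = ((T : ℂ)⁻¹) ^ m * cf (k + m) f := by
  induction m generalizing k with
  | zero => simp
  | succ m ih =>
    rw [pow_succ', mul_assoc, cf_taui_mul, ih, pow_succ']
    rw [mul_assoc]
    congr 3
    push_cast
    ring_nf

theorem cf_one {k : ℤ} (hk : k ≠ 0) : cf k 1 = 0 := by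
  rw [cf_apply, ← fourier_zero_eq, fourierCoeff_fourier]
  simp [hk]

theorem eq_zero_of_cf {f : EE} (h : ∀ k, cf k f = 0) : f = 0 := by
  have h0 : fourierCoeff f = fun _ => 0 := funext fun k => h k
  have h1 := hasSum_fourier_series_of_summable (f := f) (by rw [h0]; exact summable_zero)
  have h2 : (fun i => fourierCoeff f i • (fourier i : EE)) = fun _ => 0 := by
    rw [h0]; simp
  rw [h2] at h1
  exact h1.unique hasSum_zero

/-- evaluation at a point -/
noncomputable def ev0 (x : AddCircle (2 * Real.pi)) : EE →L[ℂ] ℂ := ContinuousMap.evalCLM ℂ x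

theorem ev0_apply (x : AddCircle (2 * Real.pi)) (f : EE) : ev0 x f = f x := rfl

theorem exp_apply (f : EE) (x : AddCircle (2 * Real.pi)) :
    (NormedSpace.exp f) x = Complex.exp (f x) := by
  have h := NormedSpace.map_exp (ContinuousMap.evalAlgHom ℂ ℂ x : EE →ₐ[ℂ] ℂ)
    (ev0 x).continuous f
  rw [Complex.exp_eq_exp_ℂ]
  exact h

theorem exp_add_EE (f g : EE) :
    NormedSpace.exp (f + g) = NormedSpace.exp f * NormedSpace.exp g := NormedSpace.exp_add

end Pool.Agent.MP_83fd13_an
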