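import Mathlib

namespace Pool.Agent.MP_83fd13_an

open MeasureTheory Filter Metric Set Complex
open scoped Topology Real

/-- Open annulus. -/
def Ann (q : ℂ) (r1 r2 : ℝ) : Set ℂ := {w | r1 < ‖w - q‖ ∧ ‖w - q‖ < r2}

theorem isOpen_Ann (q : ℂ) (r1 r2 : ℝ) : IsOpen (Ann q r1 r2) := by
  have h1 : Continuous fun w : ℂ => ‖w - q‖ := by fun_prop
  exact (isOpen_lt continuous_const h1).inter (isOpen_lt h1 continuous_const)

variable {E : Type*} [NormedAddCommGroup E] [NormedSpace ℂ E]

theorem circle_eq_aux {f : ℂ → E} {q : ℂ} {r1 r2 : ℝ} (hf : DifferentiableOn ℂ f (Ann q r1 r2))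
    {r r' : ℝ} (h0 : 0 < r) (hr : r1 < r) (hrr : r ≤ r') (hr' : r' < r2) :
    ∮ w in C(q, r'), f w = ∮ w in C(q, r), f w := by
  have hsub : closedBall q r' \ ball q r ⊆ Ann q r1 r2 := by
    rintro w ⟨h1, h2⟩
    rw [mem_closedBall, dist_eq_norm] at h1
    rw [mem_ball, dist_eq_norm, not_lt] at h2
    exact ⟨by linarith, by linarith⟩
  apply Complex.circleIntegral_eq_of_differentiable_on_annulus_off_countable h0 hrr
    Set.countable_empty
  · exact hf.continuousOn.mono hsub
  · intro z hz
    apply hf.differentiableAt ((isOpen_Ann q r1 r2).mem_nhds (hsub _))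
    exact ⟨ball_subset_closedBall hz.1.1, fun h => hz.1.2 (ball_subset_closedBall h)⟩

theorem circle_eq {f : ℂ → E} {q : ℂ} {r1 r2 : ℝ} (hf : DifferentiableOn ℂ f (Ann q r1 r2))
    (h1 : 0 ≤ r1) {r r' : ℝ} (hr : r1 < r) (hr2 : r < r2) (hr' : r1 < r') (hr2' : r' < r2) :
    ∮ w in C(q, r'), f w = ∮ w in C(q, r), f w := by
  rcases le_total r r' with h | h
  · exact circle_eq_aux hf (h1.trans_lt hr) hr h hr2'
  · exact (circle_eq_aux hf (h1.trans_lt hr') hr' h hr2).symm

theorem cauchy_annulus {f : ℂ → ℂ} {q : ℂ} {r1 r2 : ℝ} (hf : DifferentiableOn ℂ f (Ann q r1 r2))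
    (h1 : 0 ≤ r1) {r R : ℝ} (hr : r1 < r) (hR : R < r2) {a : ℂ} (har : r < ‖a - q‖)
    (haR : ‖a - q‖ < R) :
    (∮ w in C(q, R), (w - a)⁻¹ • f w) - (∮ w in C(q, r), (w - a)⁻¹ • f w) = (2 * π * I) • f a := by
  have hr0 : 0 < r := h1.trans_lt hr
  have hR0 : 0 < R := hr0.trans (har.trans haR)
  have haA : a ∈ Ann q r1 r2 := ⟨by linarith, by linarith⟩
  have hF : DifferentiableOn ℂ (dslope f a) (Ann q r1 r2) :=
    (Complex.differentiableOn_dslope ((isOpen_Ann q r1 r2).mem_nhds haA)).2 hf
  have hsph : ∀ s, r1 < s → s < r2 → sphere q s ⊆ Ann q r1 r2 := by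
    intro s h1 h2 w hw
    rw [mem_sphere, dist_eq_norm] at hw
    exact ⟨by linarith, by linarith⟩
  have hsplit : ∀ s, r1 < s → s < r2 → ‖a - q‖ ≠ s →
      ∮ w in C(q, s), dslope f a w = (∮ w in C(q, s), (w - a)⁻¹ • f w) -
        (∮ w in C(q, s), (w - a)⁻¹) • f a := by
    intro s h1' h2 hne
    have hs0 : 0 ≤ s := h1.trans h1'.le
    have hna : ∀ w ∈ sphere q s, w ≠ a := by
      rintro w hw rfl
      rw [mem_sphere, dist_eq_norm] at hw
      exact hne hw
    have hinv : ContinuousOn (fun w => (w - a)⁻¹) (sphere q s) := by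
      apply ContinuousOn.inv₀ (by fun_prop)
      intro w hw
      exact sub_ne_zero.2 (hna w hw)
    have hfc : ContinuousOn f (sphere q s) := hf.continuousOn.mono (hsph s h1' h2)
    have e1 : ∮ w in C(q, s), dslope f a w =
        ∮ w in C(q, s), ((w - a)⁻¹ • f w - (w - a)⁻¹ • f a) := by
      apply circleIntegral.integral_congr hs0
      intro w hw
      show dslope f a w = _
      rw [dslope_of_ne f (hna w hw), slope_def_module, smul_sub]
    rw [e1, circleIntegral.integral_sub (f := fun w => (w - a)⁻¹ • f w)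
      (g := fun w => (w - a)⁻¹ • f a) ((hinv.smul hfc).circleIntegrable hs0)
      ((hinv.smul continuousOn_const).circleIntegrable hs0), circleIntegral.integral_smul_const]
  have h3 := circle_eq_aux hF hr0 hr (har.trans haR).le hR
  have hr2 : r < r2 := by linarith
  have hR1 : r1 < R := by linarith
  rw [hsplit R hR1 hR haR.ne, hsplit r hr hr2 har.ne',
    circleIntegral.integral_sub_inv_of_mem_ball (by rwa [mem_ball, dist_eq_norm])] at h3
  have h4 : ∮ w in C(q, r), (w - a)⁻¹ = 0 := by
    apply Complex.circleIntegral_eq_zero_of_differentiable_on_off_countable hr0.le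
      Set.countable_empty
    · apply ContinuousOn.inv₀ (by fun_prop)
      intro w hw
      rw [mem_closedBall, dist_eq_norm] at hw
      intro h
      rw [sub_eq_zero.1 h] at hw
      linarith
    · intro w hw
      have : w - a ≠ 0 := by
        intro h
        have hw1 := hw.1
        rw [mem_ball, dist_eq_norm, sub_eq_zero.1 h] at hw1
        linarith
      fun_prop (disch := exact this)
  rw [h4, zero_smul, sub_zero] at h3
  rw [← h3]
  abel

/-- If all the non-positive moments vanish, the inner Cauchy integral vanishes outside. -/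
theorem inner_zero {f : ℂ → ℂ} {q : ℂ} {r : ℝ} (hr : 0 < r) (hf : ContinuousOn f (sphere q r))
    (h : ∀ n : ℕ, ∮ w in C(q, r), (w - q) ^ n * f w = 0) {a : ℂ} (ha : r < ‖a - q‖) :
    ∮ w in C(q, r), (w - a)⁻¹ • f w = 0 := by
  obtain ⟨M, hM⟩ := (isCompact_sphere q r).exists_bound_of_continuousOn hf
  have haq : a - q ≠ 0 := by
    intro h0
    rw [h0, norm_zero] at ha
    linarith
  have hna : ∀ w ∈ sphere q r, w - a ≠ 0 := by
    intro w hw h0
    rw [mem_sphere, dist_eq_norm, sub_eq_zero.1 h0] at hw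
    linarith
  set d := ‖a - q‖ with hd
  have hid : ∀ N : ℕ, ∮ w in C(q, r), (w - a)⁻¹ • f w =
      ∮ w in C(q, r), ((w - q) / (a - q)) ^ N * ((w - a)⁻¹ * f w) := by
    intro N
    induction N with
    | zero => simp
    | succ N ih =>
      rw [ih]
      have e1 : ∀ w ∈ sphere q r, ((w - q) / (a - q)) ^ (N + 1) * ((w - a)⁻¹ * f w) =
          ((w - q) / (a - q)) ^ N * ((w - a)⁻¹ * f w) +
            ((a - q)⁻¹) ^ (N + 1) * ((w - q) ^ N * f w) := by
        intro w hw
        have h1 := hna w hw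
        have h2 : (w - q) / (a - q) = 1 + (w - a) / (a - q) := by
          field_simp
          ring
        have h3 : ((w - q) / (a - q)) ^ (N + 1) = ((w - q) / (a - q)) ^ N +
            ((w - q) ^ N * ((a - q)⁻¹) ^ (N + 1)) * (w - a) := by
          rw [pow_succ, h2, mul_add, mul_one, ← h2, div_pow, inv_pow, pow_succ (a - q)]
          field_simp
        rw [h3, add_mul]
        congr 1
        field_simp
      rw [circleIntegral.integral_congr hr.le e1, circleIntegral.integral_add,
        circleIntegral.integral_const_mul, h N, mul_zero, add_zero]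
      · apply ContinuousOn.circleIntegrable hr.le
        apply ContinuousOn.mul (by fun_prop)
        apply ContinuousOn.mul _ hf
        apply ContinuousOn.inv₀ (by fun_prop)
        exact hna
      · apply ContinuousOn.circleIntegrable hr.le
        apply ContinuousOn.mul (by fun_prop)
        apply ContinuousOn.mul (by fun_prop) hf
  have hbound : ∀ N : ℕ, ‖∮ w in C(q, r), (w - a)⁻¹ • f w‖ ≤
      (2 * π * r * ((d - r)⁻¹ * M)) * (r / d) ^ N := by
    intro N
    rw [hid N]
    refine (circleIntegral.norm_integral_le_of_norm_le_const hr.le (C := (r / d) ^ N *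
      ((d - r)⁻¹ * M)) ?_).trans (le_of_eq (by ring))
    intro w hw
    have hw' : ‖w - q‖ = r := by rwa [mem_sphere, dist_eq_norm] at hw
    rw [norm_mul, norm_mul, norm_pow, norm_div, hw', norm_inv]
    have h1 : d - r ≤ ‖w - a‖ := by
      have := norm_sub_norm_le (a - q) (w - q)
      have e : a - q - (w - q) = -(w - a) := by ring
      rw [e, norm_neg, hw'] at this
      exact this
    have h2 : 0 < d - r := by linarith
    gcongr
    exact hM w hw
  have hlim : Tendsto (fun N : ℕ => (2 * π * r * ((d - r)⁻¹ * M)) * (r / d) ^ N) atTop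
      (𝓝 ((2 * π * r * ((d - r)⁻¹ * M)) * 0)) := by
    apply Tendsto.const_mul
    apply tendsto_pow_atTop_nhds_zero_of_lt_one
    · positivity
    · rw [div_lt_one (hr.trans ha)]
      exact ha
  rw [mul_zero] at hlim
  have := ge_of_tendsto' hlim hbound
  exact norm_le_zero_iff.1 this

/-- A function holomorphic on an annulus all of whose negative Laurent coefficients vanish extends
to the disc. -/
theorem exists_extension {f : ℂ → ℂ} {q : ℂ} {r1 r2 r : ℝ} (h1 : 0 ≤ r1) (hr1 : r1 < r)
    (hr2 : r < r2) (hf : DifferentiableOn ℂ f (Ann q r1 r2))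
    (h : ∀ n : ℕ, ∮ w in C(q, r), (w - q) ^ n * f w = 0) :
    ∃ F : ℂ → ℂ, DifferentiableOn ℂ F (ball q r2) ∧ ∀ w ∈ Ann q r1 r2, F w = f w := by
  have hr0 : 0 < r := h1.trans_lt hr1
  have hsph : ∀ s, r1 < s → s < r2 → sphere q s ⊆ Ann q r1 r2 := by
    intro s h1 h2 w hw
    rw [mem_sphere, dist_eq_norm] at hw
    exact ⟨by linarith, by linarith⟩
  have hall : ∀ s, r1 < s → s < r2 → ∀ n : ℕ, ∮ w in C(q, s), (w - q) ^ n * f w = 0 := by
    intro s hs1 hs2 n
    rw [circle_eq (f := fun w => (w - q) ^ n * f w) (r1 := r1) (r2 := r2)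
      ((by fun_prop : Differentiable ℂ fun w => (w - q) ^ n).differentiableOn.mul hf) h1
      hr1 hr2 hs1 hs2]
    exact h n
  -- Cauchy integral over a fixed circle
  set G : ℂ → ℂ := fun a => (2 * π * I)⁻¹ • ∮ w in C(q, r), (w - a)⁻¹ • f w with hG
  have hGd : DifferentiableOn ℂ G (ball q r) := by
    have hci : CircleIntegrable f q (⟨r, hr0.le⟩ : NNReal) :=
      (hf.continuousOn.mono (hsph r hr1 hr2)).circleIntegrable hr0.le
    have h2 := (hasFPowerSeriesOn_cauchy_integral (R := ⟨r, hr0.le⟩) hci hr0).differentiableOn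
    rw [Metric.eball_coe] at h2
    exact h2
  have hGf : ∀ a, r1 < ‖a - q‖ → ‖a - q‖ < r → G a = f a := by
    intro a ha1 ha2
    obtain ⟨s, hs1, hs2⟩ := exists_between ha1
    have h3 := cauchy_annulus hf h1 hs1 hr2 hs2 ha2
    rw [inner_zero (h1.trans_lt hs1) (hf.continuousOn.mono (hsph s hs1 (by linarith)))
      (hall s hs1 (by linarith)) hs2, sub_zero] at h3
    simp only [hG]
    rw [h3, inv_smul_smul₀ Complex.two_pi_I_ne_zero]
  refine ⟨fun a => if r1 < ‖a - q‖ then f a else G a, ?_, fun w hw => if_pos hw.1⟩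
  intro a ha
  rw [mem_ball, dist_eq_norm] at ha
  apply DifferentiableAt.differentiableWithinAt
  by_cases hc : r1 < ‖a - q‖
  · have hA : a ∈ Ann q r1 r2 := ⟨hc, ha⟩
    refine (hf.differentiableAt ((isOpen_Ann q r1 r2).mem_nhds hA)).congr_of_eventuallyEq ?_
    filter_upwards [(isOpen_Ann q r1 r2).mem_nhds hA] with w hw
    exact if_pos hw.1
  · have hB : a ∈ ball q r := by
      rw [mem_ball, dist_eq_norm]
      push Not at hc
      linarith
    refine (hGd.differentiableAt (isOpen_ball.mem_nhds hB)).congr_of_eventuallyEq ?_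
    filter_upwards [isOpen_ball.mem_nhds hB] with w hw
    rw [mem_ball, dist_eq_norm] at hw
    by_cases hc' : r1 < ‖w - q‖
    · rw [if_pos hc', hGf w hc' hw]
    · rw [if_neg hc']

end Pool.Agent.MP_83fd13_an
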