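import Mathlib
import Pool.Agent.MP_83fd13_an.Ess2

namespace Pool.Agent.MP_83fd13_an

open MeasureTheory Filter Metric Set Complex
open scoped Topology Real

variable {E : Type*} [NormedAddCommGroup E] [NormedSpace ℂ E] [CompleteSpace E]

theorem exists_prim {f : ℂ → E} {S : Set ℂ} (hc : Convex ℝ S) (ho : IsOpen S)
    (hf : DifferentiableOn ℂ f S) : ∃ F : ℂ → E, ∀ z ∈ S, HasDerivAt F (f z) z := by
  obtain ⟨F, hF⟩ := hc.exists_forall_hasDerivWithinAt hf
  exact ⟨F, fun z hz => (hF z hz).hasDerivAt (ho.mem_nhds hz)⟩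

omit [CompleteSpace E] in
theorem sub_eq_of_deriv {F G : ℂ → E} {f : ℂ → E} {S : Set ℂ} (hc : Convex ℝ S) (ho : IsOpen S)
    (hF : ∀ z ∈ S, HasDerivAt F (f z) z) (hG : ∀ z ∈ S, HasDerivAt G (f z) z) {z w : ℂ}
    (hz : z ∈ S) (hw : w ∈ S) : F z - G z = F w - G w := by
  have h1 : ∀ z ∈ S, HasDerivAt (fun z => F z - G z) 0 z := by
    intro z hz
    have := (hF z hz).sub (hG z hz)
    rw [sub_self] at this
    exact this
  have h2 : DifferentiableOn ℂ (fun z => F z - G z) S := fun z hz =>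
    (h1 z hz).differentiableAt.differentiableWithinAt
  have h3 : S.EqOn (deriv fun z => F z - G z) 0 := fun z hz => (h1 z hz).deriv
  exact ho.is_const_of_deriv_eq_zero hc.isPreconnected h2 h3 hz hw

/-- vertical strip -/
def Str (x1 x2 : ℝ) : Set ℂ := {ζ | x1 < ζ.re ∧ ζ.re < x2}

theorem isOpen_Str (x1 x2 : ℝ) : IsOpen (Str x1 x2) :=
  (isOpen_lt continuous_const continuous_re).inter (isOpen_lt continuous_re continuous_const)

theorem convex_Str (x1 x2 : ℝ) : Convex ℝ (Str x1 x2) := by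
  have : Str x1 x2 = Complex.re ⁻¹' (Ioo x1 x2) := rfl
  rw [this]
  exact (convex_Ioo x1 x2).linear_preimage Complex.reLm

omit [CompleteSpace E] in
theorem circle_eq_line {f : ℂ → E} {q : ℂ} (x : ℝ) :
    ∮ w in C(q, Real.exp x), f w =
      ∫ θ in (0 : ℝ)..2 * π, I • (exp (x + θ * I) • f (q + exp (x + θ * I))) := by
  rw [circleIntegral]
  apply intervalIntegral.integral_congr
  intro θ _
  simp only [deriv_circleMap, circleMap, zero_add]
  rw [Complex.exp_add, ← smul_assoc, smul_eq_mul, Complex.ofReal_exp]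
  congr 1
  ring

theorem exists_prim_annulus {f : ℂ → E} {r1 r2 r : ℝ} (h1 : 0 < r1)
    (hf : DifferentiableOn ℂ f (Ann 0 r1 r2)) (hr1 : r1 < r) (hr2 : r < r2)
    (h0 : ∮ w in C(0, r), f w = 0) : ∃ F : ℂ → E, ∀ w ∈ Ann 0 r1 r2, HasDerivAt F (f w) w := by
  have hr : 0 < r := h1.trans hr1
  set x1 := Real.log r1 with hx1
  set x2 := Real.log r2 with hx2
  have hr20 : 0 < r2 := hr.trans hr2
  have hexp : ∀ ζ ∈ Str x1 x2, exp ζ ∈ Ann 0 r1 r2 := by
    intro ζ hζ
    show r1 < ‖exp ζ - 0‖ ∧ ‖exp ζ - 0‖ < r2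
    rw [sub_zero, Complex.norm_exp]
    exact ⟨(Real.log_lt_iff_lt_exp h1).1 hζ.1, (Real.lt_log_iff_exp_lt hr20).1 hζ.2⟩
  have hg : DifferentiableOn ℂ (fun ζ => exp ζ • f (exp ζ)) (Str x1 x2) := by
    intro ζ hζ
    have h2 : DifferentiableAt ℂ f (exp ζ) :=
      hf.differentiableAt ((isOpen_Ann 0 r1 r2).mem_nhds (hexp ζ hζ))
    have h3 : DifferentiableAt ℂ (fun ζ => f (exp ζ)) ζ := h2.comp ζ differentiableAt_exp
    exact (differentiableAt_exp.smul h3).differentiableWithinAt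
  obtain ⟨G, hG⟩ := exists_prim (convex_Str x1 x2) (isOpen_Str x1 x2) hg
  have hshift : ∀ ζ ∈ Str x1 x2, ζ + 2 * π * I ∈ Str x1 x2 := by
    intro ζ hζ
    simpa [Str] using hζ
  have hGs : ∀ ζ ∈ Str x1 x2, HasDerivAt (fun ζ => G (ζ + 2 * π * I)) (exp ζ • f (exp ζ)) ζ := by
    intro ζ hζ
    have h2 := hG (ζ + 2 * π * I) (hshift ζ hζ)
    have h3 := h2.comp_add_const ζ (2 * π * I)
    rw [Complex.exp_periodic ζ] at h3
    exact h3
  have hlogr : ((Real.log r : ℝ) : ℂ) ∈ Str x1 x2 := by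
    refine ⟨?_, ?_⟩
    · rw [ofReal_re]; exact Real.log_lt_log h1 hr1
    · rw [ofReal_re]; exact Real.log_lt_log hr hr2
  have hper : ∀ ζ ∈ Str x1 x2, G (ζ + 2 * π * I) = G ζ := by
    intro ζ hζ
    have h2 := sub_eq_of_deriv (convex_Str x1 x2) (isOpen_Str x1 x2) hGs hG hζ hlogr
    have h3 : G ((Real.log r : ℝ) + 2 * π * I) - G ((Real.log r : ℝ) : ℂ) = 0 := by
      have h4 : ∀ θ ∈ uIcc (0 : ℝ) (2 * π), HasDerivAt (fun θ : ℝ => G ((Real.log r : ℝ) + θ * I))
          (I • (exp ((Real.log r : ℝ) + θ * I) • f (exp ((Real.log r : ℝ) + θ * I)))) θ := by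
        intro θ _
        have hm : ((Real.log r : ℝ) : ℂ) + θ * I ∈ Str x1 x2 := by
          simpa [Str] using hlogr
        have h5 : HasDerivAt (fun θ : ℝ => ((Real.log r : ℝ) : ℂ) + θ * I) I θ := by
          have h6 : HasDerivAt (fun θ : ℝ => (θ : ℂ)) 1 θ := Complex.ofRealCLM.hasDerivAt
          have := (h6.mul_const I).const_add ((Real.log r : ℝ) : ℂ)
          rwa [one_mul] at this
        exact (hG _ hm).scomp θ h5
      have h7 : ContinuousOn (fun θ : ℝ => I • (exp ((Real.log r : ℝ) + θ * I) •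
          f (exp ((Real.log r : ℝ) + θ * I)))) (uIcc (0 : ℝ) (2 * π)) := by
        apply ContinuousOn.const_smul
        have : ContinuousOn (fun θ : ℝ => ((Real.log r : ℝ) : ℂ) + θ * I) (uIcc (0 : ℝ) (2 * π)) := by
          fun_prop
        refine (hg.continuousOn.comp this ?_)
        intro θ _
        simpa [Str] using hlogr
      have h8 := intervalIntegral.integral_eq_sub_of_hasDerivAt h4 h7.intervalIntegrable
      have h9 := circle_eq_line (f := f) (q := 0) (Real.log r)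
      rw [Real.exp_log hr, h0] at h9
      simp only [zero_add] at h9
      rw [← h9] at h8
      rw [h8]
      simp
    rw [h3] at h2
    exact sub_eq_zero.1 h2
  have hperk : ∀ (k : ℤ), ∀ ζ ∈ Str x1 x2, G (ζ + k * (2 * π * I)) = G ζ := by
    have hnat : ∀ (k : ℕ), ∀ ζ ∈ Str x1 x2, ζ + k * (2 * π * I) ∈ Str x1 x2 ∧
        G (ζ + k * (2 * π * I)) = G ζ := by
      intro k
      induction k with
      | zero => intro ζ hζ; simpa using hζ
      | succ k ih =>
        intro ζ hζ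
        obtain ⟨h2, h3⟩ := ih ζ hζ
        have e : ζ + ((k + 1 : ℕ) : ℂ) * (2 * π * I) = (ζ + k * (2 * π * I)) + 2 * π * I := by
          push_cast; ring
        rw [e]
        exact ⟨hshift _ h2, (hper _ h2).trans h3⟩
    intro k ζ hζ
    obtain ⟨n, rfl | rfl⟩ := k.eq_nat_or_neg
    · exact_mod_cast (hnat n ζ hζ).2
    · have h2 : ζ + ((-(n : ℤ) : ℤ) : ℂ) * (2 * π * I) ∈ Str x1 x2 := by
        simpa [Str] using hζ
      have h3 := (hnat n _ h2).2
      have e : ζ + ((-(n : ℤ) : ℤ) : ℂ) * (2 * π * I) + n * (2 * π * I) = ζ := by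
        push_cast; ring
      rw [e] at h3
      exact h3.symm
  refine ⟨fun w => G (log w), fun w hw => ?_⟩
  have hwn : w ≠ 0 := by
    rintro rfl
    have := hw.1
    rw [sub_zero, norm_zero] at this
    linarith
  have hwlog : ∀ w ∈ Ann 0 r1 r2, w ≠ 0 ∧ log w ∈ Str x1 x2 ∧ log (-w) + π * I ∈ Str x1 x2 := by
    rintro w ⟨h2, h3⟩
    rw [sub_zero] at h2 h3
    have hw0 : 0 < ‖w‖ := h1.trans h2
    refine ⟨norm_pos_iff.1 hw0, ⟨?_, ?_⟩, ⟨?_, ?_⟩⟩
    · rw [Complex.log_re]; exact Real.log_lt_log h1 h2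
    · rw [Complex.log_re]; exact Real.log_lt_log hw0 h3
    · have : (log (-w) + π * I).re = Real.log ‖w‖ := by simp [Complex.log_re]
      rw [this]; exact Real.log_lt_log h1 h2
    · have : (log (-w) + π * I).re = Real.log ‖w‖ := by simp [Complex.log_re]
      rw [this]; exact Real.log_lt_log hw0 h3
  by_cases hs : w ∈ slitPlane
  · have h2 := (hG _ (hwlog w hw).2.1).scomp w (Complex.hasDerivAt_log hs)
    rw [exp_log hwn, smul_smul, inv_mul_cancel₀ hwn, one_smul] at h2
    exact h2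
  · have hs' : -w ∈ slitPlane := by
      rw [Complex.mem_slitPlane_iff] at hs ⊢
      push Not at hs
      left
      have hre : w.re ≠ 0 := by
        intro h
        apply hwn
        apply Complex.ext
        · simpa using h
        · simpa using hs.2
      have : w.re < 0 := lt_of_le_of_ne hs.1 hre
      simpa using this
    have h2 : HasDerivAt (fun w => log (-w) + π * I) w⁻¹ w := by
      have h3 := (Complex.hasDerivAt_log hs').scomp w (hasDerivAt_neg w)
      have h4 := h3.add_const (π * I)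
      refine h4.congr_deriv ?_
      rw [smul_eq_mul, inv_neg]
      ring
    have h3 := (hG _ (hwlog w hw).2.2).scomp w h2
    have h4 : exp (log (-w) + π * I) = w := by
      rw [Complex.exp_add, exp_log (neg_ne_zero.2 hwn), exp_pi_mul_I]
      ring
    rw [h4, smul_smul, inv_mul_cancel₀ hwn, one_smul] at h3
    refine h3.congr_of_eventuallyEq ?_
    filter_upwards [(isOpen_Ann 0 r1 r2).mem_nhds hw] with v hv
    obtain ⟨hv0, hv1, hv2⟩ := hwlog v hv
    have h5 : exp (log (-v) + π * I) = exp (log v) := by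
      rw [exp_log hv0, Complex.exp_add, exp_log (neg_ne_zero.2 hv0), exp_pi_mul_I]
      ring
    obtain ⟨k, hk⟩ := Complex.exp_eq_exp_iff_exists_int.1 h5
    show G (log v) = G (log (-v) + π * I)
    rw [hk]
    exact (hperk k _ hv1).symm

end Pool.Agent.MP_83fd13_an
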