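import Mathlib
import Pool.Agent.MP_83fd13_an.Ent13

namespace Pool.Agent.MP_83fd13_an

open MeasureTheory Filter
open scoped Topology ComplexConjugate

/-- the general term of the double series on the unit circle -/
noncomputable def F4 (a b : ℕ → ℂ) (q : ℕ × ℕ) (θ : ℝ) : ℂ :=
  (a q.1 * Complex.exp (((q.1 : ℂ) + 1) * Complex.I * (θ : ℂ)))
    * (conj (b q.2) * Complex.exp (-(q.2 : ℂ) * Complex.I * (θ : ℂ)))

theorem norm_exp_I_mul (r θ : ℝ) : ‖Complex.exp ((r : ℂ) * Complex.I * (θ : ℂ))‖ = 1 := by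
  have : (r : ℂ) * Complex.I * (θ : ℂ) = ((r * θ : ℝ) : ℂ) * Complex.I := by
    push_cast; ring
  rw [this, Complex.norm_exp_ofReal_mul_I]

theorem norm_F4 (a b : ℕ → ℂ) (q : ℕ × ℕ) (θ : ℝ) : ‖F4 a b q θ‖ = ‖a q.1‖ * ‖b q.2‖ := by
  have h1 : ‖Complex.exp (((q.1 : ℂ) + 1) * Complex.I * (θ : ℂ))‖ = 1 := by
    have := norm_exp_I_mul ((q.1 : ℝ) + 1) θ
    push_cast at this
    exact this
  have h2 : ‖Complex.exp (-(q.2 : ℂ) * Complex.I * (θ : ℂ))‖ = 1 := by
    have := norm_exp_I_mul (-(q.2 : ℝ)) θ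
    push_cast at this
    exact this
  rw [F4, norm_mul, norm_mul, norm_mul, h1, h2, RCLike.norm_conj, mul_one, mul_one]

theorem continuous_F4 (a b : ℕ → ℂ) (q : ℕ × ℕ) : Continuous fun θ : ℝ => F4 a b q θ := by
  unfold F4
  fun_prop

theorem integral_F4 (a b : ℕ → ℂ) (q : ℕ × ℕ) :
    ∫ θ in (0 : ℝ)..2 * Real.pi, F4 a b q θ =
      if q.2 = q.1 + 1 then 2 * Real.pi * (a q.1 * conj (b q.2)) else 0 := by
  obtain ⟨n, j⟩ := q
  have e1 : (fun θ : ℝ => F4 a b (n, j) θ) = fun θ : ℝ => (a n * conj (b j)) *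
      Complex.exp ((((n : ℂ) + 1 - j) * Complex.I) * (θ : ℂ)) := by
    funext θ
    have h : Complex.exp (((n : ℂ) + 1) * Complex.I * (θ : ℂ)) *
        Complex.exp (-(j : ℂ) * Complex.I * (θ : ℂ))
        = Complex.exp ((((n : ℂ) + 1 - j) * Complex.I) * (θ : ℂ)) := by
      rw [← Complex.exp_add]; congr 1; ring
    show (a n * Complex.exp (((n : ℂ) + 1) * Complex.I * (θ : ℂ)))
      * (conj (b j) * Complex.exp (-(j : ℂ) * Complex.I * (θ : ℂ))) = _
    linear_combination (a n * conj (b j)) * h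
  rw [e1, intervalIntegral.integral_const_mul]
  by_cases hj : j = n + 1
  · have h0 : (n : ℂ) + 1 - j = 0 := by
      rw [hj]; push_cast; ring
    rw [h0]
    have e3 : (fun θ : ℝ => Complex.exp ((0 * Complex.I) * (θ : ℂ))) = fun _ : ℝ => (1 : ℂ) := by
      funext θ
      rw [zero_mul, zero_mul, Complex.exp_zero]
    rw [e3, intervalIntegral.integral_const, Complex.real_smul, if_pos hj]
    push_cast
    ring
  · rw [if_neg hj]
    have hne : ((n : ℂ) + 1 - j) * Complex.I ≠ 0 := by
      apply mul_ne_zero _ Complex.I_ne_zero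
      intro h
      apply hj
      have : (j : ℂ) = ((n + 1 : ℕ) : ℂ) := by push_cast; linear_combination -h
      exact_mod_cast this
    rw [integral_exp_mul_complex hne]
    have : Complex.exp ((((n : ℂ) + 1 - j) * Complex.I) * ((2 * Real.pi : ℝ) : ℂ))
        = Complex.exp ((((n : ℂ) + 1 - j) * Complex.I) * ((0 : ℝ) : ℂ)) := by
      rw [Complex.exp_eq_exp_iff_exists_int]
      refine ⟨(n : ℤ) + 1 - j, ?_⟩
      push_cast
      ring
    rw [this, sub_self, zero_div, mul_zero]

theorem hasSum_circle {a b : ℕ → ℂ} (ha : Summable fun n => ‖a n‖) (hb : Summable fun n => ‖b n‖)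
    {A B : ℂ → ℂ} (hA : ∀ w : ℂ, ‖w‖ = 1 → HasSum (fun n => a n * w ^ n) (A w))
    (hB : ∀ w : ℂ, ‖w‖ = 1 → HasSum (fun n => b n * w ^ n) (B w)) :
    HasSum (fun n => (2 * Real.pi * Complex.I) * (a n * conj (b (n + 1))))
      (∮ w in C(0, 1), A w * conj (B w)) := by
  have hab : Summable fun q : ℕ × ℕ => ‖a q.1‖ * ‖b q.2‖ :=
    Summable.mul_of_nonneg ha hb (fun n => norm_nonneg _) (fun n => norm_nonneg _)
  have hnorm : ∀ θ : ℝ, ‖Complex.exp (θ * Complex.I)‖ = 1 := Complex.norm_exp_ofReal_mul_I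
  have hsum : HasSum (fun q => ∫ θ in (0 : ℝ)..2 * Real.pi, F4 a b q θ)
      (∫ θ in (0 : ℝ)..2 * Real.pi, Complex.exp (θ * Complex.I) *
        (A (Complex.exp (θ * Complex.I)) * conj (B (Complex.exp (θ * Complex.I))))) := by
    apply intervalIntegral.hasSum_integral_of_dominated_convergence
      (fun q _ => ‖a q.1‖ * ‖b q.2‖)
    · intro q
      exact (continuous_F4 a b q).aestronglyMeasurable
    · intro q
      exact Eventually.of_forall fun θ _ => (norm_F4 a b q θ).le
    · exact Eventually.of_forall fun θ _ => hab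
    · exact intervalIntegrable_const
    · refine Eventually.of_forall fun θ _ => ?_
      have h1 := (hA _ (hnorm θ)).mul_left (Complex.exp (θ * Complex.I))
      have h2 := Complex.hasSum_conj'.2 (hB _ (hnorm θ))
      have e1 : (fun n : ℕ => Complex.exp (θ * Complex.I) * (a n * Complex.exp (θ * Complex.I) ^ n))
          = fun n : ℕ => a n * Complex.exp (((n : ℂ) + 1) * Complex.I * (θ : ℂ)) := by
        funext n
        rw [← Complex.exp_nat_mul]
        have h1 : Complex.exp (((n : ℂ) + 1) * Complex.I * (θ : ℂ)) =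
            Complex.exp (θ * Complex.I) * Complex.exp (n * (θ * Complex.I)) := by
          rw [← Complex.exp_add]; congr 1; ring
        rw [h1]; ring
      have e2 : (fun n : ℕ => conj (b n * Complex.exp (θ * Complex.I) ^ n))
          = fun n : ℕ => conj (b n) * Complex.exp (-(n : ℂ) * Complex.I * (θ : ℂ)) := by
        funext n
        rw [map_mul, map_pow, ← Complex.exp_conj, map_mul, Complex.conj_I, Complex.conj_ofReal,
          ← Complex.exp_nat_mul]
        congr 2
        ring
      rw [e1] at h1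
      rw [e2] at h2
      have hsn : Summable fun q : ℕ × ℕ =>
          (a q.1 * Complex.exp (((q.1 : ℂ) + 1) * Complex.I * (θ : ℂ)))
          * (conj (b q.2) * Complex.exp (-(q.2 : ℂ) * Complex.I * (θ : ℂ))) := by
        apply Summable.of_norm
        have h : (fun q : ℕ × ℕ => ‖(a q.1 * Complex.exp (((q.1 : ℂ) + 1) * Complex.I * (θ : ℂ)))
            * (conj (b q.2) * Complex.exp (-(q.2 : ℂ) * Complex.I * (θ : ℂ)))‖)
            = fun q => ‖a q.1‖ * ‖b q.2‖ := by
          funext q
          exact norm_F4 a b q θ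
        rw [h]
        exact hab
      have h3 := HasSum.mul h1 h2 hsn
      have e3 : Complex.exp (θ * Complex.I) * (A (Complex.exp (θ * Complex.I)) *
          conj (B (Complex.exp (θ * Complex.I)))) = Complex.exp (θ * Complex.I) *
          A (Complex.exp (θ * Complex.I)) * conj (B (Complex.exp (θ * Complex.I))) := by ring
      rw [e3]
      unfold F4
      exact h3
  have hint : (fun q : ℕ × ℕ => ∫ θ in (0 : ℝ)..2 * Real.pi, F4 a b q θ)
      = fun q : ℕ × ℕ => if q.2 = q.1 + 1 then 2 * (Real.pi : ℂ) * (a q.1 * conj (b q.2))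
        else 0 := funext fun q => integral_F4 a b q
  rw [hint] at hsum
  have hinj : Function.Injective (fun n : ℕ => (n, n + 1)) := fun a b hab =>
    (Prod.ext_iff.1 hab).1
  have h3 := (hinj.hasSum_iff (f := fun q : ℕ × ℕ =>
    if q.2 = q.1 + 1 then 2 * (Real.pi : ℂ) * (a q.1 * conj (b q.2)) else 0) (by
      rintro ⟨n, j⟩ hq
      apply if_neg
      intro h
      exact hq ⟨n, by rw [show j = n + 1 from h]⟩)).2 hsum
  have h5 : ((fun q : ℕ × ℕ =>
    if q.2 = q.1 + 1 then 2 * (Real.pi : ℂ) * (a q.1 * conj (b q.2)) else 0) ∘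
      fun n : ℕ => (n, n + 1)) = fun n => 2 * (Real.pi : ℂ) * (a n * conj (b (n + 1))) := by
    funext n
    exact if_pos rfl
  rw [h5] at h3
  have h6 := h3.mul_left Complex.I
  have h7 : ∮ w in C(0, 1), A w * conj (B w) = Complex.I *
      (∫ θ in (0 : ℝ)..2 * Real.pi, Complex.exp (θ * Complex.I) *
        (A (Complex.exp (θ * Complex.I)) * conj (B (Complex.exp (θ * Complex.I))))) := by
    rw [circleIntegral, ← intervalIntegral.integral_const_mul]
    apply intervalIntegral.integral_congr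
    intro θ _
    simp only [deriv_circleMap, circleMap, zero_add, Complex.ofReal_one, one_mul, smul_eq_mul]
    ring
  rw [h7]
  have h8 : (fun n => (2 * Real.pi * Complex.I) * (a n * conj (b (n + 1))))
      = fun n => Complex.I * (2 * (Real.pi : ℂ) * (a n * conj (b (n + 1)))) := by
    funext n; ring
  rw [h8]
  exact h6

theorem hasSum_tc_ball {f : ℂ → ℂ} {r : ℝ} (hf : DifferentiableOn ℂ f (Metric.ball 0 r)) {w : ℂ}
    (hw : ‖w‖ < r) : HasSum (fun n => tc f n * w ^ n) (f w) := by
  have h := Complex.hasSum_taylorSeries_on_ball hf (z := w) (by simpa using hw)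
  have hfun : (fun n : ℕ => tc f n * w ^ n) =
      fun n : ℕ => ((n.factorial : ℂ))⁻¹ • (w - 0) ^ n • iteratedDeriv n f 0 := by
    funext n
    rw [tc, sub_zero, smul_eq_mul, smul_eq_mul]
    ring
  rw [hfun]
  exact h

theorem summable_tc_ball {f : ℂ → ℂ} {r : ℝ} (hr : 1 < r)
    (hf : DifferentiableOn ℂ f (Metric.ball 0 r)) : Summable fun n => ‖tc f n‖ := by
  obtain ⟨s, hs1, hs2⟩ := exists_between hr
  have hs0 : 0 < s := by linarith
  have h := (hasSum_tc_ball hf (w := (s : ℂ)) (by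
    rw [Complex.norm_real, Real.norm_eq_abs, abs_of_pos hs0]; exact hs2)).summable.norm
  have hfun : (fun n : ℕ => ‖tc f n * (s : ℂ) ^ n‖) = fun n : ℕ => ‖tc f n‖ * s ^ n := by
    funext n
    rw [norm_mul, norm_pow, Complex.norm_real, Real.norm_eq_abs, abs_of_pos hs0]
  rw [hfun] at h
  refine Summable.of_nonneg_of_le (fun n => norm_nonneg _) (fun n => ?_) h
  exact le_mul_of_one_le_right (norm_nonneg _) (one_le_pow₀ hs1.le)

/-- Green's formula for the unit disc and holomorphic functions. -/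
theorem area_eq_circle {f g : ℂ → ℂ} {r : ℝ} (hr : 1 < r)
    (hf : DifferentiableOn ℂ f (Metric.ball 0 r)) (hg : DifferentiableOn ℂ g (Metric.ball 0 r)) :
    ∫ w in Metric.ball (0 : ℂ) 1, f w * conj (deriv g w)
      = (2 * Complex.I)⁻¹ * ∮ w in C(0, 1), f w * conj (g w) := by
  have hg' : DifferentiableOn ℂ (deriv g) (Metric.ball 0 r) := hg.deriv Metric.isOpen_ball
  have hb : ∀ w ∈ Metric.ball (0 : ℂ) 1, ‖w‖ < r := fun w hw => by
    have : ‖w‖ < 1 := by simpa using hw
    linarith
  have h1 := hasSum_disc (summable_tc_ball hr hf) (summable_tc_ball hr hg')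
    (fun w hw => hasSum_tc_ball hf (hb w hw)) (fun w hw => hasSum_tc_ball hg' (hb w hw))
    (hg'.continuousOn.mono (Metric.ball_subset_ball hr.le))
  have h2 := (hasSum_circle (summable_tc_ball hr hf) (summable_tc_ball hr hg)
    (fun w hw => hasSum_tc_ball hf (by rw [hw]; exact hr))
    (fun w hw => hasSum_tc_ball hg (by rw [hw]; exact hr))).mul_left ((2 * Complex.I)⁻¹)
  have hfun : (fun n : ℕ => tc f n * (conj (tc (deriv g) n) * ((Real.pi / (n + 1) : ℝ) : ℂ)))
      = fun n : ℕ => (2 * Complex.I)⁻¹ * ((2 * Real.pi * Complex.I) *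
        (tc f n * conj (tc g (n + 1)))) := by
    funext n
    rw [tc_deriv]
    have h3 : ((n : ℂ) + 1) ≠ 0 := Nat.cast_add_one_ne_zero n
    rw [map_mul, map_add, map_natCast, map_one, Complex.ofReal_div, Complex.ofReal_add,
      Complex.ofReal_natCast, Complex.ofReal_one]
    have hI := Complex.I_ne_zero
    field_simp
  rw [hfun] at h1
  exact h1.unique h2

end Pool.Agent.MP_83fd13_an
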