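import Mathlib
import Pool.Agent.MP_83fd13_an.Ess1
import Pool.Agent.MP_83fd13_an.Weak4

namespace Pool.Agent.MP_83fd13_an

open MeasureTheory Filter
open scoped Topology ComplexConjugate

attribute [local instance] fact_two_pi

variable {Ω : Set ℂ} {lam c : ℝ} {u : ℂ → ℝ} {G : ℂ → ℂ}

theorem cf_exp_series (κ : ℤ) {T : ℝ} (a : ℂ) (Q : EE) :
    HasSum (fun m : ℕ => ((m.factorial : ℂ))⁻¹ * a ^ m * (((T : ℂ)⁻¹) ^ m * cf (κ + m) Q))
      (cf κ (NormedSpace.exp (a • taui T) * Q)) := by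
  have h1 := NormedSpace.exp_series_hasSum_exp' (𝕂 := ℂ) (a • taui T)
  have h2 := (h1.mul_right Q).mapL (cf κ)
  have hfun : (fun m : ℕ => cf κ (((m.factorial : ℂ))⁻¹ • (a • taui T) ^ m * Q)) =
      fun m : ℕ => ((m.factorial : ℂ))⁻¹ * a ^ m * (((T : ℂ)⁻¹) ^ m * cf (κ + m) Q) := by
    funext m
    rw [smul_pow, smul_smul, smul_mul_assoc, map_smul, cf_taui_pow_mul, smul_eq_mul]
  rw [← hfun]
  exact h2

theorem SchifferSolution.exp_moment (h : SchifferSolution Ω lam c u G)
    (hb : Bornology.IsBounded Ω) (hΩ : MeasurableSet Ω) {N : Set ℂ} (hN : IsOpen N)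
    (hsub : closure Ω ⊆ N) {T : ℝ} (hT : 0 < T) {Q : ℂ → EE} {e : ℂ → ℂ}
    (hQ : ∀ z ∈ N, HasDerivAt Q (-(tau T * Q z) + e z • (1 : EE)) z) (κ : ℕ) :
    cf κ (∫ z in Ω, NormedSpace.exp ((((lam / 4 : ℝ) : ℂ) * conj z) • taui T) * Q z) = 0 := by
  have hfin := finMeas hb
  have hlam := h.lam_pos
  have hTC : (T : ℂ) ≠ 0 := by exact_mod_cast hT.ne'
  obtain ⟨R, hR⟩ := hb.exists_norm_le
  set R' := max R 0 with hR'
  have hR'0 : 0 ≤ R' := le_max_right _ _
  have hRz : ∀ z ∈ Ω, ‖z‖ ≤ R' := fun z hz => (hR z hz).trans (le_max_left _ _)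
  have hcomp : IsCompact (closure Ω) := hb.isCompact_closure
  have hQc : ContinuousOn Q N := fun z hz => (hQ z hz).continuousAt.continuousWithinAt
  obtain ⟨C0, hC0⟩ := hcomp.exists_bound_of_continuousOn (hQc.mono hsub)
  set C := max C0 0 with hC
  have hCQ : ∀ z ∈ Ω, ‖Q z‖ ≤ C := fun z hz => (hC0 z (subset_closure hz)).trans (le_max_left _ _)
  have hC0' : 0 ≤ C := le_max_right _ _
  have hcfn : ∀ (k : ℤ) (f : EE), ‖cf k f‖ ≤ ‖f‖ := by
    intro k f
    have h1 : ‖cf k‖ ≤ 1 := LinearMap.mkContinuous_norm_le _ zero_le_one _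
    calc ‖cf k f‖ ≤ ‖cf k‖ * ‖f‖ := (cf k).le_opNorm f
      _ ≤ 1 * ‖f‖ := by gcongr
      _ = ‖f‖ := one_mul _
  set H : ℕ → ℂ → ℂ := fun m z => ((-1) ^ m * (m.factorial : ℂ) * ((T : ℂ)⁻¹) ^ m) *
    cf ((κ : ℤ) + m) (Q z) with hH
  have hHd : ∀ m : ℕ, ∀ z ∈ N, HasDerivAt (H m) (((-1) ^ m * (m.factorial : ℂ) * ((T : ℂ)⁻¹) ^ m) *
      cf ((κ : ℤ) + m) (-(tau T * Q z) + e z • (1 : EE))) z := by
    intro m z hz
    exact ((cf ((κ : ℤ) + m)).hasFDerivAt.comp_hasDerivAt z (hQ z hz)).const_mul _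
  have hdiff : ∀ m, DifferentiableOn ℂ (H m) N := fun m z hz =>
    (hHd m z hz).differentiableAt.differentiableWithinAt
  have hder : ∀ m : ℕ, ∀ z ∈ N, deriv (H (m + 1)) z = ((m : ℂ) + 1) * H m z := by
    intro m z hz
    rw [(hHd (m + 1) z hz).deriv]
    have h1 : cf ((κ : ℤ) + ((m + 1 : ℕ) : ℤ)) (1 : EE) = 0 := cf_one (by positivity)
    rw [map_add, map_neg, map_smul, h1, smul_zero, add_zero, cf_tau_mul]
    have h2 : (κ : ℤ) + ((m + 1 : ℕ) : ℤ) - 1 = (κ : ℤ) + m := by push_cast; ring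
    rw [h2]
    simp only [hH]
    rw [Nat.factorial_succ, pow_succ, pow_succ]
    push_cast
    field_simp
  set y : ℝ := lam * R' / (4 * T) with hy
  set B : ℕ → ℝ := fun m => y ^ m / m.factorial * C with hB
  have hcc : ∀ m : ℕ, |cc lam m| = (lam / 4) ^ m / (m.factorial : ℝ) ^ 2 := by
    intro m
    rw [cc, abs_div, abs_pow, abs_div, abs_neg, abs_of_pos hlam,
      abs_of_pos (by norm_num : (0:ℝ) < 4)]
    congr 1
    exact abs_of_nonneg (by positivity)
  have hbound : ∀ m, ∀ z ∈ Ω, |cc lam m| * ‖(conj z) ^ m * H m z‖ ≤ B m := by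
    intro m z hz
    have h2 : ‖(conj z) ^ m * H m z‖ ≤ R' ^ m * (m.factorial * (T⁻¹) ^ m * C) := by
      simp only [hH]
      rw [norm_mul, norm_mul, norm_mul, norm_mul, norm_pow, norm_pow, norm_pow, RCLike.norm_conj,
        norm_neg, norm_one, one_pow, one_mul, Complex.norm_natCast, norm_inv, Complex.norm_real,
        Real.norm_eq_abs, abs_of_pos hT]
      gcongr
      · exact hRz z hz
      · exact (hcfn _ _).trans (hCQ z hz)
    rw [hcc]
    calc (lam / 4) ^ m / (m.factorial : ℝ) ^ 2 * ‖(conj z) ^ m * H m z‖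
        ≤ (lam / 4) ^ m / (m.factorial : ℝ) ^ 2 * (R' ^ m * (m.factorial * (T⁻¹) ^ m * C)) := by
          gcongr
      _ = B m := by
        simp only [hB, hy]
        rw [div_pow, div_pow, mul_pow, mul_pow, inv_pow]
        field_simp
  have hB0 : Tendsto B atTop (𝓝 0) := by
    have := (FloorSemiring.tendsto_pow_div_factorial_atTop y).mul_const C
    rwa [zero_mul] at this
  have hlimit := h.tendsto_moments hb hΩ hN hsub hdiff hder B hbound hB0
  -- the series
  have hsum : HasSum (fun m => ∫ z in Ω, (cc lam m : ℂ) * ((conj z) ^ m * H m z))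
      (∫ z in Ω, cf κ (NormedSpace.exp ((((lam / 4 : ℝ) : ℂ) * conj z) • taui T) * Q z)) := by
    apply hasSum_integral_of_dominated_convergence (fun m _ => B m)
    · intro m
      apply ContinuousOn.aestronglyMeasurable _ hΩ
      apply ContinuousOn.mul continuousOn_const
      apply ContinuousOn.mul
      · exact ((Complex.continuous_conj).pow m).continuousOn
      · exact (hdiff m).continuousOn.mono (subset_closure.trans hsub)
    · intro m
      refine (ae_restrict_iff' hΩ).2 (Eventually.of_forall fun z hz => ?_)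
      rw [norm_mul, Complex.norm_real, Real.norm_eq_abs]
      exact hbound m z hz
    · refine Eventually.of_forall fun z => ?_
      exact (Real.summable_pow_div_factorial y).mul_right _
    · exact integrable_const _
    · refine (ae_restrict_iff' hΩ).2 (Eventually.of_forall fun z _ => ?_)
      have h2 := cf_exp_series (T := T) κ (((lam / 4 : ℝ) : ℂ) * conj z) (Q z)
      have hfun : (fun m : ℕ => (cc lam m : ℂ) * ((conj z) ^ m * H m z))
          = fun m : ℕ => ((m.factorial : ℂ))⁻¹ * (((lam / 4 : ℝ) : ℂ) * conj z) ^ m *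
            (((T : ℂ)⁻¹) ^ m * cf ((κ : ℤ) + m) (Q z)) := by
        funext m
        have hm : (m.factorial : ℂ) ≠ 0 := by exact_mod_cast m.factorial_ne_zero
        simp only [hH, cc]
        push_cast
        have e1 : (-(lam : ℂ) / 4) ^ m * (-1) ^ m = ((lam : ℂ) / 4) ^ m := by
          rw [← mul_pow]; congr 1; ring
        rw [mul_pow, ← e1]
        field_simp
      rw [hfun]
      exact h2
  have h3 := (hsum.tendsto_sum_nat).comp (tendsto_add_atTop_nat 1)
  have h4 : (fun M => ∑ m ∈ Finset.range (M + 1), (cc lam m : ℂ) *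
      ∫ z in Ω, (conj z) ^ m * H m z)
      = (fun n => ∑ i ∈ Finset.range n, ∫ z in Ω, (cc lam i : ℂ) * ((conj z) ^ i * H i z)) ∘
        fun a => a + 1 := by
    funext M
    simp only [Function.comp]
    apply Finset.sum_congr rfl
    intro m _
    rw [integral_const_mul]
  rw [h4] at hlimit
  have h5 := tendsto_nhds_unique h3 hlimit
  have hint : Integrable (fun z => NormedSpace.exp ((((lam / 4 : ℝ) : ℂ) * conj z) • taui T) * Q z)
      (volume.restrict Ω) := by
    have hc1 : ContinuousOn (fun z => NormedSpace.exp ((((lam / 4 : ℝ) : ℂ) * conj z) • taui T) *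
        Q z) (closure Ω) := by
      apply ContinuousOn.mul _ (hQc.mono hsub)
      apply Continuous.continuousOn
      have : Continuous (fun z : ℂ => conj z) := Complex.continuous_conj
      fun_prop
    have h6 : IntegrableOn (fun z => NormedSpace.exp ((((lam / 4 : ℝ) : ℂ) * conj z) • taui T) *
        Q z) (closure Ω) volume := hc1.integrableOn_compact hcomp
    exact h6.mono_set subset_closure
  rw [← (cf κ).integral_comp_comm hint]
  exact h5

end Pool.Agent.MP_83fd13_an
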