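import Mathlib
import Pool.Agent.MP_83fd13_an.Ess4
import Pool.Agent.MP_83fd13_an.Ess5
import Pool.Agent.MP_83fd13_an.Inj
import Pool.Agent.MP_83fd13_an.Ident

namespace Pool.Agent.MP_83fd13_an

open MeasureTheory Filter
open scoped Topology ComplexConjugate

attribute [local instance] fact_two_pi

theorem inv_pack {φ : ℂ → ℂ} {r : ℝ} (hr : 1 < r) (hφ : DifferentiableOn ℂ φ (Metric.ball 0 r))
    (hinj : Set.InjOn φ (Metric.ball 0 r)) :
    (∀ w ∈ Metric.ball (0 : ℂ) r, deriv φ w ≠ 0) ∧ IsOpen (φ '' Metric.ball 0 r) ∧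
    IsOpen (φ '' Metric.ball 0 1) ∧ closure (φ '' Metric.ball 0 1) ⊆ φ '' Metric.ball 0 r ∧
    Bornology.IsBounded (φ '' Metric.ball 0 1) ∧
    ∃ ψ : ℂ → ℂ, (∀ w ∈ Metric.ball (0 : ℂ) r, ψ (φ w) = w) ∧
      ∀ w ∈ Metric.ball (0 : ℂ) r, HasDerivAt ψ (deriv φ w)⁻¹ (φ w) := by
  have hball : IsOpen (Metric.ball (0 : ℂ) r) := Metric.isOpen_ball
  have hd0 : ∀ w ∈ Metric.ball (0 : ℂ) r, deriv φ w ≠ 0 := fun w hw =>
    deriv_ne_zero_of_injOn (hball.mem_nhds hw) (hφ.analyticAt (hball.mem_nhds hw)) hinj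
  have hstrict : ∀ w ∈ Metric.ball (0 : ℂ) r, HasStrictDerivAt φ (deriv φ w) w := fun w hw =>
    (hφ.analyticAt (hball.mem_nhds hw)).hasStrictDerivAt
  have hcb : Metric.closedBall (0 : ℂ) 1 ⊆ Metric.ball 0 r := Metric.closedBall_subset_ball hr
  have hb1 : Metric.ball (0 : ℂ) 1 ⊆ Metric.ball 0 r := Metric.ball_subset_closedBall.trans hcb
  have hopen : ∀ V : Set ℂ, IsOpen V → V ⊆ Metric.ball 0 r → IsOpen (φ '' V) := by
    intro V hV hVr
    rw [isOpen_iff_mem_nhds]
    rintro z ⟨w, hw, rfl⟩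
    rw [← (hstrict w (hVr hw)).map_nhds_eq (hd0 w (hVr hw))]
    exact Filter.image_mem_map (hV.mem_nhds hw)
  have hKc : IsCompact (φ '' Metric.closedBall 0 1) :=
    (isCompact_closedBall 0 1).image_of_continuousOn (hφ.continuousOn.mono hcb)
  have hclos : closure (φ '' Metric.ball 0 1) ⊆ φ '' Metric.closedBall 0 1 :=
    closure_minimal (Set.image_mono Metric.ball_subset_closedBall) hKc.isClosed
  have hψφ : ∀ w ∈ Metric.ball (0 : ℂ) r, Function.invFunOn φ (Metric.ball 0 r) (φ w) = w :=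
    fun w hw => hinj.leftInvOn_invFunOn hw
  refine ⟨hd0, hopen _ hball subset_rfl, hopen _ Metric.isOpen_ball hb1,
    hclos.trans (Set.image_mono hcb), hKc.isBounded.subset (subset_closure.trans hclos),
    Function.invFunOn φ (Metric.ball 0 r), hψφ, fun w hw => ?_⟩
  refine ((hstrict w hw).to_local_left_inverse (hd0 w hw) ?_).hasDerivAt
  filter_upwards [hball.mem_nhds hw] with x hx using hψφ x hx

theorem change_var {φ : ℂ → ℂ} {r : ℝ} (hr : 1 < r) (hφ : DifferentiableOn ℂ φ (Metric.ball 0 r))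
    (hinj : Set.InjOn φ (Metric.ball 0 r)) (F : ℂ → ℂ) :
    ∫ z in φ '' Metric.ball 0 1, F z
      = ∫ w in Metric.ball (0 : ℂ) 1, (deriv φ w * conj (deriv φ w)) * F (φ w) := by
  have hb1 : Metric.ball (0 : ℂ) 1 ⊆ Metric.ball 0 r := Metric.ball_subset_ball hr.le
  rw [integral_image_eq_integral_abs_det_fderiv_smul volume
      Metric.isOpen_ball.measurableSet
      (fun w hw => ((hφ.differentiableAt (Metric.isOpen_ball.mem_nhds (hb1 hw))).hasDerivAt
        ).complexToReal_fderiv.hasFDerivWithinAt) (hinj.mono hb1)]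
  apply setIntegral_congr_fun Metric.isOpen_ball.measurableSet
  intro w _
  simp only
  rw [det_smul_one, abs_of_nonneg (Complex.normSq_nonneg _), Complex.real_smul,
    ← Complex.mul_conj]

theorem clm_circle (L : EE →L[ℂ] ℂ) {f : ℂ → EE} {q : ℂ} {R : ℝ} (hf : CircleIntegrable f q R) :
    L (∮ w in C(q, R), f w) = ∮ w in C(q, R), L (f w) := by
  rw [circleIntegral, circleIntegral, ← L.intervalIntegral_comp_comm hf.out]
  apply intervalIntegral.integral_congr
  intro θ _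
  simp only [map_smul]

/-- The plane waves, as functions with values in the Banach algebra. -/
noncomputable def pw (T X : ℝ) (φ s : ℂ → ℂ) (w : ℂ) : EE :=
  deriv φ w • (NormedSpace.exp ((-φ w) • tau T) * NormedSpace.exp (((X : ℂ) * s w) • taui T))

theorem pw_apply {T : ℝ} (hT : T ≠ 0) (X : ℝ) (φ s : ℂ → ℂ) (w : ℂ) (x : AddCircle (2 * Real.pi)) :
    pw T X φ s w x = deriv φ w * Complex.exp (-(tau T x) * φ w + X * s w / tau T x) := by
  rw [pw, ContinuousMap.smul_apply, ContinuousMap.mul_apply, exp_apply, exp_apply,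
    ContinuousMap.smul_apply, ContinuousMap.smul_apply, taui_apply hT, ← Complex.exp_add,
    smul_eq_mul, smul_eq_mul, smul_eq_mul]
  congr 2
  ring

theorem differentiableAt_pw {T X : ℝ} {φ s : ℂ → ℂ} {w : ℂ} (hφ : DifferentiableAt ℂ φ w)
    (hφ' : DifferentiableAt ℂ (deriv φ) w) (hs : DifferentiableAt ℂ s w) :
    DifferentiableAt ℂ (pw T X φ s) w := by
  have h1 : DifferentiableAt ℂ (fun w => NormedSpace.exp ((-φ w) • tau T)) w :=
    (differentiable_exp_smul_const ℂ (tau T)).differentiableAt.comp w hφ.neg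
  have h2 : DifferentiableAt ℂ (fun w => NormedSpace.exp (((X : ℂ) * s w) • taui T)) w :=
    (differentiable_exp_smul_const ℂ (taui T)).differentiableAt.comp w
      (hs.const_mul (X : ℂ))
  exact hφ'.smul (h1.mul h2)

end Pool.Agent.MP_83fd13_an
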