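import Mathlib
import Pool.Agent.MP_83fd13_an.Ess6
import Pool.Agent.MP_83fd13_an.Ent12

namespace Pool.Agent.MP_83fd13_an

open MeasureTheory Filter
open scoped Topology ComplexConjugate

attribute [local instance] fact_two_pi

variable {lam c : ℝ} {u : ℂ → ℝ} {G : ℂ → ℂ}

/-- Pointwise form of the area-to-contour identity. -/
theorem area_point {φ : ℂ → ℂ} {r : ℝ} (hr : 1 < r) (hφ : DifferentiableOn ℂ φ (Metric.ball 0 r))
    (hinj : Set.InjOn φ (Metric.ball 0 r)) {X : ℝ} (hX : X ≠ 0) {t : ℂ} (ht : t ≠ 0)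
    {g : ℂ → ℂ} (hg : DifferentiableOn ℂ g (Metric.ball 0 r)) {F : ℂ → ℂ}
    (hF : ∀ w ∈ Metric.ball (0 : ℂ) 1, F (φ w) =
      Complex.exp (X * conj (φ w) / t) * (Complex.exp (-t * φ w) * g w)) :
    ∫ z in φ '' Metric.ball 0 1, F z = (2 * Complex.I * X)⁻¹ * (t *
      ∮ w in C(0, 1), g w * (deriv φ w * Complex.exp (-t * φ w + X * conj (φ w) / t))) := by
  have ht' : conj t ≠ 0 := by
    rw [Ne, map_eq_zero]; exact ht
  have hXC : (X : ℂ) ≠ 0 := by exact_mod_cast hX
  set s : ℂ := (X : ℂ) / conj t with hs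
  have hcs : conj s = (X : ℂ) / t := by
    rw [hs, map_div₀, Complex.conj_ofReal, Complex.conj_conj]
  set A : ℂ → ℂ := fun w => Complex.exp (-t * φ w) * g w * deriv φ w with hA
  set B : ℂ → ℂ := fun w => Complex.exp (s * φ w) with hB
  have hφ' : DifferentiableOn ℂ (deriv φ) (Metric.ball 0 r) := hφ.deriv Metric.isOpen_ball
  have hAd : DifferentiableOn ℂ A (Metric.ball 0 r) := ((hφ.const_mul (-t)).cexp.mul hg).mul hφ'
  have hBd : DifferentiableOn ℂ B (Metric.ball 0 r) := (hφ.const_mul s).cexp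
  have hb1 : Metric.ball (0 : ℂ) 1 ⊆ Metric.ball 0 r := Metric.ball_subset_ball hr.le
  have hBder : ∀ w ∈ Metric.ball (0 : ℂ) 1,
      deriv B w = Complex.exp (s * φ w) * (s * deriv φ w) := fun w hw =>
    (((hφ.differentiableAt (Metric.isOpen_ball.mem_nhds (hb1 hw))).hasDerivAt.const_mul s).cexp).deriv
  have h1 := area_eq_circle hr hAd hBd
  rw [change_var hr hφ hinj]
  have h2 : ∫ w in Metric.ball (0 : ℂ) 1, (deriv φ w * conj (deriv φ w)) * F (φ w) =
      ∫ w in Metric.ball (0 : ℂ) 1, (t / X) * (A w * conj (deriv B w)) := by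
    apply setIntegral_congr_fun Metric.isOpen_ball.measurableSet
    intro w hw
    simp only
    rw [hBder w hw, hF w hw, map_mul, map_mul, hcs, ← Complex.exp_conj, map_mul, hcs]
    have e1 : (X : ℂ) * conj (φ w) / t = (X : ℂ) / t * conj (φ w) := by ring
    rw [e1]
    simp only [hA]
    field_simp
  rw [h2, integral_const_mul, h1]
  have h3 : ∮ w in C(0, 1), A w * conj (B w) =
      ∮ w in C(0, 1), g w * (deriv φ w * Complex.exp (-t * φ w + X * conj (φ w) / t)) := by
    apply circleIntegral.integral_congr zero_le_one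
    intro w _
    simp only [hA, hB]
    rw [← Complex.exp_conj, map_mul, hcs, Complex.exp_add]
    have e1 : (X : ℂ) * conj (φ w) / t = (X : ℂ) / t * conj (φ w) := by ring
    rw [e1]
    ring
  rw [h3]
  have hI := Complex.I_ne_zero
  field_simp

theorem SchifferSolution.pw_zero {φ : ℂ → ℂ} {r : ℝ} (hr : 1 < r)
    (hφ : DifferentiableOn ℂ φ (Metric.ball 0 r)) (hinj : Set.InjOn φ (Metric.ball 0 r))
    (h : SchifferSolution (φ '' Metric.ball 0 1) lam c u G) {t : ℂ} (ht : t ≠ 0) :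
    ∮ w in C(0, 1), deriv φ w * Complex.exp (-t * φ w + (lam / 4 : ℝ) * conj (φ w) / t) = 0 := by
  obtain ⟨_, _, hΩo, _, hbdd, _⟩ := inv_pack hr hφ hinj
  have hX : (lam / 4 : ℝ) ≠ 0 := by
    have := h.lam_pos
    positivity
  have h1 := h.plane_wave hbdd hΩo.measurableSet ht
  rw [area_point hr hφ hinj hX ht (g := fun _ => 1) (differentiableOn_const 1) (by
    intro w _
    rw [← Complex.exp_conj, map_div₀, map_mul, Complex.conj_ofReal, Complex.conj_conj, mul_one]
    ring)] at h1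
  simp only [one_mul] at h1
  have hXC : ((lam / 4 : ℝ) : ℂ) ≠ 0 := by exact_mod_cast hX
  have h2 : (2 * Complex.I * ((lam / 4 : ℝ) : ℂ))⁻¹ ≠ 0 :=
    inv_ne_zero (mul_ne_zero (mul_ne_zero two_ne_zero Complex.I_ne_zero) hXC)
  rcases mul_eq_zero.1 h1 with h3 | h3
  · exact absurd h3 h2
  · rcases mul_eq_zero.1 h3 with h4 | h4
    · exact absurd h4 ht
    · exact h4

theorem SchifferSolution.istar {φ s : ℂ → ℂ} {r : ℝ} (hr : 1 < r)
    (hφ : DifferentiableOn ℂ φ (Metric.ball 0 r)) (hinj : Set.InjOn φ (Metric.ball 0 r))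
    (h : SchifferSolution (φ '' Metric.ball 0 1) lam c u G) {T : ℝ} (hT : 0 < T)
    (hs : ∀ w ∈ Metric.sphere (0 : ℂ) 1, s w = conj (φ w)) {𝔊 : ℂ → EE} {p : ℂ → ℂ}
    (h𝔊 : ∀ w ∈ Metric.ball (0 : ℂ) r,
      HasDerivAt 𝔊 (p w • NormedSpace.exp (φ w • tau T)) w) {k : ℤ} (hk : -1 ≤ k) :
    cf k (∮ w in C(0, 1), 𝔊 w * pw T (lam / 4) φ s w) = 0 := by
  obtain ⟨hd0, hNo, hΩo, hsub, hbdd, ψ, hψφ, hψd⟩ := inv_pack hr hφ hinj
  have hlam := h.lam_pos
  have hX : (lam / 4 : ℝ) ≠ 0 := by positivity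
  have hXC : ((lam / 4 : ℝ) : ℂ) ≠ 0 := by exact_mod_cast hX
  have hTC : (T : ℂ) ≠ 0 := by exact_mod_cast hT.ne'
  obtain ⟨κ, hκ⟩ : ∃ κ : ℕ, (κ : ℤ) = k + 1 := ⟨(k + 1).toNat, Int.toNat_of_nonneg (by omega)⟩
  set Q : ℂ → EE := fun z => NormedSpace.exp ((-z) • tau T) * 𝔊 (ψ z) with hQ
  have hexp : ∀ z : ℂ, HasDerivAt (fun z : ℂ => NormedSpace.exp ((-z) • tau T))
      (-(tau T * NormedSpace.exp ((-z) • tau T))) z := by
    intro z
    have h1 := hasDerivAt_exp_smul_const' (tau T) (-z)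
    have h2 := h1.scomp z (hasDerivAt_neg z)
    rw [neg_smul, one_smul] at h2
    exact h2
  have hQd : ∀ z ∈ φ '' Metric.ball 0 r, HasDerivAt Q
      (-(tau T * Q z) + (p (ψ z) * (deriv φ (ψ z))⁻¹) • (1 : EE)) z := by
    rintro z ⟨w, hw, rfl⟩
    have h1 : HasDerivAt 𝔊 (p w • NormedSpace.exp (φ w • tau T)) (ψ (φ w)) := by
      rw [hψφ w hw]; exact h𝔊 w hw
    have h2 := h1.scomp (φ w) (hψd w hw)
    have h3 := (hexp (φ w)).mul h2
    refine h3.congr_deriv ?_
    simp only [hQ, Function.comp]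
    rw [hψφ w hw]
    have h4 : NormedSpace.exp ((-φ w) • tau T) * NormedSpace.exp (φ w • tau T) = (1 : EE) := by
      rw [← exp_add_EE, ← add_smul, neg_add_cancel, zero_smul, NormedSpace.exp_zero]
    rw [smul_smul, mul_smul_comm, h4, mul_comm (deriv φ w)⁻¹ (p w), neg_mul, mul_assoc]
  have hmom := h.exp_moment hbdd hΩo.measurableSet hNo hsub hT hQd κ
  -- continuity facts
  have hcomp : IsCompact (closure (φ '' Metric.ball 0 1)) := hbdd.isCompact_closure
  have hQc : ContinuousOn Q (φ '' Metric.ball 0 r) := fun z hz =>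
    (hQd z hz).continuousAt.continuousWithinAt
  have hint : Integrable (fun z => NormedSpace.exp ((((lam / 4 : ℝ) : ℂ) * conj z) • taui T) * Q z)
      (volume.restrict (φ '' Metric.ball 0 1)) := by
    have hc1 : ContinuousOn (fun z => NormedSpace.exp ((((lam / 4 : ℝ) : ℂ) * conj z) • taui T) *
        Q z) (closure (φ '' Metric.ball 0 1)) := by
      apply ContinuousOn.mul _ (hQc.mono hsub)
      apply Continuous.continuousOn
      have : Continuous (fun z : ℂ => conj z) := Complex.continuous_conj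
      fun_prop
    have h6 : IntegrableOn (fun z => NormedSpace.exp ((((lam / 4 : ℝ) : ℂ) * conj z) • taui T) *
        Q z) (closure (φ '' Metric.ball 0 1)) volume := hc1.integrableOn_compact hcomp
    exact h6.mono_set subset_closure
  have hsr : Metric.sphere (0 : ℂ) 1 ⊆ Metric.ball 0 r := by
    intro w hw
    have : ‖w‖ = 1 := by simpa using hw
    simpa [this] using hr
  have h𝔊c : ContinuousOn 𝔊 (Metric.sphere (0 : ℂ) 1) := fun w hw =>
    (h𝔊 w (hsr hw)).continuousAt.continuousWithinAt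
  have hφc : ContinuousOn φ (Metric.sphere (0 : ℂ) 1) := hφ.continuousOn.mono hsr
  have hφ' : DifferentiableOn ℂ (deriv φ) (Metric.ball 0 r) := hφ.deriv Metric.isOpen_ball
  have hsc : ContinuousOn s (Metric.sphere (0 : ℂ) 1) := by
    have : ContinuousOn (fun w => conj (φ w)) (Metric.sphere (0 : ℂ) 1) :=
      Complex.continuous_conj.comp_continuousOn hφc
    exact this.congr hs
  have hpwc : ContinuousOn (pw T (lam / 4) φ s) (Metric.sphere (0 : ℂ) 1) := by
    unfold pw
    have hexpc : Continuous (NormedSpace.exp : EE → EE) := NormedSpace.exp_continuous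
    apply ContinuousOn.smul (hφ'.continuousOn.mono hsr)
    apply ContinuousOn.mul
    · exact hexpc.comp_continuousOn ((hφc.neg).smul continuousOn_const)
    · exact hexpc.comp_continuousOn ((continuousOn_const.mul hsc).smul continuousOn_const)
  have hci : CircleIntegrable (fun w => 𝔊 w * pw T (lam / 4) φ s w) 0 1 :=
    (h𝔊c.mul hpwc).circleIntegrable zero_le_one
  -- the two elements of the algebra agree
  have hJ : (∫ z in φ '' Metric.ball 0 1,
      NormedSpace.exp ((((lam / 4 : ℝ) : ℂ) * conj z) • taui T) * Q z) =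
      (2 * Complex.I * ((lam / 4 : ℝ) : ℂ))⁻¹ • (tau T *
        ∮ w in C(0, 1), 𝔊 w * pw T (lam / 4) φ s w) := by
    ext x
    set t := tau T x with ht
    have ht0 : t ≠ 0 := tau_apply_ne hT.ne' x
    rw [ContinuousMap.smul_apply, ContinuousMap.mul_apply, ← ev0_apply x (∫ z in _, _),
      ← ev0_apply x (∮ w in C(0, 1), _), ← (ev0 x).integral_comp_comm hint, clm_circle _ hci,
      smul_eq_mul]
    have hgd : DifferentiableOn ℂ (fun w => 𝔊 w x) (Metric.ball 0 r) := by
      intro w hw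
      have := (ev0 x).hasFDerivAt.comp_hasDerivAt w (h𝔊 w hw)
      exact this.differentiableAt.differentiableWithinAt
    have h7 := area_point hr hφ hinj hX ht0 hgd (F := fun z =>
      ev0 x (NormedSpace.exp ((((lam / 4 : ℝ) : ℂ) * conj z) • taui T) * Q z)) (by
        intro w hw
        have hw' : w ∈ Metric.ball (0 : ℂ) r := Metric.ball_subset_ball hr.le hw
        simp only [hQ]
        rw [ev0_apply, ContinuousMap.mul_apply, ContinuousMap.mul_apply, exp_apply, exp_apply,
          ContinuousMap.smul_apply, ContinuousMap.smul_apply, taui_apply hT.ne', hψφ w hw',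
          ← ht, smul_eq_mul, smul_eq_mul]
        have e1 : (((lam / 4 : ℝ) : ℂ) * conj (φ w)) * t⁻¹ = ((lam / 4 : ℝ) : ℂ) * conj (φ w) / t := by
          ring
        have e2 : -φ w * t = -t * φ w := by ring
        rw [e1, e2])
    rw [h7]
    congr 2
    apply circleIntegral.integral_congr zero_le_one
    intro w hw
    simp only
    rw [ev0_apply, ContinuousMap.mul_apply, pw_apply hT.ne', hs w hw]
  rw [hJ, map_smul, cf_tau_mul, hκ] at hmom
  have h8 : k + 1 - 1 = k := by ring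
  rw [h8, smul_eq_mul] at hmom
  have h2 : (2 * Complex.I * ((lam / 4 : ℝ) : ℂ))⁻¹ ≠ 0 :=
    inv_ne_zero (mul_ne_zero (mul_ne_zero two_ne_zero Complex.I_ne_zero) hXC)
  rcases mul_eq_zero.1 hmom with h3 | h3
  · exact absurd h3 h2
  · rcases mul_eq_zero.1 h3 with h4 | h4
    · exact absurd h4 hTC
    · exact h4

end Pool.Agent.MP_83fd13_an
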