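import Mathlib
import Pool.Agent.MP_83fd13_an.Ess3
import Pool.Agent.MP_83fd13_an.Ess7

namespace Pool.Agent.MP_83fd13_an

open MeasureTheory Filter
open scoped Topology ComplexConjugate

attribute [local instance] fact_two_pi

variable {lam c : ℝ} {u : ℂ → ℝ} {G : ℂ → ℂ}

theorem SchifferSolution.extends {φ s : ℂ → ℂ} {r : ℝ} (hr : 1 < r)
    (hφ : DifferentiableOn ℂ φ (Metric.ball 0 r)) (hinj : Set.InjOn φ (Metric.ball 0 r))
    (h : SchifferSolution (φ '' Metric.ball 0 1) lam c u G) {T : ℝ} (hT : 0 < T)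
    (hs : ∀ w ∈ Metric.sphere (0 : ℂ) 1, s w = conj (φ w))
    {r1 r2 : ℝ} (hr1 : 0 < r1) (hr11 : r1 < 1) (hr21 : 1 < r2) (hr2 : r2 ≤ r)
    (hsd : DifferentiableOn ℂ s (Ann 0 r1 r2)) :
    ∃ 𝔉 : ℂ → EE, (∀ w ∈ Ann 0 r1 r2, HasDerivAt 𝔉 (pw T (lam / 4) φ s w) w) ∧
      ∀ k : ℤ, -1 ≤ k → ∃ V : ℂ → ℂ, DifferentiableOn ℂ V (Metric.ball 0 r2) ∧
        ∀ w ∈ Ann 0 r1 r2, V w = cf k (NormedSpace.exp (φ w • tau T) * 𝔉 w) := by
  have hAo := isOpen_Ann 0 r1 r2
  have hAr : Ann 0 r1 r2 ⊆ Metric.ball 0 r := by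
    rintro w ⟨_, h2⟩
    rw [sub_zero] at h2
    have : ‖w‖ < r := by linarith
    simpa using this
  have hφ' : DifferentiableOn ℂ (deriv φ) (Metric.ball 0 r) := hφ.deriv Metric.isOpen_ball
  have hrn : ∀ w ∈ Metric.ball (0 : ℂ) r, Metric.ball (0 : ℂ) r ∈ 𝓝 w := fun w hw =>
    Metric.isOpen_ball.mem_nhds hw
  have hpwd : DifferentiableOn ℂ (pw T (lam / 4) φ s) (Ann 0 r1 r2) := by
    intro w hw
    have hw' := hAr hw
    exact (differentiableAt_pw (hφ.differentiableAt (hrn w hw'))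
      (hφ'.differentiableAt (hrn w hw')) (hsd.differentiableAt (hAo.mem_nhds hw))
      ).differentiableWithinAt
  have hsph : Metric.sphere (0 : ℂ) 1 ⊆ Ann 0 r1 r2 := by
    intro w hw
    have hw1 : ‖w‖ = 1 := by simpa using hw
    exact ⟨by rw [sub_zero, hw1]; exact hr11, by rw [sub_zero, hw1]; exact hr21⟩
  have hpwc := (hpwd.continuousOn.mono hsph).circleIntegrable zero_le_one
  have hzero : ∮ w in C(0, 1), pw T (lam / 4) φ s w = 0 := by
    ext x
    rw [← ev0_apply x (∮ w in C(0, 1), _), clm_circle _ hpwc, ContinuousMap.zero_apply]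
    refine Eq.trans ?_ (h.pw_zero hr hφ hinj (tau_apply_ne hT.ne' x))
    apply circleIntegral.integral_congr zero_le_one
    intro w hw
    simp only
    rw [ev0_apply, pw_apply hT.ne', hs w hw]
  obtain ⟨𝔉, h𝔉⟩ := exists_prim_annulus hr1 hpwd hr11 hr21 hzero
  refine ⟨𝔉, h𝔉, fun k hk => ?_⟩
  have hexpd : ∀ w ∈ Metric.ball (0 : ℂ) r,
      DifferentiableAt ℂ (fun w => NormedSpace.exp (φ w • tau T)) w := fun w hw =>
    (differentiable_exp_smul_const ℂ (tau T)).differentiableAt.comp w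
      (hφ.differentiableAt (hrn w hw))
  have hfd : DifferentiableOn ℂ (fun w => cf k (NormedSpace.exp (φ w • tau T) * 𝔉 w))
      (Ann 0 r1 r2) := by
    intro w hw
    have h1 := (hexpd w (hAr hw)).mul (h𝔉 w hw).differentiableAt
    exact ((cf k).differentiableAt.comp w h1).differentiableWithinAt
  apply exists_extension hr1.le hr11 hr21 hfd
  intro n
  -- primitive of `w ^ n exp (φ τ)`
  have hgd : DifferentiableOn ℂ (fun w => w ^ n • NormedSpace.exp (φ w • tau T))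
      (Metric.ball 0 r) := by
    intro w hw
    have h1 : DifferentiableAt ℂ (fun w : ℂ => w ^ n) w := by fun_prop
    exact (h1.smul (hexpd w hw)).differentiableWithinAt
  obtain ⟨𝔊, h𝔊⟩ := exists_prim (convex_ball 0 r) Metric.isOpen_ball hgd
  have h1 := h.istar hr hφ hinj hT hs h𝔊 hk
  have h𝔊c : ContinuousOn 𝔊 (Metric.sphere (0 : ℂ) 1) := fun w hw =>
    (h𝔊 w (hAr (hsph hw))).continuousAt.continuousWithinAt
  have h𝔉c : ContinuousOn 𝔉 (Metric.sphere (0 : ℂ) 1) := fun w hw =>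
    (h𝔉 w (hsph hw)).continuousAt.continuousWithinAt
  have hgc : ContinuousOn (fun w => w ^ n • NormedSpace.exp (φ w • tau T))
      (Metric.sphere (0 : ℂ) 1) := hgd.continuousOn.mono (hsph.trans hAr)
  have hi1 : CircleIntegrable (fun w => (w ^ n • NormedSpace.exp (φ w • tau T)) * 𝔉 w) 0 1 :=
    (hgc.mul h𝔉c).circleIntegrable zero_le_one
  have hi2 : CircleIntegrable (fun w => 𝔊 w * pw T (lam / 4) φ s w) 0 1 :=
    (h𝔊c.mul (hpwd.continuousOn.mono hsph)).circleIntegrable zero_le_one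
  have h2 : ∮ w in C(0, 1), ((w ^ n • NormedSpace.exp (φ w • tau T)) * 𝔉 w +
      𝔊 w * pw T (lam / 4) φ s w) = 0 := by
    apply circleIntegral.integral_eq_zero_of_hasDerivWithinAt (f := fun w => 𝔊 w * 𝔉 w) zero_le_one
    intro w hw
    exact ((h𝔊 w (hAr (hsph hw))).mul (h𝔉 w (hsph hw))).hasDerivWithinAt
  rw [circleIntegral.integral_add hi1 hi2] at h2
  have h3 := congrArg (cf k) h2
  rw [map_add, h1, add_zero, map_zero, clm_circle _ hi1] at h3
  refine Eq.trans ?_ h3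
  apply circleIntegral.integral_congr zero_le_one
  intro w _
  simp only
  rw [smul_mul_assoc, map_smul, smul_eq_mul, sub_zero]

end Pool.Agent.MP_83fd13_an
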