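import Mathlib
import Pool.Agent.MP_83fd13_an.Ess8

namespace Pool.Agent.MP_83fd13_an

open MeasureTheory Filter
open scoped Topology ComplexConjugate

attribute [local instance] fact_two_pi

/-- If the coefficients of `exp (z τ) L` with index at least `-1` vanish for `z` near a point,
then `L = 0`. -/
theorem eq_zero_of_germ {T : ℝ} (hT : T ≠ 0) {L : EE} {z₀ : ℂ}
    (h : ∀ k : ℤ, -1 ≤ k → ∀ᶠ z in 𝓝 z₀, cf k (NormedSpace.exp (z • tau T) * L) = 0) : L = 0 := by
  have hTC : (T : ℂ) ≠ 0 := by exact_mod_cast hT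
  set g : ℤ → ℂ → ℂ := fun k z => cf k (NormedSpace.exp (z • tau T) * L) with hg
  have hgd : ∀ k z, HasDerivAt (g k) (T * g (k - 1) z) z := by
    intro k z
    have h1 := (hasDerivAt_exp_smul_const' (tau T) z).mul_const L
    have h2 := (cf k).hasFDerivAt.comp_hasDerivAt z h1
    refine h2.congr_deriv ?_
    rw [mul_assoc, cf_tau_mul]
  have hgdiff : ∀ k, Differentiable ℂ (g k) := fun k z => (hgd k z).differentiableAt
  have h1 : ∀ k : ℤ, -1 ≤ k → ∀ z, g k z = 0 := by
    intro k hk z
    have hA : AnalyticOnNhd ℂ (g k) Set.univ := fun z _ => (hgdiff k).analyticAt z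
    have hZ : AnalyticOnNhd ℂ (fun _ : ℂ => (0 : ℂ)) Set.univ := fun z _ => analyticAt_const
    have := hA.eqOn_of_preconnected_of_eventuallyEq hZ isPreconnected_univ (Set.mem_univ z₀) (h k hk)
    exact this (Set.mem_univ z)
  have hstep : ∀ k : ℤ, (∀ z, g k z = 0) → ∀ z, g (k - 1) z = 0 := by
    intro k hk z
    have h2 : g k = fun _ => 0 := funext hk
    have h3 := hgd k z
    rw [h2] at h3
    have h4 := h3.unique (hasDerivAt_const z (0 : ℂ))
    exact (mul_eq_zero.1 h4).resolve_left hTC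
  have hneg : ∀ n : ℕ, ∀ z, g (-1 - n) z = 0 := by
    intro n
    induction n with
    | zero => intro z; exact h1 _ (by simp) z
    | succ n ih =>
      intro z
      have := hstep _ ih z
      have e : (-1 : ℤ) - n - 1 = -1 - ((n + 1 : ℕ) : ℤ) := by push_cast; ring
      rwa [e] at this
  have hall : ∀ k : ℤ, ∀ z, g k z = 0 := by
    intro k z
    by_cases hk : -1 ≤ k
    · exact h1 k hk z
    · have e : k = -1 - ((-1 - k).toNat : ℤ) := by
        rw [Int.toNat_of_nonneg (by omega)]
        ring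
      rw [e]
      exact hneg _ z
  apply eq_zero_of_cf
  intro k
  have := hall k 0
  simp only [hg] at this
  rwa [zero_smul, NormedSpace.exp_zero, one_mul] at this

/-- Identity theorem, in the form used below. -/
theorem ident_thm {f g : ℂ → ℂ} {S : Set ℂ} (hS : IsOpen S) (hc : Convex ℝ S)
    (hf : DifferentiableOn ℂ f S) (hg : DifferentiableOn ℂ g S) {z₀ : ℂ} (hz : z₀ ∈ S)
    (h : ∀ᶠ z in 𝓝 z₀, f z = g z) : ∀ z ∈ S, f z = g z := by
  have hA : AnalyticOnNhd ℂ f S := fun z hz => hf.analyticAt (hS.mem_nhds hz)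
  have hB : AnalyticOnNhd ℂ g S := fun z hz => hg.analyticAt (hS.mem_nhds hz)
  exact hA.eqOn_of_preconnected_of_eventuallyEq hB hc.isPreconnected hz h

end Pool.Agent.MP_83fd13_an
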