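import Mathlib
import Pool.Agent.MP_83fd13_an.Ess9

namespace Pool.Agent.MP_83fd13_an

open MeasureTheory Filter
open scoped Topology ComplexConjugate

attribute [local instance] fact_two_pi

variable {lam c : ℝ} {u : ℂ → ℝ} {G : ℂ → ℂ}

/-- logarithmic coordinate around `q` -/
noncomputable def WW (q e ξ : ℂ) : ℂ := q + (e - q) * Complex.exp ξ

theorem hasDerivAt_WW (q e ξ : ℂ) : HasDerivAt (WW q e) ((e - q) * Complex.exp ξ) ξ :=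
  ((Complex.hasDerivAt_exp ξ).const_mul (e - q)).const_add q

theorem WW_per (q e ξ : ℂ) : WW q e (ξ + 2 * Real.pi * Complex.I) = WW q e ξ := by
  rw [WW, WW, Complex.exp_periodic ξ]

theorem WW_sub (q e ξ : ℂ) : WW q e ξ - q = (e - q) * Complex.exp ξ := by
  rw [WW]; ring

theorem WW_ne {q e : ℂ} (h : e ≠ q) (ξ : ℂ) : WW q e ξ ≠ q := by
  intro h1
  have h2 := WW_sub q e ξ
  rw [h1, sub_self] at h2
  exact (mul_ne_zero (sub_ne_zero.2 h) (Complex.exp_ne_zero ξ)) h2.symm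

theorem norm_WW_sub (q e ξ : ℂ) : ‖WW q e ξ - q‖ = ‖e - q‖ * Real.exp ξ.re := by
  rw [WW_sub, norm_mul, Complex.norm_exp]

/-- The monodromy around `q` vanishes: core statement for one radius. -/
theorem SchifferSolution.monodromy {φ s : ℂ → ℂ} {r : ℝ} (hr : 1 < r)
    (hφ : DifferentiableOn ℂ φ (Metric.ball 0 r)) (hinj : Set.InjOn φ (Metric.ball 0 r))
    (h : SchifferSolution (φ '' Metric.ball 0 1) lam c u G) {T : ℝ} (hT : 0 < T)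
    (hs : ∀ w ∈ Metric.sphere (0 : ℂ) 1, s w = conj (φ w))
    {r1 r2 : ℝ} (hr1 : 0 < r1) (hr11 : r1 < 1) (hr21 : 1 < r2) (hr2 : r2 ≤ r)
    {Y : Set ℂ} (hY : IsOpen Y) (hA : Ann 0 r1 r2 ⊆ Y) (hsd : DifferentiableOn ℂ s Y)
    {q e : ℂ} (he : e ∈ Metric.sphere (0 : ℂ) 1) (hqe : e ≠ q)
    {N₁ N₂ : Set ℂ} (hN₁ : IsOpen N₁) (hc₁ : Convex ℝ N₁) (hN₂ : IsOpen N₂) (hc₂ : Convex ℝ N₂)
    (h0 : (0 : ℂ) ∈ N₁) (h12 : (N₁ ∩ N₂).Nonempty)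
    (hm₁ : ∀ ξ ∈ N₁, WW q e ξ ∈ Y ∩ Metric.ball 0 r2)
    (hm₂ : ∀ ξ ∈ N₂, WW q e ξ ∈ Y ∩ Metric.ball 0 r2)
    (hper : ∀ ξ ∈ N₂, ξ + 2 * Real.pi * Complex.I ∈ N₂) :
    ∀ F : ℂ → EE, (∀ ξ ∈ N₂, HasDerivAt F (((e - q) * Complex.exp ξ) •
      pw T (lam / 4) φ s (WW q e ξ)) ξ) → ∀ ξ ∈ N₂, F (ξ + 2 * Real.pi * Complex.I) = F ξ := by
  intro F₂ hF₂
  obtain ⟨𝔉, h𝔉, hV⟩ := h.extends hr hφ hinj hT hs hr1 hr11 hr21 hr2 (hsd.mono hA)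
  have hφ' : DifferentiableOn ℂ (deriv φ) (Metric.ball 0 r) := hφ.deriv Metric.isOpen_ball
  have hballo : ∀ w ∈ Metric.ball (0 : ℂ) r2, w ∈ Metric.ball (0 : ℂ) r := fun w hw =>
    Metric.ball_subset_ball hr2 hw
  have hrn : ∀ w ∈ Metric.ball (0 : ℂ) r2, Metric.ball (0 : ℂ) r ∈ 𝓝 w := fun w hw =>
    Metric.isOpen_ball.mem_nhds (hballo w hw)
  have hWd : ∀ ξ, DifferentiableAt ℂ (WW q e) ξ := fun ξ => (hasDerivAt_WW q e ξ).differentiableAt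
  have hpwd : ∀ w ∈ Y ∩ Metric.ball 0 r2, DifferentiableAt ℂ (pw T (lam / 4) φ s) w := by
    rintro w ⟨hw1, hw2⟩
    exact differentiableAt_pw (hφ.differentiableAt (hrn w hw2))
      (hφ'.differentiableAt (hrn w hw2)) (hsd.differentiableAt (hY.mem_nhds hw1))
  have hed : ∀ ξ, WW q e ξ ∈ Y ∩ Metric.ball 0 r2 → DifferentiableAt ℂ
      (fun ξ => ((e - q) * Complex.exp ξ) • pw T (lam / 4) φ s (WW q e ξ)) ξ := by
    intro ξ hξ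
    have h1 : DifferentiableAt ℂ (fun ξ => pw T (lam / 4) φ s (WW q e ξ)) ξ :=
      (hpwd _ hξ).comp ξ (hWd ξ)
    exact (Complex.differentiableAt_exp.const_mul (e - q)).smul h1
  obtain ⟨F₁, hF₁⟩ := exists_prim hc₁ hN₁ (f := fun ξ => ((e - q) * Complex.exp ξ) •
      pw T (lam / 4) φ s (WW q e ξ)) (fun ξ hξ => (hed ξ (hm₁ ξ hξ)).differentiableWithinAt)
  have hexpd : ∀ ξ, WW q e ξ ∈ Metric.ball (0 : ℂ) r2 →
      DifferentiableAt ℂ (fun ξ => NormedSpace.exp (φ (WW q e ξ) • tau T)) ξ := by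
    intro ξ hξ
    have h1 : DifferentiableAt ℂ (fun ξ => φ (WW q e ξ)) ξ :=
      (hφ.differentiableAt (hrn _ hξ)).comp ξ (hWd ξ)
    exact (differentiable_exp_smul_const ℂ (tau T)).differentiableAt.comp ξ h1
  -- differentiability of the right-hand sides
  have hrhs : ∀ (k : ℤ) (F : ℂ → EE) (C : EE) (N : Set ℂ),
      (∀ ξ ∈ N, WW q e ξ ∈ Y ∩ Metric.ball 0 r2) → (∀ ξ ∈ N, DifferentiableAt ℂ F ξ) →
      DifferentiableOn ℂ (fun ξ => cf k (NormedSpace.exp (φ (WW q e ξ) • tau T) * (F ξ - C))) N := by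
    intro k F C N hN hF ξ hξ
    have h1 := (hexpd ξ (hN ξ hξ).2).mul ((hF ξ hξ).sub_const C)
    exact ((cf k).differentiableAt.comp ξ h1).differentiableWithinAt
  have hlhs : ∀ (V : ℂ → ℂ) (N : Set ℂ), DifferentiableOn ℂ V (Metric.ball 0 r2) →
      (∀ ξ ∈ N, WW q e ξ ∈ Y ∩ Metric.ball 0 r2) →
      DifferentiableOn ℂ (fun ξ => V (WW q e ξ)) N := by
    intro V N hVd hN ξ hξ
    have h1 : DifferentiableAt ℂ V (WW q e ξ) :=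
      hVd.differentiableAt (Metric.isOpen_ball.mem_nhds (hN ξ hξ).2)
    exact (h1.comp ξ (hWd ξ)).differentiableWithinAt
  have hWe : WW q e 0 = e := by
    rw [WW, Complex.exp_zero]; ring
  have heA : e ∈ Ann 0 r1 r2 := by
    have he1 : ‖e‖ = 1 := by simpa using he
    exact ⟨by rw [sub_zero, he1]; exact hr11, by rw [sub_zero, he1]; exact hr21⟩
  -- constants
  obtain ⟨ε, hε, hεN⟩ : ∃ ε, 0 < ε ∧ Metric.ball (0 : ℂ) ε ⊆ N₁ ∩ (WW q e) ⁻¹' (Ann 0 r1 r2) := by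
    have h1 : N₁ ∩ (WW q e) ⁻¹' (Ann 0 r1 r2) ∈ 𝓝 (0 : ℂ) := by
      apply inter_mem (hN₁.mem_nhds h0)
      apply (hWd 0).continuousAt.preimage_mem_nhds
      rw [hWe]
      exact (isOpen_Ann 0 r1 r2).mem_nhds heA
    obtain ⟨ε, hε, h2⟩ := Metric.mem_nhds_iff.1 h1
    exact ⟨ε, hε, h2⟩
  set C₁ : EE := F₁ 0 - 𝔉 (WW q e 0) with hC₁
  have hd𝔉 : ∀ ξ ∈ Metric.ball (0 : ℂ) ε, HasDerivAt (fun ξ => 𝔉 (WW q e ξ))
      (((e - q) * Complex.exp ξ) • pw T (lam / 4) φ s (WW q e ξ)) ξ := fun ξ hξ =>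
    (h𝔉 _ (hεN hξ).2).scomp ξ (hasDerivAt_WW q e ξ)
  have hrel₁ : ∀ ξ ∈ Metric.ball (0 : ℂ) ε, 𝔉 (WW q e ξ) = F₁ ξ - C₁ := by
    intro ξ hξ
    have h1 := sub_eq_of_deriv (convex_ball (0 : ℂ) ε) Metric.isOpen_ball
      (fun ξ hξ => hF₁ ξ (hεN hξ).1) hd𝔉 hξ (Metric.mem_ball_self hε)
    rw [hC₁, ← h1]
    abel
  obtain ⟨ξ₁, hξ₁⟩ := h12
  set C₂ : EE := F₂ ξ₁ - F₁ ξ₁ + C₁ with hC₂
  have hrel₂ : ∀ ξ ∈ N₁ ∩ N₂, F₁ ξ - C₁ = F₂ ξ - C₂ := by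
    intro ξ hξ
    have h1 := sub_eq_of_deriv (hc₁.inter hc₂) (hN₁.inter hN₂)
      (fun ξ hξ => hF₂ ξ hξ.2) (fun ξ hξ => hF₁ ξ hξ.1) hξ hξ₁
    rw [hC₂, ← h1]
    abel
  -- the main identity on `N₂`
  have hmain : ∀ k : ℤ, -1 ≤ k → ∀ ξ ∈ N₂, ∃ v : ℂ, v =
      cf k (NormedSpace.exp (φ (WW q e ξ) • tau T) * (F₂ ξ - C₂)) ∧ v =
      cf k (NormedSpace.exp (φ (WW q e ξ) • tau T) *
        (F₂ (ξ + 2 * Real.pi * Complex.I) - C₂)) := by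
    intro k hk
    obtain ⟨V, hVd, hVA⟩ := hV k hk
    have h1 : ∀ ξ ∈ N₁, V (WW q e ξ) =
        cf k (NormedSpace.exp (φ (WW q e ξ) • tau T) * (F₁ ξ - C₁)) := by
      apply ident_thm hN₁ hc₁ (hlhs V N₁ hVd hm₁)
        (hrhs k F₁ C₁ N₁ hm₁ (fun ξ hξ => (hF₁ ξ hξ).differentiableAt)) h0
      filter_upwards [Metric.ball_mem_nhds (0 : ℂ) hε] with ξ hξ
      rw [hVA _ (hεN hξ).2, hrel₁ ξ hξ]
    have h2 : ∀ ξ ∈ N₂, V (WW q e ξ) =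
        cf k (NormedSpace.exp (φ (WW q e ξ) • tau T) * (F₂ ξ - C₂)) := by
      apply ident_thm hN₂ hc₂ (hlhs V N₂ hVd hm₂)
        (hrhs k F₂ C₂ N₂ hm₂ (fun ξ hξ => (hF₂ ξ hξ).differentiableAt)) hξ₁.2
      filter_upwards [(hN₁.inter hN₂).mem_nhds hξ₁] with ξ hξ
      rw [h1 ξ hξ.1, hrel₂ ξ hξ]
    intro ξ hξ
    refine ⟨V (WW q e ξ), h2 ξ hξ, ?_⟩
    have h3 := h2 _ (hper ξ hξ)
    rwa [WW_per] at h3
  intro ξ₀ hξ₀
  have hshift : ∀ ξ ∈ N₂, HasDerivAt (fun ξ => F₂ (ξ + 2 * Real.pi * Complex.I))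
      (((e - q) * Complex.exp ξ) • pw T (lam / 4) φ s (WW q e ξ)) ξ := by
    intro ξ hξ
    have h1 := (hF₂ _ (hper ξ hξ)).comp_add_const ξ (2 * Real.pi * Complex.I)
    rw [WW_per, Complex.exp_periodic ξ] at h1
    exact h1
  set L : EE := F₂ (ξ₀ + 2 * Real.pi * Complex.I) - F₂ ξ₀ with hL
  have hLc : ∀ ξ ∈ N₂, F₂ (ξ + 2 * Real.pi * Complex.I) - F₂ ξ = L := fun ξ hξ =>
    sub_eq_of_deriv hc₂ hN₂ hshift hF₂ hξ hξ₀
  have hL0 : L = 0 := by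
    apply eq_zero_of_germ hT.ne' (z₀ := φ (WW q e ξ₀))
    intro k hk
    have hb := (hm₂ ξ₀ hξ₀).2
    have hst : HasStrictDerivAt (fun ξ => φ (WW q e ξ))
        (deriv φ (WW q e ξ₀) * ((e - q) * Complex.exp ξ₀)) ξ₀ := by
      have h1 : HasStrictDerivAt φ (deriv φ (WW q e ξ₀)) (WW q e ξ₀) :=
        (hφ.analyticAt (hrn _ hb)).hasStrictDerivAt
      have h2 : HasStrictDerivAt (WW q e) ((e - q) * Complex.exp ξ₀) ξ₀ :=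
        ((Complex.hasStrictDerivAt_exp ξ₀).const_mul (e - q)).const_add q
      exact h1.comp ξ₀ h2
    have hne : deriv φ (WW q e ξ₀) * ((e - q) * Complex.exp ξ₀) ≠ 0 :=
      mul_ne_zero ((inv_pack hr hφ hinj).1 _ (hballo _ hb))
        (mul_ne_zero (sub_ne_zero.2 hqe) (Complex.exp_ne_zero _))
    rw [← hst.map_nhds_eq hne, Filter.eventually_map]
    filter_upwards [hN₂.mem_nhds hξ₀] with ξ hξ
    obtain ⟨v, hv1, hv2⟩ := hmain k hk ξ hξ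
    have h3 : cf k (NormedSpace.exp (φ (WW q e ξ) • tau T) *
        ((F₂ (ξ + 2 * Real.pi * Complex.I) - C₂) - (F₂ ξ - C₂))) = 0 := by
      rw [mul_sub, map_sub, ← hv2, ← hv1, sub_self]
    rw [sub_sub_sub_cancel_right, hLc ξ hξ] at h3
    exact h3
  exact sub_eq_zero.1 hL0

end Pool.Agent.MP_83fd13_an
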