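import Mathlib
import Pool.Agent.MP_83fd13_an.Ess10

namespace Pool.Agent.MP_83fd13_an

open MeasureTheory Filter
open scoped Topology ComplexConjugate

attribute [local instance] fact_two_pi

variable {lam c : ℝ} {u : ℂ → ℝ} {G : ℂ → ℂ}

/-- left half plane -/
def LH (x0 : ℝ) : Set ℂ := {ξ | ξ.re < -x0}

theorem isOpen_LH (x0 : ℝ) : IsOpen (LH x0) := isOpen_lt Complex.continuous_re continuous_const

theorem convex_LH (x0 : ℝ) : Convex ℝ (LH x0) := by
  have : LH x0 = Complex.re ⁻¹' (Set.Iio (-x0)) := rfl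
  rw [this]
  exact (convex_Iio (-x0)).linear_preimage Complex.reLm

theorem WW_mem_punctured {q e : ℂ} {x0 δ : ℝ} (hδ : ‖e - q‖ * Real.exp (-x0) ≤ δ) (hqe : e ≠ q)
    {ξ : ℂ} (hξ : ξ ∈ LH x0) : WW q e ξ ∈ Ann q 0 δ := by
  have h0 : 0 < ‖e - q‖ := norm_pos_iff.2 (sub_ne_zero.2 hqe)
  refine ⟨?_, ?_⟩
  · rw [norm_WW_sub]; positivity
  · rw [norm_WW_sub]
    refine lt_of_lt_of_le ?_ hδ
    gcongr
    exact hξ

theorem SchifferSolution.loops {φ s : ℂ → ℂ} {r : ℝ} (hr : 1 < r)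
    (hφ : DifferentiableOn ℂ φ (Metric.ball 0 r)) (hinj : Set.InjOn φ (Metric.ball 0 r))
    (h : SchifferSolution (φ '' Metric.ball 0 1) lam c u G)
    (hs : ∀ w ∈ Metric.sphere (0 : ℂ) 1, s w = conj (φ w))
    {Y : Set ℂ} (hY : IsOpen Y) (hcirc : Metric.sphere (0 : ℂ) 1 ⊆ Y)
    {q e : ℂ} (hq : q ∈ Metric.ball (0 : ℂ) 1) (he : e ∈ Metric.sphere (0 : ℂ) 1)
    (hseg : segment ℝ e q ⊆ Y) (hsd : DifferentiableOn ℂ s (Y \ {q}))
    {x0 δ : ℝ} (hx0 : 0 ≤ x0) (hδ : ‖e - q‖ * Real.exp (-x0) ≤ δ)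
    (hδY : Metric.ball q δ ⊆ Y ∩ Metric.ball 0 1) {t : ℂ} (ht : t ≠ 0) :
    ∀ ξ ∈ LH x0, ∫ θ in (-Real.pi)..Real.pi,
      ((e - q) * Complex.exp (ξ + θ * Complex.I)) * (deriv φ (WW q e (ξ + θ * Complex.I)) *
        Complex.exp (-t * φ (WW q e (ξ + θ * Complex.I)) +
          (lam / 4 : ℝ) * s (WW q e (ξ + θ * Complex.I)) / t)) = 0 := by
  have hqn : ‖q‖ < 1 := by simpa using hq
  have hen : ‖e‖ = 1 := by simpa using he
  have hqe : e ≠ q := by
    rintro rfl
    linarith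
  set Y' : Set ℂ := (Y \ {q}) ∩ Metric.ball 0 r with hY'
  have hY'o : IsOpen Y' := (hY.sdiff isClosed_singleton).inter Metric.isOpen_ball
  have hsphY' : Metric.sphere (0 : ℂ) 1 ⊆ Y' := by
    intro w hw
    have hw1 : ‖w‖ = 1 := by simpa using hw
    refine ⟨⟨hcirc hw, ?_⟩, by simpa [hw1] using hr⟩
    rintro rfl
    linarith
  -- the annulus
  obtain ⟨ε, hε, hεY⟩ := (isCompact_sphere (0 : ℂ) 1).exists_thickening_subset_open hY'o hsphY'
  set ε' := min ε (min (1 / 2) (r - 1)) with hε'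
  have hε'0 : 0 < ε' := lt_min hε (lt_min (by norm_num) (by linarith))
  have hε'1 : ε' ≤ ε := min_le_left _ _
  have hε'2 : ε' ≤ 1 / 2 := (min_le_right _ _).trans (min_le_left _ _)
  have hε'3 : ε' ≤ r - 1 := (min_le_right _ _).trans (min_le_right _ _)
  have hAY : Ann 0 (1 - ε') (1 + ε') ⊆ Y' := by
    rintro w ⟨hw1, hw2⟩
    rw [sub_zero] at hw1 hw2
    apply hεY
    have hwn : 0 < ‖w‖ := by linarith
    have hwC : (‖w‖ : ℂ) ≠ 0 := by exact_mod_cast hwn.ne'
    rw [Metric.mem_thickening_iff]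
    refine ⟨w / ‖w‖, ?_, ?_⟩
    · rw [mem_sphere_zero_iff_norm, norm_div, Complex.norm_real, Real.norm_eq_abs,
        abs_of_pos hwn, div_self hwn.ne']
    · rw [dist_eq_norm]
      have e1 : w - w / ‖w‖ = (w / ‖w‖) * ((‖w‖ - 1 : ℝ) : ℂ) := by
        push_cast
        field_simp
      rw [e1, norm_mul, norm_div, Complex.norm_real, Complex.norm_real, Real.norm_eq_abs,
        Real.norm_eq_abs, abs_of_pos hwn, div_self hwn.ne', one_mul, abs_lt]
      constructor <;> linarith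
  -- second region
  have hm₂ : ∀ ξ ∈ LH x0, WW q e ξ ∈ Y' ∩ Metric.ball 0 (1 + ε') := by
    intro ξ hξ
    have h1 := WW_mem_punctured hδ hqe hξ
    have h2 : WW q e ξ ∈ Metric.ball q δ := by
      rw [Metric.mem_ball, dist_eq_norm]; exact h1.2
    obtain ⟨h3, h4⟩ := hδY h2
    have h5 : ‖WW q e ξ‖ < 1 := by simpa using h4
    refine ⟨⟨⟨h3, WW_ne hqe ξ⟩, ?_⟩, ?_⟩
    · rw [mem_ball_zero_iff]; linarith
    · rw [mem_ball_zero_iff]; linarith
  -- first region
  set K : Set ℂ := (fun x : ℝ => (x : ℂ)) '' Set.Icc (-x0 - 1) 0 with hK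
  have hKc : IsCompact K := isCompact_Icc.image Complex.continuous_ofReal
  have hKconv : Convex ℝ K := (convex_Icc (-x0 - 1) 0).linear_image Complex.ofRealCLM.toLinearMap
  have hWc : Continuous (WW q e) := continuous_iff_continuousAt.2 fun ξ =>
    (hasDerivAt_WW q e ξ).continuousAt
  have hKO : K ⊆ (WW q e) ⁻¹' (Y' ∩ Metric.ball 0 (1 + ε')) := by
    rintro _ ⟨x, hx, rfl⟩
    have hex : Real.exp x ≤ 1 := Real.exp_le_one_iff.2 hx.2
    have hex0 := Real.exp_pos x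
    have h1 : WW q e (x : ℂ) = Real.exp x • e + (1 - Real.exp x) • q := by
      rw [WW, Complex.real_smul, Complex.real_smul, ← Complex.ofReal_exp]
      push_cast
      ring
    have h2 : WW q e (x : ℂ) ∈ segment ℝ e q :=
      ⟨Real.exp x, 1 - Real.exp x, hex0.le, by linarith, by ring, h1.symm⟩
    have h3 : ‖WW q e (x : ℂ)‖ ≤ 1 := by
      rw [h1]
      refine (norm_add_le _ _).trans ?_
      rw [norm_smul, norm_smul, Real.norm_eq_abs, Real.norm_eq_abs, abs_of_pos hex0,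
        abs_of_nonneg (by linarith), hen]
      have : (1 - Real.exp x) * ‖q‖ ≤ (1 - Real.exp x) * 1 := by
        apply mul_le_mul_of_nonneg_left hqn.le
        linarith
      linarith
    refine ⟨⟨⟨hseg h2, WW_ne hqe _⟩, ?_⟩, ?_⟩
    · rw [mem_ball_zero_iff]; linarith
    · rw [mem_ball_zero_iff]; linarith
  obtain ⟨η, hη, hηN⟩ := hKc.exists_thickening_subset_open
    ((hY'o.inter Metric.isOpen_ball).preimage hWc) hKO
  set N₁ := Metric.thickening η K with hN₁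
  have h0N : (0 : ℂ) ∈ N₁ := Metric.self_subset_thickening hη K ⟨0, ⟨by linarith, le_rfl⟩, by simp⟩
  have h12 : (N₁ ∩ LH x0).Nonempty := by
    refine ⟨((-x0 - 1 : ℝ) : ℂ), Metric.self_subset_thickening hη K
      ⟨-x0 - 1, ⟨le_rfl, by linarith⟩, rfl⟩, ?_⟩
    show ((-x0 - 1 : ℝ) : ℂ).re < -x0
    rw [Complex.ofReal_re]
    linarith
  have hper : ∀ ξ ∈ LH x0, ξ + 2 * Real.pi * Complex.I ∈ LH x0 := by
    intro ξ hξ
    simpa [LH] using hξ
  have hT : 0 < ‖t‖ := norm_pos_iff.2 ht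
  obtain ⟨x, hx⟩ := exists_tau_eq t
  -- primitive on the half plane
  have hφ' : DifferentiableOn ℂ (deriv φ) (Metric.ball 0 r) := hφ.deriv Metric.isOpen_ball
  have hsd' : DifferentiableOn ℂ s Y' := hsd.mono fun w hw => hw.1
  have hed : DifferentiableOn ℂ
      (fun ξ => ((e - q) * Complex.exp ξ) • pw ‖t‖ (lam / 4) φ s (WW q e ξ)) (LH x0) := by
    intro ξ hξ
    obtain ⟨hw1, hw2⟩ := hm₂ ξ hξ
    have hrn : Metric.ball (0 : ℂ) r ∈ 𝓝 (WW q e ξ) := Metric.isOpen_ball.mem_nhds hw1.2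
    have h0 : DifferentiableAt ℂ (pw ‖t‖ (lam / 4) φ s) (WW q e ξ) :=
      differentiableAt_pw (hφ.differentiableAt hrn) (hφ'.differentiableAt hrn)
        (hsd'.differentiableAt (hY'o.mem_nhds hw1))
    have h1 : DifferentiableAt ℂ (fun ξ => pw ‖t‖ (lam / 4) φ s (WW q e ξ)) ξ :=
      h0.comp ξ (hasDerivAt_WW q e ξ).differentiableAt
    exact ((Complex.differentiableAt_exp.const_mul (e - q)).smul h1).differentiableWithinAt
  obtain ⟨F, hF⟩ := exists_prim (convex_LH x0) (isOpen_LH x0) hed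
  have hmon := h.monodromy hr hφ hinj hT hs (r1 := 1 - ε') (r2 := 1 + ε') (by linarith)
    (by linarith) (by linarith) (by linarith) hY'o hAY hsd' he hqe Metric.isOpen_thickening
    (hKconv.thickening η) (isOpen_LH x0) (convex_LH x0) h0N h12 (fun ξ hξ => hηN hξ) hm₂ hper F hF
  intro ξ hξ
  have hline : ∀ θ : ℝ, ξ + θ * Complex.I ∈ LH x0 := by
    intro θ
    simpa [LH] using hξ
  have h1 : ∀ θ ∈ Set.uIcc (-Real.pi) Real.pi, HasDerivAt (fun θ : ℝ => F (ξ + θ * Complex.I))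
      (Complex.I • (((e - q) * Complex.exp (ξ + θ * Complex.I)) •
        pw ‖t‖ (lam / 4) φ s (WW q e (ξ + θ * Complex.I)))) θ := by
    intro θ _
    have h5 : HasDerivAt (fun θ : ℝ => ξ + θ * Complex.I) Complex.I θ := by
      have h6 : HasDerivAt (fun θ : ℝ => (θ : ℂ)) 1 θ := Complex.ofRealCLM.hasDerivAt
      have := (h6.mul_const Complex.I).const_add ξ
      rwa [one_mul] at this
    exact (hF _ (hline θ)).scomp θ h5
  have hcont : Continuous (fun θ : ℝ => ((e - q) * Complex.exp (ξ + θ * Complex.I)) •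
        pw ‖t‖ (lam / 4) φ s (WW q e (ξ + θ * Complex.I))) :=
    hed.continuousOn.comp_continuous (f := fun θ : ℝ => ξ + θ * Complex.I) (by fun_prop) hline
  have h2 := intervalIntegral.integral_eq_sub_of_hasDerivAt h1
    (hcont.const_smul Complex.I).continuousOn.intervalIntegrable
  have h3 : F (ξ + (Real.pi : ℝ) * Complex.I) - F (ξ + ((-Real.pi : ℝ) : ℂ) * Complex.I) = 0 := by
    have h4 := hmon _ (hline (-Real.pi))
    have h5 : ξ + ((-Real.pi : ℝ) : ℂ) * Complex.I + 2 * Real.pi * Complex.I =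
        ξ + (Real.pi : ℝ) * Complex.I := by
      push_cast; ring
    rw [h5] at h4
    rw [h4, sub_self]
  rw [h3, intervalIntegral.integral_smul] at h2
  have h6 : ∫ θ in (-Real.pi)..Real.pi, ((e - q) * Complex.exp (ξ + θ * Complex.I)) •
        pw ‖t‖ (lam / 4) φ s (WW q e (ξ + θ * Complex.I)) = 0 :=
    (smul_eq_zero.1 h2).resolve_left Complex.I_ne_zero
  have h7 := congrArg (ev0 x) h6
  rw [← (ev0 x).intervalIntegral_comp_comm hcont.continuousOn.intervalIntegrable, map_zero] at h7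
  rw [← h7]
  apply intervalIntegral.integral_congr
  intro θ _
  simp only
  rw [map_smul, ev0_apply, pw_apply hT.ne', hx, smul_eq_mul]

end Pool.Agent.MP_83fd13_an
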