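import Mathlib
import Pool.Agent.MP_83fd13_an.Ess11
import Pool.Agent.MP_83fd13_an.Ent2

namespace Pool.Agent.MP_83fd13_an

open MeasureTheory Filter Metric
open scoped Topology ComplexConjugate

/-- If infinitely many negative Laurent coefficients vanish the function is meromorphic. -/
theorem exists_moment {s : ℂ → ℂ} {q : ℂ} {δ ρ : ℝ} (hρ : 0 < ρ) (hρδ : ρ < δ)
    (hs : DifferentiableOn ℂ s (Ann q 0 δ)) (hess : ¬ MeromorphicAt s q) (k : ℕ) :
    ∃ n, k ≤ n ∧ ∮ w in C(q, ρ), (w - q) ^ n * s w ≠ 0 := by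
  by_contra hcon
  push Not at hcon
  apply hess
  have hd : DifferentiableOn ℂ (fun w => (w - q) ^ k * s w) (Ann q 0 δ) :=
    (by fun_prop : Differentiable ℂ fun w : ℂ => (w - q) ^ k).differentiableOn.mul hs
  obtain ⟨F, hF, hFe⟩ := exists_extension le_rfl hρ hρδ hd (by
    intro n
    rw [← hcon (n + k) (by omega)]
    apply circleIntegral.integral_congr hρ.le
    intro w _
    simp only
    rw [pow_add, mul_assoc])
  refine ⟨k + 1, ?_⟩
  have h1 : AnalyticAt ℂ (fun z => (z - q) * F z) q := by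
    have h2 : AnalyticAt ℂ F q := hF.analyticAt (ball_mem_nhds q (hρ.trans hρδ))
    exact (analyticAt_id.sub analyticAt_const).mul h2
  apply h1.congr
  filter_upwards [ball_mem_nhds q (hρ.trans hρδ)] with z hz
  by_cases hzq : z = q
  · subst hzq
    simp
  · rw [hFe z ⟨norm_pos_iff.2 (sub_ne_zero.2 hzq), by rwa [mem_ball, dist_eq_norm] at hz⟩,
      smul_eq_mul, pow_succ]
    ring

theorem growth_ess {s : ℂ → ℂ} {q e : ℂ} {x0 δ : ℝ} (hx0 : 0 ≤ x0) (hqe : e ≠ q)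
    (hδ : ‖e - q‖ * Real.exp (-x0) ≤ δ) (hs : DifferentiableOn ℂ s (Ann q 0 δ))
    (hess : ¬ MeromorphicAt s q) (k : ℕ) :
    ∃ c : ℝ, 0 < c ∧ ∀ x, x0 < x → c * Real.exp (k * x) ≤ MM (fun ζ => s (WW q e (-ζ))) x := by
  have hd0 : 0 < ‖e - q‖ := norm_pos_iff.2 (sub_ne_zero.2 hqe)
  set ρ := ‖e - q‖ * Real.exp (-(x0 + 1)) with hρdef
  have hρ : 0 < ρ := by positivity
  have hρδ : ρ < δ := by
    refine lt_of_lt_of_le ?_ hδ
    rw [hρdef]
    gcongr
    linarith
  obtain ⟨n, hkn, hn⟩ := exists_moment hρ hρδ hs hess k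
  set I := ∮ w in C(q, ρ), (w - q) ^ n * s w with hI
  refine ⟨‖I‖ / (2 * Real.pi * ‖e - q‖ ^ (n + 1)), by positivity, fun x hx => ?_⟩
  set g : ℂ → ℂ := fun ζ => s (WW q e (-ζ)) with hg
  have hmem : ∀ ζ ∈ HP x0, WW q e (-ζ) ∈ Ann q 0 δ := by
    intro ζ hζ
    apply WW_mem_punctured hδ hqe
    show (-ζ).re < -x0
    have : x0 < ζ.re := hζ
    rw [Complex.neg_re]; linarith
  have hgd : DifferentiableOn ℂ g (HP x0) := by
    intro ζ hζ
    have h1 : DifferentiableAt ℂ s (WW q e (-ζ)) :=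
      hs.differentiableAt ((isOpen_Ann q 0 δ).mem_nhds (hmem ζ hζ))
    have h2 : DifferentiableAt ℂ (fun ζ => WW q e (-ζ)) ζ :=
      (hasDerivAt_WW q e (-ζ)).differentiableAt.comp ζ differentiableAt_id.neg
    exact (h1.comp ζ h2).differentiableWithinAt
  have hper : ∀ ζ, g (ζ + 2 * Real.pi * Complex.I) = g ζ := by
    intro ζ
    simp only [hg]
    have h1 := WW_per q e (-(ζ + 2 * Real.pi * Complex.I))
    have h2 : -(ζ + 2 * Real.pi * Complex.I) + 2 * Real.pi * Complex.I = -ζ := by ring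
    rw [h2] at h1
    rw [← h1]
  set ρx := ‖e - q‖ * Real.exp (-x) with hρx
  have hρx0 : 0 < ρx := by positivity
  have hρxδ : ρx < δ := by
    refine lt_of_lt_of_le ?_ hδ
    rw [hρx]
    gcongr
  have h1 : I = ∮ w in C(q, ρx), (w - q) ^ n * s w := by
    rw [hI]
    exact (circle_eq (f := fun w => (w - q) ^ n * s w)
      ((by fun_prop : Differentiable ℂ fun w : ℂ => (w - q) ^ n).differentiableOn.mul hs) le_rfl
      hρ hρδ hρx0 hρxδ).symm
  have h2 : ∀ w ∈ sphere q ρx, ‖(w - q) ^ n * s w‖ ≤ ρx ^ n * MM g x := by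
    intro w hw
    have hw' : ‖w - q‖ = ρx := by rwa [mem_sphere, dist_eq_norm] at hw
    rw [norm_mul, norm_pow, hw']
    gcongr
    set v := (w - q) / (e - q) with hv
    have hvn : ‖v‖ = Real.exp (-x) := by
      rw [hv, norm_div, hw', hρx]
      field_simp
    have h3 := Complex.norm_mul_exp_arg_mul_I v
    rw [hvn] at h3
    have h4 : WW q e (-((x : ℂ) + (-v.arg : ℝ) * Complex.I)) = w := by
      have h5 : Complex.exp (-((x : ℂ) + (-v.arg : ℝ) * Complex.I)) = v := by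
        refine Eq.trans ?_ h3
        rw [Complex.ofReal_exp, ← Complex.exp_add]
        congr 1
        push_cast
        ring
      rw [WW, h5, hv]
      field_simp [sub_ne_zero.2 hqe]
      ring
    have h6 := norm_le_MM hgd hper (ζ := (x : ℂ) + (-v.arg : ℝ) * Complex.I) (by simpa using hx)
    have h7 : ((x : ℂ) + (-v.arg : ℝ) * Complex.I).re = x := by simp
    rw [h7] at h6
    simp only [hg] at h6
    rw [h4] at h6
    exact h6
  have h3 := circleIntegral.norm_integral_le_of_norm_le_const hρx0.le h2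
  rw [← h1] at h3
  rw [div_mul_eq_mul_div, div_le_iff₀ (by positivity)]
  have hx' : 0 ≤ x := by linarith
  have h4 : Real.exp (k * x) * ρx ^ (n + 1) ≤ ‖e - q‖ ^ (n + 1) := by
    rw [hρx, mul_pow, ← Real.exp_nat_mul]
    have h5 : Real.exp (k * x) * Real.exp (((n + 1 : ℕ) : ℝ) * -x) ≤ 1 := by
      rw [← Real.exp_add, Real.exp_le_one_iff]
      have h6 : (k : ℝ) ≤ ((n + 1 : ℕ) : ℝ) := by exact_mod_cast (by omega : k ≤ n + 1)
      nlinarith
    calc Real.exp (k * x) * (‖e - q‖ ^ (n + 1) * Real.exp (((n + 1 : ℕ) : ℝ) * -x))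
        = ‖e - q‖ ^ (n + 1) * (Real.exp (k * x) * Real.exp (((n + 1 : ℕ) : ℝ) * -x)) := by ring
      _ ≤ ‖e - q‖ ^ (n + 1) * 1 := by gcongr
      _ = ‖e - q‖ ^ (n + 1) := mul_one _
  have hM0 : 0 ≤ MM g x := by
    obtain ⟨y₀, hy, _⟩ := exists_MM hgd hper hx
    rw [← hy]
    exact norm_nonneg _
  calc ‖I‖ * Real.exp (k * x) ≤ (2 * Real.pi * ρx * (ρx ^ n * MM g x)) * Real.exp (k * x) := by
        gcongr
    _ = (2 * Real.pi * MM g x) * (Real.exp (k * x) * ρx ^ (n + 1)) := by ring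
    _ ≤ (2 * Real.pi * MM g x) * ‖e - q‖ ^ (n + 1) := by gcongr
    _ = MM g x * (2 * Real.pi * ‖e - q‖ ^ (n + 1)) := by ring

end Pool.Agent.MP_83fd13_an
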