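import Mathlib
import Pool.Agent.MP_83fd13_an.Ess12

namespace Pool.Agent.MP_83fd13_an

open MeasureTheory Filter Metric
open scoped Topology ComplexConjugate

attribute [local instance] fact_two_pi

variable {lam c : ℝ} {u : ℂ → ℝ} {G : ℂ → ℂ}

/-- Near `w` the functions `V k` are given by a local primitive of the plane waves. -/
def PP (T X : ℝ) (φ s : ℂ → ℂ) (V : ℤ → ℂ → ℂ) (S : Set ℂ) (w : ℂ) : Prop :=
  ∃ ε > 0, ball w ε ⊆ S ∧ ∃ F : ℂ → EE, (∀ z ∈ ball w ε, HasDerivAt F (pw T X φ s z) z) ∧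
    ∀ k : ℤ, -1 ≤ k → ∀ z ∈ ball w ε, V k z = cf k (NormedSpace.exp (φ z • tau T) * F z)

variable {T X : ℝ} {φ s : ℂ → ℂ} {V : ℤ → ℂ → ℂ} {S : Set ℂ}

theorem PP_isOpen : IsOpen {w | PP T X φ s V S w} := by
  rw [isOpen_iff_mem_nhds]
  rintro w ⟨ε, hε, hS, F, hF, hV⟩
  filter_upwards [ball_mem_nhds w hε] with w' hw'
  obtain ⟨ε', hε', hsub⟩ := Metric.isOpen_iff.1 isOpen_ball w' hw'
  exact ⟨ε', hε', hsub.trans hS, F, fun z hz => hF z (hsub hz), fun k hk z hz => hV k hk z (hsub hz)⟩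

theorem PP_step (hS : IsOpen S) (hφ : DifferentiableOn ℂ φ S)
    (hs : DifferentiableOn ℂ s S) (hV : ∀ k : ℤ, -1 ≤ k → DifferentiableOn ℂ (V k) S)
    {w w' : ℂ} {ε' : ℝ} (hsub : ball w' ε' ⊆ S) (hw : w ∈ ball w' ε')
    (hP : PP T X φ s V S w) : PP T X φ s V S w' := by
  obtain ⟨ε, hε, _, F, hF, hVF⟩ := hP
  have hε' : 0 < ε' := (dist_nonneg.trans_lt hw)
  have hφ' : DifferentiableOn ℂ (deriv φ) S := hφ.deriv hS
  have hpwd : DifferentiableOn ℂ (pw T X φ s) (ball w' ε') := by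
    intro z hz
    have hn := hS.mem_nhds (hsub hz)
    exact (differentiableAt_pw (hφ.differentiableAt hn) (hφ'.differentiableAt hn)
      (hs.differentiableAt hn)).differentiableWithinAt
  obtain ⟨F', hF'⟩ := exists_prim (convex_ball w' ε') isOpen_ball hpwd
  obtain ⟨η, hη, hηs⟩ := Metric.isOpen_iff.1 ((isOpen_ball (x := w) (ε := ε)).inter
    (isOpen_ball (x := w') (ε := ε'))) w ⟨mem_ball_self hε, hw⟩
  set C : EE := F' w - F w with hC
  have hrel : ∀ z ∈ ball w η, F z = F' z - C := by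
    intro z hz
    have h1 := sub_eq_of_deriv (convex_ball w η) isOpen_ball (fun z hz => hF' z (hηs hz).2)
      (fun z hz => hF z (hηs hz).1) hz (mem_ball_self hη)
    rw [hC, ← h1]
    abel
  refine ⟨ε', hε', hsub, fun z => F' z - C, fun z hz => (hF' z hz).sub_const C, fun k hk => ?_⟩
  have hexpd : ∀ z ∈ ball w' ε', DifferentiableAt ℂ (fun z => NormedSpace.exp (φ z • tau T)) z :=
    fun z hz => (differentiable_exp_smul_const ℂ (tau T)).differentiableAt.comp z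
      (hφ.differentiableAt (hS.mem_nhds (hsub hz)))
  apply ident_thm isOpen_ball (convex_ball w' ε') ((hV k hk).mono hsub) _ hw
  · filter_upwards [ball_mem_nhds w hη] with z hz
    rw [hVF k hk z (hηs hz).1, hrel z hz]
  · intro z hz
    have h1 := (hexpd z hz).mul ((hF' z hz).differentiableAt.sub_const C)
    exact ((cf k).differentiableAt.comp z h1).differentiableWithinAt

theorem PP_connected (hS : IsOpen S) (hφ : DifferentiableOn ℂ φ S)
    (hs : DifferentiableOn ℂ s S) (hV : ∀ k : ℤ, -1 ≤ k → DifferentiableOn ℂ (V k) S)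
    {A : Set ℂ} (hA : IsPreconnected A) (hAS : A ⊆ S) {w : ℂ} (hw : w ∈ A)
    (hP : PP T X φ s V S w) {w' : ℂ} (hw' : w' ∈ A) : PP T X φ s V S w' := by
  have h1 : A ⊆ {w | PP T X φ s V S w} := by
    apply hA.subset_of_closure_inter_subset PP_isOpen ⟨w, hw, hP⟩
    rintro z ⟨hz, hzA⟩
    obtain ⟨ε, hε, hsub⟩ := Metric.isOpen_iff.1 hS z (hAS hzA)
    obtain ⟨v, hv, hvz⟩ := Metric.mem_closure_iff.1 hz ε hε
    exact PP_step hS hφ hs hV hsub (by rw [mem_ball, dist_comm]; exact hvz) hv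
  exact h1 hw'

/-- Path extraction. -/
theorem exists_arc {Y : Set ℂ} (hY : IsOpen Y) (hYc : IsConnected Y) {q e : ℂ} (hq : ‖q‖ < 1)
    (hqY : q ∈ Y) (he : ‖e‖ = 1) (heY : e ∈ Y) :
    ∃ A : Set ℂ, IsPreconnected A ∧ A ⊆ (Y \ {q}) ∩ closedBall 0 1 ∧
      (∃ e' ∈ A, ‖e'‖ = 1) ∧ ∀ δ > 0, (A ∩ ball q δ).Nonempty := by
  have hpc : IsPathConnected Y := (hY.isConnected_iff_isPathConnected).1 hYc
  obtain ⟨γ, hγ⟩ := hpc.joinedIn e heY q hqY
  set g : ℝ → ℂ := fun t => γ.extend t with hg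
  have hgc : Continuous g := γ.extend.continuous
  have hg0 : g 0 = e := γ.extend_zero
  have hg1 : g 1 = q := γ.extend_one
  have hgY : ∀ t, g t ∈ Y := fun t => hγ _
  -- last time outside
  set K₁ : Set ℝ := Set.Icc 0 1 ∩ {t | 1 ≤ ‖g t‖} with hK₁
  have hK₁c : IsCompact K₁ := isCompact_Icc.inter_right (isClosed_le continuous_const hgc.norm)
  have hK₁n : K₁.Nonempty := ⟨0, ⟨le_rfl, zero_le_one⟩, by
    show 1 ≤ ‖g 0‖
    rw [hg0, he]⟩
  set a := sSup K₁ with ha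
  have haK : a ∈ K₁ := hK₁c.sSup_mem hK₁n
  have hagt : ∀ t, a < t → t ≤ 1 → ‖g t‖ < 1 := by
    intro t hat ht1
    by_contra hcon
    push Not at hcon
    have : t ∈ K₁ := ⟨⟨haK.1.1.trans hat.le, ht1⟩, hcon⟩
    have := le_csSup hK₁c.bddAbove this
    linarith
  have ha1 : a < 1 := by
    refine lt_of_le_of_ne haK.1.2 ?_
    intro h
    have h1 : 1 ≤ ‖g a‖ := haK.2
    rw [h, hg1] at h1
    linarith
  have hga : ‖g a‖ = 1 := by
    apply le_antisymm _ haK.2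
    have h1 : Tendsto (fun t => ‖g t‖) (𝓝[>] a) (𝓝 ‖g a‖) :=
      (hgc.norm.tendsto a).mono_left nhdsWithin_le_nhds
    apply le_of_tendsto h1
    filter_upwards [Ioc_mem_nhdsGT ha1] with t ht
    exact (hagt t ht.1 ht.2).le
  -- first time at `q`
  set K₂ : Set ℝ := Set.Icc a 1 ∩ {t | g t = q} with hK₂
  have hK₂c : IsCompact K₂ := isCompact_Icc.inter_right (isClosed_eq hgc continuous_const)
  have hK₂n : K₂.Nonempty := ⟨1, ⟨ha1.le, le_rfl⟩, hg1⟩
  set b := sInf K₂ with hb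
  have hbK : b ∈ K₂ := hK₂c.sInf_mem hK₂n
  have hblt : ∀ t, a ≤ t → t < b → g t ≠ q := by
    intro t hat htb hcon
    have : t ∈ K₂ := ⟨⟨hat, htb.le.trans hbK.1.2⟩, hcon⟩
    have := csInf_le hK₂c.bddBelow this
    linarith
  have hab : a < b := by
    refine lt_of_le_of_ne hbK.1.1 ?_
    intro h
    have h1 : g b = q := hbK.2
    rw [← h] at h1
    rw [h1] at hga
    linarith
  refine ⟨g '' Set.Ico a b, isPreconnected_Ico.image g hgc.continuousOn, ?_,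
    ⟨g a, ⟨a, ⟨le_rfl, hab⟩, rfl⟩, hga⟩, ?_⟩
  · rintro _ ⟨t, ht, rfl⟩
    refine ⟨⟨hgY t, hblt t ht.1 ht.2⟩, ?_⟩
    rw [mem_closedBall_zero_iff]
    rcases eq_or_lt_of_le ht.1 with h | h
    · rw [← h, hga]
    · exact (hagt t h (ht.2.le.trans hbK.1.2)).le
  · intro δ hδ
    have h1 : Tendsto g (𝓝[<] b) (𝓝 (g b)) := (hgc.tendsto b).mono_left nhdsWithin_le_nhds
    have h2 : g b = q := hbK.2
    rw [h2] at h1
    have h3 := h1.eventually (ball_mem_nhds q hδ)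
    have h4 : ∀ᶠ t in 𝓝[<] b, t ∈ Set.Ico a b := Ico_mem_nhdsLT hab
    obtain ⟨t, ht1, ht2⟩ := (h3.and h4).exists
    exact ⟨g t, ⟨t, ht2, rfl⟩, ht1⟩

end Pool.Agent.MP_83fd13_an
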