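import Mathlib
import Pool.Agent.MP_83fd13_an.Ess14

namespace Pool.Agent.MP_83fd13_an

open MeasureTheory Filter Metric
open scoped Topology ComplexConjugate

attribute [local instance] fact_two_pi

variable {lam c : ℝ} {u : ℂ → ℝ} {G : ℂ → ℂ}

theorem monodromy2 {T X : ℝ} {φ s : ℂ → ℂ} {V : ℤ → ℂ → ℂ} {S : Set ℂ} (hT : T ≠ 0)
    (hS : IsOpen S) (hφ : DifferentiableOn ℂ φ S)
    (hV : ∀ k : ℤ, -1 ≤ k → DifferentiableOn ℂ (V k) S) (hd0 : ∀ w ∈ S, deriv φ w ≠ 0)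
    {q e : ℂ} (hqe : e ≠ q) {x0 : ℝ} (hm : ∀ ξ ∈ LH x0, WW q e ξ ∈ S) {ξ₁ : ℂ} (hξ₁ : ξ₁ ∈ LH x0)
    (hP : PP T X φ s V S (WW q e ξ₁)) :
    ∀ F : ℂ → EE, (∀ ξ ∈ LH x0, HasDerivAt F (((e - q) * Complex.exp ξ) •
      pw T X φ s (WW q e ξ)) ξ) → ∀ ξ ∈ LH x0, F (ξ + 2 * Real.pi * Complex.I) = F ξ := by
  intro F₂ hF₂
  have hN₂ := isOpen_LH x0
  have hc₂ := convex_LH x0
  have hper : ∀ ξ ∈ LH x0, ξ + 2 * Real.pi * Complex.I ∈ LH x0 := by
    intro ξ hξ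
    simpa [LH] using hξ
  have hWd : ∀ ξ, DifferentiableAt ℂ (WW q e) ξ := fun ξ => (hasDerivAt_WW q e ξ).differentiableAt
  have hexpd : ∀ ξ ∈ LH x0,
      DifferentiableAt ℂ (fun ξ => NormedSpace.exp (φ (WW q e ξ) • tau T)) ξ := by
    intro ξ hξ
    have h1 : DifferentiableAt ℂ (fun ξ => φ (WW q e ξ)) ξ :=
      (hφ.differentiableAt (hS.mem_nhds (hm ξ hξ))).comp ξ (hWd ξ)
    exact (differentiable_exp_smul_const ℂ (tau T)).differentiableAt.comp ξ h1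
  obtain ⟨ε, hε, _, F, hF, hVF⟩ := hP
  obtain ⟨η, hη, hηN⟩ : ∃ η, 0 < η ∧ ball ξ₁ η ⊆ LH x0 ∩ (WW q e) ⁻¹' (ball (WW q e ξ₁) ε) := by
    have h1 : LH x0 ∩ (WW q e) ⁻¹' (ball (WW q e ξ₁) ε) ∈ 𝓝 ξ₁ := by
      apply inter_mem (hN₂.mem_nhds hξ₁)
      exact (hWd ξ₁).continuousAt.preimage_mem_nhds (ball_mem_nhds _ hε)
    obtain ⟨η, hη, h2⟩ := Metric.mem_nhds_iff.1 h1
    exact ⟨η, hη, h2⟩
  set C₂ : EE := F₂ ξ₁ - F (WW q e ξ₁) with hC₂
  have hrel : ∀ ξ ∈ ball ξ₁ η, F (WW q e ξ) = F₂ ξ - C₂ := by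
    intro ξ hξ
    have h1 := sub_eq_of_deriv (F := F₂) (G := fun ξ => F (WW q e ξ)) (convex_ball ξ₁ η)
      isOpen_ball (fun ξ hξ => hF₂ ξ (hηN hξ).1)
      (fun ξ hξ => (hF _ (hηN hξ).2).scomp ξ (hasDerivAt_WW q e ξ)) hξ (mem_ball_self hη)
    rw [hC₂, ← h1]
    abel
  have hmain : ∀ k : ℤ, -1 ≤ k → ∀ ξ ∈ LH x0, ∃ v : ℂ, v =
      cf k (NormedSpace.exp (φ (WW q e ξ) • tau T) * (F₂ ξ - C₂)) ∧ v =
      cf k (NormedSpace.exp (φ (WW q e ξ) • tau T) *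
        (F₂ (ξ + 2 * Real.pi * Complex.I) - C₂)) := by
    intro k hk
    have h2 : ∀ ξ ∈ LH x0, V k (WW q e ξ) =
        cf k (NormedSpace.exp (φ (WW q e ξ) • tau T) * (F₂ ξ - C₂)) := by
      apply ident_thm hN₂ hc₂ _ _ hξ₁
      · filter_upwards [ball_mem_nhds ξ₁ hη] with ξ hξ
        rw [hVF k hk _ (hηN hξ).2, hrel ξ hξ]
      · intro ξ hξ
        have h1 : DifferentiableAt ℂ (V k) (WW q e ξ) :=
          (hV k hk).differentiableAt (hS.mem_nhds (hm ξ hξ))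
        exact (h1.comp ξ (hWd ξ)).differentiableWithinAt
      · intro ξ hξ
        have h1 := (hexpd ξ hξ).mul ((hF₂ ξ hξ).differentiableAt.sub_const C₂)
        exact ((cf k).differentiableAt.comp ξ h1).differentiableWithinAt
    intro ξ hξ
    refine ⟨V k (WW q e ξ), h2 ξ hξ, ?_⟩
    have h3 := h2 _ (hper ξ hξ)
    rwa [WW_per] at h3
  intro ξ₀ hξ₀
  have hshift : ∀ ξ ∈ LH x0, HasDerivAt (fun ξ => F₂ (ξ + 2 * Real.pi * Complex.I))
      (((e - q) * Complex.exp ξ) • pw T X φ s (WW q e ξ)) ξ := by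
    intro ξ hξ
    have h1 := (hF₂ _ (hper ξ hξ)).comp_add_const ξ (2 * Real.pi * Complex.I)
    rw [WW_per, Complex.exp_periodic ξ] at h1
    exact h1
  set L : EE := F₂ (ξ₀ + 2 * Real.pi * Complex.I) - F₂ ξ₀ with hL
  have hLc : ∀ ξ ∈ LH x0, F₂ (ξ + 2 * Real.pi * Complex.I) - F₂ ξ = L := fun ξ hξ =>
    sub_eq_of_deriv hc₂ hN₂ hshift hF₂ hξ hξ₀
  have hL0 : L = 0 := by
    apply eq_zero_of_germ hT (z₀ := φ (WW q e ξ₀))
    intro k hk
    have hb := hm ξ₀ hξ₀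
    have hst : HasStrictDerivAt (fun ξ => φ (WW q e ξ))
        (deriv φ (WW q e ξ₀) * ((e - q) * Complex.exp ξ₀)) ξ₀ := by
      have h1 : HasStrictDerivAt φ (deriv φ (WW q e ξ₀)) (WW q e ξ₀) :=
        (hφ.analyticAt (hS.mem_nhds hb)).hasStrictDerivAt
      have h2 : HasStrictDerivAt (WW q e) ((e - q) * Complex.exp ξ₀) ξ₀ :=
        ((Complex.hasStrictDerivAt_exp ξ₀).const_mul (e - q)).const_add q
      exact h1.comp ξ₀ h2
    have hne : deriv φ (WW q e ξ₀) * ((e - q) * Complex.exp ξ₀) ≠ 0 :=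
      mul_ne_zero (hd0 _ hb) (mul_ne_zero (sub_ne_zero.2 hqe) (Complex.exp_ne_zero _))
    rw [← hst.map_nhds_eq hne, Filter.eventually_map]
    filter_upwards [hN₂.mem_nhds hξ₀] with ξ hξ
    obtain ⟨v, hv1, hv2⟩ := hmain k hk ξ hξ
    have h3 : cf k (NormedSpace.exp (φ (WW q e ξ) • tau T) *
        ((F₂ (ξ + 2 * Real.pi * Complex.I) - C₂) - (F₂ ξ - C₂))) = 0 := by
      rw [mul_sub, map_sub, ← hv2, ← hv1, sub_self]
    rw [sub_sub_sub_cancel_right, hLc ξ hξ] at h3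
    exact h3
  exact sub_eq_zero.1 hL0

/-- Two functions holomorphic near a point of the unit circle and equal on the circle. -/
theorem eq_of_circle {f g : ℂ → ℂ} {e : ℂ} (he : ‖e‖ = 1) (hf : AnalyticAt ℂ f e)
    (hg : AnalyticAt ℂ g e) (h : ∀ᶠ w in 𝓝 e, ‖w‖ = 1 → f w = g w) : ∀ᶠ w in 𝓝 e, f w = g w := by
  rw [← hf.frequently_eq_iff_eventually_eq hg]
  have h1 : Tendsto (fun θ : ℝ => e * Complex.exp (θ * Complex.I)) (𝓝 0) (𝓝 e) := by
    have : Continuous fun θ : ℝ => e * Complex.exp (θ * Complex.I) := by fun_prop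
    have h2 := this.tendsto 0
    simpa using h2
  have he0 : e ≠ 0 := by
    rintro rfl
    simp at he
  have h2 : Tendsto (fun θ : ℝ => e * Complex.exp (θ * Complex.I)) (𝓝[>] 0) (𝓝[≠] e) := by
    rw [tendsto_nhdsWithin_iff]
    refine ⟨h1.mono_left nhdsWithin_le_nhds, ?_⟩
    have h3 : Set.Ioo (0 : ℝ) Real.pi ∈ 𝓝[>] (0 : ℝ) := Ioo_mem_nhdsGT Real.pi_pos
    filter_upwards [h3] with θ hθ hcon
    have hcon' : e * Complex.exp (θ * Complex.I) = e := hcon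
    have h4 : Complex.exp (θ * Complex.I) = 1 := mul_left_cancel₀ he0 (by rw [hcon', mul_one])
    obtain ⟨n, hn⟩ := Complex.exp_eq_one_iff.1 h4
    have h5 : (θ : ℂ) = n * (2 * Real.pi) := by
      apply mul_right_cancel₀ Complex.I_ne_zero
      rw [hn]; ring
    have h6 : θ = n * (2 * Real.pi) := by exact_mod_cast h5
    have h7 : 0 < (n : ℝ) := by
      by_contra hcon
      push Not at hcon
      have := hθ.1
      nlinarith [Real.pi_pos]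
    have h8 : (1 : ℝ) ≤ n := by
      have : 0 < n := by exact_mod_cast h7
      exact_mod_cast this
    have := hθ.2
    nlinarith [Real.pi_pos]
  have h3 : ∀ᶠ θ : ℝ in 𝓝[>] 0, f (e * Complex.exp (θ * Complex.I)) =
      g (e * Complex.exp (θ * Complex.I)) := by
    have h4 := (h1.mono_left (nhdsWithin_le_nhds (s := Set.Ioi 0))).eventually h
    filter_upwards [h4] with θ hθ
    apply hθ
    rw [norm_mul, he, Complex.norm_exp_ofReal_mul_I, mul_one]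
  exact h2.frequently h3.frequently

/-- The reflected Riemann map. -/
noncomputable def refl (φ : ℂ → ℂ) (w : ℂ) : ℂ := conj (φ (conj (w⁻¹)))

theorem differentiableAt_refl {φ : ℂ → ℂ} {w : ℂ} (hw : w ≠ 0)
    (h : DifferentiableAt ℂ φ (conj (w⁻¹))) : DifferentiableAt ℂ (refl φ) w := by
  have h1 : DifferentiableAt ℂ (conj ∘ φ ∘ conj) (w⁻¹) := differentiableAt_conj_conj_iff.2 h
  exact h1.comp w (differentiableAt_inv hw)

theorem refl_circle (φ : ℂ → ℂ) {w : ℂ} (hw : ‖w‖ = 1) : refl φ w = conj (φ w) := by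
  rw [refl, Complex.inv_eq_conj hw, Complex.conj_conj]

end Pool.Agent.MP_83fd13_an
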