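import Mathlib
import Pool.Agent.MP_83fd13_an.Ess15

namespace Pool.Agent.MP_83fd13_an

open MeasureTheory Filter Metric
open scoped Topology ComplexConjugate

attribute [local instance] fact_two_pi

variable {lam c : ℝ} {u : ℂ → ℝ} {G : ℂ → ℂ}

theorem SchifferSolution.loops2 {φ s : ℂ → ℂ} {r : ℝ} (hr : 1 < r)
    (hφ : DifferentiableOn ℂ φ (ball 0 r)) (hinj : Set.InjOn φ (ball 0 r))
    (h : SchifferSolution (φ '' ball 0 1) lam c u G)
    {Y : Set ℂ} (hY : IsOpen Y) (hYc : IsConnected Y) {q a : ℂ} (hq : ‖q‖ < 1) (hqY : q ∈ Y)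
    (ha : ‖a‖ = 1) (haY : a ∈ Y) (hs : ∀ w ∈ Y, ‖w‖ = 1 → s w = conj (φ w))
    (hsd : DifferentiableOn ℂ s (Y \ {q})) {e : ℂ} (hqe : e ≠ q)
    {x0 δ : ℝ} (hδ : ‖e - q‖ * Real.exp (-x0) ≤ δ)
    (hδY : ball q δ ⊆ Y ∩ ball 0 1) {t : ℂ} (ht : t ≠ 0) :
    ∀ ξ ∈ LH x0, ∫ θ in (-Real.pi)..Real.pi,
      ((e - q) * Complex.exp (ξ + θ * Complex.I)) * (deriv φ (WW q e (ξ + θ * Complex.I)) *
        Complex.exp (-t * φ (WW q e (ξ + θ * Complex.I)) +
          (lam / 4 : ℝ) * s (WW q e (ξ + θ * Complex.I)) / t)) = 0 := by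
  have hT : 0 < ‖t‖ := norm_pos_iff.2 ht
  have hr0 : 0 < r := by linarith
  obtain ⟨x, hx⟩ := exists_tau_eq t
  set S : Set ℂ := (Y \ {q}) ∩ ball 0 r with hS
  have hSo : IsOpen S := (hY.sdiff isClosed_singleton).inter isOpen_ball
  have hSφ : DifferentiableOn ℂ φ S := hφ.mono fun w hw => hw.2
  have hSs : DifferentiableOn ℂ s S := hsd.mono fun w hw => hw.1
  have hφ' : DifferentiableOn ℂ (deriv φ) (ball 0 r) := hφ.deriv isOpen_ball
  have hd0 : ∀ w ∈ S, deriv φ w ≠ 0 := fun w hw => (inv_pack hr hφ hinj).1 w hw.2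
  -- the annulus
  have hrinv : r⁻¹ < 1 := inv_lt_one_of_one_lt₀ hr
  have hrefd : DifferentiableOn ℂ (refl φ) (Ann 0 r⁻¹ r) := by
    rintro w ⟨hw1, hw2⟩
    rw [sub_zero] at hw1 hw2
    have hwn : 0 < ‖w‖ := (inv_pos.2 hr0).trans hw1
    apply (differentiableAt_refl (norm_pos_iff.1 hwn) _).differentiableWithinAt
    apply hφ.differentiableAt (isOpen_ball.mem_nhds _)
    rw [mem_ball_zero_iff, RCLike.norm_conj, norm_inv]
    exact inv_lt_of_inv_lt₀ hr0 hw1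
  obtain ⟨𝔉, h𝔉, hV⟩ := h.extends hr hφ hinj hT (s := refl φ)
    (fun w hw => refl_circle φ (by simpa using hw)) (inv_pos.2 hr0) hrinv hr le_rfl hrefd
  choose V₀ hV₀ using hV
  set V : ℤ → ℂ → ℂ := fun k => if hk : -1 ≤ k then V₀ k hk else 0 with hVdef
  have hVk : ∀ k (hk : -1 ≤ k), V k = V₀ k hk := fun k hk => dif_pos hk
  have hVd : ∀ k : ℤ, -1 ≤ k → DifferentiableOn ℂ (V k) S := by
    intro k hk
    rw [hVk k hk]
    exact (hV₀ k hk).1.mono fun w hw => hw.2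
  -- the arc
  obtain ⟨A, hAc, hAS, ⟨e', he'A, he'⟩, hAq⟩ := exists_arc hY hYc hq hqY ha haY
  have hAS' : A ⊆ S := by
    intro w hw
    obtain ⟨h1, h2⟩ := hAS hw
    refine ⟨h1, ?_⟩
    rw [mem_closedBall_zero_iff] at h2
    rw [mem_ball_zero_iff]
    linarith
  -- the property at the start
  have hPe : PP ‖t‖ (lam / 4) φ s V S e' := by
    have he'S := hAS' he'A
    have he'Y : e' ∈ Y := he'S.1.1
    have he'A' : e' ∈ Ann 0 r⁻¹ r := ⟨by rw [sub_zero, he']; exact hrinv, by rw [sub_zero, he']; exact hr⟩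
    have hAo := isOpen_Ann 0 r⁻¹ r
    have heq : ∀ᶠ w in 𝓝 e', s w = refl φ w := by
      apply eq_of_circle he' (hSs.analyticAt (hSo.mem_nhds he'S))
        (hrefd.analyticAt (hAo.mem_nhds he'A'))
      filter_upwards [hY.mem_nhds he'Y] with w hw hw1
      rw [hs w hw hw1, refl_circle φ hw1]
    obtain ⟨ε, hε, hsub⟩ := Metric.mem_nhds_iff.1
      (inter_mem (inter_mem (hSo.mem_nhds he'S) (hAo.mem_nhds he'A')) heq)
    refine ⟨ε, hε, fun z hz => (hsub hz).1.1, 𝔉, fun z hz => ?_, fun k hk z hz => ?_⟩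
    · have h1 := h𝔉 z (hsub hz).1.2
      have h2 : s z = refl φ z := (hsub hz).2
      have h3 : pw ‖t‖ (lam / 4) φ s z = pw ‖t‖ (lam / 4) φ (refl φ) z := by
        rw [pw, pw, h2]
      rw [h3]
      exact h1
    · rw [hVk k hk]
      exact (hV₀ k hk).2 z (hsub hz).1.2
  -- near `q`
  have hd0' : 0 < ‖e - q‖ := norm_pos_iff.2 (sub_ne_zero.2 hqe)
  obtain ⟨w₁, hw₁A, hw₁q⟩ := hAq (‖e - q‖ * Real.exp (-x0)) (by positivity)
  have hw₁ne : w₁ ≠ q := (hAS hw₁A).1.2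
  have hPw := PP_connected hSo hSφ hSs hVd hAc hAS' he'A hPe hw₁A
  set ξ₁ := Complex.log ((w₁ - q) / (e - q)) with hξ₁def
  have hne1 : (w₁ - q) / (e - q) ≠ 0 := div_ne_zero (sub_ne_zero.2 hw₁ne) (sub_ne_zero.2 hqe)
  have hWξ₁ : WW q e ξ₁ = w₁ := by
    rw [WW, hξ₁def, Complex.exp_log hne1]
    field_simp [sub_ne_zero.2 hqe]
    ring
  have hξ₁ : ξ₁ ∈ LH x0 := by
    show ξ₁.re < -x0
    rw [hξ₁def, Complex.log_re, norm_div, Real.log_lt_iff_lt_exp
      (div_pos (norm_pos_iff.2 (sub_ne_zero.2 hw₁ne)) hd0'), div_lt_iff₀ hd0', mul_comm]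
    rwa [mem_ball, dist_eq_norm] at hw₁q
  have hm : ∀ ξ ∈ LH x0, WW q e ξ ∈ S := by
    intro ξ hξ
    have h1 := WW_mem_punctured hδ hqe hξ
    have h2 : WW q e ξ ∈ ball q δ := by
      rw [mem_ball, dist_eq_norm]; exact h1.2
    obtain ⟨h3, h4⟩ := hδY h2
    refine ⟨⟨h3, WW_ne hqe ξ⟩, ball_subset_ball hr.le h4⟩
  rw [← hWξ₁] at hPw
  have hmon := monodromy2 hT.ne' hSo hSφ hVd hd0 hqe hm hξ₁ hPw
  -- primitive on the half plane
  have hed : DifferentiableOn ℂ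
      (fun ξ => ((e - q) * Complex.exp ξ) • pw ‖t‖ (lam / 4) φ s (WW q e ξ)) (LH x0) := by
    intro ξ hξ
    have hn := hSo.mem_nhds (hm ξ hξ)
    have h0 : DifferentiableAt ℂ (pw ‖t‖ (lam / 4) φ s) (WW q e ξ) :=
      differentiableAt_pw (hSφ.differentiableAt hn)
        (hφ'.differentiableAt (isOpen_ball.mem_nhds (hm ξ hξ).2)) (hSs.differentiableAt hn)
    have h1 : DifferentiableAt ℂ (fun ξ => pw ‖t‖ (lam / 4) φ s (WW q e ξ)) ξ :=
      h0.comp ξ (hasDerivAt_WW q e ξ).differentiableAt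
    exact ((Complex.differentiableAt_exp.const_mul (e - q)).smul h1).differentiableWithinAt
  obtain ⟨F, hF⟩ := exists_prim (convex_LH x0) (isOpen_LH x0) hed
  intro ξ hξ
  have hline : ∀ θ : ℝ, ξ + θ * Complex.I ∈ LH x0 := by
    intro θ
    simpa [LH] using hξ
  have h1 : ∀ θ ∈ Set.uIcc (-Real.pi) Real.pi, HasDerivAt (fun θ : ℝ => F (ξ + θ * Complex.I))
      (Complex.I • (((e - q) * Complex.exp (ξ + θ * Complex.I)) •
        pw ‖t‖ (lam / 4) φ s (WW q e (ξ + θ * Complex.I)))) θ := by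
    intro θ _
    have h5 : HasDerivAt (fun θ : ℝ => ξ + θ * Complex.I) Complex.I θ := by
      have h6 : HasDerivAt (fun θ : ℝ => (θ : ℂ)) 1 θ := Complex.ofRealCLM.hasDerivAt
      have := (h6.mul_const Complex.I).const_add ξ
      rwa [one_mul] at this
    exact (hF _ (hline θ)).scomp θ h5
  have hcont : Continuous (fun θ : ℝ => ((e - q) * Complex.exp (ξ + θ * Complex.I)) •
        pw ‖t‖ (lam / 4) φ s (WW q e (ξ + θ * Complex.I))) :=
    hed.continuousOn.comp_continuous (f := fun θ : ℝ => ξ + θ * Complex.I) (by fun_prop) hline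
  have h2 := intervalIntegral.integral_eq_sub_of_hasDerivAt h1
    (hcont.const_smul Complex.I).continuousOn.intervalIntegrable
  have h3 : F (ξ + (Real.pi : ℝ) * Complex.I) - F (ξ + ((-Real.pi : ℝ) : ℂ) * Complex.I) = 0 := by
    have h4 := hmon F hF _ (hline (-Real.pi))
    have h5 : ξ + ((-Real.pi : ℝ) : ℂ) * Complex.I + 2 * Real.pi * Complex.I =
        ξ + (Real.pi : ℝ) * Complex.I := by
      push_cast; ring
    rw [h5] at h4
    rw [h4, sub_self]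
  rw [h3, intervalIntegral.integral_smul] at h2
  have h6 : ∫ θ in (-Real.pi)..Real.pi, ((e - q) * Complex.exp (ξ + θ * Complex.I)) •
        pw ‖t‖ (lam / 4) φ s (WW q e (ξ + θ * Complex.I)) = 0 :=
    (smul_eq_zero.1 h2).resolve_left Complex.I_ne_zero
  have h7 := congrArg (ev0 x) h6
  rw [← (ev0 x).intervalIntegral_comp_comm hcont.continuousOn.intervalIntegrable, map_zero] at h7
  rw [← h7]
  apply intervalIntegral.integral_congr
  intro θ _
  simp only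
  rw [map_smul, ev0_apply, pw_apply hT.ne', hx, smul_eq_mul]

end Pool.Agent.MP_83fd13_an
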