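import Mathlib
import Pool.Agent.MP_83fd13_an.Ess16
import Pool.Agent.MP_83fd13_an.Ent11

namespace Pool.Agent.MP_83fd13_an

open MeasureTheory Filter Metric
open scoped Topology ComplexConjugate

variable {lam c : ℝ} {u : ℂ → ℝ} {G : ℂ → ℂ}

theorem main_ess2 {φ s : ℂ → ℂ} {r : ℝ} (hr : 1 < r)
    (hφ : DifferentiableOn ℂ φ (ball 0 r)) (hinj : Set.InjOn φ (ball 0 r))
    {Y : Set ℂ} (hY : IsOpen Y) (hYc : IsConnected Y) {q a : ℂ} (hq : ‖q‖ < 1) (hqY : q ∈ Y)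
    (ha : ‖a‖ = 1) (haY : a ∈ Y) (hs : ∀ w ∈ Y, ‖w‖ = 1 → s w = conj (φ w))
    (hsd : DifferentiableOn ℂ s (Y \ {q})) (hess : ¬ MeromorphicAt s q)
    (h : SchifferSolution (φ '' ball 0 1) lam c u G) : False := by
  have hlam := h.lam_pos
  set e : ℂ := q + 1 with hedef
  have hqe : e ≠ q := by
    rw [hedef]
    intro h0
    exact one_ne_zero (add_eq_left.1 h0)
  have hd0 : 0 < ‖e - q‖ := norm_pos_iff.2 (sub_ne_zero.2 hqe)
  obtain ⟨δ, hδ0, hδY⟩ := Metric.isOpen_iff.1 (hY.inter (isOpen_ball (x := (0 : ℂ)) (ε := 1))) q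
    ⟨hqY, by simpa using hq⟩
  obtain ⟨x0, hx0, hδ⟩ : ∃ x0 : ℝ, 0 ≤ x0 ∧ ‖e - q‖ * Real.exp (-x0) ≤ δ := by
    have h1 : Tendsto (fun x : ℝ => ‖e - q‖ * Real.exp (-x)) atTop (𝓝 (‖e - q‖ * 0)) :=
      (Real.tendsto_exp_neg_atTop_nhds_zero).const_mul _
    rw [mul_zero] at h1
    obtain ⟨x0, h2, h3⟩ := ((h1.eventually_lt_const hδ0).and (eventually_ge_atTop 0)).exists
    exact ⟨x0, h3, h2.le⟩
  have hAY : Ann q 0 δ ⊆ Y \ {q} := by
    rintro w ⟨hw1, hw2⟩
    have : w ∈ ball q δ := by rwa [mem_ball, dist_eq_norm]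
    refine ⟨(hδY this).1, ?_⟩
    rintro rfl
    simp at hw1
  have hsA : DifferentiableOn ℂ s (Ann q 0 δ) := hsd.mono hAY
  set g : ℂ → ℂ := fun ζ => s (WW q e (-ζ)) with hg
  have hmem : ∀ ζ ∈ HP x0, WW q e (-ζ) ∈ Ann q 0 δ := by
    intro ζ hζ
    apply WW_mem_punctured hδ hqe
    show (-ζ).re < -x0
    have : x0 < ζ.re := hζ
    rw [Complex.neg_re]; linarith
  have hgd : DifferentiableOn ℂ g (HP x0) := by
    intro ζ hζ
    have h1 : DifferentiableAt ℂ s (WW q e (-ζ)) :=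
      hsA.differentiableAt ((isOpen_Ann q 0 δ).mem_nhds (hmem ζ hζ))
    have h2 : DifferentiableAt ℂ (fun ζ => WW q e (-ζ)) ζ :=
      (hasDerivAt_WW q e (-ζ)).differentiableAt.comp ζ differentiableAt_id.neg
    exact (h1.comp ζ h2).differentiableWithinAt
  have hper : ∀ ζ, g (ζ + 2 * Real.pi * Complex.I) = g ζ := by
    intro ζ
    simp only [hg]
    have h1 := WW_per q e (-(ζ + 2 * Real.pi * Complex.I))
    have h2 : -(ζ + 2 * Real.pi * Complex.I) + 2 * Real.pi * Complex.I = -ζ := by ring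
    rw [h2] at h1
    rw [← h1]
  -- the regular factor
  set p : ℂ → ℂ := fun η => φ (q + (e - q) * η) with hp
  have hin : ∀ η ∈ ball (0 : ℂ) (Real.exp (-x0)), q + (e - q) * η ∈ ball (0 : ℂ) r := by
    intro η hη
    have h1 : ‖η‖ < Real.exp (-x0) := by simpa using hη
    have h2 : q + (e - q) * η ∈ ball q δ := by
      rw [mem_ball, dist_eq_norm, add_sub_cancel_left, norm_mul]
      refine lt_of_lt_of_le ?_ hδ
      gcongr
    exact ball_subset_ball hr.le (hδY h2).2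
  have hlin : ∀ η : ℂ, HasDerivAt (fun η => q + (e - q) * η) (e - q) η := by
    intro η
    have := ((hasDerivAt_id η).const_mul (e - q)).const_add q
    rw [mul_one] at this
    exact this
  have hpder : ∀ η ∈ ball (0 : ℂ) (Real.exp (-x0)),
      HasDerivAt p (deriv φ (q + (e - q) * η) * (e - q)) η := by
    intro η hη
    have h1 : HasDerivAt φ (deriv φ (q + (e - q) * η)) (q + (e - q) * η) :=
      (hφ.differentiableAt (isOpen_ball.mem_nhds (hin η hη))).hasDerivAt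
    exact h1.comp η (hlin η)
  have hpd : DifferentiableOn ℂ p (ball 0 (Real.exp (-x0))) := fun η hη =>
    (hpder η hη).differentiableAt.differentiableWithinAt
  have hp0 : deriv p 0 ≠ 0 := by
    have h0 : (0 : ℂ) ∈ ball (0 : ℂ) (Real.exp (-x0)) := mem_ball_self (Real.exp_pos _)
    rw [(hpder 0 h0).deriv]
    exact mul_ne_zero ((inv_pack hr hφ hinj).1 _ (hin 0 h0)) (sub_ne_zero.2 hqe)
  obtain ⟨t, ht, ζ₁, hζ₁, _, hne⟩ := key hgd hper (growth_ess hx0 hqe hδ hsA hess)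
    (Real.exp_pos (-x0)) hpd hp0 (X := lam / 4) (by positivity)
  apply hne
  have hloop := h.loops2 hr hφ hinj hY hYc hq hqY ha haY hs hsd hqe hδ hδY ht (-ζ₁) (by
    show (-ζ₁).re < -x0
    rw [Complex.neg_re]; linarith)
  have h1 := intervalIntegral.integral_comp_neg (a := -Real.pi) (b := Real.pi)
    (f := fun θ : ℝ => ((e - q) * Complex.exp (-ζ₁ + θ * Complex.I)) *
      (deriv φ (WW q e (-ζ₁ + θ * Complex.I)) *
        Complex.exp (-t * φ (WW q e (-ζ₁ + θ * Complex.I)) +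
          (lam / 4 : ℝ) * s (WW q e (-ζ₁ + θ * Complex.I)) / t)))
  rw [neg_neg] at h1
  rw [hloop] at h1
  rw [← neg_eq_zero, ← intervalIntegral.integral_neg]
  refine Eq.trans ?_ h1
  apply intervalIntegral.integral_congr
  intro θ _
  have e1 : -ζ₁ + ((-θ : ℝ) : ℂ) * Complex.I = -(ζ₁ + θ * Complex.I) := by push_cast; ring
  simp only [e1]
  have hζ : (ζ₁ + θ * Complex.I).re = ζ₁.re := by simp
  have hη : Complex.exp (-(ζ₁ + θ * Complex.I)) ∈ ball (0 : ℂ) (Real.exp (-x0)) := by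
    rw [mem_ball_zero_iff, Complex.norm_exp, Complex.neg_re, hζ]
    exact Real.exp_lt_exp.2 (by linarith)
  simp only [QQ, hg, hp]
  rw [← hp, (hpder _ hη).deriv]
  simp only [WW]
  ring

end Pool.Agent.MP_83fd13_an
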