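import Mathlib
import Pool.Agent.MP_83fd13_an.Ident

namespace Pool.Agent.MP_83fd13_an

open MeasureTheory Filter Finset
open scoped Topology ComplexConjugate

variable {Ω : Set ℂ} {lam c : ℝ} {u : ℂ → ℝ} {G : ℂ → ℂ}

/-- The pulled back holomorphic factors of the test functions. -/
noncomputable def HH (D : PowerSeries ℂ) (ψ : ℂ → ℂ) (n : ℕ) : ℕ → ℂ → ℂ
  | 0 => fun z => ψ z ^ n / ev D (ψ z)
  | m + 1 => fun z => ((m : ℂ) + 1) * ev (intg (UU D n m)) (ψ z)

theorem identity (h : SchifferSolution Ω lam c u G) {P : PowerSeries ℂ} {r : ℝ} (hr : 1 < r)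
    (hP : Conv r P) (hD : Conv r (PowerSeries.derivative ℂ P))
    (hinj : Set.InjOn (ev P) (Metric.ball 0 r))
    (hd0 : ∀ w ∈ Metric.ball (0 : ℂ) r, ev (PowerSeries.derivative ℂ P) w ≠ 0)
    (hΩ : Ω = ev P '' Metric.ball 0 1) (n : ℕ) :
    ∃ S : ℕ → ℂ, (∀ m, HasSum (fun k => PowerSeries.coeff k (UU (PowerSeries.derivative ℂ P) n m) *
        conj (PowerSeries.coeff (k + 1) (P ^ (m + 1)))) (S m)) ∧
      Tendsto (fun M => ∑ m ∈ range (M + 1), ((cc lam m : ℂ) / ((m : ℂ) + 1)) * S m) atTop (𝓝 0) := by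
  set D := PowerSeries.derivative ℂ P with hDdef
  have hr0 : 0 < r := by linarith
  have hball : IsOpen (Metric.ball (0 : ℂ) r) := Metric.isOpen_ball
  have hmem : ∀ w : ℂ, w ∈ Metric.ball (0 : ℂ) r ↔ ‖w‖ < r := fun w => by simp
  have hmem1 : ∀ w : ℂ, w ∈ Metric.ball (0 : ℂ) 1 ↔ ‖w‖ < 1 := fun w => by simp
  have hP1 : Conv 1 P := hP.mono zero_le_one hr.le
  have hD1 : Conv 1 D := hD.mono zero_le_one hr.le
  -- derivatives
  have hder : ∀ w ∈ Metric.ball (0 : ℂ) r, HasDerivAt (ev P) (ev D w) w := fun w hw =>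
    hasDerivAt_ev hr0 hD ((hmem w).1 hw)
  have hdiff : DifferentiableOn ℂ (ev P) (Metric.ball 0 r) := differentiableOn_ev hP
  have hstrict : ∀ w ∈ Metric.ball (0 : ℂ) r, HasStrictDerivAt (ev P) (ev D w) w := by
    intro w hw
    have := (hdiff.analyticAt (hball.mem_nhds hw)).hasStrictDerivAt
    rwa [(hder w hw).deriv] at this
  -- inverse function
  set ψ : ℂ → ℂ := Function.invFunOn (ev P) (Metric.ball 0 r) with hψ
  set N : Set ℂ := ev P '' Metric.ball 0 r with hN
  have hψφ : ∀ w ∈ Metric.ball (0 : ℂ) r, ψ (ev P w) = w := fun w hw =>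
    hinj.leftInvOn_invFunOn hw
  have hψmem : ∀ z ∈ N, ψ z ∈ Metric.ball (0 : ℂ) r := by
    rintro z ⟨w, hw, rfl⟩
    rw [hψφ w hw]; exact hw
  have hψder : ∀ w ∈ Metric.ball (0 : ℂ) r, HasDerivAt ψ (ev D w)⁻¹ (ev P w) := by
    intro w hw
    refine ((hstrict w hw).to_local_left_inverse (hd0 w hw) ?_).hasDerivAt
    filter_upwards [hball.mem_nhds hw] with x hx using hψφ x hx
  have hNopen : IsOpen N := by
    rw [isOpen_iff_mem_nhds]
    rintro z ⟨w, hw, rfl⟩
    rw [← (hstrict w hw).map_nhds_eq (hd0 w hw)]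
    exact Filter.image_mem_map (hball.mem_nhds hw)
  have hφc : ContinuousOn (ev P) (Metric.ball 0 r) := hdiff.continuousOn
  have hcb : Metric.closedBall (0 : ℂ) 1 ⊆ Metric.ball 0 r := by
    intro w hw
    rw [hmem]
    have : ‖w‖ ≤ 1 := by simpa using hw
    linarith
  have hb1 : Metric.ball (0 : ℂ) 1 ⊆ Metric.ball 0 r := Metric.ball_subset_closedBall.trans hcb
  have hKc : IsCompact (ev P '' Metric.closedBall 0 1) :=
    (isCompact_closedBall 0 1).image_of_continuousOn (hφc.mono hcb)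
  have hclos : closure Ω ⊆ ev P '' Metric.closedBall 0 1 := by
    apply closure_minimal _ hKc.isClosed
    rw [hΩ]
    exact Set.image_mono Metric.ball_subset_closedBall
  have hsub : closure Ω ⊆ N := hclos.trans (Set.image_mono hcb)
  have hbdd : Bornology.IsBounded Ω := hKc.isBounded.subset (subset_closure.trans hclos)
  have hΩopen : IsOpen Ω := by
    rw [isOpen_iff_mem_nhds, hΩ]
    rintro z ⟨w, hw, rfl⟩
    rw [← (hstrict w (hb1 hw)).map_nhds_eq (hd0 w (hb1 hw))]
    exact Filter.image_mem_map (Metric.isOpen_ball.mem_nhds hw)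
  have hΩm : MeasurableSet Ω := hΩopen.measurableSet
  -- the holomorphic factors
  have hU : ∀ m, Conv r (UU D n m) := conv_UU hr0.le hD n
  have hU1 : ∀ m, Conv 1 (UU D n m) := conv_UU zero_le_one hD1 n
  have hHder0 : ∀ m : ℕ, ∀ z ∈ N, HasDerivAt (HH D ψ n (m + 1))
      (((m : ℂ) + 1) * HH D ψ n m z) z := by
    rintro m z ⟨w, hw, rfl⟩
    have h1 := hasDerivAt_ev_intg hr0 (hU m) ((hmem w).1 hw)
    have h1' : HasDerivAt (ev (intg (UU D n m))) (ev (UU D n m) w) (ψ (ev P w)) := by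
      rw [hψφ w hw]; exact h1
    have h2 := (h1'.comp (ev P w) (hψder w hw)).const_mul ((m : ℂ) + 1)
    refine h2.congr_deriv ?_
    congr 1
    cases m with
    | zero =>
      simp only [HH, UU]
      rw [hψφ w hw, ev_X_pow, div_eq_mul_inv]
    | succ m =>
      simp only [HH, UU]
      rw [hψφ w hw, ev_mul (((hU m).intg hr0.le).smul _) hD ((hmem w).1 hw).le, ev_smul]
      have := hd0 w hw
      field_simp
  have hHdiff : ∀ m, DifferentiableOn ℂ (HH D ψ n m) N := by
    intro m
    cases m with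
    | zero =>
      rintro z ⟨w, hw, rfl⟩
      apply DifferentiableAt.differentiableWithinAt
      simp only [HH]
      have h1 := (hψder w hw).differentiableAt
      have h2 : DifferentiableAt ℂ (ev D) (ψ (ev P w)) := by
        rw [hψφ w hw]
        exact (differentiableOn_ev hD).differentiableAt (hball.mem_nhds hw)
      have h3 : DifferentiableAt ℂ (fun z => ev D (ψ z)) (ev P w) := h2.comp (ev P w) h1
      refine (h1.pow n).div h3 ?_
      rw [hψφ w hw]; exact hd0 w hw
    | succ m =>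
      intro z hz
      exact (hHder0 m z hz).differentiableAt.differentiableWithinAt
  have hHderiv : ∀ m : ℕ, ∀ z ∈ N, deriv (HH D ψ n (m + 1)) z = ((m : ℂ) + 1) * HH D ψ n m z :=
    fun m z hz => (hHder0 m z hz).deriv
  -- bounds
  obtain ⟨R, hR⟩ : ∃ R : ℝ, ∀ z ∈ Ω, ‖z‖ ≤ R := hbdd.exists_norm_le
  set R' := max R 0 with hR'
  have hR'0 : 0 ≤ R' := le_max_right _ _
  have hRz : ∀ z ∈ Ω, ‖z‖ ≤ R' := fun z hz => (hR z hz).trans (le_max_left _ _)
  obtain ⟨C0, hC0⟩ := bddOn_of_continuous hbdd hsub (hHdiff 0).continuousOn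
  have hL := nrm_nonneg D
  set B : ℕ → ℝ := fun m => if m = 0 then C0 else
    (|lam| / 4 * R' * nrm D) ^ m / m.factorial * (nrm D)⁻¹ with hB
  have hDpos : 0 < nrm D := by
    have h1 : ‖ev D 0‖ ≤ nrm D := norm_ev_le hD1 (by simp)
    have h2 : 0 < ‖ev D 0‖ := norm_pos_iff.2 (hd0 0 (by simpa using hr0))
    linarith
  have hBb : ∀ m, ∀ z ∈ Ω, |cc lam m| * ‖(conj z) ^ m * HH D ψ n m z‖ ≤ B m := by
    intro m z hz
    cases m with
    | zero =>
      simp only [hB, cc_zero, abs_one, one_mul, pow_zero, if_true]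
      exact hC0 z hz
    | succ m =>
      simp only [hB, Nat.succ_ne_zero, if_false]
      have hz' := hz
      rw [hΩ] at hz'
      obtain ⟨w, hw, hwz⟩ := hz'
      have e1 : ‖HH D ψ n (m + 1) z‖ ≤ ((m : ℝ) + 1) * (m.factorial * nrm D ^ m) := by
        simp only [HH]
        rw [← hwz, hψφ w (hb1 hw), norm_mul, norm_nat_add_one]
        have := (norm_ev_le ((hU1 m).intg zero_le_one) ((hmem1 w).1 hw).le).trans
          ((nrm_intg_le (hU1 m)).trans (nrm_UU_le hD1 n m))
        gcongr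
      have e2 : ‖(conj z) ^ (m + 1)‖ ≤ R' ^ (m + 1) := by
        rw [norm_pow, RCLike.norm_conj]
        exact pow_le_pow_left₀ (norm_nonneg _) (hRz z hz) _
      have e3 : |cc lam (m + 1)| = (|lam| / 4) ^ (m + 1) / ((m + 1).factorial : ℝ) ^ 2 := by
        rw [cc, abs_div, abs_pow, abs_div, abs_neg]
        congr 1
        · norm_num
        · exact abs_of_nonneg (by positivity)
      rw [norm_mul, e3]
      calc (|lam| / 4) ^ (m + 1) / ((m + 1).factorial : ℝ) ^ 2 *
            (‖(conj z) ^ (m + 1)‖ * ‖HH D ψ n (m + 1) z‖)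
          ≤ (|lam| / 4) ^ (m + 1) / ((m + 1).factorial : ℝ) ^ 2 *
            (R' ^ (m + 1) * (((m : ℝ) + 1) * (m.factorial * nrm D ^ m))) := by gcongr
        _ = (|lam| / 4 * R' * nrm D) ^ (m + 1) / (m + 1).factorial * (nrm D)⁻¹ := by
          rw [Nat.factorial_succ, mul_pow (|lam| / 4 * R'), mul_pow (|lam| / 4), pow_succ (nrm D)]
          push_cast
          have h1 : ((m.factorial : ℝ)) ≠ 0 := by positivity
          have h2 : ((m : ℝ) + 1) ≠ 0 := by positivity
          have h3 := hDpos.ne'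
          field_simp
  have hB0 : Tendsto B atTop (𝓝 0) := by
    have h1 : Tendsto (fun m : ℕ => (|lam| / 4 * R' * nrm D) ^ m / m.factorial * (nrm D)⁻¹) atTop
        (𝓝 (0 * (nrm D)⁻¹)) :=
      (FloorSemiring.tendsto_pow_div_factorial_atTop _).mul_const _
    rw [zero_mul] at h1
    refine h1.congr' ?_
    filter_upwards [eventually_gt_atTop 0] with m hm
    simp only [hB, if_neg hm.ne']
  have hmain := h.tendsto_moments hbdd hΩm hNopen hsub hHdiff hHderiv B hBb hB0
  -- the integrals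
  have hint : ∀ m, HasSum (fun k => PowerSeries.coeff k (UU D n m) *
      (conj (PowerSeries.coeff k (P ^ m * D)) * ((Real.pi / (k + 1) : ℝ) : ℂ)))
      (∫ z in Ω, (conj z) ^ m * HH D ψ n m z) := by
    intro m
    have hPD : Conv 1 (P ^ m * D) := (hP1.pow zero_le_one m).mul zero_le_one hD1
    have h1 := hasSum_disc (hU1 m).one_summable hPD.one_summable
      (f := ev (UU D n m)) (g := ev (P ^ m * D))
      (fun w hw => (hU1 m).hasSum ((hmem1 w).1 hw).le)
      (fun w hw => hPD.hasSum ((hmem1 w).1 hw).le)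
      ((differentiableOn_ev hPD).continuousOn)
    convert h1 using 1
    rw [hΩ, integral_image_eq_integral_abs_det_fderiv_smul volume
      Metric.isOpen_ball.measurableSet
      (fun w hw => (hder w (hb1 hw)).complexToReal_fderiv.hasFDerivWithinAt)
      (hinj.mono hb1)]
    apply setIntegral_congr_fun Metric.isOpen_ball.measurableSet
    intro w hw
    have hw1 : ‖w‖ ≤ 1 := ((hmem1 w).1 hw).le
    have hwr : ‖w‖ ≤ r := hw1.trans hr.le
    simp only
    rw [det_smul_one, abs_of_nonneg (Complex.normSq_nonneg _), Complex.real_smul,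
      ← Complex.mul_conj, ev_mul (hP1.pow zero_le_one m) hD1 hw1, ev_pow zero_le_one hP1 hw1]
    have h2 : HH D ψ n m (ev P w) * ev D w = ev (UU D n m) w := by
      cases m with
      | zero =>
        simp only [HH, UU]
        rw [hψφ w (hb1 hw), ev_X_pow]
        have := hd0 w (hb1 hw)
        field_simp
      | succ m =>
        simp only [HH, UU]
        rw [hψφ w (hb1 hw), ev_mul (((hU m).intg hr0.le).smul _) hD hwr, ev_smul]
    rw [← h2, map_mul, map_pow]
    ring
  refine ⟨fun m => (((m : ℂ) + 1) / (Real.pi : ℂ)) * ∫ z in Ω, (conj z) ^ m * HH D ψ n m z,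
    fun m => ?_, ?_⟩
  · have h1 := (hint m).mul_left (((m : ℂ) + 1) / (Real.pi : ℂ))
    have hfun : (fun k => PowerSeries.coeff k (UU D n m) *
        conj (PowerSeries.coeff (k + 1) (P ^ (m + 1))))
        = fun k => ((m : ℂ) + 1) / (Real.pi : ℂ) * (PowerSeries.coeff k (UU D n m) *
          (conj (PowerSeries.coeff k (P ^ m * D)) * ((Real.pi / (k + 1) : ℝ) : ℂ))) := by
      funext k
      have hpi : (Real.pi : ℂ) ≠ 0 := by exact_mod_cast Real.pi_ne_zero
      have hk : ((k : ℂ) + 1) ≠ 0 := Nat.cast_add_one_ne_zero k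
      have h2 := congrArg (starRingEnd ℂ) (coeff_pow_deriv P m k)
      simp only [map_mul, map_add, map_one, map_natCast] at h2
      push_cast
      field_simp
      rw [← hDdef] at h2
      linear_combination (-(PowerSeries.coeff k (UU D n m))) * h2
    rw [hfun]
    exact h1
  · have hpi : (Real.pi : ℂ) ≠ 0 := by exact_mod_cast Real.pi_ne_zero
    have h1 := hmain.const_mul ((Real.pi : ℂ)⁻¹)
    rw [mul_zero] at h1
    refine h1.congr fun M => ?_
    rw [Finset.mul_sum]
    apply Finset.sum_congr rfl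
    intro m _
    have hm : ((m : ℂ) + 1) ≠ 0 := Nat.cast_add_one_ne_zero m
    field_simp

end Pool.Agent.MP_83fd13_an
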