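import Mathlib
import Pool.Agent.MP_83fd13_an.Key2
import Pool.Agent.MP_83fd13_an.Ident2

namespace Pool.Agent.MP_83fd13_an

open Filter Finset
open scoped Topology ComplexConjugate

variable {Ω : Set ℂ} {lam c : ℝ} {u : ℂ → ℝ} {G : ℂ → ℂ}

theorem SN_nn_le_nrm {D : PowerSeries ℂ} (hD : Conv 1 D) (N : ℕ) : SN N (nn D) ≤ nrm D := by
  rw [SN, nrm]
  simp_rw [coeff_nn]
  exact hD.one_summable.sum_le_tsum _ fun k _ => norm_nonneg _

theorem geom_tail_le {Q : ℝ} (hQ0 : 0 ≤ Q) (hQ1 : Q < 1) (M : ℕ) :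
    ∑ m ∈ range M, Q ^ (m + 1) ≤ Q / (1 - Q) := by
  have h1 : Summable fun m : ℕ => Q ^ m := summable_geometric_of_lt_one hQ0 hQ1
  calc ∑ m ∈ range M, Q ^ (m + 1) = Q * ∑ m ∈ range M, Q ^ m := by
        rw [Finset.mul_sum]
        apply Finset.sum_congr rfl
        intro m _; rw [pow_succ]; ring
    _ ≤ Q * ∑' m : ℕ, Q ^ m := by
        apply mul_le_mul_of_nonneg_left _ hQ0
        exact h1.sum_le_tsum _ fun m _ => by positivity
    _ = Q / (1 - Q) := by rw [tsum_geometric_of_lt_one hQ0 hQ1]; rfl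

theorem exp_tail_le {x : ℝ} (hx : 0 ≤ x) (M : ℕ) :
    ∑ m ∈ range M, x ^ (m + 1) / (m + 2).factorial ≤ Real.exp x := by
  have h1 := Real.sum_le_exp_of_nonneg hx (M + 1)
  refine le_trans ?_ h1
  rw [Finset.sum_range_succ']
  have h2 : ∀ m ∈ range M, x ^ (m + 1) / (m + 2).factorial ≤ x ^ (m + 1) / (m + 1).factorial := by
    intro m _
    apply div_le_div_of_nonneg_left (by positivity) (by positivity)
    exact_mod_cast Nat.factorial_le (by omega)
  have h3 := Finset.sum_le_sum h2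
  have h4 : (0 : ℝ) ≤ x ^ 0 / (Nat.factorial 0 : ℝ) := by positivity
  linarith

theorem key_ineq (h : SchifferSolution Ω lam c u G) {P : PowerSeries ℂ} {r : ℝ} (hr : 1 < r)
    (hP : Conv r P) (hD : Conv r (PowerSeries.derivative ℂ P))
    (hinj : Set.InjOn (ev P) (Metric.ball 0 r))
    (hd0 : ∀ w ∈ Metric.ball (0 : ℂ) r, ev (PowerSeries.derivative ℂ P) w ≠ 0)
    (hΩ : Ω = ev P '' Metric.ball 0 1)
    {ρ : ℝ} (hρ : 1 < ρ) {W : ℕ → ℝ} (hW : Weight ρ W)
    {Dd s : ℝ} (hDd : 0 ≤ Dd) (hs : 0 ≤ s) {n1 : ℕ}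
    (hx : ∀ k, ‖PowerSeries.coeff k P‖ * W k ≤ PowerSeries.coeff k (blk Dd n1) + s)
    (n : ℕ) {Q : ℝ} (hQ1 : Q < 1)
    (hQ : nrm (PowerSeries.derivative ℂ P) * (lam / 4 * (Dd * n1 / ((n : ℝ) + 1) + s)
      * (Real.log ρ)⁻¹) ≤ Q) :
    ‖PowerSeries.coeff (n + 1) P‖ * W (n + 1) ≤
      (Dd * n1 * 2 ^ n1) * Real.exp (nrm (PowerSeries.derivative ℂ P) * (lam / 4) *
        (Dd * n1 * 2 ^ n1)) * (1 / 2) ^ (n + 1) + s * ρ ^ 2 * (Q / (1 - Q)) := by
  set D := PowerSeries.derivative ℂ P with hDdef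
  set L := nrm D with hLdef
  set E := Dd * n1 * 2 ^ n1 with hE
  have hE0 : 0 ≤ E := by positivity
  have hL0 : 0 ≤ L := nrm_nonneg D
  have hlam := h.lam_pos
  have hlog : 0 < Real.log ρ := Real.log_pos hρ
  have hD1 : Conv 1 D := hD.mono zero_le_one hr.le
  set q0 := lam / 4 * (Dd * n1 / ((n : ℝ) + 1) + s) * (Real.log ρ)⁻¹ with hq0def
  have hq0 : 0 ≤ q0 := by positivity
  have hLq0 : 0 ≤ L * q0 := by positivity
  have hQ0 : 0 ≤ Q := hLq0.trans hQ
  obtain ⟨S, hS, hlim⟩ := identity h hr hP hD hinj hd0 hΩ n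
  have hW0 := hW.nonneg (n + 1)
  -- bound for each S m
  set b : ℕ → ℝ := fun m => L ^ m * (((lam / 4) ^ m * E ^ (m + 1) / (m + 1).factorial *
        (1 / 2) ^ (n + 1)) + s * ρ ^ 2 * q0 ^ m) with hb
  have hSb : ∀ m, |cc lam m| / ((m : ℝ) + 1) * (W (n + 1) * ‖S m‖) ≤ b m := by
    intro m
    have h1 := (hS m).tendsto_sum_nat
    have h2 : Tendsto (fun K => |cc lam m| / ((m : ℝ) + 1) * (W (n + 1) *
        ‖∑ k ∈ range K, PowerSeries.coeff k (UU D n m) *
        conj (PowerSeries.coeff (k + 1) (P ^ (m + 1)))‖)) atTop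
        (𝓝 (|cc lam m| / ((m : ℝ) + 1) * (W (n + 1) * ‖S m‖))) :=
      (h1.norm.const_mul _).const_mul _
    apply le_of_tendsto' h2
    intro K
    refine le_trans ?_ (term_bound hρ hW (SN_nn_le_nrm hD1) hDd hs hx hlam n m K)
    have hc0 : 0 ≤ |cc lam m| / ((m : ℝ) + 1) := by positivity
    apply mul_le_mul_of_nonneg_left _ hc0
    apply mul_le_mul_of_nonneg_left _ hW0
    refine (norm_sum_le _ _).trans (le_of_eq ?_)
    apply Finset.sum_congr rfl
    intro k _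
    rw [norm_mul, RCLike.norm_conj]
  -- S 0
  have hS0 : S 0 = conj (PowerSeries.coeff (n + 1) P) := by
    have h1 := hS 0
    have h2 : HasSum (fun k => PowerSeries.coeff k (UU D n 0) *
        conj (PowerSeries.coeff (k + 1) (P ^ (0 + 1)))) (conj (PowerSeries.coeff (n + 1) P)) := by
      have h3 : (fun k => PowerSeries.coeff k (UU D n 0) *
        conj (PowerSeries.coeff (k + 1) (P ^ (0 + 1))))
          = fun k => if k = n then conj (PowerSeries.coeff (n + 1) P) else 0 := by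
        funext k
        rw [UU, PowerSeries.coeff_X_pow, zero_add, pow_one]
        split_ifs with hk
        · rw [hk, one_mul]
        · rw [zero_mul]
      rw [h3]
      exact hasSum_ite_eq n _
    exact h1.unique h2
  -- bound for all M
  have hM : ∀ M, ‖PowerSeries.coeff (n + 1) P‖ * W (n + 1) ≤
      ‖∑ m ∈ range (M + 1), ((cc lam m : ℂ) / ((m : ℂ) + 1)) * S m‖ * W (n + 1)
        + ∑ m ∈ range M, b (m + 1) := by
    intro M
    have h1 : conj (PowerSeries.coeff (n + 1) P)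
        = (∑ m ∈ range (M + 1), ((cc lam m : ℂ) / ((m : ℂ) + 1)) * S m)
          - ∑ m ∈ range M, ((cc lam (m + 1) : ℂ) / (((m + 1 : ℕ) : ℂ) + 1)) * S (m + 1) := by
      rw [Finset.sum_range_succ', hS0, cc_zero]
      simp
    have h2 : ‖PowerSeries.coeff (n + 1) P‖
        ≤ ‖∑ m ∈ range (M + 1), ((cc lam m : ℂ) / ((m : ℂ) + 1)) * S m‖
          + ∑ m ∈ range M, |cc lam (m + 1)| / (((m + 1 : ℕ) : ℝ) + 1) * ‖S (m + 1)‖ := by
      rw [← RCLike.norm_conj, h1]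
      refine (norm_sub_le _ _).trans ?_
      apply add_le_add le_rfl
      refine (norm_sum_le _ _).trans (le_of_eq ?_)
      apply Finset.sum_congr rfl
      intro m _
      rw [norm_mul, norm_div, norm_nat_add_one, Complex.norm_real, Real.norm_eq_abs]
    calc ‖PowerSeries.coeff (n + 1) P‖ * W (n + 1)
        ≤ (‖∑ m ∈ range (M + 1), ((cc lam m : ℂ) / ((m : ℂ) + 1)) * S m‖
          + ∑ m ∈ range M, |cc lam (m + 1)| / (((m + 1 : ℕ) : ℝ) + 1) * ‖S (m + 1)‖) * W (n + 1) :=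
          mul_le_mul_of_nonneg_right h2 hW0
      _ = ‖∑ m ∈ range (M + 1), ((cc lam m : ℂ) / ((m : ℂ) + 1)) * S m‖ * W (n + 1)
          + ∑ m ∈ range M, |cc lam (m + 1)| / (((m + 1 : ℕ) : ℝ) + 1) *
            (W (n + 1) * ‖S (m + 1)‖) := by
          rw [add_mul, Finset.sum_mul]
          congr 1
          apply Finset.sum_congr rfl
          intro m _; ring
      _ ≤ _ := by
          apply add_le_add le_rfl
          exact Finset.sum_le_sum fun m _ => hSb (m + 1)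
  -- sum of the bounds
  have hbsum : ∀ M, ∑ m ∈ range M, b (m + 1) ≤ E * Real.exp (L * (lam / 4) * E) * (1 / 2) ^ (n + 1)
      + s * ρ ^ 2 * (Q / (1 - Q)) := by
    intro M
    have h1 : ∀ m ∈ range M, b (m + 1) ≤ E * (1 / 2) ^ (n + 1) *
        ((L * (lam / 4) * E) ^ (m + 1) / (m + 2).factorial) + s * ρ ^ 2 * Q ^ (m + 1) := by
      intro m _
      have e1 : (L * q0) ^ (m + 1) ≤ Q ^ (m + 1) := pow_le_pow_left₀ hLq0 hQ _
      have e2 : s * ρ ^ 2 * (L * q0) ^ (m + 1) ≤ s * ρ ^ 2 * Q ^ (m + 1) :=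
        mul_le_mul_of_nonneg_left e1 (by positivity)
      have e3 : b (m + 1) = E * (1 / 2) ^ (n + 1) *
        ((L * (lam / 4) * E) ^ (m + 1) / (m + 2).factorial) + s * ρ ^ 2 * (L * q0) ^ (m + 1) := by
        simp only [hb]
        rw [mul_pow (L * (lam / 4)), mul_pow L (lam / 4), mul_pow L q0]
        ring
      rw [e3]
      linarith
    refine (Finset.sum_le_sum h1).trans ?_
    rw [Finset.sum_add_distrib, ← Finset.mul_sum, ← Finset.mul_sum]
    apply add_le_add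
    · have := exp_tail_le (x := L * (lam / 4) * E) (by positivity) M
      calc E * (1 / 2) ^ (n + 1) * ∑ m ∈ range M, (L * (lam / 4) * E) ^ (m + 1) / (m + 2).factorial
          ≤ E * (1 / 2) ^ (n + 1) * Real.exp (L * (lam / 4) * E) := by gcongr
        _ = _ := by ring
    · apply mul_le_mul_of_nonneg_left (geom_tail_le hQ0 hQ1 M) (by positivity)
  have hfin : ∀ M, ‖PowerSeries.coeff (n + 1) P‖ * W (n + 1) ≤
      ‖∑ m ∈ range (M + 1), ((cc lam m : ℂ) / ((m : ℂ) + 1)) * S m‖ * W (n + 1)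
        + (E * Real.exp (L * (lam / 4) * E) * (1 / 2) ^ (n + 1)
      + s * ρ ^ 2 * (Q / (1 - Q))) := fun M => (hM M).trans (add_le_add le_rfl (hbsum M))
  have hl2 : Tendsto (fun M => ‖∑ m ∈ range (M + 1), ((cc lam m : ℂ) / ((m : ℂ) + 1)) * S m‖
      * W (n + 1) + (E * Real.exp (L * (lam / 4) * E) * (1 / 2) ^ (n + 1)
      + s * ρ ^ 2 * (Q / (1 - Q)))) atTop (𝓝 (‖(0 : ℂ)‖ * W (n + 1)
        + (E * Real.exp (L * (lam / 4) * E) * (1 / 2) ^ (n + 1)
      + s * ρ ^ 2 * (Q / (1 - Q))))) := (hlim.norm.mul_const _).add_const _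
  have := ge_of_tendsto' hl2 hfin
  simpa using this

end Pool.Agent.MP_83fd13_an
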