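import Mathlib
import Pool.Agent.MP_83fd13_an.Key3
import Pool.Agent.MP_83fd13_an.Boot
import Pool.Agent.MP_83fd13_an.Inj

namespace Pool.Agent.MP_83fd13_an

open Filter Finset MeasureTheory
open scoped Topology ComplexConjugate

theorem main {a : ℕ → ℂ} {φ : ℂ → ℂ} {ρ ρ₁ : ℝ} (hρ₁ : 1 < ρ₁) (hρ₁ρ : ρ₁ ≤ ρ)
    (hφ : ∀ w : ℂ, ‖w‖ < ρ → HasSum (fun n => a n * w ^ n) (φ w))
    (hinj : Set.InjOn φ (Metric.ball 0 ρ₁))
    (hlim : Tendsto (fun n => ‖a n‖ * ρ ^ n) atTop (𝓝 0))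
    {lam c : ℝ} {u : ℂ → ℝ} {G : ℂ → ℂ}
    (h : SchifferSolution (φ '' Metric.ball 0 1) lam c u G) :
    ∃ r, ρ < r ∧ Summable fun n => ‖a n‖ * r ^ n := by
  have hρ : 1 < ρ := lt_of_lt_of_le hρ₁ hρ₁ρ
  have hρ0 : 0 < ρ := by linarith
  set P : PowerSeries ℂ := PowerSeries.mk a with hP
  have hcoeff : ∀ k, PowerSeries.coeff k P = a k := fun k => PowerSeries.coeff_mk k a
  have hev : ∀ w : ℂ, ‖w‖ < ρ → ev P w = φ w := by
    intro w hw
    rw [ev]
    simp_rw [hcoeff]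
    exact (hφ w hw).tsum_eq
  obtain ⟨r, hr1, hr2⟩ := exists_between hρ₁
  have hrρ : r < ρ := lt_of_lt_of_le hr2 hρ₁ρ
  have hr0 : 0 < r := by linarith
  obtain ⟨B, hB⟩ : ∃ B : ℝ, ∀ k, ‖a k‖ * ρ ^ k ≤ B := by
    obtain ⟨B, hB⟩ := hlim.bddAbove_range
    exact ⟨B, fun k => hB ⟨k, rfl⟩⟩
  have hq0 : 0 ≤ r / ρ := by positivity
  have hq1 : r / ρ < 1 := (div_lt_one hρ0).2 hrρ
  have hgeo : Summable fun k : ℕ => (r / ρ) ^ k := summable_geometric_of_lt_one hq0 hq1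
  have hgeo1 : Summable fun k : ℕ => (k : ℝ) ^ 1 * (r / ρ) ^ k :=
    summable_pow_mul_geometric_of_norm_lt_one 1 (by rwa [Real.norm_eq_abs, abs_of_nonneg hq0])
  have hterm : ∀ k, ‖a k‖ * r ^ k ≤ B * (r / ρ) ^ k := by
    intro k
    have h1 : ‖a k‖ * r ^ k = ‖a k‖ * ρ ^ k * (r / ρ) ^ k := by
      rw [div_pow]; field_simp
    rw [h1]
    exact mul_le_mul_of_nonneg_right (hB k) (by positivity)
  have hPc : Conv r P := by
    rw [Conv]
    simp_rw [hcoeff]
    exact Summable.of_nonneg_of_le (fun k => by positivity) hterm (hgeo.mul_left B)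
  have hDc : Conv r (PowerSeries.derivative ℂ P) := by
    have h2 : Summable fun k : ℕ => (B / r) * (((k + 1 : ℕ) : ℝ) ^ 1 * (r / ρ) ^ (k + 1)) :=
      ((summable_nat_add_iff 1).2 hgeo1).mul_left _
    refine Summable.of_nonneg_of_le (fun k => by positivity) (fun k => ?_) h2
    rw [PowerSeries.coeff_derivative, hcoeff, norm_mul, norm_nat_add_one]
    have h3 := hterm (k + 1)
    calc ‖a (k + 1)‖ * ((k : ℝ) + 1) * r ^ k
        = ((k : ℝ) + 1) / r * (‖a (k + 1)‖ * r ^ (k + 1)) := by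
          rw [pow_succ]; field_simp
      _ ≤ ((k : ℝ) + 1) / r * (B * (r / ρ) ^ (k + 1)) := by gcongr
      _ = _ := by push_cast; ring
  have hball : ∀ w ∈ Metric.ball (0 : ℂ) ρ₁, ‖w‖ < ρ := by
    intro w hw
    have : ‖w‖ < ρ₁ := by simpa using hw
    linarith
  have heq : Set.EqOn (ev P) φ (Metric.ball 0 ρ₁) := fun w hw => hev w (hball w hw)
  have hrb : Metric.ball (0 : ℂ) r ⊆ Metric.ball 0 ρ₁ := Metric.ball_subset_ball hr2.le
  have hinj' : Set.InjOn (ev P) (Metric.ball 0 ρ₁) := hinj.congr heq.symm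
  have hd0 : ∀ w ∈ Metric.ball (0 : ℂ) r, ev (PowerSeries.derivative ℂ P) w ≠ 0 := by
    intro w hw
    have hw' : ‖w‖ < r := by simpa using hw
    rw [← (hasDerivAt_ev hr0 hDc hw').deriv]
    apply deriv_ne_zero_of_injOn (Metric.isOpen_ball.mem_nhds (hrb hw)) _ hinj'
    exact (differentiableOn_ev hPc).analyticAt (Metric.isOpen_ball.mem_nhds hw)
  have hΩ : φ '' Metric.ball 0 1 = ev P '' Metric.ball 0 1 := by
    apply Set.image_congr
    intro w hw
    exact (heq (Metric.ball_subset_ball hρ₁.le hw)).symm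
  have hlam := h.lam_pos
  have hboot := bootstrap (α := fun k => ‖PowerSeries.coeff k P‖) (fun k => norm_nonneg _) hρ
    (L := nrm (PowerSeries.derivative ℂ P)) (mu := lam / 4) (nrm_nonneg _) (by positivity)
    (fun W hW Dd s hDd hs n1 hx n Q hQ1 hQ =>
      key_ineq h hr1 hPc hDc (hinj'.mono hrb) hd0 hΩ hρ hW hDd hs hx n hQ1 hQ)
    (by simpa only [hcoeff] using hlim)
  obtain ⟨δ, hδ, C, hC⟩ := hboot
  simp only [hcoeff] at hC
  have hC0 : 0 ≤ C := by
    refine le_trans ?_ (hC 0)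
    positivity
  refine ⟨ρ * Real.exp (δ / 2), ?_, ?_⟩
  · have : 1 < Real.exp (δ / 2) := Real.one_lt_exp_iff.2 (by linarith)
    nlinarith
  · have hs : Summable fun k : ℕ => C * (Real.exp (-(δ / 2))) ^ k := by
      apply Summable.mul_left
      apply summable_geometric_of_lt_one (Real.exp_pos _).le
      exact Real.exp_lt_one_iff.2 (by linarith)
    refine Summable.of_nonneg_of_le (fun k => by positivity) (fun k => ?_) hs
    have h1 : ‖a k‖ * (ρ * Real.exp (δ / 2)) ^ k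
        = (‖a k‖ * ρ ^ k * Real.exp (δ * k)) * (Real.exp (-(δ / 2))) ^ k := by
      rw [mul_pow, ← Real.exp_nat_mul, ← Real.exp_nat_mul]
      have : Real.exp (k * (δ / 2)) = Real.exp (δ * k) * Real.exp (k * -(δ / 2)) := by
        rw [← Real.exp_add]; congr 1; ring
      rw [this]; ring
    rw [h1]
    exact mul_le_mul_of_nonneg_right (hC k) (by positivity)

end Pool.Agent.MP_83fd13_an
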