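import Mathlib

/-!
Wirtinger's inequality on an interval and for functions with a small period.
-/

namespace Pool.Agent.MP_83fd13_an.NFold

open MeasureTheory Set Real

theorem wirtinger_interval {a b : ℝ} (hab : a < b) {g g' : ℝ → ℝ}
    (hg : ∀ x, HasDerivAt g (g' x) x) (hg' : Continuous g') (hper : g a = g b)
    (hmean : ∫ x in a..b, g x = 0) :
    (2 * π / (b - a)) ^ 2 * ∫ x in a..b, (g x) ^ 2 ≤ ∫ x in a..b, (g' x) ^ 2 := by
  have hba : 0 < b - a := sub_pos.2 hab
  have hgc : Continuous g := continuous_iff_continuousAt.2 fun x => (hg x).continuousAt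
  set f : ℝ → ℂ := fun x => (g x : ℂ) with hf
  set f' : ℝ → ℂ := fun x => (g' x : ℂ) with hf'
  have hfc : Continuous f := Complex.continuous_ofReal.comp hgc
  have hf'c : Continuous f' := Complex.continuous_ofReal.comp hg'
  have hL : ∀ F : ℝ → ℂ, Continuous F → MemLp F 2 (volume.restrict (Ioc a b)) := by
    intro F hF
    obtain ⟨C, hC⟩ := (isCompact_Icc (a := a) (b := b)).exists_bound_of_continuousOn
      hF.norm.continuousOn
    refine MemLp.of_bound hF.aestronglyMeasurable C ?_
    rw [ae_restrict_iff' measurableSet_Ioc]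
    refine Filter.Eventually.of_forall fun x hx => ?_
    simpa using hC x (Ioc_subset_Icc_self hx)
  have h1 := hasSum_sq_fourierCoeffOn hab (hL f hfc)
  have h2 := hasSum_sq_fourierCoeffOn hab (hL f' hf'c)
  have hcoef : ∀ n : ℤ, (2 * π / (b - a)) ^ 2 * ‖fourierCoeffOn hab f n‖ ^ 2 ≤
      ‖fourierCoeffOn hab f' n‖ ^ 2 := by
    intro n
    rcases eq_or_ne n 0 with rfl | hn
    · have : fourierCoeffOn hab f 0 = 0 := by
        rw [fourierCoeffOn_eq_integral]
        simp only [neg_zero, fourier_zero, one_smul]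
        have : ∫ x in a..b, f x = ((∫ x in a..b, g x : ℝ) : ℂ) := by
          rw [← intervalIntegral.integral_ofReal]
        rw [this, hmean]; simp
      rw [this]; simp
    · have h := fourierCoeffOn_of_hasDerivAt hab (f := f) (f' := f') hn
        (fun x _ => (hg x).ofReal_comp) (hf'c.intervalIntegrable _ _)
      have h0 : f b - f a = 0 := by simp [hf, hper]
      rw [h0, mul_zero, zero_sub] at h
      rw [h]
      have hn1 : (1 : ℝ) ≤ |(n : ℝ)| := by
        rw [← Int.cast_abs]; exact_mod_cast Int.one_le_abs hn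
      have hnorm : ‖1 / (-2 * (π : ℂ) * Complex.I * n) * -((b - a) * fourierCoeffOn hab f' n)‖ =
          (b - a) / (2 * π * |(n : ℝ)|) * ‖fourierCoeffOn hab f' n‖ := by
        have hb : ‖((b - a : ℝ) : ℂ)‖ = b - a := by
          rw [Complex.norm_real, Real.norm_of_nonneg hba.le]
        have hp : ‖(π : ℂ)‖ = π := by
          rw [Complex.norm_real, Real.norm_of_nonneg pi_pos.le]
        rw [norm_mul, norm_neg, norm_mul, norm_div, norm_mul, norm_mul, norm_mul,
          ← Complex.ofReal_sub, hb, hp]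
        simp only [norm_one, norm_neg, Complex.norm_ofNat, Complex.norm_I,
          mul_one, Complex.norm_intCast]
        ring
      rw [hnorm, ← mul_pow]
      have h3 : 2 * π / (b - a) * ((b - a) / (2 * π * |(n : ℝ)|) * ‖fourierCoeffOn hab f' n‖) =
          (1 / |(n : ℝ)|) * ‖fourierCoeffOn hab f' n‖ := by
        field_simp
      rw [h3]
      apply pow_le_pow_left₀ (by positivity)
      have : 1 / |(n : ℝ)| ≤ 1 := by
        rw [div_le_one (by linarith)]; exact hn1
      calc _ ≤ 1 * ‖fourierCoeffOn hab f' n‖ := by gcongr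
        _ = _ := one_mul _
  have h4 := hasSum_le hcoef (h1.mul_left _) h2
  have e1 : ∫ x in a..b, ‖f x‖ ^ 2 = ∫ x in a..b, (g x) ^ 2 := by
    apply intervalIntegral.integral_congr; intro x _; simp [hf]
  have e2 : ∫ x in a..b, ‖f' x‖ ^ 2 = ∫ x in a..b, (g' x) ^ 2 := by
    apply intervalIntegral.integral_congr; intro x _; simp [hf']
  rw [e1, e2, smul_eq_mul, smul_eq_mul] at h4
  have h5 : (b - a)⁻¹ * ((2 * π / (b - a)) ^ 2 * ∫ x in a..b, (g x) ^ 2) ≤
      (b - a)⁻¹ * ∫ x in a..b, (g' x) ^ 2 := by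
    linarith
  exact le_of_mul_le_mul_left h5 (by positivity)

/-- Wirtinger's inequality for `2π/N`-periodic functions with mean zero. -/
theorem wirtinger_periodic {N : ℕ} (hN : 1 ≤ N) {g g' : ℝ → ℝ}
    (hg : ∀ x, HasDerivAt g (g' x) x) (hg' : Continuous g')
    (hper : ∀ x, g (x + 2 * π / N) = g x) (hmean : ∫ x in (-π)..π, g x = 0) :
    (N : ℝ) ^ 2 * ∫ x in (-π)..π, (g x) ^ 2 ≤ ∫ x in (-π)..π, (g' x) ^ 2 := by
  have hN0 : (0 : ℝ) < N := by exact_mod_cast hN
  set T : ℝ := 2 * π / N with hT
  have hTpos : 0 < T := by positivity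
  have hgc : Continuous g := continuous_iff_continuousAt.2 fun x => (hg x).continuousAt
  have hP : Function.Periodic g T := hper
  have hP' : Function.Periodic g' T := by
    intro x
    have h1 : HasDerivAt (fun y => g (y + T)) (g' (x + T)) x := by
      simpa using (hg (x + T)).comp_add_const x T
    have h2 : (fun y => g (y + T)) = g := funext hper
    rw [h2] at h1
    exact h1.unique (hg x)
  have hNT : -π + N • T = π := by
    rw [nsmul_eq_mul, hT]; field_simp; ring
  have hsplit : ∀ F : ℝ → ℝ, Function.Periodic F T → Continuous F →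
      ∫ x in (-π)..π, F x = N • ∫ x in (-π)..(-π + T), F x := by
    intro F hF hFc
    have h := hF.intervalIntegral_add_zsmul_eq (N : ℤ) (-π) (fun a b => hFc.intervalIntegrable a b)
    rw [natCast_zsmul, natCast_zsmul, hNT] at h
    exact h
  have hsq : Function.Periodic (fun x => (g x) ^ 2) T := fun x => by simp only [hP x]
  have hsq' : Function.Periodic (fun x => (g' x) ^ 2) T := fun x => by simp only [hP' x]
  have hm : ∫ x in (-π)..(-π + T), g x = 0 := by
    rw [hsplit g hP hgc, nsmul_eq_mul] at hmean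
    exact (mul_eq_zero.1 hmean).resolve_left hN0.ne'
  have h := wirtinger_interval (a := -π) (b := -π + T) (by linarith) hg hg'
    (by rw [hP (-π)]) hm
  rw [hsplit _ hsq (hgc.pow 2), hsplit _ hsq' (hg'.pow 2), nsmul_eq_mul, nsmul_eq_mul]
  have e : 2 * π / (-π + T - -π) = N := by
    have : -π + T - -π = T := by ring
    rw [this, hT]; field_simp
  rw [e] at h
  calc (N : ℝ) ^ 2 * (N * ∫ x in (-π)..(-π + T), (g x) ^ 2) =
      N * ((N : ℝ) ^ 2 * ∫ x in (-π)..(-π + T), (g x) ^ 2) := by ring
    _ ≤ N * ∫ x in (-π)..(-π + T), (g' x) ^ 2 := by gcongr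

end Pool.Agent.MP_83fd13_an.NFold
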