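import Pool.Agent.MP_83fd13_an.NFold9

/-!
A rotation invariant domain with connected boundary is a disc; conclusion.
-/

open MeasureTheory Set Filter Topology
open scoped ENNReal NNReal

noncomputable section

namespace Pool.Agent.MP_83fd13_an.NFold

lemma exists_T {z z' : ℂ} (h : ‖z‖ = ‖z'‖) : ∃ a : ℝ, T a z = z' := by
  refine ⟨z'.arg - z.arg, ?_⟩
  have h1 := Complex.norm_mul_exp_arg_mul_I z
  have h2 := Complex.norm_mul_exp_arg_mul_I z'
  calc T (z'.arg - z.arg) z
      = Complex.exp (((z'.arg - z.arg : ℝ) : ℂ) * Complex.I) *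
          (‖z‖ * Complex.exp (z.arg * Complex.I)) := by rw [h1]; rfl
    _ = ‖z'‖ * Complex.exp (z'.arg * Complex.I) := by
        rw [h]
        have : Complex.exp (((z'.arg - z.arg : ℝ) : ℂ) * Complex.I) *
            Complex.exp (z.arg * Complex.I) = Complex.exp (z'.arg * Complex.I) := by
          rw [← Complex.exp_add]
          congr 1
          push_cast; ring
        rw [mul_left_comm, this]
    _ = z' := h2

theorem disc_of_inv {Ω : Set ℂ} {R : ℝ} (hO : IsOpen Ω) (hb : Ω ⊆ Metric.closedBall 0 R)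
    (hne : Ω.Nonempty) (hc : IsPreconnected Ω) (hfc : IsPreconnected (frontier Ω))
    (hreg : interior (closure Ω) = Ω) (hinv : ∀ a z, z ∈ Ω → T a z ∈ Ω) :
    ∃ ρ : ℝ, 0 < ρ ∧ Ω = Metric.ball 0 ρ := by
  have hnorm : ∀ {z z' : ℂ}, ‖z‖ = ‖z'‖ → z ∈ Ω → z' ∈ Ω := by
    intro z z' h hz
    obtain ⟨a, ha⟩ := exists_T h
    rw [← ha]
    exact hinv a z hz
  set J : Set ℝ := norm '' Ω with hJ
  have hmem : ∀ z : ℂ, z ∈ Ω ↔ ‖z‖ ∈ J := by
    intro z
    constructor
    · intro hz
      exact ⟨z, hz, rfl⟩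
    · rintro ⟨z', hz', h⟩
      exact hnorm h hz'
  have hJne : J.Nonempty := hne.image _
  have hJ0 : ∀ r ∈ J, 0 ≤ r := by
    rintro _ ⟨z, -, rfl⟩
    exact norm_nonneg _
  have hJbb : BddBelow J := ⟨0, hJ0⟩
  have hJba : BddAbove J := by
    refine ⟨R, ?_⟩
    rintro _ ⟨z, hz, rfl⟩
    exact mem_closedBall_zero_iff.1 (hb hz)
  have hJc : J.OrdConnected := (hc.image _ continuous_norm.continuousOn).ordConnected
  have hreal : ∀ r : ℝ, 0 ≤ r → ((r : ℂ) ∈ Ω ↔ r ∈ J) := by
    intro r hr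
    rw [hmem, Complex.norm_real, Real.norm_of_nonneg hr]
  -- openness on the right and on the left
  have hcont : Continuous (fun r : ℝ => (r : ℂ)) := Complex.continuous_ofReal
  have hnhds : ∀ r ∈ J, ∀ᶠ s : ℝ in 𝓝 r, (s : ℂ) ∈ Ω := by
    intro r hr
    exact hcont.continuousAt.preimage_mem_nhds (hO.mem_nhds ((hreal r (hJ0 r hr)).2 hr))
  set β := sSup J with hβ
  set α := sInf J with hα
  have hβn : β ∉ J := by
    intro h
    obtain ⟨ε, hε, hs⟩ := Metric.eventually_nhds_iff.1 (hnhds β h)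
    have h0 := hJ0 β h
    have h1 : ((β + ε / 2 : ℝ) : ℂ) ∈ Ω := hs (by rw [Real.dist_eq]; rw [abs_of_pos] <;> linarith)
    have h2 := (hreal _ (by linarith)).1 h1
    have := le_csSup hJba h2
    linarith
  have hβ' : ∀ r ∈ J, r < β := fun r hr =>
    lt_of_le_of_ne (le_csSup hJba hr) (fun h => hβn (h ▸ hr))
  have hβ0 : 0 < β := by
    obtain ⟨r, hr⟩ := hJne
    exact (hJ0 r hr).trans_lt (hβ' r hr)
  -- points between
  have hbet : ∀ r, α < r → r < β → r ∈ J := by
    intro r h1 h2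
    obtain ⟨s, hs, hsr⟩ := exists_lt_of_csInf_lt hJne h1
    obtain ⟨t, ht, hrt⟩ := exists_lt_of_lt_csSup hJne h2
    exact hJc.out hs ht ⟨hsr.le, hrt.le⟩
  have hα0 : 0 ≤ α := le_csInf hJne hJ0
  have h0Ω : (0 : ℂ) ∈ Ω := by
    by_contra h0
    have h0J : (0 : ℝ) ∉ J := fun h => h0 ((hmem 0).2 (by rwa [norm_zero]))
    have hαn : α ∉ J := by
      intro h
      have hα1 : 0 < α := lt_of_le_of_ne hα0 (fun e => h0J (e ▸ h))
      obtain ⟨ε, hε, hs⟩ := Metric.eventually_nhds_iff.1 (hnhds α h)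
      set δ := min (ε / 2) (α / 2) with hδ
      have hδ0 : 0 < δ := lt_min (by linarith) (by linarith)
      have hδ1 : δ ≤ ε / 2 := min_le_left _ _
      have hδ2 : δ ≤ α / 2 := min_le_right _ _
      have h1 : ((α - δ : ℝ) : ℂ) ∈ Ω := hs (by
        rw [Real.dist_eq, abs_sub_comm, abs_of_pos] <;> linarith)
      have h2 := (hreal _ (by linarith)).1 h1
      have := csInf_le hJbb h2
      linarith
    have hα' : ∀ r ∈ J, α < r := fun r hr =>
      lt_of_le_of_ne (csInf_le hJbb hr) (fun h => hαn (h ▸ hr))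
    have hαβ : α < β := by
      obtain ⟨r, hr⟩ := hJne
      exact (hα' r hr).trans (hβ' r hr)
    rcases eq_or_lt_of_le hα0 with hα1 | hα1
    · -- punctured disc
      apply h0
      rw [← hreg, mem_interior]
      refine ⟨Metric.ball 0 β, ?_, Metric.isOpen_ball, Metric.mem_ball_self hβ0⟩
      intro z hz
      rw [mem_ball_zero_iff] at hz
      by_cases hz0 : z = 0
      · rw [hz0]
        rw [Metric.mem_closure_iff]
        intro ε hε
        refine ⟨((min (ε / 2) (β / 2) : ℝ) : ℂ), ?_, ?_⟩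
        · have h1 : 0 < min (ε / 2) (β / 2) := lt_min (by linarith) (by linarith)
          rw [hreal _ h1.le]
          refine hbet _ (by rw [← hα1]; exact h1) ?_
          exact (min_le_right _ _).trans_lt (by linarith)
        · have h1 : 0 < min (ε / 2) (β / 2) := lt_min (by linarith) (by linarith)
          rw [dist_zero_left, Complex.norm_real, Real.norm_of_nonneg h1.le]
          exact (min_le_left _ _).trans_lt (by linarith)
      · apply subset_closure
        rw [hmem]
        refine hbet _ ?_ hz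
        rw [← hα1]
        exact norm_pos_iff.2 hz0
    · -- annulus
      have hfr : ∀ r : ℝ, 0 ≤ r → r ∉ J → (r : ℂ) ∈ closure Ω → (r : ℂ) ∈ frontier Ω := by
        intro r hr hrJ hcl
        rw [frontier, hO.interior_eq]
        exact ⟨hcl, fun h => hrJ ((hreal r hr).1 h)⟩
      have h1 : (α : ℂ) ∈ frontier Ω := by
        refine hfr α hα0 hαn ?_
        rw [Metric.mem_closure_iff]
        intro ε hε
        set δ := min (ε / 2) ((β - α) / 2) with hδ
        have hδ0 : 0 < δ := lt_min (by linarith) (by linarith)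
        have hδ1 : δ ≤ ε / 2 := min_le_left _ _
        have hδ2 : δ ≤ (β - α) / 2 := min_le_right _ _
        refine ⟨((α + δ : ℝ) : ℂ), (hreal _ (by linarith)).2 (hbet _ (by linarith) (by linarith)),
          ?_⟩
        rw [dist_eq_norm, ← Complex.ofReal_sub, Complex.norm_real, Real.norm_eq_abs,
          abs_sub_comm, abs_of_pos] <;> linarith
      have h2 : (β : ℂ) ∈ frontier Ω := by
        refine hfr β hβ0.le hβn ?_
        rw [Metric.mem_closure_iff]
        intro ε hε
        set δ := min (ε / 2) ((β - α) / 2) with hδ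
        have hδ0 : 0 < δ := lt_min (by linarith) (by linarith)
        have hδ1 : δ ≤ ε / 2 := min_le_left _ _
        have hδ2 : δ ≤ (β - α) / 2 := min_le_right _ _
        refine ⟨((β - δ : ℝ) : ℂ), (hreal _ (by linarith)).2 (hbet _ (by linarith) (by linarith)),
          ?_⟩
        rw [dist_eq_norm, ← Complex.ofReal_sub, Complex.norm_real, Real.norm_eq_abs,
          abs_of_pos] <;> linarith
      have hoc := (hfc.image _ continuous_norm.continuousOn).ordConnected
      have h3 : α ∈ norm '' frontier Ω :=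
        ⟨(α : ℂ), h1, by rw [Complex.norm_real, Real.norm_of_nonneg hα0]⟩
      have h4 : β ∈ norm '' frontier Ω :=
        ⟨(β : ℂ), h2, by rw [Complex.norm_real, Real.norm_of_nonneg hβ0.le]⟩
      obtain ⟨z, hz, hzn⟩ := hoc.out h3 h4 (⟨by linarith, by linarith⟩ : (α + β) / 2 ∈ Icc α β)
      have hzn' : ‖z‖ = (α + β) / 2 := hzn
      have h5 : z ∈ Ω := (hmem z).2 (by rw [hzn']; exact hbet _ (by linarith) (by linarith))
      rw [frontier, hO.interior_eq] at hz
      exact hz.2 h5
  refine ⟨β, hβ0, ?_⟩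
  ext z
  rw [mem_ball_zero_iff, hmem]
  constructor
  · intro h
    exact hβ' _ h
  · intro h
    obtain ⟨t, ht, hrt⟩ := exists_lt_of_lt_csSup hJne h
    have h0J : (0 : ℝ) ∈ J := by
      have := (hmem 0).1 h0Ω
      rwa [norm_zero] at this
    exact hJc.out h0J ht ⟨norm_nonneg z, hrt.le⟩

/-- an open set whose characteristic function is rotation invariant almost everywhere and which
is the interior of its closure is rotation invariant -/
theorem inv_of_ae {Ω : Set ℂ} (hO : IsOpen Ω) (hreg : interior (closure Ω) = Ω)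
    (h : ∀ a, ∀ᵐ z, (Ω.indicator (fun _ => (1 : ℝ))) (T a z) = Ω.indicator (fun _ => 1) z) :
    ∀ a z, z ∈ Ω → T a z ∈ Ω := by
  intro a
  -- `Ω ⊆ closure (T a ⁻¹' Ω)`
  have h1 : Ω ⊆ closure (T a ⁻¹' Ω) := by
    intro z hz
    by_contra hcl
    have hU : IsOpen (Ω ∩ (closure (T a ⁻¹' Ω))ᶜ) := hO.inter isClosed_closure.isOpen_compl
    have hpos := hU.measure_pos volume ⟨z, hz, hcl⟩
    have h0 : volume (Ω ∩ (closure (T a ⁻¹' Ω))ᶜ) = 0 := by
      have := h a
      rw [ae_iff] at this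
      refine measure_mono_null ?_ this
      rintro y ⟨hy1, hy2⟩
      have hy3 : T a y ∉ Ω := fun hh => hy2 (subset_closure hh)
      simp [hy1, hy3]
    rw [h0] at hpos
    exact lt_irrefl _ hpos
  obtain ⟨e, he⟩ := T_homeo a
  have hep : T a ⁻¹' Ω = e ⁻¹' Ω := by
    ext z; simp [he]
  rw [hep, ← e.preimage_closure] at h1
  have h2 : e '' Ω ⊆ closure Ω := by
    rintro _ ⟨z, hz, rfl⟩
    exact h1 hz
  have h3 : e '' Ω ⊆ interior (closure Ω) :=
    interior_maximal h2 (e.isOpenMap _ hO)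
  rw [hreg] at h3
  intro z hz
  rw [← he]
  exact h3 ⟨z, hz, rfl⟩

/-- room for a slightly larger frequency and a slightly larger radius -/
theorem exists_room {N : ℕ} {lam R : ℝ} (hlam : 0 < lam) (hR : 0 ≤ R)
    (hpos : ∀ x, 0 < x → x ≤ Real.sqrt lam * R → 0 < besselJ N x) :
    ∃ lam' R' : ℝ, lam < lam' ∧ R < R' ∧ ∀ r ∈ Icc 0 R', 0 < besselH N (lam' * r ^ 2 / 4) := by
  set s0 := lam * R ^ 2 / 4 with hs0
  have hH : ∀ s ∈ Icc 0 s0, 0 < besselH N s := by
    intro s hs
    rcases eq_or_lt_of_le hs.1 with h | h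
    · rw [← h]
      unfold besselH
      rw [tsum_eq_single 0]
      · simp; positivity
      · intro k hk
        simp [zero_pow hk]
    · have h1 : 0 < 2 * Real.sqrt s := by positivity
      have h2 : 2 * Real.sqrt s ≤ Real.sqrt lam * R := by
        have h3 : Real.sqrt lam * R = 2 * Real.sqrt s0 := by
          rw [hs0, show lam * R ^ 2 / 4 = lam * (R / 2) ^ 2 by ring, Real.sqrt_mul hlam.le,
            Real.sqrt_sq (by linarith)]
          ring
        rw [h3]
        gcongr
        exact hs.2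
      have h4 := hpos _ h1 h2
      rw [besselJ_eq] at h4
      have h5 : (2 * Real.sqrt s) ^ 2 / 4 = s := by
        rw [mul_pow, Real.sq_sqrt h.le]; ring
      rw [h5] at h4
      exact (mul_pos_iff_of_pos_left (by positivity)).1 h4
  have hs00 : 0 ≤ s0 := by positivity
  have hev : ∀ᶠ s in 𝓝 s0, 0 < besselH N s :=
    (continuous_besselH N).continuousAt.eventually (lt_mem_nhds (hH s0 ⟨hs00, le_refl _⟩))
  obtain ⟨δ, hδ, hδs⟩ := Metric.eventually_nhds_iff.1 hev
  have hc : Continuous (fun t : ℝ => (lam + t) * (R + t) ^ 2 / 4) := by fun_prop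
  have hev2 : ∀ᶠ t in 𝓝 (0 : ℝ), (lam + t) * (R + t) ^ 2 / 4 < s0 + δ := by
    have : Tendsto (fun t : ℝ => (lam + t) * (R + t) ^ 2 / 4) (𝓝 0) (𝓝 s0) := by
      have := hc.tendsto 0
      simpa [hs0] using this
    exact this.eventually (gt_mem_nhds (by linarith))
  obtain ⟨η, hη, hηs⟩ := Metric.eventually_nhds_iff.1 hev2
  have hη2 := hηs (y := η / 2) (by rw [Real.dist_eq, sub_zero, abs_of_pos] <;> linarith)
  refine ⟨lam + η / 2, R + η / 2, by linarith, by linarith, fun r hr => ?_⟩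
  have h1 : (lam + η / 2) * r ^ 2 / 4 ≤ (lam + η / 2) * (R + η / 2) ^ 2 / 4 := by
    have h0 := hr.1
    have h2 := hr.2
    gcongr
  have h0 : 0 ≤ (lam + η / 2) * r ^ 2 / 4 := by positivity
  by_cases h : (lam + η / 2) * r ^ 2 / 4 ≤ s0
  · exact hH _ ⟨h0, h⟩
  · apply hδs
    rw [Real.dist_eq, abs_of_pos] <;> linarith

theorem main {Ω : Set ℂ} {lam c R : ℝ} {u : ℂ → ℝ} {G : ℂ → ℂ} {N : ℕ} (hO : IsOpen Ω)
    (hne : Ω.Nonempty) (hc : IsPreconnected Ω) (hfc : IsPreconnected (frontier Ω))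
    (hreg : interior (closure Ω) = Ω) (hfr : volume (frontier Ω) = 0) (hN : 1 ≤ N)
    (hrot : ∀ z, z ∈ Ω → T (2 * Real.pi / N) z ∈ Ω) (hR : Ω ⊆ Metric.closedBall 0 R)
    (hpos : ∀ x, 0 < x → x ≤ Real.sqrt lam * R → 0 < besselJ N x)
    (h : SchifferSolution Ω lam c u G) : ∃ ρ : ℝ, 0 < ρ ∧ Ω = Metric.ball 0 ρ := by
  have hR0 : 0 ≤ R := by
    obtain ⟨z, hz⟩ := hne
    have := hR hz
    rw [mem_closedBall_zero_iff] at this
    exact (norm_nonneg z).trans this
  have hlam := h.lam_pos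
  have hb : Bornology.IsBounded Ω := Metric.isBounded_closedBall.subset hR
  have hc0 := h.c_ne_zero hb hO.measurableSet
  -- two-sided invariance
  have hrot' : ∀ z, T (2 * Real.pi / N) z ∈ Ω ↔ z ∈ Ω := by
    have hk : ∀ (k : ℕ) (z : ℂ), z ∈ Ω → T (k * (2 * Real.pi / N)) z ∈ Ω := by
      intro k
      induction k with
      | zero => intro z hz; simpa [T_zero] using hz
      | succ k ih =>
        intro z hz
        have : T ((k + 1 : ℕ) * (2 * Real.pi / N)) z =
            T (2 * Real.pi / N) (T (k * (2 * Real.pi / N)) z) := by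
          rw [T_add]; congr 1; push_cast; ring
        rw [this]
        exact hrot _ (ih z hz)
    intro z
    refine ⟨fun hz => ?_, hrot z⟩
    have h1 := hk (N - 1) _ hz
    have hN0 : (N : ℝ) ≠ 0 := by positivity
    have h2 : T (((N - 1 : ℕ) : ℝ) * (2 * Real.pi / N)) (T (2 * Real.pi / N) z) = z := by
      rw [T_add]
      have : ((N - 1 : ℕ) : ℝ) * (2 * Real.pi / N) + 2 * Real.pi / N = 2 * Real.pi := by
        rw [Nat.cast_sub hN]
        field_simp
        push_cast
        ring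
      rw [this]
      simp only [T]
      push_cast
      rw [Complex.exp_two_pi_mul_I, one_mul]
    rwa [h2] at h1
  obtain ⟨w, G', H, hw, hw0⟩ := exists_symm hO.measurableSet hR h hN hrot'
  obtain ⟨lam', R', hll, hRR, hp⟩ := exists_room hlam hR0 hpos
  have hQ := fun a => Q_zero hO rfl hR hR0 hfr H hw0 hN hw hlam hll hRR hp a
  have hX := fun a => X_inv H hc0 hlam a (hQ a)
  exact disc_of_inv hO hR hne hc hfc hreg (inv_of_ae hO hreg hX)

end Pool.Agent.MP_83fd13_an.NFold
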