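import Mathlib

/-!
The power series of the Bessel functions `J_N` and the radial inequality.
-/

namespace Pool.Agent.MP_83fd13_an.NFold

open MeasureTheory Set Real

/-- The Bessel function of the first kind of integer order `N`, by its power series. -/
noncomputable def besselJ (N : ℕ) (x : ℝ) : ℝ :=
  ∑' k : ℕ, (-1 : ℝ) ^ k / (k.factorial * (k + N).factorial) * (x / 2) ^ (2 * k + N)

/-- `J_N (x) = (x / 2) ^ N * besselH N (x ^ 2 / 4)`. -/
noncomputable def besselH (N : ℕ) (s : ℝ) : ℝ :=
  ∑' k : ℕ, (-s) ^ k / (k.factorial * (k + N).factorial)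

theorem besselJ_eq (N : ℕ) (x : ℝ) : besselJ N x = (x / 2) ^ N * besselH N (x ^ 2 / 4) := by
  unfold besselJ besselH
  rw [← tsum_mul_left]
  congr 1
  ext k
  have : (-(x ^ 2 / 4)) ^ k = (-1) ^ k * (x / 2) ^ (2 * k) := by
    rw [pow_mul, ← mul_pow]; congr 1; ring
  rw [this, pow_add]; ring

theorem besselH_term_le (N k : ℕ) (s : ℝ) :
    ‖(-s) ^ k / (k.factorial * (k + N).factorial)‖ ≤ |s| ^ k / k.factorial := by
  rw [norm_div, norm_pow, norm_neg, norm_mul, Real.norm_eq_abs, Real.norm_natCast,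
    Real.norm_natCast]
  apply div_le_div_of_nonneg_left (by positivity) (by positivity)
  have : (1 : ℝ) ≤ (k + N).factorial := by exact_mod_cast Nat.factorial_pos _
  nlinarith [(by positivity : (0 : ℝ) < k.factorial)]

theorem besselH_summable (N : ℕ) (s : ℝ) :
    Summable fun k : ℕ => (-s) ^ k / ((k.factorial : ℝ) * (k + N).factorial) :=
  Summable.of_norm_bounded (Real.summable_pow_div_factorial |s|) (fun k => besselH_term_le N k s)

theorem hasDerivAt_besselH (N : ℕ) (s : ℝ) :
    HasDerivAt (besselH N) (-besselH (N + 1) s) s := by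
  set r : ℝ := |s| + 1 with hr
  have hr0 : 0 < r := by positivity
  set u : ℕ → ℝ := fun k => k * r ^ (k - 1) / k.factorial with hu
  have hus : Summable u := by
    rw [← summable_nat_add_iff 1]
    refine (Real.summable_pow_div_factorial r).congr fun k => ?_
    simp only [hu, Nat.add_sub_cancel, Nat.factorial_succ]
    push_cast
    field_simp
  have hg : ∀ (k : ℕ) (y : ℝ), y ∈ Metric.ball (0 : ℝ) r →
      HasDerivAt (fun y : ℝ => (-y) ^ k / ((k.factorial : ℝ) * (k + N).factorial))
        (-(k * (-y) ^ (k - 1)) / ((k.factorial : ℝ) * (k + N).factorial)) y := by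
    intro k y _
    have h1 : HasDerivAt (fun y : ℝ => (-y) ^ k) (k * (-y) ^ (k - 1) * -1) y :=
      (hasDerivAt_neg y).pow k
    convert! h1.div_const _ using 1
    ring
  have hb : ∀ (k : ℕ) (y : ℝ), y ∈ Metric.ball (0 : ℝ) r →
      ‖-(k * (-y) ^ (k - 1)) / ((k.factorial : ℝ) * (k + N).factorial)‖ ≤ u k := by
    intro k y hy
    rw [Metric.mem_ball, dist_zero_right, Real.norm_eq_abs] at hy
    rw [norm_div, norm_neg, norm_mul, norm_pow, norm_neg, norm_mul, Real.norm_natCast,
      Real.norm_natCast, Real.norm_natCast, Real.norm_eq_abs]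
    simp only [hu]
    have h1 : |y| ^ (k - 1) ≤ r ^ (k - 1) := pow_le_pow_left₀ (abs_nonneg _) hy.le _
    have h2 : (1 : ℝ) ≤ (k + N).factorial := by exact_mod_cast Nat.factorial_pos _
    have h3 : (0 : ℝ) < k.factorial := by positivity
    calc (k : ℝ) * |y| ^ (k - 1) / (k.factorial * (k + N).factorial) ≤
        k * |y| ^ (k - 1) / k.factorial := by
          apply div_le_div_of_nonneg_left (by positivity) h3
          nlinarith
      _ ≤ _ := by gcongr
  have hs : s ∈ Metric.ball (0 : ℝ) r := by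
    rw [Metric.mem_ball, dist_zero_right, Real.norm_eq_abs]; linarith
  have h := hasDerivAt_tsum_of_isPreconnected hus Metric.isOpen_ball
    (convex_ball (0 : ℝ) r).isPreconnected hg hb hs (besselH_summable N s) hs
  have e : ∑' k : ℕ, -(k * (-s) ^ (k - 1)) / ((k.factorial : ℝ) * (k + N).factorial) =
      -besselH (N + 1) s := by
    rw [Summable.tsum_eq_zero_add (Summable.of_norm_bounded hus (fun k => hb k s hs))]
    simp only [CharP.cast_eq_zero, zero_mul, neg_zero, zero_div, zero_add]
    unfold besselH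
    rw [← tsum_neg]
    congr 1
    ext k
    have h3 : ((k + 1 + N).factorial : ℝ) = (k + (N + 1)).factorial := by
      congr 2; ring
    rw [Nat.add_sub_cancel, h3, Nat.factorial_succ k]
    push_cast
    field_simp
  rw [← e]
  exact h

theorem besselH_rec (N : ℕ) (s : ℝ) :
    s * besselH (N + 2) s - (N + 1) * besselH (N + 1) s + besselH N s = 0 := by
  have h0 := besselH_summable N s
  have h1 := besselH_summable (N + 1) s
  have h2 := besselH_summable (N + 2) s
  have e2 : s * besselH (N + 2) s =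
      -∑' k : ℕ, (k : ℝ) * (-s) ^ k / ((k.factorial : ℝ) * (k + (N + 1)).factorial) := by
    have hs : Summable fun k : ℕ =>
        (k : ℝ) * (-s) ^ k / ((k.factorial : ℝ) * (k + (N + 1)).factorial) := by
      rw [← summable_nat_add_iff 1]
      refine (h2.mul_left (-s)).congr fun k => ?_
      have h3 : ((k + 1 + (N + 1)).factorial : ℝ) = (k + (N + 2)).factorial := by
        congr 2; ring
      rw [h3, Nat.factorial_succ k]
      push_cast
      field_simp
      ring
    rw [hs.tsum_eq_zero_add]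
    simp only [CharP.cast_eq_zero, zero_mul, zero_div, zero_add]
    unfold besselH
    rw [← tsum_mul_left, ← tsum_neg]
    congr 1
    ext k
    have h3 : ((k + 1 + (N + 1)).factorial : ℝ) = (k + (N + 2)).factorial := by
      congr 2; ring
    rw [h3, Nat.factorial_succ k]
    push_cast
    field_simp
    ring
  have hs : Summable fun k : ℕ =>
      (k : ℝ) * (-s) ^ k / ((k.factorial : ℝ) * (k + (N + 1)).factorial) := by
    refine (h0.sub (h1.mul_left ((N : ℝ) + 1))).congr fun k => ?_
    have h3 : ((k + (N + 1)).factorial : ℝ) = (k + N + 1) * (k + N).factorial := by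
      rw [← Nat.add_assoc, Nat.factorial_succ]; push_cast; ring
    rw [h3]
    field_simp
    ring
  rw [e2]
  have e1 : besselH N s - (N + 1) * besselH (N + 1) s =
      ∑' k : ℕ, (k : ℝ) * (-s) ^ k / ((k.factorial : ℝ) * (k + (N + 1)).factorial) := by
    unfold besselH
    rw [← tsum_mul_left, ← h0.tsum_sub (h1.mul_left _)]
    congr 1
    ext k
    have h3 : ((k + (N + 1)).factorial : ℝ) = (k + N + 1) * (k + N).factorial := by
      rw [← Nat.add_assoc, Nat.factorial_succ]; push_cast; ring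
    rw [h3]
    field_simp
    ring
  linarith

theorem continuous_besselH (N : ℕ) : Continuous (besselH N) :=
  continuous_iff_continuousAt.2 fun s => (hasDerivAt_besselH N s).continuousAt

/-- The logarithmic derivative `r J'(r) / J(r)` of `J(r) = J_N(√lam r)`. -/
noncomputable def psi (N : ℕ) (lam r : ℝ) : ℝ :=
  N - 2 * (lam * r ^ 2 / 4) * besselH (N + 1) (lam * r ^ 2 / 4) / besselH N (lam * r ^ 2 / 4)

theorem hasDerivAt_psi (N : ℕ) (lam r : ℝ) (hr : r ≠ 0) (h : besselH N (lam * r ^ 2 / 4) ≠ 0) :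
    HasDerivAt (psi N lam) ((N ^ 2 - psi N lam r ^ 2) / r - lam * r) r := by
  set s := lam * r ^ 2 / 4 with hs
  have hsd : HasDerivAt (fun r : ℝ => lam * r ^ 2 / 4) (lam * r / 2) r := by
    have := ((hasDerivAt_pow 2 r).const_mul lam).div_const 4
    convert! this using 1
    push_cast
    ring
  have h0 : HasDerivAt (fun r : ℝ => besselH N (lam * r ^ 2 / 4))
      (-besselH (N + 1) s * (lam * r / 2)) r := by
    have h := hasDerivAt_besselH N s
    rw [hs] at h
    exact HasDerivAt.comp (h₂ := besselH N) (h := fun r : ℝ => lam * r ^ 2 / 4) r h hsd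
  have h1 : HasDerivAt (fun r : ℝ => besselH (N + 1) (lam * r ^ 2 / 4))
      (-besselH (N + 2) s * (lam * r / 2)) r := by
    have h := hasDerivAt_besselH (N + 1) s
    rw [hs] at h
    exact HasDerivAt.comp (h₂ := besselH (N + 1)) (h := fun r : ℝ => lam * r ^ 2 / 4) r h hsd
  have h2 := (((hsd.const_mul 2).mul h1).div h0 h).const_sub (N : ℝ)
  unfold psi
  convert! h2 using 1
  have hrec := besselH_rec N s
  have hrec' : s * besselH (N + 2) s = (N + 1) * besselH (N + 1) s - besselH N s := by linarith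
  simp only [Pi.mul_apply, ← hs] at h ⊢
  have hsr : lam * r / 2 = 2 * s / r := by rw [hs]; field_simp; ring
  have hlam : lam * r = 4 * s / r := by rw [hs]; field_simp
  rw [hsr, hlam]
  field_simp
  have h3 : s * besselH (N + 2) s = (N + 1) * besselH (N + 1) s - besselH N s := hrec'
  linear_combination (-4 * s * besselH N s) * h3

theorem continuousOn_psi (N : ℕ) (lam R : ℝ)
    (hpos : ∀ r ∈ Icc 0 R, besselH N (lam * r ^ 2 / 4) ≠ 0) :
    ContinuousOn (psi N lam) (Icc 0 R) := by
  unfold psi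
  have h1 : Continuous fun r : ℝ => besselH N (lam * r ^ 2 / 4) :=
    (continuous_besselH N).comp (by fun_prop)
  have h2 : Continuous fun r : ℝ => besselH (N + 1) (lam * r ^ 2 / 4) :=
    (continuous_besselH (N + 1)).comp (by fun_prop)
  refine continuousOn_const.sub (ContinuousOn.div ?_ h1.continuousOn hpos)
  exact (Continuous.mul (by fun_prop) h2).continuousOn

/-- A `C^1` function vanishing at `0` is bounded by a multiple of `r` on `[0, R]`. -/
theorem exists_bound_mul {R : ℝ} {p p' : ℝ → ℝ} (hp : ∀ r, HasDerivAt p (p' r) r)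
    (hp' : Continuous p') (h0 : p 0 = 0) :
    ∃ C : ℝ, 0 ≤ C ∧ ∀ r ∈ Icc 0 R, |p r| ≤ C * r ∧ |p' r| ≤ C := by
  obtain ⟨C, hC⟩ := (isCompact_Icc (a := (0 : ℝ)) (b := R)).exists_bound_of_continuousOn
    hp'.continuousOn
  refine ⟨max C 0, le_max_right _ _, fun r hr => ⟨?_, ?_⟩⟩
  · have h := (convex_Icc (0 : ℝ) r).norm_image_sub_le_of_norm_hasDerivWithin_le
      (f := p) (f' := p') (C := max C 0) (x := 0) (y := r)
      (fun x _ => (hp x).hasDerivWithinAt)
      (fun x hx => (hC x ⟨hx.1, hx.2.trans hr.2⟩).trans (le_max_left _ _))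
      (left_mem_Icc.2 hr.1) (right_mem_Icc.2 hr.1)
    rw [h0, sub_zero, sub_zero, Real.norm_eq_abs, Real.norm_eq_abs, abs_of_nonneg hr.1] at h
    exact h
  · exact (hC r hr).trans (le_max_left _ _)

theorem radial_ineq {N : ℕ} {lam R : ℝ} (hR : 0 < R)
    (hpos : ∀ r ∈ Icc 0 R, 0 < besselH N (lam * r ^ 2 / 4)) {p p' : ℝ → ℝ}
    (hp : ∀ r, HasDerivAt p (p' r) r) (hp' : Continuous p') (h0 : p 0 = 0) (hpR : p R = 0) :
    0 ≤ ∫ r in (0 : ℝ)..R, (r * (p' r) ^ 2 + N ^ 2 * (p r) ^ 2 / r - lam * r * (p r) ^ 2) := by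
  have hpc : Continuous p := continuous_iff_continuousAt.2 fun x => (hp x).continuousAt
  have hpsi := continuousOn_psi N lam R (fun r hr => (hpos r hr).ne')
  obtain ⟨C, hC0, hC⟩ := exists_bound_mul (R := R) hp hp' h0
  obtain ⟨D, hD⟩ := (isCompact_Icc (a := (0 : ℝ)) (b := R)).exists_bound_of_continuousOn hpsi
  have hD0 : 0 ≤ D := (norm_nonneg _).trans (hD 0 ⟨le_refl _, hR.le⟩)
  -- measurability and boundedness give integrability
  have key : ∀ (F : ℝ → ℝ) (B : ℝ), ContinuousOn F (Ioc 0 R) → (∀ r ∈ Ioc 0 R, |F r| ≤ B) →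
      IntervalIntegrable F volume 0 R := by
    intro F B hF hB
    rw [intervalIntegrable_iff_integrableOn_Ioc_of_le hR.le]
    have : IsFiniteMeasure (volume.restrict (Ioc 0 R)) := ⟨by simp⟩
    refine Integrable.of_bound (hF.aestronglyMeasurable measurableSet_Ioc) B ?_
    rw [ae_restrict_iff' measurableSet_Ioc]
    exact Filter.Eventually.of_forall fun r hr => hB r hr
  have hne : ∀ r ∈ Ioc (0 : ℝ) R, r ≠ 0 := fun r hr => hr.1.ne'
  set G' : ℝ → ℝ := fun r => ((N ^ 2 - psi N lam r ^ 2) / r - lam * r) * (p r) ^ 2 +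
    psi N lam r * (2 * p r * p' r) with hG'
  have hpsi' : ContinuousOn (psi N lam) (Ioc 0 R) := hpsi.mono Ioc_subset_Icc_self
  have hGi : IntervalIntegrable G' volume 0 R := by
    refine key G' (((N : ℝ) ^ 2 + D ^ 2) * (C ^ 2 * R) + |lam| * R * (C * R) ^ 2 +
      D * (2 * (C * R) * C)) ?_ ?_
    · refine ContinuousOn.add (ContinuousOn.mul (ContinuousOn.sub (ContinuousOn.div
        (continuousOn_const.sub (hpsi'.pow 2)) continuousOn_id hne) (by fun_prop))
        (hpc.pow 2).continuousOn) (hpsi'.mul ?_)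
      exact ((continuous_const.mul hpc).mul hp').continuousOn
    · intro r hr
      have hr' : r ∈ Icc 0 R := Ioc_subset_Icc_self hr
      obtain ⟨h1, h2⟩ := hC r hr'
      have h3 := hD r hr'
      rw [Real.norm_eq_abs] at h3
      have hr0 : 0 < r := hr.1
      have e : G' r = (N ^ 2 - psi N lam r ^ 2) * ((p r) ^ 2 / r) - lam * r * (p r) ^ 2 +
          psi N lam r * (2 * p r * p' r) := by
        simp only [hG']; field_simp
      have h4 : |(p r) ^ 2 / r| ≤ C ^ 2 * R := by
        rw [abs_div, abs_of_pos hr0, abs_pow, div_le_iff₀ hr0]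
        calc |p r| ^ 2 ≤ (C * r) ^ 2 := pow_le_pow_left₀ (abs_nonneg _) h1 2
          _ = C ^ 2 * r * r := by ring
          _ ≤ C ^ 2 * R * r := by gcongr; exact hr.2
      have h5 : |(N : ℝ) ^ 2 - psi N lam r ^ 2| ≤ N ^ 2 + D ^ 2 := by
        calc |(N : ℝ) ^ 2 - psi N lam r ^ 2| ≤ |(N : ℝ) ^ 2| + |psi N lam r ^ 2| := abs_sub _ _
          _ ≤ N ^ 2 + D ^ 2 := by
            rw [abs_of_nonneg (by positivity : (0 : ℝ) ≤ (N : ℝ) ^ 2), abs_pow]
            gcongr
      have h6 : |p r| ≤ C * R := h1.trans (by gcongr; exact hr.2)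
      rw [e]
      calc _ ≤ |(N ^ 2 - psi N lam r ^ 2) * ((p r) ^ 2 / r) - lam * r * (p r) ^ 2| +
            |psi N lam r * (2 * p r * p' r)| := abs_add_le _ _
        _ ≤ (|(N ^ 2 - psi N lam r ^ 2) * ((p r) ^ 2 / r)| + |lam * r * (p r) ^ 2|) +
            |psi N lam r * (2 * p r * p' r)| := by gcongr; exact abs_sub _ _
        _ = (|(N : ℝ) ^ 2 - psi N lam r ^ 2| * |(p r) ^ 2 / r| + |lam| * r * |p r| ^ 2) +
            |psi N lam r| * (2 * |p r| * |p' r|) := by
          rw [abs_mul, abs_mul, abs_mul, abs_mul, abs_mul, abs_mul, abs_pow, abs_of_pos hr0]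
          norm_num
        _ ≤ _ := by
          gcongr
          exact hr.2
  have hI : IntervalIntegrable
      (fun r => r * (p' r) ^ 2 + N ^ 2 * (p r) ^ 2 / r - lam * r * (p r) ^ 2) volume 0 R := by
    have h1 : IntervalIntegrable (fun r => (p r) ^ 2 / r) volume 0 R := by
      refine key _ (C ^ 2 * R) ((hpc.pow 2).continuousOn.div continuousOn_id hne) ?_
      intro r hr
      have hr0 : 0 < r := hr.1
      obtain ⟨h1, -⟩ := hC r (Ioc_subset_Icc_self hr)
      rw [abs_div, abs_of_pos hr0, abs_pow, div_le_iff₀ hr0]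
      calc |p r| ^ 2 ≤ (C * r) ^ 2 := pow_le_pow_left₀ (abs_nonneg _) h1 2
        _ = C ^ 2 * r * r := by ring
        _ ≤ C ^ 2 * R * r := by gcongr; exact hr.2
    have h2 : IntervalIntegrable (fun r => r * (p' r) ^ 2) volume 0 R :=
      (continuous_id.mul (hp'.pow 2)).intervalIntegrable _ _
    have h3 : IntervalIntegrable (fun r => lam * r * (p r) ^ 2) volume 0 R :=
      ((continuous_const.mul continuous_id).mul (hpc.pow 2)).intervalIntegrable _ _
    have h4 := (h2.add (h1.const_mul ((N : ℝ) ^ 2))).sub h3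
    refine h4.congr ?_
    intro r _
    simp only [mul_div_assoc]
  have hFTC : ∫ r in (0 : ℝ)..R, G' r = 0 := by
    have h := intervalIntegral.integral_eq_sub_of_hasDerivAt_of_le hR.le
      (f := fun r => psi N lam r * (p r) ^ 2) (f' := G')
      (hpsi.mul (hpc.pow 2).continuousOn) ?_ hGi
    · rw [h]; simp [h0, hpR]
    · intro r hr
      have h1 := hasDerivAt_psi N lam r hr.1.ne' (hpos r (Ioo_subset_Icc_self hr)).ne'
      have h2 := (hp r).pow 2
      convert! h1.mul h2 using 1
      simp only [hG', Pi.pow_apply]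
      push_cast
      ring
  refine hFTC.symm.le.trans ?_
  refine intervalIntegral.integral_mono_on_of_le_Ioo hR.le hGi hI ?_
  intro r hr
  have hr0 : 0 < r := hr.1
  have : (r * (p' r) ^ 2 + N ^ 2 * (p r) ^ 2 / r - lam * r * (p r) ^ 2) - G' r =
      (r * p' r - psi N lam r * p r) ^ 2 / r := by
    simp only [hG']; field_simp; ring
  have h2 : 0 ≤ (r * p' r - psi N lam r * p r) ^ 2 / r := by positivity
  linarith

end Pool.Agent.MP_83fd13_an.NFold
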