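import Pool.Agent.MP_83fd13_an.NFold1
import Pool.Agent.MP_83fd13_an.NFold2

/-!
Coercivity of the Dirichlet form on `N`-fold symmetric functions with zero mean on circles.
-/

namespace Pool.Agent.MP_83fd13_an.NFold

open MeasureTheory Set Real

/-- The unit vector of angle `θ`. -/
noncomputable def uv (θ : ℝ) : ℂ := Complex.exp (θ * Complex.I)

/-- The polar parametrisation. -/
noncomputable def pol (p : ℝ × ℝ) : ℂ := (p.1 : ℂ) * uv p.2

theorem continuous_uv : Continuous uv := by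
  unfold uv; fun_prop

theorem continuous_pol : Continuous pol := by
  unfold pol
  exact (Complex.continuous_ofReal.comp continuous_fst).mul (continuous_uv.comp continuous_snd)

theorem pol_eq (p : ℝ × ℝ) : Complex.polarCoord.symm p = pol p := by
  rw [Complex.polarCoord_symm_apply, pol, uv, Complex.exp_mul_I]
  push_cast
  rfl

theorem norm_uv (θ : ℝ) : ‖uv θ‖ = 1 := by
  unfold uv; exact Complex.norm_exp_ofReal_mul_I θ

theorem norm_pol (p : ℝ × ℝ) : ‖pol p‖ = |p.1| := by
  rw [pol, norm_mul, norm_uv, mul_one, Complex.norm_real, Real.norm_eq_abs]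

theorem hasDerivAt_pol_fst (r θ : ℝ) : HasDerivAt (fun r : ℝ => pol (r, θ)) (uv θ) r := by
  unfold pol
  have h := (Complex.ofRealCLM.hasDerivAt (x := r)).mul_const (uv θ)
  simpa using h

theorem hasDerivAt_uv (θ : ℝ) : HasDerivAt uv (Complex.I * uv θ) θ := by
  unfold uv
  have h1 : HasDerivAt (fun θ : ℝ => (θ : ℂ) * Complex.I) Complex.I θ := by
    have h := (Complex.ofRealCLM.hasDerivAt (x := θ)).mul_const Complex.I
    simpa using h
  have h2 := h1.cexp
  rw [mul_comm] at h2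
  exact h2

theorem hasDerivAt_pol_snd (r θ : ℝ) :
    HasDerivAt (fun θ : ℝ => pol (r, θ)) ((r : ℂ) * (Complex.I * uv θ)) θ := by
  unfold pol
  exact (hasDerivAt_uv θ).const_mul (r : ℂ)

/-- The sum of squares of the components of a linear form is rotation invariant. -/
theorem sq_add_sq_rot (L : ℂ →L[ℝ] ℝ) (θ : ℝ) :
    (L (uv θ)) ^ 2 + (L (Complex.I * uv θ)) ^ 2 = (L 1) ^ 2 + (L Complex.I) ^ 2 := by
  have h1 : uv θ = (Real.cos θ) • (1 : ℂ) + (Real.sin θ) • Complex.I := by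
    unfold uv
    rw [Complex.exp_mul_I]
    simp
  have h2 : Complex.I * uv θ = (-Real.sin θ) • (1 : ℂ) + (Real.cos θ) • Complex.I := by
    rw [h1]
    apply Complex.ext <;> simp
  rw [h2, h1]
  simp only [map_add, map_smul, smul_eq_mul]
  have h3 := Real.sin_sq_add_cos_sq θ
  linear_combination ((L 1) ^ 2 + (L Complex.I) ^ 2) * h3

theorem polar_integral {R : ℝ} {F : ℂ → ℝ} (hF : ∀ z, R < ‖z‖ → F z = 0) :
    ∫ z, F z = ∫ p in Ioc (0 : ℝ) R ×ˢ Ioo (-π) π, p.1 * F (pol p) := by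
  rw [← Complex.integral_comp_polarCoord_symm, polarCoord_target]
  have h1 : ∀ p : ℝ × ℝ, p.1 • F (Complex.polarCoord.symm p) = p.1 * F (pol p) := by
    intro p; rw [pol_eq, smul_eq_mul]
  simp_rw [h1]
  apply setIntegral_eq_of_subset_of_forall_sdiff_eq_zero
  · exact measurableSet_Ioi.prod measurableSet_Ioo
  · exact Set.prod_mono Ioc_subset_Ioi_self (le_refl _)
  · rintro ⟨r, θ⟩ ⟨h2, h3⟩
    simp only [mem_prod, mem_Ioi, mem_Ioc] at h2 h3
    have h4 : R < r := by
      by_contra h5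
      exact h3 ⟨⟨h2.1, not_lt.1 h5⟩, h2.2⟩
    have h6 : R < ‖pol (r, θ)‖ := by
      rw [norm_pol]; exact lt_of_lt_of_le h4 (le_abs_self r)
    simp only
    rw [hF _ h6, mul_zero]

theorem integrableOn_box {R : ℝ} {F : ℝ × ℝ → ℝ} {B : ℝ}
    (hF : ContinuousOn F (Ioc (0 : ℝ) R ×ˢ Ioo (-π) π))
    (hB : ∀ p ∈ Ioc (0 : ℝ) R ×ˢ Ioo (-π) π, |F p| ≤ B) :
    IntegrableOn F (Ioc (0 : ℝ) R ×ˢ Ioo (-π) π) (volume.prod volume) := by
  have hm : MeasurableSet (Ioc (0 : ℝ) R ×ˢ Ioo (-π) π) := measurableSet_Ioc.prod measurableSet_Ioo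
  have : IsFiniteMeasure ((volume.prod volume).restrict (Ioc (0 : ℝ) R ×ˢ Ioo (-π) π)) := by
    refine ⟨?_⟩
    rw [Measure.restrict_apply_univ, Measure.prod_prod]
    exact ENNReal.mul_lt_top (by simp) (by simp)
  refine Integrable.of_bound (hF.aestronglyMeasurable hm) B ?_
  rw [ae_restrict_iff' hm]
  exact Filter.Eventually.of_forall fun p hp => hB p hp

theorem coercive {N : ℕ} (hN : 1 ≤ N) {lam R : ℝ} (hR : 0 < R)
    (hpos : ∀ r ∈ Icc 0 R, 0 < besselH N (lam * r ^ 2 / 4))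
    {f : ℂ → ℝ} (hf : ContDiff ℝ 1 f) (hsupp : ∀ z, R ≤ ‖z‖ → f z = 0)
    (hrot : ∀ z, f (Complex.exp ((2 * π / N : ℝ) * Complex.I) * z) = f z)
    (hmean : ∀ r : ℝ, 0 ≤ r →
      ∫ θ in (-π)..π, f (r * Complex.exp (θ * Complex.I)) = 0) :
    lam * ∫ z, f z ^ 2 ≤ ∫ z, ((fderiv ℝ f z 1) ^ 2 + (fderiv ℝ f z Complex.I) ^ 2) := by
  set D : ℂ → ℂ →L[ℝ] ℝ := fun z => fderiv ℝ f z with hD
  have hDc : Continuous D := hf.continuous_fderiv one_ne_zero
  have hdiff : ∀ z, HasFDerivAt f (D z) z := fun z =>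
    (hf.differentiable (by norm_num) z).hasFDerivAt
  -- polar functions
  set u : ℝ × ℝ → ℝ := fun p => f (pol p) with hu
  set A : ℝ × ℝ → ℝ := fun p => D (pol p) (uv p.2) with hA
  set B : ℝ × ℝ → ℝ := fun p => D (pol p) (Complex.I * uv p.2) with hB
  have huc : Continuous u := hf.continuous.comp continuous_pol
  have hAc : Continuous A := (hDc.comp continuous_pol).clm_apply (continuous_uv.comp continuous_snd)
  have hBc : Continuous B := (hDc.comp continuous_pol).clm_apply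
    (continuous_const.mul (continuous_uv.comp continuous_snd))
  have hur : ∀ r θ, HasDerivAt (fun r => u (r, θ)) (A (r, θ)) r := by
    intro r θ
    exact (hdiff (pol (r, θ))).comp_hasDerivAt r (hasDerivAt_pol_fst r θ)
  have huθ : ∀ r θ, HasDerivAt (fun θ => u (r, θ)) (r * B (r, θ)) θ := by
    intro r θ
    have h := (hdiff (pol (r, θ))).comp_hasDerivAt θ (hasDerivAt_pol_snd r θ)
    have e : D (pol (r, θ)) ((r : ℂ) * (Complex.I * uv θ)) = r * B (r, θ) := by
      have e1 : (r : ℂ) * (Complex.I * uv θ) = r • (Complex.I * uv θ) := by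
        rw [Complex.real_smul]
      rw [e1, map_smul, smul_eq_mul]
    rw [e] at h
    exact h
  have hgrad : ∀ p : ℝ × ℝ, (D (pol p) 1) ^ 2 + (D (pol p) Complex.I) ^ 2 = A p ^ 2 + B p ^ 2 :=
    fun p => (sq_add_sq_rot (D (pol p)) p.2).symm
  -- vanishing
  have hf0 : f 0 = 0 := by
    have h := hmean 0 (le_refl _)
    simp only [Complex.ofReal_zero, zero_mul, intervalIntegral.integral_const, smul_eq_mul] at h
    have h2 : (π - -π) ≠ 0 := by
      have := pi_pos
      linarith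
    exact (mul_eq_zero.1 h).resolve_left h2
  have hu0 : ∀ θ, u (0, θ) = 0 := by
    intro θ
    simp only [hu, pol, Complex.ofReal_zero, zero_mul]
    exact hf0
  have huR : ∀ θ, u (R, θ) = 0 := by
    intro θ
    apply hsupp
    rw [norm_pol, abs_of_pos hR]
  have hD0 : ∀ z, R < ‖z‖ → D z = 0 := by
    intro z hz
    have h1 : f =ᶠ[nhds z] fun _ => (0 : ℝ) := by
      have h2 : ∀ᶠ y in nhds z, R < ‖y‖ := (isOpen_lt continuous_const continuous_norm).mem_nhds hz
      filter_upwards [h2] with y hy using hsupp y hy.le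
    simp only [hD]
    rw [h1.fderiv_eq]
    simp
  set S : Set (ℝ × ℝ) := Ioc (0 : ℝ) R ×ˢ Ioo (-π) π with hS
  -- bounds
  obtain ⟨C, hC⟩ := ((isCompact_Icc (a := (0 : ℝ)) (b := R)).prod
    (isCompact_Icc (a := -π) (b := π))).exists_bound_of_continuousOn hAc.continuousOn
  obtain ⟨C', hC'⟩ := ((isCompact_Icc (a := (0 : ℝ)) (b := R)).prod
    (isCompact_Icc (a := -π) (b := π))).exists_bound_of_continuousOn hBc.continuousOn
  have hbox : ∀ p ∈ S, p ∈ Icc (0 : ℝ) R ×ˢ Icc (-π) π := by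
    rintro ⟨r, θ⟩ ⟨h1, h2⟩
    exact ⟨Ioc_subset_Icc_self h1, Ioo_subset_Icc_self h2⟩
  have hCu : ∀ p ∈ S, |u p| ≤ C * p.1 := by
    rintro ⟨r, θ⟩ ⟨h1, h2⟩
    have h := (convex_Icc (0 : ℝ) r).norm_image_sub_le_of_norm_hasDerivWithin_le
      (f := fun r => u (r, θ)) (f' := fun r => A (r, θ)) (C := C) (x := 0) (y := r)
      (fun x _ => (hur x θ).hasDerivWithinAt)
      (fun x hx => hC (x, θ) ⟨⟨hx.1, hx.2.trans h1.2⟩, Ioo_subset_Icc_self h2⟩)
      (left_mem_Icc.2 h1.1.le) (right_mem_Icc.2 h1.1.le)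
    simp only [hu0, sub_zero, Real.norm_eq_abs, abs_of_pos h1.1] at h
    exact h
  have hC0 : 0 ≤ C := (norm_nonneg _).trans
    (hC (0, 0) ⟨⟨le_refl _, hR.le⟩, ⟨by linarith [pi_pos], pi_pos.le⟩⟩)
  have hC'0 : 0 ≤ C' := (norm_nonneg _).trans
    (hC' (0, 0) ⟨⟨le_refl _, hR.le⟩, ⟨by linarith [pi_pos], pi_pos.le⟩⟩)
  have hne : ∀ p ∈ S, p.1 ≠ 0 := fun p hp => hp.1.1.ne'
  -- integrability of the elementary pieces
  have hIA : IntegrableOn (fun p : ℝ × ℝ => p.1 * A p ^ 2) S (volume.prod volume) := by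
    refine integrableOn_box (B := R * C ^ 2) (continuous_fst.mul (hAc.pow 2)).continuousOn ?_
    intro p hp
    rw [abs_mul, abs_pow, abs_of_pos hp.1.1]
    have h1 := hC p (hbox p hp)
    rw [Real.norm_eq_abs] at h1
    have h2 := hp.1.2
    gcongr
  have hIB : IntegrableOn (fun p : ℝ × ℝ => p.1 * B p ^ 2) S (volume.prod volume) := by
    refine integrableOn_box (B := R * C' ^ 2) (continuous_fst.mul (hBc.pow 2)).continuousOn ?_
    intro p hp
    rw [abs_mul, abs_pow, abs_of_pos hp.1.1]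
    have h1 := hC' p (hbox p hp)
    rw [Real.norm_eq_abs] at h1
    have h2 := hp.1.2
    gcongr
  have hIu : IntegrableOn (fun p : ℝ × ℝ => p.1 * u p ^ 2) S (volume.prod volume) := by
    refine integrableOn_box (B := R * (C * R) ^ 2) (continuous_fst.mul (huc.pow 2)).continuousOn ?_
    intro p hp
    rw [abs_mul, abs_pow, abs_of_pos hp.1.1]
    have h1 := hCu p hp
    have h2 := hp.1.2
    have h3 : |u p| ≤ C * R := h1.trans (by gcongr)
    gcongr
  have hIv : IntegrableOn (fun p : ℝ × ℝ => u p ^ 2 / p.1) S (volume.prod volume) := by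
    refine integrableOn_box (B := C ^ 2 * R)
      ((huc.pow 2).continuousOn.div continuousOn_fst hne) ?_
    intro p hp
    have hp0 : 0 < p.1 := hp.1.1
    rw [abs_div, abs_pow, abs_of_pos hp0, div_le_iff₀ hp0]
    have h1 := hCu p hp
    have h2 := hp.1.2
    calc |u p| ^ 2 ≤ (C * p.1) ^ 2 := pow_le_pow_left₀ (abs_nonneg _) h1 2
      _ = C ^ 2 * p.1 * p.1 := by ring
      _ ≤ C ^ 2 * R * p.1 := by gcongr
  -- reduce to the box
  have e1 : ∫ z, f z ^ 2 = ∫ p in S, p.1 * u p ^ 2 := by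
    rw [polar_integral (R := R) (F := fun z => f z ^ 2)]
    intro z hz
    rw [hsupp z hz.le]; norm_num
  have e2 : ∫ z, ((fderiv ℝ f z 1) ^ 2 + (fderiv ℝ f z Complex.I) ^ 2) =
      ∫ p in S, p.1 * (A p ^ 2 + B p ^ 2) := by
    have h1 := polar_integral (R := R) (F := fun z => (D z 1) ^ 2 + (D z Complex.I) ^ 2) (by
      intro z hz
      rw [hD0 z hz]; simp)
    simp_rw [hgrad] at h1
    exact h1
  rw [e1, e2]
  -- F1 and F2
  set F1 : ℝ × ℝ → ℝ := fun p =>
    p.1 * A p ^ 2 + (N : ℝ) ^ 2 * u p ^ 2 / p.1 - lam * p.1 * u p ^ 2 with hF1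
  set F2 : ℝ × ℝ → ℝ := fun p => p.1 * B p ^ 2 - (N : ℝ) ^ 2 * u p ^ 2 / p.1 with hF2
  have hI1 : IntegrableOn F1 S (volume.prod volume) := by
    have h := (hIA.add (hIv.const_mul ((N : ℝ) ^ 2))).sub (hIu.const_mul lam)
    refine h.congr_fun ?_ (measurableSet_Ioc.prod measurableSet_Ioo)
    intro p _
    simp only [hF1, Pi.add_apply, Pi.sub_apply]
    ring
  have hI2 : IntegrableOn F2 S (volume.prod volume) := by
    have h := hIB.sub (hIv.const_mul ((N : ℝ) ^ 2))
    refine h.congr_fun ?_ (measurableSet_Ioc.prod measurableSet_Ioo)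
    intro p _
    simp only [hF2, Pi.sub_apply]
    ring
  have hsum : (∫ p in S, p.1 * (A p ^ 2 + B p ^ 2)) - lam * (∫ p in S, p.1 * u p ^ 2) =
      (∫ p in S, F1 p) + (∫ p in S, F2 p) := by
    have h1 : (∫ p in S, F1 p) + (∫ p in S, F2 p) = ∫ p in S, (F1 p + F2 p) :=
      (integral_add hI1 hI2).symm
    rw [h1, ← integral_const_mul, ← integral_sub]
    · congr 1
      ext p
      simp only [hF1, hF2]
      ring
    · have h := hIA.add hIB
      refine h.congr_fun ?_ (measurableSet_Ioc.prod measurableSet_Ioo)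
      intro p _
      simp only [Pi.add_apply]
      ring
    · exact hIu.const_mul lam
  have hpos1 : 0 ≤ ∫ p in S, F1 p := by
    have h1 : ∫ p in S, F1 p = ∫ θ in Ioo (-π) π, ∫ r in Ioc (0 : ℝ) R, F1 (r, θ) := by
      have h2 : Integrable F1 ((volume.restrict (Ioc (0 : ℝ) R)).prod
          (volume.restrict (Ioo (-π) π))) := by
        rw [Measure.prod_restrict]; exact hI1
      have h3 := integral_prod_symm F1 h2
      rw [Measure.prod_restrict] at h3
      exact h3
    rw [h1]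
    refine integral_nonneg fun θ => ?_
    have h2 := radial_ineq (N := N) (lam := lam) hR hpos (p := fun r => u (r, θ))
      (p' := fun r => A (r, θ)) (fun r => hur r θ) (hAc.comp (by fun_prop)) (hu0 θ) (huR θ)
    rw [intervalIntegral.integral_of_le hR.le] at h2
    exact h2
  have hpos2 : 0 ≤ ∫ p in S, F2 p := by
    have h1 : ∫ p in S, F2 p = ∫ r in Ioc (0 : ℝ) R, ∫ θ in Ioo (-π) π, F2 (r, θ) :=
      setIntegral_prod F2 hI2
    rw [h1]
    refine setIntegral_nonneg measurableSet_Ioc fun r hr => ?_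
    have hr0 : 0 < r := hr.1
    have hper : ∀ θ, u (r, θ + 2 * π / N) = u (r, θ) := by
      intro θ
      have h2 := hrot (pol (r, θ))
      have h3 : Complex.exp ((2 * π / N : ℝ) * Complex.I) * pol (r, θ) =
          pol (r, θ + 2 * π / N) := by
        simp only [pol, uv]
        rw [Complex.ofReal_add, add_mul, Complex.exp_add]
        ring
      rw [h3] at h2
      exact h2
    have hm : ∫ θ in (-π)..π, u (r, θ) = 0 := hmean r hr0.le
    have h2 := wirtinger_periodic hN (g := fun θ => u (r, θ)) (g' := fun θ => r * B (r, θ))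
      (fun θ => huθ r θ) (continuous_const.mul (hBc.comp (by fun_prop))) hper hm
    have h3 : ∫ θ in Ioo (-π) π, F2 (r, θ) = ∫ θ in (-π)..π, F2 (r, θ) := by
      rw [intervalIntegral.integral_of_le (by linarith [pi_pos]), integral_Ioc_eq_integral_Ioo]
    have hcu : Continuous fun θ => u (r, θ) := huc.comp (by fun_prop)
    have hcB : Continuous fun θ => B (r, θ) := hBc.comp (by fun_prop)
    have h4 : ∫ θ in (-π)..π, F2 (r, θ) =
        r⁻¹ * ((∫ θ in (-π)..π, (r * B (r, θ)) ^ 2) -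
          (N : ℝ) ^ 2 * ∫ θ in (-π)..π, (u (r, θ)) ^ 2) := by
      rw [← intervalIntegral.integral_const_mul, ← intervalIntegral.integral_sub,
        ← intervalIntegral.integral_const_mul]
      · congr 1
        ext θ
        simp only [hF2]
        field_simp
      · exact ((continuous_const.mul hcB).pow 2).intervalIntegrable _ _
      · exact (continuous_const.mul (hcu.pow 2)).intervalIntegrable _ _
    rw [h3, h4]
    exact mul_nonneg (inv_nonneg.2 hr0.le) (by linarith)
  linarith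

end Pool.Agent.MP_83fd13_an.NFold
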