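import Mathlib

/-!
Differences under rotations are controlled by the gradient.
-/

namespace Pool.Agent.MP_83fd13_an.NFold

open MeasureTheory Set Real

private noncomputable def G (f : ℂ → ℝ) (z : ℂ) : ℝ :=
  (fderiv ℝ f z 1) ^ 2 + (fderiv ℝ f z Complex.I) ^ 2

private lemma G_nonneg (f : ℂ → ℝ) (z : ℂ) : 0 ≤ G f z := by
  unfold G; positivity

private lemma G_cont {f : ℂ → ℝ} (hf : ContDiff ℝ 1 f) : Continuous (G f) := by
  unfold G
  have h := hf.continuous_fderiv (by norm_num)
  exact ((h.clm_apply continuous_const).pow 2).add ((h.clm_apply continuous_const).pow 2)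

private lemma G_zero {R : ℝ} {f : ℂ → ℝ}
    (hsupp : ∀ z, R < ‖z‖ → f z = 0) {z : ℂ} (hz : R < ‖z‖) : G f z = 0 := by
  have : f =ᶠ[nhds z] fun _ => (0 : ℝ) := by
    have ho : IsOpen {w : ℂ | R < ‖w‖} := isOpen_lt continuous_const continuous_norm
    filter_upwards [ho.mem_nhds hz] with w hw using hsupp w hw
  have h2 : fderiv ℝ f z = 0 := by
    rw [this.fderiv_eq]; simp
  simp [G, h2]

private lemma fderiv_sq_le (f : ℂ → ℝ) (z v : ℂ) :
    (fderiv ℝ f z v) ^ 2 ≤ ‖v‖ ^ 2 * G f z := by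
  have hv : v = v.re • (1 : ℂ) + v.im • Complex.I := by
    apply Complex.ext <;> simp
  have h1 : fderiv ℝ f z v = v.re * fderiv ℝ f z 1 + v.im * fderiv ℝ f z Complex.I := by
    conv_lhs => rw [hv]
    simp only [map_add, map_smul, smul_eq_mul]
  have h2 : ‖v‖ ^ 2 = v.re ^ 2 + v.im ^ 2 := by
    rw [← Complex.normSq_eq_norm_sq, Complex.normSq_apply]; ring
  rw [h1, h2, G]
  nlinarith [sq_nonneg (v.re * fderiv ℝ f z Complex.I - v.im * fderiv ℝ f z 1)]

private lemma norm_rot (t : ℝ) (z : ℂ) : ‖Complex.exp (t * Complex.I) * z‖ = ‖z‖ := by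
  rw [norm_mul, Complex.norm_exp_ofReal_mul_I, one_mul]

private lemma hasDeriv {f : ℂ → ℝ} (hf : ContDiff ℝ 1 f) (b : ℝ) (z : ℂ) (s : ℝ) :
    HasDerivAt (fun s : ℝ => f (Complex.exp ((b * s : ℝ) * Complex.I) * z))
      (fderiv ℝ f (Complex.exp ((b * s : ℝ) * Complex.I) * z)
        (Complex.exp ((b * s : ℝ) * Complex.I) * (b * Complex.I) * z)) s := by
  have h1 : HasDerivAt (fun s : ℝ => Complex.exp ((b * s : ℝ) * Complex.I) * z)
      (Complex.exp ((b * s : ℝ) * Complex.I) * (b * Complex.I) * z) s := by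
    have h0 : HasDerivAt (fun s : ℝ => ((b * s : ℝ) : ℂ) * Complex.I) (b * Complex.I) s := by
      have : HasDerivAt (fun s : ℝ => b * s) b s := by
        simpa using (hasDerivAt_id s).const_mul b
      exact (this.ofReal_comp).mul_const Complex.I
    exact (h0.cexp).mul_const z
  have h2 : HasFDerivAt f (fderiv ℝ f (Complex.exp ((b * s : ℝ) * Complex.I) * z))
      (Complex.exp ((b * s : ℝ) * Complex.I) * z) :=
    (hf.differentiable (by norm_num)).differentiableAt.hasFDerivAt
  exact h2.comp_hasDerivAt s h1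

private lemma pointwise {R : ℝ} {f : ℂ → ℝ} (hf : ContDiff ℝ 1 f)
    (hsupp : ∀ z, R < ‖z‖ → f z = 0) (b : ℝ) (z : ℂ) :
    (f (Complex.exp (b * Complex.I) * z) - f z) ^ 2 ≤
      ∫ s in (0:ℝ)..1, (b * R) ^ 2 * G f (Complex.exp ((b * s : ℝ) * Complex.I) * z) := by
  set g : ℝ → ℝ := fun s => f (Complex.exp ((b * s : ℝ) * Complex.I) * z) with hg
  set g' : ℝ → ℝ := fun s => fderiv ℝ f (Complex.exp ((b * s : ℝ) * Complex.I) * z)
        (Complex.exp ((b * s : ℝ) * Complex.I) * (b * Complex.I) * z) with hg'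
  have hce : Continuous fun s : ℝ => Complex.exp ((b * s : ℝ) * Complex.I) := by fun_prop
  have hcg' : Continuous g' := by
    have h := hf.continuous_fderiv (by norm_num)
    apply (h.comp (hce.mul continuous_const)).clm_apply
    exact (hce.mul continuous_const).mul continuous_const
  have hint : ∫ s in (0:ℝ)..1, g' s = g 1 - g 0 :=
    intervalIntegral.integral_eq_sub_of_hasDerivAt (fun s _ => hasDeriv hf b z s)
      (hcg'.intervalIntegrable _ _)
  have hg1 : g 1 - g 0 = f (Complex.exp (b * Complex.I) * z) - f z := by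
    simp [hg]
  rw [← hg1, ← hint]
  set m := ∫ s in (0:ℝ)..1, g' s with hm
  have hvar : 0 ≤ ∫ s in (0:ℝ)..1, (g' s - m) ^ 2 := by
    apply intervalIntegral.integral_nonneg (by norm_num)
    intro s _; positivity
  have hexp : ∫ s in (0:ℝ)..1, (g' s - m) ^ 2 = (∫ s in (0:ℝ)..1, g' s ^ 2) - m ^ 2 := by
    have e1 : (fun s => (g' s - m) ^ 2) = fun s => (g' s ^ 2 - 2 * m * g' s) + m ^ 2 := by
      ext s; ring
    rw [e1, intervalIntegral.integral_add, intervalIntegral.integral_sub,
      intervalIntegral.integral_const_mul, ← hm]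
    · simp; ring
    · exact (hcg'.pow 2).intervalIntegrable _ _
    · exact (continuous_const.mul hcg').intervalIntegrable _ _
    · exact ((hcg'.pow 2).sub (continuous_const.mul hcg')).intervalIntegrable _ _
    · exact continuous_const.intervalIntegrable _ _
  have h3 : m ^ 2 ≤ ∫ s in (0:ℝ)..1, g' s ^ 2 := by linarith
  refine h3.trans ?_
  apply intervalIntegral.integral_mono_on (by norm_num)
  · exact (hcg'.pow 2).intervalIntegrable _ _
  · exact (continuous_const.mul ((G_cont hf).comp (hce.mul continuous_const))).intervalIntegrable _ _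
  intro s _
  have h4 := fderiv_sq_le f (Complex.exp ((b * s : ℝ) * Complex.I) * z)
        (Complex.exp ((b * s : ℝ) * Complex.I) * (b * Complex.I) * z)
  have h5 : ‖Complex.exp ((b * s : ℝ) * Complex.I) * (b * Complex.I) * z‖ = |b| * ‖z‖ := by
    rw [norm_mul, norm_mul, Complex.norm_exp_ofReal_mul_I]; simp
  rw [h5] at h4
  refine h4.trans ?_
  rcases lt_or_ge R ‖z‖ with hz | hz
  · have : G f (Complex.exp ((b * s : ℝ) * Complex.I) * z) = 0 :=
      G_zero hsupp (by rw [norm_rot]; exact hz)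
    rw [this]; simp
  · apply mul_le_mul_of_nonneg_right _ (G_nonneg _ _)
    have : (|b| * ‖z‖) ^ 2 = b ^ 2 * ‖z‖ ^ 2 := by rw [mul_pow, sq_abs]
    rw [this, mul_pow]
    gcongr

private lemma rot_invariant (t : ℝ) (h : ℂ → ℝ) :
    ∫ z, h (Complex.exp (t * Complex.I) * z) = ∫ z, h z := by
  have hc : ‖Complex.exp (t * Complex.I)‖ = 1 := Complex.norm_exp_ofReal_mul_I t
  set c : Circle := Circle.exp t with hcdef
  have hcc : (c : ℂ) = Complex.exp (t * Complex.I) := by simp [hcdef, Circle.coe_exp]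
  have := (rotation c).measurePreserving.integral_comp
    (rotation c).toHomeomorph.measurableEmbedding h
  rw [← this]
  congr 1

theorem rotation_diff {R : ℝ} (hR : 0 ≤ R) {f : ℂ → ℝ} (hf : ContDiff ℝ 1 f)
    (hsupp : ∀ z, R < ‖z‖ → f z = 0) (b : ℝ) :
    ∫ z, (f (Complex.exp (b * Complex.I) * z) - f z) ^ 2 ≤
      (b * R) ^ 2 * ∫ z, ((fderiv ℝ f z 1) ^ 2 + (fderiv ℝ f z Complex.I) ^ 2) := by
  have hG : ∀ z, ((fderiv ℝ f z 1) ^ 2 + (fderiv ℝ f z Complex.I) ^ 2) = G f z := fun z => rfl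
  simp_rw [hG]
  set H : ℝ → ℂ → ℝ := fun s z => (b * R) ^ 2 * G f (Complex.exp ((b * s : ℝ) * Complex.I) * z)
    with hH
  have hHcont : Continuous (Function.uncurry H) := by
    have : Continuous fun p : ℝ × ℂ => Complex.exp ((b * p.1 : ℝ) * Complex.I) * p.2 := by
      fun_prop
    exact continuous_const.mul ((G_cont hf).comp this)
  have hHint : Integrable (Function.uncurry H)
      ((volume.restrict (Ioc (0:ℝ) 1)).prod (volume : Measure ℂ)) := by
    have hcomp : IsCompact (Icc (0:ℝ) 1 ×ˢ Metric.closedBall (0:ℂ) R) :=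
      isCompact_Icc.prod (isCompact_closedBall _ _)
    have h1 : IntegrableOn (Function.uncurry H) (Icc (0:ℝ) 1 ×ˢ Metric.closedBall (0:ℂ) R)
        (volume.prod volume) := hHcont.continuousOn.integrableOn_compact hcomp
    have h2 : IntegrableOn (Function.uncurry H) (Ioc (0:ℝ) 1 ×ˢ Metric.closedBall (0:ℂ) R)
        (volume.prod volume) :=
      h1.mono_set (Set.prod_mono Ioc_subset_Icc_self le_rfl)
    have h3 : IntegrableOn (Function.uncurry H) (Ioc (0:ℝ) 1 ×ˢ (Set.univ : Set ℂ))
        (volume.prod volume) := by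
      refine h2.of_forall_sdiff_eq_zero (measurableSet_Ioc.prod MeasurableSet.univ) ?_
      rintro ⟨s, z⟩ ⟨hp, hn⟩
      have hz : R < ‖z‖ := by
        by_contra hle
        apply hn
        refine ⟨hp.1, ?_⟩
        simpa using not_lt.mp hle
      show (b * R) ^ 2 * G f (Complex.exp ((b * s : ℝ) * Complex.I) * z) = 0
      rw [G_zero hsupp (by rw [norm_rot]; exact hz), mul_zero]
    have h4 : (volume.restrict (Ioc (0:ℝ) 1)).prod (volume : Measure ℂ) =
        (volume.prod volume).restrict (Ioc (0:ℝ) 1 ×ˢ (Set.univ : Set ℂ)) := by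
      rw [← Measure.prod_restrict, Measure.restrict_univ]
    rw [h4]; exact h3
  have hpt : ∀ z, (f (Complex.exp (b * Complex.I) * z) - f z) ^ 2 ≤
      ∫ s in Ioc (0:ℝ) 1, H s z := by
    intro z
    have := pointwise hf hsupp b z
    rwa [intervalIntegral.integral_of_le zero_le_one] at this
  calc ∫ z, (f (Complex.exp (b * Complex.I) * z) - f z) ^ 2
      ≤ ∫ z, ∫ s in Ioc (0:ℝ) 1, H s z := by
        apply integral_mono_of_nonneg
        · exact Filter.Eventually.of_forall fun z => sq_nonneg _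
        · exact hHint.integral_prod_right
        · exact Filter.Eventually.of_forall hpt
    _ = ∫ s in Ioc (0:ℝ) 1, ∫ z, H s z := by
        rw [integral_integral_swap]
        exact hHint.swap
    _ = ∫ s in Ioc (0:ℝ) 1, (b * R) ^ 2 * ∫ z, G f z := by
        congr 1
        ext s
        rw [hH]
        simp only
        rw [integral_const_mul, rot_invariant]
    _ = (b * R) ^ 2 * ∫ z, G f z := by simp

end Pool.Agent.MP_83fd13_an.NFold
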