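import Mathlib

open MeasureTheory Set Filter Topology
open scoped ENNReal NNReal

noncomputable section

namespace Pool.Agent.MP_83fd13_an.NFold

/-- Cauchy-Schwarz with a weight of total mass one -/
lemma lintegral_weight_sq_le {h : ℂ → ℝ≥0∞} {f : ℂ → ℝ≥0∞} (hh : AEMeasurable h)
    (hf : AEMeasurable f) (h1 : ∫⁻ t, h t = 1) :
    (∫⁻ t, h t * f t) ^ 2 ≤ ∫⁻ t, h t * f t ^ 2 := by
  have hpq : (2 : ℝ).HolderConjugate 2 := by
    rw [Real.holderConjugate_iff]; norm_num
  have key := ENNReal.lintegral_mul_le_Lp_mul_Lq (volume : Measure ℂ) hpq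
    (f := fun t => h t ^ (1 / 2 : ℝ)) (g := fun t => h t ^ (1 / 2 : ℝ) * f t)
    (hh.pow_const _) ((hh.pow_const _).mul hf)
  have e1 : ∀ t, ((fun t => h t ^ (1 / 2 : ℝ)) * fun t => h t ^ (1 / 2 : ℝ) * f t) t
      = h t * f t := by
    intro t
    simp only [Pi.mul_apply]
    rw [← mul_assoc, ← ENNReal.rpow_add_of_nonneg _ _ (by norm_num) (by norm_num)]
    norm_num
  have e2 : ∀ t, (h t ^ (1 / 2 : ℝ)) ^ (2 : ℝ) = h t := by
    intro t
    rw [← ENNReal.rpow_mul]
    norm_num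
  have e3 : ∀ t, (h t ^ (1 / 2 : ℝ) * f t) ^ (2 : ℝ) = h t * f t ^ 2 := by
    intro t
    rw [ENNReal.mul_rpow_of_nonneg _ _ (by norm_num), e2]
    norm_num
  simp only [e1, e2, e3, h1] at key
  rw [ENNReal.one_rpow, one_mul] at key
  calc (∫⁻ t, h t * f t) ^ 2 ≤ ((∫⁻ t, h t * f t ^ 2) ^ (1 / 2 : ℝ)) ^ 2 := by gcongr
    _ = ∫⁻ t, h t * f t ^ 2 := by
      rw [← ENNReal.rpow_natCast, ← ENNReal.rpow_mul]
      norm_num

variable {F : Type*} [NormedAddCommGroup F] [NormedSpace ℝ F]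

/-- convolution with a kernel -/
def smear (η : ℂ → ℝ) (f : ℂ → F) (x : ℂ) : F := ∫ t, η (x - t) • f t

lemma lintegral_shift {η : ℂ → ℝ} (x : ℂ) :
    ∫⁻ t, ‖η (x - t)‖ₑ = ∫⁻ t, ‖η t‖ₑ :=
  lintegral_sub_left_eq_self (fun t => ‖η t‖ₑ) x

lemma lintegral_enorm_smear_sq_le {η : ℂ → ℝ} (hη : Continuous η)
    (h1 : ∫⁻ t, ‖η t‖ₑ = 1) {f : ℂ → F} (hf : AEStronglyMeasurable f) :
    ∫⁻ x, ‖smear η f x‖ₑ ^ 2 ≤ ∫⁻ x, ‖f x‖ₑ ^ 2 := by
  have step1 : ∀ x, ‖smear η f x‖ₑ ^ 2 ≤ ∫⁻ t, ‖η (x - t)‖ₑ * ‖f t‖ₑ ^ 2 := by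
    intro x
    have m1 : AEMeasurable (fun t => ‖η (x - t)‖ₑ) :=
      ((hη.comp (continuous_const.sub continuous_id)).enorm).measurable.aemeasurable
    calc ‖smear η f x‖ₑ ^ 2 ≤ (∫⁻ t, ‖η (x - t) • f t‖ₑ) ^ 2 := by
          gcongr
          exact enorm_integral_le_lintegral_enorm _
      _ = (∫⁻ t, ‖η (x - t)‖ₑ * ‖f t‖ₑ) ^ 2 := by simp_rw [enorm_smul]
      _ ≤ ∫⁻ t, ‖η (x - t)‖ₑ * ‖f t‖ₑ ^ 2 :=
          lintegral_weight_sq_le m1 hf.enorm (by rw [lintegral_shift, h1])
  calc ∫⁻ x, ‖smear η f x‖ₑ ^ 2 ≤ ∫⁻ x, ∫⁻ t, ‖η (x - t)‖ₑ * ‖f t‖ₑ ^ 2 := lintegral_mono step1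
    _ = ∫⁻ t, ∫⁻ x, ‖η (x - t)‖ₑ * ‖f t‖ₑ ^ 2 := by
        apply lintegral_lintegral_swap
        have ma : AEMeasurable (fun p : ℂ × ℂ => ‖η (p.1 - p.2)‖ₑ) (volume.prod volume) :=
          ((hη.comp (continuous_fst.sub continuous_snd)).enorm).measurable.aemeasurable
        have mb : AEMeasurable (fun p : ℂ × ℂ => ‖f p.2‖ₑ ^ 2) (volume.prod volume) :=
          (hf.enorm.pow_const 2).comp_quasiMeasurePreserving Measure.quasiMeasurePreserving_snd
        exact ma.mul mb
    _ = ∫⁻ t, ‖f t‖ₑ ^ 2 := by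
        apply lintegral_congr
        intro t
        rw [lintegral_mul_const]
        · have : ∫⁻ x, ‖η (x - t)‖ₑ = 1 := by
            rw [lintegral_sub_right_eq_self (fun x => ‖η x‖ₑ) t, h1]
          rw [this, one_mul]
        · exact ((hη.comp (continuous_id.sub continuous_const)).enorm).measurable

/-- `G` is the weak gradient of `v` on the plane -/
def IsWeakGradient (v : ℂ → ℝ) (G : ℂ → ℂ) : Prop :=
  ∀ f : ℂ → ℝ, ContDiff ℝ 1 f → HasCompactSupport f → ∀ e : ℂ,
    ∫ z, v z * fderiv ℝ f z e = - ∫ z, inner ℝ (G z) e * f z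

/-- a mollifier: smooth, compactly supported, nonnegative, of total mass one -/
structure IsMollifier (η : ℂ → ℝ) : Prop where
  smooth : ContDiff ℝ (⊤ : ℕ∞) η
  cc : HasCompactSupport η
  nonneg : ∀ x, 0 ≤ η x
  mass : ∫ x, η x = 1

lemma IsMollifier.lintegral {η : ℂ → ℝ} (h : IsMollifier η) : ∫⁻ t, ‖η t‖ₑ = 1 := by
  have hi : Integrable η := h.smooth.continuous.integrable_of_hasCompactSupport h.cc
  rw [← ofReal_integral_norm_eq_lintegral_enorm hi]
  have : ∫ x, ‖η x‖ = ∫ x, η x := by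
    congr 1
    ext x
    exact Real.norm_of_nonneg (h.nonneg x)
  rw [this, h.mass, ENNReal.ofReal_one]

/-- the function `t ↦ η (x - t)` is a legitimate test function -/
lemma contDiff_shift {η : ℂ → ℝ} (h : ContDiff ℝ (⊤ : ℕ∞) η) (x : ℂ) :
    ContDiff ℝ (⊤ : ℕ∞) (fun t => η (x - t)) :=
  h.comp (contDiff_const.sub contDiff_id)

lemma hasCompactSupport_shift {η : ℂ → ℝ} (h : HasCompactSupport η) (x : ℂ) :
    HasCompactSupport (fun t => η (x - t)) :=
  h.comp_homeomorph (Homeomorph.subLeft x)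

lemma fderiv_shift {η : ℂ → ℝ} (h : ContDiff ℝ (⊤ : ℕ∞) η) (x t v : ℂ) :
    fderiv ℝ (fun t => η (x - t)) t v = -(fderiv ℝ η (x - t) v) := by
  have h1 : HasFDerivAt (fun t => x - t) (-(ContinuousLinearMap.id ℝ ℂ)) t :=
    (hasFDerivAt_id t).const_sub x
  have h2 : HasFDerivAt η (fderiv ℝ η (x - t)) (x - t) :=
    ((h.differentiable (by simp)) (x - t)).hasFDerivAt
  have h3 := h2.comp t h1
  have h4 : HasFDerivAt (fun t => η (x - t)) ((fderiv ℝ η (x - t)).comp (-(ContinuousLinearMap.id ℝ ℂ))) t := h3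
  rw [h4.fderiv]
  simp

open scoped Convolution in
lemma smear_eq_convolution (η : ℂ → ℝ) (f : ℂ → F) :
    smear η f = (η ⋆[ContinuousLinearMap.lsmul ℝ ℝ, volume] f) := by
  funext x
  rw [convolution_eq_swap]
  rfl

lemma contDiff_smear {η : ℂ → ℝ} (h : IsMollifier η) {f : ℂ → F} (hf : LocallyIntegrable f) :
    ContDiff ℝ (⊤ : ℕ∞) (smear η f) := by
  rw [smear_eq_convolution]
  exact h.cc.contDiff_convolution_left _ h.smooth hf

open scoped Convolution in
lemma fderiv_smear {η : ℂ → ℝ} (h : IsMollifier η) {f : ℂ → ℝ} (hf : LocallyIntegrable f)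
    (x v : ℂ) :
    fderiv ℝ (smear η f) x v = ∫ t, fderiv ℝ η (x - t) v * f t := by
  have h1 := h.cc.hasFDerivAt_convolution_left (ContinuousLinearMap.lsmul ℝ ℝ)
    (h.smooth.of_le (by simp)) hf x
  rw [← smear_eq_convolution] at h1
  rw [h1.fderiv, convolution_eq_swap]
  rw [ContinuousLinearMap.integral_apply]
  · simp
  · have hc : HasCompactSupport (fderiv ℝ η) := h.cc.fderiv ℝ
    have hcont : Continuous (fderiv ℝ η) := h.smooth.continuous_fderiv (by simp)
    have := (hc.convolutionExists_left (ContinuousLinearMap.precompL ℂ (ContinuousLinearMap.lsmul ℝ ℝ)) hcont hf x).integrable_swap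
    exact this

lemma inner_smear {η : ℂ → ℝ} (h : IsMollifier η) {G : ℂ → ℂ} (hG : LocallyIntegrable G)
    (x v : ℂ) : inner ℝ (smear η G x) v = ∫ t, inner ℝ (G t) v * η (x - t) := by
  unfold smear
  rw [real_inner_comm, ← integral_inner]
  · congr 1
    ext t
    rw [inner_smul_right, real_inner_comm]
    ring
  · have := (hasCompactSupport_shift h.cc x)
    exact hG.integrable_smul_left_of_hasCompactSupport
      ((contDiff_shift h.smooth x).continuous) this

lemma fderiv_smear_eq_inner {η : ℂ → ℝ} (h : IsMollifier η) {ψ : ℂ → ℝ} {G : ℂ → ℂ}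
    (hψ : LocallyIntegrable ψ) (hG : LocallyIntegrable G) (hw : IsWeakGradient ψ G) (x v : ℂ) :
    fderiv ℝ (smear η ψ) x v = inner ℝ (smear η G x) v := by
  rw [fderiv_smear h hψ, inner_smear h hG]
  have h1 := hw (fun t => η (x - t)) ((contDiff_shift h.smooth x).of_le (by simp)) (hasCompactSupport_shift h.cc x) v
  simp_rw [fderiv_shift h.smooth] at h1
  have h2 : ∫ t, ψ t * -(fderiv ℝ η (x - t) v) = -∫ t, fderiv ℝ η (x - t) v * ψ t := by
    rw [← integral_neg]
    congr 1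
    ext t
    ring
  rw [h2] at h1
  linarith

/-- the unnormalised radial bump of radius `1 / (n + 1)` -/
def bmp (n : ℕ) (z : ℂ) : ℝ := Real.smoothTransition (1 - ((n + 1) * ‖z‖) ^ 2)

lemma contDiff_bmp (n : ℕ) : ContDiff ℝ (⊤ : ℕ∞) (bmp n) := by
  have h : ContDiff ℝ (⊤ : ℕ∞) (fun z : ℂ => 1 - ((n : ℝ) + 1) ^ 2 * ‖z‖ ^ 2) :=
    contDiff_const.sub (contDiff_const.mul (contDiff_norm_sq ℝ))
  have h2 := Real.smoothTransition.contDiff (n := (⊤ : ℕ∞)) |>.comp h
  convert! h2 using 1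
  ext z
  simp [bmp, mul_pow]

lemma bmp_nonneg (n : ℕ) (z : ℂ) : 0 ≤ bmp n z := Real.smoothTransition.nonneg _

lemma bmp_zero (n : ℕ) {z : ℂ} (hz : 1 / ((n : ℝ) + 1) ≤ ‖z‖) : bmp n z = 0 := by
  apply Real.smoothTransition.zero_of_nonpos
  have h : (1 : ℝ) ≤ (n + 1) * ‖z‖ := by
    rw [div_le_iff₀ (by positivity)] at hz
    linarith
  nlinarith

lemma bmp_norm {n : ℕ} {z w : ℂ} (h : ‖z‖ = ‖w‖) : bmp n z = bmp n w := by
  simp [bmp, h]

lemma hasCompactSupport_bmp (n : ℕ) : HasCompactSupport (bmp n) := by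
  apply HasCompactSupport.of_support_subset_isCompact (isCompact_closedBall (0 : ℂ) (1 / ((n : ℝ) + 1)))
  intro z hz
  rw [mem_closedBall_zero_iff]
  by_contra h
  exact hz (bmp_zero n (not_le.1 h).le)

lemma integral_bmp_pos (n : ℕ) : 0 < ∫ z, bmp n z := by
  refine (contDiff_bmp n).continuous.integral_pos_of_hasCompactSupport_nonneg_nonzero
    (hasCompactSupport_bmp n) (bmp_nonneg n) (x := 0) ?_
  simp [bmp]

/-- radial mollifiers -/
def eta (n : ℕ) (z : ℂ) : ℝ := bmp n z / ∫ z, bmp n z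

lemma isMollifier_eta (n : ℕ) : IsMollifier (eta n) where
  smooth := (contDiff_bmp n).div_const _
  cc := by
    have := (hasCompactSupport_bmp n).mul_right (f' := fun _ => (∫ z, bmp n z)⁻¹)
    exact this
  nonneg z := div_nonneg (bmp_nonneg n z) (integral_bmp_pos n).le
  mass := by
    unfold eta
    rw [integral_div, div_self (integral_bmp_pos n).ne']

lemma eta_norm {n : ℕ} {z w : ℂ} (h : ‖z‖ = ‖w‖) : eta n z = eta n w := by
  simp [eta, bmp_norm h]

lemma eta_zero (n : ℕ) {z : ℂ} (hz : 1 / ((n : ℝ) + 1) ≤ ‖z‖) : eta n z = 0 := by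
  simp [eta, bmp_zero n hz]

lemma integral_eta_shift {η : ℂ → ℝ} (h : IsMollifier η) (x : ℂ) : ∫ t, η (x - t) = 1 := by
  rw [integral_sub_left_eq_self η volume x, h.mass]

lemma smear_sub_le [CompleteSpace F] {η : ℂ → ℝ} (h : IsMollifier η) {r : ℝ} (hr : ∀ z, r ≤ ‖z‖ → η z = 0)
    {g : ℂ → F} (hg : Continuous g) {x : ℂ} {δ : ℝ}
    (hd : ∀ t, ‖x - t‖ < r → ‖g t - g x‖ ≤ δ) : ‖smear η g x - g x‖ ≤ δ := by
  have hc : HasCompactSupport (fun t => η (x - t)) := hasCompactSupport_shift h.cc x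
  have hcont : Continuous (fun t => η (x - t)) := (contDiff_shift h.smooth x).continuous
  have i0 : Integrable (fun t => η (x - t)) := hcont.integrable_of_hasCompactSupport hc
  have i1 : Integrable (fun t => η (x - t) • g t) :=
    (hcont.smul hg).integrable_of_hasCompactSupport hc.smul_right
  have i2 : Integrable (fun t => η (x - t) • g x) := i0.smul_const _
  have e : smear η g x - g x = ∫ t, η (x - t) • (g t - g x) := by
    simp_rw [smul_sub]
    rw [integral_sub i1 i2, integral_smul_const, integral_eta_shift h, one_smul]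
    rfl
  rw [e]
  calc ‖∫ t, η (x - t) • (g t - g x)‖ ≤ ∫ t, η (x - t) * δ := by
        apply norm_integral_le_of_norm_le (i0.mul_const δ)
        refine Eventually.of_forall fun t => ?_
        rw [norm_smul, Real.norm_of_nonneg (h.nonneg _)]
        by_cases ht : ‖x - t‖ < r
        · exact mul_le_mul_of_nonneg_left (hd t ht) (h.nonneg _)
        · rw [hr _ (not_lt.1 ht)]; simp
    _ = δ := by rw [integral_mul_const, integral_eta_shift h, one_mul]

lemma smear_eq_zero {η : ℂ → ℝ} {r R : ℝ} (hr : ∀ z, r ≤ ‖z‖ → η z = 0) {g : ℂ → F}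
    (hg : ∀ z, R < ‖z‖ → g z = 0) {x : ℂ} (hx : R + r ≤ ‖x‖) : smear η g x = 0 := by
  unfold smear
  have : (fun t => η (x - t) • g t) = fun _ => 0 := by
    funext t
    by_cases ht : R < ‖t‖
    · rw [hg t ht, smul_zero]
    · rw [hr (x - t) ?_, zero_smul]
      have := norm_sub_norm_le x t
      linarith [not_lt.1 ht]
  rw [this, integral_zero]

lemma eLpNorm_smear_le {η : ℂ → ℝ} (h : IsMollifier η) {f : ℂ → F} (hf : AEStronglyMeasurable f) :
    eLpNorm (smear η f) 2 volume ≤ eLpNorm f 2 volume := by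
  have e : ∀ g : ℂ → F, eLpNorm g 2 volume ^ 2 = ∫⁻ x, ‖g x‖ₑ ^ 2 := by
    intro g
    rw [eLpNorm_eq_lintegral_rpow_enorm_toReal (by norm_num) (by norm_num)]
    rw [← ENNReal.rpow_natCast, ← ENNReal.rpow_mul]
    norm_num
  have := lintegral_enorm_smear_sq_le h.smooth.continuous h.lintegral hf
  rw [← e, ← e] at this
  exact (ENNReal.pow_le_pow_left_iff (by norm_num)).1 this

lemma tendsto_smear_cc [CompleteSpace F] {g : ℂ → F} (hg : Continuous g) (hgc : HasCompactSupport g) :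
    Tendsto (fun n => eLpNorm (smear (eta n) g - g) 2 volume) atTop (𝓝 0) := by
  obtain ⟨R, hR⟩ := hgc.isCompact.isBounded.subset_closedBall (0 : ℂ)
  have hg0 : ∀ z, R < ‖z‖ → g z = 0 := by
    intro z hz
    by_contra h
    have := hR (subset_tsupport g (Function.mem_support.2 h))
    rw [mem_closedBall_zero_iff] at this
    linarith
  have huc : UniformContinuous g := hgc.uniformContinuous_of_continuous hg
  set B : Set ℂ := Metric.closedBall 0 (R + 1) with hB
  have hBm : MeasurableSet B := Metric.isClosed_closedBall.measurableSet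
  have hBf : volume B ≠ ⊤ := measure_closedBall_lt_top.ne
  rw [ENNReal.tendsto_nhds_zero]
  intro ε hε
  -- choose δ with δ * |B|^(1/2) ≤ ε
  obtain ⟨δ, hδ0, hδ⟩ : ∃ δ : ℝ, 0 < δ ∧ ENNReal.ofReal δ * volume B ^ (1 / 2 : ℝ) ≤ ε := by
    rcases eq_or_ne ε ⊤ with rfl | hεt
    · exact ⟨1, one_pos, le_top⟩
    have hV : volume B ^ (1 / 2 : ℝ) ≠ ⊤ := ENNReal.rpow_ne_top_of_nonneg (by norm_num) hBf
    set V := (volume B ^ (1 / 2 : ℝ)).toReal with hVd
    have hV0 : 0 ≤ V := ENNReal.toReal_nonneg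
    have hε0 : 0 < ε.toReal := ENNReal.toReal_pos hε.ne' hεt
    refine ⟨ε.toReal / (V + 1), by positivity, ?_⟩
    have hVe : volume B ^ (1 / 2 : ℝ) = ENNReal.ofReal V := (ENNReal.ofReal_toReal hV).symm
    rw [hVe, ← ENNReal.ofReal_mul (by positivity)]
    refine ENNReal.ofReal_le_of_le_toReal ?_
    rw [div_mul_eq_mul_div, div_le_iff₀ (by positivity)]
    nlinarith
  obtain ⟨r, hr0, hr⟩ := Metric.uniformContinuous_iff.1 huc δ hδ0
  obtain ⟨N, hN⟩ := exists_nat_one_div_lt (lt_min hr0 one_pos)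
  filter_upwards [eventually_ge_atTop N] with n hn
  have hn' : 1 / ((n : ℝ) + 1) < min r 1 := by
    refine lt_of_le_of_lt ?_ hN
    apply one_div_le_one_div_of_le (by positivity)
    have : (N : ℝ) ≤ n := by exact_mod_cast hn
    linarith
  have hn1 := (lt_min_iff.1 hn').1
  have hn2 := (lt_min_iff.1 hn').2
  have hb : ∀ x, ‖(smear (eta n) g - g) x‖ ≤ ‖B.indicator (fun _ => δ) x‖ := by
    intro x
    by_cases hx : x ∈ B
    · rw [indicator_of_mem hx, Real.norm_of_nonneg hδ0.le, Pi.sub_apply]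
      refine smear_sub_le (isMollifier_eta n) (fun z hz => eta_zero n hz) hg fun t ht => ?_
      rw [← dist_eq_norm]
      refine (hr ?_).le
      rw [dist_comm, dist_eq_norm]
      linarith
    · have hx' : R + 1 < ‖x‖ := by
        rw [hB, mem_closedBall_zero_iff] at hx
        exact not_le.1 hx
      rw [Pi.sub_apply, smear_eq_zero (fun z hz => eta_zero n hz) hg0 (by linarith),
        hg0 x (by linarith)]
      simp
  calc eLpNorm (smear (eta n) g - g) 2 volume
      ≤ eLpNorm (B.indicator (fun _ => δ)) 2 volume := eLpNorm_mono hb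
    _ = ENNReal.ofReal δ * volume B ^ (1 / 2 : ℝ) := by
        rw [eLpNorm_indicator_const hBm (by norm_num) (by norm_num), Real.enorm_of_nonneg hδ0.le]
        norm_num
    _ ≤ ε := hδ

lemma smear_sub' {η : ℂ → ℝ} (h : IsMollifier η) {f g : ℂ → F} (hf : LocallyIntegrable f)
    (hg : LocallyIntegrable g) : smear η (f - g) = smear η f - smear η g := by
  funext x
  have hc : HasCompactSupport (fun t => η (x - t)) := hasCompactSupport_shift h.cc x
  have hcont : Continuous (fun t => η (x - t)) := (contDiff_shift h.smooth x).continuous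
  unfold smear
  rw [Pi.sub_apply]
  simp_rw [Pi.sub_apply, smul_sub]
  exact integral_sub (hf.integrable_smul_left_of_hasCompactSupport hcont hc)
    (hg.integrable_smul_left_of_hasCompactSupport hcont hc)

lemma tendsto_smear_L2 [CompleteSpace F] {f : ℂ → F} (hf : MemLp f 2 volume) :
    Tendsto (fun n => eLpNorm (smear (eta n) f - f) 2 volume) atTop (𝓝 0) := by
  rw [ENNReal.tendsto_nhds_zero]
  intro ε hε
  have hε3 : ε / 3 ≠ 0 := (ENNReal.div_pos hε.ne' (by norm_num)).ne'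
  obtain ⟨g, hgc, hfg, hgcont, hgL⟩ :=
    hf.exists_hasCompactSupport_eLpNorm_sub_le (by norm_num) hε3
  have h1 := ENNReal.tendsto_nhds_zero.1 (tendsto_smear_cc hgcont hgc) (ε / 3)
    (ENNReal.div_pos hε.ne' (by norm_num))
  filter_upwards [h1] with n hn
  have lf : LocallyIntegrable f := hf.locallyIntegrable (by norm_num)
  have lg : LocallyIntegrable g := hgL.locallyIntegrable (by norm_num)
  have hm := isMollifier_eta n
  have e : smear (eta n) f - f = (smear (eta n) (f - g) + (smear (eta n) g - g)) - (f - g) := by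
    rw [smear_sub' hm lf lg]; abel
  have cont1 : Continuous (smear (eta n) (f - g)) :=
    (contDiff_smear hm (lf.sub lg)).continuous
  have cont2 : Continuous (smear (eta n) g) := (contDiff_smear hm lg).continuous
  calc eLpNorm (smear (eta n) f - f) 2 volume
      ≤ eLpNorm (smear (eta n) (f - g) + (smear (eta n) g - g)) 2 volume
          + eLpNorm (f - g) 2 volume := by
        rw [e]
        exact eLpNorm_sub_le (cont1.aestronglyMeasurable.add
          (cont2.sub hgcont).aestronglyMeasurable) (hf.1.sub hgL.1) (by norm_num)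
    _ ≤ (eLpNorm (smear (eta n) (f - g)) 2 volume + eLpNorm (smear (eta n) g - g) 2 volume)
          + eLpNorm (f - g) 2 volume := by
        gcongr
        exact eLpNorm_add_le cont1.aestronglyMeasurable
          (cont2.sub hgcont).aestronglyMeasurable (by norm_num)
    _ ≤ (ε / 3 + ε / 3) + ε / 3 := by
        gcongr
        exact (eLpNorm_smear_le hm (hf.1.sub hgL.1)).trans hfg
    _ = ε := ENNReal.add_thirds ε

end Pool.Agent.MP_83fd13_an.NFold
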