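import Pool.Agent.MP_83fd13_an.NFold3
import Pool.Agent.MP_83fd13_an.NFold4
import Pool.Agent.MP_83fd13_an.NFold5

/-!
Weak solutions on the plane, closure properties, energy identity, and passage to the limit in
the coercivity inequality and in the rotation difference bound.
-/

open MeasureTheory Set Filter Topology
open scoped ENNReal NNReal

noncomputable section

namespace Pool.Agent.MP_83fd13_an.NFold

/-- rotation by the angle `a` -/
def T (a : ℝ) (z : ℂ) : ℂ := Complex.exp (a * Complex.I) * z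

lemma T_norm (a : ℝ) (z : ℂ) : ‖T a z‖ = ‖z‖ := by
  rw [T, norm_mul, Complex.norm_exp_ofReal_mul_I, one_mul]

lemma T_add (a b : ℝ) (z : ℂ) : T a (T b z) = T (a + b) z := by
  simp only [T]
  rw [← mul_assoc, ← Complex.exp_add]
  push_cast
  ring_nf

lemma T_zero (z : ℂ) : T 0 z = z := by simp [T]

lemma T_neg (a : ℝ) (z : ℂ) : T a (T (-a) z) = z := by rw [T_add, add_neg_cancel, T_zero]

lemma T_neg' (a : ℝ) (z : ℂ) : T (-a) (T a z) = z := by rw [T_add, neg_add_cancel, T_zero]

lemma T_comm (a b : ℝ) (z : ℂ) : T a (T b z) = T b (T a z) := by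
  rw [T_add, T_add, add_comm]

/-- rotation as a linear isometry -/
def TL (a : ℝ) : ℂ ≃ₗᵢ[ℝ] ℂ := rotation (Circle.exp a)

lemma TL_apply (a : ℝ) (z : ℂ) : TL a z = T a z := by
  simp [TL, T, rotation_apply, Circle.coe_exp]

lemma T_mp (a : ℝ) : MeasurePreserving (T a) volume volume := by
  have := (TL a).measurePreserving
  have e : (TL a : ℂ → ℂ) = T a := funext fun z => TL_apply a z
  rwa [e] at this

lemma T_cont (a : ℝ) : Continuous (T a) := by unfold T; fun_prop

lemma T_homeo (a : ℝ) : ∃ e : ℂ ≃ₜ ℂ, ∀ z, e z = T a z :=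
  ⟨(TL a).toHomeomorph, fun z => TL_apply a z⟩

lemma T_emb (a : ℝ) : MeasurableEmbedding (T a) := by
  have := (TL a).toHomeomorph.measurableEmbedding
  have e : ((TL a).toHomeomorph : ℂ → ℂ) = T a := funext fun z => TL_apply a z
  rwa [e] at this

lemma T_contDiff (a : ℝ) {n : WithTop ℕ∞} : ContDiff ℝ n (T a) := by
  unfold T
  exact contDiff_const.mul contDiff_id

lemma integral_T {F : Type*} [NormedAddCommGroup F] [NormedSpace ℝ F] (a : ℝ) (f : ℂ → F) :
    ∫ z, f (T a z) = ∫ z, f z :=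
  (T_mp a).integral_comp (T_emb a) f

lemma T_hasFDerivAt (a : ℝ) (z : ℂ) :
    HasFDerivAt (T a) ((TL a).toContinuousLinearEquiv : ℂ →L[ℝ] ℂ) z := by
  have := ((TL a).toContinuousLinearEquiv : ℂ →L[ℝ] ℂ).hasFDerivAt (x := z)
  have e : (((TL a).toContinuousLinearEquiv : ℂ →L[ℝ] ℂ) : ℂ → ℂ) = T a :=
    funext fun z => TL_apply a z
  rwa [e] at this

lemma fderiv_T {f : ℂ → ℝ} (hf : Differentiable ℝ f) (a : ℝ) (z e : ℂ) :
    fderiv ℝ (fun z => f (T a z)) z e = fderiv ℝ f (T a z) (T a e) := by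
  have h := (hf (T a z)).hasFDerivAt.comp z (T_hasFDerivAt a z)
  have h2 : HasFDerivAt (fun z => f (T a z)) _ z := h
  rw [h2.fderiv]
  simp [TL_apply]

lemma T_add_vec (a : ℝ) (z w : ℂ) : T a (z + w) = T a z + T a w := by simp [T, mul_add]

lemma T_sub_vec (a : ℝ) (z w : ℂ) : T a (z - w) = T a z - T a w := by simp [T, mul_sub]

lemma T_smul_vec (a r : ℝ) (z : ℂ) : T a (r • z) = r • T a z := by
  simp only [T, Complex.real_smul]; ring

lemma T_inner (a : ℝ) (z w : ℂ) : inner ℝ (T a z) (T a w) = inner ℝ z w := by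
  rw [← TL_apply, ← TL_apply, LinearIsometryEquiv.inner_map_map]

lemma T_inner' (a : ℝ) (z w : ℂ) : inner ℝ (T (-a) z) w = inner ℝ z (T a w) := by
  rw [← T_inner a (T (-a) z) w, T_neg]

lemma T_memLp {F : Type*} [NormedAddCommGroup F] (a : ℝ) {f : ℂ → F} (hf : MemLp f 2 volume) :
    MemLp (fun z => f (T a z)) 2 volume :=
  hf.comp_measurePreserving (T_mp a)

/-- weak solutions on the plane, supported in a disc -/
structure WP (lam c R : ℝ) (v : ℂ → ℝ) (G : ℂ → ℂ) (h : ℂ → ℝ) : Prop where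
  mv : MemLp v 2 volume
  mG : MemLp G 2 volume
  mh : MemLp h 2 volume
  sv : ∀ z, R < ‖z‖ → v z = 0
  sG : ∀ z, R < ‖z‖ → G z = 0
  wg : IsWeakGradient v G
  eq : ∀ f : ℂ → ℝ, ContDiff ℝ 1 f → HasCompactSupport f →
    ∫ z, fderiv ℝ f z (G z) = lam * ∫ z, (v z + c * h z) * f z

lemma int_mul {v f : ℂ → ℝ} (hv : MemLp v 2 volume) (hf : Continuous f) (hc : HasCompactSupport f) :
    Integrable (fun z => v z * f z) :=
  (hv.locallyIntegrable (by norm_num)).integrable_smul_right_of_hasCompactSupport hf hc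

lemma int_inner {G : ℂ → ℂ} {f : ℂ → ℝ} (hG : MemLp G 2 volume) (e : ℂ) (hf : Continuous f)
    (hc : HasCompactSupport f) : Integrable (fun z => inner ℝ (G z) e * f z) := by
  have h1 := (hG.locallyIntegrable (by norm_num)).integrable_smul_left_of_hasCompactSupport hf hc
  have h2 := h1.inner_const (𝕜 := ℝ) e
  refine h2.congr (Eventually.of_forall fun z => ?_)
  simp only [real_inner_smul_left]
  ring

lemma cont_fd {f : ℂ → ℝ} (hf : ContDiff ℝ 1 f) (e : ℂ) : Continuous (fun z => fderiv ℝ f z e) :=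
  (hf.continuous_fderiv one_ne_zero).clm_apply continuous_const

lemma supp_fd {f : ℂ → ℝ} (hf : HasCompactSupport f) (e : ℂ) :
    HasCompactSupport (fun z => fderiv ℝ f z e) := hf.fderiv_apply (𝕜 := ℝ) e

lemma fderiv_coord (f : ℂ → ℝ) (z w : ℂ) :
    fderiv ℝ f z w = w.re * fderiv ℝ f z 1 + w.im * fderiv ℝ f z Complex.I := by
  have hw : w = w.re • (1 : ℂ) + w.im • Complex.I := by
    simp [Complex.re_add_im]
  conv_lhs => rw [hw]
  rw [map_add, map_smul, map_smul]
  simp

lemma int_fdG {G : ℂ → ℂ} {f : ℂ → ℝ} (hG : MemLp G 2 volume) (hf : ContDiff ℝ 1 f)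
    (hc : HasCompactSupport f) : Integrable (fun z => fderiv ℝ f z (G z)) := by
  have h1 := int_inner hG 1 (cont_fd hf 1) (supp_fd hc 1)
  have h2 := int_inner hG Complex.I (cont_fd hf Complex.I) (supp_fd hc Complex.I)
  refine (h1.add h2).congr (Eventually.of_forall fun z => ?_)
  have e1 : inner ℝ (G z) 1 = (G z).re := by simp [Complex.inner]
  have e2 : inner ℝ (G z) Complex.I = (G z).im := by simp [Complex.inner]
  simp only [Pi.add_apply, e1, e2]
  exact (fderiv_coord f z (G z)).symm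

variable {lam c R : ℝ} {v v' : ℂ → ℝ} {G G' : ℂ → ℂ} {h h' : ℂ → ℝ}

lemma WP.add (H : WP lam c R v G h) (H' : WP lam c R v' G' h') :
    WP lam c R (fun z => v z + v' z) (fun z => G z + G' z) (fun z => h z + h' z) where
  mv := H.mv.add H'.mv
  mG := H.mG.add H'.mG
  mh := H.mh.add H'.mh
  sv z hz := by simp [H.sv z hz, H'.sv z hz]
  sG z hz := by simp [H.sG z hz, H'.sG z hz]
  wg f hf hc e := by
    have i1 := int_mul H.mv (cont_fd hf e) (supp_fd hc e)
    have i2 := int_mul H'.mv (cont_fd hf e) (supp_fd hc e)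
    have i3 := int_inner H.mG e hf.continuous hc
    have i4 := int_inner H'.mG e hf.continuous hc
    simp_rw [inner_add_left, add_mul]
    rw [integral_add i1 i2, integral_add i3 i4, H.wg f hf hc e, H'.wg f hf hc e]
    ring
  eq f hf hc := by
    have i1 := int_fdG H.mG hf hc
    have i2 := int_fdG H'.mG hf hc
    have i3 := int_mul (H.mv.add (H.mh.const_mul c)) hf.continuous hc
    have i4 := int_mul (H'.mv.add (H'.mh.const_mul c)) hf.continuous hc
    have e : ∀ z, (v z + v' z + c * (h z + h' z)) * f z =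
      (v z + c * h z) * f z + (v' z + c * h' z) * f z := fun z => by ring
    simp_rw [map_add, e]
    rw [integral_add i1 i2, integral_add, H.eq f hf hc, H'.eq f hf hc]
    · ring
    · exact i3
    · exact i4

lemma WP.smul (H : WP lam c R v G h) (r : ℝ) :
    WP lam c R (fun z => r * v z) (fun z => r • G z) (fun z => r * h z) where
  mv := H.mv.const_mul r
  mG := H.mG.const_smul r
  mh := H.mh.const_mul r
  sv z hz := by simp [H.sv z hz]
  sG z hz := by simp [H.sG z hz]
  wg f hf hc e := by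
    have e1 : ∀ z, r * v z * fderiv ℝ f z e = r * (v z * fderiv ℝ f z e) := fun z => by ring
    have e2 : ∀ z, inner ℝ (r • G z) e * f z = r * (inner ℝ (G z) e * f z) := fun z => by
      rw [real_inner_smul_left]; ring
    simp_rw [e1, e2]
    rw [integral_const_mul, integral_const_mul, H.wg f hf hc e]
    ring
  eq f hf hc := by
    have e1 : ∀ z, (r * v z + c * (r * h z)) * f z = r * ((v z + c * h z) * f z) :=
      fun z => by ring
    have e2 : ∀ z, fderiv ℝ f z (r • G z) = r * fderiv ℝ f z (G z) := fun z => by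
      rw [map_smul, smul_eq_mul]
    simp_rw [e1, e2]
    rw [integral_const_mul, integral_const_mul, H.eq f hf hc]
    ring

lemma WP.sub (H : WP lam c R v G h) (H' : WP lam c R v' G' h') :
    WP lam c R (fun z => v z - v' z) (fun z => G z - G' z) (fun z => h z - h' z) := by
  have := H.add (H'.smul (-1))
  convert! this using 1
  · ext z; ring
  · ext z; simp [sub_eq_add_neg]
  · ext z; ring

lemma WP.rot (H : WP lam c R v G h) (a : ℝ) :
    WP lam c R (fun z => v (T a z)) (fun z => T (-a) (G (T a z))) (fun z => h (T a z)) where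
  mv := T_memLp a H.mv
  mG := by
    have := T_memLp a H.mG
    refine this.of_le ?_ (Eventually.of_forall fun z => (T_norm _ _).le)
    exact (T_cont (-a)).comp_aestronglyMeasurable this.1
  mh := T_memLp a H.mh
  sv z hz := H.sv _ (by rwa [T_norm])
  sG z hz := by
    rw [H.sG _ (by rwa [T_norm])]
    simp [T]
  wg f hf hc e := by
    have hf' : ContDiff ℝ 1 (fun z => f (T (-a) z)) := hf.comp (T_contDiff _)
    have hc' : HasCompactSupport (fun z => f (T (-a) z)) := by
      obtain ⟨e, he⟩ := T_homeo (-a)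
      have := hc.comp_homeomorph e
      convert! this using 1
      ext z; simp [he]
    have h1 := H.wg _ hf' hc' (T a e)
    simp_rw [fderiv_T (hf.differentiable one_ne_zero), T_neg'] at h1
    calc ∫ z, v (T a z) * fderiv ℝ f z e
        = ∫ z, (fun z => v z * fderiv ℝ f (T (-a) z) e) (T a z) := by
          simp only [T_neg']
      _ = ∫ z, v z * fderiv ℝ f (T (-a) z) e :=
          integral_T a (fun z => v z * fderiv ℝ f (T (-a) z) e)
      _ = -∫ z, inner ℝ (G z) (T a e) * f (T (-a) z) := h1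
      _ = -∫ z, (fun z => inner ℝ (G z) (T a e) * f (T (-a) z)) (T a z) := by
          rw [integral_T a (fun z => inner ℝ (G z) (T a e) * f (T (-a) z))]
      _ = _ := by simp only [T_neg', T_inner']
  eq f hf hc := by
    have hf' : ContDiff ℝ 1 (fun z => f (T (-a) z)) := hf.comp (T_contDiff _)
    have hc' : HasCompactSupport (fun z => f (T (-a) z)) := by
      obtain ⟨e, he⟩ := T_homeo (-a)
      have := hc.comp_homeomorph e
      convert! this using 1
      ext z; simp [he]
    have h1 := H.eq _ hf' hc'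
    simp_rw [fderiv_T (hf.differentiable one_ne_zero)] at h1
    calc ∫ z, fderiv ℝ f z (T (-a) (G (T a z)))
        = ∫ z, (fun z => fderiv ℝ f (T (-a) z) (T (-a) (G z))) (T a z) := by
          simp only [T_neg']
      _ = ∫ z, fderiv ℝ f (T (-a) z) (T (-a) (G z)) :=
          integral_T a (fun z => fderiv ℝ f (T (-a) z) (T (-a) (G z)))
      _ = lam * ∫ z, (v z + c * h z) * f (T (-a) z) := h1
      _ = lam * ∫ z, (fun z => (v z + c * h z) * f (T (-a) z)) (T a z) := by
          rw [integral_T a (fun z => (v z + c * h z) * f (T (-a) z))]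
      _ = _ := by simp only [T_neg']

lemma tendsto_inner_L2 {E : Type*} [NormedAddCommGroup E] [InnerProductSpace ℝ E]
    {f g : ℕ → ℂ → E} {f0 g0 : ℂ → E} (hf : ∀ n, MemLp (f n) 2 volume) (hf0 : MemLp f0 2 volume)
    (hg : ∀ n, MemLp (g n) 2 volume) (hg0 : MemLp g0 2 volume)
    (h1 : Tendsto (fun n => eLpNorm (f n - f0) 2 volume) atTop (𝓝 0))
    (h2 : Tendsto (fun n => eLpNorm (g n - g0) 2 volume) atTop (𝓝 0)) :
    Tendsto (fun n => ∫ z, inner ℝ (f n z) (g n z)) atTop (𝓝 (∫ z, inner ℝ (f0 z) (g0 z))) := by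
  have : Fact ((1 : ℝ≥0∞) ≤ 2) := ⟨by norm_num⟩
  have t1 := (Lp.tendsto_Lp_iff_tendsto_eLpNorm'' f hf f0 hf0).2 h1
  have t2 := (Lp.tendsto_Lp_iff_tendsto_eLpNorm'' g hg g0 hg0).2 h2
  have t3 := t1.inner (𝕜 := ℝ) t2
  have e : ∀ {a b : ℂ → E} (ha : MemLp a 2 volume) (hb : MemLp b 2 volume),
      inner ℝ (ha.toLp a) (hb.toLp b) = ∫ z, inner ℝ (a z) (b z) := by
    intro a b ha hb
    rw [L2.inner_def]
    apply integral_congr_ae
    filter_upwards [ha.coeFn_toLp, hb.coeFn_toLp] with z h1 h2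
    rw [h1, h2]
  simp_rw [e] at t3
  exact t3

end Pool.Agent.MP_83fd13_an.NFold
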