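import Pool.Agent.MP_83fd13_an.NFold6

/-!
Energy identity, rotation differences and coercivity for weak solutions on the plane.
-/

open MeasureTheory Set Filter Topology
open scoped ENNReal NNReal

noncomputable section

namespace Pool.Agent.MP_83fd13_an.NFold

section smear

variable {F : Type*} [NormedAddCommGroup F] [NormedSpace ℝ F]

lemma smear_T (n : ℕ) (a : ℝ) (f : ℂ → F) (x : ℂ) :
    smear (eta n) (fun z => f (T a z)) x = smear (eta n) f (T a x) := by
  unfold smear
  rw [← integral_T a (fun t => eta n (T a x - t) • f t)]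
  congr 1
  ext t
  rw [← T_sub_vec, eta_norm (T_norm a (x - t))]

lemma smear_cont (n : ℕ) {f : ℂ → F} (hf : MemLp f 2 volume) [CompleteSpace F] :
    ContDiff ℝ (⊤ : ℕ∞) (smear (eta n) f) :=
  contDiff_smear (isMollifier_eta n) (hf.locallyIntegrable (by norm_num))

lemma smear_zero (n : ℕ) {f : ℂ → F} {R : ℝ} (hf : ∀ z, R < ‖z‖ → f z = 0) {z : ℂ}
    (hz : R + 1 / ((n : ℝ) + 1) ≤ ‖z‖) : smear (eta n) f z = 0 :=
  smear_eq_zero (fun z hz => eta_zero n hz) hf hz

lemma smear_cs (n : ℕ) {f : ℂ → F} {R : ℝ} (hf : ∀ z, R < ‖z‖ → f z = 0) :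
    HasCompactSupport (smear (eta n) f) := by
  apply HasCompactSupport.of_support_subset_isCompact
    (isCompact_closedBall (0 : ℂ) (R + 1 / ((n : ℝ) + 1)))
  intro z hz
  rw [mem_closedBall_zero_iff]
  by_contra h
  exact hz (smear_zero n hf (not_le.1 h).le)

lemma smear_memLp (n : ℕ) {f : ℂ → F} (hf : MemLp f 2 volume) [CompleteSpace F] :
    MemLp (smear (eta n) f) 2 volume :=
  ⟨(smear_cont n hf).continuous.aestronglyMeasurable,
    (eLpNorm_smear_le (isMollifier_eta n) hf.1).trans_lt hf.2⟩

end smear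

variable {lam c R : ℝ} {v v' : ℂ → ℝ} {G G' : ℂ → ℂ} {h h' : ℂ → ℝ}

lemma WP.fderiv_smear (H : WP lam c R v G h) (n : ℕ) (x e : ℂ) :
    fderiv ℝ (smear (eta n) v) x e = inner ℝ (smear (eta n) G x) e :=
  fderiv_smear_eq_inner (isMollifier_eta n) (H.mv.locallyIntegrable (by norm_num))
    (H.mG.locallyIntegrable (by norm_num)) H.wg x e

lemma WP.grad_sq (H : WP lam c R v G h) (n : ℕ) (x : ℂ) :
    (fderiv ℝ (smear (eta n) v) x 1) ^ 2 + (fderiv ℝ (smear (eta n) v) x Complex.I) ^ 2 =
      inner ℝ (smear (eta n) G x) (smear (eta n) G x) := by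
  rw [H.fderiv_smear, H.fderiv_smear]
  simp only [Complex.inner]
  simp
  ring

/-- the energy identity -/
lemma WP.energy (H : WP lam c R v G h) :
    ∫ z, inner ℝ (G z) (G z) = lam * ∫ z, (v z + c * h z) * v z := by
  have t1 := tendsto_inner_L2 (f := fun n => smear (eta n) G) (g := fun _ => G)
    (fun n => smear_memLp n H.mG) H.mG (fun _ => H.mG) H.mG (tendsto_smear_L2 H.mG)
    (by simp)
  have hh : MemLp (fun z => v z + c * h z) 2 volume := H.mv.add (H.mh.const_mul c)
  have t2 := tendsto_inner_L2 (f := fun n => smear (eta n) v)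
    (g := fun _ => fun z => v z + c * h z)
    (fun n => smear_memLp n H.mv) H.mv (fun _ => hh) hh (tendsto_smear_L2 H.mv)
    (by simp)
  have e : ∀ n, ∫ z, inner ℝ (smear (eta n) G z) (G z) =
      lam * ∫ z, inner ℝ (smear (eta n) v z) (v z + c * h z) := by
    intro n
    have := H.eq (smear (eta n) v) ((smear_cont n H.mv).of_le (by simp)) (smear_cs n H.sv)
    simp_rw [H.fderiv_smear] at this
    rw [this]
    congr 1
  simp_rw [e] at t1
  have t3 := tendsto_nhds_unique t1 (t2.const_mul lam)
  rw [t3]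
  congr 1

/-- differences under rotations -/
lemma WP.rot_diff (H : WP lam c R v G h) (hR : 0 ≤ R) (b : ℝ) :
    ∫ z, (v (T b z) - v z) ^ 2 ≤ (b * R) ^ 2 * ∫ z, inner ℝ (G z) (G z) := by
  set d : ℂ → ℝ := fun z => v (T b z) - v z with hd
  have hdm : MemLp d 2 volume := (T_memLp b H.mv).sub H.mv
  have t1 := tendsto_inner_L2 (f := fun n => smear (eta n) G) (g := fun n => smear (eta n) G)
    (fun n => smear_memLp n H.mG) H.mG (fun n => smear_memLp n H.mG) H.mG (tendsto_smear_L2 H.mG)
    (tendsto_smear_L2 H.mG)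
  have t2 := tendsto_inner_L2 (f := fun n => smear (eta n) d) (g := fun n => smear (eta n) d)
    (fun n => smear_memLp n hdm) hdm (fun n => smear_memLp n hdm) hdm (tendsto_smear_L2 hdm)
    (tendsto_smear_L2 hdm)
  have t0 : Tendsto (fun n : ℕ => (b * (R + 1 / ((n : ℝ) + 1))) ^ 2) atTop (𝓝 ((b * (R + 0)) ^ 2)) :=
    ((tendsto_one_div_add_atTop_nhds_zero_nat.const_add R).const_mul b).pow 2
  rw [add_zero] at t0
  have t3 := t0.mul t1
  have e : ∀ n, ∫ z, inner ℝ (smear (eta n) d z) (smear (eta n) d z) ≤
      (b * (R + 1 / ((n : ℝ) + 1))) ^ 2 * ∫ z, inner ℝ (smear (eta n) G z) (smear (eta n) G z) := by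
    intro n
    have h1 := rotation_diff (R := R + 1 / ((n : ℝ) + 1)) (by positivity)
      (f := smear (eta n) v) ((smear_cont n H.mv).of_le (by simp))
      (fun z hz => smear_zero n H.sv hz.le) b
    simp_rw [H.grad_sq] at h1
    refine le_trans (le_of_eq ?_) h1
    congr 1
    ext z
    have h2 : smear (eta n) d = smear (eta n) (fun z => v (T b z)) - smear (eta n) v := by
      rw [← smear_sub' (isMollifier_eta n) ((T_memLp b H.mv).locallyIntegrable (by norm_num))
        (H.mv.locallyIntegrable (by norm_num))]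
      rfl
    rw [h2, Pi.sub_apply, smear_T]
    simp only [T, real_inner_self_eq_norm_sq, Real.norm_eq_abs, sq_abs]
  have := le_of_tendsto_of_tendsto' t2 t3 e
  refine le_trans (le_of_eq ?_) this
  congr 1
  ext z
  rw [real_inner_self_eq_norm_sq, Real.norm_eq_abs, sq_abs]

/-- coercivity -/
lemma WP.coer {w : ℂ → ℝ} {a : ℝ} (H : WP lam c R (fun z => w (T a z) - w z) G h) (hR : 0 ≤ R)
    (hw : MemLp w 2 volume) {N : ℕ} (hN : 1 ≤ N) (hrot : ∀ z, w (T (2 * Real.pi / N) z) = w z)
    {lam' R' : ℝ} (hRR : R < R')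
    (hpos : ∀ r ∈ Icc 0 R', 0 < besselH N (lam' * r ^ 2 / 4)) :
    lam' * ∫ z, (w (T a z) - w z) ^ 2 ≤ ∫ z, inner ℝ (G z) (G z) := by
  set d : ℂ → ℝ := fun z => w (T a z) - w z with hd
  have t1 := tendsto_inner_L2 (f := fun n => smear (eta n) G) (g := fun n => smear (eta n) G)
    (fun n => smear_memLp n H.mG) H.mG (fun n => smear_memLp n H.mG) H.mG (tendsto_smear_L2 H.mG)
    (tendsto_smear_L2 H.mG)
  have t2 := tendsto_inner_L2 (f := fun n => smear (eta n) d) (g := fun n => smear (eta n) d)
    (fun n => smear_memLp n H.mv) H.mv (fun n => smear_memLp n H.mv) H.mv (tendsto_smear_L2 H.mv)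
    (tendsto_smear_L2 H.mv)
  have hdrot : (fun z => d (T (2 * Real.pi / N) z)) = d := by
    ext z
    simp only [hd]
    rw [T_comm a, hrot, hrot]
  have hd2 : ∀ n, smear (eta n) d = smear (eta n) (fun z => w (T a z)) - smear (eta n) w := by
    intro n
    rw [← smear_sub' (isMollifier_eta n) ((T_memLp a hw).locallyIntegrable (by norm_num))
        (hw.locallyIntegrable (by norm_num))]
    rfl
  have hwc : ∀ n, Continuous (smear (eta n) w) := fun n => (smear_cont n hw).continuous
  have e : ∀ᶠ n : ℕ in atTop, lam' * ∫ z, inner ℝ (smear (eta n) d z) (smear (eta n) d z) ≤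
      ∫ z, inner ℝ (smear (eta n) G z) (smear (eta n) G z) := by
    obtain ⟨M, hM⟩ := exists_nat_one_div_lt (sub_pos.2 hRR)
    filter_upwards [eventually_ge_atTop M] with n hn
    have hn' : 1 / ((n : ℝ) + 1) < R' - R := by
      refine lt_of_le_of_lt ?_ hM
      apply one_div_le_one_div_of_le (by positivity)
      have : (M : ℝ) ≤ n := by exact_mod_cast hn
      linarith
    have h1 := coercive (N := N) hN (lam := lam') (R := R') (lt_of_le_of_lt hR hRR) hpos
      (f := smear (eta n) d) ((smear_cont n H.mv).of_le (by simp))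
      (fun z hz => smear_zero n H.sv (by linarith)) ?_ ?_
    · simp_rw [H.grad_sq] at h1
      refine le_trans (le_of_eq ?_) h1
      congr 2
      ext z
      rw [real_inner_self_eq_norm_sq, Real.norm_eq_abs, sq_abs]
    · intro z
      have := smear_T n (2 * Real.pi / N) d z
      rw [hdrot] at this
      rw [this]
      simp [T]
    · intro r hr
      set k : ℝ → ℝ := fun θ => smear (eta n) w (r * Complex.exp (θ * Complex.I)) with hk
      have hkc : Continuous k := by
        have := hwc n
        simp only [hk]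
        fun_prop
      have hkp : Function.Periodic k (2 * Real.pi) := by
        intro θ
        simp only [hk]
        congr 2
        push_cast
        rw [add_mul, Complex.exp_add]
        rw [show (2 * (Real.pi : ℂ)) * Complex.I = 2 * Real.pi * Complex.I from rfl,
          Complex.exp_two_pi_mul_I, mul_one]
      have hke : ∀ θ : ℝ, smear (eta n) d (r * Complex.exp (θ * Complex.I)) =
          k (θ + a) - k θ := by
        intro θ
        rw [hd2, Pi.sub_apply, smear_T]
        simp only [hk, T]
        congr 2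
        push_cast
        rw [add_mul, Complex.exp_add]
        ring
      simp_rw [hke]
      rw [intervalIntegral.integral_sub]
      · rw [intervalIntegral.integral_comp_add_right (fun θ => k θ)]
        have := hkp.intervalIntegral_add_eq (-Real.pi + a) (-Real.pi)
        rw [show -Real.pi + a + 2 * Real.pi = Real.pi + a by ring,
          show -Real.pi + 2 * Real.pi = Real.pi by ring] at this
        rw [this, sub_self]
      · exact (hkc.comp (continuous_id.add continuous_const)).intervalIntegrable _ _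
      · exact hkc.intervalIntegrable _ _
  have := le_of_tendsto_of_tendsto (t2.const_mul lam') t1 e
  refine le_trans (le_of_eq ?_) this
  congr 2
  ext z
  rw [real_inner_self_eq_norm_sq, Real.norm_eq_abs, sq_abs]

end Pool.Agent.MP_83fd13_an.NFold
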