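import Pool.Agent.MP_83fd13_an.NFold7
import Pool.Agent.MP_83fd13_an.Weak3

/-!
From a solution on `Ω` to a symmetric weak solution on the plane.
-/

open MeasureTheory Set Filter Topology
open scoped ENNReal NNReal

noncomputable section

namespace Pool.Agent.MP_83fd13_an.NFold

variable {Ω : Set ℂ} {lam c R : ℝ} {u : ℂ → ℝ} {G : ℂ → ℂ}

lemma wp_of_solution (hΩ : MeasurableSet Ω) (hR : Ω ⊆ Metric.closedBall 0 R)
    (h : SchifferSolution Ω lam c u G) :
    WP lam c R (Ω.indicator fun z => u z - c) (Ω.indicator G) (Ω.indicator fun _ => 1) := by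
  have hb : Bornology.IsBounded Ω := Metric.isBounded_closedBall.subset hR
  have hfin := finMeas hb
  have hout : ∀ z, R < ‖z‖ → z ∉ Ω := by
    intro z hz hzΩ
    have := hR hzΩ
    rw [mem_closedBall_zero_iff] at this
    linarith
  refine ⟨?_, ?_, ?_, ?_, ?_, ?_, ?_⟩
  · rw [memLp_indicator_iff_restrict hΩ]
    exact h.memLp_u.sub (memLp_const c)
  · rw [memLp_indicator_iff_restrict hΩ]
    exact h.memLp_grad
  · rw [memLp_indicator_iff_restrict hΩ]
    exact memLp_const 1
  · intro z hz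
    exact indicator_of_notMem (hout z hz) _
  · intro z hz
    exact indicator_of_notMem (hout z hz) _
  · intro f hf hc e
    have h1 := h.dirichlet f hf hc e
    rw [← integral_indicator hΩ, ← integral_indicator hΩ] at h1
    convert! h1 using 1
    · congr 1
      ext z
      by_cases hz : z ∈ Ω <;> simp [hz]
    · congr 2
      ext z
      by_cases hz : z ∈ Ω <;> simp [hz]
  · intro f hf hc
    have h1 := h.neumann f hf hc
    rw [← integral_indicator hΩ, ← integral_indicator hΩ] at h1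
    convert! h1 using 1
    · congr 1
      ext z
      by_cases hz : z ∈ Ω <;> simp [hz]
    · congr 2
      ext z
      by_cases hz : z ∈ Ω <;> simp [hz]

lemma WP.sum_rot {v : ℂ → ℝ} {G : ℂ → ℂ} {h : ℂ → ℝ} (H : WP lam c R v G h) (t : ℝ) (n : ℕ) :
    ∃ G' : ℂ → ℂ, WP lam c R (fun z => ∑ k ∈ Finset.range (n + 1), v (T (k * t) z)) G'
      (fun z => ∑ k ∈ Finset.range (n + 1), h (T (k * t) z)) := by
  induction n with
  | zero =>
    refine ⟨G, ?_⟩
    simpa [T_zero] using H
  | succ n ih =>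
    obtain ⟨G', hG'⟩ := ih
    have := hG'.add (H.rot ((n + 1 : ℕ) * t))
    simp_rw [Finset.sum_range_succ _ (n + 1)]
    exact ⟨_, this⟩

/-- averaging over the rotation group of order `N` -/
lemma exists_symm (hΩ : MeasurableSet Ω) (hR : Ω ⊆ Metric.closedBall 0 R)
    (h : SchifferSolution Ω lam c u G) {N : ℕ} (hN : 1 ≤ N)
    (hrot : ∀ z, T (2 * Real.pi / N) z ∈ Ω ↔ z ∈ Ω) :
    ∃ (w : ℂ → ℝ) (G' : ℂ → ℂ), WP lam c R w G' (Ω.indicator fun _ => 1) ∧
      (∀ z, w (T (2 * Real.pi / N) z) = w z) ∧ ∀ z, z ∉ Ω → w z = 0 := by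
  obtain ⟨n, rfl⟩ : ∃ n, N = n + 1 := ⟨N - 1, by omega⟩
  set t : ℝ := 2 * Real.pi / (n + 1 : ℕ) with ht
  set v : ℂ → ℝ := Ω.indicator fun z => u z - c with hv
  have H := wp_of_solution hΩ hR h
  obtain ⟨G', hG'⟩ := H.sum_rot t n
  have hk : ∀ (k : ℕ) (z : ℂ), T (k * t) z ∈ Ω ↔ z ∈ Ω := by
    intro k
    induction k with
    | zero => intro z; simp [T_zero]
    | succ k ih =>
      intro z
      have : T ((k + 1 : ℕ) * t) z = T t (T (k * t) z) := by
        rw [T_add]; congr 1; push_cast; ring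
      rw [this, hrot, ih]
  have hX : ∀ (k : ℕ) (z : ℂ), (Ω.indicator (fun _ => (1 : ℝ))) (T (k * t) z) =
      Ω.indicator (fun _ => 1) z := by
    intro k z
    by_cases hz : z ∈ Ω
    · rw [indicator_of_mem hz, indicator_of_mem ((hk k z).2 hz)]
    · rw [indicator_of_notMem hz, indicator_of_notMem (fun h => hz ((hk k z).1 h))]
  have hn : (((n + 1 : ℕ) : ℝ)) ≠ 0 := by positivity
  have H2 := hG'.smul (((n + 1 : ℕ) : ℝ)⁻¹)
  refine ⟨fun z => (((n + 1 : ℕ) : ℝ)⁻¹) * ∑ k ∈ Finset.range (n + 1), v (T (k * t) z),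
    fun z => (((n + 1 : ℕ) : ℝ)⁻¹) • G' z, ?_, ?_, ?_⟩
  · convert! H2 using 1
    ext z
    simp_rw [hX]
    rw [Finset.sum_const, Finset.card_range, nsmul_eq_mul, ← mul_assoc, inv_mul_cancel₀ hn,
      one_mul]
  · intro z
    dsimp only
    congr 1
    have e1 : ∀ k : ℕ, v (T (k * t) (T t z)) = v (T (((k + 1 : ℕ) : ℝ) * t) z) := by
      intro k
      rw [T_add]; congr 2; push_cast; ring
    simp_rw [e1]
    have e2 := Finset.sum_range_succ (fun k : ℕ => v (T ((k : ℝ) * t) z)) (n + 1)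
    have e3 := Finset.sum_range_succ' (fun k : ℕ => v (T ((k : ℝ) * t) z)) (n + 1)
    have e4 : T (((n + 1 : ℕ) : ℝ) * t) z = z := by
      rw [ht, mul_div_cancel₀ _ hn]
      simp only [T]
      push_cast
      rw [Complex.exp_two_pi_mul_I, one_mul]
    have e5 : T (((0 : ℕ) : ℝ) * t) z = z := by
      simp [T_zero]
    rw [e4] at e2
    rw [e5] at e3
    linarith
  · intro z hz
    dsimp only
    rw [Finset.sum_eq_zero, mul_zero]
    intro k _
    rw [hv, indicator_of_notMem]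
    exact fun h => hz ((hk k z).1 h)

end Pool.Agent.MP_83fd13_an.NFold
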