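import Pool.Agent.MP_83fd13_an.NFold8

/-!
The main argument: a symmetric weak solution of low frequency is rotation invariant.
-/

open MeasureTheory Set Filter Topology
open scoped ENNReal NNReal

noncomputable section

namespace Pool.Agent.MP_83fd13_an.NFold

lemma cs {f g : ℂ → ℝ} (hf : MemLp f 2 volume) (hg : MemLp g 2 volume) :
    (∫ z, f z * g z) ^ 2 ≤ (∫ z, f z ^ 2) * ∫ z, g z ^ 2 := by
  have e : ∀ {a b : ℂ → ℝ} (ha : MemLp a 2 volume) (hb : MemLp b 2 volume),
      inner ℝ (ha.toLp a) (hb.toLp b) = ∫ z, a z * b z := by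
    intro a b ha hb
    rw [L2.inner_def]
    apply integral_congr_ae
    filter_upwards [ha.coeFn_toLp, hb.coeFn_toLp] with z h1 h2
    rw [h1, h2]
    simp [mul_comm]
  have := real_inner_mul_inner_self_le (hf.toLp f) (hg.toLp g)
  rw [e, e, e] at this
  simpa only [sq] using this

/-- the points outside `Ω` which are moved into `Ω` by the rotation by `a` or by `-a` -/
def S (Ω : Set ℂ) (a : ℝ) : Set ℂ := {z | z ∉ Ω ∧ (T a z ∈ Ω ∨ T (-a) z ∈ Ω)}

lemma S_meas {Ω : Set ℂ} (hΩ : MeasurableSet Ω) (a : ℝ) : MeasurableSet (S Ω a) := by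
  have h1 : MeasurableSet (T a ⁻¹' Ω) := (T_cont a).measurable hΩ
  have h2 : MeasurableSet (T (-a) ⁻¹' Ω) := (T_cont (-a)).measurable hΩ
  exact hΩ.compl.inter (h1.union h2)

lemma S_sub {Ω : Set ℂ} {R : ℝ} (hR : Ω ⊆ Metric.closedBall 0 R) (a : ℝ) :
    S Ω a ⊆ Metric.closedBall 0 R := by
  rintro z ⟨-, hz | hz⟩
  · have := hR hz
    rw [mem_closedBall_zero_iff, T_norm] at this
    exact mem_closedBall_zero_iff.2 this
  · have := hR hz
    rw [mem_closedBall_zero_iff, T_norm] at this
    exact mem_closedBall_zero_iff.2 this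

variable {Ω : Set ℂ} {lam c R : ℝ} {w X : ℂ → ℝ} {G : ℂ → ℂ}

lemma intX (hΩ : MeasurableSet Ω) (hX : X = Ω.indicator fun _ => 1) (a : ℝ) {f : ℂ → ℝ}
    (hf : Integrable f) : Integrable (fun z => X (T a z) * f z) := by
  have h1 : MeasurableSet (T a ⁻¹' Ω) := (T_cont a).measurable hΩ
  refine (hf.indicator h1).congr (Eventually.of_forall fun z => ?_)
  by_cases hz : T a z ∈ Ω
  · have : z ∈ T a ⁻¹' Ω := hz
    simp [hX, hz]
  · have : z ∉ T a ⁻¹' Ω := hz
    simp [hX, hz]

lemma intw (hΩ : MeasurableSet Ω) (hR : Ω ⊆ Metric.closedBall 0 R) (hw : MemLp w 2 volume)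
    (hw0 : ∀ z, z ∉ Ω → w z = 0) : Integrable w := by
  have hb : Bornology.IsBounded Ω := Metric.isBounded_closedBall.subset hR
  have hfin := finMeas hb
  have h1 : MemLp w 2 (volume.restrict Ω) := hw.restrict Ω
  have h2 : IntegrableOn w Ω := h1.integrable (by norm_num)
  have h3 := (integrable_indicator_iff hΩ).2 h2
  refine h3.congr (Eventually.of_forall fun z => ?_)
  by_cases hz : z ∈ Ω
  · simp [hz]
  · simp [hz, hw0 z hz]

lemma E_eq (hΩ : MeasurableSet Ω) (hX : X = Ω.indicator fun _ => 1)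
    (hwi : Integrable w) (hw0 : ∀ z, z ∉ Ω → w z = 0) (a : ℝ) :
    ∫ z, (X (T a z) - X z) * (w (T a z) - w z) =
      ∫ z, (S Ω a).indicator (fun _ => (1 : ℝ)) z * (w (T a z) + w (T (-a) z) - 2 * w z) := by
  have hXw : ∀ z, X z * w z = w z := by
    intro z
    by_cases hz : z ∈ Ω
    · simp [hX, hz]
    · simp [hw0 z hz]
  have iT : ∀ b, Integrable (fun z => w (T b z)) := fun b =>
    (T_mp b).integrable_comp_of_integrable hwi
  have iX : ∀ {f : ℂ → ℝ}, Integrable f → Integrable (fun z => X z * f z) := by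
    intro f hf
    simpa only [T_zero] using intX hΩ hX 0 hf
  -- right side
  have r1 : ∀ z, (S Ω a).indicator (fun _ => (1 : ℝ)) z * (w (T a z) + w (T (-a) z) - 2 * w z) =
      ((w (T a z) + w (T (-a) z)) - 2 * w z) -
        ((X z * w (T a z) + X z * w (T (-a) z)) - 2 * w z) := by
    intro z
    by_cases hz : z ∈ Ω
    · have h1 : z ∉ S Ω a := fun h => h.1 hz
      have h2 : X z = 1 := by simp [hX, hz]
      rw [indicator_of_notMem h1, h2]; ring
    · have h2 : X z = 0 := by simp [hX, hz]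
      rw [h2, hw0 z hz]
      by_cases hs : z ∈ S Ω a
      · rw [indicator_of_mem hs]; ring
      · have h3 : T a z ∉ Ω := fun h => hs ⟨hz, Or.inl h⟩
        have h4 : T (-a) z ∉ Ω := fun h => hs ⟨hz, Or.inr h⟩
        rw [indicator_of_notMem hs, hw0 _ h3, hw0 _ h4]; ring
  simp_rw [r1]
  have j1 : Integrable (fun z => w (T a z) + w (T (-a) z)) := (iT a).add (iT (-a))
  have j2 : Integrable (fun z => 2 * w z) := hwi.const_mul 2
  have j3 : Integrable (fun z => X z * w (T a z) + X z * w (T (-a) z)) :=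
    (iX (iT a)).add (iX (iT (-a)))
  have j4 : Integrable (fun z => w (T a z) + w (T (-a) z) - 2 * w z) := j1.sub j2
  have j5 : Integrable (fun z => X z * w (T a z) + X z * w (T (-a) z) - 2 * w z) := j3.sub j2
  rw [integral_sub j4 j5, integral_sub j1 j2, integral_sub j3 j2,
    integral_add (iT a) (iT (-a)), integral_add (iX (iT a)) (iX (iT (-a))),
    integral_const_mul, integral_T a w, integral_T (-a) w]
  -- left side
  have l1 : ∀ z, (X (T a z) - X z) * (w (T a z) - w z) =
      ((w (T a z) - X (T a z) * w z) - X z * w (T a z)) + w z := by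
    intro z
    have e1 := hXw (T a z)
    have e2 := hXw z
    linear_combination e1 + e2
  simp_rw [l1]
  have l2 : ∫ z, X (T a z) * w z = ∫ z, X z * w (T (-a) z) := by
    rw [← integral_T (-a) (fun z => X (T a z) * w z)]
    simp only [T_neg]
  have j6 : Integrable (fun z => w (T a z) - X (T a z) * w z) := (iT a).sub (intX hΩ hX a hwi)
  have j7 : Integrable (fun z => w (T a z) - X (T a z) * w z - X z * w (T a z)) :=
    j6.sub (iX (iT a))
  rw [integral_add j7 hwi, integral_sub j6 (iX (iT a)),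
    integral_sub (iT a) (intX hΩ hX a hwi), integral_T a w, l2]
  ring

lemma key_ineq (hΩ : MeasurableSet Ω) (hX : X = Ω.indicator fun _ => 1)
    (hR : Ω ⊆ Metric.closedBall 0 R) (hR0 : 0 ≤ R) (H : WP lam c R w G X)
    (hw0 : ∀ z, z ∉ Ω → w z = 0) {N : ℕ} (hN : 1 ≤ N)
    (hrot : ∀ z, w (T (2 * Real.pi / N) z) = w z) (hlam : 0 < lam)
    {lam' R' : ℝ} (hll : lam < lam') (hRR : R < R')
    (hpos : ∀ r ∈ Icc 0 R', 0 < besselH N (lam' * r ^ 2 / 4)) :
    ∃ M : ℝ, 0 ≤ M ∧ ∀ a : ℝ, ∫ z, (w (T a z) - w z) ^ 2 ≤ M * a ^ 2 * volume.real (S Ω a) := by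
  set D := lam' - lam with hD
  have hD0 : 0 < D := sub_pos.2 hll
  set K := lam * lam' / D with hK
  have hK0 : 0 < K := by
    have : 0 < lam' := hlam.trans hll
    positivity
  refine ⟨lam / D * (c ^ 2 * R ^ 2 * K), by positivity, fun a => ?_⟩
  have hwi := intw hΩ hR H.mv hw0
  have Hg := (H.rot a).sub H
  set Gg : ℂ → ℂ := fun z => T (-a) (G (T a z)) - G z with hGg
  set Q := ∫ z, (w (T a z) - w z) ^ 2 with hQ
  set E := ∫ z, (X (T a z) - X z) * (w (T a z) - w z) with hE
  set Y := ∫ z, inner ℝ (Gg z) (Gg z) with hY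
  set V := volume.real (S Ω a) with hV
  have hQ0 : 0 ≤ Q := integral_nonneg fun z => sq_nonneg _
  have hV0 : 0 ≤ V := measureReal_nonneg
  have hYeq : Y = lam * (Q + c * E) := by
    rw [hY, Hg.energy]
    congr 1
    have i1 : Integrable (fun z => (w (T a z) - w z) ^ 2) := Hg.mv.integrable_sq
    have i2 : Integrable (fun z => (X (T a z) - X z) * (w (T a z) - w z)) :=
      Hg.mh.integrable_mul Hg.mv
    have e : ∀ z, (w (T a z) - w z + c * (X (T a z) - X z)) * (w (T a z) - w z) =
        (w (T a z) - w z) ^ 2 + c * ((X (T a z) - X z) * (w (T a z) - w z)) := fun z => by ring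
    simp_rw [e]
    rw [integral_add i1 (i2.const_mul c), integral_const_mul]
  have h1 : lam' * Q ≤ Y := Hg.coer hR0 H.mv hN hrot hRR hpos
  have h2 := Hg.rot_diff hR0 (-a)
  have hs : ∀ z, (w (T a (T (-a) z)) - w (T (-a) z) - (w (T a z) - w z)) ^ 2 =
      (w (T a z) + w (T (-a) z) - 2 * w z) ^ 2 := by
    intro z
    rw [T_neg]; ring
  simp_rw [hs] at h2
  have hsm : MemLp (fun z => w (T a z) + w (T (-a) z) - 2 * w z) 2 volume :=
    ((T_memLp a H.mv).add (T_memLp (-a) H.mv)).sub (H.mv.const_mul 2)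
  have hSf : volume (S Ω a) ≠ ⊤ :=
    ((measure_mono (S_sub hR a)).trans_lt measure_closedBall_lt_top).ne
  have hSm : MemLp ((S Ω a).indicator (fun _ => (1 : ℝ))) 2 volume :=
    memLp_indicator_const 2 (S_meas hΩ a) 1 (Or.inr hSf)
  have h3 := cs hSm hsm
  rw [← E_eq hΩ hX hwi hw0 a, ← hE] at h3
  have h4 : ∫ z, ((S Ω a).indicator (fun _ => (1 : ℝ)) z) ^ 2 = V := by
    have : ∀ z, ((S Ω a).indicator (fun _ => (1 : ℝ)) z) ^ 2 =
        (S Ω a).indicator (fun _ => (1 : ℝ)) z := by
      intro z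
      by_cases hz : z ∈ S Ω a <;> simp [hz]
    simp_rw [this]
    rw [integral_indicator (S_meas hΩ a)]
    simp [hV]
  rw [h4] at h3
  -- algebra
  have hY0 : 0 ≤ Y := integral_nonneg fun z => real_inner_self_nonneg
  set e := c * E with he
  have h5 : D * Q ≤ lam * e := by
    rw [hYeq] at h1
    rw [hD]
    linarith
  have he0 : 0 ≤ e := by
    have : 0 ≤ lam * e := (by positivity : 0 ≤ D * Q).trans h5
    exact nonneg_of_mul_nonneg_right this hlam
  have h6 : Q ≤ lam / D * e := by
    rw [div_mul_eq_mul_div, le_div_iff₀ hD0]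
    linarith
  have h7 : Y ≤ K * e := by
    rw [hYeq, hK]
    have : lam * lam' / D * e = lam * (lam / D * e + e) := by
      field_simp
      rw [hD]; ring
    rw [this]
    gcongr
  have h8 : e ^ 2 ≤ (c ^ 2 * R ^ 2 * K * a ^ 2 * V) * e := by
    calc e ^ 2 = c ^ 2 * E ^ 2 := by rw [he]; ring
      _ ≤ c ^ 2 * (V * ((-a * R) ^ 2 * Y)) := by
          gcongr
          exact h3.trans (by gcongr)
      _ ≤ c ^ 2 * (V * ((-a * R) ^ 2 * (K * e))) := by gcongr
      _ = _ := by ring
  have h9 : e ≤ c ^ 2 * R ^ 2 * K * a ^ 2 * V := by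
    rcases eq_or_lt_of_le he0 with h0 | h0
    · rw [← h0]; positivity
    · rw [sq] at h8
      exact le_of_mul_le_mul_right h8 h0
  calc Q ≤ lam / D * e := h6
    _ ≤ lam / D * (c ^ 2 * R ^ 2 * K * a ^ 2 * V) := by gcongr
    _ = _ := by ring

lemma subadd (hw : MemLp w 2 volume) (a : ℝ) (n : ℕ) :
    ∫ z, (w (T (n * a) z) - w z) ^ 2 ≤ n ^ 2 * ∫ z, (w (T a z) - w z) ^ 2 := by
  have e : ∀ z, w (T (n * a) z) - w z =
      ∑ k ∈ Finset.range n, (w (T a (T (k * a) z)) - w (T (k * a) z)) := by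
    intro z
    have h := Finset.sum_range_sub (fun k : ℕ => w (T (k * a) z)) n
    simp only [Nat.cast_zero, zero_mul, T_zero] at h
    rw [← h]
    refine Finset.sum_congr rfl fun k _ => ?_
    rw [T_add]
    congr 3
    push_cast; ring
  have hm : MemLp (fun z => w (T a z) - w z) 2 volume := (T_memLp a hw).sub hw
  have i1 : ∀ k : ℕ, Integrable (fun z => (w (T a (T (k * a) z)) - w (T (k * a) z)) ^ 2) :=
    fun k => (T_memLp (k * a) hm).integrable_sq
  have i2 : Integrable (fun z => (w (T (n * a) z) - w z) ^ 2) :=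
    ((T_memLp (n * a) hw).sub hw).integrable_sq
  have hle : ∀ z, (w (T (n * a) z) - w z) ^ 2 ≤
      n * ∑ k ∈ Finset.range n, (w (T a (T (k * a) z)) - w (T (k * a) z)) ^ 2 := by
    intro z
    rw [e z]
    have := sq_sum_le_card_mul_sum_sq (s := Finset.range n)
      (f := fun k : ℕ => (w (T a (T (k * a) z)) - w (T (k * a) z)))
    simpa using this
  calc ∫ z, (w (T (n * a) z) - w z) ^ 2
      ≤ ∫ z, n * ∑ k ∈ Finset.range n, (w (T a (T (k * a) z)) - w (T (k * a) z)) ^ 2 := by
        refine integral_mono i2 ?_ hle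
        exact (integrable_finsetSum _ fun k _ => i1 k).const_mul _
    _ = n * ∑ k ∈ Finset.range n, ∫ z, (w (T a (T (k * a) z)) - w (T (k * a) z)) ^ 2 := by
        rw [integral_const_mul, integral_finsetSum _ fun k _ => i1 k]
    _ = n * ∑ k ∈ Finset.range n, ∫ z, (w (T a z) - w z) ^ 2 := by
        congr 1
        refine Finset.sum_congr rfl fun k _ => ?_
        exact integral_T (k * a) (fun z => (w (T a z) - w z) ^ 2)
    _ = _ := by
        rw [Finset.sum_const, Finset.card_range, nsmul_eq_mul]; ring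

lemma vol_tendsto (hΩ : IsOpen Ω) (hR : Ω ⊆ Metric.closedBall 0 R)
    (hfr : volume (frontier Ω) = 0) (a : ℝ) :
    Tendsto (fun n : ℕ => volume.real (S Ω (a / (n + 1)))) atTop (𝓝 0) := by
  have hm : ∀ n : ℕ, MeasurableSet (S Ω (a / (n + 1))) := fun n => S_meas hΩ.measurableSet _
  have e : ∀ n : ℕ, volume.real (S Ω (a / (n + 1))) =
      ∫ z, (S Ω (a / (n + 1))).indicator (fun _ => (1 : ℝ)) z := by
    intro n
    rw [integral_indicator (hm n)]
    simp
  simp_rw [e]
  have h0 : (0 : ℝ) = ∫ z : ℂ, (0 : ℝ) := by simp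
  rw [h0]
  apply tendsto_integral_of_dominated_convergence
    ((Metric.closedBall (0 : ℂ) R).indicator fun _ => (1 : ℝ))
  · intro n
    exact (measurable_const.indicator (hm n)).aestronglyMeasurable
  · rw [integrable_indicator_iff Metric.isClosed_closedBall.measurableSet]
    exact integrableOn_const measure_closedBall_lt_top.ne
  · intro n
    refine Eventually.of_forall fun z => ?_
    by_cases hz : z ∈ S Ω (a / (n + 1))
    · rw [indicator_of_mem hz, indicator_of_mem (S_sub hR _ hz)]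
      simp
    · rw [indicator_of_notMem hz, norm_zero]
      exact indicator_nonneg (fun _ _ => zero_le_one) _
  · have h1 : ∀ᵐ z : ℂ, z ∉ frontier Ω := by
      rw [ae_iff]
      simpa using hfr
    filter_upwards [h1] with z hz
    apply tendsto_const_nhds.congr'
    by_cases hzΩ : z ∈ Ω
    · refine Eventually.of_forall fun n => ?_
      have : z ∉ S Ω (a / (n + 1)) := fun h => h.1 hzΩ
      dsimp only
      rw [indicator_of_notMem this]
    · have hzc : z ∉ closure Ω := by
        intro hc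
        apply hz
        rw [frontier, hΩ.interior_eq]
        exact ⟨hc, hzΩ⟩
      have hU : (closure Ω)ᶜ ∈ 𝓝 z := isClosed_closure.isOpen_compl.mem_nhds hzc
      have t0 : Tendsto (fun n : ℕ => a / ((n : ℝ) + 1)) atTop (𝓝 0) := by
        have := tendsto_one_div_add_atTop_nhds_zero_nat (𝕜 := ℝ) |>.const_mul a
        rw [mul_zero] at this
        refine this.congr fun n => ?_
        ring
      have hc : Continuous (fun b : ℝ => T b z) := by unfold T; fun_prop
      have t1 : Tendsto (fun n : ℕ => T (a / ((n : ℝ) + 1)) z) atTop (𝓝 z) := by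
        have := (hc.tendsto 0).comp t0
        rwa [T_zero] at this
      have t2 : Tendsto (fun n : ℕ => T (-(a / ((n : ℝ) + 1))) z) atTop (𝓝 z) := by
        have := (hc.tendsto 0).comp (by simpa using t0.neg)
        rwa [T_zero] at this
      filter_upwards [t1 hU, t2 hU] with n h1 h2
      rw [indicator_of_notMem]
      rintro ⟨-, h | h⟩
      · exact h1 (subset_closure h)
      · exact h2 (subset_closure h)

lemma Q_zero (hΩ : IsOpen Ω) (hX : X = Ω.indicator fun _ => 1)
    (hR : Ω ⊆ Metric.closedBall 0 R) (hR0 : 0 ≤ R) (hfr : volume (frontier Ω) = 0)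
    (H : WP lam c R w G X)
    (hw0 : ∀ z, z ∉ Ω → w z = 0) {N : ℕ} (hN : 1 ≤ N)
    (hrot : ∀ z, w (T (2 * Real.pi / N) z) = w z) (hlam : 0 < lam)
    {lam' R' : ℝ} (hll : lam < lam') (hRR : R < R')
    (hpos : ∀ r ∈ Icc 0 R', 0 < besselH N (lam' * r ^ 2 / 4)) (a : ℝ) :
    ∫ z, (w (T a z) - w z) ^ 2 = 0 := by
  obtain ⟨M, hM0, hM⟩ := key_ineq hΩ.measurableSet hX hR hR0 H hw0 hN hrot hlam hll hRR hpos
  refine le_antisymm ?_ (integral_nonneg fun z => sq_nonneg _)
  have t := (vol_tendsto hΩ hR hfr a).const_mul (M * a ^ 2)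
  rw [mul_zero] at t
  refine ge_of_tendsto t (Eventually.of_forall fun n => ?_)
  have hn : ((n : ℝ) + 1) ≠ 0 := by positivity
  have h1 := subadd H.mv (a / (n + 1)) (n + 1)
  have h2 := hM (a / (n + 1))
  have e : ((n + 1 : ℕ) : ℝ) * (a / (n + 1)) = a := by
    push_cast; field_simp
  rw [e] at h1
  refine h1.trans ?_
  calc ((n + 1 : ℕ) : ℝ) ^ 2 * ∫ z, (w (T (a / (n + 1)) z) - w z) ^ 2
      ≤ ((n + 1 : ℕ) : ℝ) ^ 2 * (M * (a / (n + 1)) ^ 2 * volume.real (S Ω (a / (n + 1)))) := by
        gcongr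
    _ = _ := by
        push_cast
        field_simp

/-- the characteristic function of `Ω` is rotation invariant almost everywhere -/
lemma X_inv (H : WP lam c R w G X) (hc : c ≠ 0) (hlam : 0 < lam) (a : ℝ)
    (hQ : ∫ z, (w (T a z) - w z) ^ 2 = 0) : ∀ᵐ z, X (T a z) = X z := by
  have Hg := (H.rot a).sub H
  have hg : ∀ᵐ z, w (T a z) - w z = 0 := by
    have := (integral_eq_zero_iff_of_nonneg (fun z => sq_nonneg (w (T a z) - w z))
      Hg.mv.integrable_sq).1 hQ
    filter_upwards [this] with z hz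
    exact pow_eq_zero_iff two_ne_zero |>.1 hz
  have hG0 : ∫ z, inner ℝ (T (-a) (G (T a z)) - G z) (T (-a) (G (T a z)) - G z) = 0 := by
    rw [Hg.energy]
    have : ∫ z, (w (T a z) - w z + c * (X (T a z) - X z)) * (w (T a z) - w z) = 0 := by
      rw [← integral_zero ℂ ℝ (μ := volume)]
      apply integral_congr_ae
      filter_upwards [hg] with z hz
      rw [hz, mul_zero]
    rw [this, mul_zero]
  have hGi : Integrable (fun z => inner ℝ (T (-a) (G (T a z)) - G z)
      (T (-a) (G (T a z)) - G z)) := by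
    have := Hg.mG.integrable_norm_pow (by norm_num)
    refine this.congr (Eventually.of_forall fun z => ?_)
    simp only [real_inner_self_eq_norm_sq]
  have hGa : ∀ᵐ z, T (-a) (G (T a z)) - G z = 0 := by
    have := (integral_eq_zero_iff_of_nonneg (fun z => real_inner_self_nonneg) hGi).1 hG0
    filter_upwards [this] with z hz
    exact inner_self_eq_zero.1 hz
  have key : ∀ᵐ z, X (T a z) - X z = 0 := by
    apply ae_eq_zero_of_integral_contDiff_smul_eq_zero (μ := volume)
      (Hg.mh.locallyIntegrable (by norm_num))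
    intro f hf hfc
    have h1 := Hg.eq f (hf.of_le (by simp)) hfc
    have h2 : ∫ z, fderiv ℝ f z (T (-a) (G (T a z)) - G z) = 0 := by
      rw [← integral_zero ℂ ℝ (μ := volume)]
      apply integral_congr_ae
      filter_upwards [hGa] with z hz
      rw [hz, map_zero]
    rw [h2] at h1
    have h3 : ∫ z, (w (T a z) - w z + c * (X (T a z) - X z)) * f z =
        c * ∫ z, f z • (X (T a z) - X z) := by
      rw [← integral_const_mul]
      apply integral_congr_ae
      filter_upwards [hg] with z hz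
      rw [hz, smul_eq_mul]; ring
    rw [h3] at h1
    have h4 : lam * (c * ∫ z, f z • (X (T a z) - X z)) = 0 := h1.symm
    rcases mul_eq_zero.1 h4 with h | h
    · exact absurd h hlam.ne'
    · rcases mul_eq_zero.1 h with h | h
      · exact absurd h hc
      · exact h
  filter_upwards [key] with z hz
  linarith

end Pool.Agent.MP_83fd13_an.NFold
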