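import Mathlib
import Pool.Agent.MP_83fd13_an.Ess5

namespace Pool.Agent.MP_83fd13_an

open MeasureTheory Filter AddCircle
open scoped Topology

attribute [local instance] fact_two_pi

theorem tau_one : tau 1 = fourier 1 := by
  rw [tau, Complex.ofReal_one, one_smul]

theorem cf_fourier (k n : ℤ) : cf k (fourier n : EE) = if k = n then 1 else 0 := by
  rw [cf_apply, fourierCoeff_fourier]
  simp [Pi.single_apply]

theorem cf_exp_tau (k : ℤ) (α : ℂ) :
    HasSum (fun n : ℕ => ((n.factorial : ℂ))⁻¹ * α ^ n * (if k = n then 1 else 0))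
      (cf k (NormedSpace.exp (α • tau 1))) := by
  have h1 := (NormedSpace.exp_series_hasSum_exp' (𝕂 := ℂ) (α • tau 1)).mapL (cf k)
  have hfun : (fun n : ℕ => cf k (((n.factorial : ℂ))⁻¹ • (α • tau 1) ^ n)) =
      fun n : ℕ => ((n.factorial : ℂ))⁻¹ * α ^ n * (if k = n then 1 else 0) := by
    funext n
    rw [smul_pow, smul_smul, map_smul, tau_one, fourier_pow, one_mul, cf_fourier, smul_eq_mul]
  rw [← hfun]
  exact h1

theorem cf_exp_tau_nat (n : ℕ) (α : ℂ) :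
    cf n (NormedSpace.exp (α • tau 1)) = ((n.factorial : ℂ))⁻¹ * α ^ n := by
  have h1 := cf_exp_tau n α
  have h2 := hasSum_single (f := fun m : ℕ => ((m.factorial : ℂ))⁻¹ * α ^ m *
    (if (n : ℤ) = m then 1 else 0)) n (by
      intro m hm
      rw [if_neg (by intro h; exact hm (by exact_mod_cast h.symm)), mul_zero])
  rw [h1.unique h2]
  simp

theorem cf_exp_tau_neg {k : ℤ} (hk : k < 0) (α : ℂ) : cf k (NormedSpace.exp (α • tau 1)) = 0 := by
  have h1 := cf_exp_tau k α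
  have h2 : (fun n : ℕ => ((n.factorial : ℂ))⁻¹ * α ^ n * (if k = n then (1 : ℂ) else 0)) =
      fun _ => 0 := by
    funext n
    rw [if_neg (by omega), mul_zero]
  rw [h2] at h1
  exact h1.unique hasSum_zero

theorem cf_kernel (α β : ℂ) :
    HasSum (fun n : ℕ => (((n + 2).factorial : ℂ))⁻¹ * β ^ (n + 2) *
      (((n.factorial : ℂ))⁻¹ * α ^ n))
      (cf (-2) (NormedSpace.exp (α • tau 1) * NormedSpace.exp (β • taui 1))) := by
  have h1 := cf_exp_series (T := 1) (-2) β (NormedSpace.exp (α • tau 1))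
  rw [mul_comm (NormedSpace.exp (α • tau 1))]
  have h2 := (hasSum_nat_add_iff' 2).2 h1
  rw [Finset.sum_range_succ, Finset.sum_range_one] at h2
  have e0 : cf (-2 + ((0 : ℕ) : ℤ)) (NormedSpace.exp (α • tau 1)) = 0 :=
    cf_exp_tau_neg (by norm_num) α
  have e1 : cf (-2 + ((1 : ℕ) : ℤ)) (NormedSpace.exp (α • tau 1)) = 0 :=
    cf_exp_tau_neg (by norm_num) α
  rw [e0, e1, mul_zero, mul_zero, mul_zero, mul_zero, add_zero, sub_zero] at h2
  have hfun : (fun n : ℕ => (((n + 2).factorial : ℂ))⁻¹ * β ^ (n + 2) *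
      (((n.factorial : ℂ))⁻¹ * α ^ n)) = fun n : ℕ => (((n + 2).factorial : ℂ))⁻¹ * β ^ (n + 2) *
      ((((1 : ℝ) : ℂ)⁻¹) ^ (n + 2) *
        cf (-2 + ((n + 2 : ℕ) : ℤ)) (NormedSpace.exp (α • tau 1))) := by
    funext n
    have e2 : (-2 : ℤ) + ((n + 2 : ℕ) : ℤ) = n := by push_cast; ring
    rw [e2, cf_exp_tau_nat, Complex.ofReal_one, inv_one, one_pow, one_mul]
  rw [hfun]
  exact h2

theorem kernel_bound (α β : ℂ) :
    ‖cf (-2) (NormedSpace.exp (α • tau 1) * NormedSpace.exp (β • taui 1))‖ ≤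
      ‖β‖ ^ 2 / 2 * Real.exp (‖α‖ * ‖β‖) := by
  have h1 := cf_kernel α β
  have hmaj : HasSum (fun n : ℕ => ‖β‖ ^ 2 / 2 * ((‖α‖ * ‖β‖) ^ n / (n.factorial : ℝ)))
      (‖β‖ ^ 2 / 2 * Real.exp (‖α‖ * ‖β‖)) := by
    have := NormedSpace.expSeries_div_hasSum_exp (‖α‖ * ‖β‖)
    rw [← Real.exp_eq_exp_ℝ] at this
    exact this.mul_left _
  rw [← h1.tsum_eq]
  refine tsum_of_norm_bounded hmaj fun n => ?_
  rw [norm_mul, norm_mul, norm_mul, norm_inv, norm_inv, norm_pow, norm_pow, Complex.norm_natCast,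
    Complex.norm_natCast]
  have h2 : (2 : ℝ) ≤ ((n + 2).factorial : ℝ) := by
    have : (2).factorial ≤ (n + 2).factorial := Nat.factorial_le (by omega)
    have h3 : (2).factorial = 2 := rfl
    rw [h3] at this
    exact_mod_cast this
  have h3 : (((n + 2).factorial : ℝ))⁻¹ ≤ 2⁻¹ := inv_anti₀ (by norm_num) h2
  calc (((n + 2).factorial : ℝ))⁻¹ * ‖β‖ ^ (n + 2) * (((n.factorial : ℝ))⁻¹ * ‖α‖ ^ n)
      ≤ 2⁻¹ * ‖β‖ ^ (n + 2) * (((n.factorial : ℝ))⁻¹ * ‖α‖ ^ n) := by gcongr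
    _ = ‖β‖ ^ 2 / 2 * ((‖α‖ * ‖β‖) ^ n / (n.factorial : ℝ)) := by
      rw [mul_pow, pow_add]
      ring

theorem cf_neg_one_exp (a : ℂ) : cf (-1) (NormedSpace.exp (a • taui 1)) = a := by
  have h1 := cf_exp_series (T := 1) (-1) a 1
  rw [mul_one] at h1
  have h2 := hasSum_single (f := fun m : ℕ => ((m.factorial : ℂ))⁻¹ * a ^ m *
    ((((1 : ℝ) : ℂ)⁻¹) ^ m * cf (-1 + m) (1 : EE))) 1 (by
      intro m hm
      rw [cf_one (by intro h; apply hm; omega), mul_zero, mul_zero])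
  rw [h1.unique h2]
  have h3 : cf (-1 + ((1 : ℕ) : ℤ)) (1 : EE) = 1 := by
    rw [← fourier_zero_eq, cf_fourier]
    simp
  rw [h3]
  simp

end Pool.Agent.MP_83fd13_an
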