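import Mathlib
import Pool.Agent.MP_83fd13_an.Sp1
import Pool.Agent.MP_83fd13_an.Ess16

namespace Pool.Agent.MP_83fd13_an

open MeasureTheory Filter Metric
open scoped Topology ComplexConjugate

attribute [local instance] fact_two_pi

variable {lam c : ℝ} {u : ℂ → ℝ} {G : ℂ → ℂ}

/-- The functions `V k` and their representation near every point of the circle. -/
theorem SchifferSolution.start {φ : ℂ → ℂ} {r : ℝ} (hr : 1 < r)
    (hφ : DifferentiableOn ℂ φ (ball 0 r)) (hinj : Set.InjOn φ (ball 0 r))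
    (h : SchifferSolution (φ '' ball 0 1) lam c u G) {T : ℝ} (hT : 0 < T) :
    ∃ V : ℤ → ℂ → ℂ, (∀ k : ℤ, -1 ≤ k → DifferentiableOn ℂ (V k) (ball 0 r)) ∧
      ∀ (s : ℂ → ℂ) (S : Set ℂ), IsOpen S → S ⊆ ball 0 r → DifferentiableOn ℂ s S →
        (∀ w ∈ S, ‖w‖ = 1 → s w = conj (φ w)) → ∀ e' ∈ S, ‖e'‖ = 1 →
        PP T (lam / 4) φ s V S e' := by
  have hr0 : 0 < r := by linarith
  have hrinv : r⁻¹ < 1 := inv_lt_one_of_one_lt₀ hr
  have hrefd : DifferentiableOn ℂ (refl φ) (Ann 0 r⁻¹ r) := by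
    rintro w ⟨hw1, hw2⟩
    rw [sub_zero] at hw1 hw2
    have hwn : 0 < ‖w‖ := (inv_pos.2 hr0).trans hw1
    apply (differentiableAt_refl (norm_pos_iff.1 hwn) _).differentiableWithinAt
    apply hφ.differentiableAt (isOpen_ball.mem_nhds _)
    rw [mem_ball_zero_iff, RCLike.norm_conj, norm_inv]
    exact inv_lt_of_inv_lt₀ hr0 hw1
  obtain ⟨𝔉, h𝔉, hV⟩ := h.extends hr hφ hinj hT (s := refl φ)
    (fun w hw => refl_circle φ (by simpa using hw)) (inv_pos.2 hr0) hrinv hr le_rfl hrefd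
  choose V₀ hV₀ using hV
  set V : ℤ → ℂ → ℂ := fun k => if hk : -1 ≤ k then V₀ k hk else 0 with hVdef
  have hVk : ∀ k (hk : -1 ≤ k), V k = V₀ k hk := fun k hk => dif_pos hk
  refine ⟨V, ?_, ?_⟩
  · intro k hk
    rw [hVk k hk]
    exact (hV₀ k hk).1
  · intro s S hSo hSr hSs hs e' he'S he'
    have he'A' : e' ∈ Ann 0 r⁻¹ r :=
      ⟨by rw [sub_zero, he']; exact hrinv, by rw [sub_zero, he']; exact hr⟩
    have hAo := isOpen_Ann 0 r⁻¹ r
    have heq : ∀ᶠ w in 𝓝 e', s w = refl φ w := by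
      apply eq_of_circle he' (hSs.analyticAt (hSo.mem_nhds he'S))
        (hrefd.analyticAt (hAo.mem_nhds he'A'))
      filter_upwards [hSo.mem_nhds he'S] with w hw hw1
      rw [hs w hw hw1, refl_circle φ hw1]
    obtain ⟨ε, hε, hsub⟩ := Metric.mem_nhds_iff.1
      (inter_mem (inter_mem (hSo.mem_nhds he'S) (hAo.mem_nhds he'A')) heq)
    refine ⟨ε, hε, fun z hz => (hsub hz).1.1, 𝔉, fun z hz => ?_, fun k hk z hz => ?_⟩
    · have h1 := h𝔉 z (hsub hz).1.2
      have h2 : s z = refl φ z := (hsub hz).2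
      have h3 : pw T (lam / 4) φ s z = pw T (lam / 4) φ (refl φ) z := by
        rw [pw, pw, h2]
      rw [h3]
      exact h1
    · rw [hVk k hk]
      exact (hV₀ k hk).2 z (hsub hz).1.2

/-- A normalised primitive on a convex set. -/
theorem PP_convex {T X : ℝ} {φ s : ℂ → ℂ} {V : ℤ → ℂ → ℂ} {S : Set ℂ}
    (hS : IsOpen S) (hφ : DifferentiableOn ℂ φ S)
    (hs : DifferentiableOn ℂ s S) (hV : ∀ k : ℤ, -1 ≤ k → DifferentiableOn ℂ (V k) S)
    {p : ℂ} {ε : ℝ} (hε : 0 < ε) {F₀ : ℂ → EE}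
    (hF₀ : ∀ z ∈ ball p ε, HasDerivAt F₀ (pw T X φ s z) z)
    (hV₀ : ∀ k : ℤ, -1 ≤ k → ∀ z ∈ ball p ε, V k z = cf k (NormedSpace.exp (φ z • tau T) * F₀ z))
    {N : Set ℂ} (hN : IsOpen N) (hNc : Convex ℝ N) (hNS : N ⊆ S) (hpN : p ∈ N) :
    ∃ F : ℂ → EE, (∀ z ∈ N, HasDerivAt F (pw T X φ s z) z) ∧ F p = F₀ p ∧
      ∀ k : ℤ, -1 ≤ k → ∀ z ∈ N, V k z = cf k (NormedSpace.exp (φ z • tau T) * F z) := by
  have hφ' : DifferentiableOn ℂ (deriv φ) S := hφ.deriv hS
  have hpwd : DifferentiableOn ℂ (pw T X φ s) N := by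
    intro z hz
    have hn := hS.mem_nhds (hNS hz)
    exact (differentiableAt_pw (hφ.differentiableAt hn) (hφ'.differentiableAt hn)
      (hs.differentiableAt hn)).differentiableWithinAt
  obtain ⟨F', hF'⟩ := exists_prim hNc hN hpwd
  obtain ⟨η, hη, hηs⟩ := Metric.isOpen_iff.1 (hN.inter (isOpen_ball (x := p) (ε := ε))) p
    ⟨hpN, mem_ball_self hε⟩
  set C : EE := F' p - F₀ p with hC
  have hrel : ∀ z ∈ ball p η, F₀ z = F' z - C := by
    intro z hz
    have h1 := sub_eq_of_deriv (convex_ball p η) isOpen_ball (fun z hz => hF' z (hηs hz).1)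
      (fun z hz => hF₀ z (hηs hz).2) hz (mem_ball_self hη)
    rw [hC, ← h1]
    abel
  refine ⟨fun z => F' z - C, fun z hz => (hF' z hz).sub_const C, by simp [hC], fun k hk => ?_⟩
  apply ident_thm hN hNc ((hV k hk).mono hNS) _ hpN
  · filter_upwards [ball_mem_nhds p hη] with z hz
    rw [hV₀ k hk z (hηs hz).2, hrel z hz]
  · intro z hz
    have hexpd : DifferentiableAt ℂ (fun z => NormedSpace.exp (φ z • tau T)) z :=
      (differentiable_exp_smul_const ℂ (tau T)).differentiableAt.comp z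
        (hφ.differentiableAt (hS.mem_nhds (hNS hz)))
    have h1 := hexpd.mul ((hF' z hz).differentiableAt.sub_const C)
    exact ((cf k).differentiableAt.comp z h1).differentiableWithinAt

/-- The recovery of `s` from the primitive. -/
theorem recover {X : ℝ} {φ s v : ℂ → ℂ} {F : ℂ → EE} {w : ℂ}
    (hφ : DifferentiableAt ℂ φ w) (hd : deriv φ w ≠ 0) (hF : HasDerivAt F (pw 1 X φ s w) w)
    (hv : ∀ᶠ z in 𝓝 w, v z = cf (-1) (NormedSpace.exp (φ z • tau 1) * F z)) :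
    (X : ℂ) * s w = deriv v w / deriv φ w - cf (-2) (NormedSpace.exp (φ w • tau 1) * F w) := by
  have h1 : HasDerivAt (fun z => NormedSpace.exp (φ z • tau 1))
      (deriv φ w • (tau 1 * NormedSpace.exp (φ w • tau 1))) w := by
    have h2 : HasDerivAt (fun t : ℂ => NormedSpace.exp (t • tau 1))
        (tau 1 * NormedSpace.exp (φ w • tau 1)) (φ w) :=
      hasDerivAt_exp_smul_const' (𝕂 := ℂ) (tau 1) (φ w)
    exact h2.scomp w hφ.hasDerivAt
  have h2 := ((cf (-1)).hasFDerivAt).comp_hasDerivAt w (h1.mul hF)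
  have h3 : HasDerivAt v _ w := h2.congr_of_eventuallyEq hv
  have h4 := h3.deriv
  have h5 : NormedSpace.exp (φ w • tau 1) * pw 1 X φ s w =
      deriv φ w • NormedSpace.exp (((X : ℂ) * s w) • taui 1) := by
    rw [pw, mul_smul_comm, ← mul_assoc, ← exp_add_EE, ← add_smul, add_neg_cancel, zero_smul,
      NormedSpace.exp_zero, one_mul]
  rw [h4, map_add, smul_mul_assoc, map_smul, h5, map_smul, cf_neg_one_exp, smul_eq_mul,
    smul_eq_mul, mul_assoc, cf_tau_mul]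
  have e : (-1 : ℤ) - 1 = -2 := by norm_num
  rw [e]
  push_cast
  field_simp
  ring

end Pool.Agent.MP_83fd13_an
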