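import Mathlib
import Pool.Agent.MP_83fd13_an.Sp2

namespace Pool.Agent.MP_83fd13_an

open MeasureTheory Filter Metric
open scoped Topology ComplexConjugate

attribute [local instance] fact_two_pi

variable {lam c : ℝ} {u : ℂ → ℝ} {G : ℂ → ℂ}

/-- the segment from `q` to `p` -/
noncomputable def WS (q p : ℂ) (x : ℝ) : ℂ := q + (x : ℂ) * (p - q)

theorem continuous_WS (q p : ℂ) : Continuous (WS q p) := by
  unfold WS; fun_prop

theorem hasDerivAt_WS (q p : ℂ) (x : ℝ) : HasDerivAt (WS q p) (p - q) x := by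
  have h6 : HasDerivAt (fun x : ℝ => (x : ℂ)) 1 x := Complex.ofRealCLM.hasDerivAt
  have := (h6.mul_const (p - q)).const_add q
  rwa [one_mul] at this

theorem WS_zero (q p : ℂ) : WS q p 0 = q := by simp [WS]

theorem WS_segment (q p : ℂ) {x y z : ℝ} (hxy : x ≤ y) (hyz : y ≤ z) :
    WS q p y ∈ segment ℝ (WS q p x) (WS q p z) := by
  rcases eq_or_lt_of_le (hxy.trans hyz) with h | h
  · have h1 : y = x := le_antisymm (h ▸ hyz) hxy
    rw [h1]
    exact left_mem_segment ℝ _ _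
  · have hzx : z - x ≠ 0 := by linarith [sub_pos.2 h]
    have hzx' : (z : ℂ) - x ≠ 0 := by exact_mod_cast hzx
    refine ⟨(z - y) / (z - x), (y - x) / (z - x), div_nonneg (by linarith) (by linarith),
      div_nonneg (by linarith) (by linarith), ?_, ?_⟩
    · field_simp
      ring
    · simp only [WS, Complex.real_smul]
      push_cast
      field_simp
      ring

theorem segment_WS {q p : ℂ} {x z : ℝ} (hxz : x ≤ z) {w : ℂ}
    (hw : w ∈ segment ℝ (WS q p x) (WS q p z)) : ∃ y ∈ Set.Icc x z, w = WS q p y := by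
  obtain ⟨a, b, ha, hb, hab, rfl⟩ := hw
  refine ⟨a * x + b * z, ⟨?_, ?_⟩, ?_⟩
  · have : x = a * x + b * x := by rw [← add_mul, hab, one_mul]
    nlinarith
  · have : z = a * z + b * z := by rw [← add_mul, hab, one_mul]
    nlinarith
  · simp only [WS, Complex.real_smul]
    have : (a : ℂ) = 1 - b := by
      have : (a : ℂ) + b = 1 := by exact_mod_cast hab
      rw [← this]; ring
    push_cast
    rw [this]
    ring

/-- The data along the segment. -/
theorem SchifferSolution.seg {φ s : ℂ → ℂ} {r : ℝ} (hr : 1 < r)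
    (hφ : DifferentiableOn ℂ φ (ball 0 r)) (hinj : Set.InjOn φ (ball 0 r))
    (h : SchifferSolution (φ '' ball 0 1) lam c u G)
    {Y : Set ℂ} (hY : IsOpen Y) (hYc : IsConnected Y) {a : ℂ} (ha : ‖a‖ = 1) (haY : a ∈ Y)
    (hs : ∀ w ∈ Y, ‖w‖ = 1 → s w = conj (φ w)) (hsd : DifferentiableOn ℂ s Y)
    {p q : ℂ} (hq : ‖q‖ < 1) (hseg : ∀ x ∈ Set.Ioc (0 : ℝ) 1, WS q p x ∈ Y) :
    ∃ x₁ ∈ Set.Ioc (0 : ℝ) 1, (∀ x ∈ Set.Icc 0 x₁, ‖WS q p x‖ < 1) ∧
      ∃ v : ℂ → ℂ, DifferentiableOn ℂ v (ball 0 r) ∧ ∃ f₁ : EE, ∀ x ∈ Set.Ioc 0 x₁,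
      ((lam / 4 : ℝ) : ℂ) * s (WS q p x) = deriv v (WS q p x) / deriv φ (WS q p x) -
        cf (-2) (NormedSpace.exp (φ (WS q p x) • tau 1) *
          (f₁ - ∫ x' in x..x₁, (p - q) • pw 1 (lam / 4) φ s (WS q p x'))) := by
  have hr0 : 0 < r := by linarith
  obtain ⟨V, hV, hstart⟩ := h.start hr hφ hinj one_pos
  set S : Set ℂ := Y ∩ ball 0 r with hSdef
  have hSo : IsOpen S := hY.inter isOpen_ball
  have hSφ : DifferentiableOn ℂ φ S := hφ.mono fun w hw => hw.2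
  have hSs : DifferentiableOn ℂ s S := hsd.mono fun w hw => hw.1
  have hφ' : DifferentiableOn ℂ (deriv φ) (ball 0 r) := hφ.deriv isOpen_ball
  have hVS : ∀ k : ℤ, -1 ≤ k → DifferentiableOn ℂ (V k) S := fun k hk =>
    (hV k hk).mono fun w hw => hw.2
  have hd0 : ∀ w ∈ S, deriv φ w ≠ 0 := fun w hw => (inv_pack hr hφ hinj).1 w hw.2
  -- the end point
  set x₁ : ℝ := min 1 ((1 - ‖q‖) / (2 * (‖p - q‖ + 1))) with hx₁def
  have hpos : 0 < 2 * (‖p - q‖ + 1) := by positivity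
  have hx₁0 : 0 < x₁ := lt_min one_pos (div_pos (by linarith) hpos)
  have hx₁1 : x₁ ≤ 1 := min_le_left _ _
  have hball : ∀ x ∈ Set.Icc 0 x₁, ‖WS q p x‖ < 1 := by
    intro x hx
    have h1 : x ≤ (1 - ‖q‖) / (2 * (‖p - q‖ + 1)) := hx.2.trans (min_le_right _ _)
    rw [le_div_iff₀ hpos] at h1
    have h2 : ‖WS q p x‖ ≤ ‖q‖ + x * ‖p - q‖ := by
      refine (norm_add_le _ _).trans ?_
      rw [norm_mul, Complex.norm_real, Real.norm_of_nonneg hx.1]
    have h3 := norm_nonneg (p - q)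
    have h4 := hx.1
    nlinarith
  set p' : ℂ := WS q p x₁ with hp'
  have hp'Y : p' ∈ Y := hseg x₁ ⟨hx₁0, hx₁1⟩
  have hp'b : ‖p'‖ < 1 := hball x₁ ⟨hx₁0.le, le_rfl⟩
  have hWS : ∀ x ∈ Set.Ioc 0 x₁, WS q p x ∈ S := by
    intro x hx
    refine ⟨hseg x ⟨hx.1, hx.2.trans hx₁1⟩, ?_⟩
    rw [mem_ball_zero_iff]
    exact (hball x ⟨hx.1.le, hx.2⟩).trans hr
  have hp'S : p' ∈ S := hWS x₁ ⟨hx₁0, le_rfl⟩
  -- the arc
  obtain ⟨A, hAc, hAS, ⟨e', he'A, he'⟩, hAq⟩ := exists_arc hY hYc hp'b hp'Y ha haY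
  have hAS' : A ⊆ S := by
    intro w hw
    obtain ⟨h1, h2⟩ := hAS hw
    refine ⟨h1.1, ?_⟩
    rw [mem_closedBall_zero_iff] at h2
    rw [mem_ball_zero_iff]
    linarith
  have hPe := hstart s S hSo (fun w hw => hw.2) hSs (fun w hw => hs w hw.1) e' (hAS' he'A) he'
  obtain ⟨δ, hδ, hδS⟩ := Metric.isOpen_iff.1 hSo p' hp'S
  obtain ⟨w₁, hw₁A, hw₁q⟩ := hAq δ hδ
  have hPw := PP_connected hSo hSφ hSs hVS hAc hAS' he'A hPe hw₁A
  obtain ⟨ε, hε, _, F₀, hF₀, hV₀⟩ := PP_step hSo hSφ hSs hVS hδS hw₁q hPw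
  refine ⟨x₁, ⟨hx₁0, hx₁1⟩, hball, V (-1), hV (-1) le_rfl, F₀ p', fun x hx => ?_⟩
  -- thickening of the segment
  set K : Set ℂ := segment ℝ (WS q p x) p' with hK
  have hKc : IsCompact K := by
    rw [hK, segment_eq_image_lineMap]
    exact isCompact_Icc.image (AffineMap.lineMap_continuous)
  have hKS : K ⊆ S := by
    intro w hw
    obtain ⟨y, hy, rfl⟩ := segment_WS hx.2 hw
    exact hWS y ⟨hx.1.trans_le hy.1, hy.2⟩
  obtain ⟨η, hη, hηS⟩ := hKc.exists_thickening_subset_open hSo hKS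
  set N : Set ℂ := thickening η K with hN
  have hNo : IsOpen N := isOpen_thickening
  have hNc : Convex ℝ N := (convex_segment _ _).thickening η
  have hKN : K ⊆ N := self_subset_thickening hη K
  obtain ⟨F, hF, hFp, hVF⟩ := PP_convex hSo hSφ hSs hVS hε hF₀ hV₀ hNo hNc hηS
    (hKN (right_mem_segment ℝ _ _))
  have hwx : WS q p x ∈ N := hKN (left_mem_segment ℝ _ _)
  have hrec := recover (hSφ.differentiableAt (hSo.mem_nhds (hηS hwx))) (hd0 _ (hηS hwx))
    (hF _ hwx) (by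
      filter_upwards [hNo.mem_nhds hwx] with z hz
      exact hVF (-1) le_rfl z hz)
  rw [hrec]
  congr 3
  -- the integral
  have hmem : ∀ x' ∈ Set.uIcc x x₁, WS q p x' ∈ N := by
    intro x' hx'
    rw [Set.uIcc_of_le hx.2] at hx'
    exact hKN (WS_segment q p hx'.1 hx'.2)
  have hcont : ContinuousOn (fun x' => (p - q) • pw 1 (lam / 4) φ s (WS q p x'))
      (Set.uIcc x x₁) := by
    intro x' hx'
    have hn := hSo.mem_nhds (hηS (hmem x' hx'))
    have h1 : ContinuousAt (pw 1 (lam / 4) φ s) (WS q p x') :=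
      (differentiableAt_pw (hSφ.differentiableAt hn)
        (hφ'.differentiableAt (isOpen_ball.mem_nhds (hηS (hmem x' hx')).2))
        (hSs.differentiableAt hn)).continuousAt
    exact ((h1.comp (continuous_WS q p).continuousAt).const_smul (p - q)).continuousWithinAt
  have h2 := intervalIntegral.integral_eq_sub_of_hasDerivAt
    (f := fun x' => F (WS q p x')) (f' := fun x' => (p - q) • pw 1 (lam / 4) φ s (WS q p x'))
    (fun x' hx' => (hF _ (hmem x' hx')).scomp x' (hasDerivAt_WS q p x'))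
    hcont.intervalIntegrable
  rw [h2, ← hFp]
  abel

end Pool.Agent.MP_83fd13_an
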