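import Mathlib
import Pool.Agent.MP_83fd13_an.Ess3

namespace Pool.Agent.MP_83fd13_an

open Filter Metric Set
open scoped Topology

variable {E : Type*} [NormedAddCommGroup E] [NormedSpace ℂ E] [CompleteSpace E]

/-- The class of functions on which the iteration acts. -/
def HP1 (q : ℂ) (f₀ : E) (δ R : ℝ) : Set (ℂ → E) :=
  {G | DifferentiableOn ℂ G (ball q δ) ∧ (∀ z ∈ ball q δ, G z ∈ closedBall f₀ R) ∧ G q = f₀}

omit [CompleteSpace E] in
/-- Mean value bound on a disc. -/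
theorem norm_sub_center_le {G : ℂ → E} {g : ℂ → E} {q : ℂ} {δ C : ℝ} (hδ : 0 < δ) (hC : 0 ≤ C)
    (hG : ∀ z ∈ ball q δ, HasDerivAt G (g z) z) (hg : ∀ z ∈ ball q δ, ‖g z‖ ≤ C) {z : ℂ}
    (hz : z ∈ ball q δ) : ‖G z - G q‖ ≤ δ * C := by
  have h1 := (convex_ball q δ).norm_image_sub_le_of_norm_hasDerivWithin_le
    (fun z hz => (hG z hz).hasDerivWithinAt) hg (mem_ball_self hδ) hz
  refine h1.trans ?_
  rw [mul_comm]
  have : ‖z - q‖ ≤ δ := by
    rw [← dist_eq_norm]
    exact (mem_ball.1 hz).le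
  gcongr

/-- Holomorphic Picard theorem. -/
theorem holo_picard {Θ : ℂ → E → E} {q : ℂ} {f₀ : E} {R M K δ : ℝ} (hδ : 0 < δ) (hR : 0 ≤ R)
    (hM0 : 0 ≤ M) (hK0 : 0 ≤ K)
    (hM : ∀ z ∈ ball q δ, ∀ F ∈ closedBall f₀ R, ‖Θ z F‖ ≤ M)
    (hK : ∀ z ∈ ball q δ, ∀ F ∈ closedBall f₀ R, ∀ F' ∈ closedBall f₀ R,
      ‖Θ z F - Θ z F'‖ ≤ K * ‖F - F'‖)
    (hδM : δ * M ≤ R) (hδK : δ * K ≤ 1 / 2)
    (hhol : ∀ G ∈ HP1 q f₀ δ R, DifferentiableOn ℂ (fun z => Θ z (G z)) (ball q δ)) :
    ∃ G ∈ HP1 q f₀ δ R, ∀ z ∈ ball q δ, HasDerivAt G (Θ z (G z)) z := by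
  have hq : q ∈ ball q δ := mem_ball_self hδ
  -- one step
  have hstep : ∀ G : HP1 (E := E) q f₀ δ R, ∃ G' : HP1 (E := E) q f₀ δ R,
      ∀ z ∈ ball q δ, HasDerivAt G'.1 (Θ z (G.1 z)) z := by
    rintro ⟨G, hG⟩
    obtain ⟨P, hP⟩ := exists_prim (convex_ball q δ) isOpen_ball (hhol G hG)
    have h1 : ∀ z ∈ ball q δ, HasDerivAt (fun z => P z - P q + f₀) (Θ z (G z)) z := fun z hz =>
      ((hP z hz).sub_const _).add_const _
    refine ⟨⟨fun z => P z - P q + f₀, fun z hz => (h1 z hz).differentiableAt.differentiableWithinAt,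
      fun z hz => ?_, by simp⟩, h1⟩
    have h2 := norm_sub_center_le hδ hM0 h1 (fun z hz => hM z hz _ (hG.2.1 z hz)) hz
    rw [sub_self, zero_add] at h2
    rw [mem_closedBall, dist_eq_norm]
    exact h2.trans hδM
  choose step hstep' using hstep
  set G₀ : HP1 (E := E) q f₀ δ R := ⟨fun _ => f₀, (differentiable_const f₀).differentiableOn,
    fun z _ => mem_closedBall_self hR, rfl⟩ with hG₀
  set g : ℕ → HP1 (E := E) q f₀ δ R := fun n => Nat.rec G₀ (fun _ G => step G) n with hg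
  have hgs : ∀ n, g (n + 1) = step (g n) := fun n => rfl
  have hder : ∀ n, ∀ z ∈ ball q δ, HasDerivAt (g (n + 1)).1 (Θ z ((g n).1 z)) z := fun n =>
    hstep' (g n)
  have hdiff : ∀ n, ∀ z ∈ ball q δ, ‖(g (n + 1)).1 z - (g n).1 z‖ ≤ R * (1 / 2) ^ n := by
    intro n
    induction n with
    | zero =>
      intro z hz
      have h1 := (g 1).2.2.1 z hz
      rw [mem_closedBall, dist_eq_norm] at h1
      rw [pow_zero, mul_one]
      exact h1
    | succ n ih =>
      intro z hz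
      have h1 : ∀ z ∈ ball q δ, HasDerivAt (fun z => (g (n + 2)).1 z - (g (n + 1)).1 z)
          (Θ z ((g (n + 1)).1 z) - Θ z ((g n).1 z)) z := fun z hz =>
        (hder (n + 1) z hz).sub (hder n z hz)
      have h2 := norm_sub_center_le hδ (C := K * (R * (1 / 2) ^ n)) (by positivity) h1
        (fun z hz => (hK z hz _ ((g (n + 1)).2.2.1 z hz) _ ((g n).2.2.1 z hz)).trans
          (by gcongr; exact ih z hz)) hz
      have h3 : (g (n + 2)).1 q - (g (n + 1)).1 q = 0 := by
        rw [(g (n + 2)).2.2.2, (g (n + 1)).2.2.2, sub_self]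
      simp only [h3, sub_zero] at h2
      refine h2.trans ?_
      have h4 : δ * (K * (R * (1 / 2) ^ n)) = (δ * K) * (R * (1 / 2) ^ n) := by ring
      rw [h4, pow_succ]
      have h5 : 0 ≤ R * (1 / 2) ^ n := by positivity
      nlinarith
  -- the limit
  have hcau : ∀ z ∈ ball q δ, CauchySeq fun n => (g n).1 z := by
    intro z hz
    refine cauchySeq_of_le_geometric (1 / 2) R (by norm_num) fun n => ?_
    rw [dist_comm, dist_eq_norm]
    exact hdiff n z hz
  set G : ℂ → E := fun z => limUnder atTop fun n => (g n).1 z with hGdef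
  have hlim : ∀ z ∈ ball q δ, Tendsto (fun n => (g n).1 z) atTop (𝓝 (G z)) := fun z hz =>
    (hcau z hz).tendsto_limUnder
  have hbound : ∀ n, ∀ z ∈ ball q δ, ‖G z - (g n).1 z‖ ≤ 2 * R * (1 / 2) ^ n := by
    intro n z hz
    have h1 := dist_le_of_le_geometric_of_tendsto (1 / 2) R (f := fun n => (g n).1 z)
      (by norm_num) (fun n => by
        rw [dist_comm, dist_eq_norm]
        exact hdiff n z hz) (hlim z hz) n
    rw [dist_comm, dist_eq_norm] at h1
    refine h1.trans (le_of_eq ?_)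
    ring
  have hunif : TendstoUniformlyOn (fun n => (g n).1) G atTop (ball q δ) := by
    rw [Metric.tendstoUniformlyOn_iff]
    intro ε hε
    have h1 : Tendsto (fun n : ℕ => 2 * R * (1 / 2 : ℝ) ^ n) atTop (𝓝 (2 * R * 0)) :=
      (tendsto_pow_atTop_nhds_zero_of_lt_one (by norm_num) (by norm_num)).const_mul _
    rw [mul_zero] at h1
    filter_upwards [h1.eventually_lt_const hε] with n hn z hz
    rw [dist_eq_norm]
    exact (hbound n z hz).trans_lt hn
  have hGd : DifferentiableOn ℂ G (ball q δ) :=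
    hunif.tendstoLocallyUniformlyOn.differentiableOn
      (Eventually.of_forall fun n => (g n).2.1) isOpen_ball
  have hGR : ∀ z ∈ ball q δ, G z ∈ closedBall f₀ R := fun z hz =>
    isClosed_closedBall.mem_of_tendsto (hlim z hz) (Eventually.of_forall fun n => (g n).2.2.1 z hz)
  have hGq : G q = f₀ := by
    refine tendsto_nhds_unique (hlim q hq) ?_
    have : (fun n => (g n).1 q) = fun _ => f₀ := funext fun n => (g n).2.2.2
    rw [this]
    exact tendsto_const_nhds
  have hG : G ∈ HP1 q f₀ δ R := ⟨hGd, hGR, hGq⟩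
  refine ⟨G, hG, ?_⟩
  -- the equation
  have h1 := hstep' ⟨G, hG⟩
  set P := step ⟨G, hG⟩ with hP
  have h2 : ∀ z ∈ ball q δ, P.1 z = G z := by
    intro z hz
    refine tendsto_nhds_unique ?_ (((tendsto_add_atTop_iff_nat 1).2 (hlim z hz)))
    rw [tendsto_iff_norm_sub_tendsto_zero]
    have h3 : Tendsto (fun n : ℕ => δ * (K * (2 * R * (1 / 2 : ℝ) ^ n))) atTop
        (𝓝 (δ * (K * (2 * R * 0)))) :=
      (((tendsto_pow_atTop_nhds_zero_of_lt_one (by norm_num) (by norm_num)).const_mul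
        (2 * R)).const_mul K).const_mul δ
    rw [mul_zero, mul_zero, mul_zero] at h3
    refine squeeze_zero (fun _ => norm_nonneg _) (fun n => ?_) h3
    have h4 : ∀ z ∈ ball q δ, HasDerivAt (fun z => (g (n + 1)).1 z - P.1 z)
        (Θ z ((g n).1 z) - Θ z (G z)) z := fun z hz => (hder n z hz).sub (h1 z hz)
    have h5 := norm_sub_center_le hδ (C := K * (2 * R * (1 / 2) ^ n)) (by positivity) h4
      (fun z hz => (hK z hz _ ((g n).2.2.1 z hz) _ (hGR z hz)).trans (by
        gcongr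
        rw [← norm_neg, neg_sub]
        exact hbound n z hz)) hz
    have h6 : (g (n + 1)).1 q - P.1 q = 0 := by
      rw [(g (n + 1)).2.2.2, P.2.2.2, sub_self]
    simp only [h6, sub_zero] at h5
    exact h5
  intro z hz
  have h3 := h1 z hz
  refine h3.congr_of_eventuallyEq ?_
  filter_upwards [isOpen_ball.mem_nhds hz] with z' hz'
  exact (h2 z' hz').symm

end Pool.Agent.MP_83fd13_an
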