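import Mathlib
import Pool.Agent.MP_83fd13_an.Sp3
import Pool.Agent.MP_83fd13_an.Sp4

namespace Pool.Agent.MP_83fd13_an

open Filter Metric Set
open scoped Topology

section general

variable {E : Type*} [NormedAddCommGroup E] [NormedSpace ℂ E] [CompleteSpace E]

/-- A solution of a holomorphic equation along a segment, with a limit at the end point, extends
holomorphically. -/
theorem ode_extend {Θ : ℂ × E → E} {q p : ℂ} {f₀ : E} {N : Set ℂ} (hN : IsOpen N) (hq : q ∈ N)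
    (hΘ : ∀ z ∈ N, ∀ F, AnalyticAt ℂ Θ (z, F)) {x₁ : ℝ} (hx₁ : 0 < x₁) {f : ℝ → E}
    (hf : ∀ x ∈ Ioo 0 x₁, HasDerivAt f ((p - q) • Θ (WS q p x, f x)) x)
    (hlim : Tendsto f (𝓝[>] 0) (𝓝 f₀)) :
    ∃ δ > 0, ∃ G : ℂ → E, DifferentiableOn ℂ G (ball q δ) ∧ ball q δ ⊆ N ∧
      ∀ᶠ x in 𝓝[>] (0 : ℝ), f x = G (WS q p x) := by
  obtain ⟨K, t, ht, hLip⟩ := ((hΘ q hq f₀).contDiffAt (n := 1)).exists_lipschitzOnWith
  obtain ⟨ρ, hρ, hρt⟩ := Metric.mem_nhds_iff.1 ht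
  set R : ℝ := ρ / 2 with hR
  have hR0 : 0 < R := by positivity
  set M : ℝ := K * ρ + ‖Θ (q, f₀)‖ with hMdef
  have hM0 : 0 ≤ M := by positivity
  obtain ⟨δ₁, hδ₁, hδ₁N⟩ := Metric.isOpen_iff.1 hN q hq
  set δ : ℝ := min (min δ₁ ρ) (min (R / (M + 1)) (1 / (2 * (K + 1)))) with hδdef
  have hK0 : (0 : ℝ) ≤ K := K.2
  have hδ : 0 < δ := by
    refine lt_min (lt_min hδ₁ hρ) (lt_min ?_ ?_) <;> positivity
  have hδδ₁ : δ ≤ δ₁ := (min_le_left _ _).trans (min_le_left _ _)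
  have hδρ : δ ≤ ρ := (min_le_left _ _).trans (min_le_right _ _)
  have hδM : δ * M ≤ R := by
    have h1 : δ ≤ R / (M + 1) := (min_le_right _ _).trans (min_le_left _ _)
    rw [le_div_iff₀ (by positivity)] at h1
    nlinarith
  have hδK : δ * K ≤ 1 / 2 := by
    have h1 : δ ≤ 1 / (2 * (K + 1)) := (min_le_right _ _).trans (min_le_right _ _)
    rw [le_div_iff₀ (by positivity)] at h1
    nlinarith
  have hsub : ∀ z ∈ ball q δ, ∀ F ∈ closedBall f₀ R, (z, F) ∈ ball (q, f₀) ρ := by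
    intro z hz F hF
    rw [mem_ball, Prod.dist_eq, max_lt_iff]
    refine ⟨(mem_ball.1 hz).trans_le hδρ, (mem_closedBall.1 hF).trans_lt ?_⟩
    rw [hR]; linarith
  have hM : ∀ z ∈ ball q δ, ∀ F ∈ closedBall f₀ R, ‖Θ (z, F)‖ ≤ M := by
    intro z hz F hF
    have h1 := hLip.dist_le_mul _ (hρt (hsub z hz F hF)) _ (hρt (mem_ball_self hρ))
    have h2 : dist (z, F) (q, f₀) ≤ ρ := (mem_ball.1 (hsub z hz F hF)).le
    have h3 : ‖Θ (z, F)‖ ≤ dist (Θ (z, F)) (Θ (q, f₀)) + ‖Θ (q, f₀)‖ := by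
      rw [dist_eq_norm]
      exact norm_le_norm_sub_add _ _
    rw [hMdef]
    nlinarith
  have hK : ∀ z ∈ ball q δ, ∀ F ∈ closedBall f₀ R, ∀ F' ∈ closedBall f₀ R,
      ‖Θ (z, F) - Θ (z, F')‖ ≤ K * ‖F - F'‖ := by
    intro z hz F hF F' hF'
    have h1 := hLip.dist_le_mul _ (hρt (hsub z hz F hF)) _ (hρt (hsub z hz F' hF'))
    rw [dist_eq_norm, Prod.dist_eq, dist_self, max_eq_right dist_nonneg, dist_eq_norm] at h1
    exact h1
  obtain ⟨G, hG, hGd⟩ := holo_picard (Θ := fun z F => Θ (z, F)) hδ hR0.le hM0 hK0 hM hK hδM hδK (by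
    intro G hG z hz
    have h1 : DifferentiableAt ℂ Θ (z, G z) := (hΘ z (hδ₁N (ball_subset_ball hδδ₁ hz)) _).differentiableAt
    have h2 : DifferentiableAt ℂ (fun z => (z, G z)) z :=
      differentiableAt_id.prodMk (hG.1.differentiableAt (isOpen_ball.mem_nhds hz))
    exact (h1.comp z h2).differentiableWithinAt)
  refine ⟨δ, hδ, G, hG.1, fun z hz => hδ₁N (ball_subset_ball hδδ₁ hz), ?_⟩
  -- a small interval
  have hW0 : Tendsto (WS q p) (𝓝[>] 0) (𝓝 q) := by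
    have := (continuous_WS q p).tendsto 0
    rw [WS_zero] at this
    exact this.mono_left nhdsWithin_le_nhds
  have hev : ∀ᶠ x in 𝓝[>] (0 : ℝ), x < x₁ ∧ WS q p x ∈ ball q δ ∧ f x ∈ closedBall f₀ R := by
    have h1 : ∀ᶠ x in 𝓝[>] (0 : ℝ), x < x₁ := by
      filter_upwards [Ioo_mem_nhdsGT hx₁] with x hx using hx.2
    exact h1.and ((hW0.eventually (ball_mem_nhds q hδ)).and
      (hlim.eventually (closedBall_mem_nhds f₀ hR0)))
  obtain ⟨x₂, hx₂, hx₂s⟩ := mem_nhdsGT_iff_exists_Ioo_subset.1 hev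
  have hx₂0 : (0 : ℝ) < x₂ := hx₂
  have hgood : ∀ x ∈ Ioo 0 x₂, x < x₁ ∧ WS q p x ∈ ball q δ ∧ f x ∈ closedBall f₀ R := fun x hx =>
    hx₂s hx
  set e : ℝ → E := fun x => f x - G (WS q p x) with he
  set e' : ℝ → E := fun x => (p - q) • Θ (WS q p x, f x) - (p - q) • Θ (WS q p x, G (WS q p x))
  have hed : ∀ x ∈ Ioo 0 x₂, HasDerivAt e (e' x) x := by
    intro x hx
    obtain ⟨h1, h2, h3⟩ := hgood x hx
    exact (hf x ⟨hx.1, h1⟩).sub ((hGd _ h2).scomp x (hasDerivAt_WS q p x))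
  set K' : ℝ := ‖p - q‖ * K with hK'
  have hK'0 : 0 ≤ K' := by positivity
  have hb : ∀ x ∈ Ioo 0 x₂, ‖e' x‖ ≤ K' * ‖e x‖ + 0 := by
    intro x hx
    obtain ⟨h1, h2, h3⟩ := hgood x hx
    have h4 := hK _ h2 _ h3 _ (hG.2.1 _ h2)
    have h5 : e' x = (p - q) • (Θ (WS q p x, f x) - Θ (WS q p x, G (WS q p x))) := by
      rw [smul_sub]
    rw [h5, norm_smul, add_zero, hK', mul_assoc]
    gcongr
  have he0 : Tendsto (fun x => ‖e x‖) (𝓝[>] 0) (𝓝 0) := by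
    have h1 : Tendsto (fun x => G (WS q p x)) (𝓝[>] 0) (𝓝 (G q)) := by
      have h2 : ContinuousAt G q :=
        (hG.1.differentiableAt (ball_mem_nhds q hδ)).continuousAt
      exact h2.tendsto.comp hW0
    have h2 := (hlim.sub h1).norm
    rw [hG.2.2, sub_self, norm_zero] at h2
    exact h2
  filter_upwards [Ioo_mem_nhdsGT hx₂0] with x hx
  have hkey : ∀ a ∈ Ioo 0 x, ‖e x‖ ≤ ‖e a‖ * Real.exp (K' * x) := by
    intro a ha
    have hsub' : ∀ y ∈ Icc a x, y ∈ Ioo 0 x₂ := fun y hy =>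
      ⟨ha.1.trans_le hy.1, hy.2.trans_lt hx.2⟩
    have h1 := norm_le_gronwallBound_of_norm_deriv_right_le (f := e) (f' := e') (δ := ‖e a‖)
      (K := K') (ε := 0) (a := a) (b := x)
      (fun y hy => (hed y (hsub' y hy)).continuousAt.continuousWithinAt)
      (fun y hy => (hed y (hsub' y ⟨hy.1, hy.2.le⟩)).hasDerivWithinAt) le_rfl
      (fun y hy => hb y (hsub' y ⟨hy.1, hy.2.le⟩)) x ⟨ha.2.le, le_rfl⟩
    rw [gronwallBound_ε0] at h1
    refine h1.trans ?_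
    have := ha.1
    gcongr
    linarith
  have h1 : ‖e x‖ ≤ 0 := by
    have h2 : Tendsto (fun a => ‖e a‖ * Real.exp (K' * x)) (𝓝[>] 0) (𝓝 (0 * Real.exp (K' * x))) :=
      he0.mul_const _
    rw [zero_mul] at h2
    refine ge_of_tendsto h2 ?_
    filter_upwards [Ioo_mem_nhdsGT hx.1] with a ha using hkey a ha
  have h2 : e x = 0 := norm_le_zero_iff.1 h1
  exact sub_eq_zero.1 h2

end general

attribute [local instance] fact_two_pi

/-- The value of `X s` determined by the point and the primitive. -/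
noncomputable def SG (φ v : ℂ → ℂ) (P : ℂ × EE) : ℂ :=
  deriv v P.1 / deriv φ P.1 - cf (-2) (NormedSpace.exp (φ P.1 • tau 1) * P.2)

/-- The right-hand side of the equation for the primitive. -/
noncomputable def TH (φ v : ℂ → ℂ) (P : ℂ × EE) : EE :=
  deriv φ P.1 • (NormedSpace.exp ((-φ P.1) • tau 1) * NormedSpace.exp (SG φ v P • taui 1))

theorem analyticAt_exp_comp {f : ℂ × EE → ℂ} {b : EE} {P : ℂ × EE} (hf : AnalyticAt ℂ f P) :
    AnalyticAt ℂ (fun P => NormedSpace.exp (f P • b)) P := by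
  have h1 : AnalyticAt ℂ (fun P => f P • b) P := hf.smul analyticAt_const
  have h2 : AnalyticAt ℂ (NormedSpace.exp : EE → EE) ((fun P => f P • b) P) :=
    NormedSpace.exp_analytic (𝕂 := ℂ) (f P • b)
  exact AnalyticAt.comp (g := (NormedSpace.exp : EE → EE)) (f := fun P => f P • b) h2 h1

theorem analyticAt_SG {φ v : ℂ → ℂ} {z : ℂ} (hφ : AnalyticAt ℂ φ z) (hv : AnalyticAt ℂ v z)
    (hd : deriv φ z ≠ 0) (F : EE) : AnalyticAt ℂ (SG φ v) (z, F) := by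
  have hfst : AnalyticAt ℂ (Prod.fst : ℂ × EE → ℂ) (z, F) := analyticAt_fst
  have hsnd : AnalyticAt ℂ (Prod.snd : ℂ × EE → EE) (z, F) := analyticAt_snd
  have h1 : AnalyticAt ℂ (fun P : ℂ × EE => φ P.1) (z, F) := hφ.comp hfst
  have h2 : AnalyticAt ℂ (fun P : ℂ × EE => deriv φ P.1) (z, F) :=
    AnalyticAt.comp (g := deriv φ) (f := (Prod.fst : ℂ × EE → ℂ)) hφ.deriv hfst
  have h3 : AnalyticAt ℂ (fun P : ℂ × EE => deriv v P.1) (z, F) :=
    AnalyticAt.comp (g := deriv v) (f := (Prod.fst : ℂ × EE → ℂ)) hv.deriv hfst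
  have h4 := (analyticAt_exp_comp (b := tau 1) h1).mul hsnd
  have h5 : AnalyticAt ℂ (fun P : ℂ × EE => cf (-2) (NormedSpace.exp (φ P.1 • tau 1) * P.2))
      (z, F) := AnalyticAt.comp (g := cf (-2))
        (f := fun P : ℂ × EE => NormedSpace.exp (φ P.1 • tau 1) * P.2) ((cf (-2)).analyticAt _) h4
  exact (h3.div h2 hd).sub h5

theorem analyticAt_TH {φ v : ℂ → ℂ} {z : ℂ} (hφ : AnalyticAt ℂ φ z) (hv : AnalyticAt ℂ v z)
    (hd : deriv φ z ≠ 0) (F : EE) : AnalyticAt ℂ (TH φ v) (z, F) := by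
  have hfst : AnalyticAt ℂ (Prod.fst : ℂ × EE → ℂ) (z, F) := analyticAt_fst
  have h1 : AnalyticAt ℂ (fun P : ℂ × EE => -φ P.1) (z, F) := (hφ.comp hfst).neg
  have h2 : AnalyticAt ℂ (fun P : ℂ × EE => deriv φ P.1) (z, F) :=
    AnalyticAt.comp (g := deriv φ) (f := (Prod.fst : ℂ × EE → ℂ)) hφ.deriv hfst
  exact h2.smul ((analyticAt_exp_comp (b := tau 1) h1).mul
    (analyticAt_exp_comp (b := taui 1) (analyticAt_SG hφ hv hd F)))

end Pool.Agent.MP_83fd13_an
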