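import Mathlib

namespace Pool.Agent.MP_83fd13_an

open Filter Set MeasureTheory
open scoped Topology

/-- A Volterra inequality with a quadratic kernel: solutions which are `o(1/x)` are bounded. -/
theorem volterra_bdd {σ : ℝ → ℝ} {x₁ C : ℝ} (hx₁ : 0 < x₁) (hσc : ContinuousOn σ (Ioc 0 x₁))
    (hσ0 : ∀ x, 0 ≤ σ x) (hC : 0 ≤ C)
    (hV : ∀ x ∈ Ioc 0 x₁, σ x ≤ C + C * ∫ x' in x..x₁, (σ x') ^ 2)
    (hsub : Tendsto (fun x => x * σ x) (𝓝[>] 0) (𝓝 0)) :
    ∃ M, ∀ x ∈ Ioc 0 x₁, σ x ≤ M := by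
  set g : ℝ → ℝ := fun x => 1 + C + C * ∫ x' in x..x₁, (σ x') ^ 2 with hg
  have hσ2c : ContinuousOn (fun x => (σ x) ^ 2) (Ioc 0 x₁) := hσc.pow 2
  have hsubI : ∀ x ∈ Ioc 0 x₁, uIcc x x₁ ⊆ Ioc 0 x₁ := by
    intro x hx y hy
    rw [uIcc_of_le hx.2] at hy
    exact ⟨hx.1.trans_le hy.1, hy.2⟩
  have hint0 : ∀ x ∈ Ioc 0 x₁, 0 ≤ ∫ x' in x..x₁, (σ x') ^ 2 := fun x hx =>
    intervalIntegral.integral_nonneg hx.2 fun y _ => sq_nonneg _
  have hg1 : ∀ x ∈ Ioc 0 x₁, 1 ≤ g x := by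
    intro x hx
    have := mul_nonneg hC (hint0 x hx)
    simp only [hg]
    linarith
  have hσg : ∀ x ∈ Ioc 0 x₁, σ x ≤ g x := by
    intro x hx
    have := hV x hx
    simp only [hg]
    linarith
  have hgd : ∀ x ∈ Ioo 0 x₁, HasDerivAt g (-(C * (σ x) ^ 2)) x := by
    intro x hx
    have hx' : x ∈ Ioc 0 x₁ := ⟨hx.1, hx.2.le⟩
    have hn : Ioc 0 x₁ ∈ 𝓝 x := Ioc_mem_nhds hx.1 hx.2
    have h1 : HasDerivAt (fun x => ∫ x' in x..x₁, (σ x') ^ 2) (-(σ x) ^ 2) x := by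
      apply intervalIntegral.integral_hasDerivAt_left
        ((hσ2c.mono (hsubI x hx')).intervalIntegrable)
      · exact hσ2c.stronglyMeasurableAtFilter_nhdsWithin measurableSet_Ioc x |>.filter_mono
          (le_of_eq (nhdsWithin_eq_nhds.2 hn).symm)
      · exact hσ2c.continuousAt hn
    have h2 := (h1.const_mul C).const_add (1 + C)
    refine h2.congr_deriv ?_
    ring
  have hgc : ContinuousOn g (Ioc 0 x₁) := by
    intro x hx
    rcases eq_or_lt_of_le hx.2 with h | h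
    · have h1 : ContinuousOn (fun x => ∫ x' in x..x₁, (σ x') ^ 2) (uIcc (x₁ / 2) x₁) := by
        have h2 := intervalIntegral.continuousOn_primitive_interval' (f := fun x => (σ x) ^ 2)
          (μ := volume) (a := x₁) (b₁ := x₁ / 2) (b₂ := x₁)
          ((hσ2c.mono (hsubI (x₁ / 2) ⟨by positivity, by linarith⟩)).intervalIntegrable)
          right_mem_uIcc
        have h3 : (fun x => ∫ x' in x..x₁, (σ x') ^ 2) = fun x => -∫ x' in x₁..x, (σ x') ^ 2 := by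
          funext x
          rw [intervalIntegral.integral_symm]
        rw [h3]
        exact h2.neg
      have h4 : ContinuousWithinAt (fun x => ∫ x' in x..x₁, (σ x') ^ 2) (Ioc 0 x₁) x := by
        have h5 := h1 x (by rw [h]; exact right_mem_uIcc)
        refine h5.mono_of_mem_nhdsWithin ?_
        rw [uIcc_of_le (by linarith)]
        have h6 : Ici (x₁ / 2) ∈ 𝓝 x := Ici_mem_nhds (by linarith)
        filter_upwards [mem_nhdsWithin_of_mem_nhds h6, self_mem_nhdsWithin] with y hy1 hy2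
        exact ⟨hy1, hy2.2⟩
      exact (h4.const_mul C).const_add (1 + C)
    · exact (hgd x ⟨hx.1, h⟩).continuousAt.continuousWithinAt
  -- the small interval
  have hev : ∀ᶠ x in 𝓝[>] (0 : ℝ), 4 * C * (x * σ x) ≤ 1 ∧ x < x₁ := by
    have h1 : Tendsto (fun x => 4 * C * (x * σ x)) (𝓝[>] 0) (𝓝 (4 * C * 0)) := hsub.const_mul _
    rw [mul_zero] at h1
    refine (h1.eventually_le_const one_pos).and ?_
    filter_upwards [Ioo_mem_nhdsGT hx₁] with x hx using hx.2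
  obtain ⟨x₃, hx₃, hx₃s⟩ := mem_nhdsGT_iff_exists_Ioo_subset.1 hev
  have hx₃0 : (0 : ℝ) < x₃ := hx₃
  set x₂ : ℝ := min (x₃ / 2) (x₁ / 2) with hx₂
  have hx₂0 : 0 < x₂ := lt_min (by positivity) (by positivity)
  have hx₂1 : x₂ < x₁ := (min_le_right _ _).trans_lt (by linarith)
  have hx₂3 : x₂ < x₃ := (min_le_left _ _).trans_lt (by linarith)
  have hsm : ∀ x ∈ Ioc 0 x₂, 4 * C * (x * σ x) ≤ 1 := fun x hx =>
    (hx₃s ⟨hx.1, hx.2.trans_lt hx₂3⟩ : _ ∧ _).1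
  have hsub2 : ∀ x ∈ Ioc 0 x₂, x ∈ Ioc 0 x₁ := fun x hx => ⟨hx.1, hx.2.trans hx₂1.le⟩
  have hint : ∀ x ∈ interior (Ioc 0 x₂), x ∈ Ioo 0 x₂ := by
    intro x hx
    rwa [interior_Ioc] at hx
  have hsub3 : ∀ x ∈ Ioo 0 x₂, x ∈ Ioo 0 x₁ := fun x hx => ⟨hx.1, hx.2.trans hx₂1⟩
  have hmono1 : MonotoneOn (fun x => (g x) ^ 4 * x) (Ioc 0 x₂) := by
    have hd : ∀ x ∈ Ioo 0 x₂, HasDerivAt (fun x => (g x) ^ 4 * x)
        (4 * (g x) ^ 3 * (-(C * (σ x) ^ 2)) * x + (g x) ^ 4) x := by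
      intro x hx
      have h1 := ((hgd x (hsub3 x hx)).pow 4).mul (hasDerivAt_id x)
      refine h1.congr_deriv ?_
      simp
    apply monotoneOn_of_deriv_nonneg (convex_Ioc 0 x₂)
    · exact ((hgc.mono hsub2).pow 4).mul continuousOn_id
    · exact fun x hx => (hd x (hint x hx)).differentiableAt.differentiableWithinAt
    · intro x hx
      have hx' := hint x hx
      have hx'' : x ∈ Ioc 0 x₂ := ⟨hx'.1, hx'.2.le⟩
      rw [(hd x hx').deriv]
      have h1 := hsm x hx''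
      have h2 := hσg x (hsub2 x hx'')
      have h3 := hσ0 x
      have h4 := hg1 x (hsub2 x hx'')
      have h5 : 4 * C * (x * σ x) * σ x ≤ 1 * g x := by
        have : 0 ≤ 4 * C * (x * σ x) := by
          have := hx'.1
          positivity
        nlinarith
      have h6 : 0 ≤ (g x) ^ 3 := by positivity
      have h7 : 4 * g x ^ 3 * -(C * σ x ^ 2) * x + g x ^ 4 =
          g x ^ 3 * (1 * g x - 4 * C * (x * σ x) * σ x) := by ring
      rw [h7]
      exact mul_nonneg h6 (by linarith)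
  set Q : ℝ := (g x₂) ^ 4 * x₂ with hQ
  have hx₂m : x₂ ∈ Ioc 0 x₂ := ⟨hx₂0, le_rfl⟩
  have hQ0 : 0 < Q := by
    have := hg1 x₂ (hsub2 x₂ hx₂m)
    positivity
  have hg2 : ∀ x ∈ Ioc 0 x₂, (g x) ^ 2 ≤ √Q / √x := by
    intro x hx
    have h1 : (g x) ^ 4 * x ≤ Q := hmono1 hx hx₂m hx.2
    have h2 : 0 < √x := Real.sqrt_pos.2 hx.1
    rw [le_div_iff₀ h2]
    apply Real.le_sqrt_of_sq_le
    rw [mul_pow, Real.sq_sqrt hx.1.le]
    calc ((g x) ^ 2) ^ 2 * x = (g x) ^ 4 * x := by ring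
      _ ≤ Q := h1
  have hmono2 : MonotoneOn (fun x => g x + 2 * C * √Q * √x) (Ioc 0 x₂) := by
    have hd : ∀ x ∈ Ioo 0 x₂, HasDerivAt (fun x => g x + 2 * C * √Q * √x)
        (-(C * (σ x) ^ 2) + 2 * C * √Q * (1 / (2 * √x))) x := by
      intro x hx
      exact (hgd x (hsub3 x hx)).add ((Real.hasDerivAt_sqrt hx.1.ne').const_mul _)
    apply monotoneOn_of_deriv_nonneg (convex_Ioc 0 x₂)
    · exact (hgc.mono hsub2).add (by fun_prop)
    · exact fun x hx => (hd x (hint x hx)).differentiableAt.differentiableWithinAt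
    · intro x hx
      have hx' := hint x hx
      have hx'' : x ∈ Ioc 0 x₂ := ⟨hx'.1, hx'.2.le⟩
      rw [(hd x hx').deriv]
      have h1 := hg2 x hx''
      have h2 := hσg x (hsub2 x hx'')
      have h3 := hσ0 x
      have h4 : (σ x) ^ 2 ≤ √Q / √x := le_trans (by gcongr) h1
      have h5 : 2 * C * √Q * (1 / (2 * √x)) = C * (√Q / √x) := by
        have : 0 < √x := Real.sqrt_pos.2 hx'.1
        field_simp
      rw [h5]
      nlinarith
  refine ⟨g x₂ + 2 * C * √Q * √x₂, fun x hx => ?_⟩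
  refine (hσg x hx).trans ?_
  have hpos : ∀ y : ℝ, 0 ≤ 2 * C * √Q * √y := fun y => by positivity
  rcases le_total x x₂ with h | h
  · have h1 : g x + 2 * C * √Q * √x ≤ g x₂ + 2 * C * √Q * √x₂ := hmono2 ⟨hx.1, h⟩ hx₂m h
    linarith [hpos x]
  · have hanti : AntitoneOn g (Icc x₂ x₁) := by
      apply antitoneOn_of_deriv_nonpos (convex_Icc x₂ x₁)
      · exact hgc.mono fun y hy => ⟨hx₂0.trans_le hy.1, hy.2⟩
      · intro y hy
        rw [interior_Icc] at hy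
        exact (hgd y ⟨hx₂0.trans hy.1, hy.2⟩).differentiableAt.differentiableWithinAt
      · intro y hy
        rw [interior_Icc] at hy
        rw [(hgd y ⟨hx₂0.trans hy.1, hy.2⟩).deriv]
        have : 0 ≤ C * σ y ^ 2 := by positivity
        linarith
    have h1 := hanti ⟨le_rfl, hx₂1.le⟩ ⟨h, hx.2⟩ h
    linarith [hpos x₂]

end Pool.Agent.MP_83fd13_an
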