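import Mathlib
import Pool.Agent.MP_83fd13_an.Sp5
import Pool.Agent.MP_83fd13_an.Sp6

namespace Pool.Agent.MP_83fd13_an

open MeasureTheory Filter Metric
open scoped Topology ComplexConjugate

attribute [local instance] fact_two_pi

/-- The kernel. -/
noncomputable def KP (α β : ℂ) : ℂ :=
  cf (-2) (NormedSpace.exp (α • tau 1) * NormedSpace.exp (β • taui 1))

theorem norm_KP_le (α β : ℂ) : ‖KP α β‖ ≤ ‖β‖ ^ 2 / 2 * Real.exp (‖α‖ * ‖β‖) := kernel_bound α β

/-- The situation along the segment. -/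
structure SegData (φ s v : ℂ → ℂ) (X r : ℝ) (p q : ℂ) (x₁ : ℝ) (f₁ : EE) : Prop where
  hr : 1 < r
  hφ : DifferentiableOn ℂ φ (ball 0 r)
  hφ0 : ∀ w ∈ ball (0 : ℂ) r, deriv φ w ≠ 0
  hv : DifferentiableOn ℂ v (ball 0 r)
  hx₁ : 0 < x₁
  hball : ∀ x ∈ Set.Icc 0 x₁, ‖WS q p x‖ < 1
  hs : ∀ x ∈ Set.Ioc 0 x₁, DifferentiableAt ℂ s (WS q p x)
  hX : 0 < X
  key : ∀ x ∈ Set.Ioc 0 x₁, (X : ℂ) * s (WS q p x) = deriv v (WS q p x) / deriv φ (WS q p x) -
        cf (-2) (NormedSpace.exp (φ (WS q p x) • tau 1) *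
          (f₁ - ∫ x' in x..x₁, (p - q) • pw 1 X φ s (WS q p x')))

variable {φ s v : ℂ → ℂ} {X r : ℝ} {p q : ℂ} {x₁ : ℝ} {f₁ : EE}

theorem SegData.mem (h : SegData φ s v X r p q x₁ f₁) {x : ℝ} (hx : x ∈ Set.Icc 0 x₁) :
    WS q p x ∈ ball (0 : ℂ) r := by
  rw [mem_ball_zero_iff]
  exact (h.hball x hx).trans h.hr

theorem SegData.contφ (h : SegData φ s v X r p q x₁ f₁) :
    ContinuousOn (fun x => φ (WS q p x)) (Set.Icc 0 x₁) :=
  h.hφ.continuousOn.comp (continuous_WS q p).continuousOn fun _ hx => h.mem hx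

theorem SegData.contφ' (h : SegData φ s v X r p q x₁ f₁) :
    ContinuousOn (fun x => deriv φ (WS q p x)) (Set.Icc 0 x₁) :=
  (h.hφ.deriv isOpen_ball).continuousOn.comp (continuous_WS q p).continuousOn fun _ hx => h.mem hx

theorem SegData.conts (h : SegData φ s v X r p q x₁ f₁) :
    ContinuousOn (fun x => s (WS q p x)) (Set.Ioc 0 x₁) := fun x hx =>
  ((h.hs x hx).continuousAt.comp (continuous_WS q p).continuousAt).continuousWithinAt

theorem SegData.contpw (h : SegData φ s v X r p q x₁ f₁) :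
    ContinuousOn (fun x => (p - q) • pw 1 X φ s (WS q p x)) (Set.Ioc 0 x₁) := by
  intro x hx
  have hx' : x ∈ Set.Icc 0 x₁ := ⟨hx.1.le, hx.2⟩
  have hn := isOpen_ball.mem_nhds (h.mem hx')
  have h1 : ContinuousAt (pw 1 X φ s) (WS q p x) :=
    (differentiableAt_pw (h.hφ.differentiableAt hn)
      ((h.hφ.deriv isOpen_ball).differentiableAt hn) (h.hs x hx)).continuousAt
  exact ((h1.comp (continuous_WS q p).continuousAt).const_smul (p - q)).continuousWithinAt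

theorem uIcc_sub {x x₁ : ℝ} (hx : x ∈ Set.Ioc 0 x₁) : Set.uIcc x x₁ ⊆ Set.Ioc 0 x₁ := by
  intro y hy
  rw [Set.uIcc_of_le hx.2] at hy
  exact ⟨hx.1.trans_le hy.1, hy.2⟩

/-- The regular part. -/
noncomputable def DD (φ v : ℂ → ℂ) (p q : ℂ) (f₁ : EE) (x : ℝ) : ℂ :=
  deriv v (WS q p x) / deriv φ (WS q p x) - cf (-2) (NormedSpace.exp (φ (WS q p x) • tau 1) * f₁)

theorem SegData.contDD (h : SegData φ s v X r p q x₁ f₁) :
    ContinuousOn (DD φ v p q f₁) (Set.Icc 0 x₁) := by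
  have h1 : ContinuousOn (fun x => deriv v (WS q p x)) (Set.Icc 0 x₁) :=
    (h.hv.deriv isOpen_ball).continuousOn.comp (continuous_WS q p).continuousOn
      fun _ hx => h.mem hx
  have h2 : ContinuousOn (fun x => NormedSpace.exp (φ (WS q p x) • tau 1) : ℝ → EE)
      (Set.Icc 0 x₁) := by
    have h3 : Continuous fun t : ℂ => (NormedSpace.exp (t • tau 1) : EE) :=
      (differentiable_exp_smul_const ℂ (tau 1)).continuous
    exact h3.comp_continuousOn h.contφ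
  exact (h1.div h.contφ' fun x hx => h.hφ0 _ (h.mem hx)).sub
    ((cf (-2)).continuous.comp_continuousOn (h2.mul continuousOn_const))

/-- The Volterra equation. -/
theorem SegData.volterra (h : SegData φ s v X r p q x₁ f₁) {x : ℝ} (hx : x ∈ Set.Ioc 0 x₁) :
    (X : ℂ) * s (WS q p x) = DD φ v p q f₁ x + ∫ x' in x..x₁, ((p - q) * deriv φ (WS q p x')) *
      KP (φ (WS q p x) - φ (WS q p x')) ((X : ℂ) * s (WS q p x')) := by
  rw [h.key x hx, DD, mul_sub, map_sub]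
  have hint : IntervalIntegrable (fun x' => (p - q) • pw 1 X φ s (WS q p x')) volume x x₁ :=
    (h.contpw.mono (uIcc_sub hx)).intervalIntegrable
  have h1 : cf (-2) (NormedSpace.exp (φ (WS q p x) • tau 1) *
      ∫ x' in x..x₁, (p - q) • pw 1 X φ s (WS q p x')) =
      ∫ x' in x..x₁, ((p - q) * deriv φ (WS q p x')) *
        KP (φ (WS q p x) - φ (WS q p x')) ((X : ℂ) * s (WS q p x')) := by
    have h2 := ((cf (-2)).comp (ContinuousLinearMap.mul ℂ EE
      (NormedSpace.exp (φ (WS q p x) • tau 1)))).intervalIntegral_comp_comm hint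
    simp only [ContinuousLinearMap.comp_apply, ContinuousLinearMap.mul_apply'] at h2
    rw [← h2]
    apply intervalIntegral.integral_congr
    intro x' _
    simp only
    rw [KP, pw, mul_smul_comm, mul_smul_comm, map_smul, map_smul, ← mul_assoc, ← exp_add_EE,
      ← add_smul, ← sub_eq_add_neg, smul_eq_mul, smul_eq_mul]
    ring
  rw [h1]
  ring

/-- Lipschitz bound along the segment. -/
theorem SegData.lip (h : SegData φ s v X r p q x₁ f₁) :
    ∃ B, 0 ≤ B ∧ (∀ x ∈ Set.Icc 0 x₁, ‖deriv φ (WS q p x)‖ ≤ B) ∧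
      ∀ x ∈ Set.Icc 0 x₁, ∀ y ∈ Set.Icc 0 x₁, x ≤ y →
        ‖φ (WS q p x) - φ (WS q p y)‖ ≤ ‖p - q‖ * B * (y - x) := by
  obtain ⟨B, hB⟩ := isCompact_Icc.exists_bound_of_continuousOn h.contφ'
  have h0 : (0 : ℝ) ∈ Set.Icc 0 x₁ := ⟨le_rfl, h.hx₁.le⟩
  have hB0 : 0 ≤ B := (norm_nonneg _).trans (hB 0 h0)
  refine ⟨B, hB0, hB, fun x hx y hy hxy => ?_⟩
  have hd : ∀ z ∈ Set.Icc 0 x₁, HasDerivWithinAt (fun z => φ (WS q p z))
      (deriv φ (WS q p z) * (p - q)) (Set.Icc 0 x₁) z := by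
    intro z hz
    have h1 := (h.hφ.differentiableAt (isOpen_ball.mem_nhds (h.mem hz))).hasDerivAt
    exact (h1.comp z (hasDerivAt_WS q p z)).hasDerivWithinAt
  have h1 := (convex_Icc 0 x₁).norm_image_sub_le_of_norm_hasDerivWithin_le hd
    (C := ‖p - q‖ * B) (fun z hz => by
      rw [norm_mul, mul_comm]
      have := hB z hz
      gcongr) hy hx
  rw [Real.norm_eq_abs, abs_sub_comm, abs_of_nonneg (by linarith)] at h1
  exact h1

theorem SegData.cont_int (h : SegData φ s v X r p q x₁ f₁) (x : ℝ) :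
    ContinuousOn (fun x' => ((p - q) * deriv φ (WS q p x')) *
      KP (φ (WS q p x) - φ (WS q p x')) ((X : ℂ) * s (WS q p x'))) (Set.Ioc 0 x₁) := by
  have hsub : Set.Ioc 0 x₁ ⊆ Set.Icc 0 x₁ := Set.Ioc_subset_Icc_self
  have h1 : ContinuousOn (fun x' => (p - q) * deriv φ (WS q p x')) (Set.Ioc 0 x₁) :=
    continuousOn_const.mul (h.contφ'.mono hsub)
  have h2 : Continuous fun t : ℂ => (NormedSpace.exp (t • tau 1) : EE) :=
    (differentiable_exp_smul_const ℂ (tau 1)).continuous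
  have h3 : Continuous fun t : ℂ => (NormedSpace.exp (t • taui 1) : EE) :=
    (differentiable_exp_smul_const ℂ (taui 1)).continuous
  have h4 := h2.comp_continuousOn (continuousOn_const.sub (h.contφ.mono hsub)
    (f := fun _ => φ (WS q p x)))
  have h5 := h3.comp_continuousOn (continuousOn_const.mul h.conts (f := fun _ => (X : ℂ)))
  exact h1.mul ((cf (-2)).continuous.comp_continuousOn (h4.mul h5))

/-- Boundedness. -/
theorem SegData.bdd (h : SegData φ s v X r p q x₁ f₁)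
    (hsub : Tendsto (fun x : ℝ => x * ‖s (WS q p x)‖) (𝓝[>] 0) (𝓝 0)) :
    ∃ M, ∀ x ∈ Set.Ioc 0 x₁, ‖(X : ℂ) * s (WS q p x)‖ ≤ M := by
  set σ : ℝ → ℝ := fun x => ‖(X : ℂ) * s (WS q p x)‖ with hσ
  have hXn : ‖(X : ℂ)‖ = X := by rw [Complex.norm_real, Real.norm_of_nonneg h.hX.le]
  have hσs : ∀ x, σ x = X * ‖s (WS q p x)‖ := by
    intro x
    simp only [hσ]
    rw [norm_mul, hXn]
  have hσc : ContinuousOn σ (Set.Ioc 0 x₁) := (continuousOn_const.mul h.conts).norm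
  have hσ0 : ∀ x, 0 ≤ σ x := fun x => norm_nonneg _
  have hsub' : Tendsto (fun x => x * σ x) (𝓝[>] 0) (𝓝 0) := by
    have h1 := hsub.const_mul X
    rw [mul_zero] at h1
    refine h1.congr fun x => ?_
    rw [hσs]; ring
  -- `x σ x` is bounded
  obtain ⟨B₃, hB₃⟩ : ∃ B₃, ∀ x ∈ Set.Ioc 0 x₁, x * σ x ≤ B₃ := by
    have h1 : ∀ᶠ x in 𝓝[>] (0 : ℝ), x * σ x ≤ 1 := hsub'.eventually_le_const one_pos
    obtain ⟨x₂, hx₂, hx₂s⟩ := mem_nhdsGT_iff_exists_Ioo_subset.1 h1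
    have hx₂0 : (0 : ℝ) < x₂ := hx₂
    have h2 : ContinuousOn (fun x => x * σ x) (Set.Icc (x₂ / 2) x₁) :=
      continuousOn_id.mul (hσc.mono fun y hy => ⟨(by positivity : 0 < x₂ / 2).trans_le hy.1, hy.2⟩)
    obtain ⟨B, hB⟩ := isCompact_Icc.exists_bound_of_continuousOn h2
    refine ⟨max 1 B, fun x hx => ?_⟩
    rcases lt_or_ge x (x₂ / 2) with h3 | h3
    · exact (hx₂s ⟨hx.1, by linarith⟩ : x * σ x ≤ 1).trans (le_max_left _ _)
    · exact (le_abs_self _).trans ((hB x ⟨h3, hx.2⟩).trans (le_max_right _ _))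
  obtain ⟨B, hB0, hB, hlip⟩ := h.lip
  obtain ⟨C₀, hC₀⟩ := isCompact_Icc.exists_bound_of_continuousOn h.contDD
  have hC₀0 : 0 ≤ C₀ := (norm_nonneg _).trans (hC₀ 0 ⟨le_rfl, h.hx₁.le⟩)
  set C₁ : ℝ := ‖p - q‖ * B / 2 * Real.exp (‖p - q‖ * B * B₃) with hC₁
  have hC₁0 : 0 ≤ C₁ := by positivity
  refine volterra_bdd (C := max C₀ C₁) h.hx₁ hσc hσ0 (hC₀0.trans (le_max_left _ _)) ?_ hsub'
  intro x hx
  have hx' : x ∈ Set.Icc 0 x₁ := ⟨hx.1.le, hx.2⟩
  have hint : IntervalIntegrable (fun x' => σ x' ^ 2) volume x x₁ :=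
    ((hσc.pow 2).mono (uIcc_sub hx)).intervalIntegrable
  have h1 : ‖∫ x' in x..x₁, ((p - q) * deriv φ (WS q p x')) *
      KP (φ (WS q p x) - φ (WS q p x')) ((X : ℂ) * s (WS q p x'))‖ ≤
      ∫ x' in x..x₁, C₁ * σ x' ^ 2 := by
    refine intervalIntegral.norm_integral_le_of_norm_le hx.2 ?_ (hint.const_mul C₁)
    refine Eventually.of_forall fun x' hx'' => ?_
    have hx3 : x' ∈ Set.Icc 0 x₁ := ⟨hx.1.le.trans hx''.1.le, hx''.2⟩
    have hx4 : x' ∈ Set.Ioc 0 x₁ := ⟨hx.1.trans hx''.1, hx''.2⟩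
    rw [norm_mul, norm_mul]
    have h2 := norm_KP_le (φ (WS q p x) - φ (WS q p x')) ((X : ℂ) * s (WS q p x'))
    have h3 := hlip x hx' x' hx3 hx''.1.le
    have h4 : ‖φ (WS q p x) - φ (WS q p x')‖ * σ x' ≤ ‖p - q‖ * B * B₃ := by
      have h5 : (x' - x) * σ x' ≤ B₃ := by
        refine le_trans ?_ (hB₃ x' hx4)
        have := hx.1
        gcongr
        linarith
      calc ‖φ (WS q p x) - φ (WS q p x')‖ * σ x' ≤ ‖p - q‖ * B * (x' - x) * σ x' := by
            gcongr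
        _ = ‖p - q‖ * B * ((x' - x) * σ x') := by ring
        _ ≤ ‖p - q‖ * B * B₃ := by gcongr
    have h6 := hB x' hx3
    calc ‖p - q‖ * ‖deriv φ (WS q p x')‖ *
          ‖KP (φ (WS q p x) - φ (WS q p x')) ((X : ℂ) * s (WS q p x'))‖
        ≤ ‖p - q‖ * B * (σ x' ^ 2 / 2 * Real.exp (‖p - q‖ * B * B₃)) := by
          gcongr
          refine h2.trans ?_
          gcongr
      _ = C₁ * σ x' ^ 2 := by rw [hC₁]; ring
  have h2 : σ x ≤ C₀ + C₁ * ∫ x' in x..x₁, σ x' ^ 2 := by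
    have h3 : σ x = ‖(X : ℂ) * s (WS q p x)‖ := rfl
    rw [h3, h.volterra hx]
    refine (norm_add_le _ _).trans ?_
    rw [intervalIntegral.integral_const_mul] at h1
    exact add_le_add (hC₀ x hx') h1
  have h3 : 0 ≤ ∫ x' in x..x₁, σ x' ^ 2 :=
    intervalIntegral.integral_nonneg hx.2 fun y _ => sq_nonneg _
  refine h2.trans ?_
  gcongr
  · exact le_max_left _ _
  · exact le_max_right _ _

end Pool.Agent.MP_83fd13_an
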