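import Mathlib
import Pool.Agent.MP_83fd13_an.Sp7

namespace Pool.Agent.MP_83fd13_an

open MeasureTheory Filter Metric
open scoped Topology ComplexConjugate

attribute [local instance] fact_two_pi

variable {φ s v : ℂ → ℂ} {X r : ℝ} {p q : ℂ} {x₁ : ℝ} {f₁ : EE}

/-- The primitive along the segment. -/
noncomputable def FF (φ s : ℂ → ℂ) (X : ℝ) (p q : ℂ) (x₁ : ℝ) (f₁ : EE) (x : ℝ) : EE :=
  f₁ - ∫ x' in x..x₁, (p - q) • pw 1 X φ s (WS q p x')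

theorem SegData.SG_eq (h : SegData φ s v X r p q x₁ f₁) {x : ℝ} (hx : x ∈ Set.Ioc 0 x₁) :
    SG φ v (WS q p x, FF φ s X p q x₁ f₁ x) = (X : ℂ) * s (WS q p x) := by
  rw [h.key x hx]
  rfl

theorem SegData.TH_eq (h : SegData φ s v X r p q x₁ f₁) {x : ℝ} (hx : x ∈ Set.Ioc 0 x₁) :
    TH φ v (WS q p x, FF φ s X p q x₁ f₁ x) = pw 1 X φ s (WS q p x) := by
  rw [TH, h.SG_eq hx, pw]

theorem SegData.hasDerivAt_FF (h : SegData φ s v X r p q x₁ f₁) {x : ℝ} (hx : x ∈ Set.Ioo 0 x₁) :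
    HasDerivAt (FF φ s X p q x₁ f₁) ((p - q) • pw 1 X φ s (WS q p x)) x := by
  have hx' : x ∈ Set.Ioc 0 x₁ := ⟨hx.1, hx.2.le⟩
  have hn : Set.Ioc 0 x₁ ∈ 𝓝 x := Ioc_mem_nhds hx.1 hx.2
  have h1 : HasDerivAt (fun x => ∫ x' in x..x₁, (p - q) • pw 1 X φ s (WS q p x'))
      (-((p - q) • pw 1 X φ s (WS q p x))) x := by
    apply intervalIntegral.integral_hasDerivAt_left
      ((h.contpw.mono (uIcc_sub hx')).intervalIntegrable)
    · exact h.contpw.stronglyMeasurableAtFilter_nhdsWithin measurableSet_Ioc x |>.filter_mono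
        (le_of_eq (nhdsWithin_eq_nhds.2 hn).symm)
    · exact h.contpw.continuousAt hn
  have h2 := h1.const_sub f₁
  rw [neg_neg] at h2
  exact h2

theorem SegData.bdd_pw (h : SegData φ s v X r p q x₁ f₁) {M : ℝ}
    (hM : ∀ x ∈ Set.Ioc 0 x₁, ‖(X : ℂ) * s (WS q p x)‖ ≤ M) :
    ∃ C, ∀ x ∈ Set.Ioc 0 x₁, ‖(p - q) • pw 1 X φ s (WS q p x)‖ ≤ C := by
  have h2 : Continuous fun t : ℂ => (NormedSpace.exp (t • tau 1) : EE) :=
    (differentiable_exp_smul_const ℂ (tau 1)).continuous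
  have h3 : Continuous fun t : ℂ => (NormedSpace.exp (t • taui 1) : EE) :=
    (differentiable_exp_smul_const ℂ (taui 1)).continuous
  obtain ⟨B₁, hB₁⟩ := isCompact_Icc.exists_bound_of_continuousOn h.contφ'
  obtain ⟨B₂, hB₂⟩ := isCompact_Icc.exists_bound_of_continuousOn
    (h2.comp_continuousOn h.contφ.neg)
  obtain ⟨B₃, hB₃⟩ := (isCompact_closedBall (0 : ℂ) M).exists_bound_of_continuousOn h3.continuousOn
  refine ⟨‖p - q‖ * (B₁ * (B₂ * B₃)), fun x hx => ?_⟩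
  have hx' : x ∈ Set.Icc 0 x₁ := ⟨hx.1.le, hx.2⟩
  have h4 := hB₁ x hx'
  have h5 := hB₂ x hx'
  have h6 := hB₃ ((X : ℂ) * s (WS q p x)) (by simpa using hM x hx)
  rw [norm_smul, pw, norm_smul]
  have h7 : 0 ≤ B₁ := (norm_nonneg _).trans h4
  have h8 : 0 ≤ B₂ := (norm_nonneg _).trans h5
  gcongr
  refine (norm_mul_le _ _).trans ?_
  gcongr
  exact h5

theorem SegData.tendsto_FF (h : SegData φ s v X r p q x₁ f₁) {M : ℝ}
    (hM : ∀ x ∈ Set.Ioc 0 x₁, ‖(X : ℂ) * s (WS q p x)‖ ≤ M) :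
    ∃ f₀, Tendsto (FF φ s X p q x₁ f₁) (𝓝[>] 0) (𝓝 f₀) := by
  obtain ⟨C, hC⟩ := h.bdd_pw hM
  have hint : IntervalIntegrable (fun x' => (p - q) • pw 1 X φ s (WS q p x')) volume 0 x₁ := by
    rw [intervalIntegrable_iff_integrableOn_Ioc_of_le h.hx₁.le]
    refine IntegrableOn.of_bound (by simp) ?_ C ?_
    · exact h.contpw.aestronglyMeasurable measurableSet_Ioc
    · exact (ae_restrict_iff' measurableSet_Ioc).2 (Eventually.of_forall hC)
  refine ⟨f₁ - ∫ x' in (0 : ℝ)..x₁, (p - q) • pw 1 X φ s (WS q p x'), ?_⟩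
  apply Tendsto.const_sub
  have h1 := intervalIntegral.continuousOn_primitive_interval' (μ := volume) (a := x₁) (b₁ := 0)
    (b₂ := x₁) hint Set.right_mem_uIcc
  have h2 := (h1 0 Set.left_mem_uIcc).tendsto.mono_left (nhdsWithin_mono (s := Set.Ioo 0 x₁) 0 (by
    rw [Set.uIcc_of_le h.hx₁.le]
    exact Set.Ioo_subset_Icc_self))
  rw [nhdsWithin_Ioo_eq_nhdsGT h.hx₁] at h2
  have h3 := h2.neg
  rw [← intervalIntegral.integral_symm] at h3
  refine h3.congr fun x => ?_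
  rw [← intervalIntegral.integral_symm]

/-- Extension of `s` when it is bounded along the segment. -/
theorem SegData.extend_of_bdd (h : SegData φ s v X r p q x₁ f₁) {M : ℝ}
    (hM : ∀ x ∈ Set.Ioc 0 x₁, ‖(X : ℂ) * s (WS q p x)‖ ≤ M) :
    ∃ g : ℂ → ℂ, AnalyticAt ℂ g q ∧ ∀ᶠ x in 𝓝[>] (0 : ℝ), g (WS q p x) = s (WS q p x) := by
  obtain ⟨f₀, hf₀⟩ := h.tendsto_FF hM
  have hq : q ∈ ball (0 : ℂ) r := by
    have := h.mem (x := 0) ⟨le_rfl, h.hx₁.le⟩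
    rwa [WS_zero] at this
  have hΘ : ∀ z ∈ ball (0 : ℂ) r, ∀ F, AnalyticAt ℂ (TH φ v) (z, F) := fun z hz F =>
    analyticAt_TH (h.hφ.analyticAt (isOpen_ball.mem_nhds hz))
      (h.hv.analyticAt (isOpen_ball.mem_nhds hz)) (h.hφ0 z hz) F
  obtain ⟨δ, hδ, G, hG, hδr, hGe⟩ := ode_extend (Θ := TH φ v) isOpen_ball hq hΘ h.hx₁
    (f := FF φ s X p q x₁ f₁) (fun x hx => by
      rw [h.TH_eq ⟨hx.1, hx.2.le⟩]
      exact h.hasDerivAt_FF hx) hf₀
  refine ⟨fun z => SG φ v (z, G z) / X, ?_, ?_⟩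
  · have hGa : AnalyticAt ℂ G q := hG.analyticAt (ball_mem_nhds q hδ)
    have h1 : AnalyticAt ℂ (fun z => (z, G z)) q := analyticAt_id.prod hGa
    have h2 : AnalyticAt ℂ (SG φ v) ((fun z => (z, G z)) q) :=
      analyticAt_SG (h.hφ.analyticAt (isOpen_ball.mem_nhds hq))
        (h.hv.analyticAt (isOpen_ball.mem_nhds hq)) (h.hφ0 q hq) (G q)
    have h3 : AnalyticAt ℂ (fun z => SG φ v (z, G z)) q :=
      AnalyticAt.comp (g := SG φ v) (f := fun z => (z, G z)) h2 h1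
    exact h3.div_const
  · filter_upwards [hGe, Ioo_mem_nhdsGT h.hx₁] with x hx hx'
    have hX : (X : ℂ) ≠ 0 := by exact_mod_cast h.hX.ne'
    rw [← hx, h.SG_eq ⟨hx'.1, hx'.2.le⟩]
    field_simp

end Pool.Agent.MP_83fd13_an
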