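import Mathlib
import Pool.Agent.MP_83fd13_an.Sp8

namespace Pool.Agent.MP_83fd13_an

open MeasureTheory Filter Metric Set
open scoped Topology ComplexConjugate

attribute [local instance] fact_two_pi

theorem KP_hasSum (α β : ℂ) :
    HasSum (fun n : ℕ => (((n + 2).factorial : ℂ))⁻¹ * β ^ (n + 2) *
      (((n.factorial : ℂ))⁻¹ * α ^ n)) (KP α β) := cf_kernel α β

theorem KP_scale {a : ℂ} (ha : a ≠ 0) (α β : ℂ) : a ^ 2 * KP α β = KP (α / a) (a * β) := by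
  have h1 := (KP_hasSum α β).mul_left (a ^ 2)
  have h2 := KP_hasSum (α / a) (a * β)
  have h3 : (fun n : ℕ => a ^ 2 * ((((n + 2).factorial : ℂ))⁻¹ * β ^ (n + 2) *
      (((n.factorial : ℂ))⁻¹ * α ^ n))) = fun n : ℕ => (((n + 2).factorial : ℂ))⁻¹ *
      (a * β) ^ (n + 2) * (((n.factorial : ℂ))⁻¹ * (α / a) ^ n) := by
    funext n
    rw [mul_pow, div_pow, pow_add a n 2]
    field_simp
  rw [h3] at h1
  exact h1.unique h2

theorem continuous_KP : Continuous fun P : ℂ × ℂ => KP P.1 P.2 := by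
  have h2 : Continuous fun t : ℂ => (NormedSpace.exp (t • tau 1) : EE) :=
    (differentiable_exp_smul_const ℂ (tau 1)).continuous
  have h3 : Continuous fun t : ℂ => (NormedSpace.exp (t • taui 1) : EE) :=
    (differentiable_exp_smul_const ℂ (taui 1)).continuous
  exact (cf (-2)).continuous.comp ((h2.comp continuous_fst).mul (h3.comp continuous_snd))

/-- `∫_1^∞ v⁻² (1 - 1/v)^n dv = 1 / (n + 1)` -/
theorem int_beta (n : ℕ) : IntegrableOn (fun v : ℝ => (1 - v⁻¹) ^ n * (v ^ 2)⁻¹) (Ioi 1) ∧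
    ∫ v in Ioi (1 : ℝ), (1 - v⁻¹) ^ n * (v ^ 2)⁻¹ = 1 / (n + 1) := by
  have hd : ∀ v ∈ Ici (1 : ℝ), HasDerivAt (fun v : ℝ => (1 - v⁻¹) ^ (n + 1) / (n + 1))
      ((1 - v⁻¹) ^ n * (v ^ 2)⁻¹) v := by
    intro v hv
    have hv0 : v ≠ 0 := by
      have : (1 : ℝ) ≤ v := hv
      positivity
    have h1 := (((hasDerivAt_inv hv0).const_sub 1).pow (n + 1)).div_const ((n : ℝ) + 1)
    refine h1.congr_deriv ?_
    have : (n : ℝ) + 1 ≠ 0 := by positivity
    push_cast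
    field_simp
    try simp
  have hpos : ∀ v ∈ Ioi (1 : ℝ), 0 ≤ (1 - v⁻¹) ^ n * (v ^ 2)⁻¹ := by
    intro v hv
    have h1 : (1 : ℝ) < v := hv
    have h2 : v⁻¹ ≤ 1 := inv_le_one_of_one_le₀ h1.le
    have h3 : 0 ≤ 1 - v⁻¹ := by linarith
    positivity
  have hlim : Tendsto (fun v : ℝ => (1 - v⁻¹) ^ (n + 1) / (n + 1)) atTop (𝓝 (1 / (n + 1))) := by
    have h1 : Tendsto (fun v : ℝ => (1 - v⁻¹) ^ (n + 1) / (n + 1)) atTop
        (𝓝 ((1 - 0) ^ (n + 1) / (n + 1))) :=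
      ((tendsto_inv_atTop_zero.const_sub 1).pow (n + 1)).div_const _
    rwa [sub_zero, one_pow] at h1
  refine ⟨integrableOn_Ioi_deriv_of_nonneg' hd hpos hlim, ?_⟩
  rw [integral_Ioi_of_hasDerivAt_of_nonneg' hd hpos hlim]
  simp

/-- Evaluation of the limiting integral. -/
theorem int_KP (μ ℓ : ℂ) :
    ∫ v in Ioi (1 : ℝ), μ * KP (μ * (1 - (v : ℂ))) (ℓ / v) =
      -ℓ * ∑' n : ℕ, (-(μ * ℓ)) ^ (n + 1) / (((n + 1).factorial : ℂ) * ((n + 2).factorial : ℂ)) := by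
  set A : ℂ := μ * ℓ with hA
  set cc : ℕ → ℂ := fun n => μ * ℓ ^ 2 * (-A) ^ n / (((n + 2).factorial : ℂ) * (n.factorial : ℂ))
    with hcc
  set F : ℕ → ℝ → ℂ := fun n v => cc n * (((1 - v⁻¹) ^ n * (v ^ 2)⁻¹ : ℝ) : ℂ) with hF
  have hFint : ∀ n, Integrable (F n) (volume.restrict (Ioi 1)) := fun n =>
    ((int_beta n).1.ofReal).const_mul (cc n)
  have hpos : ∀ n, ∀ v ∈ Ioi (1 : ℝ), 0 ≤ (1 - v⁻¹) ^ n * (v ^ 2)⁻¹ := by
    intro n v hv
    have h1 : (1 : ℝ) < v := hv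
    have h2 : v⁻¹ ≤ 1 := inv_le_one_of_one_le₀ h1.le
    have h3 : 0 ≤ 1 - v⁻¹ := by linarith
    positivity
  have hnorm : ∀ n, ∫ v in Ioi (1 : ℝ), ‖F n v‖ = ‖cc n‖ * (1 / (n + 1)) := by
    intro n
    rw [← (int_beta n).2, ← integral_const_mul]
    apply setIntegral_congr_fun measurableSet_Ioi
    intro v hv
    simp only [hF]
    rw [norm_mul, Complex.norm_real, Real.norm_of_nonneg (hpos n v hv)]
  have hval : ∀ n, ∫ v in Ioi (1 : ℝ), F n v = cc n * (1 / (n + 1)) := by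
    intro n
    simp only [hF]
    rw [integral_const_mul, integral_complex_ofReal, (int_beta n).2]
    push_cast
    ring
  have hsum : Summable fun n => ∫ v in Ioi (1 : ℝ), ‖F n v‖ := by
    simp only [hnorm]
    have h1 : Summable fun n : ℕ => ‖μ * ℓ ^ 2‖ * (‖A‖ ^ n / (n.factorial : ℝ)) :=
      (Real.summable_pow_div_factorial ‖A‖).mul_left _
    refine Summable.of_nonneg_of_le (fun n => by positivity) (fun n => ?_) h1
    have h2 : ‖cc n‖ ≤ ‖μ * ℓ ^ 2‖ * (‖A‖ ^ n / (n.factorial : ℝ)) := by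
      simp only [hcc]
      rw [norm_div, norm_mul _ ((-A) ^ n), norm_pow, norm_neg, norm_mul (((n + 2).factorial : ℂ)),
        Complex.norm_natCast, Complex.norm_natCast, mul_div_assoc]
      have h3 : (1 : ℝ) ≤ ((n + 2).factorial : ℝ) := by
        exact_mod_cast Nat.one_le_iff_ne_zero.2 (Nat.factorial_ne_zero _)
      have h4 : (0 : ℝ) < (n.factorial : ℝ) := by exact_mod_cast Nat.factorial_pos n
      gcongr
      nlinarith
    have h3 : 1 / ((n : ℝ) + 1) ≤ 1 := by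
      rw [div_le_one (by positivity)]
      have : (0 : ℝ) ≤ n := by positivity
      linarith
    calc ‖cc n‖ * (1 / (n + 1)) ≤ ‖cc n‖ * 1 := by gcongr
      _ = ‖cc n‖ := mul_one _
      _ ≤ _ := h2
  have hmain := hasSum_integral_of_summable_integral_norm hFint hsum
  have hpt : ∀ v ∈ Ioi (1 : ℝ), μ * KP (μ * (1 - (v : ℂ))) (ℓ / v) = ∑' n, F n v := by
    intro v hv
    have hv0 : (v : ℂ) ≠ 0 := by
      have : (1 : ℝ) < v := hv
      have : v ≠ 0 := by positivity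
      exact_mod_cast this
    rw [((KP_hasSum (μ * (1 - (v : ℂ))) (ℓ / v)).mul_left μ).tsum_eq.symm]
    congr 1
    funext n
    simp only [hF, hcc, hA]
    push_cast
    have e1 : (1 - (v : ℂ)⁻¹) = -((1 - v) / v) := by field_simp; ring
    rw [e1]
    have e2 : (-((1 - (v : ℂ)) / v)) ^ n = (-1) ^ n * ((1 - (v : ℂ)) / v) ^ n := by
      rw [← neg_one_mul, mul_pow]
    have e3 : (-(μ * ℓ)) ^ n = (-1) ^ n * (μ ^ n * ℓ ^ n) := by
      rw [← neg_one_mul, mul_pow, mul_pow]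
    have e4 : ((-1 : ℂ) ^ n) * (-1) ^ n = 1 := by
      rw [← mul_pow]; simp
    have hf1 : ((n + 2).factorial : ℂ) ≠ 0 := by exact_mod_cast Nat.factorial_ne_zero _
    have hf2 : (n.factorial : ℂ) ≠ 0 := by exact_mod_cast Nat.factorial_ne_zero _
    calc μ * ((((n + 2).factorial : ℂ))⁻¹ * (ℓ / v) ^ (n + 2) *
          (((n.factorial : ℂ))⁻¹ * (μ * (1 - v)) ^ n))
        = μ * ℓ ^ 2 * (μ ^ n * ℓ ^ n) / (((n + 2).factorial : ℂ) * (n.factorial : ℂ)) *
          (((1 - v) / v) ^ n * ((v : ℂ) ^ 2)⁻¹) := by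
          rw [div_pow, mul_pow, div_pow, pow_add, pow_add]
          field_simp
      _ = μ * ℓ ^ 2 * ((-1) ^ n * (μ ^ n * ℓ ^ n)) / (((n + 2).factorial : ℂ) * (n.factorial : ℂ)) *
          ((-1) ^ n * ((1 - v) / v) ^ n * ((v : ℂ) ^ 2)⁻¹) := by
          linear_combination (-(μ * ℓ ^ 2 * (μ ^ n * ℓ ^ n) / (((n + 2).factorial : ℂ) *
            (n.factorial : ℂ)) * (((1 - v) / v) ^ n * ((v : ℂ) ^ 2)⁻¹))) * e4
      _ = _ := by rw [e2, e3]
  rw [setIntegral_congr_fun measurableSet_Ioi hpt, ← hmain.tsum_eq, ← tsum_mul_left]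
  congr 1
  funext n
  rw [hval]
  simp only [hcc]
  have hf1 : ((n + 2).factorial : ℂ) ≠ 0 := by exact_mod_cast Nat.factorial_ne_zero _
  have hf2 : (n.factorial : ℂ) ≠ 0 := by exact_mod_cast Nat.factorial_ne_zero _
  have hf3 : ((n + 1).factorial : ℂ) = (n + 1) * (n.factorial : ℂ) := by
    rw [Nat.factorial_succ]; push_cast; ring
  have hn : (n : ℂ) + 1 ≠ 0 := by exact_mod_cast Nat.succ_ne_zero n
  rw [hf3, hA]
  field_simp
  ring

end Pool.Agent.MP_83fd13_an
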