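import Mathlib
import Pool.Agent.MP_83fd13_an.Sp9

namespace Pool.Agent.MP_83fd13_an

open MeasureTheory Filter Metric Set
open scoped Topology ComplexConjugate

attribute [local instance] fact_two_pi

variable {φ s v : ℂ → ℂ} {X r : ℝ} {p q : ℂ} {x₁ : ℝ} {f₁ : EE}

theorem bdd_of_tendsto {u : ℝ → ℝ} {x₁ l : ℝ} (hc : ContinuousOn u (Ioc 0 x₁))
    (h : Tendsto u (𝓝[>] 0) (𝓝 l)) : ∃ B, ∀ x ∈ Ioc 0 x₁, u x ≤ B := by
  have h1 : ∀ᶠ x in 𝓝[>] (0 : ℝ), u x ≤ l + 1 := h.eventually_le_const (by linarith)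
  obtain ⟨x₂, hx₂, hx₂s⟩ := mem_nhdsGT_iff_exists_Ioo_subset.1 h1
  have hx₂0 : (0 : ℝ) < x₂ := hx₂
  have h2 : ContinuousOn u (Set.Icc (x₂ / 2) x₁) :=
    hc.mono fun y hy => ⟨(by positivity : 0 < x₂ / 2).trans_le hy.1, hy.2⟩
  obtain ⟨B, hB⟩ := isCompact_Icc.exists_bound_of_continuousOn h2
  refine ⟨max (l + 1) B, fun x hx => ?_⟩
  rcases lt_or_ge x (x₂ / 2) with h3 | h3
  · exact (hx₂s ⟨hx.1, by linarith⟩ : u x ≤ l + 1).trans (le_max_left _ _)
  · exact (le_abs_self _).trans ((hB x ⟨h3, hx.2⟩).trans (le_max_right _ _))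

theorem tendsto_KP {l : Filter ℝ} {a b : ℝ → ℂ} {α β : ℂ} (ha : Tendsto a l (𝓝 α))
    (hb : Tendsto b l (𝓝 β)) : Tendsto (fun x => KP (a x) (b x)) l (𝓝 (KP α β)) := by
  have h1 : Tendsto (fun P : ℂ × ℂ => KP P.1 P.2) (𝓝 (α, β)) (𝓝 (KP α β)) :=
    continuous_KP.tendsto (α, β)
  have h2 : Tendsto (fun x => (a x, b x)) l (𝓝 (α, β)) := ha.prodMk_nhds hb
  have h3 := Tendsto.comp h1 h2
  exact h3

/-- The integrand of the Volterra equation. -/
noncomputable def GI (φ s : ℂ → ℂ) (X : ℝ) (p q : ℂ) (x x' : ℝ) : ℂ :=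
  ((p - q) * deriv φ (WS q p x')) *
    KP (φ (WS q p x) - φ (WS q p x')) ((X : ℂ) * s (WS q p x'))

/-- The rescaled integrand. -/
noncomputable def FI (φ s : ℂ → ℂ) (X : ℝ) (p q : ℂ) (x₁ x v : ℝ) : ℂ :=
  (Ioc 1 (x₁ / x)).indicator (fun v => (x : ℂ) ^ 2 * GI φ s X p q x (x * v)) v

theorem int_FI {x : ℝ} (hx : x ∈ Ioc 0 x₁) :
    ∫ t in Ioi (1 : ℝ), FI φ s X p q x₁ x t = x * ∫ x' in x..x₁, GI φ s X p q x x' := by
  have hx0 : x ≠ 0 := hx.1.ne'
  have hb : 1 ≤ x₁ / x := (one_le_div hx.1).2 hx.2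
  simp only [FI]
  rw [setIntegral_indicator measurableSet_Ioc]
  have h1 : Ioi (1 : ℝ) ∩ Ioc 1 (x₁ / x) = Ioc 1 (x₁ / x) := by
    apply inter_eq_self_of_subset_right
    exact Ioc_subset_Ioi_self
  rw [h1, ← intervalIntegral.integral_of_le hb, intervalIntegral.integral_const_mul,
    intervalIntegral.integral_comp_mul_left _ hx0, mul_one, mul_div_cancel₀ _ hx0,
    Complex.real_smul]
  have : (x : ℂ) ≠ 0 := by exact_mod_cast hx0
  push_cast
  field_simp

theorem SegData.hasDerivAt_φW (h : SegData φ s v X r p q x₁ f₁) :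
    HasDerivAt (fun x => φ (WS q p x)) ((p - q) * deriv φ q) 0 := by
  have hq : q ∈ ball (0 : ℂ) r := by
    have := h.mem (x := 0) ⟨le_rfl, h.hx₁.le⟩
    rwa [WS_zero] at this
  have h1 : HasDerivAt φ (deriv φ q) (WS q p 0) := by
    rw [WS_zero]
    exact (h.hφ.differentiableAt (isOpen_ball.mem_nhds hq)).hasDerivAt
  have h2 := h1.comp 0 (hasDerivAt_WS q p 0)
  rw [mul_comm] at h2
  exact h2

theorem tendsto_mul_pos {v : ℝ} (hv : 0 < v) :
    Tendsto (fun x : ℝ => x * v) (𝓝[>] 0) (𝓝[>] 0) := by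
  rw [tendsto_nhdsWithin_iff]
  constructor
  · have : Tendsto (fun x : ℝ => x * v) (𝓝 0) (𝓝 (0 * v)) := tendsto_id.mul_const v
    rw [zero_mul] at this
    exact this.mono_left nhdsWithin_le_nhds
  · filter_upwards [self_mem_nhdsWithin] with x hx
    exact mul_pos hx hv

theorem SegData.limit (h : SegData φ s v X r p q x₁ f₁) {L : ℂ}
    (hL : Tendsto (fun x : ℝ => (x : ℂ) * s (WS q p x)) (𝓝[>] 0) (𝓝 L)) :
    (X : ℂ) * L = ∫ t in Ioi (1 : ℝ), ((p - q) * deriv φ q) *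
      KP (((p - q) * deriv φ q) * (1 - (t : ℂ))) ((X : ℂ) * L / t) := by
  set μ : ℂ := (p - q) * deriv φ q with hμ
  set ℓ : ℂ := (X : ℂ) * L with hℓ
  set y : ℝ → ℂ := fun x => (X : ℂ) * s (WS q p x) with hy
  have hyl : Tendsto (fun x : ℝ => (x : ℂ) * y x) (𝓝[>] 0) (𝓝 ℓ) := by
    have h1 := hL.const_mul (X : ℂ)
    refine h1.congr fun x => ?_
    simp only [hy]; ring
  have hyc : ContinuousOn y (Ioc 0 x₁) := continuousOn_const.mul h.conts
  obtain ⟨B₃, hB₃⟩ : ∃ B, ∀ x ∈ Ioc 0 x₁, x * ‖y x‖ ≤ B := by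
    have h1 : Tendsto (fun x : ℝ => x * ‖y x‖) (𝓝[>] 0) (𝓝 ‖ℓ‖) := by
      refine hyl.norm.congr' ?_
      filter_upwards [self_mem_nhdsWithin] with x hx
      have hx' : (0 : ℝ) < x := hx
      rw [norm_mul, Complex.norm_real, Real.norm_of_nonneg hx'.le]
    exact bdd_of_tendsto (continuousOn_id.mul hyc.norm) h1
  obtain ⟨B, hB0, hB, hlip⟩ := h.lip
  have hB₃0 : 0 ≤ B₃ := by
    have h1 := hB₃ x₁ ⟨h.hx₁, le_rfl⟩
    have h2 := h.hx₁
    exact le_trans (by positivity) h1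
  set C : ℝ := ‖p - q‖ * B * (B₃ ^ 2 / 2 * Real.exp (‖p - q‖ * B * B₃)) with hC
  have hdct : Tendsto (fun x => ∫ t in Ioi (1 : ℝ), FI φ s X p q x₁ x t) (𝓝[>] 0)
      (𝓝 (∫ t in Ioi (1 : ℝ), μ * KP (μ * (1 - (t : ℂ))) (ℓ / t))) := by
    apply tendsto_integral_filter_of_dominated_convergence
      (bound := fun t => C * ((1 - t⁻¹) ^ 0 * (t ^ 2)⁻¹))
    · filter_upwards [Ioo_mem_nhdsGT h.hx₁] with x hx
      have hx' : x ∈ Ioc 0 x₁ := ⟨hx.1, hx.2.le⟩
      have hc : ContinuousOn (fun t => (x : ℂ) ^ 2 * GI φ s X p q x (x * t)) (Ioc 1 (x₁ / x)) := by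
        refine continuousOn_const.mul ((h.cont_int x).comp (by fun_prop) ?_)
        intro t ht
        refine ⟨mul_pos hx.1 (one_pos.trans ht.1), ?_⟩
        have := ht.2
        rw [le_div_iff₀ hx.1] at this
        linarith
      have h1 : AEStronglyMeasurable ((Ioc 1 (x₁ / x)).indicator
          (fun t => (x : ℂ) ^ 2 * GI φ s X p q x (x * t))) (volume.restrict (Ioi 1)) := by
        rw [aestronglyMeasurable_indicator_iff measurableSet_Ioc,
          Measure.restrict_restrict measurableSet_Ioc]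
        exact (hc.mono inter_subset_left).aestronglyMeasurable
          (measurableSet_Ioc.inter measurableSet_Ioi)
      exact h1
    · filter_upwards [Ioo_mem_nhdsGT h.hx₁] with x hx
      refine (ae_restrict_iff' measurableSet_Ioi).2 (Eventually.of_forall fun t ht => ?_)
      have ht1 : (1 : ℝ) < t := ht
      have ht0 : 0 < t := by linarith
      have hCnn : 0 ≤ C := by positivity
      rw [pow_zero, one_mul]
      by_cases htm : t ∈ Ioc 1 (x₁ / x)
      · rw [FI, indicator_of_mem htm]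
        have hxt0 : 0 < x * t := mul_pos hx.1 ht0
        have hxt : x * t ∈ Ioc 0 x₁ := by
          refine ⟨hxt0, ?_⟩
          have := htm.2
          rw [le_div_iff₀ hx.1] at this
          linarith
        have hxt' : x * t ∈ Icc 0 x₁ := ⟨hxt.1.le, hxt.2⟩
        have hx' : x ∈ Icc 0 x₁ := ⟨hx.1.le, hx.2.le⟩
        have hxle : x ≤ x * t := by nlinarith [hx.1]
        set σ : ℝ := ‖y (x * t)‖ with hσ
        have hσB : x * t * σ ≤ B₃ := hB₃ _ hxt
        have hσ0 : 0 ≤ σ := norm_nonneg _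
        have h2 := norm_KP_le (φ (WS q p x) - φ (WS q p (x * t))) (y (x * t))
        have h3 := hlip x hx' _ hxt' hxle
        have h4 : ‖φ (WS q p x) - φ (WS q p (x * t))‖ * σ ≤ ‖p - q‖ * B * B₃ := by
          have h5 : (x * t - x) * σ ≤ B₃ := by
            refine le_trans ?_ hσB
            have := hx.1
            gcongr
            linarith
          calc ‖φ (WS q p x) - φ (WS q p (x * t))‖ * σ ≤ ‖p - q‖ * B * (x * t - x) * σ := by
                gcongr
            _ = ‖p - q‖ * B * ((x * t - x) * σ) := by ring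
            _ ≤ ‖p - q‖ * B * B₃ := by gcongr
        have h6 := hB _ hxt'
        have h7 : x ^ 2 * σ ^ 2 ≤ B₃ ^ 2 * (t ^ 2)⁻¹ := by
          have h8 : (x * t * σ) ^ 2 ≤ B₃ ^ 2 := by
            have : 0 ≤ x * t * σ := by positivity
            gcongr
          rw [← div_eq_mul_inv, le_div_iff₀ (by positivity)]
          calc x ^ 2 * σ ^ 2 * t ^ 2 = (x * t * σ) ^ 2 := by ring
            _ ≤ B₃ ^ 2 := h8
        rw [norm_mul, norm_pow, Complex.norm_real, Real.norm_of_nonneg hx.1.le, GI, norm_mul,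
          norm_mul]
        calc x ^ 2 * (‖p - q‖ * ‖deriv φ (WS q p (x * t))‖ *
              ‖KP (φ (WS q p x) - φ (WS q p (x * t))) ((X : ℂ) * s (WS q p (x * t)))‖)
            ≤ x ^ 2 * (‖p - q‖ * B * (σ ^ 2 / 2 * Real.exp (‖p - q‖ * B * B₃))) := by
              gcongr
              refine h2.trans ?_
              gcongr
          _ = ‖p - q‖ * B * (x ^ 2 * σ ^ 2 / 2 * Real.exp (‖p - q‖ * B * B₃)) := by ring
          _ ≤ ‖p - q‖ * B * (B₃ ^ 2 * (t ^ 2)⁻¹ / 2 * Real.exp (‖p - q‖ * B * B₃)) := by gcongr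
          _ = C * (t ^ 2)⁻¹ := by rw [hC]; ring
      · rw [FI, indicator_of_notMem htm, norm_zero]
        positivity
    · exact ((int_beta 0).1).const_mul C
    · refine (ae_restrict_iff' measurableSet_Ioi).2 (Eventually.of_forall fun t ht => ?_)
      have ht1 : (1 : ℝ) < t := ht
      have ht0 : 0 < t := by linarith
      have htc : (t : ℂ) ≠ 0 := by exact_mod_cast ht0.ne'
      have hT := tendsto_mul_pos ht0
      -- the three factors
      have hW : Tendsto (fun x : ℝ => (p - q) * deriv φ (WS q p (x * t))) (𝓝[>] 0) (𝓝 μ) := by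
        have h1 := (h.contφ' 0 ⟨le_rfl, h.hx₁.le⟩).tendsto
        simp only [WS_zero] at h1
        have h2 := (h1.mono_left (nhdsWithin_mono (s := Ioo 0 x₁) 0 Ioo_subset_Icc_self))
        rw [nhdsWithin_Ioo_eq_nhdsGT h.hx₁] at h2
        exact (h2.comp hT).const_mul (p - q)
      have hψ := h.hasDerivAt_φW.tendsto_slope_zero_right
      have hα : Tendsto (fun x : ℝ => (φ (WS q p x) - φ (WS q p (x * t))) / x) (𝓝[>] 0)
          (𝓝 (μ * (1 - t))) := by
        have h1 := (hψ.comp hT).const_mul (t : ℂ)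
        have h2 := hψ.sub h1
        rw [← hμ] at h2
        have e : μ - t * μ = μ * (1 - t) := by ring
        rw [e] at h2
        refine h2.congr' ?_
        filter_upwards [self_mem_nhdsWithin] with x hx
        have hx0 : (x : ℂ) ≠ 0 := by
          have : (0 : ℝ) < x := hx
          exact_mod_cast this.ne'
        simp only [Function.comp_apply, zero_add, Complex.real_smul]
        push_cast
        field_simp
        ring
      have hβ : Tendsto (fun x : ℝ => (x : ℂ) * y (x * t)) (𝓝[>] 0) (𝓝 (ℓ / t)) := by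
        have h1 := (hyl.comp hT).div_const (t : ℂ)
        refine h1.congr fun x => ?_
        simp only [Function.comp_apply]
        push_cast
        field_simp
      have hKP : Tendsto (fun x : ℝ => KP ((φ (WS q p x) - φ (WS q p (x * t))) / x)
          ((x : ℂ) * y (x * t))) (𝓝[>] 0) (𝓝 (KP (μ * (1 - t)) (ℓ / t))) := tendsto_KP hα hβ
      refine (hW.mul hKP).congr' ?_
      have hsmall : ∀ᶠ x in 𝓝[>] (0 : ℝ), x < x₁ / t := by
        filter_upwards [Ioo_mem_nhdsGT (div_pos h.hx₁ ht0)] with x hx using hx.2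
      filter_upwards [self_mem_nhdsWithin, hsmall] with x hx hxs
      have hx' : (0 : ℝ) < x := hx
      have hx0 : (x : ℂ) ≠ 0 := by exact_mod_cast hx'.ne'
      have htm : t ∈ Ioc 1 (x₁ / x) := by
        refine ⟨ht1, ?_⟩
        rw [le_div_iff₀ hx']
        rw [lt_div_iff₀ ht0] at hxs
        linarith
      rw [FI, indicator_of_mem htm, GI, ← KP_scale hx0]
      simp only [hy]
      ring
  -- conclusion
  have hDD : Tendsto (fun x : ℝ => (x : ℂ) * DD φ v p q f₁ x) (𝓝[>] 0) (𝓝 0) := by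
    have h1 := (h.contDD 0 ⟨le_rfl, h.hx₁.le⟩).tendsto
    have h2 := (h1.mono_left (nhdsWithin_mono (s := Ioo 0 x₁) 0 Ioo_subset_Icc_self))
    rw [nhdsWithin_Ioo_eq_nhdsGT h.hx₁] at h2
    have h3 : Tendsto (fun x : ℝ => (x : ℂ)) (𝓝[>] 0) (𝓝 0) := by
      have := (Complex.continuous_ofReal.tendsto 0)
      rw [Complex.ofReal_zero] at this
      exact this.mono_left nhdsWithin_le_nhds
    have h4 := h3.mul h2
    rwa [zero_mul] at h4
  have hsum := hDD.add hdct
  rw [zero_add] at hsum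
  refine tendsto_nhds_unique hyl (hsum.congr' ?_)
  filter_upwards [Ioo_mem_nhdsGT h.hx₁] with x hx
  have hx' : x ∈ Ioc 0 x₁ := ⟨hx.1, hx.2.le⟩
  rw [int_FI hx']
  simp only [hy]
  rw [h.volterra hx', mul_add]
  rfl

/-- The condition on a polar limit. -/
theorem SegData.bessel (h : SegData φ s v X r p q x₁ f₁) {L : ℂ}
    (hL : Tendsto (fun x : ℝ => (x : ℂ) * s (WS q p x)) (𝓝[>] 0) (𝓝 L)) (hL0 : L ≠ 0) :
    ∑' n : ℕ, (-((p - q) * deriv φ q * ((X : ℂ) * L))) ^ n /
      ((n.factorial : ℂ) * ((n + 1).factorial : ℂ)) = 0 := by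
  have h1 := h.limit hL
  rw [int_KP] at h1
  set A : ℂ := (p - q) * deriv φ q * ((X : ℂ) * L) with hA
  have hXL : (X : ℂ) * L ≠ 0 := mul_ne_zero (by exact_mod_cast h.hX.ne') hL0
  have hsm : Summable fun n : ℕ => (-A) ^ n / ((n.factorial : ℂ) * ((n + 1).factorial : ℂ)) := by
    have h2 := Real.summable_pow_div_factorial ‖A‖
    refine Summable.of_norm_bounded h2 fun n => ?_
    rw [norm_div, norm_pow, norm_neg, norm_mul (n.factorial : ℂ), Complex.norm_natCast,
      Complex.norm_natCast]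
    have h3 : (1 : ℝ) ≤ ((n + 1).factorial : ℝ) := by
      exact_mod_cast Nat.one_le_iff_ne_zero.2 (Nat.factorial_ne_zero _)
    have h4 : (0 : ℝ) < (n.factorial : ℝ) := by exact_mod_cast Nat.factorial_pos n
    gcongr
    nlinarith
  rw [hsm.tsum_eq_zero_add]
  have h2 : (X : ℂ) * L * (1 + ∑' n : ℕ, (-A) ^ (n + 1) / (((n + 1).factorial : ℂ) *
      ((n + 2).factorial : ℂ))) = 0 := by
    linear_combination h1
  have h3 := (mul_eq_zero.1 h2).resolve_left hXL
  rw [← h3]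
  congr 1
  simp

end Pool.Agent.MP_83fd13_an
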