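import Mathlib

namespace Pool.Agent.MP_83fd13_an

open MeasureTheory Filter Metric Set
open scoped Topology ComplexConjugate

/-- The zeros of `∑ (-A)^n / (n! (n+1)!)` are positive real numbers. -/
theorem bessel_zero_pos {A : ℂ}
    (h : ∑' n : ℕ, (-A) ^ n / ((n.factorial : ℂ) * ((n + 1).factorial : ℂ)) = 0) :
    ∃ a : ℝ, 0 < a ∧ A = a := by
  have hf1 : ∀ n : ℕ, (n.factorial : ℂ) ≠ 0 := fun n => by exact_mod_cast Nat.factorial_ne_zero n
  have hfr : ∀ n : ℕ, (1 : ℝ) ≤ (n.factorial : ℝ) := fun n => by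
    exact_mod_cast Nat.one_le_iff_ne_zero.2 (Nat.factorial_ne_zero _)
  have hsucc : ∀ n : ℕ, ((n + 1).factorial : ℂ) = (n + 1) * (n.factorial : ℂ) := fun n => by
    rw [Nat.factorial_succ]; push_cast; ring
  set B : ℝ := ‖A‖ with hB
  set t : Set ℝ := Ioo (-2) 2 with ht
  have hto : IsOpen t := isOpen_Ioo
  have htp : IsPreconnected t := isPreconnected_Ioo
  have habs : ∀ x ∈ t, |x| ≤ 2 := fun x hx => abs_le.2 ⟨hx.1.le, hx.2.le⟩
  set w : ℝ → ℂ := fun x => ∑' n : ℕ, (-A) ^ n * (x : ℂ) ^ n / ((n.factorial : ℂ) *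
    ((n + 1).factorial : ℂ)) with hw
  set u : ℝ → ℂ := fun x => ∑' n : ℕ, (-A) ^ n * (x : ℂ) ^ n / ((n.factorial : ℂ) *
    (n.factorial : ℂ)) with hu
  have hsumB : Summable fun n : ℕ => (B * 2) ^ n / (n.factorial : ℝ) :=
    Real.summable_pow_div_factorial (B * 2)
  have hpow : ∀ n : ℕ, ∀ x : ℝ, HasDerivAt (fun x : ℝ => (x : ℂ) ^ n) (n * (x : ℂ) ^ (n - 1)) x := by
    intro n x
    have h6 : HasDerivAt (fun x : ℝ => (x : ℂ)) 1 x := Complex.ofRealCLM.hasDerivAt
    have := h6.pow n
    rwa [mul_one] at this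
  -- bound for the terms of `u` and `w`
  have hbu : ∀ n : ℕ, ∀ x ∈ t, ‖(-A) ^ n * (x : ℂ) ^ n / ((n.factorial : ℂ) *
      (n.factorial : ℂ))‖ ≤ (B * 2) ^ n / (n.factorial : ℝ) := by
    intro n x hx
    rw [norm_div, norm_mul, norm_mul, norm_pow, norm_pow, norm_neg, Complex.norm_natCast,
      Complex.norm_real, Real.norm_eq_abs, mul_pow]
    have h1 := habs x hx
    have h2 := hfr n
    have h3 : (0 : ℝ) < n.factorial := by linarith
    gcongr
    nlinarith
  have hbw : ∀ n : ℕ, ∀ x ∈ t, ‖(-A) ^ n * (x : ℂ) ^ n / ((n.factorial : ℂ) *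
      ((n + 1).factorial : ℂ))‖ ≤ (B * 2) ^ n / (n.factorial : ℝ) := by
    intro n x hx
    rw [norm_div, norm_mul, norm_mul, norm_pow, norm_pow, norm_neg, Complex.norm_natCast,
      Complex.norm_natCast, Complex.norm_real, Real.norm_eq_abs, mul_pow]
    have h1 := habs x hx
    have h2 := hfr (n + 1)
    have h3 : (0 : ℝ) < n.factorial := by linarith [hfr n]
    gcongr
    nlinarith
  have hsu : ∀ x ∈ t, Summable fun n : ℕ => (-A) ^ n * (x : ℂ) ^ n / ((n.factorial : ℂ) *
      (n.factorial : ℂ)) := fun x hx => Summable.of_norm_bounded hsumB fun n => hbu n x hx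
  have hsw : ∀ x ∈ t, Summable fun n : ℕ => (-A) ^ n * (x : ℂ) ^ n / ((n.factorial : ℂ) *
      ((n + 1).factorial : ℂ)) := fun x hx => Summable.of_norm_bounded hsumB fun n => hbw n x hx
  -- derivative of `x w`
  have hxw : ∀ x ∈ t, HasDerivAt (fun x : ℝ => (x : ℂ) * w x) (u x) x := by
    intro x hx
    have h1 := hasDerivAt_tsum_of_isPreconnected (𝕜 := ℝ) hsumB hto htp
      (g := fun (n : ℕ) (x : ℝ) => (-A) ^ n * (x : ℂ) ^ (n + 1) / ((n.factorial : ℂ) *
        ((n + 1).factorial : ℂ)))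
      (g' := fun (n : ℕ) (x : ℝ) => (-A) ^ n * (x : ℂ) ^ n / ((n.factorial : ℂ) *
        (n.factorial : ℂ)))
      (fun n y hy => by
        have h2 := ((hpow (n + 1) y).const_mul ((-A) ^ n)).div_const
          ((n.factorial : ℂ) * ((n + 1).factorial : ℂ))
        refine h2.congr_deriv ?_
        have h3 : (n : ℂ) + 1 ≠ 0 := by exact_mod_cast Nat.succ_ne_zero n
        rw [hsucc, Nat.add_sub_cancel]
        push_cast
        have := hf1 n
        field_simp)
      (fun n y hy => hbu n y hy) (y₀ := 0) ⟨by norm_num, by norm_num⟩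
      (by simp [summable_zero]) hx
    refine h1.congr_of_eventuallyEq ?_
    filter_upwards with y
    simp only [hw]
    rw [← tsum_mul_left]
    congr 1
    funext n
    rw [pow_succ]
    ring
  -- derivative of `u`
  have hud : ∀ x ∈ t, HasDerivAt u (-A * w x) x := by
    intro x hx
    have hsum2 : Summable fun n : ℕ => B * ((B * 2) ^ (n - 1) / ((n - 1).factorial : ℝ)) := by
      refine Summable.mul_left _ ?_
      rw [← summable_nat_add_iff 1]
      exact hsumB
    have h1 := hasDerivAt_tsum_of_isPreconnected (𝕜 := ℝ) hsum2 hto htp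
      (g := fun (n : ℕ) (x : ℝ) => (-A) ^ n * (x : ℂ) ^ n / ((n.factorial : ℂ) *
        (n.factorial : ℂ)))
      (g' := fun (n : ℕ) (x : ℝ) => (-A) ^ n * (n * (x : ℂ) ^ (n - 1)) / ((n.factorial : ℂ) *
        (n.factorial : ℂ)))
      (fun n y hy => ((hpow n y).const_mul ((-A) ^ n)).div_const _)
      (fun n y hy => by
        rcases n with _ | n
        · simp only [pow_zero, Nat.cast_zero, zero_mul, mul_zero, zero_div, norm_zero]
          positivity
        · rw [norm_div, norm_mul, norm_mul, norm_mul, norm_pow, norm_pow, norm_neg,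
            Complex.norm_natCast, Complex.norm_natCast, Complex.norm_real, Real.norm_eq_abs,
            Nat.add_sub_cancel, Nat.factorial_succ]
          have h1 := habs y hy
          have h2 := hfr n
          have h3 : (0 : ℝ) < n.factorial := by linarith
          push_cast
          rw [pow_succ, mul_pow B 2 n]
          have h4 : (0 : ℝ) ≤ n := by positivity
          have h5 : B ^ n * B * ((n + 1) * |y| ^ n) / ((n + 1) * n.factorial * ((n + 1) *
              n.factorial)) = B * (B ^ n * |y| ^ n / (n.factorial * ((n + 1) * n.factorial))) := by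
            field_simp
          rw [← hB, h5]
          gcongr
          have h6 : (1 : ℝ) ≤ (n + 1) * n.factorial := by nlinarith [mul_nonneg h4 h3.le]
          exact le_mul_of_one_le_right h3.le h6) (y₀ := 0) ⟨by norm_num, by norm_num⟩ (hsu 0 ⟨by norm_num, by norm_num⟩) hx
    have hs' : Summable fun n : ℕ => (-A) ^ n * (n * (x : ℂ) ^ (n - 1)) / ((n.factorial : ℂ) *
        (n.factorial : ℂ)) := by
      rw [← summable_nat_add_iff 1]
      refine ((hsw x hx).mul_left (-A)).congr fun n => ?_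
      have h3 : (n : ℂ) + 1 ≠ 0 := by exact_mod_cast Nat.succ_ne_zero n
      rw [hsucc, Nat.add_sub_cancel]
      push_cast
      have := hf1 n
      field_simp
      ring
    refine h1.congr_deriv ?_
    rw [hs'.tsum_eq_zero_add]
    simp only [hw]
    rw [← tsum_mul_left]
    simp only [pow_zero, Nat.cast_zero, zero_mul, mul_zero, zero_div, zero_add]
    congr 1
    funext n
    have h3 : (n : ℂ) + 1 ≠ 0 := by exact_mod_cast Nat.succ_ne_zero n
    rw [hsucc, Nat.add_sub_cancel]
    push_cast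
    have := hf1 n
    field_simp
    ring
  -- the energy identity
  have hwc : ContinuousOn w t := by
    refine continuousOn_tsum (fun n => ?_) hsumB fun n x hx => hbw n x hx
    fun_prop
  have huc : ContinuousOn u t := fun x hx => (hud x hx).continuousAt.continuousWithinAt
  have hIt : uIcc (0 : ℝ) 1 ⊆ t := by
    rw [uIcc_of_le zero_le_one]
    intro x hx
    exact ⟨by linarith [hx.1], by linarith [hx.2]⟩
  have hH : ∀ x ∈ uIcc (0 : ℝ) 1, HasDerivAt (fun x : ℝ => (x : ℂ) * w x * conj (u x))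
      (((‖u x‖ ^ 2 : ℝ) : ℂ) - conj A * ((x * ‖w x‖ ^ 2 : ℝ) : ℂ)) x := by
    intro x hx
    have hx' := hIt hx
    have h1 : HasDerivAt (fun x => conj (u x)) (conj (-A * w x)) x :=
      (Complex.conjCLE : ℂ ≃L[ℝ] ℂ).toContinuousLinearMap.hasFDerivAt.comp_hasDerivAt x (hud x hx')
    refine ((hxw x hx').mul h1).congr_deriv ?_
    have e1 : u x * conj (u x) = ((‖u x‖ ^ 2 : ℝ) : ℂ) := by
      rw [Complex.mul_conj, Complex.normSq_eq_norm_sq]
    have e2 : w x * conj (w x) = ((‖w x‖ ^ 2 : ℝ) : ℂ) := by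
      rw [Complex.mul_conj, Complex.normSq_eq_norm_sq]
    rw [map_mul, map_neg, e1]
    push_cast
    push_cast at e2
    linear_combination (-(conj A) * (x : ℂ)) * e2
  have hu2 : ContinuousOn (fun x => ‖u x‖ ^ 2) (uIcc 0 1) := (huc.mono hIt).norm.pow 2
  have hw2 : ContinuousOn (fun x => x * ‖w x‖ ^ 2) (uIcc 0 1) :=
    continuousOn_id.mul ((hwc.mono hIt).norm.pow 2)
  have hc1 : ContinuousOn (fun x => ((‖u x‖ ^ 2 : ℝ) : ℂ)) (uIcc 0 1) :=
    Complex.continuous_ofReal.comp_continuousOn hu2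
  have hc2 : ContinuousOn (fun x => ((x * ‖w x‖ ^ 2 : ℝ) : ℂ)) (uIcc 0 1) :=
    Complex.continuous_ofReal.comp_continuousOn hw2
  have hint := intervalIntegral.integral_eq_sub_of_hasDerivAt hH
    (hc1.sub (continuousOn_const.mul hc2)).intervalIntegrable
  have hw1 : w 1 = 0 := by
    rw [← h]
    simp only [hw, Complex.ofReal_one, one_pow, mul_one]
  rw [hw1, intervalIntegral.integral_sub hc1.intervalIntegrable
    (hc2.intervalIntegrable.const_mul _), intervalIntegral.integral_const_mul, intervalIntegral.integral_ofReal,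
    intervalIntegral.integral_ofReal] at hint
  simp only [mul_zero, zero_mul, Complex.ofReal_zero, sub_zero] at hint
  set I₁ : ℝ := ∫ x in (0 : ℝ)..1, ‖u x‖ ^ 2 with hI₁
  set I₂ : ℝ := ∫ x in (0 : ℝ)..1, x * ‖w x‖ ^ 2 with hI₂
  have hI₁0 : 0 < I₁ := by
    rw [uIcc_of_le zero_le_one] at hu2
    refine intervalIntegral.integral_pos one_pos hu2 (fun x _ => by positivity)
      ⟨0, ⟨le_rfl, zero_le_one⟩, ?_⟩
    have hu0 : u 0 = 1 := by
      simp only [hu]
      rw [tsum_eq_single 0]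
      · simp
      · intro n hn
        simp [hn]
    rw [hu0]
    norm_num
  have hI₂0 : 0 ≤ I₂ := by
    refine intervalIntegral.integral_nonneg zero_le_one fun x hx => ?_
    have := hx.1
    positivity
  have hrel : (I₁ : ℂ) = conj A * I₂ := sub_eq_zero.1 hint
  have hI₂ne : I₂ ≠ 0 := by
    intro h0
    rw [h0, Complex.ofReal_zero, mul_zero] at hrel
    exact hI₁0.ne' (by exact_mod_cast hrel)
  have hI₂pos : 0 < I₂ := lt_of_le_of_ne hI₂0 hI₂ne.symm
  refine ⟨I₁ / I₂, div_pos hI₁0 hI₂pos, ?_⟩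
  have hI₂c : (I₂ : ℂ) ≠ 0 := by exact_mod_cast hI₂ne
  have h1 : conj A = ((I₁ / I₂ : ℝ) : ℂ) := by
    push_cast
    field_simp
    rw [hrel]
  have h2 := congrArg conj h1
  rwa [Complex.conj_conj, Complex.conj_ofReal] at h2

end Pool.Agent.MP_83fd13_an
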