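import Mathlib
import Pool.Agent.MP_83fd13_an.Sp10
import Pool.Agent.MP_83fd13_an.Sp11

namespace Pool.Agent.MP_83fd13_an

open MeasureTheory Filter Metric
open scoped Topology ComplexConjugate

variable {lam c : ℝ} {u : ℂ → ℝ} {G : ℂ → ℂ}

theorem main_sp {φ s : ℂ → ℂ} {r : ℝ} (hr : 1 < r)
    (hφ : DifferentiableOn ℂ φ (ball 0 r)) (hinj : Set.InjOn φ (ball 0 r))
    {Y : Set ℂ} (hY : IsOpen Y) (hYc : IsConnected Y) {a : ℂ} (ha : ‖a‖ = 1) (haY : a ∈ Y)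
    (hs : ∀ w ∈ Y, ‖w‖ = 1 → s w = conj (φ w)) (hsd : DifferentiableOn ℂ s Y)
    {p q : ℂ} (hq : ‖q‖ < 1) (hseg : ∀ x ∈ Set.Ioc (0 : ℝ) 1, WS q p x ∈ Y)
    (hsing : ¬ ∃ g : ℂ → ℂ, AnalyticAt ℂ g q ∧
      ∀ᶠ x in 𝓝[>] (0 : ℝ), g (WS q p x) = s (WS q p x))
    {ρ : ℂ} (hρ : Tendsto (fun x : ℝ => (φ (WS q p x) - φ q) * s (WS q p x)) (𝓝[>] 0) (𝓝 ρ))
    (h : SchifferSolution (φ '' ball 0 1) lam c u G) :
    ∃ R : ℝ, 0 < R ∧ ρ = (R : ℂ) ^ 2 ∧
      ∑' n : ℕ, (-(lam * R ^ 2 / 4)) ^ n / ((n.factorial : ℝ) * ((n + 1).factorial : ℝ)) = 0 := by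
  have hlam := h.lam_pos
  have hpq : p ≠ q := by
    rintro rfl
    apply hsing
    have h1 : ∀ x, WS p p x = p := fun x => by simp [WS]
    refine ⟨s, hsd.analyticAt (hY.mem_nhds ?_), Eventually.of_forall fun x => rfl⟩
    have := hseg 1 ⟨one_pos, le_rfl⟩
    rwa [h1] at this
  obtain ⟨x₁, ⟨hx₁, hx₁1⟩, hball, v, hv, f₁, hkey⟩ := h.seg hr hφ hinj hY hYc ha haY hs hsd hq hseg
  have hD : SegData φ s v (lam / 4) r p q x₁ f₁ :=
    { hr := hr, hφ := hφ, hφ0 := (inv_pack hr hφ hinj).1, hv := hv, hx₁ := hx₁, hball := hball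
      hs := fun x hx => hsd.differentiableAt (hY.mem_nhds (hseg x ⟨hx.1, hx.2.trans hx₁1⟩))
      hX := by positivity
      key := hkey }
  have hqr : q ∈ ball (0 : ℂ) r := by
    rw [mem_ball_zero_iff]; linarith
  have hμ : (p - q) * deriv φ q ≠ 0 := mul_ne_zero (sub_ne_zero.2 hpq) (hD.hφ0 q hqr)
  set μ : ℂ := (p - q) * deriv φ q with hμdef
  have hψ := hD.hasDerivAt_φW.tendsto_slope_zero_right
  rw [← hμdef] at hψ
  have hψne : ∀ᶠ x in 𝓝[>] (0 : ℝ), x⁻¹ • (φ (WS q p (0 + x)) - φ (WS q p 0)) ≠ 0 :=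
    hψ.eventually_ne hμ
  have hL : Tendsto (fun x : ℝ => (x : ℂ) * s (WS q p x)) (𝓝[>] 0) (𝓝 (ρ / μ)) := by
    refine (hρ.div hψ hμ).congr' ?_
    filter_upwards [self_mem_nhdsWithin, hψne] with x hx hx'
    have hx0 : (x : ℂ) ≠ 0 := by
      have : (0 : ℝ) < x := hx
      exact_mod_cast this.ne'
    rw [zero_add, WS_zero, Complex.real_smul] at hx'
    have hx2 : φ (WS q p x) - φ q ≠ 0 := by
      intro h0
      rw [h0, mul_zero] at hx'
      exact hx' rfl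
    simp only [Pi.div_apply]
    rw [zero_add, WS_zero, Complex.real_smul]
    push_cast
    field_simp
  have hρ0 : ρ ≠ 0 := by
    intro h0
    rw [h0, zero_div] at hL
    have h1 := hL.norm
    rw [norm_zero] at h1
    have h2 : Tendsto (fun x : ℝ => x * ‖s (WS q p x)‖) (𝓝[>] 0) (𝓝 0) := by
      refine h1.congr' ?_
      filter_upwards [self_mem_nhdsWithin] with x hx
      have hx' : (0 : ℝ) < x := hx
      rw [norm_mul, Complex.norm_real, Real.norm_of_nonneg hx'.le]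
    obtain ⟨M, hM⟩ := hD.bdd h2
    exact hsing (hD.extend_of_bdd hM)
  have hb := hD.bessel hL (div_ne_zero hρ0 hμ)
  rw [← hμdef] at hb
  have e1 : μ * (((lam / 4 : ℝ) : ℂ) * (ρ / μ)) = ((lam / 4 : ℝ) : ℂ) * ρ := by
    field_simp
  rw [e1] at hb
  obtain ⟨A, hA, hAe⟩ := bessel_zero_pos hb
  have hlam4 : 0 < lam / 4 := by positivity
  have hR2 : √(A / (lam / 4)) ^ 2 = A / (lam / 4) := Real.sq_sqrt (by positivity)
  refine ⟨√(A / (lam / 4)), Real.sqrt_pos.2 (by positivity), ?_, ?_⟩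
  · have h1 : ρ = ((A / (lam / 4) : ℝ) : ℂ) := by
      have h2 : ((lam / 4 : ℝ) : ℂ) ≠ 0 := by exact_mod_cast hlam4.ne'
      rw [Complex.ofReal_div, ← hAe]
      field_simp
    rw [h1]
    exact_mod_cast hR2.symm
  · rw [hR2]
    have e2 : lam * (A / (lam / 4)) / 4 = A := by field_simp
    rw [e2]
    rw [hAe] at hb
    have h1 : ((∑' n : ℕ, (-A) ^ n / ((n.factorial : ℝ) * ((n + 1).factorial : ℝ)) : ℝ) : ℂ) = 0 := by
      rw [Complex.ofReal_tsum, ← hb]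
      congr 1
      funext n
      push_cast
      ring
    exact_mod_cast h1

end Pool.Agent.MP_83fd13_an
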