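import Mathlib
import Pool.Agent.MP_83fd13_an.Sp12

namespace Pool.Agent.MP_83fd13_an

open MeasureTheory Filter Metric Set
open scoped Topology ComplexConjugate

/-- A linear Volterra inequality with kernel `θ / x`, `θ < 1`. -/
theorem small_growth {σ : ℝ → ℝ} {x₂ C θ : ℝ} (hx₂ : 0 < x₂) (hσc : ContinuousOn σ (Ioc 0 x₂))
    (hσ0 : ∀ x, 0 ≤ σ x) (hθ0 : 0 ≤ θ) (hθ : θ < 1)
    (hV : ∀ x ∈ Ioc 0 x₂, σ x ≤ C + θ * ∫ x' in x..x₂, σ x' / x') :
    Tendsto (fun x => x * σ x) (𝓝[>] 0) (𝓝 0) := by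
  set k : ℝ → ℝ := fun x => σ x / x with hk
  set g : ℝ → ℝ := fun x => C + θ * ∫ x' in x..x₂, k x' with hg
  have hkc : ContinuousOn k (Ioc 0 x₂) := hσc.div continuousOn_id fun x hx => hx.1.ne'
  have hsubI : ∀ x ∈ Ioc 0 x₂, uIcc x x₂ ⊆ Ioc 0 x₂ := by
    intro x hx y hy
    rw [uIcc_of_le hx.2] at hy
    exact ⟨hx.1.trans_le hy.1, hy.2⟩
  have hgd : ∀ x ∈ Ioo 0 x₂, HasDerivAt g (-(θ * k x)) x := by
    intro x hx
    have hx' : x ∈ Ioc 0 x₂ := ⟨hx.1, hx.2.le⟩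
    have hn : Ioc 0 x₂ ∈ 𝓝 x := Ioc_mem_nhds hx.1 hx.2
    have h1 : HasDerivAt (fun x => ∫ x' in x..x₂, k x') (-(k x)) x := by
      apply intervalIntegral.integral_hasDerivAt_left
        ((hkc.mono (hsubI x hx')).intervalIntegrable)
      · exact hkc.stronglyMeasurableAtFilter_nhdsWithin measurableSet_Ioc x |>.filter_mono
          (le_of_eq (nhdsWithin_eq_nhds.2 hn).symm)
      · exact hkc.continuousAt hn
    have h2 := (h1.const_mul θ).const_add C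
    refine h2.congr_deriv ?_
    ring
  have hσg : ∀ x ∈ Ioc 0 x₂, σ x ≤ g x := hV
  have hmono : MonotoneOn (fun x => g x * x ^ θ) (Ioo 0 x₂) := by
    have hd : ∀ x ∈ Ioo 0 x₂, HasDerivAt (fun x => g x * x ^ θ)
        (-(θ * k x) * x ^ θ + g x * (θ * x ^ (θ - 1))) x := by
      intro x hx
      exact (hgd x hx).mul (Real.hasDerivAt_rpow_const (Or.inl hx.1.ne'))
    apply monotoneOn_of_deriv_nonneg (convex_Ioo 0 x₂)
    · exact fun x hx => (hd x hx).continuousAt.continuousWithinAt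
    · rw [interior_Ioo]
      exact fun x hx => (hd x hx).differentiableAt.differentiableWithinAt
    · rw [interior_Ioo]
      intro x hx
      rw [(hd x hx).deriv]
      have h1 : x ^ θ = x ^ (θ - 1) * x := by
        rw [← Real.rpow_add_one hx.1.ne', sub_add_cancel]
      have h2 : 0 ≤ x ^ (θ - 1) := (Real.rpow_pos_of_pos hx.1 _).le
      have h3 := hσg x ⟨hx.1, hx.2.le⟩
      have h4 : -(θ * k x) * x ^ θ + g x * (θ * x ^ (θ - 1)) =
          θ * x ^ (θ - 1) * (g x - σ x) := by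
        rw [h1, hk]
        have := hx.1.ne'
        field_simp
        ring
      rw [h4]
      exact mul_nonneg (mul_nonneg hθ0 h2) (by linarith)
  set x₃ : ℝ := x₂ / 2 with hx₃
  have hx₃m : x₃ ∈ Ioo 0 x₂ := ⟨by positivity, by linarith⟩
  set Q : ℝ := g x₃ * x₃ ^ θ with hQ
  have hlim : Tendsto (fun x : ℝ => Q * x ^ (1 - θ)) (𝓝[>] 0) (𝓝 0) := by
    have h1 : Tendsto (fun x : ℝ => x ^ (1 - θ)) (𝓝 0) (𝓝 0) := by
      have h2 := Real.continuousAt_rpow_const 0 (1 - θ) (Or.inr (by linarith))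
      have h3 := h2.tendsto
      rw [Real.zero_rpow (by linarith)] at h3
      exact h3
    have h4 := (h1.const_mul Q).mono_left (nhdsWithin_le_nhds (s := Ioi 0))
    rwa [mul_zero] at h4
  refine squeeze_zero' ?_ ?_ hlim
  · filter_upwards [self_mem_nhdsWithin] with x hx
    exact mul_nonneg (le_of_lt hx) (hσ0 x)
  · filter_upwards [Ioo_mem_nhdsGT hx₃m.1] with x hx
    have hx' : x ∈ Ioo 0 x₂ := ⟨hx.1, hx.2.trans hx₃m.2⟩
    have h1 : g x * x ^ θ ≤ Q := hmono hx' hx₃m hx.2.le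
    have h2 := hσg x ⟨hx'.1, hx'.2.le⟩
    have h3 : x = x ^ θ * x ^ (1 - θ) := by
      rw [← Real.rpow_add hx.1]
      simp
    have h4 : 0 ≤ x ^ (1 - θ) := (Real.rpow_pos_of_pos hx.1 _).le
    calc x * σ x ≤ x * g x := by
          have := hx.1
          gcongr
      _ = (x ^ θ * x ^ (1 - θ)) * g x := by rw [← h3]
      _ = g x * x ^ θ * x ^ (1 - θ) := by ring
      _ ≤ Q * x ^ (1 - θ) := by gcongr

attribute [local instance] fact_two_pi

/-- A sharper bound of the kernel. -/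
theorem norm_KP_le' (α β : ℂ) : ‖KP α β‖ ≤ ‖β‖ ^ 2 / 2 * Real.exp (‖α‖ * ‖β‖ / 3) := by
  have h1 := KP_hasSum α β
  have hmaj : HasSum (fun n : ℕ => ‖β‖ ^ 2 / 2 * ((‖α‖ * ‖β‖ / 3) ^ n / (n.factorial : ℝ)))
      (‖β‖ ^ 2 / 2 * Real.exp (‖α‖ * ‖β‖ / 3)) := by
    have := NormedSpace.expSeries_div_hasSum_exp (‖α‖ * ‖β‖ / 3)
    rw [← Real.exp_eq_exp_ℝ] at this
    exact this.mul_left _
  rw [← h1.tsum_eq]
  refine tsum_of_norm_bounded hmaj fun n => ?_
  rw [norm_mul, norm_mul, norm_mul, norm_inv, norm_inv, norm_pow, norm_pow, Complex.norm_natCast,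
    Complex.norm_natCast]
  have h2 : ∀ n : ℕ, 2 * 3 ^ n ≤ (n + 2).factorial := by
    intro n
    induction n with
    | zero => simp [Nat.factorial]
    | succ n ih =>
      have h3 : (n + 1 + 2).factorial = (n + 3) * (n + 2).factorial := Nat.factorial_succ _
      rw [h3, pow_succ]
      nlinarith
  have h3 : (((n + 2).factorial : ℝ))⁻¹ ≤ (2 * 3 ^ n)⁻¹ := by
    refine inv_anti₀ (by positivity) ?_
    exact_mod_cast h2 n
  calc (((n + 2).factorial : ℝ))⁻¹ * ‖β‖ ^ (n + 2) * (((n.factorial : ℝ))⁻¹ * ‖α‖ ^ n)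
      ≤ (2 * 3 ^ n)⁻¹ * ‖β‖ ^ (n + 2) * (((n.factorial : ℝ))⁻¹ * ‖α‖ ^ n) := by gcongr
    _ = ‖β‖ ^ 2 / 2 * ((‖α‖ * ‖β‖ / 3) ^ n / (n.factorial : ℝ)) := by
      rw [div_pow, mul_pow, pow_add]
      field_simp

variable {φ s v : ℂ → ℂ} {X r : ℝ} {p q : ℂ} {x₁ : ℝ} {f₁ : EE}

theorem exp_num : 1.2755 / 2 * Real.exp (1.2755 / 3) ≤ 0.99 := by
  have h1 := Real.exp_bound' (x := 1.2755 / 3) (by norm_num) (by norm_num) (n := 4) (by norm_num)
  have h2 : Real.exp (1.2755 / 3) ≤ 1.54 := by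
    refine h1.trans ?_
    norm_num [Finset.sum_range_succ, Nat.factorial]
  linarith

/-- Small polar growth is subpolar. -/
theorem SegData.small (h : SegData φ s v X r p q x₁ f₁) (hpq : p ≠ q)
    (hsm : ∀ᶠ x in 𝓝[>] (0 : ℝ), ‖(φ (WS q p x) - φ q) * s (WS q p x)‖ ≤ 5 / (4 * X)) :
    Tendsto (fun x : ℝ => x * ‖s (WS q p x)‖) (𝓝[>] 0) (𝓝 0) := by
  have hX := h.hX
  have hq : q ∈ ball (0 : ℂ) r := by
    have := h.mem (x := 0) ⟨le_rfl, h.hx₁.le⟩
    rwa [WS_zero] at this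
  set μ : ℂ := (p - q) * deriv φ q with hμdef
  have hμ : μ ≠ 0 := mul_ne_zero (sub_ne_zero.2 hpq) (h.hφ0 q hq)
  have hμ0 : 0 < ‖μ‖ := norm_pos_iff.2 hμ
  have hXn : ‖(X : ℂ)‖ = X := by rw [Complex.norm_real, Real.norm_of_nonneg hX.le]
  -- conditions near `0`
  have hψ := h.hasDerivAt_φW.tendsto_slope_zero_right.norm
  rw [← hμdef] at hψ
  have hev1 : ∀ᶠ x in 𝓝[>] (0 : ℝ), ‖μ‖ / 1.01 <
      ‖x⁻¹ • (φ (WS q p (0 + x)) - φ (WS q p 0))‖ := by
    refine hψ.eventually_const_lt ?_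
    rw [div_lt_iff₀ (by norm_num)]
    nlinarith
  have hW : Tendsto (fun x : ℝ => ‖(p - q) * deriv φ (WS q p x)‖) (𝓝[>] 0) (𝓝 ‖μ‖) := by
    have h1 := (h.contφ' 0 ⟨le_rfl, h.hx₁.le⟩).tendsto
    simp only [WS_zero] at h1
    have h2 := (h1.mono_left (nhdsWithin_mono (s := Ioo 0 x₁) 0 Ioo_subset_Icc_self))
    rw [nhdsWithin_Ioo_eq_nhdsGT h.hx₁] at h2
    exact (h2.const_mul (p - q)).norm
  have hev2 : ∀ᶠ x in 𝓝[>] (0 : ℝ), ‖(p - q) * deriv φ (WS q p x)‖ < 1.01 * ‖μ‖ := by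
    refine hW.eventually_lt_const ?_
    nlinarith
  have hev3 : ∀ᶠ x in 𝓝[>] (0 : ℝ), x < x₁ := by
    filter_upwards [Ioo_mem_nhdsGT h.hx₁] with x hx using hx.2
  obtain ⟨x₄, hx₄, hx₄s⟩ := mem_nhdsGT_iff_exists_Ioo_subset.1
    ((hev1.and hev2).and (hev3.and hsm))
  have hx₄0 : (0 : ℝ) < x₄ := hx₄
  set x₂ : ℝ := x₄ / 2 with hx₂def
  have hx₂ : 0 < x₂ := by positivity
  have hgood : ∀ x ∈ Ioc 0 x₂, (‖μ‖ / 1.01 < ‖x⁻¹ • (φ (WS q p (0 + x)) - φ (WS q p 0))‖ ∧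
      ‖(p - q) * deriv φ (WS q p x)‖ < 1.01 * ‖μ‖) ∧ x < x₁ ∧
      ‖(φ (WS q p x) - φ q) * s (WS q p x)‖ ≤ 5 / (4 * X) := fun x hx =>
    hx₄s ⟨hx.1, by linarith [hx.2]⟩
  have hx₂x₁ : x₂ < x₁ := (hgood x₂ ⟨hx₂, le_rfl⟩).2.1
  set σ : ℝ → ℝ := fun x => ‖(X : ℂ) * s (WS q p x)‖ with hσ
  have hσs : ∀ x, σ x = X * ‖s (WS q p x)‖ := by
    intro x
    simp only [hσ]
    rw [norm_mul, hXn]
  have hσ0 : ∀ x, 0 ≤ σ x := fun x => norm_nonneg _
  have hσc : ContinuousOn σ (Ioc 0 x₁) := (continuousOn_const.mul h.conts).norm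
  have hσx : ∀ x ∈ Ioc 0 x₂, 1.01 * ‖μ‖ * (x * σ x) ≤ 1.2755 := by
    intro x hx
    obtain ⟨⟨h1, _⟩, _, h2⟩ := hgood x hx
    rw [zero_add, WS_zero, norm_smul, norm_inv, Real.norm_of_nonneg hx.1.le, lt_inv_mul_iff₀ hx.1]
      at h1
    rw [norm_mul, le_div_iff₀ (by positivity)] at h2
    rw [hσs]
    have h3 : x * ‖μ‖ ≤ 1.01 * ‖φ (WS q p x) - φ q‖ := by
      have : x * (‖μ‖ / 1.01) = x * ‖μ‖ / 1.01 := by ring
      rw [this, div_lt_iff₀ (by norm_num)] at h1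
      linarith
    have h4 := norm_nonneg (s (WS q p x))
    have h5 : x * ‖μ‖ * (X * ‖s (WS q p x)‖) ≤
        1.01 * ‖φ (WS q p x) - φ q‖ * (X * ‖s (WS q p x)‖) := by gcongr
    nlinarith
  -- Lipschitz bound on the small interval
  have hlip : ∀ x ∈ Ioc 0 x₂, ∀ y ∈ Ioc 0 x₂, x ≤ y →
      ‖φ (WS q p x) - φ (WS q p y)‖ ≤ 1.01 * ‖μ‖ * (y - x) := by
    intro x hx y hy hxy
    have hd : ∀ z ∈ Ioc 0 x₂, HasDerivWithinAt (fun z => φ (WS q p z))
        ((p - q) * deriv φ (WS q p z)) (Ioc 0 x₂) z := by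
      intro z hz
      have hz' : z ∈ Icc 0 x₁ := ⟨hz.1.le, hz.2.trans hx₂x₁.le⟩
      have h1 := (h.hφ.differentiableAt (isOpen_ball.mem_nhds (h.mem hz'))).hasDerivAt
      have h2 := (h1.comp z (hasDerivAt_WS q p z)).hasDerivWithinAt (s := Ioc 0 x₂)
      rw [mul_comm] at h2
      exact h2
    have h1 := (convex_Ioc 0 x₂).norm_image_sub_le_of_norm_hasDerivWithin_le hd
      (C := 1.01 * ‖μ‖) (fun z hz => (hgood z hz).1.2.le) hy hx
    rw [Real.norm_eq_abs, abs_sub_comm, abs_of_nonneg (by linarith)] at h1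
    exact h1
  -- the remaining part of the integral
  obtain ⟨B, hB0, hB, hlip'⟩ := h.lip
  obtain ⟨C₀, hC₀⟩ := isCompact_Icc.exists_bound_of_continuousOn h.contDD
  have hC₀0 : 0 ≤ C₀ := (norm_nonneg _).trans (hC₀ 0 ⟨le_rfl, h.hx₁.le⟩)
  obtain ⟨M, hM⟩ := isCompact_Icc.exists_bound_of_continuousOn
    (hσc.mono (fun y (hy : y ∈ Icc x₂ x₁) => (⟨hx₂.trans_le hy.1, hy.2⟩ : y ∈ Ioc 0 x₁)))
  have hM0 : 0 ≤ M := (norm_nonneg _).trans (hM x₁ ⟨hx₂x₁.le, le_rfl⟩)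
  set C₁ : ℝ := ‖p - q‖ * B * (M ^ 2 / 2 * Real.exp (‖p - q‖ * B * x₁ * M)) with hC₁
  set θ : ℝ := 1.2755 / 2 * Real.exp (1.2755 / 3) with hθ
  have hθ0 : 0 ≤ θ := by positivity
  have hθ1 : θ < 1 := lt_of_le_of_lt exp_num (by norm_num)
  have hres : Tendsto (fun x => x * σ x) (𝓝[>] 0) (𝓝 0) := by
    refine small_growth (C := C₀ + C₁ * (x₁ - x₂)) hx₂
      (hσc.mono fun y hy => ⟨hy.1, hy.2.trans hx₂x₁.le⟩) hσ0 hθ0 hθ1 ?_
    · intro x hx
      have hx' : x ∈ Icc 0 x₁ := ⟨hx.1.le, hx.2.trans hx₂x₁.le⟩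
      have hx'' : x ∈ Ioc 0 x₁ := ⟨hx.1, hx.2.trans hx₂x₁.le⟩
      have hcG := h.cont_int x
      have hi1 : IntervalIntegrable (fun x' => ((p - q) * deriv φ (WS q p x')) *
          KP (φ (WS q p x) - φ (WS q p x')) ((X : ℂ) * s (WS q p x'))) volume x x₂ := by
        refine (hcG.mono fun y hy => ?_).intervalIntegrable
        rw [uIcc_of_le hx.2] at hy
        exact ⟨hx.1.trans_le hy.1, hy.2.trans hx₂x₁.le⟩
      have hi2 : IntervalIntegrable (fun x' => ((p - q) * deriv φ (WS q p x')) *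
          KP (φ (WS q p x) - φ (WS q p x')) ((X : ℂ) * s (WS q p x'))) volume x₂ x₁ := by
        refine (hcG.mono fun y hy => ?_).intervalIntegrable
        rw [uIcc_of_le hx₂x₁.le] at hy
        exact ⟨hx₂.trans_le hy.1, hy.2⟩
      have hb1 : ‖∫ x' in x..x₂, ((p - q) * deriv φ (WS q p x')) *
          KP (φ (WS q p x) - φ (WS q p x')) ((X : ℂ) * s (WS q p x'))‖ ≤
          ∫ x' in x..x₂, θ * (σ x' / x') := by
        have hint : IntervalIntegrable (fun x' => θ * (σ x' / x')) volume x x₂ := by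
          refine ContinuousOn.intervalIntegrable ?_
          rw [uIcc_of_le hx.2]
          refine continuousOn_const.mul ((hσc.mono fun y hy =>
            ⟨hx.1.trans_le hy.1, hy.2.trans hx₂x₁.le⟩).div continuousOn_id fun y hy =>
            (hx.1.trans_le hy.1).ne')
        refine intervalIntegral.norm_integral_le_of_norm_le hx.2 ?_ hint
        refine Eventually.of_forall fun x' hx3 => ?_
        have hx4 : x' ∈ Ioc 0 x₂ := ⟨hx.1.trans hx3.1, hx3.2⟩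
        have hx40 := hx4.1
        rw [norm_mul]
        have h2 := norm_KP_le' (φ (WS q p x) - φ (WS q p x')) ((X : ℂ) * s (WS q p x'))
        have h3 := hlip x hx x' hx4 hx3.1.le
        have h6 := (hgood x' hx4).1.2.le
        have h7 := hσx x' hx4
        have h8 : 0 ≤ σ x' := hσ0 x'
        have h4 : ‖φ (WS q p x) - φ (WS q p x')‖ * σ x' ≤ 1.2755 := by
          refine le_trans ?_ h7
          calc ‖φ (WS q p x) - φ (WS q p x')‖ * σ x' ≤ 1.01 * ‖μ‖ * (x' - x) * σ x' := by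
                gcongr
            _ ≤ 1.01 * ‖μ‖ * x' * σ x' := by
                gcongr
                linarith [hx.1]
            _ = 1.01 * ‖μ‖ * (x' * σ x') := by ring
        have h9 : 1.01 * ‖μ‖ * σ x' ≤ 1.2755 / x' := by
          rw [le_div_iff₀ hx40]
          calc 1.01 * ‖μ‖ * σ x' * x' = 1.01 * ‖μ‖ * (x' * σ x') := by ring
            _ ≤ 1.2755 := h7
        calc ‖(p - q) * deriv φ (WS q p x')‖ *
              ‖KP (φ (WS q p x) - φ (WS q p x')) ((X : ℂ) * s (WS q p x'))‖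
            ≤ 1.01 * ‖μ‖ * (σ x' ^ 2 / 2 * Real.exp (1.2755 / 3)) := by
              gcongr
              refine h2.trans ?_
              gcongr
          _ = 1.01 * ‖μ‖ * σ x' * (σ x' / 2 * Real.exp (1.2755 / 3)) := by ring
          _ ≤ 1.2755 / x' * (σ x' / 2 * Real.exp (1.2755 / 3)) := by gcongr
          _ = θ * (σ x' / x') := by rw [hθ]; ring
      have hb2 : ‖∫ x' in x₂..x₁, ((p - q) * deriv φ (WS q p x')) *
          KP (φ (WS q p x) - φ (WS q p x')) ((X : ℂ) * s (WS q p x'))‖ ≤ C₁ * |x₁ - x₂| := by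
        refine intervalIntegral.norm_integral_le_of_norm_le_const fun x' hx3 => ?_
        rw [uIoc_of_le hx₂x₁.le] at hx3
        have hx4 : x' ∈ Icc 0 x₁ := ⟨hx₂.le.trans hx3.1.le, hx3.2⟩
        have hxx' : x ≤ x' := hx.2.trans hx3.1.le
        rw [norm_mul, norm_mul]
        have h2 := norm_KP_le (φ (WS q p x) - φ (WS q p x')) ((X : ℂ) * s (WS q p x'))
        have h3 := hlip' x hx' x' hx4 hxx'
        have h6 := hB x' hx4
        have h7 : σ x' ≤ M := (le_abs_self _).trans (hM x' ⟨hx3.1.le, hx3.2⟩)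
        have h8 : 0 ≤ σ x' := hσ0 x'
        have h4 : ‖φ (WS q p x) - φ (WS q p x')‖ * σ x' ≤ ‖p - q‖ * B * x₁ * M := by
          have h5 : x' - x ≤ x₁ := by linarith [hx.1, hx4.2]
          have h5' : 0 ≤ x' - x := by linarith
          calc ‖φ (WS q p x) - φ (WS q p x')‖ * σ x' ≤ ‖p - q‖ * B * (x' - x) * σ x' := by
                gcongr
            _ ≤ ‖p - q‖ * B * x₁ * M := by
                have := h.hx₁
                gcongr
        rw [hC₁]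
        calc ‖p - q‖ * ‖deriv φ (WS q p x')‖ *
              ‖KP (φ (WS q p x) - φ (WS q p x')) ((X : ℂ) * s (WS q p x'))‖
            ≤ ‖p - q‖ * B * (σ x' ^ 2 / 2 * Real.exp (‖p - q‖ * B * x₁ * M)) := by
              gcongr
              refine h2.trans ?_
              gcongr
          _ ≤ ‖p - q‖ * B * (M ^ 2 / 2 * Real.exp (‖p - q‖ * B * x₁ * M)) := by gcongr
      have h3 : σ x = ‖(X : ℂ) * s (WS q p x)‖ := rfl
      rw [h3, h.volterra hx'', ← intervalIntegral.integral_add_adjacent_intervals hi1 hi2]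
      rw [intervalIntegral.integral_const_mul] at hb1
      rw [abs_of_nonneg (by linarith)] at hb2
      refine (norm_add_le _ _).trans ?_
      have h4 := norm_add_le (∫ x' in x..x₂, ((p - q) * deriv φ (WS q p x')) *
          KP (φ (WS q p x) - φ (WS q p x')) ((X : ℂ) * s (WS q p x')))
        (∫ x' in x₂..x₁, ((p - q) * deriv φ (WS q p x')) *
          KP (φ (WS q p x) - φ (WS q p x')) ((X : ℂ) * s (WS q p x')))
      have h5 := hC₀ x hx'
      linarith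
  have h1 := hres.const_mul X⁻¹
  rw [mul_zero] at h1
  refine h1.congr fun x => ?_
  rw [hσs]
  field_simp

end Pool.Agent.MP_83fd13_an
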