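import Mathlib
import Pool.Agent.MP_83fd13_an.Sp13

namespace Pool.Agent.MP_83fd13_an

open MeasureTheory Filter Metric
open scoped Topology ComplexConjugate

variable {lam c : ℝ} {u : ℂ → ℝ} {G : ℂ → ℂ}

theorem main_sp2 {φ s : ℂ → ℂ} {r : ℝ} (hr : 1 < r)
    (hφ : DifferentiableOn ℂ φ (ball 0 r)) (hinj : Set.InjOn φ (ball 0 r))
    {Y : Set ℂ} (hY : IsOpen Y) (hYc : IsConnected Y) {a : ℂ} (ha : ‖a‖ = 1) (haY : a ∈ Y)
    (hs : ∀ w ∈ Y, ‖w‖ = 1 → s w = conj (φ w)) (hsd : DifferentiableOn ℂ s Y)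
    {p q : ℂ} (hq : ‖q‖ < 1) (hseg : ∀ x ∈ Set.Ioc (0 : ℝ) 1, WS q p x ∈ Y)
    (hsing : ¬ ∃ g : ℂ → ℂ, AnalyticAt ℂ g q ∧
      ∀ᶠ x in 𝓝[>] (0 : ℝ), g (WS q p x) = s (WS q p x))
    (h : SchifferSolution (φ '' ball 0 1) lam c u G) :
    ∃ᶠ x in 𝓝[>] (0 : ℝ), 5 / lam < ‖(φ (WS q p x) - φ q) * s (WS q p x)‖ := by
  have hlam := h.lam_pos
  have hpq : p ≠ q := by
    rintro rfl
    apply hsing
    have h1 : ∀ x, WS p p x = p := fun x => by simp [WS]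
    refine ⟨s, hsd.analyticAt (hY.mem_nhds ?_), Eventually.of_forall fun x => rfl⟩
    have := hseg 1 ⟨one_pos, le_rfl⟩
    rwa [h1] at this
  obtain ⟨x₁, ⟨hx₁, hx₁1⟩, hball, v, hv, f₁, hkey⟩ := h.seg hr hφ hinj hY hYc ha haY hs hsd hq hseg
  have hD : SegData φ s v (lam / 4) r p q x₁ f₁ :=
    { hr := hr, hφ := hφ, hφ0 := (inv_pack hr hφ hinj).1, hv := hv, hx₁ := hx₁, hball := hball
      hs := fun x hx => hsd.differentiableAt (hY.mem_nhds (hseg x ⟨hx.1, hx.2.trans hx₁1⟩))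
      hX := by positivity
      key := hkey }
  by_contra hcon
  rw [not_frequently] at hcon
  have hsm : ∀ᶠ x in 𝓝[>] (0 : ℝ), ‖(φ (WS q p x) - φ q) * s (WS q p x)‖ ≤
      5 / (4 * (lam / 4)) := by
    filter_upwards [hcon] with x hx
    have e : 4 * (lam / 4) = lam := by ring
    rw [e]
    exact not_lt.1 hx
  obtain ⟨M, hM⟩ := hD.bdd (hD.small hpq hsm)
  exact hsing (hD.extend_of_bdd hM)

end Pool.Agent.MP_83fd13_an
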